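import Pool.Agent.PP5C.Defs
import Pool.Agent.PP5R.Cube

/-!
# EqX: points of the cone `FX x = 0` in a small box and a class (difficulty 3)

Proved from `PP5R.chart_u` (files `Pool/Agent/PP5R/*.lean`).
-/

set_option autoImplicit false

namespace Pool.Agent.PP5C

open Finset Pool.Agent.PPS

private theorem eqx_main {T H Q : ℝ} {n : ℕ} (hP : PP5R.Par T H Q n) {τ Y : Fin 10 → ℝ}
    {x0 : Fin 10 → ℤ} (hτ : ∀ j, PP5R.Scl Q (τ j)) (hττ : ∀ j, τ j * τ (PP5R.prt j) = 1)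
    (S : Finset (Fin 10 → ℤ)) (hF : ∀ x ∈ S, FX x = 0)
    (hc : ∀ x ∈ S, ∀ j, |(x j : ℝ) - Y j| ≤ H * τ j)
    (hr : ∀ x ∈ S, ∀ j, (n : ℤ) ∣ x j - x0 j) (j : Fin 10)
    (hbig : ∀ x ∈ S, T * τ j ≤ |(x j : ℝ)|) (hM : ∀ x ∈ S, ∀ j, |(x j : ℝ)| ≤ T * Q) :
    (S.card : ℝ) ≤ 10 ^ 6 * (s1 (gx n j x0) : ℝ) * ((H / n) ^ 9 / T) := by
  have hg0 : 0 < gx n j x0 := Nat.gcd_pos_of_pos_left _ hP.ha
  have hs1 : (s1 (gx n j x0) : ℝ) = ∑ c ∈ (gx n j x0).divisors, (c : ℝ) := by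
    unfold s1
    push_cast
    rfl
  rw [hs1]
  have main : ∀ (u : Fin 5 → Fin 10) (e : Fin 5 → ℤ), tr j 0 = u 0 → tr j 1 = u 1 → tr j 2 = u 2 →
      j = u 0 → (∀ i, e i = 1 ∨ e i = -1) → (∀ j, ∃ i, j = u i ∨ j = PP5R.prt (u i)) →
      (∀ x : Fin 10 → ℤ, FX x = x (u 0) * (e 0 * x (PP5R.prt (u 0))) +
        x (u 1) * (e 1 * x (PP5R.prt (u 1))) + x (u 2) * (e 2 * x (PP5R.prt (u 2))) +
        x (u 3) * (e 3 * x (PP5R.prt (u 3))) + x (u 4) * (e 4 * x (PP5R.prt (u 4)))) →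
      (S.card : ℝ) ≤ 10 ^ 6 * (∑ c ∈ (gx n j x0).divisors, (c : ℝ)) * ((H / n) ^ 9 / T) := by
    intro u e h0 h1 h2 hj he hcov hFq
    refine PP5R.chart_u hP hτ hττ S hc hr u e he hcov ?_ ?_ hM hg0 ?_
    · intro x hx
      rw [← hFq x]
      exact hF x hx
    · intro x hx
      rw [← hj]
      exact hbig x hx
    · intro d hd g0 g1 g2
      unfold gx
      rw [h0, h1, h2]
      exact Nat.dvd_gcd hd (Nat.dvd_gcd (Int.natCast_dvd.mp g0)
        (Nat.dvd_gcd (Int.natCast_dvd.mp g1) (Int.natCast_dvd.mp g2)))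
  fin_cases j
  · exact main ![0, 1, 4, 6, 7] ![1, -1, -1, -1, 1] rfl rfl rfl rfl (by decide) (by decide)
      (by intro x; simp [FX, PP5R.prt]; ring)
  · exact main ![1, 0, 4, 6, 7] ![-1, 1, -1, -1, 1] rfl rfl rfl rfl (by decide) (by decide)
      (by intro x; simp [FX, PP5R.prt]; ring)
  · exact main ![2, 1, 4, 6, 7] ![1, -1, -1, -1, 1] rfl rfl rfl rfl (by decide) (by decide)
      (by intro x; simp [FX, PP5R.prt]; ring)
  · exact main ![3, 0, 4, 6, 7] ![-1, 1, -1, -1, 1] rfl rfl rfl rfl (by decide) (by decide)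
      (by intro x; simp [FX, PP5R.prt]; ring)
  · exact main ![4, 0, 1, 6, 7] ![-1, 1, -1, -1, 1] rfl rfl rfl rfl (by decide) (by decide)
      (by intro x; simp [FX, PP5R.prt]; ring)
  · exact main ![5, 0, 1, 6, 7] ![-1, 1, -1, -1, 1] rfl rfl rfl rfl (by decide) (by decide)
      (by intro x; simp [FX, PP5R.prt]; ring)
  · exact main ![6, 0, 1, 4, 7] ![-1, 1, -1, -1, 1] rfl rfl rfl rfl (by decide) (by decide)
      (by intro x; simp [FX, PP5R.prt]; ring)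
  · exact main ![7, 0, 1, 4, 6] ![1, 1, -1, -1, -1] rfl rfl rfl rfl (by decide) (by decide)
      (by intro x; simp [FX, PP5R.prt]; ring)
  · exact main ![8, 0, 1, 4, 6] ![1, 1, -1, -1, -1] rfl rfl rfl rfl (by decide) (by decide)
      (by intro x; simp [FX, PP5R.prt]; ring)
  · exact main ![9, 0, 1, 4, 7] ![-1, 1, -1, -1, 1] rfl rfl rfl rfl (by decide) (by decide)
      (by intro x; simp [FX, PP5R.prt]; ring)

theorem eqx (δ : ℝ) (hδ : 0 < δ) : ∃ δ1 C T0 : ℝ, 0 < δ1 ∧ 0 < C ∧ 2 ≤ T0 ∧ ∀ T : ℝ, T0 ≤ T →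
    ∀ (ρ R : ℝ) (τ Y : Fin 10 → ℝ) (n : ℕ) (x0 : Fin 10 → ℤ) (j : Fin 10), T ^ δ ≤ ρ → ρ ≤ R →
    R ≤ T ^ δ1 * ρ → (∀ i, T ^ (-δ1) ≤ τ i ∧ τ i ≤ T ^ δ1) →
    (τ 0 * τ 2 = 1 ∧ τ 1 * τ 3 = 1 ∧ τ 4 * τ 5 = 1 ∧ τ 6 * τ 9 = 1 ∧ τ 7 * τ 8 = 1) →
    1 ≤ n → (n : ℝ) ≤ T ^ δ1 → ∀ S : Finset (Fin 10 → ℤ),
    (∀ x ∈ S, (∀ i, Y i ≤ (x i : ℝ) ∧ (x i : ℝ) ≤ Y i + ρ * τ i ∧ |(x i : ℝ)| ≤ 5 * R * τ i) ∧
      R * τ j / 16 ≤ |(x j : ℝ)| ∧ FX x = 0 ∧ Cg n x x0) →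
    (S.card : ℝ) ≤ C * (ρ ^ 9 / (R * (n : ℝ) ^ 9)) * (s1 (gx n j x0) : ℝ) := by
  refine ⟨δ / 200, 16 * 10 ^ 6, max 2 ((16 * 80 ^ 100 : ℝ) ^ (2 / δ)), by positivity, by positivity,
    le_max_left _ _, ?_⟩
  intro T hT ρ R τ Y n x0 j hρ hρR hR hτ hττ hn hnT S hS
  have hT2 : 2 ≤ T := (le_max_left _ _).trans hT
  have hT0 : 0 < T := by linarith
  have hT1 : 1 ≤ T := by linarith
  have hTb : (16 * 80 ^ 100 : ℝ) ≤ T ^ (δ / 2) := by
    have h1 : ((16 * 80 ^ 100 : ℝ) ^ (2 / δ)) ^ (δ / 2) ≤ T ^ (δ / 2) :=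
      Real.rpow_le_rpow (by positivity) ((le_max_right _ _).trans hT) (by positivity)
    rw [← Real.rpow_mul (by positivity)] at h1
    have e : 2 / δ * (δ / 2) = 1 := by field_simp
    rw [e, Real.rpow_one] at h1
    exact h1
  obtain ⟨s, hs⟩ : ∃ s : ℝ, s = T ^ (δ / 200) := ⟨_, rfl⟩
  have hs1 : 1 ≤ s := by rw [hs]; exact Real.one_le_rpow hT1 (by positivity)
  have hs0 : 0 < s := by linarith
  have hsneg : T ^ (-(δ / 200)) = s⁻¹ := by rw [hs, Real.rpow_neg hT0.le]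
  have hs100 : s ^ 100 * (16 * 80 ^ 100) ≤ T ^ δ := by
    have e1 : s ^ 100 = T ^ (δ / 2) := by
      rw [hs, ← Real.rpow_natCast, ← Real.rpow_mul hT0.le]
      congr 1
      push_cast
      ring
    have e2 : T ^ δ = T ^ (δ / 2) * T ^ (δ / 2) := by
      rw [← Real.rpow_add hT0]
      congr 1
      ring
    rw [e1, e2]
    have : 0 < T ^ (δ / 2) := Real.rpow_pos_of_pos hT0 _
    gcongr
  rw [← hs] at hR hnT
  rw [← hs, hsneg] at hτ
  have hρ0 : 0 < ρ := lt_of_lt_of_le (Real.rpow_pos_of_pos hT0 _) hρ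
  have hR0 : 0 < R := by linarith
  have hnr : (0 : ℝ) < n := by exact_mod_cast hn
  have hP : PP5R.Par (R / 16) ρ (80 * s) n := by
    refine ⟨by linarith, ?_, hn, by linarith, ?_, ?_⟩
    · rw [le_div_iff₀ (by norm_num)]
      calc (80 * s) ^ 100 * 16 = s ^ 100 * (16 * 80 ^ 100) := by rw [mul_pow]; ring
        _ ≤ T ^ δ := hs100
        _ ≤ ρ := hρ
        _ ≤ R := hρR
    · nlinarith
    · linarith
  have hScl : ∀ j, PP5R.Scl (80 * s) (τ j) := by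
    intro j
    obtain ⟨h1, h2⟩ := hτ j
    refine ⟨?_, by linarith⟩
    have h3 : 1 ≤ s * τ j := by
      calc (1 : ℝ) = s * s⁻¹ := by field_simp
        _ ≤ s * τ j := by gcongr
    nlinarith
  have hprt : ∀ j, τ j * τ (PP5R.prt j) = 1 := by
    obtain ⟨h1, h2, h3, h4, h5⟩ := hττ
    intro j
    fin_cases j
    · exact h1
    · exact h2
    · exact (mul_comm _ _).trans h1
    · exact (mul_comm _ _).trans h2
    · exact h3
    · exact (mul_comm _ _).trans h3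
    · exact h4
    · exact h5
    · exact (mul_comm _ _).trans h5
    · exact (mul_comm _ _).trans h4
  have hτ0 : ∀ j, 0 < τ j := by
    intro j
    obtain ⟨h1, _⟩ := hτ j
    exact lt_of_lt_of_le (by positivity) h1
  have key := eqx_main hP (x0 := x0) (Y := Y) hScl hprt S (fun x hx => (hS x hx).2.2.1) (by
      intro x hx i
      obtain ⟨h1, h2, _⟩ := (hS x hx).1 i
      have := hτ0 i
      rw [abs_of_nonneg (by linarith)]
      linarith) (fun x hx => (hS x hx).2.2.2) j (by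
      intro x hx
      have := (hS x hx).2.1
      linarith) (by
      intro x hx i
      obtain ⟨_, _, h3⟩ := (hS x hx).1 i
      refine h3.trans ?_
      have e : R / 16 * (80 * s) = 5 * R * s := by ring
      rw [e]
      have := (hτ i).2
      gcongr)
  refine key.trans (le_of_eq ?_)
  field_simp

end Pool.Agent.PP5C
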