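import Pool.Agent.PP5C.FcX
import Pool.Agent.PP5C.EqX

/-!
# ClX: the sum over a cell (difficulty 4)

* If `a` is not coprime to `n0 n1` the left side is `0` (empty set): a prime `l ∣ a`, `l ∣ n0` gives `l ∣ D2 x`; `l ∣ a`, `l ∣ n1` gives
  `l ∣ 8 adj S(x)`, so `l = 2 ∣ D2 x`, or `l ∣` all entries of the adjugate, `S adj S = DX x * 1`, `l ∣ DX x`.
* Otherwise group the points by their class modulo `n = n0 n1 a` (`x ↦ x % n ∈ cub n`): the class satisfies the conditions of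
  the filter in `fcx` (`FX x = 0`, `Pm x`), `∏ psx`, the conditions and `gx n j` depend only on the class; each class
  contains at most `C (ρ ^ 9 / (R n ^ 9)) s1 (gx n j x0)` points (`eqx`).  `fcx` gives the result.
-/

set_option autoImplicit false

namespace Pool.Agent.PP5C

open Finset Pool.Agent.PPS

private theorem clx_cast {n : ℕ} {x y : Fin 10 → ℤ} (h : Cg n x y) (i : Fin 10) :
    ((x i : ℤ) : ZMod n) = ((y i : ℤ) : ZMod n) := by
  rw [eq_comm, ZMod.intCast_eq_intCast_iff_dvd_sub]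
  exact h i

private theorem clx_symm {n : ℕ} {x y : Fin 10 → ℤ} (h : Cg n x y) : Cg n y x := by
  intro i
  rw [← neg_sub]
  exact (h i).neg_right

private theorem clx_dvd {n m : ℕ} (hm : m ∣ n) {x y : Fin 10 → ℤ} (h : Cg n x y) : Cg m x y :=
  fun i => (Int.natCast_dvd_natCast.mpr hm).trans (h i)

private theorem clx_map {n : ℕ} {x y : Fin 10 → ℤ} (h : Cg n x y) :
    (Int.castRingHom (ZMod n)).mapMatrix (SX x) = (Int.castRingHom (ZMod n)).mapMatrix (SX y) := by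
  ext i j
  fin_cases i <;> fin_cases j <;> simp [SX, clx_cast h]

private theorem clx_DX {n : ℕ} {x y : Fin 10 → ℤ} (h : Cg n x y) :
    ((DX x : ℤ) : ZMod n) = ((DX y : ℤ) : ZMod n) := by
  have h1 := congrArg Matrix.det (clx_map h)
  rw [← RingHom.map_det, ← RingHom.map_det] at h1
  exact h1

private theorem clx_adj {n : ℕ} {x y : Fin 10 → ℤ} (h : Cg n x y) (i j : Fin 4) :
    (((SX x).adjugate i j : ℤ) : ZMod n) = (((SX y).adjugate i j : ℤ) : ZMod n) := by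
  have h1 := congrArg Matrix.adjugate (clx_map h)
  rw [← RingHom.map_adjugate, ← RingHom.map_adjugate] at h1
  exact congrFun (congrFun h1 i) j

private theorem clx_FX {n : ℕ} {x y : Fin 10 → ℤ} (h : Cg n x y) :
    ((FX x : ℤ) : ZMod n) = ((FX y : ℤ) : ZMod n) := by
  simp only [FX]
  push_cast
  simp only [clx_cast h]

private theorem clx_D2 (n : ℕ) (x : Fin 10 → ℤ) : n ∣ D2 x ↔ (n : ℤ) ∣ 2 * DX x := by
  rw [Int.natCast_dvd, Int.natAbs_mul]
  rfl

private theorem clx_D2p {n : ℕ} {x y : Fin 10 → ℤ} (h : Cg n x y) (hx : n ∣ D2 x) : n ∣ D2 y := by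
  rw [clx_D2, ← ZMod.intCast_zmod_eq_zero_iff_dvd] at hx ⊢
  push_cast at hx ⊢
  rw [← clx_DX h]
  exact hx

private theorem clx_An {n : ℕ} {x y : Fin 10 → ℤ} (h : Cg n x y) (hx : An n x) : An n y := by
  intro i j
  have := hx i j
  rw [← ZMod.intCast_zmod_eq_zero_iff_dvd] at this ⊢
  push_cast at this ⊢
  rw [← clx_adj h]
  exact this

private theorem clx_cop {a : ℕ} {x y : Fin 10 → ℤ} (h : Cg a x y) (hx : Nat.Coprime a (D2 x)) :
    Nat.Coprime a (D2 y) := by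
  have h1 : Nat.gcd a (D2 y) ∣ a := Nat.gcd_dvd_left _ _
  have h2 : Nat.gcd a (D2 y) ∣ D2 x := clx_D2p (clx_symm (clx_dvd h1 h)) (Nat.gcd_dvd_right _ _)
  have h3 := Nat.dvd_gcd h1 h2
  rw [hx] at h3
  exact Nat.dvd_one.mp h3

private theorem clx_psx {l : ℕ} {x y : Fin 10 → ℤ} (h : Cg l x y) : psx x l = psx y l := by
  unfold psx
  rw [clx_DX h]

private theorem clx_psx0 (x : Fin 10 → ℤ) (l : ℕ) : 0 ≤ psx x l := by
  unfold psx
  split_ifs <;> norm_num

private theorem clx_pr {n0 n1 a : ℕ} {x : Fin 10 → ℤ} (h0 : n0 ∣ D2 x) (h1 : An n1 x)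
    (h2 : Nat.Coprime a (D2 x)) : Nat.Coprime n0 a ∧ Nat.Coprime n1 a := by
  refine ⟨(h2.coprime_dvd_right h0).symm, ?_⟩
  refine Nat.Coprime.symm (Nat.coprime_of_dvd fun l hl hla hl1 => ?_)
  have h3 : (l : ℤ) ∣ 8 * DX x := by
    have h4 : (SX x * (SX x).adjugate) 0 0 = DX x := by
      rw [Matrix.mul_adjugate, Matrix.smul_apply, Matrix.one_apply_eq, smul_eq_mul, mul_one]
      rfl
    rw [Matrix.mul_apply] at h4
    rw [← h4, mul_sum]
    refine dvd_sum fun k _ => ?_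
    have h5 : 8 * (SX x 0 k * (SX x).adjugate k 0) = SX x 0 k * (8 * (SX x).adjugate k 0) := by ring
    rw [h5]
    exact ((Int.natCast_dvd_natCast.mpr hl1).trans (h1 k 0)).mul_left _
  have h4 : (l : ℤ) ∣ 2 * DX x := by
    have h5 : (8 : ℤ) * DX x = 2 * (2 * (2 * DX x)) := by ring
    rw [h5] at h3
    have hp : Prime (l : ℤ) := Nat.prime_iff_prime_int.mp hl
    rcases hp.dvd_or_dvd h3 with h | h
    · exact h.mul_right _
    · rcases hp.dvd_or_dvd h with h | h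
      · exact h.mul_right _
      · exact h
  have h5 := Nat.dvd_gcd hla ((clx_D2 l x).mpr h4)
  rw [h2] at h5
  exact hl.one_lt.ne' (Nat.dvd_one.mp h5)

private theorem clx_r0n {C : ℝ} (hC : 0 ≤ C) (n : ℕ) : 0 ≤ r0 C n := by
  unfold r0
  exact prod_nonneg fun l _ => by positivity

private theorem clx_r0 {C C' : ℝ} (hC : 0 ≤ C) (h : C ≤ C') (n : ℕ) : r0 C n ≤ r0 C' n := by
  unfold r0
  refine prod_le_prod (fun l _ => by positivity) fun l _ => ?_
  gcongr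

private theorem clx_r1n {C : ℝ} (hC : 0 ≤ C) (n : ℕ) : 0 ≤ r1 C n := by
  unfold r1 rk
  exact prod_nonneg fun l _ => by positivity

private theorem clx_r1 {C C' : ℝ} (hC : 0 ≤ C) (h : C ≤ C') (n : ℕ) : r1 C n ≤ r1 C' n := by
  unfold r1 rk
  refine prod_le_prod (fun l _ => by positivity) fun l _ => ?_
  gcongr

private theorem clx_ran {C : ℝ} (hC : 0 ≤ C) (n : ℕ) : 0 ≤ ra C n := by
  unfold ra
  exact prod_nonneg fun l _ => by positivity

private theorem clx_ra {C C' : ℝ} (hC : 0 ≤ C) (h : C ≤ C') (n : ℕ) : ra C n ≤ ra C' n := by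
  unfold ra
  refine prod_le_prod (fun l _ => by positivity) fun l _ => ?_
  gcongr

theorem clx (δ : ℝ) (hδ : 0 < δ) : ∃ δ1 C T0 : ℝ, 0 < δ1 ∧ 1 ≤ C ∧ 2 ≤ T0 ∧ ClP δ δ1 C T0 := by
  classical
  obtain ⟨δ1, Ce, T0, hδ1, hCe, hT0, he⟩ := eqx δ hδ
  obtain ⟨Cf, hCf, hf⟩ := fcx
  refine ⟨δ1, max Ce Cf, T0, hδ1, le_max_of_le_right hCf, hT0, ?_⟩
  intro T hT A ρ R τ Y j hs n0 n1 a hn0 hn1 ha h01 hnT S hS
  have hT1 : (1 : ℝ) ≤ T := by linarith
  have hT2 : (0 : ℝ) < T := by linarith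
  have hρ : 0 < ρ := lt_of_lt_of_le (Real.rpow_pos_of_pos hT2 _) hs.r1
  have hR : 0 < R := lt_of_lt_of_le hρ hs.r2
  have hC0 : (0 : ℝ) ≤ max Ce Cf := le_max_of_le_left hCe.le
  have hCf0 : (0 : ℝ) ≤ Cf := by linarith
  have hRHS : 0 ≤ max Ce Cf * (ρ ^ 9 / R) *
      (r0 (max Ce Cf) n0 * r1 (max Ce Cf) n1 * ra (max Ce Cf) a) := by
    have := clx_r0n hC0 n0
    have := clx_r1n hC0 n1
    have := clx_ran hC0 a
    positivity
  set S' := S.filter (fun x => n0 ∣ D2 x ∧ An n1 x ∧ Nat.Coprime a (D2 x)) with hS'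
  by_cases hcop : Nat.Coprime n0 a ∧ Nat.Coprime n1 a
  swap
  · have : S' = ∅ := by
      rw [hS', filter_eq_empty_iff]
      rintro x - ⟨h0, h1, h2⟩
      exact hcop (clx_pr h0 h1 h2)
    rw [this, sum_empty]
    exact hRHS
  obtain ⟨hc0, hc1⟩ := hcop
  have hn : 1 ≤ n0 * n1 * a :=
    Nat.one_le_iff_ne_zero.mpr (mul_ne_zero (mul_ne_zero hn0.ne_zero hn1) ha.ne_zero)
  set n := n0 * n1 * a with hndef
  have hnZ : (0 : ℤ) < (n : ℤ) := by exact_mod_cast hn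
  have hnR : (0 : ℝ) < (n : ℝ) := by exact_mod_cast hn
  set red : (Fin 10 → ℤ) → (Fin 10 → ℤ) := fun x i => x i % (n : ℤ) with hred
  have hcg : ∀ x, Cg n x (red x) := by
    intro x i
    exact Int.dvd_self_sub_emod
  set U := (cub (Fin 10) n).filter (fun x => (n : ℤ) ∣ FX x ∧
        (∀ l ∈ n.primeFactors, Pv l x) ∧ n0 ∣ D2 x ∧ An n1 x ∧ Nat.Coprime a (D2 x)) with hU
  have hd0 : n0 ∣ n := ⟨n1 * a, by rw [hndef, mul_assoc]⟩
  have hd1 : n1 ∣ n := ⟨n0 * a, by rw [hndef]; ring⟩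
  have hda : a ∣ n := ⟨n0 * n1, by rw [hndef]; ring⟩
  have hmaps : ∀ x ∈ S', red x ∈ U := by
    intro x hx
    rw [hS', mem_filter] at hx
    obtain ⟨hxS, h0, h1, h2⟩ := hx
    have hC := hS x hxS
    rw [hU, mem_filter]
    refine ⟨?_, ?_, ?_, ?_, ?_, ?_⟩
    · unfold cub
      rw [Fintype.mem_piFinset]
      intro i
      rw [mem_Ico]
      exact ⟨Int.emod_nonneg _ hnZ.ne', Int.emod_lt_of_pos _ hnZ⟩
    · rw [← ZMod.intCast_zmod_eq_zero_iff_dvd, ← clx_FX (hcg x), hC.nul]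
      simp
    · intro l hl
      have hlp := Nat.prime_of_mem_primeFactors hl
      obtain ⟨i, hi⟩ := hC.pri l hlp
      refine ⟨i, fun hc => hi ?_⟩
      have := dvd_add (clx_dvd (Nat.dvd_of_mem_primeFactors hl) (hcg x) i) hc
      rwa [sub_add_cancel] at this
    · exact clx_D2p (clx_dvd hd0 (hcg x)) h0
    · exact clx_An (clx_dvd hd1 (hcg x)) h1
    · exact clx_cop (clx_dvd hda (hcg x)) h2
  rw [← sum_fiberwise_of_maps_to hmaps]
  have hfib : ∀ y ∈ U, ∑ x ∈ S'.filter (fun x => red x = y), ∏ l ∈ a.primeFactors, psx x l ≤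
      (Ce * (ρ ^ 9 / (R * (n : ℝ) ^ 9))) *
        ((∏ l ∈ a.primeFactors, psx y l) * (s1 (gx n j y) : ℝ)) := by
    intro y hy
    have hcard := he T hT ρ R τ Y n y j hs.r1 hs.r2 hs.r3 hs.t1 hs.t2 hn hnT
      (S'.filter (fun x => red x = y)) (by
        intro x hx
        rw [mem_filter, hS', mem_filter] at hx
        have hC := hS x hx.1.1
        refine ⟨hC.bx, hC.big, hC.nul, ?_⟩
        rw [← hx.2]
        exact hcg x)
    have hsum : ∑ x ∈ S'.filter (fun x => red x = y), ∏ l ∈ a.primeFactors, psx x l =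
        ((S'.filter (fun x => red x = y)).card : ℝ) * ∏ l ∈ a.primeFactors, psx y l := by
      rw [← nsmul_eq_mul, ← sum_const]
      refine sum_congr rfl fun x hx => prod_congr rfl fun l hl => ?_
      rw [mem_filter] at hx
      refine clx_psx ?_
      rw [← hx.2]
      exact clx_dvd ((Nat.dvd_of_mem_primeFactors hl).trans hda) (hcg x)
    rw [hsum]
    have hp : 0 ≤ ∏ l ∈ a.primeFactors, psx y l := prod_nonneg fun l _ => clx_psx0 y l
    calc _ ≤ (Ce * (ρ ^ 9 / (R * (n : ℝ) ^ 9)) * (s1 (gx n j y) : ℝ)) *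
          ∏ l ∈ a.primeFactors, psx y l := mul_le_mul_of_nonneg_right hcard hp
      _ = _ := by ring
  refine (sum_le_sum hfib).trans ?_
  rw [← mul_sum]
  have hff := hf n0 n1 a j hn0 hn1 ha h01 hc0 hc1
  rw [← hndef, ← hU] at hff
  have hK : 0 ≤ Ce * (ρ ^ 9 / (R * (n : ℝ) ^ 9)) := by positivity
  refine (mul_le_mul_of_nonneg_left hff hK).trans ?_
  have hE : Ce * (ρ ^ 9 / (R * (n : ℝ) ^ 9)) *
      ((n : ℝ) ^ 9 * (r0 Cf n0 * r1 Cf n1 * ra Cf a)) =
      Ce * (ρ ^ 9 / R) * (r0 Cf n0 * r1 Cf n1 * ra Cf a) := by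
    field_simp
  rw [hE]
  have g0 := clx_r0n hCf0 n0
  have g1 := clx_r1n hCf0 n1
  have ga := clx_ran hCf0 a
  have hle : Cf ≤ max Ce Cf := le_max_right _ _
  have k0 := clx_r0 hCf0 hle n0
  have k1 := clx_r1 hCf0 hle n1
  have ka := clx_ra hCf0 hle a
  have hCe' : Ce ≤ max Ce Cf := le_max_left _ _
  have j0 := clx_r0n hC0 n0
  have j1 := clx_r1n hC0 n1
  exact mul_le_mul (mul_le_mul_of_nonneg_right hCe' (by positivity))
    (mul_le_mul (mul_le_mul k0 k1 g1 j0) ka ga (mul_nonneg j0 j1))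
    (mul_nonneg (mul_nonneg g0 g1) ga) (mul_nonneg hC0 (by positivity))

end Pool.Agent.PP5C
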