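import Pool.Agent.PP5C.Defs

/-!
# CtP: number of points of a cube in a periodic set (difficulty 3)

Fibre over the classes: `m ↦ (m i % d)` maps `bx A H` to `cub (Fin 4) d` (the values are in `[0, d)`), and for
a class `ρ ∈ cub d` the number of `m ∈ bx A H` congruent to `ρ` is `∏ i, #{t ∈ Ico (A i) (A i + H) : t = ρ i mod d}`
(`Fintype.card_piFinset`), every factor lies in `[H / d - 1, H / d + 1]` (reals; `Int.Ico_filter_modEq_card` or
`Int.card_Ico..`).  With `x = H / d ≥ 1`: `(x + 1) ^ 4 - x ^ 4 ≤ 15 x ^ 3`, `x ^ 4 - (x - 1) ^ 4 ≤ 15 x ^ 3` (and the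
factors are `≥ 0`).  `P` is true for `m` iff it is true for its class (`Per`).  Sum over the classes with `P`.
`ctp_le` follows (`x ^ 4 + 15 x ^ 3 ≤ 16 x ^ 4`).
-/

set_option autoImplicit false

namespace Pool.Agent.PP5C

open Finset Pool.Agent.PPS

private theorem CtP_one (a r : ℤ) (H d : ℕ) (hd : 1 ≤ d) (hr0 : 0 ≤ r) (hr1 : r < (d : ℤ)) :
    (H : ℝ) / d - 1 ≤ (((Ico a (a + (H : ℤ))).filter (fun t => t % (d : ℤ) = r)).card : ℝ) ∧
    (((Ico a (a + (H : ℤ))).filter (fun t => t % (d : ℤ) = r)).card : ℝ) ≤ (H : ℝ) / d + 1 := by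
  have h0 : (0 : ℤ) < (d : ℤ) := by exact_mod_cast hd
  have h1 := Int.Ico_filter_modEq_card a (a + (H : ℤ)) h0 r
  have h2 : (Ico a (a + (H : ℤ))).filter (fun t => t % (d : ℤ) = r) =
      (Ico a (a + (H : ℤ))).filter (fun t => t ≡ r [ZMOD (d : ℤ)]) := by
    apply Finset.filter_congr
    intro t _
    rw [Int.ModEq, Int.emod_eq_of_lt hr0 hr1]
  rw [h2]
  set c : ℕ := ((Ico a (a + (H : ℤ))).filter (fun t => t ≡ r [ZMOD (d : ℤ)])).card with hc
  set u : ℚ := (((a + (H : ℤ) : ℤ) : ℚ) - (r : ℚ)) / (((d : ℕ) : ℤ) : ℚ) with hu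
  set v : ℚ := ((a : ℚ) - (r : ℚ)) / (((d : ℕ) : ℤ) : ℚ) with hv
  have hdq : (0 : ℚ) < (d : ℚ) := by exact_mod_cast hd
  have huv : u - v = (H : ℚ) / (d : ℚ) := by
    rw [hu, hv, div_sub_div_same]
    push_cast
    congr 1
    ring
  have hHd : (0 : ℚ) ≤ (H : ℚ) / (d : ℚ) := by positivity
  have hle : (⌈v⌉ : ℤ) ≤ ⌈u⌉ := Int.ceil_le_ceil (by linarith)
  have h3 : (c : ℤ) = ⌈u⌉ - ⌈v⌉ := by
    rw [h1]
    exact max_eq_left (by linarith)
  have h4 : (c : ℚ) = (⌈u⌉ : ℚ) - (⌈v⌉ : ℚ) := by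
    have : ((c : ℤ) : ℚ) = ((⌈u⌉ - ⌈v⌉ : ℤ) : ℚ) := by rw [h3]
    push_cast at this
    exact this
  have a1 := Int.le_ceil u
  have a2 := Int.ceil_lt_add_one u
  have a3 := Int.le_ceil v
  have a4 := Int.ceil_lt_add_one v
  have q1 : (H : ℚ) / (d : ℚ) - 1 ≤ (c : ℚ) := by rw [h4, ← huv]; linarith
  have q2 : (c : ℚ) ≤ (H : ℚ) / (d : ℚ) + 1 := by rw [h4, ← huv]; linarith
  constructor
  · have q3 := (Rat.cast_le (K := ℝ)).mpr q1
    push_cast at q3
    exact q3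
  · have q3 := (Rat.cast_le (K := ℝ)).mpr q2
    push_cast at q3
    exact q3

private theorem CtP_cls (A : Fin 4 → ℤ) (H d : ℕ) (hd : 1 ≤ d) (hH : d ≤ H) (ρ : Fin 4 → ℤ)
    (hρ : ρ ∈ cub (Fin 4) d) :
    |(((bx A (fun _ => H)).filter (fun m => (fun i => m i % (d : ℤ)) = ρ)).card : ℝ) -
      ((H : ℝ) / d) ^ 4| ≤ 15 * ((H : ℝ) / d) ^ 3 := by
  have hd0 : (0 : ℝ) < (d : ℝ) := by exact_mod_cast hd
  have hx : (1 : ℝ) ≤ (H : ℝ) / d := by
    rw [le_div_iff₀ hd0, one_mul]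
    exact_mod_cast hH
  have hρ' : ∀ i, 0 ≤ ρ i ∧ ρ i < (d : ℤ) := by
    intro i
    have := Fintype.mem_piFinset.mp hρ i
    exact Finset.mem_Ico.mp this
  have e1 : (bx A (fun _ => H)).filter (fun m => (fun i => m i % (d : ℤ)) = ρ) =
      Fintype.piFinset fun i => (Ico (A i) (A i + (H : ℤ))).filter (fun t => t % (d : ℤ) = ρ i) := by
    ext m
    simp only [bx, Finset.mem_filter, Fintype.mem_piFinset]
    constructor
    · rintro ⟨h1, h2⟩ i
      exact ⟨h1 i, congrFun h2 i⟩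
    · intro h
      exact ⟨fun i => (h i).1, funext fun i => (h i).2⟩
  rw [e1, Fintype.card_piFinset]
  push_cast
  set x : ℝ := (H : ℝ) / d with hxd
  have hlo : (x - 1) ^ 4 ≤ ∏ i : Fin 4, (((Ico (A i) (A i + (H : ℤ))).filter
      (fun t => t % (d : ℤ) = ρ i)).card : ℝ) := by
    have h := Finset.prod_le_prod (s := (Finset.univ : Finset (Fin 4))) (f := fun _ => x - 1)
      (g := fun i => (((Ico (A i) (A i + (H : ℤ))).filter
        (fun t => t % (d : ℤ) = ρ i)).card : ℝ)) (fun i _ => by linarith)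
      (fun i _ => (CtP_one (A i) (ρ i) H d hd (hρ' i).1 (hρ' i).2).1)
    rwa [Finset.prod_const, Finset.card_univ, Fintype.card_fin] at h
  have hhi : ∏ i : Fin 4, (((Ico (A i) (A i + (H : ℤ))).filter
      (fun t => t % (d : ℤ) = ρ i)).card : ℝ) ≤ (x + 1) ^ 4 := by
    have h := Finset.prod_le_prod (s := (Finset.univ : Finset (Fin 4)))
      (f := fun i => (((Ico (A i) (A i + (H : ℤ))).filter
        (fun t => t % (d : ℤ) = ρ i)).card : ℝ)) (g := fun _ => x + 1)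
      (fun i _ => by positivity)
      (fun i _ => (CtP_one (A i) (ρ i) H d hd (hρ' i).1 (hρ' i).2).2)
    rwa [Finset.prod_const, Finset.card_univ, Fintype.card_fin] at h
  have hx2 : x ≤ x ^ 2 := by nlinarith
  have hx3 : x ^ 2 ≤ x ^ 3 := by nlinarith [sq_nonneg x]
  rw [abs_le]
  constructor
  · nlinarith
  · nlinarith

open Classical in
theorem ctp (A : Fin 4 → ℤ) (H d : ℕ) (hd : 1 ≤ d) (hH : d ≤ H) (P : (Fin 4 → ℤ) → Prop)
    (hP : Per d P) :
    |(((bx A (fun _ => H)).filter P).card : ℝ) - ((H : ℝ) / d) ^ 4 * nn (Fin 4) d P| ≤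
      15 * ((H : ℝ) / d) ^ 3 * nn (Fin 4) d P := by
  have h0 : (0 : ℤ) < (d : ℤ) := by exact_mod_cast hd
  set f : (Fin 4 → ℤ) → (Fin 4 → ℤ) := fun m i => m i % (d : ℤ) with hf
  have hcg : ∀ m, Cg d m (f m) := by
    intro m i
    have : m i - f m i = (d : ℤ) * (m i / (d : ℤ)) := by
      have := Int.emod_add_mul_ediv (m i) (d : ℤ)
      simp only [hf]
      linarith
    rw [this]
    exact dvd_mul_right _ _
  have hcg' : ∀ m, Cg d (f m) m := by
    intro m i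
    have := hcg m i
    have h2 : f m i - m i = -(m i - f m i) := by ring
    rw [h2]
    exact (dvd_neg).mpr this
  have hPf : ∀ m, P m ↔ P (f m) := fun m => ⟨fun h => hP _ _ (hcg m) h, fun h => hP _ _ (hcg' m) h⟩
  have hmaps : ∀ m ∈ (bx A (fun _ => H)).filter P, f m ∈ (cub (Fin 4) d).filter P := by
    intro m hm
    rw [Finset.mem_filter] at hm ⊢
    refine ⟨?_, (hPf m).mp hm.2⟩
    rw [cub, Fintype.mem_piFinset]
    intro i
    exact Finset.mem_Ico.mpr ⟨Int.emod_nonneg _ h0.ne', Int.emod_lt_of_pos _ h0⟩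
  have hcard := Finset.card_eq_sum_card_fiberwise hmaps
  have hfib : ∀ ρ ∈ (cub (Fin 4) d).filter P,
      (((bx A (fun _ => H)).filter P).filter (fun m => f m = ρ)) =
        (bx A (fun _ => H)).filter (fun m => (fun i => m i % (d : ℤ)) = ρ) := by
    intro ρ hρ
    ext m
    simp only [Finset.mem_filter]
    constructor
    · rintro ⟨⟨h1, _⟩, h3⟩
      exact ⟨h1, h3⟩
    · rintro ⟨h1, h3⟩
      have h4 : f m = ρ := h3
      refine ⟨⟨h1, ?_⟩, h3⟩
      rw [hPf, h4]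
      exact (Finset.mem_filter.mp hρ).2
  have hreal : (((bx A (fun _ => H)).filter P).card : ℝ) - ((H : ℝ) / d) ^ 4 * nn (Fin 4) d P =
      ∑ ρ ∈ (cub (Fin 4) d).filter P,
        ((((bx A (fun _ => H)).filter (fun m => (fun i => m i % (d : ℤ)) = ρ)).card : ℝ) -
          ((H : ℝ) / d) ^ 4) := by
    rw [Finset.sum_sub_distrib, Finset.sum_const, nsmul_eq_mul, hcard]
    push_cast
    congr 1
    · refine Finset.sum_congr rfl fun ρ hρ => ?_
      rw [← hfib ρ hρ]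
    · rw [nn]
      ring
  rw [hreal]
  refine (Finset.abs_sum_le_sum_abs _ _).trans ?_
  refine (Finset.sum_le_sum fun ρ hρ => CtP_cls A H d hd hH ρ (Finset.mem_filter.mp hρ).1).trans ?_
  rw [Finset.sum_const, nsmul_eq_mul, nn]
  exact le_of_eq (by ring)

open Classical in
theorem ctp_le (A : Fin 4 → ℤ) (H d : ℕ) (hd : 1 ≤ d) (hH : d ≤ H) (P : (Fin 4 → ℤ) → Prop)
    (hP : Per d P) :
    (((bx A (fun _ => H)).filter P).card : ℝ) ≤ 16 * ((H : ℝ) / d) ^ 4 * nn (Fin 4) d P := by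
  have h := ctp A H d hd hH P hP
  have hd0 : (0 : ℝ) < (d : ℝ) := by exact_mod_cast hd
  have hx : (1 : ℝ) ≤ (H : ℝ) / d := by
    rw [le_div_iff₀ hd0, one_mul]
    exact_mod_cast hH
  have h1 := (abs_le.mp h).2
  have h2 : ((H : ℝ) / d) ^ 3 ≤ ((H : ℝ) / d) ^ 4 := by
    have : 0 ≤ ((H : ℝ) / d) ^ 3 := by positivity
    nlinarith
  have h3 : (0 : ℝ) ≤ (nn (Fin 4) d P : ℝ) := by positivity
  have h4 : ((H : ℝ) / d) ^ 3 * (nn (Fin 4) d P : ℝ) ≤ ((H : ℝ) / d) ^ 4 * (nn (Fin 4) d P : ℝ) :=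
    mul_le_mul_of_nonneg_right h2 h3
  nlinarith

end Pool.Agent.PP5C
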