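import Pool.Agent.PP5C.Defs
import Pool.Agent.FTA.DivB
import Pool.Agent.PPS.Ggl

/-!
# DvP: divisor type bounds (difficulty 2)

`∏ l ∈ n.primeFactors, (n.factorization l + 1) = n.divisors.card` (`Nat.card_divisors`) and
`(C) ^ ω(n) ≤ (2 ^ ω(n)) ^ k ≤ (d(n)) ^ k` with `C ≤ 2 ^ k`; `FTA.divisor_bound` with `ε / (k + 1)`.
`gg n ≤ 2 ^ ω(n)`.
-/

set_option autoImplicit false

namespace Pool.Agent.PP5C

open Finset Pool.Agent.PPS

theorem dvp (C ε : ℝ) (hC : 1 ≤ C) (hε : 0 < ε) : ∃ K : ℝ, 1 ≤ K ∧ ∀ n : ℕ, n ≠ 0 →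
    ∏ l ∈ n.primeFactors, (C * ((n.factorization l : ℝ) + 1)) ≤ K * (n : ℝ) ^ ε := by
  obtain ⟨k, hk⟩ : ∃ k : ℕ, C ≤ 2 ^ k := by
    obtain ⟨k, hk⟩ := pow_unbounded_of_one_lt C (by norm_num : (1 : ℝ) < 2)
    exact ⟨k, hk.le⟩
  have hk0 : (0 : ℝ) < (k : ℝ) + 1 := by positivity
  obtain ⟨c, hc, hdiv⟩ := Pool.Agent.FTA.divisor_bound (ε := ε / ((k : ℝ) + 1)) (by positivity)
  refine ⟨max 1 (c ^ (k + 1)), le_max_left _ _, fun n hn => ?_⟩
  have hn0 : (0 : ℝ) < (n : ℝ) := by exact_mod_cast Nat.pos_of_ne_zero hn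
  have h1 : ∏ l ∈ n.primeFactors, (C * ((n.factorization l : ℝ) + 1)) ≤
      ∏ l ∈ n.primeFactors, ((n.factorization l : ℝ) + 1) ^ (k + 1) := by
    refine Finset.prod_le_prod (fun l _ => by positivity) fun l hl => ?_
    have hf : 1 ≤ n.factorization l :=
      Nat.one_le_iff_ne_zero.2 (Finsupp.mem_support_iff.1 (by rwa [Nat.support_factorization]))
    have hf' : (1 : ℝ) ≤ (n.factorization l : ℝ) := by exact_mod_cast hf
    have h2 : (2 : ℝ) ≤ (n.factorization l : ℝ) + 1 := by linarith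
    have h3 : (2 : ℝ) ^ k ≤ ((n.factorization l : ℝ) + 1) ^ k :=
      pow_le_pow_left₀ (by norm_num) h2 k
    rw [pow_succ]
    exact mul_le_mul_of_nonneg_right (hk.trans h3) (by positivity)
  have h2 : ∏ l ∈ n.primeFactors, ((n.factorization l : ℝ) + 1) ^ (k + 1) =
      (n.divisors.card : ℝ) ^ (k + 1) := by
    rw [Finset.prod_pow, Nat.card_divisors hn]
    push_cast
    rfl
  have h3 : (n.divisors.card : ℝ) ^ (k + 1) ≤ (c * (n : ℝ) ^ (ε / ((k : ℝ) + 1))) ^ (k + 1) :=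
    pow_le_pow_left₀ (by positivity) (hdiv n hn) _
  have h4 : (c * (n : ℝ) ^ (ε / ((k : ℝ) + 1))) ^ (k + 1) = c ^ (k + 1) * (n : ℝ) ^ ε := by
    rw [mul_pow, ← Real.rpow_natCast ((n : ℝ) ^ (ε / ((k : ℝ) + 1))) (k + 1),
      ← Real.rpow_mul hn0.le]
    congr 2
    push_cast
    field_simp
  calc _ ≤ _ := h1
    _ = _ := h2
    _ ≤ _ := h3
    _ = _ := h4
    _ ≤ _ := mul_le_mul_of_nonneg_right (le_max_right _ _) (by positivity)

theorem dvg (C ε : ℝ) (hC : 1 ≤ C) (hε : 0 < ε) : ∃ K : ℝ, 1 ≤ K ∧ ∀ n : ℕ, n ≠ 0 →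
    gg n * C ^ n.primeFactors.card ≤ K * (n : ℝ) ^ ε := by
  obtain ⟨K, hK, h⟩ := dvp (2 * C) ε (by linarith) hε
  refine ⟨K, hK, fun n hn => le_trans ?_ (h n hn)⟩
  unfold gg
  rw [← Finset.prod_const, ← Finset.prod_mul_distrib]
  refine Finset.prod_le_prod (fun l hl => ?_) fun l hl => ?_
  · have h2 : (2 : ℝ) ≤ (l : ℝ) := by
      exact_mod_cast (Nat.prime_of_mem_primeFactors hl).two_le
    have h3 : 1 / (l : ℝ) ≤ 1 / 2 := one_div_le_one_div_of_le (by norm_num) h2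
    have h4 : (0 : ℝ) < 1 - 1 / (l : ℝ) := by linarith
    positivity
  · have h2 : (2 : ℝ) ≤ (l : ℝ) := by
      exact_mod_cast (Nat.prime_of_mem_primeFactors hl).two_le
    have h3 : 1 / (l : ℝ) ≤ 1 / 2 := one_div_le_one_div_of_le (by norm_num) h2
    have h4 : (1 - 1 / (l : ℝ))⁻¹ ≤ 2 := by
      rw [inv_le_comm₀ (by linarith) (by norm_num)]
      linarith
    have h5 : (0 : ℝ) ≤ (n.factorization l : ℝ) := by positivity
    have h6 : (1 - 1 / (l : ℝ))⁻¹ * C ≤ 2 * C := mul_le_mul_of_nonneg_right h4 (by linarith)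
    nlinarith

end Pool.Agent.PP5C
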