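import Pool.Agent.PP5C.SrA
import Pool.Agent.PPW.Eul

/-!
# EuT: the tail of the sum over the bad parts (difficulty 3)

For `b > Y`: `1 ≤ Y ^ (-1/8) * b ^ (1/8) = Y ^ (-1/8) ∏ l, l ^ (e / 8)`.  `PPW.eul` for
`f b = [BB z D b] ∏ l ∣ b, l ^ (e/8) * pk D v l e` as in EuB with the third and fourth part of `srA`:
`b l = C1 (v l + 1) l ^ (v l / 8)` if `l ∣ D ∧ l ≤ z`, else `C1 / l ^ (3/2)` (`∑ 1 / n ^ (3/2)` converges:
`Real.summable_nat_rpow_inv` or `∑ ≤ 3`).
-/

set_option autoImplicit false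

namespace Pool.Agent.PP5C

open Finset Pool.Agent.PPS

private theorem EuT_mulf (s : ℕ → ℕ → ℝ) (m n : ℕ) (h : Nat.Coprime m n) :
    ∏ l ∈ (m * n).primeFactors, s l ((m * n).factorization l) =
      (∏ l ∈ m.primeFactors, s l (m.factorization l)) *
        ∏ l ∈ n.primeFactors, s l (n.factorization l) := by
  have h1 := Nat.factorization_mul_of_coprime h
  have h2 : Disjoint m.factorization.support n.factorization.support := by
    simpa using h.disjoint_primeFactors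
  have h3 := Finsupp.prod_add_index_of_disjoint h2 s
  rw [← h1] at h3
  exact h3

private theorem EuT_pow (s : ℕ → ℕ → ℝ) (l e : ℕ) (hl : l.Prime) (he : 1 ≤ e) :
    ∏ q ∈ (l ^ e).primeFactors, s q ((l ^ e).factorization q) = s l e := by
  rw [Nat.primeFactors_prime_pow (by omega) hl, Finset.prod_singleton, hl.factorization_pow]
  simp

private theorem EuT_gen (s : ℕ → ℕ → ℝ) (z : ℝ) (D : ℕ) (hD : 1 ≤ D) (a c : ℕ → ℝ)
    (hs : ∀ l e, 0 ≤ s l e) (ha : ∀ l, 0 ≤ a l) (hc : ∀ l, 0 ≤ c l)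
    (h1 : ∀ l : ℕ, l.Prime → l ∣ D → (l : ℝ) ≤ z → ∀ E : ℕ, ∑ e ∈ Icc 1 E, s l e ≤ a l)
    (h2 : ∀ l : ℕ, l.Prime → ¬ (l ∣ D ∧ (l : ℝ) ≤ z) → ∀ E : ℕ, ∑ e ∈ Icc 1 E, s l e ≤ c l)
    (S : ℝ) (hS : ∀ T : Finset ℕ, ∑ l ∈ T, c l ≤ S) (B : ℕ) :
    ∑ b ∈ Icc 1 B, ∏ l ∈ b.primeFactors, s l (b.factorization l) ≤
      Real.exp S * ∏ l ∈ Pz z D, (1 + a l) := by
  classical
  have hmain := Pool.Agent.PPW.eul (fun b => ∏ l ∈ b.primeFactors, s l (b.factorization l))
    (fun l => if l ∣ D ∧ (l : ℝ) ≤ z then a l else c l)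
    (fun n => Finset.prod_nonneg fun l _ => hs _ _) (by simp)
    (fun m n _ _ hmn => EuT_mulf s m n hmn) (by
      intro l hl E
      have e1 : ∑ e ∈ Icc 1 E, ∏ q ∈ (l ^ e).primeFactors, s q ((l ^ e).factorization q) =
          ∑ e ∈ Icc 1 E, s l e :=
        Finset.sum_congr rfl fun e he => EuT_pow s l e hl (Finset.mem_Icc.1 he).1
      show ∑ e ∈ Icc 1 E, ∏ q ∈ (l ^ e).primeFactors, s q ((l ^ e).factorization q) ≤ _
      rw [e1]
      by_cases h : l ∣ D ∧ (l : ℝ) ≤ z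
      · rw [if_pos h]
        exact h1 l hl h.1 h.2 E
      · rw [if_neg h]
        exact h2 l hl h E) B
  refine hmain.trans ?_
  have hle : ∀ l ∈ (Icc 1 B).filter Nat.Prime,
      (1 + if l ∣ D ∧ (l : ℝ) ≤ z then a l else c l) =
        (if l ∣ D ∧ (l : ℝ) ≤ z then 1 + a l else 1) *
          (if l ∣ D ∧ (l : ℝ) ≤ z then 1 else 1 + c l) := by
    intro l _
    split_ifs <;> ring
  rw [Finset.prod_congr rfl hle, Finset.prod_mul_distrib, mul_comm (Real.exp S)]
  refine mul_le_mul ?_ ?_ (Finset.prod_nonneg fun l _ => ?_) (Finset.prod_nonneg fun l _ => ?_)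
  · rw [← Finset.prod_filter]
    set T1 : Finset ℕ := ((Icc 1 B).filter Nat.Prime).filter (fun l => l ∣ D ∧ (l : ℝ) ≤ z) with hT1
    have hsub : T1 ⊆ Pz z D := by
      intro l hl
      rw [hT1, Finset.mem_filter, Finset.mem_filter] at hl
      unfold Pz
      rw [Finset.mem_filter, Nat.mem_primeFactors]
      exact ⟨⟨hl.1.2, hl.2.1, by omega⟩, hl.2.2⟩
    rw [← Finset.prod_sdiff hsub]
    have h3 : 1 ≤ ∏ l ∈ Pz z D \ T1, (1 + a l) := by
      calc (1 : ℝ) = ∏ l ∈ Pz z D \ T1, 1 := by simp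
        _ ≤ ∏ l ∈ Pz z D \ T1, (1 + a l) :=
            Finset.prod_le_prod (fun _ _ => zero_le_one) fun l _ => by
              have := ha l
              linarith
    have h4 : 0 ≤ ∏ l ∈ T1, (1 + a l) := Finset.prod_nonneg fun l _ => by
      have := ha l
      linarith
    nlinarith
  · calc ∏ l ∈ (Icc 1 B).filter Nat.Prime, (if l ∣ D ∧ (l : ℝ) ≤ z then 1 else 1 + c l)
        ≤ ∏ l ∈ (Icc 1 B).filter Nat.Prime, Real.exp (c l) := by
          refine Finset.prod_le_prod (fun l _ => ?_) fun l _ => ?_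
          · have := hc l
            split_ifs <;> linarith
          · have h5 := Real.add_one_le_exp (c l)
            have h6 := hc l
            split_ifs <;> linarith
      _ = Real.exp (∑ l ∈ (Icc 1 B).filter Nat.Prime, c l) := (Real.exp_sum _ _).symm
      _ ≤ Real.exp S := Real.exp_le_exp.2 (hS _)
  · have := hc l
    split_ifs <;> linarith
  · have := ha l
    linarith

private theorem EuT_pk (D : ℕ) (v : ℕ → ℕ) (l k : ℕ) : 0 ≤ pk D v l k := by
  unfold pk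
  split_ifs
  · positivity
  · exact le_min (by positivity) (by positivity)

private theorem EuT_rpow (b : ℕ) (hb : b ≠ 0) :
    (b : ℝ) ^ (1 / 8 : ℝ) = ∏ l ∈ b.primeFactors, (l : ℝ) ^ ((b.factorization l : ℝ) / 8) := by
  have h1 : (b : ℝ) = ∏ l ∈ b.primeFactors, (l : ℝ) ^ (b.factorization l) := by
    have h2 := Nat.prod_factorization_pow_eq_self hb
    have h3 : b.factorization.prod (fun p e => p ^ e) =
        ∏ l ∈ b.primeFactors, l ^ (b.factorization l) := rfl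
    rw [h3] at h2
    conv_lhs => rw [← h2]
    push_cast
    rfl
  conv_lhs => rw [h1]
  rw [← Real.finsetProd_rpow _ _ (fun l _ => by positivity)]
  refine Finset.prod_congr rfl fun l _ => ?_
  rw [← Real.rpow_natCast, ← Real.rpow_mul (by positivity)]
  congr 1
  ring

open Classical in
theorem euT : ∃ C : ℝ, 1 ≤ C ∧ ∀ (z Y : ℝ) (D : ℕ) (v : ℕ → ℕ) (B : ℕ), 1 ≤ D → 1 ≤ Y →
    ∑ b ∈ (Icc 1 B).filter (fun b : ℕ => BB z D b ∧ Y < (b : ℝ)),
      ∏ l ∈ b.primeFactors, pk D v l (b.factorization l) ≤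
      C * Y ^ (-(1 / 8) : ℝ) * ∏ l ∈ Pz z D, (1 + C * ((v l : ℝ) + 1) * (l : ℝ) ^ ((v l : ℝ) / 8)) := by
  obtain ⟨C1, hC1, -, -, hA, hB⟩ := srA
  have hC0 : 0 ≤ C1 := by linarith
  have hsum : Summable (fun n : ℕ => C1 / (n : ℝ) ^ (3 / 2 : ℝ)) := by
    have := (Real.summable_one_div_nat_rpow (p := 3 / 2)).2 (by norm_num)
    refine (this.mul_left C1).congr fun n => ?_
    ring
  set C2 : ℝ := Real.exp (∑' n : ℕ, C1 / (n : ℝ) ^ (3 / 2 : ℝ)) with hC2
  have hC2p : 0 < C2 := Real.exp_pos _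
  refine ⟨max C1 C2, hC1.trans (le_max_left _ _), ?_⟩
  intro z Y D v B hD hY
  have hY0 : 0 < Y := by linarith
  set s : ℕ → ℕ → ℝ := fun l e => if (l : ℝ) ≤ z ∧ (¬ l ∣ D → 2 ≤ e) then
    (l : ℝ) ^ ((e : ℝ) / 8) * pk D v l e else 0 with hs
  have hs0 : ∀ l e, 0 ≤ s l e := by
    intro l e
    rw [hs]
    dsimp only
    split_ifs with h
    · exact mul_nonneg (by positivity) (EuT_pk _ _ _ _)
    · exact le_rfl
  have hterm : ∀ b ∈ (Icc 1 B).filter (fun b : ℕ => BB z D b ∧ Y < (b : ℝ)),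
      ∏ l ∈ b.primeFactors, pk D v l (b.factorization l) ≤
        Y ^ (-(1 / 8) : ℝ) * ∏ l ∈ b.primeFactors, s l (b.factorization l) := by
    intro b hb
    rw [Finset.mem_filter, Finset.mem_Icc] at hb
    obtain ⟨⟨hb1, -⟩, hbb, hbY⟩ := hb
    have e1 : ∏ l ∈ b.primeFactors, s l (b.factorization l) = (b : ℝ) ^ (1 / 8 : ℝ) *
        ∏ l ∈ b.primeFactors, pk D v l (b.factorization l) := by
      rw [EuT_rpow b (by omega), ← Finset.prod_mul_distrib]
      refine Finset.prod_congr rfl fun l hl => ?_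
      rw [hs]
      dsimp only
      rw [if_pos (hbb l hl)]
    rw [e1, ← mul_assoc]
    have h2 : 1 ≤ Y ^ (-(1 / 8) : ℝ) * (b : ℝ) ^ (1 / 8 : ℝ) := by
      rw [Real.rpow_neg hY0.le, ← div_eq_inv_mul, one_le_div (by positivity)]
      exact Real.rpow_le_rpow hY0.le hbY.le (by norm_num)
    have h3 : 0 ≤ ∏ l ∈ b.primeFactors, pk D v l (b.factorization l) :=
      Finset.prod_nonneg fun l _ => EuT_pk _ _ _ _
    exact le_mul_of_one_le_left h3 h2
  refine (Finset.sum_le_sum hterm).trans ?_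
  rw [← Finset.mul_sum]
  have hmono : ∑ b ∈ (Icc 1 B).filter (fun b : ℕ => BB z D b ∧ Y < (b : ℝ)),
      ∏ l ∈ b.primeFactors, s l (b.factorization l) ≤
        ∑ b ∈ Icc 1 B, ∏ l ∈ b.primeFactors, s l (b.factorization l) :=
    Finset.sum_le_sum_of_subset_of_nonneg (Finset.filter_subset _ _) fun b _ _ =>
      Finset.prod_nonneg fun l _ => hs0 _ _
  have hgen : ∑ b ∈ Icc 1 B, ∏ l ∈ b.primeFactors, s l (b.factorization l) ≤
      C2 * ∏ l ∈ Pz z D, (1 + C1 * ((v l : ℝ) + 1) * (l : ℝ) ^ ((v l : ℝ) / 8)) := by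
    refine EuT_gen s z D hD (fun l => C1 * ((v l : ℝ) + 1) * (l : ℝ) ^ ((v l : ℝ) / 8))
      (fun l => C1 / (l : ℝ) ^ (3 / 2 : ℝ)) hs0 ?_ ?_ ?_ ?_ _ ?_ B
    · intro l
      positivity
    · intro l
      positivity
    · intro l hl hlD hlz E
      refine le_trans (Finset.sum_le_sum fun e _ => ?_) (hA l (v l) E hl.two_le)
      rw [hs]
      dsimp only
      split_ifs with h
      · unfold pk
        rw [if_pos hlD]
      · positivity
    · intro l hl hlD E
      have hle : ∑ e ∈ Icc 1 E, s l e ≤ ∑ e ∈ Icc 2 E, (l : ℝ) ^ ((e : ℝ) / 8) *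
          min (2 / (l : ℝ) ^ 2) (2 / (l : ℝ) ^ ((e + 1) / 2)) := by
        have h0 : ∀ e : ℕ, 0 ≤ (l : ℝ) ^ ((e : ℝ) / 8) *
            min (2 / (l : ℝ) ^ 2) (2 / (l : ℝ) ^ ((e + 1) / 2)) := fun e => by positivity
        calc ∑ e ∈ Icc 1 E, s l e ≤ ∑ e ∈ Icc 1 E, (if 2 ≤ e then (l : ℝ) ^ ((e : ℝ) / 8) *
              min (2 / (l : ℝ) ^ 2) (2 / (l : ℝ) ^ ((e + 1) / 2)) else 0) := by
              refine Finset.sum_le_sum fun e _ => ?_
              rw [hs]
              dsimp only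
              split_ifs with h h' h'
              · have hnd : ¬ l ∣ D := fun hd => hlD ⟨hd, h.1⟩
                unfold pk
                rw [if_neg hnd]
              · exact absurd (h.2 fun hd => hlD ⟨hd, h.1⟩) h'
              · exact h0 e
              · exact le_rfl
          _ = ∑ e ∈ (Icc 1 E).filter (fun e => 2 ≤ e), (l : ℝ) ^ ((e : ℝ) / 8) *
              min (2 / (l : ℝ) ^ 2) (2 / (l : ℝ) ^ ((e + 1) / 2)) :=
              (Finset.sum_filter _ _).symm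
          _ ≤ _ := by
              refine Finset.sum_le_sum_of_subset_of_nonneg ?_ fun e _ _ => h0 e
              intro e he
              rw [Finset.mem_filter, Finset.mem_Icc] at he
              rw [Finset.mem_Icc]
              omega
      exact hle.trans (hB l E hl.two_le)
    · intro T
      exact hsum.sum_le_tsum T fun n _ => by positivity
  have hprod : ∏ l ∈ Pz z D, (1 + C1 * ((v l : ℝ) + 1) * (l : ℝ) ^ ((v l : ℝ) / 8)) ≤
      ∏ l ∈ Pz z D, (1 + max C1 C2 * ((v l : ℝ) + 1) * (l : ℝ) ^ ((v l : ℝ) / 8)) := by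
    refine Finset.prod_le_prod (fun l _ => by positivity) fun l _ => ?_
    have := le_max_left C1 C2
    gcongr
  calc Y ^ (-(1 / 8) : ℝ) * ∑ b ∈ (Icc 1 B).filter (fun b : ℕ => BB z D b ∧ Y < (b : ℝ)),
        ∏ l ∈ b.primeFactors, s l (b.factorization l)
      ≤ Y ^ (-(1 / 8) : ℝ) * (C2 * ∏ l ∈ Pz z D,
          (1 + C1 * ((v l : ℝ) + 1) * (l : ℝ) ^ ((v l : ℝ) / 8))) := by
        refine mul_le_mul_of_nonneg_left (hmono.trans hgen) (by positivity)
    _ ≤ Y ^ (-(1 / 8) : ℝ) * (max C1 C2 * ∏ l ∈ Pz z D,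
          (1 + max C1 C2 * ((v l : ℝ) + 1) * (l : ℝ) ^ ((v l : ℝ) / 8))) := by
        refine mul_le_mul_of_nonneg_left ?_ (by positivity)
        refine mul_le_mul (le_max_right _ _) hprod ?_ ?_
        · exact Finset.prod_nonneg fun l _ => by positivity
        · exact hC0.trans (le_max_left _ _)
    _ = _ := by ring

end Pool.Agent.PP5C
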