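import Pool.Agent.PP5C.Defs

/-!
# Ext: a divisor of medium size (difficulty 3)

If some `q = l ^ (N.factorization l) > Y`: let `j` be least with `Y < l ^ j` (`1 ≤ j ≤ N.factorization l`), `b = l ^ j`;
`b ≤ l * Y ≤ z Y ≤ Y ^ 2` (as `l ≤ z ≤ Y`), and `j ≥ 2` because `l ≤ z ≤ Y`; `BB` for `l ^ j`: fine.
Otherwise all full prime powers `q_l = l ^ (N.factorization l)` are `≤ Y` and their product is `N > Y`: take a
subset `T` of `N.primeFactors`, minimal (for inclusion, `Finset.exists_minimal`) among those with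
`Y < ∏ l ∈ T, q_l`: removing one prime gives `≤ Y`, so `∏ ≤ Y * Y`.  `b = ∏ l ∈ T, q_l`: its factorization at `l ∈ T`
is that of `N`.
-/

set_option autoImplicit false

namespace Pool.Agent.PP5C

open Finset Pool.Agent.PPS

private theorem Ext_fact (f : ℕ → ℕ) (T : Finset ℕ) (hT : ∀ l ∈ T, l.Prime) (l : ℕ) :
    (∏ p ∈ T, p ^ f p).factorization l = if l ∈ T then f l else 0 := by
  classical
  rw [Nat.factorization_prod (fun p hp => pow_ne_zero _ (hT p hp).ne_zero)]
  rw [Finsupp.finsetSum_apply]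
  have : ∀ p ∈ T, (p ^ f p).factorization l = if p = l then f l else 0 := by
    intro p hp
    rw [(hT p hp).factorization_pow]
    by_cases h : p = l
    · subst h; simp
    · rw [Finsupp.single_apply, if_neg h, if_neg h]
  rw [Finset.sum_congr rfl this, Finset.sum_ite_eq']

private theorem Ext_greedy {Y : ℝ} (hY : 1 ≤ Y) (q : ℕ → ℝ) (hq : ∀ l, 0 ≤ q l) (S : Finset ℕ)
    (hS : ∀ l ∈ S, q l ≤ Y) (h : Y < ∏ l ∈ S, q l) :
    ∃ T ⊆ S, Y < ∏ l ∈ T, q l ∧ ∏ l ∈ T, q l ≤ Y ^ 2 := by
  classical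
  induction S using Finset.induction_on with
  | empty => simp at h; linarith
  | @insert a S ha ih =>
    by_cases h1 : Y < ∏ l ∈ S, q l
    · obtain ⟨T, hT, h2⟩ := ih (fun l hl => hS l (Finset.mem_insert_of_mem hl)) h1
      exact ⟨T, hT.trans (Finset.subset_insert _ _), h2⟩
    · push Not at h1
      refine ⟨insert a S, subset_rfl, h, ?_⟩
      rw [Finset.prod_insert ha, sq]
      exact mul_le_mul (hS a (Finset.mem_insert_self _ _)) h1
        (Finset.prod_nonneg fun l _ => hq l) (by linarith)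

theorem ext {z Y : ℝ} {D N : ℕ} (hN : N ≠ 0) (hz : 1 ≤ z) (hzY : z ≤ Y) (hB : BB z D N)
    (hY : Y < (N : ℝ)) :
    ∃ b : ℕ, b ≠ 0 ∧ b ∣ N ∧ Y < (b : ℝ) ∧ (b : ℝ) ≤ Y ^ 2 ∧ BB z D b := by
  classical
  have hY1 : 1 ≤ Y := hz.trans hzY
  by_cases hex : ∃ l ∈ N.primeFactors, Y < (l : ℝ) ^ N.factorization l
  · obtain ⟨l, hl, hlY⟩ := hex
    have hlp : l.Prime := Nat.prime_of_mem_primeFactors hl
    obtain ⟨hlz, -⟩ := hB l hl
    have hex2 : ∃ j : ℕ, Y < (l : ℝ) ^ j := ⟨_, hlY⟩
    obtain ⟨j, hj, hjmin⟩ : ∃ j : ℕ, Y < (l : ℝ) ^ j ∧ ∀ i < j, ¬ Y < (l : ℝ) ^ i :=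
      ⟨Nat.find hex2, Nat.find_spec hex2, fun i hi => Nat.find_min hex2 hi⟩
    have hj0 : j ≠ 0 := by
      rintro rfl
      rw [pow_zero] at hj
      linarith
    have hj1 : j ≠ 1 := by
      rintro rfl
      rw [pow_one] at hj
      linarith
    have hjle : j ≤ N.factorization l := by
      by_contra hcon
      push Not at hcon
      exact hjmin _ hcon hlY
    have hl0 : (0 : ℝ) ≤ l := by positivity
    refine ⟨l ^ j, pow_ne_zero _ hlp.ne_zero, (pow_dvd_pow l hjle).trans
      (Nat.ordProj_dvd N l), by push_cast; exact hj, ?_, ?_⟩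
    · obtain ⟨i, rfl⟩ : ∃ i, j = i + 1 := ⟨j - 1, by omega⟩
      have h1 : (l : ℝ) ^ i ≤ Y := by
        have := hjmin i (Nat.lt_succ_self i)
        push Not at this
        exact this
      push_cast
      rw [pow_succ, sq]
      exact mul_le_mul h1 (hlz.trans hzY) hl0 (by linarith)
    · intro p hp
      rw [Nat.primeFactors_prime_pow hj0 hlp, Finset.mem_singleton] at hp
      subst hp
      refine ⟨hlz, fun _ => ?_⟩
      rw [hlp.factorization_pow, Finsupp.single_eq_same]
      omega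
  · push Not at hex
    have hprod : (N : ℝ) = ∏ l ∈ N.primeFactors, (l : ℝ) ^ N.factorization l := by
      have := Nat.prod_factorization_pow_eq_self hN
      rw [Finsupp.prod, Nat.support_factorization] at this
      conv_lhs => rw [← this]
      push_cast
      rfl
    rw [hprod] at hY
    obtain ⟨T, hTN, hT1, hT2⟩ := Ext_greedy hY1 (fun l => (l : ℝ) ^ N.factorization l)
      (fun l => by positivity) N.primeFactors hex hY
    have hTp : ∀ l ∈ T, l.Prime := fun l hl => Nat.prime_of_mem_primeFactors (hTN hl)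
    have hcast : ((∏ l ∈ T, l ^ N.factorization l : ℕ) : ℝ) =
        ∏ l ∈ T, (l : ℝ) ^ N.factorization l := by push_cast; rfl
    refine ⟨∏ l ∈ T, l ^ N.factorization l, ?_, ?_, by rw [hcast]; exact hT1,
      by rw [hcast]; exact hT2, ?_⟩
    · exact Finset.prod_ne_zero_iff.2 fun l hl => pow_ne_zero _ (hTp l hl).ne_zero
    · have := Nat.prod_factorization_pow_eq_self hN
      rw [Finsupp.prod, Nat.support_factorization] at this
      conv_rhs => rw [← this]
      exact Finset.prod_dvd_prod_of_subset _ _ _ hTN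
    · intro l hl
      have hlp : l.Prime := Nat.prime_of_mem_primeFactors hl
      have hne : (∏ p ∈ T, p ^ N.factorization p).factorization l ≠ 0 := by
        rw [← Finsupp.mem_support_iff, Nat.support_factorization]; exact hl
      rw [Ext_fact N.factorization T hTp] at hne
      rw [Ext_fact N.factorization T hTp]
      by_cases hlT : l ∈ T
      · rw [if_pos hlT]
        exact hB l (hTN hlT)
      · rw [if_neg hlT] at hne
        exact absurd rfl hne

end Pool.Agent.PP5C
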