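import Pool.Agent.PP5C.Defs

/-!
# PtB: the pointwise bound (difficulty 4)

`b = bm z D n`: its prime factors are the `l ∈ n.primeFactors`, `l ≤ z`, `l ∣ D ∨ 2 ≤ e` (`e = n.factorization l`),
with the same exponents; so `BB z D b`, `b ∣ n`, `b ≠ 0`.
Every `l ∈ n.primeFactors` is of one of three kinds:
* (i) `l ≤ z`, `l ∤ D`, `e = 1`: then `l ∤ b * D`, `om l ≤ ps l`; these are exactly the `l ∈ Ps z (b * D) n`;
* (ii) `l ≤ z`, and `l ∣ D` or `e ≥ 2`: `l ∈ b.primeFactors`, `om l ≤ wk D l e`: if `l ∤ D` clear; if `l ∣ D`: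
  `om l ≤ (e + 1) l ^ ix l`, `l ≠ 2`: `ix l ≤ e / 3`; `l = 2`: `ix 2 ≤ (e + 2) / 3 ≤ e / 3 + 1`, so
  `(e+1) 2 ^ ix ≤ 2 (e + 1) 2 ^ (e / 3)`;
* (iii) `l > z`: `om l ≤ e + 1 ≤ 2 ^ e`: for `l ∣ D` because `ix l = 0` (`l ^ ix l ≤ sx D n ix ≤ T ^ c3 < z < l` as all
  factors of `sx` are `≥ 1`), for `l ∤ D`, `e = 1`: `ps l ≤ 2`.  `∏_{(iii)} 2 ^ e = 2 ^ (∑ e)`,
  `z ^ (∑ e) ≤ ∏ l ^ e ≤ n ≤ T ^ A`, so `∑ e ≤ A / c2` (`z = T ^ c2`).
-/

set_option autoImplicit false

namespace Pool.Agent.PP5C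

open Finset Pool.Agent.PPS

private theorem PtB_fact (f : ℕ → ℕ) (T : Finset ℕ) (hT : ∀ l ∈ T, l.Prime) (l : ℕ) :
    (∏ p ∈ T, p ^ f p).factorization l = if l ∈ T then f l else 0 := by
  classical
  rw [Nat.factorization_prod (fun p hp => pow_ne_zero _ (hT p hp).ne_zero)]
  rw [Finsupp.finsetSum_apply]
  have : ∀ p ∈ T, (p ^ f p).factorization l = if p = l then f l else 0 := by
    intro p hp
    rw [(hT p hp).factorization_pow]
    by_cases h : p = l
    · subst h; simp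
    · rw [Finsupp.single_apply, if_neg h, if_neg h]
  rw [Finset.sum_congr rfl this, Finset.sum_ite_eq']

private theorem PtB_two (e : ℕ) : ((e : ℝ) + 1) ≤ 2 ^ e := by
  have : e + 1 ≤ 2 ^ e := Nat.lt_two_pow_self
  exact_mod_cast this

theorem ptb {T c2 c3 A : ℝ} (hT : 1 < T) (hc2 : 0 < c2) (hc3 : c3 ≤ c2) (hA : 0 ≤ A) {D n : ℕ}
    (hn : n ≠ 0) (hnA : (n : ℝ) ≤ T ^ A) {ps om : ℕ → ℝ} {ix : ℕ → ℕ} (hps : ∀ l, 0 ≤ ps l ∧ ps l ≤ 2)
    (hW : Wgt D n ps om ix) (hs : (sx D n ix : ℝ) ≤ T ^ c3) :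
    BB (T ^ c2) D (bm (T ^ c2) D n) ∧ bm (T ^ c2) D n ∣ n ∧ bm (T ^ c2) D n ≠ 0 ∧
    ∏ l ∈ n.primeFactors, om l ≤ (2 : ℝ) ^ (A / c2) * wb D (bm (T ^ c2) D n) *
      ∏ l ∈ Ps (T ^ c2) (bm (T ^ c2) D n * D) n, ps l := by
  classical
  have hT0 : 0 < T := by linarith
  obtain ⟨z, hz⟩ : ∃ z : ℝ, z = T ^ c2 := ⟨_, rfl⟩
  have hz1 : 1 < z := by rw [hz]; exact Real.one_lt_rpow hT hc2
  rw [← hz]
  obtain ⟨e, he⟩ : ∃ e : ℕ → ℕ, e = fun l => n.factorization l := ⟨_, rfl⟩
  have he' : ∀ l, n.factorization l = e l := fun l => by rw [he]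
  obtain ⟨F, hF⟩ : ∃ F : Finset ℕ, F = n.primeFactors.filter
      (fun l : ℕ => (l : ℝ) ≤ z ∧ (l ∣ D ∨ 2 ≤ e l)) := ⟨_, rfl⟩
  have hb : bm z D n = ∏ l ∈ F, l ^ e l := by
    rw [bm, hF]
    refine Finset.prod_congr ?_ (fun l _ => by rw [he'])
    ext l
    simp only [Finset.mem_filter, he']
  rw [hb]
  have hFP : F ⊆ n.primeFactors := by rw [hF]; exact Finset.filter_subset _ _
  have hFp : ∀ l ∈ F, l.Prime := fun l hl => Nat.prime_of_mem_primeFactors (hFP hl)
  have hFm : ∀ l, l ∈ F ↔ l ∈ n.primeFactors ∧ (l : ℝ) ≤ z ∧ (l ∣ D ∨ 2 ≤ e l) := by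
    intro l; rw [hF, Finset.mem_filter]
  have he1 : ∀ l ∈ n.primeFactors, 1 ≤ e l := by
    intro l hl
    rw [← he']
    have : l ∈ n.factorization.support := by rw [Nat.support_factorization]; exact hl
    rw [Finsupp.mem_support_iff] at this
    omega
  obtain ⟨b, hbb⟩ : ∃ b : ℕ, b = ∏ l ∈ F, l ^ e l := ⟨_, rfl⟩
  rw [← hbb]
  have hb0 : b ≠ 0 := by
    rw [hbb]; exact Finset.prod_ne_zero_iff.2 fun l hl => pow_ne_zero _ (hFp l hl).ne_zero
  have hfac : ∀ l, b.factorization l = if l ∈ F then e l else 0 := by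
    intro l; rw [hbb]; exact PtB_fact e F hFp l
  have hbF : b.primeFactors = F := by
    ext l
    rw [← Nat.support_factorization, Finsupp.mem_support_iff, hfac l]
    constructor
    · intro h
      by_contra hl
      rw [if_neg hl] at h
      exact h rfl
    · intro hl
      rw [if_pos hl]
      have := he1 l (hFP hl)
      omega
  have hndec : ∏ l ∈ n.primeFactors, l ^ e l = n := by
    have := Nat.prod_factorization_pow_eq_self hn
    rw [Finsupp.prod, Nat.support_factorization] at this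
    conv_rhs => rw [← this]
    exact Finset.prod_congr rfl fun l _ => by rw [he']
  refine ⟨?_, ?_, hb0, ?_⟩
  · intro l hl
    rw [hbF] at hl
    rw [hfac, if_pos hl]
    obtain ⟨-, h2, h3⟩ := (hFm l).1 hl
    exact ⟨h2, fun h => h3.resolve_left h⟩
  · rw [hbb]
    conv_rhs => rw [← hndec]
    exact Finset.prod_dvd_prod_of_subset _ _ _ hFP
  -- the inequality
  obtain ⟨G, hG⟩ : ∃ G : Finset ℕ, G = Ps z (b * D) n := ⟨_, rfl⟩
  obtain ⟨H, hH⟩ : ∃ H : Finset ℕ, H = n.primeFactors.filter (fun l : ℕ => z < (l : ℝ)) := ⟨_, rfl⟩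
  rw [← hG]
  have hGm : ∀ l, l ∈ G ↔ l ∈ n.primeFactors ∧ (l : ℝ) ≤ z ∧ ¬ l ∣ D ∧ e l = 1 := by
    intro l
    rw [hG, Ps, Finset.mem_filter]
    constructor
    · rintro ⟨h1, h2, h3⟩
      have hlp := Nat.prime_of_mem_primeFactors h1
      have hlD : ¬ l ∣ D := fun h => h2 (h.mul_left b)
      have hlF : l ∉ F := by
        intro hlF
        rw [← hbF] at hlF
        exact h2 ((Nat.dvd_of_mem_primeFactors hlF).mul_right D)
      refine ⟨h1, h3, hlD, ?_⟩
      have h4 := he1 l h1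
      by_contra h5
      exact hlF ((hFm l).2 ⟨h1, h3, Or.inr (by omega)⟩)
    · rintro ⟨h1, h2, h3, h4⟩
      have hlp := Nat.prime_of_mem_primeFactors h1
      refine ⟨h1, ?_, h2⟩
      intro h5
      rcases (Nat.Prime.dvd_mul hlp).1 h5 with h6 | h6
      · have : l ∈ b.primeFactors := Nat.mem_primeFactors.2 ⟨hlp, h6, hb0⟩
        rw [hbF, hFm] at this
        rcases this.2.2 with h7 | h7
        · exact h3 h7
        · omega
      · exact h3 h6
  have hHm : ∀ l, l ∈ H ↔ l ∈ n.primeFactors ∧ z < (l : ℝ) := by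
    intro l; rw [hH, Finset.mem_filter]
  have hGH : Disjoint G H := by
    rw [Finset.disjoint_left]
    intro l h1 h2
    have := ((hGm l).1 h1).2.1
    have := ((hHm l).1 h2).2
    linarith
  have hFGH : Disjoint F (G ∪ H) := by
    rw [Finset.disjoint_left]
    intro l h1 h2
    rcases Finset.mem_union.1 h2 with h2 | h2
    · obtain ⟨-, -, h3, h4⟩ := (hGm l).1 h2
      rcases ((hFm l).1 h1).2.2 with h5 | h5
      · exact h3 h5
      · omega
    · have := ((hFm l).1 h1).2.1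
      have := ((hHm l).1 h2).2
      linarith
  have hunion : n.primeFactors = F ∪ (G ∪ H) := by
    ext l
    rw [Finset.mem_union, Finset.mem_union, hFm, hGm, hHm]
    constructor
    · intro hl
      by_cases h1 : (l : ℝ) ≤ z
      · by_cases h2 : l ∣ D
        · exact Or.inl ⟨hl, h1, Or.inl h2⟩
        · by_cases h3 : 2 ≤ e l
          · exact Or.inl ⟨hl, h1, Or.inr h3⟩
          · have := he1 l hl
            exact Or.inr (Or.inl ⟨hl, h1, h2, by omega⟩)
      · push Not at h1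
        exact Or.inr (Or.inr ⟨hl, h1⟩)
    · rintro (h | h | h) <;> exact h.1
  -- the three products
  have hom : ∀ l ∈ n.primeFactors, 0 ≤ om l := hW.nn
  have hPF : ∏ l ∈ F, om l ≤ wb D b := by
    rw [wb, hbF]
    refine Finset.prod_le_prod (fun l hl => hom l (hFP hl)) ?_
    intro l hl
    rw [hfac, if_pos hl]
    obtain ⟨h1, h2, h3⟩ := (hFm l).1 hl
    have hlp := hFp l hl
    have hl1 : (1 : ℝ) ≤ l := by exact_mod_cast hlp.one_lt.le
    by_cases hD : l ∣ D
    · rw [wk, if_pos hD]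
      have hbad := hW.bad l h1 hD
      rw [he'] at hbad
      refine hbad.trans ?_
      by_cases hl2 : l = 2
      · subst hl2
        have hix := hW.ixt h1
        rw [he'] at hix
        have hle : ix 2 ≤ e 2 / 3 + 1 := by omega
        have hpow : ((2 : ℕ) : ℝ) ^ ix 2 ≤ ((2 : ℕ) : ℝ) ^ (e 2 / 3 + 1) :=
          pow_le_pow_right₀ (by norm_num) hle
        calc ((e 2 : ℝ) + 1) * ((2 : ℕ) : ℝ) ^ ix 2
            ≤ ((e 2 : ℝ) + 1) * ((2 : ℕ) : ℝ) ^ (e 2 / 3 + 1) :=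
              mul_le_mul_of_nonneg_left hpow (by positivity)
          _ = 2 * ((e 2 : ℝ) + 1) * ((2 : ℕ) : ℝ) ^ (e 2 / 3) := by rw [pow_succ]; push_cast; ring
      · have hix := hW.ixo l h1 hD hl2
        rw [he'] at hix
        have hle : ix l ≤ e l / 3 := by omega
        have hpow : (l : ℝ) ^ ix l ≤ (l : ℝ) ^ (e l / 3) := pow_le_pow_right₀ hl1 hle
        calc ((e l : ℝ) + 1) * (l : ℝ) ^ ix l ≤ ((e l : ℝ) + 1) * (l : ℝ) ^ (e l / 3) :=
              mul_le_mul_of_nonneg_left hpow (by positivity)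
          _ ≤ 2 * (((e l : ℝ) + 1) * (l : ℝ) ^ (e l / 3)) := by
              have : 0 ≤ ((e l : ℝ) + 1) * (l : ℝ) ^ (e l / 3) := by positivity
              linarith
          _ = 2 * ((e l : ℝ) + 1) * (l : ℝ) ^ (e l / 3) := by ring
    · rw [wk, if_neg hD]
      have h4 := h3.resolve_left hD
      have := hW.two l h1 hD (by rw [he']; exact h4)
      rw [he'] at this
      exact this
  have hPG : ∏ l ∈ G, om l ≤ ∏ l ∈ G, ps l := by
    refine Finset.prod_le_prod (fun l hl => hom l ((hGm l).1 hl).1) ?_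
    intro l hl
    obtain ⟨h1, h2, h3, h4⟩ := (hGm l).1 hl
    exact hW.one l h1 h3 (by rw [he']; exact h4)
  have hPH : ∏ l ∈ H, om l ≤ ∏ l ∈ H, (2 : ℝ) ^ e l := by
    refine Finset.prod_le_prod (fun l hl => hom l ((hHm l).1 hl).1) ?_
    intro l hl
    obtain ⟨h1, h2⟩ := (hHm l).1 hl
    have hlp := Nat.prime_of_mem_primeFactors h1
    by_cases hD : l ∣ D
    · have hix0 : ix l = 0 := by
        by_contra hne
        have hmem : l ∈ n.primeFactors.filter (fun l => l ∣ D) := Finset.mem_filter.2 ⟨h1, hD⟩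
        have hdv : l ^ ix l ∣ sx D n ix := by
          rw [sx]
          exact Finset.dvd_prod_of_mem (fun l => l ^ ix l) hmem
        have hsx0 : 0 < sx D n ix := by
          rw [sx]
          exact Finset.prod_pos fun p hp => pow_pos
            (Nat.prime_of_mem_primeFactors (Finset.mem_filter.1 hp).1).pos _
        have h5 : l ≤ sx D n ix :=
          (Nat.le_self_pow hne l).trans (Nat.le_of_dvd hsx0 hdv)
        have h6 : (l : ℝ) ≤ (sx D n ix : ℝ) := by exact_mod_cast h5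
        have h7 : T ^ c3 ≤ z := by rw [hz]; exact Real.rpow_le_rpow_of_exponent_le hT.le hc3
        linarith
      have hbad := hW.bad l h1 hD
      rw [he', hix0, pow_zero, mul_one] at hbad
      exact hbad.trans (PtB_two _)
    · by_cases h4 : e l = 1
      · have := hW.one l h1 hD (by rw [he']; exact h4)
        rw [h4, pow_one]
        exact this.trans (hps l).2
      · have h5 := he1 l h1
        have := hW.two l h1 hD (by rw [he']; omega)
        rw [he'] at this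
        exact this.trans (PtB_two _)
  have hHtwo : ∏ l ∈ H, (2 : ℝ) ^ e l ≤ (2 : ℝ) ^ (A / c2) := by
    rw [Finset.prod_pow_eq_pow_sum, ← Real.rpow_natCast]
    refine Real.rpow_le_rpow_of_exponent_le (by norm_num) ?_
    obtain ⟨E, hE⟩ : ∃ E : ℕ, E = ∑ l ∈ H, e l := ⟨_, rfl⟩
    rw [← hE]
    have h1 : z ^ E ≤ ∏ l ∈ H, (l : ℝ) ^ e l := by
      rw [hE, ← Finset.prod_pow_eq_pow_sum]
      refine Finset.prod_le_prod (fun l _ => by positivity) ?_
      intro l hl
      exact pow_le_pow_left₀ (by linarith) ((hHm l).1 hl).2.le _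
    have h2 : ∏ l ∈ H, (l : ℝ) ^ e l ≤ (n : ℝ) := by
      have hdvd : ∏ l ∈ H, l ^ e l ∣ n := by
        conv_rhs => rw [← hndec]
        exact Finset.prod_dvd_prod_of_subset _ _ _ (by rw [hH]; exact Finset.filter_subset _ _)
      have := Nat.le_of_dvd (Nat.pos_of_ne_zero hn) hdvd
      exact_mod_cast this
    have h3 : z ^ E ≤ T ^ A := h1.trans (h2.trans hnA)
    rw [hz, ← Real.rpow_natCast, ← Real.rpow_mul hT0.le] at h3
    have h4 := (Real.rpow_le_rpow_left_iff hT).1 h3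
    rw [le_div_iff₀ hc2]
    linarith
  rw [hunion, Finset.prod_union hFGH, Finset.prod_union hGH]
  have n1 : 0 ≤ ∏ l ∈ G, om l := Finset.prod_nonneg fun l hl => hom l ((hGm l).1 hl).1
  have n2 : 0 ≤ ∏ l ∈ H, om l := Finset.prod_nonneg fun l hl => hom l ((hHm l).1 hl).1
  have n3 : 0 ≤ ∏ l ∈ F, om l := Finset.prod_nonneg fun l hl => hom l (hFP hl)
  have n4 : 0 ≤ ∏ l ∈ G, ps l := Finset.prod_nonneg fun l _ => (hps l).1
  calc (∏ l ∈ F, om l) * ((∏ l ∈ G, om l) * ∏ l ∈ H, om l)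
      ≤ wb D b * ((∏ l ∈ G, ps l) * (2 : ℝ) ^ (A / c2)) := by
        refine mul_le_mul hPF (mul_le_mul hPG (hPH.trans hHtwo) n2 n4) (mul_nonneg n1 n2)
          (n3.trans hPF)
    _ = (2 : ℝ) ^ (A / c2) * wb D b * ∏ l ∈ G, ps l := by ring

/-- the trivial bound of the weight: `om l ≤ (e + 1) l ^ ix l` for `l ∣ D`, `om l ≤ e + 1` otherwise -/
theorem ptt {D n : ℕ} {ps om : ℕ → ℝ} {ix : ℕ → ℕ} (hps : ∀ l, 0 ≤ ps l ∧ ps l ≤ 2)
    (hW : Wgt D n ps om ix) :
    ∏ l ∈ n.primeFactors, om l ≤ (sx D n ix : ℝ) *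
      ∏ l ∈ n.primeFactors, ((n.factorization l : ℝ) + 1) := by
  classical
  have h1 : (sx D n ix : ℝ) = ∏ l ∈ n.primeFactors, (if l ∣ D then (l : ℝ) ^ ix l else 1) := by
    rw [sx, Finset.prod_filter]
    push_cast
    rfl
  rw [h1, ← Finset.prod_mul_distrib]
  refine Finset.prod_le_prod hW.nn ?_
  intro l hl
  have he1 : 1 ≤ n.factorization l := by
    have : l ∈ n.factorization.support := by rw [Nat.support_factorization]; exact hl
    rw [Finsupp.mem_support_iff] at this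
    omega
  by_cases hD : l ∣ D
  · rw [if_pos hD, mul_comm]
    exact hW.bad l hl hD
  · rw [if_neg hD, one_mul]
    by_cases h4 : n.factorization l = 1
    · have := hW.one l hl hD h4
      rw [h4]
      have h5 := (hps l).2
      push_cast
      linarith
    · exact hW.two l hl hD (by omega)

end Pool.Agent.PP5C
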