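import Pool.Agent.PP5C.ClB
import Pool.Agent.PP5C.EuT
import Pool.Agent.PP5C.Ext
import Pool.Agent.PP5C.DvP
import Pool.Agent.PP5C.PtB
import Pool.Agent.PP5C.CtP

/-!
# TlB: few `m` have a large bad part (difficulty 4)

Let `z = T ^ c2 ≤ Y := T ^ (δ/4)` (`c2 ≤ δ/8`).  For `m ∈ S` the bad part `N = bm z D |qf c m|` is `> T ^ (δ/2) = Y²`
... in particular `> Y`, `BB z D N`, `N ∣ qf c m` (`ptb`, or directly from the definition of `bm`; the hypotheses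
`Wgt`, `sx` are not needed for this part: prove `BB`, `∣`, `≠ 0` directly).  `ext`: a divisor `b`, `Y < b ≤ Y² = T ^ (δ/2) ≤ H`,
`BB z D b`, `b ∣ qf c m`.  So `#S ≤ ∑_{b ≤ B, BB, Y < b} #{m ∈ bx : b ∣ qf c m, Pv l m for l ∣ b}
≤ ∑ 16 (H/b) ^ 4 nn ≤ 16 H ^ 4 ∑ ∏ pk` (`ctp_le`, `clb`) `≤ 16 C H ^ 4 Y ^ (-1/8) ∏_{l ∈ Pz z D} (1 + C (v l + 1) l ^ (v l / 8))`
(`euT`).  The last product is at most `∏_{l ∈ Pz z D} (2 C (v l + 1) l ^ (v l/8)) ≤ (VV z D v) ^ (1/8) * (2C) ^ ω(D) * ∏ (v l + 1)`;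
`∏_{l ∈ Pz z D} (v l + 1) ≤ d(VV)` and `dvp` for the numbers `VV` and `D ≤ T ^ A`: `≤ K T ^ (c5/8 + ε A + ε)`.
With `c5 ≤ δ/64`, `ε` small: `#S ≤ H ^ 4 T ^ (-δ/64)` for `T ≥ T0` (`δ/32 - δ/512 - ... > δ/64`).
-/

set_option autoImplicit false

namespace Pool.Agent.PP5C

open Finset Pool.Agent.PPS

private lemma tlb_fac (F : Finset ℕ) (hF : ∀ l ∈ F, l.Prime) (f : ℕ → ℕ) (p : ℕ) :
    (∏ l ∈ F, l ^ f l).factorization p = if p ∈ F then f p else 0 := by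
  rw [Nat.factorization_prod (fun l hl => pow_ne_zero _ (hF l hl).ne_zero), Finsupp.finsetSum_apply]
  have h : ∀ l ∈ F, (l ^ f l).factorization p = if p = l then f l else 0 := by
    intro l hl
    rw [(hF l hl).factorization_pow, Finsupp.single_apply]
    by_cases h : l = p
    · simp [h]
    · have h' : ¬ p = l := fun e => h e.symm
      simp [h, h']
  rw [Finset.sum_congr rfl h, Finset.sum_ite_eq]

private lemma tlb_mem (n p : ℕ) : p ∈ n.primeFactors ↔ n.factorization p ≠ 0 := by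
  rw [← Nat.support_factorization, Finsupp.mem_support_iff]

private lemma tlb_bm (z : ℝ) (D n : ℕ) (hn : n ≠ 0) :
    BB z D (bm z D n) ∧ bm z D n ∣ n ∧ bm z D n ≠ 0 := by
  classical
  have hF : ∀ l ∈ n.primeFactors.filter (fun l : ℕ => (l : ℝ) ≤ z ∧ (l ∣ D ∨ 2 ≤ n.factorization l)),
      l.Prime := fun l hl => Nat.prime_of_mem_primeFactors (Finset.mem_filter.mp hl).1
  have hfac : ∀ p, (bm z D n).factorization p =
      if p ∈ n.primeFactors.filter (fun l : ℕ => (l : ℝ) ≤ z ∧ (l ∣ D ∨ 2 ≤ n.factorization l))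
      then n.factorization p else 0 := by
    intro p
    have := tlb_fac _ hF (fun l => n.factorization l) p
    unfold bm
    convert this using 3
  have hne : bm z D n ≠ 0 := by
    unfold bm
    rw [Finset.prod_ne_zero_iff]
    intro l hl
    exact pow_ne_zero _ (Nat.prime_of_mem_primeFactors (Finset.mem_filter.mp hl).1).ne_zero
  refine ⟨?_, ?_, hne⟩
  · intro l hl
    rw [tlb_mem, hfac] at hl
    by_cases h : l ∈ n.primeFactors.filter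
        (fun l : ℕ => (l : ℝ) ≤ z ∧ (l ∣ D ∨ 2 ≤ n.factorization l))
    · have h2 := (Finset.mem_filter.mp h).2
      refine ⟨h2.1, fun hD => ?_⟩
      rw [hfac, if_pos h]
      rcases h2.2 with h3 | h3
      · exact absurd h3 hD
      · exact h3
    · rw [if_neg h] at hl
      exact absurd rfl hl
  · rw [← Nat.factorization_le_iff_dvd hne hn]
    intro p
    rw [hfac]
    split_ifs
    · exact le_rfl
    · exact Nat.zero_le _

private def tlbP (c : Matrix (Fin 4) (Fin 4) ℤ) (b : ℕ) (m : Fin 4 → ℤ) : Prop :=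
  (b : ℤ) ∣ qf c m ∧ ∀ l ∈ b.primeFactors, Pv l m

private lemma tlb_per (c : Matrix (Fin 4) (Fin 4) ℤ) (b : ℕ) : Per b (tlbP c b) := by
  intro x y hxy hx
  obtain ⟨h1, h2⟩ := hx
  refine ⟨?_, ?_⟩
  · have hd : (b : ℤ) ∣ qf c x - qf c y := by
      unfold qf
      rw [← Finset.sum_sub_distrib]
      refine Finset.dvd_sum (fun i _ => ?_)
      rw [← Finset.sum_sub_distrib]
      refine Finset.dvd_sum (fun j _ => ?_)
      have e : c i j * x i * x j - c i j * y i * y j =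
          (x i - y i) * (c i j * x j) + (x j - y j) * (c i j * y i) := by ring
      rw [e]
      exact dvd_add (Dvd.dvd.mul_right (hxy i) _) (Dvd.dvd.mul_right (hxy j) _)
    have := dvd_sub h1 hd
    rwa [sub_sub_cancel] at this
  · intro l hl
    obtain ⟨i, hi⟩ := h2 l hl
    refine ⟨i, fun hy => hi ?_⟩
    have hlb : (l : ℤ) ∣ (b : ℤ) := Int.natCast_dvd_natCast.mpr (Nat.dvd_of_mem_primeFactors hl)
    have := dvd_add (hlb.trans (hxy i)) hy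
    rwa [sub_add_cancel] at this

open Classical in
private lemma tlb_cnt {c : Matrix (Fin 4) (Fin 4) ℤ} {D : ℕ} {v : ℕ → ℕ} (hF : Frm c D v) (z : ℝ)
    (A0 : Fin 4 → ℤ) (H b : ℕ) (hb : 1 ≤ b) (hbH : b ≤ H) (hB : BB z D b) :
    (((bx A0 (fun _ => H)).filter (tlbP c b)).card : ℝ) ≤
      16 * (H : ℝ) ^ 4 * ∏ l ∈ b.primeFactors, pk D v l (b.factorization l) := by
  have h1 := ctp_le A0 H b hb hbH (tlbP c b) (tlb_per c b)
  have h2 : (nn (Fin 4) b (tlbP c b) : ℝ) ≤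
      (b : ℝ) ^ 4 * ∏ l ∈ b.primeFactors, pk D v l (b.factorization l) :=
    clb hF z (by omega) hB
  have hb0 : (0 : ℝ) < (b : ℝ) := by exact_mod_cast hb
  have hne : (b : ℝ) ≠ 0 := hb0.ne'
  refine h1.trans ?_
  calc 16 * ((H : ℝ) / b) ^ 4 * (nn (Fin 4) b (tlbP c b) : ℝ)
      ≤ 16 * ((H : ℝ) / b) ^ 4 *
        ((b : ℝ) ^ 4 * ∏ l ∈ b.primeFactors, pk D v l (b.factorization l)) :=
        mul_le_mul_of_nonneg_left h2 (by positivity)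
    _ = 16 * (H : ℝ) ^ 4 * ∏ l ∈ b.primeFactors, pk D v l (b.factorization l) := by
        field_simp

private lemma tlb_pi {C : ℝ} (hC : 1 ≤ C) (z : ℝ) (D : ℕ) (hD : 1 ≤ D) (v : ℕ → ℕ)
    (K1 K2 ε2 : ℝ)
    (h1 : ∀ n : ℕ, n ≠ 0 → ∏ l ∈ n.primeFactors, (1 * ((n.factorization l : ℝ) + 1)) ≤
      K1 * (n : ℝ) ^ ((1 : ℝ) / 8))
    (h2 : ∀ n : ℕ, n ≠ 0 → ∏ l ∈ n.primeFactors, ((2 * C) * ((n.factorization l : ℝ) + 1)) ≤
      K2 * (n : ℝ) ^ ε2) :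
    ∏ l ∈ Pz z D, (1 + C * ((v l : ℝ) + 1) * (l : ℝ) ^ ((v l : ℝ) / 8)) ≤
      (K2 * (D : ℝ) ^ ε2) * (K1 * (VV z D v : ℝ) ^ ((1 : ℝ) / 8)) *
        (VV z D v : ℝ) ^ ((1 : ℝ) / 8) := by
  classical
  have hPp : ∀ l ∈ Pz z D, l.Prime := fun l hl =>
    Nat.prime_of_mem_primeFactors (Finset.mem_filter.mp hl).1
  have hsub : Pz z D ⊆ D.primeFactors := Finset.filter_subset _ _
  have hV0 : VV z D v ≠ 0 := by
    unfold VV
    rw [Finset.prod_ne_zero_iff]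
    intro l hl
    exact pow_ne_zero _ (hPp l hl).ne_zero
  have hVf : ∀ p, (VV z D v).factorization p = if p ∈ Pz z D then v p else 0 := fun p =>
    tlb_fac (Pz z D) hPp v p
  have e1 : ∏ l ∈ Pz z D, (1 + C * ((v l : ℝ) + 1) * (l : ℝ) ^ ((v l : ℝ) / 8)) ≤
      ∏ l ∈ Pz z D, ((2 * C) * ((v l : ℝ) + 1) * (l : ℝ) ^ ((v l : ℝ) / 8)) := by
    apply Finset.prod_le_prod
    · intro l _
      positivity
    · intro l hl
      have hl1 : (1 : ℝ) ≤ (l : ℝ) := by exact_mod_cast (hPp l hl).one_lt.le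
      have hp : (1 : ℝ) ≤ (l : ℝ) ^ ((v l : ℝ) / 8) := Real.one_le_rpow hl1 (by positivity)
      have hv : (1 : ℝ) ≤ (v l : ℝ) + 1 := by
        have : (0 : ℝ) ≤ (v l : ℝ) := Nat.cast_nonneg _
        linarith
      have h3 : (1 : ℝ) ≤ C * ((v l : ℝ) + 1) := by nlinarith
      have h4 : (1 : ℝ) ≤ C * ((v l : ℝ) + 1) * (l : ℝ) ^ ((v l : ℝ) / 8) := by nlinarith
      nlinarith
  have e2 : ∏ l ∈ Pz z D, ((2 * C) * ((v l : ℝ) + 1) * (l : ℝ) ^ ((v l : ℝ) / 8)) =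
      (∏ l ∈ Pz z D, (2 * C)) * (∏ l ∈ Pz z D, ((v l : ℝ) + 1)) *
        ∏ l ∈ Pz z D, (l : ℝ) ^ ((v l : ℝ) / 8) := by
    rw [Finset.prod_mul_distrib, Finset.prod_mul_distrib]
  have e3 : ∏ l ∈ Pz z D, (2 * C) ≤ K2 * (D : ℝ) ^ ε2 := by
    refine le_trans ?_ (h2 D (by omega))
    rw [Finset.prod_const]
    calc (2 * C) ^ (Pz z D).card ≤ (2 * C) ^ (D.primeFactors).card :=
          pow_le_pow_right₀ (by linarith) (Finset.card_le_card hsub)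
      _ = ∏ l ∈ D.primeFactors, (2 * C) := by rw [Finset.prod_const]
      _ ≤ _ := by
          apply Finset.prod_le_prod
          · intro l _
            linarith
          · intro l _
            have : (0 : ℝ) ≤ (D.factorization l : ℝ) := Nat.cast_nonneg _
            nlinarith
  have e4 : ∏ l ∈ Pz z D, ((v l : ℝ) + 1) ≤ K1 * (VV z D v : ℝ) ^ ((1 : ℝ) / 8) := by
    refine le_trans (le_of_eq ?_) (h1 _ hV0)
    have hpf : (VV z D v).primeFactors = (Pz z D).filter (fun l => v l ≠ 0) := by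
      ext p
      rw [tlb_mem, hVf, Finset.mem_filter]
      by_cases hp : p ∈ Pz z D
      · simp [hp]
      · simp [hp]
    rw [hpf]
    have e5 : ∏ l ∈ (Pz z D).filter (fun l => v l ≠ 0),
        (1 * (((VV z D v).factorization l : ℝ) + 1)) =
        ∏ l ∈ (Pz z D).filter (fun l => v l ≠ 0), ((v l : ℝ) + 1) := by
      refine Finset.prod_congr rfl (fun l hl => ?_)
      rw [hVf, if_pos (Finset.mem_filter.mp hl).1, one_mul]
    rw [e5]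
    symm
    apply Finset.prod_filter_of_ne
    intro l _ hne h0
    apply hne
    rw [h0]
    simp
  have e6 : ∏ l ∈ Pz z D, (l : ℝ) ^ ((v l : ℝ) / 8) = (VV z D v : ℝ) ^ ((1 : ℝ) / 8) := by
    have e7 : ∀ l ∈ Pz z D, (l : ℝ) ^ ((v l : ℝ) / 8) = ((l : ℝ) ^ v l) ^ ((1 : ℝ) / 8) := by
      intro l _
      rw [← Real.rpow_natCast, ← Real.rpow_mul (Nat.cast_nonneg _)]
      congr 1
      ring
    rw [Finset.prod_congr rfl e7,
      Real.finsetProd_rpow _ _ (fun l _ => pow_nonneg (Nat.cast_nonneg _) _)]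
    unfold VV
    push_cast
    rfl
  have n4 : (0 : ℝ) ≤ ∏ l ∈ Pz z D, ((v l : ℝ) + 1) := Finset.prod_nonneg fun l _ => by positivity
  have n3 : (0 : ℝ) ≤ ∏ l ∈ Pz z D, (2 * C) := Finset.prod_nonneg fun l _ => by linarith
  calc ∏ l ∈ Pz z D, (1 + C * ((v l : ℝ) + 1) * (l : ℝ) ^ ((v l : ℝ) / 8))
      ≤ (∏ l ∈ Pz z D, (2 * C)) * (∏ l ∈ Pz z D, ((v l : ℝ) + 1)) *
        ∏ l ∈ Pz z D, (l : ℝ) ^ ((v l : ℝ) / 8) := e1.trans (le_of_eq e2)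
    _ = (∏ l ∈ Pz z D, (2 * C)) * (∏ l ∈ Pz z D, ((v l : ℝ) + 1)) *
        (VV z D v : ℝ) ^ ((1 : ℝ) / 8) := by rw [e6]
    _ ≤ _ := by
        apply mul_le_mul_of_nonneg_right _ (by positivity)
        exact mul_le_mul e3 e4 n4 (n3.trans e3)

theorem tlb (δ A : ℝ) (hδ : 0 < δ) (hA : 0 < A) : ∃ T0 : ℝ, 2 ≤ T0 ∧ ∀ T : ℝ, T0 ≤ T →
    ∀ c2 c5 : ℝ, 0 < c2 → c2 ≤ δ / 8 → 0 < c5 → c5 ≤ δ / 64 →
    ∀ (c : Matrix (Fin 4) (Fin 4) ℤ) (D : ℕ) (v : ℕ → ℕ), Frm c D v → (D : ℝ) ≤ T ^ A →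
    (VV (T ^ c2) D v : ℝ) ≤ T ^ c5 → ∀ (A0 : Fin 4 → ℤ) (H : ℕ), T ^ δ ≤ (H : ℝ) →
    ∀ S : Finset (Fin 4 → ℤ), (∀ m ∈ S, m ∈ bx A0 (fun _ => H) ∧ Pm m ∧ qf c m ≠ 0 ∧
      T ^ (δ / 2) < (bm (T ^ c2) D (qf c m).natAbs : ℝ)) →
    (S.card : ℝ) ≤ (H : ℝ) ^ 4 * T ^ (-(δ / 64)) := by
  classical
  obtain ⟨C, hC1, hC⟩ := euT
  obtain ⟨K1, hK1, hK1'⟩ := dvp 1 ((1 : ℝ) / 8) le_rfl (by norm_num)
  obtain ⟨K2, hK2, hK2'⟩ := dvp (2 * C) (δ / (512 * A)) (by linarith) (by positivity)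
  have hM : (1 : ℝ) ≤ 16 * C * K1 * K2 := by
    have h1 : (1 : ℝ) ≤ 16 * C := by linarith
    have h2 : (1 : ℝ) ≤ 16 * C * K1 := by nlinarith
    nlinarith
  refine ⟨max 2 ((16 * C * K1 * K2) ^ (512 / (5 * δ))), le_max_left _ _, ?_⟩
  intro T hT c2 c5 hc2 hc2' hc5 hc5' c D v hF hDA hVV A0 H hH S hS
  have hT2 : (2 : ℝ) ≤ T := (le_max_left _ _).trans hT
  have hT1 : (1 : ℝ) ≤ T := by linarith
  have hT0 : (0 : ℝ) < T := by linarith
  have hMT : 16 * C * K1 * K2 ≤ T ^ (5 * δ / 512) := by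
    have h1 : (16 * C * K1 * K2) ^ (512 / (5 * δ)) ≤ T := (le_max_right _ _).trans hT
    have h2 := Real.rpow_le_rpow (by positivity) h1 (by positivity : (0 : ℝ) ≤ 5 * δ / 512)
    rw [← Real.rpow_mul (by linarith)] at h2
    have h3 : 512 / (5 * δ) * (5 * δ / 512) = 1 := by field_simp
    rwa [h3, Real.rpow_one] at h2
  have hz1 : 1 ≤ T ^ c2 := Real.one_le_rpow hT1 hc2.le
  have hY1 : 1 ≤ T ^ (δ / 4) := Real.one_le_rpow hT1 (by positivity)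
  have hzY : T ^ c2 ≤ T ^ (δ / 4) := Real.rpow_le_rpow_of_exponent_le hT1 (by linarith)
  have hY2 : (T ^ (δ / 4)) ^ 2 = T ^ (δ / 2) := by
    rw [← Real.rpow_natCast, ← Real.rpow_mul hT0.le]
    congr 1
    push_cast
    ring
  have hYH : (T ^ (δ / 4)) ^ 2 ≤ (H : ℝ) := by
    rw [hY2]
    exact (Real.rpow_le_rpow_of_exponent_le hT1 (by linarith)).trans hH
  have hYY : T ^ (δ / 4) ≤ T ^ (δ / 2) := Real.rpow_le_rpow_of_exponent_le hT1 (by linarith)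
  have hkey := hC (T ^ c2) (T ^ (δ / 4)) D v ⌊(T ^ (δ / 4)) ^ 2⌋₊ hF.pos hY1
  -- the covering
  have hcov : S ⊆ ((Icc 1 ⌊(T ^ (δ / 4)) ^ 2⌋₊).filter
      (fun b : ℕ => BB (T ^ c2) D b ∧ T ^ (δ / 4) < (b : ℝ))).biUnion
      (fun b => (bx A0 (fun _ => H)).filter (tlbP c b)) := by
    intro m hm
    obtain ⟨hmb, hmP, hmq, hmN⟩ := hS m hm
    have hn0 : (qf c m).natAbs ≠ 0 := Int.natAbs_ne_zero.mpr hmq
    obtain ⟨hB, hdvd, hNne⟩ := tlb_bm (T ^ c2) D _ hn0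
    obtain ⟨b, hb0, hbN, hYb, hbY, hBb⟩ := ext hNne hz1 hzY hB (hYY.trans_lt hmN)
    rw [Finset.mem_biUnion]
    refine ⟨b, ?_, ?_⟩
    · rw [Finset.mem_filter, Finset.mem_Icc]
      exact ⟨⟨Nat.one_le_iff_ne_zero.mpr hb0, Nat.le_floor hbY⟩, hBb, hYb⟩
    · rw [Finset.mem_filter]
      refine ⟨hmb, ?_, ?_⟩
      · exact Int.natCast_dvd.mpr (hbN.trans hdvd)
      · intro l hl
        exact hmP l (Nat.prime_of_mem_primeFactors hl)
  have hcard : (S.card : ℝ) ≤ ∑ b ∈ (Icc 1 ⌊(T ^ (δ / 4)) ^ 2⌋₊).filter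
      (fun b : ℕ => BB (T ^ c2) D b ∧ T ^ (δ / 4) < (b : ℝ)),
      (((bx A0 (fun _ => H)).filter (tlbP c b)).card : ℝ) := by
    have h1 := (Finset.card_le_card hcov).trans Finset.card_biUnion_le
    exact_mod_cast h1
  have hsum : ∑ b ∈ (Icc 1 ⌊(T ^ (δ / 4)) ^ 2⌋₊).filter
      (fun b : ℕ => BB (T ^ c2) D b ∧ T ^ (δ / 4) < (b : ℝ)),
      (((bx A0 (fun _ => H)).filter (tlbP c b)).card : ℝ) ≤
      16 * (H : ℝ) ^ 4 * ∑ b ∈ (Icc 1 ⌊(T ^ (δ / 4)) ^ 2⌋₊).filter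
      (fun b : ℕ => BB (T ^ c2) D b ∧ T ^ (δ / 4) < (b : ℝ)),
      ∏ l ∈ b.primeFactors, pk D v l (b.factorization l) := by
    rw [Finset.mul_sum]
    refine Finset.sum_le_sum (fun b hb => ?_)
    rw [Finset.mem_filter, Finset.mem_Icc] at hb
    obtain ⟨⟨hb1, hb2⟩, hb3, _⟩ := hb
    have hbY : (b : ℝ) ≤ (T ^ (δ / 4)) ^ 2 :=
      (Nat.cast_le.mpr hb2).trans (Nat.floor_le (by positivity))
    have hbH : b ≤ H := by exact_mod_cast hbY.trans hYH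
    have := tlb_cnt hF (T ^ c2) A0 H b hb1 hbH hb3
    convert this using 4
  have hpi := tlb_pi hC1 (T ^ c2) D hF.pos v K1 K2 (δ / (512 * A)) hK1' hK2'
  have hD1 : (1 : ℝ) ≤ (D : ℝ) := by exact_mod_cast hF.pos
  have hDe : (D : ℝ) ^ (δ / (512 * A)) ≤ T ^ (δ / 512) := by
    calc (D : ℝ) ^ (δ / (512 * A)) ≤ (T ^ A) ^ (δ / (512 * A)) :=
          Real.rpow_le_rpow (by linarith) hDA (by positivity)
      _ = T ^ (δ / 512) := by
          rw [← Real.rpow_mul hT0.le]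
          congr 1
          field_simp
  have hVe : (VV (T ^ c2) D v : ℝ) ^ ((1 : ℝ) / 8) ≤ T ^ (δ / 512) := by
    calc (VV (T ^ c2) D v : ℝ) ^ ((1 : ℝ) / 8) ≤ (T ^ c5) ^ ((1 : ℝ) / 8) :=
          Real.rpow_le_rpow (Nat.cast_nonneg _) hVV (by norm_num)
      _ = T ^ (c5 * ((1 : ℝ) / 8)) := by rw [← Real.rpow_mul hT0.le]
      _ ≤ T ^ (δ / 512) := Real.rpow_le_rpow_of_exponent_le hT1 (by linarith)
  have hYe : (T ^ (δ / 4)) ^ (-(1 / 8) : ℝ) = T ^ (-(δ / 32)) := by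
    rw [← Real.rpow_mul hT0.le]
    congr 1
    ring
  have hpi2 : ∏ l ∈ Pz (T ^ c2) D, (1 + C * ((v l : ℝ) + 1) * (l : ℝ) ^ ((v l : ℝ) / 8)) ≤
      (K2 * T ^ (δ / 512)) * (K1 * T ^ (δ / 512)) * T ^ (δ / 512) := by
    refine hpi.trans ?_
    have hV0 : (0 : ℝ) ≤ (VV (T ^ c2) D v : ℝ) ^ ((1 : ℝ) / 8) := by positivity
    have a1 : K2 * (D : ℝ) ^ (δ / (512 * A)) ≤ K2 * T ^ (δ / 512) :=
      mul_le_mul_of_nonneg_left hDe (by linarith)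
    have a2 : K1 * (VV (T ^ c2) D v : ℝ) ^ ((1 : ℝ) / 8) ≤ K1 * T ^ (δ / 512) :=
      mul_le_mul_of_nonneg_left hVe (by linarith)
    have a3 := mul_le_mul a1 a2 (mul_nonneg (by linarith) hV0)
      (mul_nonneg (by linarith) (by positivity))
    exact mul_le_mul a3 hVe hV0 (mul_nonneg (mul_nonneg (by linarith) (by positivity))
      (mul_nonneg (by linarith) (by positivity)))
  have hH4 : (0 : ℝ) ≤ 16 * (H : ℝ) ^ 4 := by positivity
  have hY0 : (0 : ℝ) ≤ C * (T ^ (δ / 4)) ^ (-(1 / 8) : ℝ) := mul_nonneg (by linarith) (by positivity)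
  calc (S.card : ℝ) ≤ 16 * (H : ℝ) ^ 4 * ∑ b ∈ (Icc 1 ⌊(T ^ (δ / 4)) ^ 2⌋₊).filter
        (fun b : ℕ => BB (T ^ c2) D b ∧ T ^ (δ / 4) < (b : ℝ)),
        ∏ l ∈ b.primeFactors, pk D v l (b.factorization l) := hcard.trans hsum
    _ ≤ 16 * (H : ℝ) ^ 4 * (C * (T ^ (δ / 4)) ^ (-(1 / 8) : ℝ) *
        ∏ l ∈ Pz (T ^ c2) D, (1 + C * ((v l : ℝ) + 1) * (l : ℝ) ^ ((v l : ℝ) / 8))) := by
        apply mul_le_mul_of_nonneg_left _ hH4
        convert hkey using 3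
    _ ≤ 16 * (H : ℝ) ^ 4 * (C * (T ^ (δ / 4)) ^ (-(1 / 8) : ℝ) *
        ((K2 * T ^ (δ / 512)) * (K1 * T ^ (δ / 512)) * T ^ (δ / 512))) :=
        mul_le_mul_of_nonneg_left (mul_le_mul_of_nonneg_left hpi2 hY0) hH4
    _ = (H : ℝ) ^ 4 * ((16 * C * K1 * K2) *
        (T ^ (-(δ / 32)) * T ^ (δ / 512) * T ^ (δ / 512) * T ^ (δ / 512))) := by
        rw [hYe]
        ring
    _ = (H : ℝ) ^ 4 * ((16 * C * K1 * K2) * T ^ (-(13 * δ / 512))) := by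
        rw [← Real.rpow_add hT0, ← Real.rpow_add hT0, ← Real.rpow_add hT0]
        congr 3
        ring
    _ ≤ (H : ℝ) ^ 4 * (T ^ (5 * δ / 512) * T ^ (-(13 * δ / 512))) := by
        apply mul_le_mul_of_nonneg_left _ (by positivity)
        exact mul_le_mul_of_nonneg_right hMT (by positivity)
    _ = (H : ℝ) ^ 4 * T ^ (-(δ / 64)) := by
        rw [← Real.rpow_add hT0]
        congr 2
        ring

end Pool.Agent.PP5C
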