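import Pool.Agent.PP5C.MnB
import Pool.Agent.PP5C.TlB

/-!
# Ca: THEOREM (C1) (difficulty 4)

Take `c2, κ, C, C1` from `mnb` with `η' = min η (δ/8)`, `c5 = min η (δ/64)`, `c4 = min (c5 / 100) (δ / 200)`,
`c3 = min (c4 / 2) c2`.
* `VV ≤ T ^ c5`: split `S` according to `bm ≤ T ^ (δ/2)` (`mnb`) or `>` (`tlb`); for the second part every summand
  is at most `T ^ c3 * K T ^ (ε A) ≤ T ^ c4` (`ptt`, `dvp` with `C = 1`, `ε A = c4/4`, `T` large), so it contributes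
  `≤ H ^ 4 T ^ (c4 - δ/64) ≤ H ^ 4`.  Total `≤ H ^ 4 * C' (1 + gg D HH Sg)`.
* otherwise every summand is at most `T ^ c4` and `#S ≤ #bx = H ^ 4`.
-/

set_option autoImplicit false

namespace Pool.Agent.PP5C

open Finset Pool.Agent.PPS

private lemma ca_card (A0 : Fin 4 → ℤ) (H : ℕ) : ((bx A0 (fun _ => H)).card : ℝ) = (H : ℝ) ^ 4 := by
  have h : (bx A0 (fun _ => H)).card = H ^ 4 := by
    unfold bx
    rw [Fintype.card_piFinset]
    simp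
  rw [h]
  push_cast
  rfl

theorem ca (δ A η : ℝ) (hδ : 0 < δ) (hA : 0 < A) (hη : 0 < η) :
    ∃ c2 c3 c4 c5 C C1 κ T0 : ℝ, 0 < c2 ∧ c2 ≤ η ∧ 0 < c3 ∧ 0 < c4 ∧ c4 ≤ c5 / 100 ∧ 0 < c5 ∧ c5 ≤ η ∧
    0 < C ∧ 1 ≤ C1 ∧ 0 ≤ κ ∧ 2 ≤ T0 ∧ ∀ T : ℝ, T0 ≤ T → 4 ≤ T ^ c2 ∧
    ∀ (c : Matrix (Fin 4) (Fin 4) ℤ) (D : ℕ) (v : ℕ → ℕ), Frm c D v → (D : ℝ) ≤ T ^ A →
    ∀ (A0 : Fin 4 → ℤ) (H : ℕ), T ^ δ ≤ (H : ℝ) →
    ∀ ps : ℕ → ℝ, (∀ l, 0 ≤ ps l ∧ ps l ≤ 2) →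
    ∀ (om : (Fin 4 → ℤ) → ℕ → ℝ) (ix : (Fin 4 → ℤ) → ℕ → ℕ) (S : Finset (Fin 4 → ℤ)),
    (∀ m ∈ S, m ∈ bx A0 (fun _ => H) ∧ Pm m ∧ qf c m ≠ 0 ∧ ((qf c m).natAbs : ℝ) ≤ T ^ A ∧
      Wgt D (qf c m).natAbs ps (om m) (ix m) ∧ (sx D (qf c m).natAbs (ix m) : ℝ) ≤ T ^ c3) →
    ∑ m ∈ S, ∏ l ∈ (qf c m).natAbs.primeFactors, om m l ≤
      (H : ℝ) ^ 4 * Tht T (T ^ c2) κ C C1 c4 c5 D v ps := by
  classical
  obtain ⟨c2, Cm, C1, Tm, κ, hc2, hc2', hCm, hC1, hTm, hκ, hmn⟩ :=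
    mnb δ A (min η (δ / 8)) hδ hA (lt_min hη (by positivity))
  have hc2η : c2 ≤ η := hc2'.trans (min_le_left _ _)
  have hc2δ : c2 ≤ δ / 8 := hc2'.trans (min_le_right _ _)
  obtain ⟨c5, hc5e⟩ : ∃ c5, c5 = min η (δ / 64) := ⟨_, rfl⟩
  have hc5 : 0 < c5 := by rw [hc5e]; exact lt_min hη (by positivity)
  have hc5η : c5 ≤ η := by rw [hc5e]; exact min_le_left _ _
  have hc5δ : c5 ≤ δ / 64 := by rw [hc5e]; exact min_le_right _ _
  obtain ⟨c4, hc4e⟩ : ∃ c4, c4 = min (c5 / 100) (δ / 200) := ⟨_, rfl⟩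
  have hc4 : 0 < c4 := by rw [hc4e]; exact lt_min (by positivity) (by positivity)
  have hc45 : c4 ≤ c5 / 100 := by rw [hc4e]; exact min_le_left _ _
  have hc4δ : c4 ≤ δ / 200 := by rw [hc4e]; exact min_le_right _ _
  obtain ⟨c3, hc3e⟩ : ∃ c3, c3 = min (c4 / 2) c2 := ⟨_, rfl⟩
  have hc3 : 0 < c3 := by rw [hc3e]; exact lt_min (by positivity) hc2
  have hc34 : c3 ≤ c4 / 2 := by rw [hc3e]; exact min_le_left _ _
  have hc32 : c3 ≤ c2 := by rw [hc3e]; exact min_le_right _ _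
  obtain ⟨Tt, hTt, htl⟩ := tlb δ A hδ hA
  obtain ⟨K, hK1, hK⟩ := dvp 1 (c4 / (4 * A)) le_rfl (by positivity)
  refine ⟨c2, c3, c4, c5, max Cm 1, C1, κ, max (max Tm Tt) (K ^ (4 / c4)), hc2, hc2η, hc3, hc4,
    hc45, hc5, hc5η, lt_max_of_lt_left hCm, hC1, hκ,
    hTm.trans ((le_max_left _ _).trans (le_max_left _ _)), ?_⟩
  intro T hT
  have hTm' : Tm ≤ T := ((le_max_left _ _).trans (le_max_left _ _)).trans hT
  have hTt' : Tt ≤ T := ((le_max_right _ _).trans (le_max_left _ _)).trans hT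
  have hTK : K ^ (4 / c4) ≤ T := (le_max_right _ _).trans hT
  have hT1 : (1 : ℝ) ≤ T := by linarith
  have hT0 : (0 : ℝ) < T := by linarith
  have hKT : K ≤ T ^ (c4 / 4) := by
    have h2 := Real.rpow_le_rpow (by positivity) hTK (by positivity : (0 : ℝ) ≤ c4 / 4)
    rw [← Real.rpow_mul (by linarith)] at h2
    have h3 : 4 / c4 * (c4 / 4) = 1 := by field_simp
    rwa [h3, Real.rpow_one] at h2
  obtain ⟨h4, hmn⟩ := hmn T hTm'
  refine ⟨h4, ?_⟩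
  intro c D v hF hDA A0 H hH ps hps om ix S hS
  have hH0 : (0 : ℝ) < (H : ℝ) := lt_of_lt_of_le (by positivity) hH
  have hH4 : (0 : ℝ) < (H : ℝ) ^ 4 := by positivity
  -- every summand is at most `T ^ c4`
  have hsm : ∀ m ∈ S, ∏ l ∈ (qf c m).natAbs.primeFactors, om m l ≤ T ^ c4 := by
    intro m hm
    obtain ⟨_, _, hmq, hmA, hW, hs⟩ := hS m hm
    have hn0 : (qf c m).natAbs ≠ 0 := Int.natAbs_ne_zero.mpr hmq
    have h1 := ptt hps hW
    have h2 := hK _ hn0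
    have h3 : ∏ l ∈ (qf c m).natAbs.primeFactors, (1 * (((qf c m).natAbs.factorization l : ℝ) + 1)) =
        ∏ l ∈ (qf c m).natAbs.primeFactors, (((qf c m).natAbs.factorization l : ℝ) + 1) :=
      Finset.prod_congr rfl (fun l _ => by rw [one_mul])
    rw [h3] at h2
    have h5 : ((qf c m).natAbs : ℝ) ^ (c4 / (4 * A)) ≤ T ^ (c4 / 4) := by
      calc ((qf c m).natAbs : ℝ) ^ (c4 / (4 * A)) ≤ (T ^ A) ^ (c4 / (4 * A)) :=
            Real.rpow_le_rpow (Nat.cast_nonneg _) hmA (by positivity)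
        _ = T ^ (c4 / 4) := by
            rw [← Real.rpow_mul hT0.le]
            congr 1
            field_simp
    have h6 : ∏ l ∈ (qf c m).natAbs.primeFactors, (((qf c m).natAbs.factorization l : ℝ) + 1) ≤
        T ^ (c4 / 4) * T ^ (c4 / 4) :=
      h2.trans (mul_le_mul hKT h5 (by positivity) (by positivity))
    have h7 : (0 : ℝ) ≤ ∏ l ∈ (qf c m).natAbs.primeFactors,
        (((qf c m).natAbs.factorization l : ℝ) + 1) := Finset.prod_nonneg fun l _ => by positivity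
    calc ∏ l ∈ (qf c m).natAbs.primeFactors, om m l
        ≤ (sx D (qf c m).natAbs (ix m) : ℝ) *
          ∏ l ∈ (qf c m).natAbs.primeFactors, (((qf c m).natAbs.factorization l : ℝ) + 1) := h1
      _ ≤ T ^ c3 * (T ^ (c4 / 4) * T ^ (c4 / 4)) := mul_le_mul hs h6 h7 (by positivity)
      _ = T ^ (c3 + (c4 / 4 + c4 / 4)) := by rw [Real.rpow_add hT0, Real.rpow_add hT0]
      _ ≤ T ^ c4 := Real.rpow_le_rpow_of_exponent_le hT1 (by linarith)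
  unfold Tht
  split_ifs with hV
  · -- the main case
    have hX : 0 ≤ gg D * HH C1 (T ^ c2) D v * Sg (T ^ c2) κ ps D := by
      have h0 := hmn c D v hF A0 H hH ps hps c3 hc32 om ix ∅ (by simp)
      rw [Finset.sum_empty] at h0
      by_contra hneg
      push Not at hneg
      have : Cm * (H : ℝ) ^ 4 * (gg D * HH C1 (T ^ c2) D v * Sg (T ^ c2) κ ps D) < 0 :=
        mul_neg_of_pos_of_neg (by positivity) hneg
      linarith
    have h1 := hmn c D v hF A0 H hH ps hps c3 hc32 om ix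
      (S.filter fun m => (bm (T ^ c2) D (qf c m).natAbs : ℝ) ≤ T ^ (δ / 2)) (by
        intro m hm
        obtain ⟨hmS, hmb⟩ := Finset.mem_filter.mp hm
        obtain ⟨a1, a2, a3, a4, a5, a6⟩ := hS m hmS
        exact ⟨a1, a2, a3, a4, a5, a6, hmb⟩)
    have h2 := htl T hTt' c2 c5 hc2 hc2δ hc5 hc5δ c D v hF hDA hV A0 H hH
      (S.filter fun m => ¬ (bm (T ^ c2) D (qf c m).natAbs : ℝ) ≤ T ^ (δ / 2)) (by
        intro m hm
        obtain ⟨hmS, hmb⟩ := Finset.mem_filter.mp hm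
        obtain ⟨a1, a2, a3, a4, a5, a6⟩ := hS m hmS
        exact ⟨a1, a2, a3, not_le.mp hmb⟩)
    have h3 : ∑ m ∈ S.filter (fun m => ¬ (bm (T ^ c2) D (qf c m).natAbs : ℝ) ≤ T ^ (δ / 2)),
        ∏ l ∈ (qf c m).natAbs.primeFactors, om m l ≤ (H : ℝ) ^ 4 := by
      calc ∑ m ∈ S.filter (fun m => ¬ (bm (T ^ c2) D (qf c m).natAbs : ℝ) ≤ T ^ (δ / 2)),
            ∏ l ∈ (qf c m).natAbs.primeFactors, om m l
          ≤ ∑ m ∈ S.filter (fun m => ¬ (bm (T ^ c2) D (qf c m).natAbs : ℝ) ≤ T ^ (δ / 2)), T ^ c4 :=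
            Finset.sum_le_sum fun m hm => hsm m (Finset.mem_filter.mp hm).1
        _ = ((S.filter (fun m => ¬ (bm (T ^ c2) D (qf c m).natAbs : ℝ) ≤ T ^ (δ / 2))).card : ℝ) *
            T ^ c4 := by rw [Finset.sum_const, nsmul_eq_mul]
        _ ≤ ((H : ℝ) ^ 4 * T ^ (-(δ / 64))) * T ^ c4 :=
            mul_le_mul_of_nonneg_right h2 (by positivity)
        _ = (H : ℝ) ^ 4 * T ^ (-(δ / 64) + c4) := by rw [Real.rpow_add hT0]; ring
        _ ≤ (H : ℝ) ^ 4 * 1 := by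
            apply mul_le_mul_of_nonneg_left _ hH4.le
            exact Real.rpow_le_one_of_one_le_of_nonpos hT1 (by linarith)
        _ = (H : ℝ) ^ 4 := mul_one _
    rw [← Finset.sum_filter_add_sum_filter_not S
      (fun m => (bm (T ^ c2) D (qf c m).natAbs : ℝ) ≤ T ^ (δ / 2))]
    have hC : Cm ≤ max Cm 1 := le_max_left _ _
    have hC' : 1 ≤ max Cm 1 := le_max_right _ _
    have h5 : Cm * (gg D * HH C1 (T ^ c2) D v * Sg (T ^ c2) κ ps D) ≤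
        max Cm 1 * (gg D * HH C1 (T ^ c2) D v * Sg (T ^ c2) κ ps D) :=
      mul_le_mul_of_nonneg_right hC hX
    have h6 : (H : ℝ) ^ 4 * (Cm * (gg D * HH C1 (T ^ c2) D v * Sg (T ^ c2) κ ps D) + 1) ≤
        (H : ℝ) ^ 4 * (max Cm 1 * (1 + gg D * HH C1 (T ^ c2) D v * Sg (T ^ c2) κ ps D)) := by
      apply mul_le_mul_of_nonneg_left _ hH4.le
      linarith
    refine le_trans (add_le_add h1 h3) (le_trans (le_of_eq ?_) h6)
    ring
  · -- large content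
    calc ∑ m ∈ S, ∏ l ∈ (qf c m).natAbs.primeFactors, om m l ≤ ∑ m ∈ S, T ^ c4 :=
          Finset.sum_le_sum hsm
      _ = (S.card : ℝ) * T ^ c4 := by rw [Finset.sum_const, nsmul_eq_mul]
      _ ≤ (H : ℝ) ^ 4 * T ^ c4 := by
          apply mul_le_mul_of_nonneg_right _ (by positivity)
          rw [← ca_card A0 H]
          exact_mod_cast Finset.card_le_card (fun m hm => (hS m hm).1)

end Pool.Agent.PP5C
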