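import Pool.Agent.PP5C.MnX

/-!
# Cb: THEOREM (C2) (difficulty 3)

`c6 = 8 c5`.  Split `S` according to `VV ≤ T ^ c5` or not.
* first part: `Tht = C (1 + gg D HH Sg)`: `C #S + C * mnx`; `#S ≤ C0 ρ ^ 9 / R` (`hcl` with `n0 = n1 = a = 1`: the products are
  empty, `An 1 x` true, `r0 C0 1 = r1 C0 1 = ra C0 1 = 1`).
* second part: `Tht = T ^ c4` and `tlx`: `T ^ (c4 - c5/10) ≤ 1`.
-/

set_option autoImplicit false

namespace Pool.Agent.PP5C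

open Finset Pool.Agent.PPS

open Classical in
private theorem cb_card {δ δ1 C0 T1 : ℝ} (hδ1 : 0 < δ1) (hcl : ClP δ δ1 C0 T1)
    (A T : ℝ) (hT : T1 ≤ T) (hT2 : 2 ≤ T) (ρ R : ℝ) (τ Y : Fin 10 → ℝ) (j : Fin 10)
    (hs : Scl T δ δ1 ρ R τ) (S : Finset (Fin 10 → ℤ)) (hS : ∀ x ∈ S, Cel T A ρ R τ Y j x) :
    (S.card : ℝ) ≤ C0 * (ρ ^ 9 / R) := by
  have h1 : ((1 * 1 * 1 : ℕ) : ℝ) ≤ T ^ δ1 := by
    have := Real.one_le_rpow (x := T) (z := δ1) (by linarith) hδ1.le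
    simpa using this
  have h := hcl T hT A ρ R τ Y j hs 1 1 1 squarefree_one one_ne_zero squarefree_one
    (Nat.coprime_one_left 1) h1 S hS
  have e1 : S.filter (fun x => 1 ∣ D2 x ∧ An 1 x ∧ Nat.Coprime 1 (D2 x)) = S := by
    apply Finset.filter_true_of_mem
    intro x _
    refine ⟨one_dvd _, ?_, Nat.coprime_one_left _⟩
    intro i j
    simp
  rw [e1] at h
  simpa [r0, r1, ra] using h

theorem cb {δ δ1 C0 T1 : ℝ} (hδ : 0 < δ) (hδ1 : 0 < δ1) (hC0 : 1 ≤ C0) (hcl : ClP δ δ1 C0 T1)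
    (A c2 c4 c5 C C1 κ : ℝ) (hA : 0 < A) (hc2 : 0 < c2) (hc5 : 0 < c5) (hc4 : c4 ≤ c5 / 100)
    (h25 : c2 + 9 * c5 ≤ δ1) (hC : 0 < C) (hC1 : 1 ≤ C1) (hκ : 0 ≤ κ) :
    ∃ C' T0 : ℝ, 0 < C' ∧ 2 ≤ T0 ∧ ∀ T : ℝ, T0 ≤ T → 2 ≤ T ^ c2 →
    ∀ (ρ R : ℝ) (τ Y : Fin 10 → ℝ) (j : Fin 10), Scl T δ δ1 ρ R τ → ∀ S : Finset (Fin 10 → ℤ),
    (∀ x ∈ S, Cel T A ρ R τ Y j x) →
    ∑ x ∈ S, Tht T (T ^ c2) κ C C1 c4 c5 (D2 x) (vx x) (psx x) ≤ C' * (ρ ^ 9 / R) := by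
  classical
  obtain ⟨Cm, Tm, hCm, hTm, -, hm⟩ := mnx hδ hδ1 hC0 hcl A c2 c5 (8 * c5) C1 κ hA hc2 hc5
    (by linarith) (by linarith) hC1 hκ
  obtain ⟨Tt, hTt, -, ht⟩ := tlx hδ hδ1 hC0 hcl c2 c5 hc2 hc5 (by linarith)
  refine ⟨C * C0 + C * Cm + 1, max (max Tm Tt) (max T1 2), by positivity,
    (le_max_right _ _).trans (le_max_right _ _), ?_⟩
  intro T hT h2 ρ R τ Y j hs S hS
  have hTm' : Tm ≤ T := ((le_max_left _ _).trans (le_max_left _ _)).trans hT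
  have hTt' : Tt ≤ T := ((le_max_right _ _).trans (le_max_left _ _)).trans hT
  have hT1 : T1 ≤ T := ((le_max_left _ _).trans (le_max_right _ _)).trans hT
  have hT2 : 2 ≤ T := ((le_max_right _ _).trans (le_max_right _ _)).trans hT
  have hT0 : 0 < T := by linarith
  have hρ : 0 < ρ := lt_of_lt_of_le (Real.rpow_pos_of_pos hT0 δ) hs.r1
  have hR : 0 < R := lt_of_lt_of_le hρ hs.r2
  have hq : 0 ≤ ρ ^ 9 / R := by positivity
  rw [← Finset.sum_filter_add_sum_filter_not S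
    (fun x => (VV (T ^ c2) (D2 x) (vx x) : ℝ) ≤ T ^ c5)]
  set S1 := S.filter (fun x => (VV (T ^ c2) (D2 x) (vx x) : ℝ) ≤ T ^ c5) with hS1
  set S2 := S.filter (fun x => ¬ (VV (T ^ c2) (D2 x) (vx x) : ℝ) ≤ T ^ c5) with hS2
  have e1 : ∑ x ∈ S1, Tht T (T ^ c2) κ C C1 c4 c5 (D2 x) (vx x) (psx x) =
      C * (S1.card : ℝ) + C * ∑ x ∈ S1, gg (D2 x) * HH C1 (T ^ c2) (D2 x) (vx x) *
        Sg (T ^ c2) κ (psx x) (D2 x) := by
    rw [Finset.mul_sum, Finset.card_eq_sum_ones, Nat.cast_sum, Finset.mul_sum,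
      ← Finset.sum_add_distrib]
    apply Finset.sum_congr rfl
    intro x hx
    have hx' := (Finset.mem_filter.mp hx).2
    unfold Tht
    rw [if_pos hx']
    push_cast
    ring
  have e2 : ∑ x ∈ S2, Tht T (T ^ c2) κ C C1 c4 c5 (D2 x) (vx x) (psx x) =
      (S2.card : ℝ) * T ^ c4 := by
    rw [Finset.card_eq_sum_ones, Nat.cast_sum, Finset.sum_mul]
    apply Finset.sum_congr rfl
    intro x hx
    have hx' := (Finset.mem_filter.mp hx).2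
    unfold Tht
    rw [if_neg hx']
    push_cast
    ring
  have b1 : (S1.card : ℝ) ≤ C0 * (ρ ^ 9 / R) := by
    apply cb_card hδ1 hcl A T hT1 hT2 ρ R τ Y j hs
    intro x hx
    exact hS x (Finset.mem_filter.mp hx).1
  have b2 := hm T hTm' h2 ρ R τ Y j hs S1 (by
    intro x hx
    exact ⟨hS x (Finset.mem_filter.mp hx).1, (Finset.mem_filter.mp hx).2⟩)
  have b3 := ht T hTt' A ρ R τ Y j hs S2 (by
    intro x hx
    exact ⟨hS x (Finset.mem_filter.mp hx).1, lt_of_not_ge (Finset.mem_filter.mp hx).2⟩)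
  have b4 : (S2.card : ℝ) * T ^ c4 ≤ ρ ^ 9 / R := by
    have h4 : T ^ (-(c5 / 10)) * T ^ c4 ≤ 1 := by
      rw [← Real.rpow_add hT0]
      apply Real.rpow_le_one_of_one_le_of_nonpos (by linarith)
      linarith
    calc (S2.card : ℝ) * T ^ c4 ≤ (ρ ^ 9 / R * T ^ (-(c5 / 10))) * T ^ c4 :=
          mul_le_mul_of_nonneg_right b3 (Real.rpow_nonneg hT0.le _)
      _ = ρ ^ 9 / R * (T ^ (-(c5 / 10)) * T ^ c4) := by ring
      _ ≤ ρ ^ 9 / R * 1 := mul_le_mul_of_nonneg_left h4 hq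
      _ = ρ ^ 9 / R := mul_one _
  rw [e1, e2]
  have c1 := mul_le_mul_of_nonneg_left b1 hC.le
  have c3 := mul_le_mul_of_nonneg_left b2 hC.le
  nlinarith

end Pool.Agent.PP5C
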