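import Pool.Agent.PP5C.Ca
import Pool.Agent.PP5C.Cb

/-!
# Cc: THEOREM C (difficulty 2)

`δ1, C0, T1` from `clx δ`; `η = δ1 / 10`; constants from `ca δ A η`; `Θ x := Tht T (T ^ c2) κ C C1 c4 c5 (D2 x) (vx x) (psx x)`.
* (C1): `ca` with `D = D2 x`, `v = vx x`, `ps = psx x` (`psx x l ∈ {0, 2}`): `Frm c (D2 x) (vx x)`: `pos`, `two` clear (`DX x ≠ 0`), `det` = `h3`,
  `con`: if `Cn (l ^ (vx x l + 1)) c` then by `h5` `An (l ^ (vx x l + 1)) x`, so `l ^ (vx x l + 1)` divides `ctx x ≠ 0`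
  (`ctx x ≠ 0` because `det (adj S) = (det S) ^ 3 ≠ 0`), contradiction to the definition of `factorization`.
* (C2): `cb`; `c2 + 9 c5 ≤ 10 η = δ1`.
* `0 ≤ Θ x`: all terms are nonnegative (`gg`, `hh`, `Sg` with `T ^ c2 ≥ 4`).
-/

set_option autoImplicit false

namespace Pool.Agent.PP5C

open Finset Pool.Agent.PPS

private theorem cc_gg_nonneg (n : ℕ) : 0 ≤ gg n := by
  unfold gg
  refine Finset.prod_nonneg fun l hl => ?_
  have hp := Nat.prime_of_mem_primeFactors hl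
  have h1 : (1 : ℝ) / (l : ℝ) ≤ 1 := by
    have : (1 : ℝ) ≤ (l : ℝ) := by exact_mod_cast hp.one_lt.le
    rw [div_le_one (by linarith)]
    exact this
  exact inv_nonneg.mpr (by linarith)

private theorem cc_hh_nonneg (C : ℝ) (hC : 0 ≤ C) (l v : ℕ) : 0 ≤ hh C l v := by
  unfold hh
  split_ifs
  · positivity
  · positivity

private theorem cc_HH_nonneg (C z : ℝ) (hC : 0 ≤ C) (D : ℕ) (v : ℕ → ℕ) : 0 ≤ HH C z D v := by
  unfold HH
  refine Finset.prod_nonneg fun l _ => ?_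
  have := cc_hh_nonneg C hC l (v l)
  linarith

private theorem cc_Sg_nonneg (z κ : ℝ) (hz : 1 ≤ z) (ps : ℕ → ℝ) (hps : ∀ l, 0 ≤ ps l) (D : ℕ) :
    0 ≤ Sg z κ ps D := by
  unfold Sg
  refine Finset.sum_nonneg fun i _ => mul_nonneg (div_nonneg (by positivity) ?_)
    (Finset.sum_nonneg fun a _ => mul_nonneg (div_nonneg (by positivity) (by positivity))
      (Finset.prod_nonneg fun l _ => hps l))
  unfold ww
  rw [Real.log_exp]
  exact div_nonneg (Real.log_nonneg hz) (by positivity)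

private theorem cc_psx (x : Fin 10 → ℤ) (l : ℕ) : 0 ≤ psx x l ∧ psx x l ≤ 2 := by
  unfold psx
  split_ifs <;> constructor <;> norm_num

private theorem cc_ctx_ne (x : Fin 10 → ℤ) (hx : DX x ≠ 0) : ctx x ≠ 0 := by
  intro h
  apply hx
  unfold ctx at h
  rw [Finset.gcd_eq_zero_iff] at h
  have hadj : (SX x).adjugate = 0 := by
    ext i j
    have h1 := h (i, j) (Finset.mem_univ _)
    have h2 : 8 * (SX x).adjugate i j = 0 := Int.natAbs_eq_zero.mp h1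
    have h3 : (SX x).adjugate i j = 0 := by
      rcases mul_eq_zero.mp h2 with h | h
      · norm_num at h
      · exact h
    simpa using h3
  have h4 := Matrix.mul_adjugate (SX x)
  rw [hadj, Matrix.mul_zero] at h4
  have h5 := congrFun (congrFun h4 0) 0
  simp at h5
  exact h5.symm

private theorem cc_frm (x : Fin 10 → ℤ) (hx : DX x ≠ 0) (c : Matrix (Fin 4) (Fin 4) ℤ)
    (h3 : ∀ l : ℕ, l.Prime → ¬ l ∣ D2 x → ¬ (l : ℤ) ∣ (c + c.transpose).det)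
    (h5 : ∀ n : ℕ, Cn n c → An n x) : Frm c (D2 x) (vx x) := by
  refine ⟨?_, ?_, h3, ?_⟩
  · unfold D2
    have : 0 < (DX x).natAbs := Int.natAbs_pos.mpr hx
    omega
  · exact Dvd.intro _ rfl
  · intro l hl hC
    have hA := h5 _ hC
    have hd : l ^ (vx x l + 1) ∣ ctx x := by
      unfold ctx
      refine Finset.dvd_gcd fun p _ => ?_
      have := hA p.1 p.2
      exact Int.natCast_dvd.mp this
    have h6 := (hl.pow_dvd_iff_le_factorization (cc_ctx_ne x hx)).mp hd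
    unfold vx at h6
    omega

theorem cc (δ A : ℝ) (hδ : 0 < δ) (hA : 0 < A) :
    ∃ δ1 c3 C T0 : ℝ, 0 < δ1 ∧ 0 < c3 ∧ 0 < C ∧ 2 ≤ T0 ∧ ∀ T : ℝ, T0 ≤ T →
    ∃ Θ : (Fin 10 → ℤ) → ℝ, (∀ x, 0 ≤ Θ x) ∧
    (∀ x : Fin 10 → ℤ, DX x ≠ 0 → (D2 x : ℝ) ≤ T ^ A → ∀ c : Matrix (Fin 4) (Fin 4) ℤ,
      (∀ l : ℕ, l.Prime → ¬ l ∣ D2 x → ¬ (l : ℤ) ∣ (c + c.transpose).det) →
      (∀ n : ℕ, Cn n c → An n x) →
      ∀ (A0 : Fin 4 → ℤ) (H : ℕ), T ^ δ ≤ (H : ℝ) →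
      ∀ (om : (Fin 4 → ℤ) → ℕ → ℝ) (ix : (Fin 4 → ℤ) → ℕ → ℕ) (S : Finset (Fin 4 → ℤ)),
      (∀ m ∈ S, m ∈ bx A0 (fun _ => H) ∧ Pm m ∧ qf c m ≠ 0 ∧ ((qf c m).natAbs : ℝ) ≤ T ^ A ∧
        Wgt (D2 x) (qf c m).natAbs (psx x) (om m) (ix m) ∧
        (sx (D2 x) (qf c m).natAbs (ix m) : ℝ) ≤ T ^ c3) →
      ∑ m ∈ S, ∏ l ∈ (qf c m).natAbs.primeFactors, om m l ≤ (H : ℝ) ^ 4 * Θ x) ∧
    (∀ (ρ R : ℝ) (τ Y : Fin 10 → ℝ) (j : Fin 10), Scl T δ δ1 ρ R τ → ∀ S : Finset (Fin 10 → ℤ),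
      (∀ x ∈ S, Cel T A ρ R τ Y j x) → ∑ x ∈ S, Θ x ≤ C * (ρ ^ 9 / R)) := by
  obtain ⟨δ1, C0, T1, hδ1, hC0, hT1, hcl⟩ := clx δ hδ
  obtain ⟨c2, c3, c4, c5, C, C1, κ, T2, hc2, hc2η, hc3, hc4, hc45, hc5, hc5η, hC, hC1, hκ, hT2, hca⟩ :=
    ca δ A (δ1 / 10) hδ hA (by positivity)
  obtain ⟨C', T3, hC', hT3, hcb⟩ := cb hδ hδ1 hC0 hcl A c2 c4 c5 C C1 κ hA hc2 hc5 hc45
    (by linarith) hC hC1 hκ
  refine ⟨δ1, c3, C', max T2 T3, hδ1, hc3, hC', le_max_of_le_left hT2, fun T hT => ?_⟩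
  have hTT2 : T2 ≤ T := le_trans (le_max_left _ _) hT
  have hTT3 : T3 ≤ T := le_trans (le_max_right _ _) hT
  obtain ⟨h4, hca2⟩ := hca T hTT2
  refine ⟨fun x => Tht T (T ^ c2) κ C C1 c4 c5 (D2 x) (vx x) (psx x), ?_, ?_, ?_⟩
  · intro x
    show 0 ≤ Tht T (T ^ c2) κ C C1 c4 c5 (D2 x) (vx x) (psx x)
    unfold Tht
    split_ifs
    · refine mul_nonneg hC.le ?_
      have h1 := cc_gg_nonneg (D2 x)
      have h2 := cc_HH_nonneg C1 (T ^ c2) (by linarith) (D2 x) (vx x)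
      have h3 := cc_Sg_nonneg (T ^ c2) κ (by linarith) (psx x) (fun l => (cc_psx x l).1) (D2 x)
      have h5 := mul_nonneg (mul_nonneg h1 h2) h3
      linarith
    · have : (0 : ℝ) ≤ T := by linarith
      exact Real.rpow_nonneg this _
  · intro x hx hD c h3 h5 A0 H hH om ix S hS
    exact hca2 c (D2 x) (vx x) (cc_frm x hx c h3 h5) hD A0 H hH (psx x) (cc_psx x) om ix S hS
  · intro ρ R τ Y j hscl S hS
    exact hcb T hTT3 (by linarith) ρ R τ Y j hscl S hS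

end Pool.Agent.PP5C
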