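import Pool.Agent.PP5C.Sy4

/-!
# LcS: primitive `x` with `l ^ s ∣ 8 adj S(x)` (difficulty 4)

`SX x = sm (L x)` with `L x = (2x0, 2x2, -2x1, -2x3, -(x4+x5), x6, -x8, -x7, x9, x4-x5)`.
* `l` odd: `8` is a unit, `L` is a bijection modulo `l ^ s` which preserves `Pv l`: `sy4`.
* `l = 2`: `s ≤ 6`: trivial, at most `2 ^ (10 s) ≤ 2 ^ 60`.  `s > 6`: `2 ^ (s - 3) ∣ adj S(x)`.
  - `L x` is primitive at `2`: the class of `L x` modulo `2 ^ (s - 3)` is in the set of `sy4` with `s - 3`, and every class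
    `y` modulo `2 ^ (s - 3)` has at most `2 ^ 40` preimages `x` modulo `2 ^ s` (`x0, .., x3` are known modulo `2 ^ (s - 4)`, `x6, .., x9`
    modulo `2 ^ (s - 3)`, `2 x4, 2 x5` modulo `2 ^ (s - 3)`: all coordinates modulo `2 ^ (s - 4)`: `(2 ^ 4) ^ 10`).
  - otherwise `x6, x7, x8, x9`, `x4 + x5` are even, `L x = 2 y'` with
    `y' = (x0, x2, -x1, -x3, -(x4+x5)/2, x6/2, -x8/2, -x7/2, x9/2, (x4-x5)/2)` primitive at `2` (if all entries were even,
    then `x0..x3`, `x6..x9`, `x4 = ((x4+x5)/2 + (x4-x5)/2)`, `x5` would be even), `adj (sm (2 y')) = 8 adj (sm y')`, so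
    `2 ^ (s - 6) ∣ adj (sm y')`; `y'` modulo `2 ^ (s - 6)` determines `x` modulo `2 ^ (s - 6)`: at most `(2 ^ 6) ^ 10` classes `x`.
  Total `≤ 2 ^ 60 * 36 (s + 1) 2 ^ (7 s)`.
-/

set_option autoImplicit false

namespace Pool.Agent.PP5C

open Finset Pool.Agent.PPS

private theorem cub_card (k : ℕ) : (cub (Fin 10) k).card = k ^ 10 := by
  unfold cub
  rw [Fintype.card_piFinset]
  simp

open Classical in
private noncomputable def ns (n : ℕ) (P : (Fin 10 → ℤ) → Prop) : Finset (Fin 10 → ℤ) :=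
  (cub (Fin 10) n).filter P

private theorem mem_ns {n : ℕ} {P : (Fin 10 → ℤ) → Prop} {x : Fin 10 → ℤ} :
    x ∈ ns n P ↔ x ∈ cub (Fin 10) n ∧ P x := by
  classical
  unfold ns
  exact Finset.mem_filter

private theorem nn_ns (n : ℕ) (P : (Fin 10 → ℤ) → Prop) : nn (Fin 10) n P = (ns n P).card := rfl

private theorem ns_sub (n : ℕ) (P : (Fin 10 → ℤ) → Prop) : ns n P ⊆ cub (Fin 10) n := by
  intro x hx
  exact (mem_ns.1 hx).1

private theorem adjc {n : ℕ} {y y' : Fin 10 → ℤ} (h : Cg n y y')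
    (ha : ∀ i j, (n : ℤ) ∣ (sm y).adjugate i j) : ∀ i j, (n : ℤ) ∣ (sm y').adjugate i j := by
  have hc : ∀ i, ((y i : ℤ) : ZMod n) = ((y' i : ℤ) : ZMod n) := by
    intro i
    rw [ZMod.intCast_eq_intCast_iff_dvd_sub]
    have := h i
    have h2 : y' i - y i = -(y i - y' i) := by ring
    rw [h2]
    exact (dvd_neg).2 this
  have hm : (Int.castRingHom (ZMod n)).mapMatrix (sm y) =
      (Int.castRingHom (ZMod n)).mapMatrix (sm y') := by
    ext i j
    fin_cases i <;> fin_cases j <;> simp [sm, hc]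
  intro i j
  have h1 := RingHom.map_adjugate (Int.castRingHom (ZMod n)) (sm y)
  have h2 := RingHom.map_adjugate (Int.castRingHom (ZMod n)) (sm y')
  rw [hm, ← h2] at h1
  have h3 := congrFun (congrFun h1 i) j
  simp only [RingHom.mapMatrix_apply, Matrix.map_apply, eq_intCast] at h3
  rw [← ZMod.intCast_zmod_eq_zero_iff_dvd] at *
  rw [← h3, ZMod.intCast_zmod_eq_zero_iff_dvd]
  exact ha i j

open Classical in
private theorem fib {l s' : ℕ} (hs' : 1 ≤ s') {N N'' k : ℕ} (hl : l.Prime)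
    (hN'' : 0 < N'') (hk : N = N'' * k) (S : Finset (Fin 10 → ℤ)) (hS : S ⊆ cub (Fin 10) N)
    (g : (Fin 10 → ℤ) → (Fin 10 → ℤ))
    (h1 : ∀ x ∈ S, Pv l (g x) ∧ ∀ i j, ((l ^ s' : ℕ) : ℤ) ∣ (sm (g x)).adjugate i j)
    (h2 : ∀ x ∈ S, ∀ x' ∈ S, Cg (l ^ s') (g x) (g x') → Cg N'' x x') :
    S.card ≤ k ^ 10 * nn (Fin 10) (l ^ s')
      (fun y => Pv l y ∧ ∀ i j, ((l ^ s' : ℕ) : ℤ) ∣ (sm y).adjugate i j) := by
  have hq : (0 : ℤ) < ((l ^ s' : ℕ) : ℤ) := by
    have := pow_pos hl.pos s'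
    exact_mod_cast this
  rw [nn_ns]
  refine Finset.card_le_mul_card_image_of_maps_to
    (f := fun x => (fun i => g x i % ((l ^ s' : ℕ) : ℤ) : Fin 10 → ℤ)) ?_ (k ^ 10) ?_
  · intro x hx
    have hcg : Cg (l ^ s') (g x) (fun i => g x i % ((l ^ s' : ℕ) : ℤ)) := by
      intro i
      exact Int.dvd_self_sub_emod
    refine mem_ns.2 ⟨?_, ?_, ?_⟩
    · unfold cub
      rw [Fintype.mem_piFinset]
      intro i
      rw [Finset.mem_Ico]
      exact ⟨Int.emod_nonneg _ hq.ne', Int.emod_lt_of_pos _ hq⟩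
    · obtain ⟨i, hi⟩ := (h1 x hx).1
      refine ⟨i, fun hd => hi ?_⟩
      have h3 : (l : ℤ) ∣ ((l ^ s' : ℕ) : ℤ) := by
        exact_mod_cast dvd_pow_self l (by omega)
      have h4 := h3.trans (hcg i)
      have h5 := dvd_add h4 hd
      simpa using h5
    · exact adjc hcg (h1 x hx).2
  · intro b _
    rw [← cub_card k]
    refine Finset.card_le_card_of_injOn (fun x => (fun i => x i / (N'' : ℤ) : Fin 10 → ℤ)) ?_ ?_
    · intro x hx
      rw [Finset.mem_coe, Finset.mem_filter] at hx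
      have hx1 := hS hx.1
      unfold cub at hx1
      rw [Fintype.mem_piFinset] at hx1
      rw [Finset.mem_coe]
      unfold cub
      rw [Fintype.mem_piFinset]
      intro i
      have h3 := hx1 i
      rw [Finset.mem_Ico] at h3 ⊢
      have h4 : (0 : ℤ) < N'' := by exact_mod_cast hN''
      refine ⟨Int.ediv_nonneg h3.1 h4.le, ?_⟩
      apply Int.ediv_lt_of_lt_mul h4
      have h5 := h3.2
      rw [hk] at h5
      push_cast at h5
      linarith [mul_comm (N'' : ℤ) (k : ℤ)]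
    · intro x hx x' hx' he
      rw [Finset.mem_coe, Finset.mem_filter] at hx hx'
      have hcg : Cg (l ^ s') (g x) (g x') := by
        intro i
        have h3 := congrFun (hx.2.trans hx'.2.symm) i
        exact Int.dvd_of_emod_eq_zero (Int.emod_eq_emod_iff_emod_sub_eq_zero.1 h3)
      have h4 := h2 x hx.1 x' hx'.1 hcg
      funext i
      have h5 := congrFun he i
      simp only at h5
      have h6 : x i % (N'' : ℤ) = x' i % (N'' : ℤ) :=
        Int.emod_eq_emod_iff_emod_sub_eq_zero.2 (Int.emod_eq_zero_of_dvd (h4 i))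
      rw [← Int.mul_ediv_add_emod (x i) (N'' : ℤ), ← Int.mul_ediv_add_emod (x' i) (N'' : ℤ), h5, h6]

private def L (x : Fin 10 → ℤ) : Fin 10 → ℤ :=
  ![2 * x 0, 2 * x 2, -(2 * x 1), -(2 * x 3), -(x 4 + x 5), x 6, -(x 8), -(x 7), x 9, x 4 - x 5]

private def M (x : Fin 10 → ℤ) : Fin 10 → ℤ :=
  ![x 0, x 2, -(x 1), -(x 3), -((x 4 + x 5) / 2), x 6 / 2, -(x 8 / 2), -(x 7 / 2), x 9 / 2,
    (x 4 - x 5) / 2]

private theorem smL (x : Fin 10 → ℤ) : sm (L x) = SX x := by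
  ext i j
  fin_cases i <;> fin_cases j <;> simp [sm, L, SX]

private theorem Lall {x : Fin 10 → ℤ} {m : ℤ} (h : ∀ i, m ∣ L x i) :
    m ∣ 2 * x 0 ∧ m ∣ 2 * x 2 ∧ m ∣ 2 * x 1 ∧ m ∣ 2 * x 3 ∧ m ∣ x 4 + x 5 ∧ m ∣ x 6 ∧ m ∣ x 8 ∧
      m ∣ x 7 ∧ m ∣ x 9 ∧ m ∣ x 4 - x 5 := by
  have h0 := h 0
  have h1 := h 1
  have h2 := h 2
  have h3 := h 3
  have h4 := h 4
  have h5 := h 5
  have h6 := h 6
  have h7 := h 7
  have h8 := h 8
  have h9 := h 9
  simp only [L] at h0 h1 h2 h3 h4 h5 h6 h7 h8 h9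
  refine ⟨h0, h1, (dvd_neg).1 h2, (dvd_neg).1 h3, (dvd_neg).1 h4, h5, (dvd_neg).1 h6, (dvd_neg).1 h7, h8, h9⟩

private theorem Mall {x : Fin 10 → ℤ} {m : ℤ} (h : ∀ i, m ∣ M x i) :
    m ∣ x 0 ∧ m ∣ x 2 ∧ m ∣ x 1 ∧ m ∣ x 3 ∧ m ∣ (x 4 + x 5) / 2 ∧ m ∣ x 6 / 2 ∧ m ∣ x 8 / 2 ∧
      m ∣ x 7 / 2 ∧ m ∣ x 9 / 2 ∧ m ∣ (x 4 - x 5) / 2 := by
  have h0 := h 0
  have h1 := h 1
  have h2 := h 2
  have h3 := h 3
  have h4 := h 4
  have h5 := h 5
  have h6 := h 6
  have h7 := h 7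
  have h8 := h 8
  have h9 := h 9
  simp only [M] at h0 h1 h2 h3 h4 h5 h6 h7 h8 h9
  refine ⟨h0, h1, (dvd_neg).1 h2, (dvd_neg).1 h3, (dvd_neg).1 h4, h5, (dvd_neg).1 h6, (dvd_neg).1 h7, h8, h9⟩

private theorem Lsub (x x' : Fin 10 → ℤ) (i : Fin 10) : L (fun j => x j - x' j) i = L x i - L x' i := by
  fin_cases i <;> simp [L] <;> ring


private theorem lcs_odd {l : ℕ} (hl : l.Prime) (h2 : l ≠ 2) (s : ℕ) :
    nn (Fin 10) (l ^ s) (fun x => Pv l x ∧ An (l ^ s) x) ≤ 18 * (s + 1) * l ^ (7 * s) := by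
  classical
  have hc2 : Nat.Coprime l 2 := (Nat.coprime_primes hl Nat.prime_two).2 h2
  rcases Nat.eq_zero_or_pos s with h0 | hs
  · subst h0
    have : nn (Fin 10) (l ^ 0) (fun x => Pv l x ∧ An (l ^ 0) x) ≤ (cub (Fin 10) (l ^ 0)).card := by
      rw [nn_ns]
      exact Finset.card_le_card (ns_sub _ _)
    rw [cub_card] at this
    simp at this ⊢
    omega
  have key : ∀ t : ℕ, ∀ z : Fin 10 → ℤ, (∀ i, ((l ^ t : ℕ) : ℤ) ∣ L z i) →
      ∀ i, ((l ^ t : ℕ) : ℤ) ∣ z i := by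
    intro t z hz
    have hco : IsCoprime ((l ^ t : ℕ) : ℤ) (2 : ℤ) := by
      have := Nat.isCoprime_iff_coprime.2 (Nat.Coprime.pow_left t hc2)
      exact_mod_cast this
    obtain ⟨a0, a2, a1, a3, a45, a6, a8, a7, a9, b45⟩ := Lall hz
    have c4 : ((l ^ t : ℕ) : ℤ) ∣ 2 * z 4 := by
      have := dvd_add a45 b45
      have e : z 4 + z 5 + (z 4 - z 5) = 2 * z 4 := by ring
      rwa [e] at this
    have c5 : ((l ^ t : ℕ) : ℤ) ∣ 2 * z 5 := by
      have := dvd_sub a45 b45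
      have e : z 4 + z 5 - (z 4 - z 5) = 2 * z 5 := by ring
      rwa [e] at this
    intro i
    fin_cases i
    · exact hco.dvd_of_dvd_mul_left a0
    · exact hco.dvd_of_dvd_mul_left a1
    · exact hco.dvd_of_dvd_mul_left a2
    · exact hco.dvd_of_dvd_mul_left a3
    · exact hco.dvd_of_dvd_mul_left c4
    · exact hco.dvd_of_dvd_mul_left c5
    · exact a6
    · exact a7
    · exact a8
    · exact a9
  have hpos : 0 < l ^ s := pow_pos hl.pos s
  have hf := fib (l := l) (s' := s) hs (N := l ^ s) (N'' := l ^ s) (k := 1) hl hpos (by ring)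
    (ns (l ^ s) (fun x => Pv l x ∧ An (l ^ s) x)) (ns_sub _ _) L
    (by
      intro x hx
      obtain ⟨_, hp, ha⟩ := mem_ns.1 hx
      refine ⟨?_, ?_⟩
      · by_contra hcon
        have hcon2 : ∀ i, ((l ^ 1 : ℕ) : ℤ) ∣ L x i := by
          intro i
          by_contra hi
          exact hcon ⟨i, by simpa using hi⟩
        obtain ⟨i, hi⟩ := hp
        have h3 := key 1 x hcon2 i
        rw [pow_one] at h3
        exact hi h3
      · intro i j
        rw [smL]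
        have hco : IsCoprime ((l ^ s : ℕ) : ℤ) (8 : ℤ) := by
          have := Nat.isCoprime_iff_coprime.2 (Nat.Coprime.pow_left s (Nat.Coprime.pow_right 3 hc2))
          exact_mod_cast this
        exact hco.dvd_of_dvd_mul_left (ha i j))
    (by
      intro x _ x' _ hcg i
      have h3 := key s (fun j => x j - x' j) (by
        intro j
        rw [Lsub]
        exact hcg j) i
      exact h3)
  have h4 := sy4 hl s
  rw [nn_ns]
  refine hf.trans ?_
  rw [one_pow, one_mul]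
  exact h4


private theorem lcs_two (t : ℕ) :
    nn (Fin 10) (2 ^ (t + 7)) (fun x => Pv 2 x ∧ An (2 ^ (t + 7)) x) ≤
      2 ^ 60 * 36 * ((t + 7) + 1) * 2 ^ (7 * (t + 7)) := by
  classical
  rw [nn_ns]
  set S := ns (2 ^ (t + 7)) (fun x => Pv 2 x ∧ An (2 ^ (t + 7)) x) with hS
  set S1 := S.filter (fun x => Pv 2 (L x)) with hS1
  set S2 := S.filter (fun x => ¬ Pv 2 (L x)) with hS2
  have hsplit : S.card = S1.card + S2.card := by
    rw [hS1, hS2]
    exact (Finset.card_filter_add_card_filter_not (s := S) (p := fun x => Pv 2 (L x))).symm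
  have hSsub : S ⊆ cub (Fin 10) (2 ^ (t + 7)) := ns_sub _ _
  -- first part
  have hf1 := fib (l := 2) (s' := t + 4) (by omega) (N := 2 ^ (t + 7)) (N'' := 2 ^ (t + 3)) (k := 16)
    Nat.prime_two (pow_pos (by norm_num) _) (by rw [show (16 : ℕ) = 2 ^ 4 by norm_num, ← pow_add])
    S1 ((Finset.filter_subset _ _).trans hSsub) L
    (by
      intro x hx
      obtain ⟨hx1, hx2⟩ := Finset.mem_filter.1 hx
      obtain ⟨_, _, ha⟩ := mem_ns.1 hx1
      refine ⟨hx2, ?_⟩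
      intro i j
      rw [smL]
      have h3 := ha i j
      have e : ((2 ^ (t + 7) : ℕ) : ℤ) = 8 * ((2 ^ (t + 4) : ℕ) : ℤ) := by
        push_cast
        rw [show t + 7 = (t + 4) + 3 by ring, pow_add]
        ring
      rw [e] at h3
      exact (mul_dvd_mul_iff_left (by norm_num : (8 : ℤ) ≠ 0)).1 h3)
    (by
      intro x _ x' _ hcg
      have hz : ∀ i, ((2 ^ (t + 4) : ℕ) : ℤ) ∣ L (fun j => x j - x' j) i := by
        intro i
        rw [Lsub]
        exact hcg i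
      have e : ((2 ^ (t + 4) : ℕ) : ℤ) = 2 * ((2 ^ (t + 3) : ℕ) : ℤ) := by
        push_cast
        rw [show t + 4 = (t + 3) + 1 by ring, pow_succ]
        ring
      obtain ⟨a0, a2, a1, a3, a45, a6, a8, a7, a9, b45⟩ := Lall hz
      have c4 : ((2 ^ (t + 4) : ℕ) : ℤ) ∣ 2 * (x 4 - x' 4) := by
        have := dvd_add a45 b45
        have e : x 4 - x' 4 + (x 5 - x' 5) + (x 4 - x' 4 - (x 5 - x' 5)) = 2 * (x 4 - x' 4) := by ring
        rwa [e] at this
      have c5 : ((2 ^ (t + 4) : ℕ) : ℤ) ∣ 2 * (x 5 - x' 5) := by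
        have := dvd_sub a45 b45
        have e : x 4 - x' 4 + (x 5 - x' 5) - (x 4 - x' 4 - (x 5 - x' 5)) = 2 * (x 5 - x' 5) := by ring
        rwa [e] at this
      have hk : ∀ w : ℤ, ((2 ^ (t + 4) : ℕ) : ℤ) ∣ 2 * w → ((2 ^ (t + 3) : ℕ) : ℤ) ∣ w := by
        intro w hw
        rw [e] at hw
        exact (mul_dvd_mul_iff_left (by norm_num : (2 : ℤ) ≠ 0)).1 hw
      have hk' : ∀ w : ℤ, ((2 ^ (t + 4) : ℕ) : ℤ) ∣ w → ((2 ^ (t + 3) : ℕ) : ℤ) ∣ w := by
        intro w hw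
        exact hk w (Dvd.dvd.mul_left hw 2)
      intro i
      fin_cases i
      · exact hk _ a0
      · exact hk _ a1
      · exact hk _ a2
      · exact hk _ a3
      · exact hk _ c4
      · exact hk _ c5
      · exact hk' _ a6
      · exact hk' _ a7
      · exact hk' _ a8
      · exact hk' _ a9)
  have hpar : ∀ x ∈ S2, (∀ i, (2 : ℤ) ∣ L x i) := by
    intro x hx i
    obtain ⟨_, hx2⟩ := Finset.mem_filter.1 hx
    by_contra hi
    exact hx2 ⟨i, by exact_mod_cast hi⟩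
  have hLM : ∀ x : Fin 10 → ℤ, (∀ i, (2 : ℤ) ∣ L x i) → sm (L x) = (2 : ℤ) • sm (M x) := by
    intro x hx
    obtain ⟨a0, a2, a1, a3, a45, a6, a8, a7, a9, b45⟩ := Lall hx
    have e45 : 2 * ((x 4 + x 5) / 2) = x 4 + x 5 := Int.mul_ediv_cancel' a45
    have f45 : 2 * ((x 4 - x 5) / 2) = x 4 - x 5 := Int.mul_ediv_cancel' b45
    have e6 : 2 * (x 6 / 2) = x 6 := Int.mul_ediv_cancel' a6
    have e7 : 2 * (x 7 / 2) = x 7 := Int.mul_ediv_cancel' a7
    have e8 : 2 * (x 8 / 2) = x 8 := Int.mul_ediv_cancel' a8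
    have e9 : 2 * (x 9 / 2) = x 9 := Int.mul_ediv_cancel' a9
    ext i j
    fin_cases i <;> fin_cases j <;> simp [sm, L, M] <;> omega
  -- second part
  have hf2 := fib (l := 2) (s' := t + 1) (by omega) (N := 2 ^ (t + 7)) (N'' := 2 ^ (t + 1)) (k := 64)
    Nat.prime_two (pow_pos (by norm_num) _) (by rw [show (64 : ℕ) = 2 ^ 6 by norm_num, ← pow_add])
    S2 ((Finset.filter_subset _ _).trans hSsub) M
    (by
      intro x hx
      have hp := hpar x hx
      obtain ⟨hx1, hx2⟩ := Finset.mem_filter.1 hx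
      obtain ⟨_, hpv, ha⟩ := mem_ns.1 hx1
      refine ⟨?_, ?_⟩
      · by_contra hcon
        have hcon2 : ∀ i, (2 : ℤ) ∣ M x i := by
          intro i
          by_contra hi
          exact hcon ⟨i, by exact_mod_cast hi⟩
        obtain ⟨a0, a2, a1, a3, a45, a6, a8, a7, a9, b45⟩ := Lall hp
        obtain ⟨b0, b2, b1, b3, c45, _, _, _, _, d45⟩ := Mall hcon2
        obtain ⟨i, hi⟩ := hpv
        apply hi
        have h4 : (2 : ℤ) ∣ x 4 := by omega
        have h5 : (2 : ℤ) ∣ x 5 := by omega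
        fin_cases i
        · exact_mod_cast b0
        · exact_mod_cast b1
        · exact_mod_cast b2
        · exact_mod_cast b3
        · exact_mod_cast h4
        · exact_mod_cast h5
        · exact_mod_cast a6
        · exact_mod_cast a7
        · exact_mod_cast a8
        · exact_mod_cast a9
      · intro i j
        have h3 := ha i j
        rw [← smL, hLM x hp, Matrix.adjugate_smul] at h3
        simp only [Fintype.card_fin, Matrix.smul_apply, smul_eq_mul] at h3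
        have e : ((2 ^ (t + 7) : ℕ) : ℤ) = 64 * ((2 ^ (t + 1) : ℕ) : ℤ) := by
          push_cast
          rw [show t + 7 = (t + 1) + 6 by ring, pow_add]
          ring
        rw [e] at h3
        have e2 : (8 : ℤ) * (2 ^ (4 - 1) * (sm (M x)).adjugate i j) = 64 * (sm (M x)).adjugate i j := by
          norm_num
          ring
        rw [e2] at h3
        exact (mul_dvd_mul_iff_left (by norm_num : (64 : ℤ) ≠ 0)).1 h3)
    (by
      intro x hx x' hx' hcg
      obtain ⟨_, _, _, _, a45, a6, a8, a7, a9, b45⟩ := Lall (hpar x hx)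
      obtain ⟨_, _, _, _, a45', a6', a8', a7', a9', b45'⟩ := Lall (hpar x' hx')
      have hM : ∀ i, ((2 ^ (t + 1) : ℕ) : ℤ) ∣ M x i - M x' i := hcg
      have h0 := hM 0
      have h1 := hM 1
      have h2 := hM 2
      have h3 := hM 3
      have h4 := hM 4
      have h5 := hM 5
      have h6 := hM 6
      have h7 := hM 7
      have h8 := hM 8
      have h9 := hM 9
      simp only [M] at h0 h1 h2 h3 h4 h5 h6 h7 h8 h9
      change _ ∣ x 0 - x' 0 at h0
      change _ ∣ x 2 - x' 2 at h1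
      change _ ∣ -(x 1) - -(x' 1) at h2
      change _ ∣ -(x 3) - -(x' 3) at h3
      change _ ∣ -((x 4 + x 5) / 2) - -((x' 4 + x' 5) / 2) at h4
      change _ ∣ x 6 / 2 - x' 6 / 2 at h5
      change _ ∣ -(x 8 / 2) - -(x' 8 / 2) at h6
      change _ ∣ -(x 7 / 2) - -(x' 7 / 2) at h7
      change _ ∣ x 9 / 2 - x' 9 / 2 at h8
      change _ ∣ (x 4 - x 5) / 2 - (x' 4 - x' 5) / 2 at h9
      intro i
      fin_cases i
      · exact h0
      · have e : x 1 - x' 1 = -(-(x 1) - -(x' 1)) := by ring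
        show _ ∣ x 1 - x' 1
        rw [e]
        exact (dvd_neg).2 h2
      · exact h1
      · have e : x 3 - x' 3 = -(-(x 3) - -(x' 3)) := by ring
        show _ ∣ x 3 - x' 3
        rw [e]
        exact (dvd_neg).2 h3
      · have e : x 4 - x' 4 = ((x 4 - x 5) / 2 - (x' 4 - x' 5) / 2) -
            (-((x 4 + x 5) / 2) - -((x' 4 + x' 5) / 2)) := by omega
        show _ ∣ x 4 - x' 4
        rw [e]
        exact dvd_sub h9 h4
      · have e : x 5 - x' 5 = -((-((x 4 + x 5) / 2) - -((x' 4 + x' 5) / 2)) +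
            ((x 4 - x 5) / 2 - (x' 4 - x' 5) / 2)) := by omega
        show _ ∣ x 5 - x' 5
        rw [e]
        exact (dvd_neg).2 (dvd_add h4 h9)
      · have e : x 6 - x' 6 = 2 * (x 6 / 2 - x' 6 / 2) := by omega
        show _ ∣ x 6 - x' 6
        rw [e]
        exact Dvd.dvd.mul_left h5 2
      · have e : x 7 - x' 7 = (-2) * (-(x 7 / 2) - -(x' 7 / 2)) := by omega
        show _ ∣ x 7 - x' 7
        rw [e]
        exact Dvd.dvd.mul_left h7 _
      · have e : x 8 - x' 8 = (-2) * (-(x 8 / 2) - -(x' 8 / 2)) := by omega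
        show _ ∣ x 8 - x' 8
        rw [e]
        exact Dvd.dvd.mul_left h6 _
      · have e : x 9 - x' 9 = 2 * (x 9 / 2 - x' 9 / 2) := by omega
        show _ ∣ x 9 - x' 9
        rw [e]
        exact Dvd.dvd.mul_left h8 2)
  have g1 := hf1.trans (Nat.mul_le_mul_left _ (sy4 Nat.prime_two (t + 4)))
  have g2 := hf2.trans (Nat.mul_le_mul_left _ (sy4 Nat.prime_two (t + 1)))
  rw [hsplit]
  have p1 : 2 ^ (7 * (t + 4)) ≤ 2 ^ (7 * (t + 7)) := Nat.pow_le_pow_right (by norm_num) (by omega)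
  have p2 : 2 ^ (7 * (t + 1)) ≤ 2 ^ (7 * (t + 7)) := Nat.pow_le_pow_right (by norm_num) (by omega)
  have q1 : S1.card ≤ 2 ^ 60 * 18 * (t + 8) * 2 ^ (7 * (t + 7)) := by
    refine g1.trans ?_
    calc 16 ^ 10 * (18 * (t + 4 + 1) * 2 ^ (7 * (t + 4)))
        ≤ 2 ^ 60 * (18 * (t + 8) * 2 ^ (7 * (t + 7))) :=
          Nat.mul_le_mul (by norm_num) (Nat.mul_le_mul (by omega) p1)
      _ = _ := by ring
  have q2 : S2.card ≤ 2 ^ 60 * 18 * (t + 8) * 2 ^ (7 * (t + 7)) := by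
    refine g2.trans ?_
    calc 64 ^ 10 * (18 * (t + 1 + 1) * 2 ^ (7 * (t + 1)))
        ≤ 2 ^ 60 * (18 * (t + 8) * 2 ^ (7 * (t + 7))) :=
          Nat.mul_le_mul (by norm_num) (Nat.mul_le_mul (by omega) p2)
      _ = _ := by ring
  calc S1.card + S2.card ≤ 2 ^ 60 * 18 * (t + 8) * 2 ^ (7 * (t + 7)) +
        2 ^ 60 * 18 * (t + 8) * 2 ^ (7 * (t + 7)) := Nat.add_le_add q1 q2
    _ = 2 ^ 60 * 36 * ((t + 7) + 1) * 2 ^ (7 * (t + 7)) := by ring

theorem lcs : ∃ C : ℕ, ∀ l : ℕ, l.Prime → ∀ s : ℕ,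
    nn (Fin 10) (l ^ s) (fun x => Pv l x ∧ An (l ^ s) x) ≤ C * (s + 1) * l ^ (7 * s) := by
  refine ⟨2 ^ 60 * 36, ?_⟩
  intro l hl s
  by_cases h2 : l = 2
  · subst h2
    by_cases hs : 7 ≤ s
    · obtain ⟨t, rfl⟩ := Nat.exists_eq_add_of_le' hs
      exact lcs_two t
    · have h3 : nn (Fin 10) (2 ^ s) (fun x => Pv 2 x ∧ An (2 ^ s) x) ≤ (cub (Fin 10) (2 ^ s)).card := by
        rw [nn_ns]
        exact Finset.card_le_card (ns_sub _ _)
      rw [cub_card] at h3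
      refine h3.trans ?_
      have h4 : (2 ^ s) ^ 10 ≤ 2 ^ 60 := by
        rw [← pow_mul]
        exact Nat.pow_le_pow_right (by norm_num) (by omega)
      refine h4.trans ?_
      have h5 : 1 ≤ 36 * (s + 1) * 2 ^ (7 * s) := by
        have : 0 < 2 ^ (7 * s) := pow_pos (by norm_num) _
        have h6 : 0 < 36 * (s + 1) * 2 ^ (7 * s) := by positivity
        omega
      calc 2 ^ 60 = 2 ^ 60 * 1 := by ring
        _ ≤ 2 ^ 60 * (36 * (s + 1) * 2 ^ (7 * s)) := Nat.mul_le_mul_left _ h5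
        _ = 2 ^ 60 * 36 * (s + 1) * 2 ^ (7 * s) := by ring
  · refine (lcs_odd hl h2 s).trans ?_
    refine Nat.mul_le_mul_right _ (Nat.mul_le_mul_right _ (by norm_num))

end Pool.Agent.PP5C
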