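import Pool.Agent.PP5C.Defs

/-!
# PrC: null classes orthogonal to a rank one vector (difficulty 3)

`hs x m := ½ mᵀ S(x) m = x0 m0² - (x4 + x5) m0 m1 + x6 m0 m2 - x8 m0 m3 + x2 m1² - x7 m1 m2 + x9 m1 m3 - x1 m2²
 + (x4 - x5) m2 m3 - x3 m3²`.  With `u = (x0, x1, x4, x6, x7)`, `v = (x2, -x3, -x5, -x9, x8)`: `FX x = u · v` and
`hs x m = α · v + β · u` with `β = (m0², -m2², m2m3 - m0m1, m0m2, -m1m2)` (coefficients of `x0, x1, x4, x6, x7`) and
`α = (m1², m3², m0m1 + m2m3, -m1m3, -m0m3)` (coefficients of `v`: `x2 = v0`, `x3 = -v1`, `x5 = -v2`, `x9 = -v3`, `x8 = v4`),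
and `α · β = 0` (identity `m0²m1² - m2²m3² + (m2m3)² - (m0m1)² - m0m1m2m3 + m0m1m2m3 = 0`).
If `m ≠ 0` modulo `l` then `α ≠ 0` or `β ≠ 0` modulo `l` (squares of the `m i`).  Say `α ≠ 0` (otherwise exchange the roles of `u`
and `v`).  For fixed `u` (mod `l`) count the `v` with `u · v = 0`, `α · v = -β · u`: if `u, α` are linearly independent: `l³`
(at most `l³`: a `2x2` minor is nonzero, two coordinates of `v` are determined by the other three); if `u = κ α`
(at most `l` such `u`): at most `l ^ 4` (`α · v` is prescribed).  Total `≤ l⁵ l³ + l l⁴ = l⁸ + l⁵`.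
-/

set_option autoImplicit false

namespace Pool.Agent.PP5C

open Finset Pool.Agent.PPS

/-- `½ mᵀ S(x) m` -/
def hs (x : Fin 10 → ℤ) (m : Fin 4 → ℤ) : ℤ :=
  x 0 * m 0 ^ 2 - (x 4 + x 5) * m 0 * m 1 + x 6 * m 0 * m 2 - x 8 * m 0 * m 3 + x 2 * m 1 ^ 2 -
    x 7 * m 1 * m 2 + x 9 * m 1 * m 3 - x 1 * m 2 ^ 2 + (x 4 - x 5) * m 2 * m 3 - x 3 * m 3 ^ 2

private theorem PrC_one {F : Type} [Field F] [Fintype F] [DecidableEq F] (a : Fin 5 → F) (c : F)
    (ha : ∃ i, a i ≠ 0) :
    (Finset.univ.filter fun v : Fin 5 → F => ∑ i, a i * v i = c).card ≤ Fintype.card F ^ 4 := by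
  obtain ⟨i, hi⟩ := ha
  have h1 : Fintype.card ({k : Fin 5 // k ≠ i} → F) = Fintype.card F ^ 4 := by
    rw [Fintype.card_fun]
    congr 1
    fin_cases i <;> rfl
  rw [← h1, ← Finset.card_univ]
  refine Finset.card_le_card_of_injOn (fun v k => v k.1) (fun _ _ => Finset.mem_univ _) ?_
  intro v hv w hw hvw
  have hv' := (Finset.mem_filter.1 (Finset.mem_coe.1 hv)).2
  have hw' := (Finset.mem_filter.1 (Finset.mem_coe.1 hw)).2
  have hoff : ∀ k, k ≠ i → v k = w k := fun k hk => congrFun hvw ⟨k, hk⟩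
  have hs : ∑ k, a k * (v k - w k) = 0 := by
    have : ∑ k, a k * (v k - w k) = ∑ k, a k * v k - ∑ k, a k * w k := by
      rw [← Finset.sum_sub_distrib]
      exact Finset.sum_congr rfl fun k _ => by ring
    rw [this, hv', hw', sub_self]
  rw [Finset.sum_eq_single i] at hs
  · have h0 : v i - w i = 0 := (mul_eq_zero.1 hs).resolve_left hi
    funext k
    by_cases hk : k = i
    · rw [hk]; exact sub_eq_zero.1 h0
    · exact hoff k hk
  · intro k _ hk
    rw [hoff k hk, sub_self, mul_zero]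
  · intro h
    exact absurd (Finset.mem_univ _) h

private theorem PrC_two {F : Type} [Field F] [Fintype F] [DecidableEq F] (u a : Fin 5 → F) (c : F)
    (i j : Fin 5) (hij : u i * a j - u j * a i ≠ 0) :
    (Finset.univ.filter fun v : Fin 5 → F => ∑ k, u k * v k = 0 ∧ ∑ k, a k * v k = c).card ≤
      Fintype.card F ^ 3 := by
  have hne : i ≠ j := by
    rintro rfl
    exact hij (by ring)
  have h1 : Fintype.card ({k : Fin 5 // k ≠ i ∧ k ≠ j} → F) = Fintype.card F ^ 3 := by
    rw [Fintype.card_fun]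
    congr 1
    revert hne
    clear hij
    fin_cases i <;> fin_cases j <;> intro hne <;> first | rfl | exact absurd rfl hne
  rw [← h1, ← Finset.card_univ]
  refine Finset.card_le_card_of_injOn (fun v k => v k.1) (fun _ _ => Finset.mem_univ _) ?_
  intro v hv w hw hvw
  have hv' := (Finset.mem_filter.1 (Finset.mem_coe.1 hv)).2
  have hw' := (Finset.mem_filter.1 (Finset.mem_coe.1 hw)).2
  have hoff : ∀ k, k ≠ i ∧ k ≠ j → v k = w k := fun k hk => congrFun hvw ⟨k, hk⟩
  have key : ∀ b : Fin 5 → F, ∑ k, b k * v k = ∑ k, b k * w k →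
      b i * (v i - w i) + b j * (v j - w j) = 0 := by
    intro b hb
    have hs : ∑ k, b k * (v k - w k) = 0 := by
      have : ∑ k, b k * (v k - w k) = ∑ k, b k * v k - ∑ k, b k * w k := by
        rw [← Finset.sum_sub_distrib]
        exact Finset.sum_congr rfl fun k _ => by ring
      rw [this, hb, sub_self]
    rw [Finset.sum_eq_add i j hne] at hs
    · exact hs
    · intro k _ hk
      rw [hoff k hk, sub_self, mul_zero]
    · intro h
      exact absurd (Finset.mem_univ _) h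
    · intro h
      exact absurd (Finset.mem_univ _) h
  have e1 := key u (hv'.1.trans hw'.1.symm)
  have e2 := key a (hv'.2.trans hw'.2.symm)
  have f1 : (u i * a j - u j * a i) * (v i - w i) = 0 := by linear_combination a j * e1 - u j * e2
  have f2 : (u i * a j - u j * a i) * (v j - w j) = 0 := by linear_combination u i * e2 - a i * e1
  have g1 : v i = w i := sub_eq_zero.1 ((mul_eq_zero.1 f1).resolve_left hij)
  have g2 : v j = w j := sub_eq_zero.1 ((mul_eq_zero.1 f2).resolve_left hij)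
  funext k
  by_cases hk : k = i
  · rw [hk]; exact g1
  · by_cases hk' : k = j
    · rw [hk']; exact g2
    · exact hoff k ⟨hk, hk'⟩

open Classical in
private theorem PrC_pairs0 {F : Type} [Field F] [Fintype F] (a : Fin 5 → F) (c : (Fin 5 → F) → F)
    (ha : ∃ i, a i ≠ 0) :
    (Finset.univ.filter fun p : (Fin 5 → F) × (Fin 5 → F) =>
      ∑ k, p.1 k * p.2 k = 0 ∧ ∑ k, a k * p.2 k = c p.1).card ≤
      Fintype.card F ^ 8 + Fintype.card F ^ 5 := by
  have hsum : (Finset.univ.filter fun p : (Fin 5 → F) × (Fin 5 → F) =>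
      ∑ k, p.1 k * p.2 k = 0 ∧ ∑ k, a k * p.2 k = c p.1).card =
      ∑ u : Fin 5 → F, (Finset.univ.filter fun v : Fin 5 → F =>
        ∑ k, u k * v k = 0 ∧ ∑ k, a k * v k = c u).card := by
    simp only [Finset.card_filter]
    rw [← Finset.univ_product_univ, Finset.sum_product]
  rw [hsum]
  let D : Finset (Fin 5 → F) := Finset.univ.filter fun u => ∀ i j, u i * a j - u j * a i = 0
  have hD : D.card ≤ Fintype.card F := by
    obtain ⟨i, hi⟩ := ha
    have hsub : D ⊆ (Finset.univ : Finset F).image (fun κ => fun k => κ * a k) := by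
      intro u hu
      have hu' := (Finset.mem_filter.1 hu).2
      refine Finset.mem_image.2 ⟨u i / a i, Finset.mem_univ _, ?_⟩
      funext k
      have := hu' i k
      field_simp
      linear_combination this
    exact (Finset.card_le_card hsub).trans (Finset.card_image_le.trans (by rw [Finset.card_univ]))
  have hsplit := Finset.sum_filter_add_sum_filter_not (Finset.univ : Finset (Fin 5 → F))
    (fun u => ∀ i j, u i * a j - u j * a i = 0)
    (fun u => (Finset.univ.filter fun v : Fin 5 → F =>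
        ∑ k, u k * v k = 0 ∧ ∑ k, a k * v k = c u).card)
  rw [← hsplit, add_comm]
  refine Nat.add_le_add ?_ ?_
  · refine (Finset.sum_le_card_nsmul _ _ (Fintype.card F ^ 3) ?_).trans ?_
    · intro u hu
      have hu' := (Finset.mem_filter.1 hu).2
      push Not at hu'
      obtain ⟨i, j, hij⟩ := hu'
      refine le_trans (le_of_eq ?_) (PrC_two u a (c u) i j hij)
      congr!
    · rw [smul_eq_mul]
      have h5 : (Finset.univ.filter fun u : Fin 5 → F => ¬ ∀ i j, u i * a j - u j * a i = 0).card ≤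
          Fintype.card F ^ 5 := by
        refine (Finset.card_le_univ _).trans (le_of_eq ?_)
        rw [Fintype.card_fun, Fintype.card_fin]
      calc _ ≤ Fintype.card F ^ 5 * Fintype.card F ^ 3 := Nat.mul_le_mul_right _ h5
        _ = Fintype.card F ^ 8 := by ring
  · refine (Finset.sum_le_card_nsmul _ _ (Fintype.card F ^ 4) ?_).trans ?_
    · intro u _
      refine le_trans (Finset.card_le_card ?_) (PrC_one a (c u) ha)
      intro v hv
      rw [Finset.mem_filter] at hv ⊢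
      exact ⟨hv.1, hv.2.2⟩
    · rw [smul_eq_mul]
      calc _ ≤ Fintype.card F * Fintype.card F ^ 4 := Nat.mul_le_mul_right _ hD
        _ = Fintype.card F ^ 5 := by ring

private theorem PrC_pairs {F : Type} [Field F] [Fintype F] (a : Fin 5 → F) (c : (Fin 5 → F) → F)
    (ha : ∃ i, a i ≠ 0) {ι : Type} (S : Finset ι) (f : ι → (Fin 5 → F) × (Fin 5 → F))
    (hf : Set.InjOn f S)
    (hS : ∀ x ∈ S, ∑ k, (f x).1 k * (f x).2 k = 0 ∧ ∑ k, a k * (f x).2 k = c (f x).1) :
    S.card ≤ Fintype.card F ^ 8 + Fintype.card F ^ 5 := by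
  classical
  refine le_trans ?_ (PrC_pairs0 a c ha)
  refine Finset.card_le_card_of_injOn f ?_ hf
  intro x hx
  rw [Finset.mem_coe, Finset.mem_filter]
  exact ⟨Finset.mem_univ _, hS x hx⟩

/-- the vector `u` -/
private def PrC_u (l : ℕ) (x : Fin 10 → ℤ) : Fin 5 → ZMod l :=
  ![(x 0 : ZMod l), (x 1 : ZMod l), (x 4 : ZMod l), (x 6 : ZMod l), (x 7 : ZMod l)]

/-- the vector `v` -/
private def PrC_v (l : ℕ) (x : Fin 10 → ℤ) : Fin 5 → ZMod l :=
  ![(x 2 : ZMod l), -(x 3 : ZMod l), -(x 5 : ZMod l), -(x 9 : ZMod l), (x 8 : ZMod l)]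

/-- the coefficients of `v` -/
private def PrC_a (l : ℕ) (m : Fin 4 → ℤ) : Fin 5 → ZMod l :=
  ![(m 1 : ZMod l) ^ 2, (m 3 : ZMod l) ^ 2, (m 0 : ZMod l) * m 1 + (m 2 : ZMod l) * m 3,
    -((m 1 : ZMod l) * m 3), -((m 0 : ZMod l) * m 3)]

/-- the coefficients of `u` -/
private def PrC_b (l : ℕ) (m : Fin 4 → ℤ) : Fin 5 → ZMod l :=
  ![(m 0 : ZMod l) ^ 2, -(m 2 : ZMod l) ^ 2, (m 2 : ZMod l) * m 3 - (m 0 : ZMod l) * m 1,
    (m 0 : ZMod l) * m 2, -((m 1 : ZMod l) * m 2)]

private theorem PrC_F (l : ℕ) (x : Fin 10 → ℤ) (h : (l : ℤ) ∣ FX x) :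
    ∑ k, PrC_u l x k * PrC_v l x k = 0 := by
  have h' := (ZMod.intCast_zmod_eq_zero_iff_dvd (FX x) l).2 h
  rw [Fin.sum_univ_five]
  simp only [PrC_u, PrC_v, FX] at h' ⊢
  push_cast at h'
  simp only [Matrix.cons_val_zero, Matrix.cons_val_one, Matrix.cons_val]
  linear_combination h'

private theorem PrC_h (l : ℕ) (x : Fin 10 → ℤ) (m : Fin 4 → ℤ) (h : (l : ℤ) ∣ hs x m) :
    ∑ k, PrC_a l m k * PrC_v l x k + ∑ k, PrC_b l m k * PrC_u l x k = 0 := by
  have h' := (ZMod.intCast_zmod_eq_zero_iff_dvd (hs x m) l).2 h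
  rw [Fin.sum_univ_five, Fin.sum_univ_five]
  simp only [PrC_u, PrC_v, PrC_a, PrC_b, hs] at h' ⊢
  push_cast at h'
  simp only [Matrix.cons_val_zero, Matrix.cons_val_one, Matrix.cons_val]
  linear_combination h'

private theorem PrC_inj {l : ℕ} (x y : Fin 10 → ℤ) (hx : x ∈ cub (Fin 10) l) (hy : y ∈ cub (Fin 10) l)
    (hu : PrC_u l x = PrC_u l y) (hv : PrC_v l x = PrC_v l y) : x = y := by
  have key : ∀ i, (x i : ZMod l) = (y i : ZMod l) → x i = y i := by
    intro i h
    have h1 := Fintype.mem_piFinset.1 hx i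
    have h2 := Fintype.mem_piFinset.1 hy i
    rw [Finset.mem_Ico] at h1 h2
    have h3 := (ZMod.intCast_eq_intCast_iff' (x i) (y i) l).1 h
    rwa [Int.emod_eq_of_lt h1.1 h1.2, Int.emod_eq_of_lt h2.1 h2.2] at h3
  have u0 := congrFun hu 0
  have u1 := congrFun hu 1
  have u2 := congrFun hu 2
  have u3 := congrFun hu 3
  have u4 := congrFun hu 4
  have v0 := congrFun hv 0
  have v1 := congrFun hv 1
  have v2 := congrFun hv 2
  have v3 := congrFun hv 3
  have v4 := congrFun hv 4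
  simp only [PrC_u, PrC_v, Matrix.cons_val_zero, Matrix.cons_val_one, Matrix.cons_val, neg_inj]
    at u0 u1 u2 u3 u4 v0 v1 v2 v3 v4
  funext i
  fin_cases i
  · exact key 0 u0
  · exact key 1 u1
  · exact key 2 v0
  · exact key 3 v1
  · exact key 4 u2
  · exact key 5 v2
  · exact key 6 u3
  · exact key 7 u4
  · exact key 8 v4
  · exact key 9 v3

private theorem PrC_nn {l B : ℕ} (P : (Fin 10 → ℤ) → Prop)
    (h : ∀ S : Finset (Fin 10 → ℤ), (∀ x ∈ S, x ∈ cub (Fin 10) l ∧ P x) → S.card ≤ B) :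
    nn (Fin 10) l P ≤ B := by
  classical
  unfold nn
  refine h _ fun x hx => ?_
  exact Finset.mem_filter.1 hx

theorem prc {l : ℕ} (hl : l.Prime) (m : Fin 4 → ℤ) (hm : Pv l m) :
    nn (Fin 10) l (fun x => (l : ℤ) ∣ FX x ∧ (l : ℤ) ∣ hs x m) ≤ l ^ 8 + l ^ 5 := by
  have hfl : Fact l.Prime := ⟨hl⟩
  have hnz : NeZero l := ⟨hl.ne_zero⟩
  have hcard : Fintype.card (ZMod l) = l := ZMod.card l
  by_cases ha : ∃ i, PrC_a l m i ≠ 0
  · refine PrC_nn _ fun S hS => ?_
    have hp := PrC_pairs (F := ZMod l) (ι := Fin 10 → ℤ) (PrC_a l m) (fun u => -∑ k, PrC_b l m k * u k) ha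
    rw [hcard] at hp
    refine hp _ (fun x => (PrC_u l x, PrC_v l x)) ?_ ?_
    · intro x hx y hy hxy
      rw [Prod.mk.injEq] at hxy
      exact PrC_inj x y (hS x hx).1 (hS y hy).1 hxy.1 hxy.2
    · intro x hx
      replace hx := hS x hx
      exact ⟨PrC_F l x hx.2.1, eq_neg_of_add_eq_zero_left (PrC_h l x m hx.2.2)⟩
  · have hb : ∃ i, PrC_b l m i ≠ 0 := by
      by_contra hb
      push Not at ha hb
      obtain ⟨i, hi⟩ := hm
      have a0 := ha 0
      have a1 := ha 1
      have b0 := hb 0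
      have b1 := hb 1
      simp only [PrC_a, PrC_b, Matrix.cons_val_zero, Matrix.cons_val_one, neg_eq_zero] at a0 a1 b0 b1
      have k0 := pow_eq_zero_iff (two_ne_zero) |>.1 b0
      have k1 := pow_eq_zero_iff (two_ne_zero) |>.1 a0
      have k2 := pow_eq_zero_iff (two_ne_zero) |>.1 b1
      have k3 := pow_eq_zero_iff (two_ne_zero) |>.1 a1
      apply hi
      refine (ZMod.intCast_zmod_eq_zero_iff_dvd (m i) l).1 ?_
      fin_cases i
      · exact k0
      · exact k1
      · exact k2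
      · exact k3
    refine PrC_nn _ fun S hS => ?_
    have hp := PrC_pairs (F := ZMod l) (ι := Fin 10 → ℤ) (PrC_b l m) (fun v => -∑ k, PrC_a l m k * v k) hb
    rw [hcard] at hp
    refine hp _ (fun x => (PrC_v l x, PrC_u l x)) ?_ ?_
    · intro x hx y hy hxy
      rw [Prod.mk.injEq] at hxy
      exact PrC_inj x y (hS x hx).1 (hS y hy).1 hxy.2 hxy.1
    · intro x hx
      replace hx := hS x hx
      refine ⟨?_, eq_neg_of_add_eq_zero_right (PrC_h l x m hx.2.2)⟩
      have := PrC_F l x hx.2.1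
      rw [← this]
      exact Finset.sum_congr rfl fun k _ => mul_comm _ _

end Pool.Agent.PP5C
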