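import Pool.Agent.PP5C.QnA

/-!
# QnB: the same for classes modulo an odd prime (difficulty 2)

`K = ZMod l`, `M = (c + cᵀ).map (Int.cast)`: symmetric, `det M = ((c + cᵀ).det : ZMod l)`, adjugate likewise
(`RingHom.map_det`, `RingHom.map_adjugate`); `∑ i j, M i j v i v j = 2 qf c v`, `2 ≠ 0`.  The map
`cub (Fin 4) l → (Fin 4 → ZMod l)` (cast) is a bijection.  `qn_bd`: `l³ - l² ≤ N ≤ l³ + l²` from `qn_chi`
(and `l ≥ 0`).  All statements follow from `qnA`.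
-/

set_option autoImplicit false

namespace Pool.Agent.PP5C

open Finset Pool.Agent.PPS

private noncomputable def qnB_M (l : ℕ) (c : Matrix (Fin 4) (Fin 4) ℤ) :
    Matrix (Fin 4) (Fin 4) (ZMod l) :=
  (Int.castRingHom (ZMod l)).mapMatrix (c + c.transpose)

private theorem qnB_M_apply (l : ℕ) (c : Matrix (Fin 4) (Fin 4) ℤ) (i j : Fin 4) :
    qnB_M l c i j = (c i j : ZMod l) + (c j i : ZMod l) := by
  simp [qnB_M]

private theorem qnB_M_symm (l : ℕ) (c : Matrix (Fin 4) (Fin 4) ℤ) : (qnB_M l c).IsSymm := by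
  ext i j
  rw [Matrix.transpose_apply, qnB_M_apply, qnB_M_apply, add_comm]

private theorem qnB_M_det (l : ℕ) (c : Matrix (Fin 4) (Fin 4) ℤ) :
    (qnB_M l c).det = (((c + c.transpose).det : ℤ) : ZMod l) := by
  rw [qnB_M, ← RingHom.map_det]
  rfl

private theorem qnB_M_adj (l : ℕ) (c : Matrix (Fin 4) (Fin 4) ℤ) (i j : Fin 4) :
    (qnB_M l c).adjugate i j = (((c + c.transpose).adjugate i j : ℤ) : ZMod l) := by
  rw [qnB_M, ← RingHom.map_adjugate]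
  rfl

private theorem qnB_two {l : ℕ} (hl : l.Prime) (h2 : l ≠ 2) : (2 : ZMod l) ≠ 0 := by
  intro h
  have h' : ((2 : ℕ) : ZMod l) = 0 := by exact_mod_cast h
  rw [ZMod.natCast_eq_zero_iff] at h'
  exact h2 ((Nat.prime_dvd_prime_iff_eq hl Nat.prime_two).1 h')

private theorem qnB_sum (l : ℕ) (c : Matrix (Fin 4) (Fin 4) ℤ) (v : Fin 4 → ZMod l) :
    ∑ i, ∑ j, qnB_M l c i j * v i * v j = 2 * ∑ i, ∑ j, (c i j : ZMod l) * v i * v j := by
  have h1 : ∀ i j : Fin 4, qnB_M l c i j * v i * v j =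
      (c i j : ZMod l) * v i * v j + (c j i : ZMod l) * v j * v i := by
    intro i j
    rw [qnB_M_apply]
    ring
  simp only [h1, Finset.sum_add_distrib]
  rw [two_mul]
  congr 1
  exact Finset.sum_comm

private theorem qnB_mf {α : Type} {p : α → Prop} {d : DecidablePred p} {s : Finset α} {a : α} :
    a ∈ @Finset.filter α p d s ↔ a ∈ s ∧ p a := Finset.mem_filter

private theorem qnB_card {l : ℕ} (hl : l.Prime) (h2 : l ≠ 2) (c : Matrix (Fin 4) (Fin 4) ℤ)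
    (dp : DecidablePred fun v : Fin 4 → ZMod l => ∑ i, ∑ j, qnB_M l c i j * v i * v j = 0)
    (ft : Fintype (Fin 4 → ZMod l)) :
    nn (Fin 4) l (fun m => (l : ℤ) ∣ qf c m) =
      (@Finset.filter _ (fun v : Fin 4 → ZMod l => ∑ i, ∑ j, qnB_M l c i j * v i * v j = 0) dp
        (@Finset.univ _ ft)).card := by
  classical
  have : Fact l.Prime := ⟨hl⟩
  have : NeZero l := ⟨hl.ne_zero⟩
  have key : ∀ m : Fin 4 → ℤ, ((l : ℤ) ∣ qf c m ↔
      ∑ i, ∑ j, qnB_M l c i j * (m i : ZMod l) * (m j : ZMod l) = 0) := by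
    intro m
    rw [qnB_sum, mul_eq_zero, or_iff_right (qnB_two hl h2), ← ZMod.intCast_zmod_eq_zero_iff_dvd]
    unfold qf
    push_cast
    rfl
  unfold nn
  refine Finset.card_bij (fun m _ => fun i => ((m i : ℤ) : ZMod l)) ?_ ?_ ?_
  · intro m hm
    rw [qnB_mf] at hm
    rw [qnB_mf]
    exact ⟨Finset.mem_univ _, (key m).1 hm.2⟩
  · intro m hm m' hm' h
    rw [qnB_mf, cub, Fintype.mem_piFinset] at hm hm'
    funext i
    have h1 := Finset.mem_Ico.1 (hm.1 i)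
    have h2' := Finset.mem_Ico.1 (hm'.1 i)
    have h3 : ((m i : ℤ) : ZMod l) = ((m' i : ℤ) : ZMod l) := congrFun h i
    rw [ZMod.intCast_eq_intCast_iff] at h3
    have h4 := h3.eq
    rw [Int.emod_eq_of_lt h1.1 h1.2, Int.emod_eq_of_lt h2'.1 h2'.2] at h4
    exact h4
  · intro v hv
    rw [qnB_mf] at hv
    have hcast : ∀ i, ((((v i).val : ℕ) : ℤ) : ZMod l) = v i := fun i => by
      rw [Int.cast_natCast, ZMod.natCast_zmod_val]
    refine ⟨fun i => (((v i).val : ℕ) : ℤ), ?_, ?_⟩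
    · rw [qnB_mf, cub, Fintype.mem_piFinset]
      refine ⟨fun i => Finset.mem_Ico.2 ⟨by positivity, by exact_mod_cast (v i).val_lt⟩, ?_⟩
      rw [key]
      simp only [hcast]
      exact hv.2
    · funext i
      exact hcast i

open Classical in
theorem qn_chi {l : ℕ} (hl : l.Prime) (h2 : l ≠ 2) (c : Matrix (Fin 4) (Fin 4) ℤ)
    (hd : ¬ (l : ℤ) ∣ (c + c.transpose).det) :
    (nn (Fin 4) l (fun m => (l : ℤ) ∣ qf c m) : ℝ) = (l : ℝ) ^ 3 +
      (if IsSquare (((c + c.transpose).det : ℤ) : ZMod l) then 1 else -1) * ((l : ℝ) ^ 2 - l) := by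
  have : Fact l.Prime := ⟨hl⟩
  have : NeZero l := ⟨hl.ne_zero⟩
  have hdet : (qnB_M l c).det ≠ 0 := by
    rw [qnB_M_det]
    intro h
    exact hd ((ZMod.intCast_zmod_eq_zero_iff_dvd _ _).1 h)
  have h := (qnA (qnB_two hl h2) (qnB_M l c) (qnB_M_symm l c)).1 hdet
  rw [← qnB_card hl h2 c, ZMod.card, qnB_M_det, Int.cast_natCast] at h
  convert h

theorem qn_bd {l : ℕ} (hl : l.Prime) (h2 : l ≠ 2) (c : Matrix (Fin 4) (Fin 4) ℤ)
    (hd : ¬ (l : ℤ) ∣ (c + c.transpose).det) :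
    (l : ℝ) ^ 3 - (l : ℝ) ^ 2 ≤ nn (Fin 4) l (fun m => (l : ℤ) ∣ qf c m) ∧
      (nn (Fin 4) l (fun m => (l : ℤ) ∣ qf c m) : ℝ) ≤ (l : ℝ) ^ 3 + (l : ℝ) ^ 2 := by
  rw [qn_chi hl h2 c hd]
  have h1 : (1 : ℝ) ≤ l := by exact_mod_cast hl.one_lt.le
  split_ifs
  · constructor <;> nlinarith
  · constructor <;> nlinarith

theorem qn_sing {l : ℕ} (hl : l.Prime) (h2 : l ≠ 2) (c : Matrix (Fin 4) (Fin 4) ℤ)
    (hd : (l : ℤ) ∣ (c + c.transpose).det)
    (ha : ∃ i j, ¬ (l : ℤ) ∣ (c + c.transpose).adjugate i j) :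
    (nn (Fin 4) l (fun m => (l : ℤ) ∣ qf c m) : ℝ) = (l : ℝ) ^ 3 := by
  classical
  have : Fact l.Prime := ⟨hl⟩
  have : NeZero l := ⟨hl.ne_zero⟩
  have hdet : (qnB_M l c).det = 0 := by
    rw [qnB_M_det]
    exact (ZMod.intCast_zmod_eq_zero_iff_dvd _ _).2 hd
  have hadj : (qnB_M l c).adjugate ≠ 0 := by
    obtain ⟨i, j, hij⟩ := ha
    intro h
    apply hij
    rw [← ZMod.intCast_zmod_eq_zero_iff_dvd, ← qnB_M_adj, h]
    rfl
  have h := (qnA (qnB_two hl h2) (qnB_M l c) (qnB_M_symm l c)).2 hdet hadj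
  rw [← qnB_card hl h2 c, ZMod.card, Int.cast_natCast] at h
  exact h

end Pool.Agent.PP5C
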