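import Pool.Agent.PP5C.LcD
import Pool.Agent.PP5C.PrC
import Pool.Agent.PP5C.LcS
import Pool.Agent.PP5C.QnB

/-!
# Chs: the average of `1 + χ` over the null classes (difficulty 4)

`l = 2`: the sum is `0` (`2 ∣ 2 DX x`) -- so `≤`.  Let `l` be odd, `N = {x ∈ cub (Fin 10) l : l ∣ FX x}`, and for `x ∈ N`
`n(x) = nn (Fin 4) l (fun m => l ∣ hs x m)`.  `hs x m = qf (cS x) m` for the upper triangular matrix
`cS x = [[x0, -(x4+x5), x6, -x8],[0, x2, -x7, x9],[0, 0, -x1, x4-x5],[0, 0, 0, -x3]]`, `cS x + (cS x)ᵀ = SX x`.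
* `∑_{x ∈ N} n(x) = ∑_m #{x ∈ N : l ∣ hs x m} ≤ #N + (l⁴ - 1)(l⁸ + l⁵)` (`m = 0`: all of `N`; `prc`), `#N ≤ l⁹ + l⁵` (`lcn`).
* `l ∤ DX x`: `n(x) = l³ + χ(x)(l² - l)`, `χ(x) = ±1` (`qn_chi`).  `l ∣ DX x`, `adj S(x) ≠ 0` mod `l`: `n(x) = l³` (`qn_sing`).
  `adj S(x) = 0` mod `l`: `n(x) ≥ 0`, and the number of such `x` is at most `1 + C l ^ 7` (`lcs` with `s = 1`, `8` is a unit;
  `+ 1` for the class `0`).
* So `(l² - l) ∑_{l ∤ DX} χ = ∑_N n(x) - l³ #N + l³ #{adj = 0} - ∑_{adj = 0} n(x) ≤ l¹² + 3 l⁹ + 2 l⁵.. - l³ (l⁹ + l⁵ - l⁴)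
  + l³ (1 + C l⁷) ≤ C' l^10`, hence `∑ χ ≤ 2 C' l⁸` (`l² - l ≥ l² / 2`).
* the sum in question is `∑_{l ∤ DX} (1 + χ) ≤ #N + 2 C' l⁸ ≤ l⁹ + C'' l⁸` (`psx = 1 + χ` for `l ∤ DX x`).
-/

set_option autoImplicit false

namespace Pool.Agent.PP5C

open Finset Pool.Agent.PPS

private def cS (x : Fin 10 → ℤ) : Matrix (Fin 4) (Fin 4) ℤ :=
  !![x 0, -(x 4 + x 5), x 6, -(x 8);
     0, x 2, -(x 7), x 9;
     0, 0, -(x 1), x 4 - x 5;
     0, 0, 0, -(x 3)]

private theorem hs_qf (x : Fin 10 → ℤ) (m : Fin 4 → ℤ) : hs x m = qf (cS x) m := by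
  simp [qf, cS, Fin.sum_univ_four, hs]
  ring

private theorem cS_add (x : Fin 10 → ℤ) : cS x + (cS x).transpose = SX x := by
  ext i j
  fin_cases i <;> fin_cases j <;> simp [cS, SX] <;> ring

open Classical in
private theorem nn_sum {ι : Type} [Fintype ι] [DecidableEq ι] (n : ℕ) (P : (ι → ℤ) → Prop) :
    nn ι n P = ∑ m ∈ cub ι n, (if P m then 1 else 0) := by
  unfold nn
  exact Finset.card_filter _ _

private theorem hs_zero (x : Fin 10 → ℤ) (m : Fin 4 → ℤ) {l : ℕ} (hm : ¬ Pv l m) : (l : ℤ) ∣ hs x m := by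
  have h : ∀ i, (l : ℤ) ∣ m i := by
    intro i
    by_contra hi
    exact hm ⟨i, hi⟩
  obtain ⟨a, ha⟩ := h 0
  obtain ⟨b, hb⟩ := h 1
  obtain ⟨c, hc⟩ := h 2
  obtain ⟨d, hd⟩ := h 3
  refine ⟨l * hs x ![a, b, c, d], ?_⟩
  simp only [hs, ha, hb, hc, hd, Matrix.cons_val]
  ring

private theorem cub_card4 (k : ℕ) : (cub (Fin 4) k).card = k ^ 4 := by
  unfold cub
  rw [Fintype.card_piFinset]
  simp

private theorem npv_zero {ι : Type} [Fintype ι] [DecidableEq ι] {l : ℕ} {m : ι → ℤ}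
    (hm : m ∈ cub ι l) (h : ¬ Pv l m) : m = 0 := by
  funext i
  unfold cub at hm
  rw [Fintype.mem_piFinset] at hm
  have h1 := hm i
  rw [Finset.mem_Ico] at h1
  have h2 : (l : ℤ) ∣ m i := by
    by_contra hi
    exact h ⟨i, hi⟩
  exact Int.eq_zero_of_dvd_of_nonneg_of_lt h1.1 h1.2 h2

open Classical in
theorem chs : ∃ C : ℝ, 0 < C ∧ ∀ l : ℕ, l.Prime →
    ∑ x ∈ (cub (Fin 10) l).filter (fun x => (l : ℤ) ∣ FX x),
      (if (l : ℤ) ∣ 2 * DX x then 0 else psx x l) ≤ (l : ℝ) ^ 9 + C * (l : ℝ) ^ 8 := by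
  obtain ⟨C, hC⟩ := lcs
  refine ⟨4 * (C : ℝ) + 7, by positivity, ?_⟩
  intro l hl
  have hl1 : (1 : ℝ) ≤ l := by exact_mod_cast hl.one_lt.le
  have hl2 : (2 : ℝ) ≤ l := by exact_mod_cast hl.two_le
  by_cases h2 : l = 2
  · subst h2
    have h0 : ∑ x ∈ (cub (Fin 10) 2).filter (fun x => ((2 : ℕ) : ℤ) ∣ FX x),
      (if ((2 : ℕ) : ℤ) ∣ 2 * DX x then (0 : ℝ) else psx x 2) = 0 := by
      refine Finset.sum_eq_zero ?_
      intro x _
      rw [if_pos]
      exact Dvd.intro _ rfl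
    rw [h0]
    positivity
  set N := (cub (Fin 10) l).filter (fun x => (l : ℤ) ∣ FX x) with hN
  have hNc : (N.card : ℝ) = (l : ℝ) ^ 9 + (l : ℝ) ^ 5 - (l : ℝ) ^ 4 := by
    have h1 := lcn hl
    have h3 : nn (Fin 10) l (fun x => (l : ℤ) ∣ FX x) = N.card := by
      unfold nn
      rw [hN]
      congr!
    rw [h3] at h1
    have h4 : (N.card : ℝ) + (l : ℝ) ^ 4 = (l : ℝ) ^ 9 + (l : ℝ) ^ 5 := by exact_mod_cast h1
    linarith
  set χ : (Fin 10 → ℤ) → ℝ := fun x => if IsSquare ((DX x : ℤ) : ZMod l) then 1 else -1 with hχ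
  set n : (Fin 10 → ℤ) → ℕ := fun x => nn (Fin 4) l (fun m => (l : ℤ) ∣ hs x m) with hn
  set Z := N.filter (fun x => ∀ i j, (l : ℤ) ∣ (SX x).adjugate i j) with hZ
  -- upper bound of the double count
  have hup : ∑ x ∈ N, (n x : ℝ) ≤ N.card + ((l : ℝ) ^ 4 - 1) * ((l : ℝ) ^ 8 + (l : ℝ) ^ 5) := by
    have e1 : ∑ x ∈ N, n x = ∑ m ∈ cub (Fin 4) l, ∑ x ∈ N, (if (l : ℤ) ∣ hs x m then 1 else 0) := by
      rw [Finset.sum_comm]
      refine Finset.sum_congr rfl ?_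
      intro x _
      rw [hn]
      show nn (Fin 4) l (fun m => (l : ℤ) ∣ hs x m) = _
      rw [nn_sum]
      refine Finset.sum_congr rfl ?_
      intro m _
      by_cases hb : (l : ℤ) ∣ hs x m
      · rw [if_pos hb, if_pos hb]
      · rw [if_neg hb, if_neg hb]
    have e2 : ∀ m, ∑ x ∈ N, (if (l : ℤ) ∣ hs x m then 1 else 0) =
        nn (Fin 10) l (fun x => (l : ℤ) ∣ FX x ∧ (l : ℤ) ∣ hs x m) := by
      intro m
      rw [nn_sum, hN, Finset.sum_filter]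
      refine Finset.sum_congr rfl ?_
      intro x _
      by_cases ha : (l : ℤ) ∣ FX x <;> by_cases hb : (l : ℤ) ∣ hs x m <;> simp [ha, hb]
    have hz0 : (0 : Fin 4 → ℤ) ∈ cub (Fin 4) l := by
      unfold cub
      rw [Fintype.mem_piFinset]
      intro i
      rw [Finset.mem_Ico]
      refine ⟨le_refl _, ?_⟩
      show (0 : ℤ) < (l : ℤ)
      exact_mod_cast hl.pos
    rw [← Finset.add_sum_erase _ _ hz0] at e1
    have e3 : ∑ x ∈ N, (if (l : ℤ) ∣ hs x (0 : Fin 4 → ℤ) then 1 else 0) ≤ N.card := by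
      rw [Finset.card_eq_sum_ones]
      refine Finset.sum_le_sum ?_
      intro x _
      split_ifs <;> simp
    have e4 : ∑ m ∈ (cub (Fin 4) l).erase 0, ∑ x ∈ N, (if (l : ℤ) ∣ hs x m then 1 else 0) ≤
        (l ^ 4 - 1) * (l ^ 8 + l ^ 5) := by
      have e5 : ((cub (Fin 4) l).erase 0).card = l ^ 4 - 1 := by
        rw [Finset.card_erase_of_mem hz0, cub_card4]
      rw [← e5, ← smul_eq_mul]
      refine Finset.sum_le_card_nsmul _ _ _ ?_
      intro m hm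
      rw [e2]
      apply prc hl
      by_contra hcon
      obtain ⟨h5, h6⟩ := Finset.mem_erase.1 hm
      exact h5 (npv_zero h6 hcon)
    have e6 : ∑ x ∈ N, n x ≤ N.card + (l ^ 4 - 1) * (l ^ 8 + l ^ 5) := by
      rw [e1]
      exact Nat.add_le_add e3 e4
    have e7 : ((l ^ 4 - 1 : ℕ) : ℝ) = (l : ℝ) ^ 4 - 1 := by
      rw [Nat.cast_sub (Nat.one_le_pow _ _ hl.pos)]
      push_cast
      ring
    have e8 : ((∑ x ∈ N, n x : ℕ) : ℝ) ≤ ((N.card + (l ^ 4 - 1) * (l ^ 8 + l ^ 5) : ℕ) : ℝ) := by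
      exact_mod_cast e6
    rw [Nat.cast_sum, Nat.cast_add, Nat.cast_mul, e7] at e8
    push_cast at e8
    exact e8
  -- lower bound, term by term
  have hlow : ∀ x ∈ N, (l : ℝ) ^ 3 - (if x ∈ Z then (l : ℝ) ^ 3 else 0) +
      (if (l : ℤ) ∣ 2 * DX x then 0 else χ x * ((l : ℝ) ^ 2 - l)) ≤ (n x : ℝ) := by
    intro x hx
    have hne : (n x : ℝ) = nn (Fin 4) l (fun m => (l : ℤ) ∣ qf (cS x) m) := by
      rw [hn]
      have : (fun m => (l : ℤ) ∣ hs x m) = (fun m => (l : ℤ) ∣ qf (cS x) m) := by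
        funext m
        rw [hs_qf]
      simp only [this]
    by_cases hd : (l : ℤ) ∣ DX x
    · have hd2 : (l : ℤ) ∣ 2 * DX x := Dvd.dvd.mul_left hd 2
      rw [if_pos hd2]
      by_cases hz : x ∈ Z
      · rw [if_pos hz]
        have : (0 : ℝ) ≤ n x := Nat.cast_nonneg _
        linarith
      · rw [if_neg hz]
        have ha : ∃ i j, ¬ (l : ℤ) ∣ (SX x).adjugate i j := by
          by_contra hcon
          apply hz
          rw [hZ, Finset.mem_filter]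
          refine ⟨hx, ?_⟩
          intro i j
          by_contra hij
          exact hcon ⟨i, j, hij⟩
        have h3 := qn_sing hl h2 (cS x) (by rw [cS_add]; exact hd) (by rw [cS_add]; exact ha)
        rw [hne, h3]
        linarith
    · have hd2 : ¬ (l : ℤ) ∣ 2 * DX x := by
        intro h3
        have hp : Prime (l : ℤ) := Nat.prime_iff_prime_int.1 hl
        rcases hp.dvd_or_dvd h3 with h4 | h4
        · have h5 : l ∣ 2 := by exact_mod_cast h4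
          rw [(Nat.prime_dvd_prime_iff_eq hl Nat.prime_two)] at h5
          exact h2 h5
        · exact hd h4
      rw [if_neg hd2]
      have h3 := qn_chi hl h2 (cS x) (by rw [cS_add]; exact hd)
      rw [cS_add] at h3
      have h4 : (nn (Fin 4) l (fun m => (l : ℤ) ∣ qf (cS x) m) : ℝ) =
          (l : ℝ) ^ 3 + χ x * ((l : ℝ) ^ 2 - l) := h3
      rw [hne, h4]
      have h5 : (0 : ℝ) ≤ (if x ∈ Z then (l : ℝ) ^ 3 else 0) := by
        split_ifs <;> positivity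
      linarith
  -- the number of the bad x
  have hZc : (Z.card : ℝ) ≤ 1 + 2 * C * (l : ℝ) ^ 7 := by
    have h3 := hC l hl 1
    have h4 : Z ⊆ {(0 : Fin 10 → ℤ)} ∪ (cub (Fin 10) (l ^ 1)).filter (fun x => Pv l x ∧ An (l ^ 1) x) := by
      intro x hx
      rw [hZ, Finset.mem_filter, hN, Finset.mem_filter] at hx
      rw [Finset.mem_union, Finset.mem_singleton]
      by_cases hp : Pv l x
      · right
        refine Finset.mem_filter.2 ⟨?_, hp, ?_⟩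
        · rw [pow_one]
          exact hx.1.1
        · intro i j
          rw [pow_one]
          exact Dvd.dvd.mul_left (hx.2 i j) 8
      · left
        exact npv_zero hx.1.1 hp
    have h5 := (Finset.card_le_card h4).trans (Finset.card_union_le _ _)
    rw [Finset.card_singleton] at h5
    have h6 : ((cub (Fin 10) (l ^ 1)).filter (fun x => Pv l x ∧ An (l ^ 1) x)).card ≤
        C * (1 + 1) * l ^ (7 * 1) := by
      unfold nn at h3
      convert h3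
    have h7 : Z.card ≤ 1 + C * (1 + 1) * l ^ (7 * 1) := h5.trans (Nat.add_le_add_left h6 1)
    have h8 : (Z.card : ℝ) ≤ ((1 + C * (1 + 1) * l ^ (7 * 1) : ℕ) : ℝ) := by exact_mod_cast h7
    push_cast at h8
    have h9 : (1 : ℝ) + C * (1 + 1) * (l : ℝ) ^ (7 * 1) = 1 + 2 * C * (l : ℝ) ^ 7 := by
      rw [show 7 * 1 = 7 from rfl]
      ring
    linarith
  have hZN : Z ⊆ N := Finset.filter_subset _ _
  have hsum := Finset.sum_le_sum hlow
  rw [Finset.sum_add_distrib, Finset.sum_sub_distrib, Finset.sum_const, nsmul_eq_mul] at hsum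
  have hs1 : ∑ x ∈ N, (if x ∈ Z then (l : ℝ) ^ 3 else 0) = Z.card * (l : ℝ) ^ 3 := by
    rw [← Finset.sum_filter]
    have : N.filter (fun x => x ∈ Z) = Z := by
      ext x
      rw [Finset.mem_filter]
      exact ⟨fun h => h.2, fun h => ⟨hZN h, h⟩⟩
    rw [this, Finset.sum_const, nsmul_eq_mul]
  rw [hs1] at hsum
  set X : ℝ := ∑ x ∈ N, (if (l : ℤ) ∣ 2 * DX x then 0 else χ x) with hX
  have hs2 : ∑ x ∈ N, (if (l : ℤ) ∣ 2 * DX x then 0 else χ x * ((l : ℝ) ^ 2 - l)) = X * ((l : ℝ) ^ 2 - l) := by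
    rw [hX, Finset.sum_mul]
    refine Finset.sum_congr rfl ?_
    intro x _
    split_ifs <;> simp
  rw [hs2] at hsum
  have hgoal : ∑ x ∈ N, (if (l : ℤ) ∣ 2 * DX x then 0 else psx x l) ≤ N.card + X := by
    rw [hX, Finset.card_eq_sum_ones]
    push_cast
    rw [← Finset.sum_add_distrib]
    refine Finset.sum_le_sum ?_
    intro x _
    by_cases hd : (l : ℤ) ∣ 2 * DX x
    · rw [if_pos hd, if_pos hd]
      norm_num
    · rw [if_neg hd, if_neg hd]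
      simp only [psx, hχ]
      split_ifs <;> norm_num
  refine hgoal.trans ?_
  have hkey : X * ((l : ℝ) ^ 2 - l) ≤ (2 * C + 3) * (l : ℝ) ^ 10 := by
    have h3 : (l : ℝ) ^ 3 * Z.card ≤ (l : ℝ) ^ 3 * (1 + 2 * C * (l : ℝ) ^ 7) :=
      mul_le_mul_of_nonneg_left hZc (by positivity)
    have p3 : (l : ℝ) ^ 3 ≤ (l : ℝ) ^ 4 := pow_le_pow_right₀ hl1 (by norm_num)
    have p7 : (l : ℝ) ^ 7 ≤ (l : ℝ) ^ 8 := pow_le_pow_right₀ hl1 (by norm_num)
    have p9 : (l : ℝ) ^ 9 ≤ (l : ℝ) ^ 10 := pow_le_pow_right₀ hl1 (by norm_num)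
    have p8 : 0 ≤ (l : ℝ) ^ 8 := by positivity
    rw [hNc] at hsum hup
    nlinarith [hsum, hup, h3, p3, p7, p9, p8]
  have hXb : X ≤ (4 * C + 6) * (l : ℝ) ^ 8 := by
    by_cases hX0 : X ≤ 0
    · refine hX0.trans (by positivity)
    · push Not at hX0
      have h3 : (l : ℝ) ^ 2 / 2 ≤ (l : ℝ) ^ 2 - l := by nlinarith
      have h4 : X * ((l : ℝ) ^ 2 / 2) ≤ (2 * C + 3) * (l : ℝ) ^ 10 :=
        (mul_le_mul_of_nonneg_left h3 hX0.le).trans hkey
      have h5 : (l : ℝ) ^ 10 = (l : ℝ) ^ 2 * (l : ℝ) ^ 8 := by ring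
      rw [h5] at h4
      have h6 : (0 : ℝ) < (l : ℝ) ^ 2 := by positivity
      have h7 : (l : ℝ) ^ 2 * X ≤ (l : ℝ) ^ 2 * ((4 * C + 6) * (l : ℝ) ^ 8) := by
        nlinarith [h4]
      exact le_of_mul_le_mul_left h7 h6
  have p5 : (l : ℝ) ^ 5 ≤ (l : ℝ) ^ 8 := pow_le_pow_right₀ hl1 (by norm_num)
  have p4 : 0 ≤ (l : ℝ) ^ 4 := by positivity
  rw [hNc]
  nlinarith [hXb, p5, p4]

end Pool.Agent.PP5C
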