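import Pool.Agent.PP5C.QnB

/-!
# LcH: density of `l² ∣ qf c m` for good primes (difficulty 3)

Every class modulo `l²` is `m0 + l t` with `m0, t ∈ cub (Fin 4) l`.  `Pv l` and `l ∣ qf c m` depend only on `m0`, and
`qf c (m0 + l t) = qf c m0 + l * (∑ i j, (c i j + c j i) m0 i t j) mod l²`.  Let `l ∣ qf c m0`, `Pv l m0`: the vector
`g = (c + cᵀ) m0` is not `0` modulo `l` (`det` invertible mod `l`: `adj (c + cᵀ) * g = det * m0`), and the
condition on `t` is `l ∣ qf c m0 / l + g · t`: at most `l³` solutions `t` (some `g j` is invertible: `t j` is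
determined by the others).  The number of `m0` is at most `l³ + l²` (`qn_bd`), total `(l³ + l²) l³ ≤ 2 l⁶`.
-/

set_option autoImplicit false

namespace Pool.Agent.PP5C

open Finset Pool.Agent.PPS

private def lchG (c : Matrix (Fin 4) (Fin 4) ℤ) (m : Fin 4 → ℤ) (j : Fin 4) : ℤ :=
  ∑ i, (c i j + c j i) * m i

private theorem lchG_mulVec (c : Matrix (Fin 4) (Fin 4) ℤ) (m : Fin 4 → ℤ) (j : Fin 4) :
    (c + c.transpose).mulVec m j = lchG c m j := by
  simp [Matrix.mulVec, dotProduct, lchG, Fin.sum_univ_four]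
  ring

private theorem lch_exists {l : ℕ} (hl : l.Prime) (c : Matrix (Fin 4) (Fin 4) ℤ)
    (hd : ¬ (l : ℤ) ∣ (c + c.transpose).det) (m : Fin 4 → ℤ) (hm : Pv l m) :
    ∃ j, ¬ (l : ℤ) ∣ lchG c m j := by
  by_contra hcon
  push Not at hcon
  obtain ⟨i, hi⟩ := hm
  have h1 : (c + c.transpose).adjugate.mulVec ((c + c.transpose).mulVec m) =
      (c + c.transpose).det • m := by
    rw [Matrix.mulVec_mulVec, Matrix.adjugate_mul, Matrix.smul_mulVec, Matrix.one_mulVec]
  have h2 : (c + c.transpose).det * m i =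
      ∑ k, (c + c.transpose).adjugate i k * lchG c m k := by
    have h3 := congrFun h1 i
    simp only [Pi.smul_apply, smul_eq_mul] at h3
    rw [← h3]
    show ∑ k, (c + c.transpose).adjugate i k * (c + c.transpose).mulVec m k = _
    refine Finset.sum_congr rfl fun k _ => ?_
    rw [lchG_mulVec]
  have h4 : (l : ℤ) ∣ (c + c.transpose).det * m i := by
    rw [h2]
    exact Finset.dvd_sum fun k _ => Dvd.dvd.mul_left (hcon k) _
  rcases (Nat.prime_iff_prime_int.mp hl).dvd_or_dvd h4 with h5 | h5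
  · exact hd h5
  · exact hi h5

private theorem lch_diff (c : Matrix (Fin 4) (Fin 4) ℤ) (m m' : Fin 4 → ℤ) (j : Fin 4) (s : ℤ)
    (h1 : ∀ i, i ≠ j → m' i = m i) (h2 : m' j = m j + s) :
    qf c m' = qf c m + s * lchG c m j + s ^ 2 * c j j := by
  fin_cases j
  · have e1 := h1 1 (by decide)
    have e2 := h1 2 (by decide)
    have e3 := h1 3 (by decide)
    simp only [qf, lchG, Fin.sum_univ_four]
    simp only [Fin.zero_eta, Fin.isValue] at h2 ⊢
    rw [e1, e2, e3, h2]
    ring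
  · have e1 := h1 0 (by decide)
    have e2 := h1 2 (by decide)
    have e3 := h1 3 (by decide)
    simp only [qf, lchG, Fin.sum_univ_four]
    simp only [Fin.mk_one, Fin.isValue] at h2 ⊢
    rw [e1, e2, e3, h2]
    ring
  · have e1 := h1 0 (by decide)
    have e2 := h1 1 (by decide)
    have e3 := h1 3 (by decide)
    simp only [qf, lchG, Fin.sum_univ_four]
    simp only [Fin.reduceFinMk, Fin.isValue] at h2 ⊢
    rw [e1, e2, e3, h2]
    ring
  · have e1 := h1 0 (by decide)
    have e2 := h1 1 (by decide)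
    have e3 := h1 2 (by decide)
    simp only [qf, lchG, Fin.sum_univ_four]
    simp only [Fin.reduceFinMk, Fin.isValue] at h2 ⊢
    rw [e1, e2, e3, h2]
    ring

private theorem lch_fiber {l : ℕ} (hl : l.Prime) (c : Matrix (Fin 4) (Fin 4) ℤ)
    (hd : ¬ (l : ℤ) ∣ (c + c.transpose).det) (F : Finset (Fin 4 → ℤ)) (m0 : Fin 4 → ℤ)
    (hF : ∀ m ∈ F, m ∈ cub (Fin 4) (l ^ 2) ∧ Pv l m ∧ ((l ^ 2 : ℕ) : ℤ) ∣ qf c m ∧
      ∀ i, m i % (l : ℤ) = m0 i) :
    F.card ≤ l ^ 3 := by
  classical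
  have hl0 : (0 : ℤ) < (l : ℤ) := by exact_mod_cast hl.pos
  rcases F.eq_empty_or_nonempty with rfl | ⟨m1, hm1⟩
  · simp
  obtain ⟨j, hj⟩ := lch_exists hl c hd m1 (hF m1 hm1).2.1
  -- all `lchG c m j`, `m ∈ F`, are congruent modulo `l`
  have hG : ∀ m ∈ F, ¬ (l : ℤ) ∣ lchG c m j := by
    intro m hm hdv
    apply hj
    have h1 : (l : ℤ) ∣ lchG c m j - lchG c m1 j := by
      unfold lchG
      rw [← Finset.sum_sub_distrib]
      refine Finset.dvd_sum fun i _ => ?_
      rw [← mul_sub]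
      refine Dvd.dvd.mul_left ?_ _
      have h2 := (hF m hm).2.2.2 i
      have h3 := (hF m1 hm1).2.2.2 i
      exact Int.ModEq.dvd (show m1 i % (l : ℤ) = m i % (l : ℤ) by rw [h2, h3])
    have h4 : lchG c m1 j = lchG c m j - (lchG c m j - lchG c m1 j) := by ring
    rw [h4]
    exact dvd_sub hdv h1
  let f : (Fin 4 → ℤ) → (Fin 4 → ℤ) := fun m i => if i = j then 0 else m i / (l : ℤ)
  let T : Finset (Fin 4 → ℤ) :=
    Fintype.piFinset fun i => if i = j then ({0} : Finset ℤ) else Ico (0 : ℤ) (l : ℤ)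
  have hT : T.card = l ^ 3 := by
    show (Fintype.piFinset fun i => if i = j then ({0} : Finset ℤ) else Ico (0 : ℤ) (l : ℤ)).card = _
    rw [Fintype.card_piFinset]
    have : ∀ i : Fin 4, (if i = j then ({0} : Finset ℤ) else Ico (0 : ℤ) (l : ℤ)).card =
        if i = j then 1 else l := by
      intro i
      split_ifs <;> simp
    rw [Finset.prod_congr rfl fun i _ => this i]
    rw [← Finset.mul_prod_erase _ _ (Finset.mem_univ j)]
    rw [Finset.prod_congr rfl (g := fun _ => l) (fun i hi => if_neg (Finset.ne_of_mem_erase hi))]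
    simp
  rw [← hT]
  refine Finset.card_le_card_of_injOn f ?_ ?_
  · intro m hm
    have hm' : m ∈ F := hm
    have hcub := (hF m hm').1
    rw [Finset.mem_coe, Fintype.mem_piFinset]
    intro i
    show (if i = j then 0 else m i / (l : ℤ)) ∈ (if i = j then ({0} : Finset ℤ) else Ico (0 : ℤ) (l : ℤ))
    split_ifs with h
    · simp
    · have h1 : m i ∈ Ico (0 : ℤ) ((l ^ 2 : ℕ) : ℤ) := Fintype.mem_piFinset.mp hcub i
      rw [Finset.mem_Ico] at h1 ⊢
      refine ⟨Int.ediv_nonneg h1.1 hl0.le, ?_⟩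
      apply Int.ediv_lt_of_lt_mul hl0
      have := h1.2
      push_cast at this
      nlinarith
  · intro m hm m' hm' hff
    have hmF : m ∈ F := hm
    have hmF' : m' ∈ F := hm'
    have hdiv : ∀ i, i ≠ j → m i / (l : ℤ) = m' i / (l : ℤ) := by
      intro i hi
      have := congrFun hff i
      simpa [f, hi] using this
    have hmod : ∀ i, m i % (l : ℤ) = m' i % (l : ℤ) := by
      intro i
      rw [(hF m hmF).2.2.2 i, (hF m' hmF').2.2.2 i]
    have hne : ∀ i, i ≠ j → m' i = m i := by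
      intro i hi
      rw [← Int.emod_add_mul_ediv (m i) (l : ℤ), ← Int.emod_add_mul_ediv (m' i) (l : ℤ), hdiv i hi, hmod i]
    -- the difference at `j`
    set s : ℤ := m' j / (l : ℤ) - m j / (l : ℤ) with hs
    have hsj : m' j = m j + (l : ℤ) * s := by
      have e1 := Int.emod_add_mul_ediv (m j) (l : ℤ)
      have e2 := Int.emod_add_mul_ediv (m' j) (l : ℤ)
      have e3 := hmod j
      rw [hs]
      linear_combination e1 - e2 - e3
    have hq := lch_diff c m m' j ((l : ℤ) * s) hne hsj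
    have d1 : ((l : ℤ) ^ 2) ∣ qf c m := by
      have := (hF m hmF).2.2.1
      push_cast at this
      exact this
    have d2 : ((l : ℤ) ^ 2) ∣ qf c m' := by
      have := (hF m' hmF').2.2.1
      push_cast at this
      exact this
    have d3 : ((l : ℤ) * (l : ℤ)) ∣ (l : ℤ) * (s * lchG c m j) := by
      have e : (l : ℤ) * (s * lchG c m j) = qf c m' - qf c m - (l : ℤ) ^ 2 * (s ^ 2 * c j j) := by
        rw [hq]; ring
      rw [e, ← sq]
      exact dvd_sub (dvd_sub d2 d1) (Dvd.intro _ rfl)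
    have d4 : (l : ℤ) ∣ s * lchG c m j := (mul_dvd_mul_iff_left hl0.ne').mp d3
    have d5 : (l : ℤ) ∣ s := by
      rcases (Nat.prime_iff_prime_int.mp hl).dvd_or_dvd d4 with h | h
      · exact h
      · exact absurd h (hG m hmF)
    have hb1 : m j ∈ Ico (0 : ℤ) ((l ^ 2 : ℕ) : ℤ) := Fintype.mem_piFinset.mp (hF m hmF).1 j
    have hb2 : m' j ∈ Ico (0 : ℤ) ((l ^ 2 : ℕ) : ℤ) := Fintype.mem_piFinset.mp (hF m' hmF').1 j
    rw [Finset.mem_Ico] at hb1 hb2
    push_cast at hb1 hb2
    have hs0 : s = 0 := by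
      obtain ⟨k, hk⟩ := d5
      have hk0 : k = 0 := by
        by_contra hk0
        have h1 : 1 ≤ |k| := Int.one_le_abs hk0
        have h2 : |m' j - m j| = (l : ℤ) * (l : ℤ) * |k| := by
          rw [hsj, hk]
          have : m j + (l : ℤ) * ((l : ℤ) * k) - m j = (l : ℤ) * (l : ℤ) * k := by ring
          rw [this, abs_mul, abs_of_pos (mul_pos hl0 hl0)]
        have h3 : |m' j - m j| < (l : ℤ) ^ 2 := by
          rw [abs_lt]
          constructor <;> linarith [hb1.1, hb1.2, hb2.1, hb2.2]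
        nlinarith [mul_pos hl0 hl0]
      rw [hk, hk0, mul_zero]
    funext i
    by_cases hi : i = j
    · subst hi
      rw [hsj, hs0]
      ring
    · exact (hne i hi).symm

theorem lch {l : ℕ} (hl : l.Prime) (h2 : l ≠ 2) (c : Matrix (Fin 4) (Fin 4) ℤ)
    (hd : ¬ (l : ℤ) ∣ (c + c.transpose).det) :
    (nn (Fin 4) (l ^ 2) (fun m => Pv l m ∧ ((l ^ 2 : ℕ) : ℤ) ∣ qf c m) : ℝ) ≤ 2 * (l : ℝ) ^ 6 := by
  classical
  have hl0 : (0 : ℤ) < (l : ℤ) := by exact_mod_cast hl.pos
  have hl1 : (1 : ℝ) ≤ (l : ℝ) := by exact_mod_cast hl.one_lt.le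
  have hbd := (qn_bd hl h2 c hd).2
  have key : nn (Fin 4) (l ^ 2) (fun m => Pv l m ∧ ((l ^ 2 : ℕ) : ℤ) ∣ qf c m) ≤
      l ^ 3 * nn (Fin 4) l (fun m => (l : ℤ) ∣ qf c m) := by
    unfold nn
    refine Finset.card_le_mul_card_image_of_maps_to (f := fun (m : Fin 4 → ℤ) i => m i % (l : ℤ))
      ?_ (l ^ 3) ?_
    · intro m hm
      simp only [Finset.mem_filter] at hm ⊢
      refine ⟨?_, ?_⟩
      · refine Fintype.mem_piFinset.mpr fun i => ?_
        rw [Finset.mem_Ico]
        exact ⟨Int.emod_nonneg _ hl0.ne', Int.emod_lt_of_pos _ hl0⟩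
      · have h1 : (l : ℤ) ∣ qf c m := by
          refine dvd_trans ?_ hm.2.2
          push_cast
          exact dvd_pow_self _ (by norm_num)
        have h3 : (l : ℤ) ∣ qf c m - qf c (fun i => m i % (l : ℤ)) := by
          unfold qf
          rw [← Finset.sum_sub_distrib]
          refine Finset.dvd_sum fun i _ => ?_
          rw [← Finset.sum_sub_distrib]
          refine Finset.dvd_sum fun j _ => ?_
          have e1 : (l : ℤ) ∣ m i - m i % (l : ℤ) := Int.dvd_self_sub_emod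
          have e2 : (l : ℤ) ∣ m j - m j % (l : ℤ) := Int.dvd_self_sub_emod
          have e3 : c i j * m i * m j - c i j * (m i % (l : ℤ)) * (m j % (l : ℤ)) =
              c i j * (m j) * (m i - m i % (l : ℤ)) +
                c i j * (m i % (l : ℤ)) * (m j - m j % (l : ℤ)) := by ring
          rw [e3]
          exact dvd_add (Dvd.dvd.mul_left e1 _) (Dvd.dvd.mul_left e2 _)
        have h4 : qf c (fun i => m i % (l : ℤ)) =
            qf c m - (qf c m - qf c (fun i => m i % (l : ℤ))) := by ring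
        rw [h4]
        exact dvd_sub h1 h3
    · intro m0 hm0
      refine lch_fiber hl c hd _ m0 ?_
      intro m hm
      simp only [Finset.mem_filter] at hm
      exact ⟨hm.1.1, hm.1.2.1, hm.1.2.2, fun i => congrFun hm.2 i⟩
  have key' : (nn (Fin 4) (l ^ 2) (fun m => Pv l m ∧ ((l ^ 2 : ℕ) : ℤ) ∣ qf c m) : ℝ) ≤
      (l : ℝ) ^ 3 * nn (Fin 4) l (fun m => (l : ℤ) ∣ qf c m) := by
    exact_mod_cast key
  refine key'.trans ?_
  have h3 : (l : ℝ) ^ 3 * nn (Fin 4) l (fun m => (l : ℤ) ∣ qf c m) ≤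
      (l : ℝ) ^ 3 * ((l : ℝ) ^ 3 + (l : ℝ) ^ 2) :=
    mul_le_mul_of_nonneg_left hbd (by positivity)
  refine h3.trans ?_
  have h4 : (l : ℝ) ^ 5 ≤ (l : ℝ) ^ 6 := pow_le_pow_right₀ hl1 (by norm_num)
  nlinarith [h4]

end Pool.Agent.PP5C
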