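import Pool.Agent.PP5C.Defs

/-!
# LcP: density of `l ^ k ∣ qf c m`, any prime (difficulty 4)

If `k ≤ v` the claim is trivial (`(0 + 1) / 2 = 0`, `nn ≤ (l ^ k) ^ 4`).  Let `v' ≤ v` be the exact exponent of the
content: `Cn (l ^ v') c`, not `Cn (l ^ (v' + 1)) c` (least element argument); it is enough to prove the
claim for `v'` (`k > v ≥ v'`; the bound is monotone in `v`).
* There is a direction `d` (a vector `e_i`, or `e_i + e_j`, `i ≠ j`) such that `l ^ (v' + 1) ∤ qf c d`: some `c i i` is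
  not divisible by `l ^ (v' + 1)`: `d = e_i`; otherwise some `c i j + c j i` is not, and
  `qf c (e_i + e_j) = c i i + c j j + (c i j + c j i)`.
* For fixed `m`: `qf c (m + t d) = α + β t + γ t²` with `l ^ v' ∣ α, β, γ` and `γ = l ^ v' u`, `l ∤ u` (`β` = polar
  form of `m, d`).  The number of `t ∈ [0, l ^ k)` with `l ^ k ∣ α + β t + γ t²` is at most
  `2 l ^ (k - h)`, `h = (k - v' + 1) / 2`: divide by `l ^ v'`; if `t0` is a solution of
  `l ^ (k - v') ∣ α' + β' t + u t²` and `t = t0 + s` is another, `l ^ (k - v') ∣ s (β' + 2 u t0 + u s)`, so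
  `l ^ h ∣ s` or `l ^ h ∣ β' + 2 u t0 + u s` (valuations: one of the two has valuation `≥ (k - v') / 2`), which
  are two classes of `t` modulo `l ^ h` (`u` is a unit); each class has `l ^ (k - h)` elements.
* Average: for `n = l ^ k`, `n * nn (P) = ∑_{t < n} #{m ∈ cub n : P (m + t d)}` (`P` is `Per n`: translation by `t d`
  permutes the classes), exchange the sums: `≤ n ^ 4 * 2 l ^ (k - h)`.
-/

set_option autoImplicit false

namespace Pool.Agent.PP5C

open Finset Pool.Agent.PPS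

private theorem lcp_dvd {n : ℕ} {c : Matrix (Fin 4) (Fin 4) ℤ} (h : Cn n c) (m : Fin 4 → ℤ) :
    (n : ℤ) ∣ qf c m := by
  have e : qf c m = c 0 0 * (m 0 * m 0) + c 1 1 * (m 1 * m 1) + c 2 2 * (m 2 * m 2) +
      c 3 3 * (m 3 * m 3) + (c 0 1 + c 1 0) * (m 0 * m 1) + (c 0 2 + c 2 0) * (m 0 * m 2) +
      (c 0 3 + c 3 0) * (m 0 * m 3) + (c 1 2 + c 2 1) * (m 1 * m 2) +
      (c 1 3 + c 3 1) * (m 1 * m 3) + (c 2 3 + c 3 2) * (m 2 * m 3) := by
    simp only [qf, Fin.sum_univ_four]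
    ring
  rw [e]
  obtain ⟨h1, h2⟩ := h
  refine dvd_add (dvd_add (dvd_add (dvd_add (dvd_add (dvd_add (dvd_add (dvd_add (dvd_add
    ((h1 0).mul_right _) ((h1 1).mul_right _)) ((h1 2).mul_right _)) ((h1 3).mul_right _))
    ((h2 0 1 (by decide)).mul_right _)) ((h2 0 2 (by decide)).mul_right _))
    ((h2 0 3 (by decide)).mul_right _)) ((h2 1 2 (by decide)).mul_right _))
    ((h2 1 3 (by decide)).mul_right _)) ((h2 2 3 (by decide)).mul_right _)

private theorem lcp_add (c : Matrix (Fin 4) (Fin 4) ℤ) (m d : Fin 4 → ℤ) (t : ℤ) :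
    qf c (fun i => m i + t * d i) = qf c m + (∑ i, ∑ j, c i j * (m i * d j + d i * m j)) * t +
      qf c d * t ^ 2 := by
  simp only [qf, Finset.sum_mul, ← Finset.sum_add_distrib]
  refine Finset.sum_congr rfl fun i _ => Finset.sum_congr rfl fun j _ => ?_
  ring

private theorem lcp_dir {n : ℕ} {c : Matrix (Fin 4) (Fin 4) ℤ} (h : ¬ Cn n c) :
    ∃ d : Fin 4 → ℤ, ¬ (n : ℤ) ∣ qf c d := by
  by_contra hne
  push Not at hne
  apply h
  have h1 : ∀ i, (n : ℤ) ∣ c i i := by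
    intro i
    have := hne (Pi.single i 1)
    have e : qf c (Pi.single i 1) = c i i := by
      simp [qf, Pi.single_apply]
    rwa [e] at this
  refine ⟨h1, ?_⟩
  intro i j hij
  have h3 := hne (fun k => (Pi.single i 1 : Fin 4 → ℤ) k + 1 * (Pi.single j 1 : Fin 4 → ℤ) k)
  rw [lcp_add] at h3
  have e1 : qf c (Pi.single i 1) = c i i := by
    simp [qf, Pi.single_apply]
  have e2 : qf c (Pi.single j 1) = c j j := by
    simp [qf, Pi.single_apply]
  have e3 : (∑ a, ∑ b, c a b * ((Pi.single i 1 : Fin 4 → ℤ) a * (Pi.single j 1 : Fin 4 → ℤ) b +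
      (Pi.single j 1 : Fin 4 → ℤ) a * (Pi.single i 1 : Fin 4 → ℤ) b)) = c i j + c j i := by
    simp [Pi.single_apply, mul_add, Finset.sum_add_distrib]
  rw [e1, e2, e3] at h3
  have h4 : (n : ℤ) ∣ c i i + (c i j + c j i) * 1 + c j j * 1 ^ 2 - c i i - c j j :=
    dvd_sub (dvd_sub h3 (h1 i)) (h1 j)
  have e4 : c i i + (c i j + c j i) * 1 + c j j * 1 ^ 2 - c i i - c j j = c i j + c j i := by ring
  rwa [e4] at h4

private theorem lcp_cls (q r : ℕ) (hq : 0 < q) (A : Finset ℤ)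
    (hA : ∀ t ∈ A, 0 ≤ t ∧ t < ((q * r : ℕ) : ℤ)) (hd : ∀ t ∈ A, ∀ t' ∈ A, (q : ℤ) ∣ t - t') :
    A.card ≤ r := by
  have hqz : (0 : ℤ) < q := by exact_mod_cast hq
  have h1 : A.card ≤ (Finset.Ico (0 : ℤ) (r : ℤ)).card := by
    apply Finset.card_le_card_of_injOn (fun t => t / (q : ℤ))
    · intro t ht
      have h := hA t ht
      simp only [Finset.coe_Ico, Set.mem_Ico]
      refine ⟨Int.ediv_nonneg h.1 hqz.le, ?_⟩
      apply Int.ediv_lt_of_lt_mul hqz
      have h2 := h.2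
      push_cast at h2
      linarith [mul_comm (q : ℤ) (r : ℤ)]
    · intro t ht t' ht' h
      have h2 : t / (q : ℤ) = t' / (q : ℤ) := h
      have h3 : t % (q : ℤ) = t' % (q : ℤ) := Int.modEq_iff_dvd.mpr (hd t' ht' t ht)
      rw [← Int.mul_ediv_add_emod t q, ← Int.mul_ediv_add_emod t' q, h2, h3]
  rwa [Int.card_Ico, sub_zero, Int.toNat_natCast] at h1

private theorem lcp_split {l : ℕ} (hl : l.Prime) (K h : ℕ) (hh : 2 * h ≤ K + 1) (a b : ℤ)
    (hab : ((l : ℤ) ^ K) ∣ a * b) : (l : ℤ) ^ h ∣ a ∨ (l : ℤ) ^ h ∣ b := by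
  have hp : Prime (l : ℤ) := Nat.prime_iff_prime_int.mp hl
  by_contra hcon
  push Not at hcon
  obtain ⟨ha, hb⟩ := hcon
  have ha0 : a ≠ 0 := by rintro rfl; exact ha (dvd_zero _)
  have hb0 : b ≠ 0 := by rintro rfl; exact hb (dvd_zero _)
  have fa : FiniteMultiplicity (l : ℤ) a :=
    FiniteMultiplicity.of_prime_left hp ha0
  have fb : FiniteMultiplicity (l : ℤ) b :=
    FiniteMultiplicity.of_prime_left hp hb0
  obtain ⟨a', ea, na⟩ := fa.exists_eq_pow_mul_and_not_dvd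
  obtain ⟨b', eb, nb⟩ := fb.exists_eq_pow_mul_and_not_dvd
  set i := multiplicity (l : ℤ) a with hi
  set j := multiplicity (l : ℤ) b with hj
  have hih : i < h := by
    by_contra hc
    apply ha
    rw [ea]
    exact (pow_dvd_pow _ (by omega)).mul_right _
  have hjh : j < h := by
    by_contra hc
    apply hb
    rw [eb]
    exact (pow_dvd_pow _ (by omega)).mul_right _
  have h1 : (l : ℤ) ^ (i + j) * (l : ℤ) ∣ (l : ℤ) ^ (i + j) * (a' * b') := by
    have h2 : (l : ℤ) ^ (i + j) * (l : ℤ) ∣ (l : ℤ) ^ K := by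
      rw [← pow_succ]
      exact pow_dvd_pow _ (by omega)
    refine h2.trans ?_
    have e : (l : ℤ) ^ (i + j) * (a' * b') = a * b := by
      rw [ea, eb, pow_add]
      ring
    rw [e]
    exact hab
  have h3 : (l : ℤ) ∣ a' * b' :=
    (mul_dvd_mul_iff_left (pow_ne_zero _ hp.ne_zero)).mp h1
  rcases hp.dvd_or_dvd h3 with h4 | h4
  · exact na h4
  · exact nb h4

open Classical in
private theorem lcp_quad {l : ℕ} (hl : l.Prime) (k v : ℕ) (hkv : v < k) (α β γ : ℤ)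
    (hα : ((l : ℤ) ^ v) ∣ α) (hβ : ((l : ℤ) ^ v) ∣ β) (hγ : ((l : ℤ) ^ v) ∣ γ)
    (hγ' : ¬ ((l : ℤ) ^ (v + 1)) ∣ γ) :
    ((Finset.Ico (0 : ℤ) ((l ^ k : ℕ) : ℤ)).filter
      (fun t => ((l ^ k : ℕ) : ℤ) ∣ α + β * t + γ * t ^ 2)).card ≤
      2 * l ^ (k - (k - v + 1) / 2) := by
  have hp : Prime (l : ℤ) := Nat.prime_iff_prime_int.mp hl
  have hl0 : (l : ℤ) ^ v ≠ 0 := pow_ne_zero _ hp.ne_zero
  obtain ⟨α', rfl⟩ := hα
  obtain ⟨β', rfl⟩ := hβ
  obtain ⟨u, rfl⟩ := hγ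
  have hu : ¬ (l : ℤ) ∣ u := by
    intro h
    apply hγ'
    rw [pow_succ]
    exact mul_dvd_mul_left _ h
  set K := k - v with hK
  set h := (K + 1) / 2 with hh
  set A := (Finset.Ico (0 : ℤ) ((l ^ k : ℕ) : ℤ)).filter
      (fun t => ((l ^ k : ℕ) : ℤ) ∣ (l : ℤ) ^ v * α' + (l : ℤ) ^ v * β' * t + (l : ℤ) ^ v * u * t ^ 2)
    with hA
  have hsol : ∀ t ∈ A, (l : ℤ) ^ K ∣ α' + β' * t + u * t ^ 2 := by
    intro t ht
    have h1 := (Finset.mem_filter.mp ht).2
    have e : (l : ℤ) ^ v * α' + (l : ℤ) ^ v * β' * t + (l : ℤ) ^ v * u * t ^ 2 =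
        (l : ℤ) ^ v * (α' + β' * t + u * t ^ 2) := by ring
    have e2 : ((l ^ k : ℕ) : ℤ) = (l : ℤ) ^ v * (l : ℤ) ^ K := by
      push_cast
      rw [← pow_add]
      congr 1
      omega
    rw [e, e2] at h1
    exact (mul_dvd_mul_iff_left hl0).mp h1
  rcases A.eq_empty_or_nonempty with hAe | ⟨t0, ht0⟩
  · rw [hAe]
    simp
  have hcase : ∀ t ∈ A, (l : ℤ) ^ h ∣ t - t0 ∨ (l : ℤ) ^ h ∣ β' + 2 * u * t0 + u * (t - t0) := by
    intro t ht
    apply lcp_split hl K h (by omega)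
    have h1 := dvd_sub (hsol t ht) (hsol t0 ht0)
    have e : α' + β' * t + u * t ^ 2 - (α' + β' * t0 + u * t0 ^ 2) =
        (t - t0) * (β' + 2 * u * t0 + u * (t - t0)) := by ring
    rwa [e] at h1
  have hN : ((l ^ k : ℕ)) = l ^ h * l ^ (k - h) := by
    rw [← pow_add]
    congr 1
    omega
  set A1 := A.filter (fun t => (l : ℤ) ^ h ∣ t - t0) with hA1
  set A2 := A.filter (fun t => ¬ (l : ℤ) ^ h ∣ t - t0) with hA2
  have hc : A1.card + A2.card = A.card := Finset.card_filter_add_card_filter_not _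
  have hrange : ∀ t ∈ A, 0 ≤ t ∧ t < ((l ^ h * l ^ (k - h) : ℕ) : ℤ) := by
    intro t ht
    have h1 := Finset.mem_Ico.mp (Finset.mem_filter.mp ht).1
    rw [← hN]
    exact h1
  have hlh : 0 < l ^ h := pow_pos hl.pos _
  have b1 : A1.card ≤ l ^ (k - h) := by
    apply lcp_cls (l ^ h) (l ^ (k - h)) hlh
    · intro t ht
      exact hrange t (Finset.mem_filter.mp ht).1
    · intro t ht t' ht'
      have h1 := (Finset.mem_filter.mp ht).2
      have h2 := (Finset.mem_filter.mp ht').2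
      have e : t - t' = (t - t0) - (t' - t0) := by ring
      rw [e]
      push_cast
      exact dvd_sub h1 h2
  have b2 : A2.card ≤ l ^ (k - h) := by
    apply lcp_cls (l ^ h) (l ^ (k - h)) hlh
    · intro t ht
      exact hrange t (Finset.mem_filter.mp ht).1
    · intro t ht t' ht'
      have h1 := (Finset.mem_filter.mp ht)
      have h2 := (Finset.mem_filter.mp ht')
      have h3 := (hcase t h1.1).resolve_left h1.2
      have h4 := (hcase t' h2.1).resolve_left h2.2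
      have h5 := dvd_sub h3 h4
      have e : β' + 2 * u * t0 + u * (t - t0) - (β' + 2 * u * t0 + u * (t' - t0)) =
          u * (t - t') := by ring
      rw [e] at h5
      have hco : IsCoprime ((l : ℤ) ^ h) u :=
        IsCoprime.pow_left ((hp.coprime_iff_not_dvd).mpr hu)
      push_cast
      exact hco.dvd_of_dvd_mul_left h5
  calc A.card = A1.card + A2.card := hc.symm
    _ ≤ l ^ (k - h) + l ^ (k - h) := Nat.add_le_add b1 b2
    _ = 2 * l ^ (k - h) := by ring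

open Classical in
private theorem lcp_shift (n : ℕ) (hn : 0 < n) (P : (Fin 4 → ℤ) → Prop) (hP : Per n P)
    (e : Fin 4 → ℤ) :
    ((cub (Fin 4) n).filter P).card ≤
      ((cub (Fin 4) n).filter (fun m => P (fun i => m i + e i))).card := by
  have hnz : (0 : ℤ) < n := by exact_mod_cast hn
  apply Finset.card_le_card_of_injOn (fun m i => (m i - e i) % (n : ℤ))
  · intro m hm
    rw [Finset.mem_coe, Finset.mem_filter] at hm
    rw [Finset.mem_coe, Finset.mem_filter]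
    refine ⟨?_, ?_⟩
    · rw [cub, Fintype.mem_piFinset]
      intro i
      rw [Finset.mem_Ico]
      exact ⟨Int.emod_nonneg _ hnz.ne', Int.emod_lt_of_pos _ hnz⟩
    · refine hP m _ ?_ hm.2
      intro i
      have h1 : (n : ℤ) ∣ (m i - e i) - (m i - e i) % (n : ℤ) := Int.dvd_self_sub_emod
      have e1 : m i - ((m i - e i) % (n : ℤ) + e i) = (m i - e i) - (m i - e i) % (n : ℤ) := by ring
      show (n : ℤ) ∣ m i - ((m i - e i) % (n : ℤ) + e i)
      rw [e1]
      exact h1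
  · intro m hm m' hm' h
    rw [Finset.mem_coe, Finset.mem_filter, cub, Fintype.mem_piFinset] at hm hm'
    funext i
    have h1 : (m i - e i) % (n : ℤ) = (m' i - e i) % (n : ℤ) := congrFun h i
    have h2 : (n : ℤ) ∣ (m i - e i) - (m' i - e i) := Int.ModEq.dvd (Int.ModEq.symm h1)
    have e1 : (m i - e i) - (m' i - e i) = m i - m' i := by ring
    rw [e1] at h2
    have h3 := Finset.mem_Ico.mp (hm.1 i)
    have h4 := Finset.mem_Ico.mp (hm'.1 i)
    have h5 : m i - m' i = 0 := by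
      apply Int.eq_zero_of_abs_lt_dvd h2
      rw [abs_lt]
      constructor <;> linarith [h3.1, h3.2, h4.1, h4.2]
    linarith

private theorem lcp_card (n : ℕ) : (cub (Fin 4) n).card = n ^ 4 := by
  rw [cub, Fintype.card_piFinset]
  simp [Int.card_Ico]

private theorem lcp_per (n : ℕ) (c : Matrix (Fin 4) (Fin 4) ℤ) :
    Per n (fun m => ((n : ℕ) : ℤ) ∣ qf c m) := by
  intro x y hxy hx
  have e : qf c y = qf c x - ∑ i, ∑ j, c i j * ((x i - y i) * x j + y i * (x j - y j)) := by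
    simp only [qf, ← Finset.sum_sub_distrib]
    refine Finset.sum_congr rfl fun i _ => Finset.sum_congr rfl fun j _ => ?_
    ring
  show (n : ℤ) ∣ qf c y
  rw [e]
  refine dvd_sub hx ?_
  refine Finset.dvd_sum fun i _ => Finset.dvd_sum fun j _ => ?_
  exact (dvd_add ((hxy i).mul_right _) ((hxy j).mul_left _)).mul_left _

open Classical in
private theorem lcp_main {l : ℕ} (hl : l.Prime) (k v : ℕ) (hkv : v < k)
    (c : Matrix (Fin 4) (Fin 4) ℤ) (hc : Cn (l ^ v) c) (hv : ¬ Cn (l ^ (v + 1)) c) :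
    l ^ k * nn (Fin 4) (l ^ k) (fun m => ((l ^ k : ℕ) : ℤ) ∣ qf c m) ≤
      (l ^ k) ^ 4 * (2 * l ^ (k - (k - v + 1) / 2)) := by
  obtain ⟨d, hd⟩ := lcp_dir hv
  have hn : 0 < l ^ k := pow_pos hl.pos _
  have hdv : ∀ m, (l : ℤ) ^ v ∣ qf c m := by
    intro m
    have := lcp_dvd hc m
    push_cast at this
    exact this
  have hlhs : l ^ k * nn (Fin 4) (l ^ k) (fun m => ((l ^ k : ℕ) : ℤ) ∣ qf c m) ≤
      ∑ t ∈ Finset.Ico (0 : ℤ) ((l ^ k : ℕ) : ℤ), ((cub (Fin 4) (l ^ k)).filter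
        (fun m => ((l ^ k : ℕ) : ℤ) ∣ qf c (fun i => m i + t * d i))).card := by
    have h1 : ∀ t ∈ Finset.Ico (0 : ℤ) ((l ^ k : ℕ) : ℤ),
        nn (Fin 4) (l ^ k) (fun m => ((l ^ k : ℕ) : ℤ) ∣ qf c m) ≤
        ((cub (Fin 4) (l ^ k)).filter
          (fun m => ((l ^ k : ℕ) : ℤ) ∣ qf c (fun i => m i + t * d i))).card := by
      intro t _
      have := lcp_shift (l ^ k) hn (fun m => ((l ^ k : ℕ) : ℤ) ∣ qf c m) (lcp_per _ c)
        (fun i => t * d i)
      unfold nn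
      convert this
    have h2 := Finset.card_nsmul_le_sum _ _ _ h1
    rw [Int.card_Ico, sub_zero, Int.toNat_natCast, smul_eq_mul] at h2
    exact h2
  refine hlhs.trans ?_
  have hswap : ∑ t ∈ Finset.Ico (0 : ℤ) ((l ^ k : ℕ) : ℤ), ((cub (Fin 4) (l ^ k)).filter
        (fun m => ((l ^ k : ℕ) : ℤ) ∣ qf c (fun i => m i + t * d i))).card =
      ∑ m ∈ cub (Fin 4) (l ^ k), ((Finset.Ico (0 : ℤ) ((l ^ k : ℕ) : ℤ)).filter
        (fun t => ((l ^ k : ℕ) : ℤ) ∣ qf c (fun i => m i + t * d i))).card := by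
    simp only [Finset.card_filter]
    exact Finset.sum_comm
  rw [hswap]
  have h3 : ∀ m ∈ cub (Fin 4) (l ^ k), ((Finset.Ico (0 : ℤ) ((l ^ k : ℕ) : ℤ)).filter
        (fun t => ((l ^ k : ℕ) : ℤ) ∣ qf c (fun i => m i + t * d i))).card ≤
        2 * l ^ (k - (k - v + 1) / 2) := by
    intro m _
    have hβ : (l : ℤ) ^ v ∣ ∑ i, ∑ j, c i j * (m i * d j + d i * m j) := by
      have h4 := lcp_add c m d 1
      have h5 : (∑ i, ∑ j, c i j * (m i * d j + d i * m j)) =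
          qf c (fun i => m i + 1 * d i) - qf c m - qf c d := by
        rw [h4]
        ring
      rw [h5]
      exact dvd_sub (dvd_sub (hdv _) (hdv _)) (hdv _)
    have h6 := lcp_quad hl k v hkv (qf c m) (∑ i, ∑ j, c i j * (m i * d j + d i * m j)) (qf c d)
      (hdv m) hβ (hdv d) (by
        intro h
        apply hd
        push_cast
        exact h)
    simp only [lcp_add]
    exact h6
  have h7 := Finset.sum_le_card_nsmul _ _ _ h3
  rw [lcp_card, smul_eq_mul] at h7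
  exact h7

theorem lcp {l : ℕ} (hl : l.Prime) (k v : ℕ) (c : Matrix (Fin 4) (Fin 4) ℤ)
    (hv : ¬ Cn (l ^ (v + 1)) c) :
    (nn (Fin 4) (l ^ k) (fun m => ((l ^ k : ℕ) : ℤ) ∣ qf c m) : ℝ) ≤
      2 / (l : ℝ) ^ ((k - v + 1) / 2) * ((l ^ k : ℕ) : ℝ) ^ 4 := by
  classical
  have hl0 : (0 : ℝ) < (l : ℝ) := by exact_mod_cast hl.pos
  have hl1 : (1 : ℝ) ≤ (l : ℝ) := by exact_mod_cast hl.one_lt.le
  rcases Nat.lt_or_ge v k with hkv | hkv
  · obtain ⟨w, hw1, hw2, hw3⟩ : ∃ w, w ≤ v ∧ Cn (l ^ w) c ∧ ¬ Cn (l ^ (w + 1)) c := by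
      have hex : ∃ w, ¬ Cn (l ^ (w + 1)) c := ⟨v, hv⟩
      refine ⟨Nat.find hex, Nat.find_le hv, ?_, Nat.find_spec hex⟩
      rcases Nat.eq_zero_or_pos (Nat.find hex) with h0 | h0
      · rw [h0, pow_zero]
        exact ⟨fun i => by simp, fun i j _ => by simp⟩
      · have h1 := Nat.find_min hex (m := Nat.find hex - 1) (by omega)
        rw [not_not] at h1
        have e : Nat.find hex - 1 + 1 = Nat.find hex := by omega
        rwa [e] at h1
    have hmain := lcp_main hl k w (by omega) c hw2 hw3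
    set N := nn (Fin 4) (l ^ k) (fun m => ((l ^ k : ℕ) : ℤ) ∣ qf c m) with hN
    set h := (k - w + 1) / 2 with hh
    have hsp : (l : ℝ) ^ k = (l : ℝ) ^ h * (l : ℝ) ^ (k - h) := by
      rw [← pow_add]
      congr 1
      omega
    have h1 : (l : ℝ) ^ k * (N : ℝ) ≤ ((l : ℝ) ^ k) ^ 4 * (2 * (l : ℝ) ^ (k - h)) := by
      exact_mod_cast hmain
    have hp1 : (0 : ℝ) < (l : ℝ) ^ (k - h) := by positivity
    have hp2 : (0 : ℝ) < (l : ℝ) ^ h := by positivity
    have h2 : (l : ℝ) ^ h * (N : ℝ) ≤ ((l : ℝ) ^ k) ^ 4 * 2 := by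
      have e : (l : ℝ) ^ k * (N : ℝ) = (l : ℝ) ^ (k - h) * ((l : ℝ) ^ h * (N : ℝ)) := by
        rw [hsp]
        ring
      have e2 : ((l : ℝ) ^ k) ^ 4 * (2 * (l : ℝ) ^ (k - h)) =
          (l : ℝ) ^ (k - h) * (((l : ℝ) ^ k) ^ 4 * 2) := by ring
      rw [e, e2] at h1
      exact le_of_mul_le_mul_left h1 hp1
    have h3 : (N : ℝ) ≤ 2 / (l : ℝ) ^ h * ((l : ℝ) ^ k) ^ 4 := by
      rw [div_mul_eq_mul_div, le_div_iff₀ hp2]
      linarith
    refine h3.trans ?_
    push_cast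
    apply mul_le_mul_of_nonneg_right _ (by positivity)
    apply div_le_div_of_nonneg_left (by norm_num) (by positivity)
    exact pow_le_pow_right₀ hl1 (by omega)
  · have h0 : (k - v + 1) / 2 = 0 := by omega
    rw [h0, pow_zero, div_one]
    have h1 : nn (Fin 4) (l ^ k) (fun m => ((l ^ k : ℕ) : ℤ) ∣ qf c m) ≤ (l ^ k) ^ 4 := by
      rw [← lcp_card]
      unfold nn
      apply Finset.card_le_card
      intro x hx
      simp only [Finset.mem_filter] at hx
      exact hx.1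
    have h2 : (nn (Fin 4) (l ^ k) (fun m => ((l ^ k : ℕ) : ℤ) ∣ qf c m) : ℝ) ≤
        ((l ^ k : ℕ) : ℝ) ^ 4 := by exact_mod_cast h1
    have h3 : (0 : ℝ) ≤ ((l ^ k : ℕ) : ℝ) ^ 4 := by positivity
    linarith

end Pool.Agent.PP5C
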