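import Pool.Agent.PP5C.Crt
import Pool.Agent.PP5C.LcP
import Pool.Agent.PP5C.LcH

/-!
# ClB: number of classes modulo `b` with `b ∣ qf c m` (difficulty 3)

`b ∣ qf c m` iff `l ^ e ∣ qf c m` for all `l ∈ b.primeFactors`, `e = b.factorization l`.  `nn_prod` with
`P l m = (l ^ e ∣ qf c m ∧ Pv l m)` (periodic modulo `l ^ e`, `e ≥ 1`).  It remains
`nn (Fin 4) (l ^ e) (P l) ≤ pk D v l e * (l ^ e) ^ 4` and `∏ (l ^ e) ^ 4 = b ^ 4`:
* `l ∣ D`: `lcp` with `v l` (drop `Pv`).
* `l ∤ D` (so `l ≠ 2` because `2 ∣ D`), `e ≥ 2`: both bounds of the minimum: `2 / l ^ ((e + 1) / 2)`: `lcp` with `v = 0`: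
  `¬ Cn l c` because `Cn l c` would give `l ∣ (c + cᵀ) i j` for all `i, j` (`2 c i i` on the diagonal), so
  `l ∣ det`.  `2 / l²`: `l ^ e ∣ qf` implies `l² ∣ qf`, the property `Pv l m ∧ l² ∣ qf c m` is `Per (l²)` and every
  class modulo `l²` contains `(l ^ (e - 2)) ^ 4` classes modulo `l ^ e` (map `m ↦ m % l²` of
  `cub (l ^ e)` to `cub (l²)`), `lch`.
-/

set_option autoImplicit false

namespace Pool.Agent.PP5C

open Finset Pool.Agent.PPS

private theorem bdv {b : ℕ} (hb : b ≠ 0) (q : ℤ) :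
    (b : ℤ) ∣ q ↔ ∀ l ∈ b.primeFactors, ((l ^ b.factorization l : ℕ) : ℤ) ∣ q := by
  constructor
  · intro h l _
    exact dvd_trans (Int.natCast_dvd_natCast.2 (Nat.ordProj_dvd b l)) h
  · intro h
    rw [Int.natCast_dvd, Nat.dvd_iff_prime_pow_dvd_dvd]
    intro p k hp hpk
    rcases Nat.eq_zero_or_pos k with hk | hk
    · rw [hk, pow_zero]
      exact one_dvd _
    · have hpb : p ∣ b := dvd_trans (dvd_pow_self p (by omega)) hpk
      have h1 := h p (Nat.mem_primeFactors.2 ⟨hp, hpb, hb⟩)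
      rw [Int.natCast_dvd] at h1
      have h2 : k ≤ b.factorization p := (hp.pow_dvd_iff_le_factorization hb).1 hpk
      exact dvd_trans (pow_dvd_pow p h2) h1

private theorem qcg (c : Matrix (Fin 4) (Fin 4) ℤ) (n : ℕ) (x y : Fin 4 → ℤ) (h : Cg n x y) :
    (n : ℤ) ∣ qf c x - qf c y := by
  unfold qf
  rw [← Finset.sum_sub_distrib]
  refine Finset.dvd_sum fun i _ => ?_
  rw [← Finset.sum_sub_distrib]
  refine Finset.dvd_sum fun j _ => ?_
  have e : c i j * x i * x j - c i j * y i * y j =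
      c i j * x j * (x i - y i) + c i j * y i * (x j - y j) := by ring
  rw [e]
  exact dvd_add (Dvd.dvd.mul_left (h i) _) (Dvd.dvd.mul_left (h j) _)

private theorem pvc {l n : ℕ} (hln : l ∣ n) (x y : Fin 4 → ℤ) (h : Cg n x y) (hx : Pv l x) :
    Pv l y := by
  obtain ⟨i, hi⟩ := hx
  refine ⟨i, fun hy => hi ?_⟩
  have h1 : (l : ℤ) ∣ x i - y i := dvd_trans (Int.natCast_dvd_natCast.2 hln) (h i)
  have h2 := dvd_add h1 hy
  simpa using h2

private theorem nnm (n : ℕ) (P Q : (Fin 4 → ℤ) → Prop) (h : ∀ x, P x → Q x) :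
    nn (Fin 4) n P ≤ nn (Fin 4) n Q := by
  classical
  unfold nn
  apply Finset.card_le_card
  intro x hx
  rw [Finset.mem_filter] at hx ⊢
  exact ⟨hx.1, h x hx.2⟩

private theorem ccub (n : ℕ) : (cub (Fin 4) n).card = n ^ 4 := by
  unfold cub
  rw [Fintype.card_piFinset]
  simp

private theorem mcub {n : ℕ} {x : Fin 4 → ℤ} : x ∈ cub (Fin 4) n ↔ ∀ i, 0 ≤ x i ∧ x i < n := by
  unfold cub
  simp only [Fintype.mem_piFinset, Finset.mem_Ico]

private theorem lft (a b : ℕ) (ha : 0 < a) (P : (Fin 4 → ℤ) → Prop) (hP : Per a P) :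
    nn (Fin 4) (b * a) P ≤ b ^ 4 * nn (Fin 4) a P := by
  classical
  unfold nn
  have haz : (0 : ℤ) < a := by exact_mod_cast ha
  refine Finset.card_le_mul_card_image_of_maps_to (f := fun x i => x i % (a : ℤ)) ?_ (b ^ 4) ?_
  · intro x hx
    rw [Finset.mem_filter] at hx ⊢
    refine ⟨mcub.2 fun i => ⟨Int.emod_nonneg _ haz.ne', Int.emod_lt_of_pos _ haz⟩, ?_⟩
    refine hP x _ ?_ hx.2
    intro i
    show (a : ℤ) ∣ x i - x i % (a : ℤ)
    exact ⟨x i / a, by have := Int.emod_add_mul_ediv (x i) a; linarith⟩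
  · intro y _
    rw [← ccub b]
    refine Finset.card_le_card_of_injOn (fun x i => x i / (a : ℤ)) ?_ ?_
    · intro x hx
      rw [Finset.mem_coe, Finset.mem_filter, Finset.mem_filter] at hx
      have h1 := mcub.1 hx.1.1
      rw [Finset.mem_coe, mcub]
      intro i
      refine ⟨Int.ediv_nonneg (h1 i).1 haz.le, ?_⟩
      apply Int.ediv_lt_of_lt_mul haz
      have := (h1 i).2
      push_cast at this
      exact this
    · intro x hx x' hx' hxx
      rw [Finset.mem_coe, Finset.mem_filter] at hx hx'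
      funext i
      have h1 : x i / (a : ℤ) = x' i / (a : ℤ) := congrFun hxx i
      have h2 : x i % (a : ℤ) = x' i % (a : ℤ) := by
        have e1 := congrFun hx.2 i
        have e2 := congrFun hx'.2 i
        exact e1.trans e2.symm
      rw [← Int.emod_add_mul_ediv (x i) a, ← Int.emod_add_mul_ediv (x' i) a, h1, h2]

private theorem dcn {l : ℕ} (c : Matrix (Fin 4) (Fin 4) ℤ) (h : Cn l c) :
    (l : ℤ) ∣ (c + c.transpose).det := by
  have h1 : ∀ i j, (l : ℤ) ∣ (c + c.transpose) i j := by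
    intro i j
    rw [Matrix.add_apply, Matrix.transpose_apply]
    by_cases hij : i = j
    · subst hij
      exact dvd_add (h.1 i) (h.1 i)
    · exact h.2 i j hij
  choose A hA using h1
  have h2 : c + c.transpose = (l : ℤ) • Matrix.of A := by
    ext i j
    rw [hA i j]
    rfl
  rw [h2, Matrix.det_smul]
  exact Dvd.dvd.mul_right (dvd_pow_self _ (by simp)) _

theorem clb {c : Matrix (Fin 4) (Fin 4) ℤ} {D : ℕ} {v : ℕ → ℕ} (hF : Frm c D v) (z : ℝ) {b : ℕ}
    (hb : b ≠ 0) (hB : BB z D b) :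
    (nn (Fin 4) b (fun m => (b : ℤ) ∣ qf c m ∧ ∀ l ∈ b.primeFactors, Pv l m) : ℝ) ≤
      (b : ℝ) ^ 4 * ∏ l ∈ b.primeFactors, pk D v l (b.factorization l) := by
  classical
  let P : ℕ → (Fin 4 → ℤ) → Prop :=
    fun l m => ((l ^ b.factorization l : ℕ) : ℤ) ∣ qf c m ∧ Pv l m
  have h1 : (fun m => (b : ℤ) ∣ qf c m ∧ ∀ l ∈ b.primeFactors, Pv l m) =
      fun m => ∀ l ∈ b.primeFactors, P l m := by
    funext m
    apply propext
    rw [bdv hb]
    constructor
    · rintro ⟨h1, h2⟩ l hl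
      exact ⟨h1 l hl, h2 l hl⟩
    · intro h
      exact ⟨fun l hl => (h l hl).1, fun l hl => (h l hl).2⟩
  have hP : ∀ l ∈ b.primeFactors, Per (l ^ b.factorization l) (P l) := by
    intro l hl x y hxy hx
    have hlp := (Nat.mem_primeFactors.1 hl).1
    have hlb := (Nat.mem_primeFactors.1 hl).2.1
    have he : 1 ≤ b.factorization l := (hlp.dvd_iff_one_le_factorization hb).1 hlb
    refine ⟨?_, pvc (dvd_pow_self l (by omega)) x y hxy hx.2⟩
    have h2 := qcg c _ x y hxy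
    have h3 := dvd_sub hx.1 h2
    simpa using h3
  rw [h1, nn_prod b hb P hP]
  push_cast
  have hloc : ∀ l ∈ b.primeFactors, (nn (Fin 4) (l ^ b.factorization l) (P l) : ℝ) ≤
      pk D v l (b.factorization l) * ((l ^ b.factorization l : ℕ) : ℝ) ^ 4 := by
    intro l hl
    have hlp := (Nat.mem_primeFactors.1 hl).1
    have hlb := (Nat.mem_primeFactors.1 hl).2.1
    set e := b.factorization l with hedef
    have he : 1 ≤ e := (hlp.dvd_iff_one_le_factorization hb).1 hlb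
    have hA : ∀ v' : ℕ, ¬ Cn (l ^ (v' + 1)) c → (nn (Fin 4) (l ^ e) (P l) : ℝ) ≤
        2 / (l : ℝ) ^ ((e - v' + 1) / 2) * ((l ^ e : ℕ) : ℝ) ^ 4 := by
      intro v' hv'
      refine le_trans ?_ (lcp hlp e v' c hv')
      exact_mod_cast nnm (l ^ e) (P l) (fun m => ((l ^ e : ℕ) : ℤ) ∣ qf c m) (fun x hx => hx.1)
    unfold pk
    split_ifs with hlD
    · exact hA (v l) (hF.con l hlp)
    · have he2 : 2 ≤ e := (hB l hl).2 hlD
      have hdet := hF.det l hlp hlD
      have hl2 : l ≠ 2 := by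
        rintro rfl
        exact hlD hF.two
      have hlR : (0 : ℝ) < l := by exact_mod_cast hlp.pos
      rw [min_mul_of_nonneg _ _ (by positivity)]
      refine le_min ?_ ?_
      · have h2 : l ^ e = l ^ (e - 2) * l ^ 2 := by
          rw [← pow_add]
          congr 1
          omega
        let Q : (Fin 4 → ℤ) → Prop := fun m => Pv l m ∧ ((l ^ 2 : ℕ) : ℤ) ∣ qf c m
        have hQ : Per (l ^ 2) Q := by
          intro x y hxy hx
          refine ⟨pvc (dvd_pow_self l (by omega)) x y hxy hx.1, ?_⟩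
          have h2 := qcg c _ x y hxy
          have h3 := dvd_sub hx.2 h2
          simpa using h3
        have h3 : nn (Fin 4) (l ^ e) (P l) ≤ nn (Fin 4) (l ^ (e - 2) * l ^ 2) Q := by
          rw [← h2]
          refine nnm _ _ _ ?_
          intro x hx
          refine ⟨hx.2, dvd_trans ?_ hx.1⟩
          exact Int.natCast_dvd_natCast.2 (pow_dvd_pow l he2)
        have h4 := h3.trans (lft (l ^ 2) (l ^ (e - 2)) (pow_pos hlp.pos 2) Q hQ)
        have h5 : (nn (Fin 4) (l ^ 2) Q : ℝ) ≤ 2 * (l : ℝ) ^ 6 := lch hlp hl2 c hdet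
        have h6 : (nn (Fin 4) (l ^ e) (P l) : ℝ) ≤
            ((l ^ (e - 2) : ℕ) : ℝ) ^ 4 * (nn (Fin 4) (l ^ 2) Q : ℝ) := by exact_mod_cast h4
        have h7 : ((l ^ (e - 2) : ℕ) : ℝ) ^ 4 * (nn (Fin 4) (l ^ 2) Q : ℝ) ≤
            ((l ^ (e - 2) : ℕ) : ℝ) ^ 4 * (2 * (l : ℝ) ^ 6) :=
          mul_le_mul_of_nonneg_left h5 (by positivity)
        have h8 : ((l ^ (e - 2) : ℕ) : ℝ) ^ 4 * (2 * (l : ℝ) ^ 6) =
            2 / (l : ℝ) ^ 2 * ((l ^ e : ℕ) : ℝ) ^ 4 := by
          rw [h2]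
          push_cast
          field_simp
        linarith
      · have h2 := hA 0 (by
          rw [Nat.zero_add, pow_one]
          exact fun h => hdet (dcn c h))
        rwa [Nat.sub_zero] at h2
  refine (Finset.prod_le_prod (fun l _ => by positivity) hloc).trans (le_of_eq ?_)
  rw [Finset.prod_mul_distrib, Finset.prod_pow, mul_comm]
  congr 2
  rw [← Nat.cast_prod]
  congr 1
  exact Nat.prod_factorization_pow_eq_self hb

end Pool.Agent.PP5C
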