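import Pool.Agent.PP5C.Defs

/-!
# Crt: Chinese remainder theorem for sums over classes (difficulty 4)

* `crt_mul`: the map `x ↦ (x % m, x % n)` (coordinatewise) is a bijection `cub (m * n) → cub m × cub n`
  (`Int.emod` values; inverse from `Nat.chineseRemainder` / `Int.ModEq`; or `Finset.sum_nbij'`; injectivity
  (`m ∣ t`, `n ∣ t`, coprime, so `m n ∣ t`, and `|t| < m n`) plus equality of the cardinalities
  `(m n) ^ #ι = m ^ #ι * n ^ #ι` is enough: `Finset.card_piFinset`, `Finset.eq_of_subset_of_card_le`),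
  and `φ x = φ (x % m)`, `ψ x = ψ (x % n)`.
* `crt_prod`: induction over the coprime factorisation (`Nat.recOnPosPrimePosCoprime` or induction over the
  set of primes as in `crt_sqf` with exponents); for `m, n` coprime the prime factors and the exponents split
  (`Nat.Coprime.primeFactors_mul`, `Nat.factorization_eq_of_coprime_left`), and the product of functions
  periodic modulo `l ^ e` (`l ^ e ∣ m`) is periodic modulo `m`.
* `crt_sqf`: induction on `T` (`Finset.induction_on`), `crt_mul`.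
* `nn_mul`, `nn_sqf`: the same for counts: `nn ι n P = ∑ x ∈ cub ι n, if P x then 1 else 0`.
-/

set_option autoImplicit false

namespace Pool.Agent.PP5C

open Finset Pool.Agent.PPS

variable {ι : Type} [Fintype ι] [DecidableEq ι]

omit [Fintype ι] [DecidableEq ι] in
private theorem crt_per_mod (m : ℕ) (φ : (ι → ℤ) → ℝ) (hφ : PerF m φ) (x : ι → ℤ) :
    φ (fun i => x i % (m : ℤ)) = φ x := by
  refine hφ _ _ fun i => ?_
  have h1 := Int.emod_add_mul_ediv (x i) (m : ℤ)
  refine ⟨-(x i / (m : ℤ)), ?_⟩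
  linear_combination h1

theorem crt_mul (m n : ℕ) (hm : 1 ≤ m) (hn : 1 ≤ n) (h : Nat.Coprime m n) (φ ψ : (ι → ℤ) → ℝ)
    (hφ : PerF m φ) (hψ : PerF n ψ) :
    ∑ x ∈ cub ι (m * n), φ x * ψ x = (∑ x ∈ cub ι m, φ x) * ∑ x ∈ cub ι n, ψ x := by
  obtain ⟨u, v, huv⟩ := Nat.isCoprime_iff_coprime.mpr h
  have hm0 : (0 : ℤ) < (m : ℤ) := by exact_mod_cast hm
  have hn0 : (0 : ℤ) < (n : ℤ) := by exact_mod_cast hn
  have hmn0 : (0 : ℤ) < (m : ℤ) * (n : ℤ) := mul_pos hm0 hn0
  rw [Finset.sum_mul_sum, ← Finset.sum_product']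
  refine Finset.sum_nbij' (fun x => ((fun i => x i % (m : ℤ)), (fun i => x i % (n : ℤ))))
    (fun p => fun i => (p.1 i * (v * n) + p.2 i * (u * m)) % ((m : ℤ) * (n : ℤ))) ?_ ?_ ?_ ?_ ?_
  · intro x _
    simp only [Finset.mem_product, cub, Fintype.mem_piFinset, Finset.mem_Ico]
    exact ⟨fun i => ⟨Int.emod_nonneg _ hm0.ne', Int.emod_lt_of_pos _ hm0⟩,
      fun i => ⟨Int.emod_nonneg _ hn0.ne', Int.emod_lt_of_pos _ hn0⟩⟩
  · intro p _
    simp only [cub, Fintype.mem_piFinset, Finset.mem_Ico]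
    intro i
    refine ⟨Int.emod_nonneg _ hmn0.ne', ?_⟩
    have h1 := Int.emod_lt_of_pos (p.1 i * (v * n) + p.2 i * (u * m)) hmn0
    push_cast
    exact h1
  · intro x hx
    simp only [cub, Fintype.mem_piFinset, Finset.mem_Ico] at hx
    funext i
    have h0 := hx i
    push_cast at h0
    have h1 := Int.emod_add_mul_ediv (x i) (m : ℤ)
    have h2 := Int.emod_add_mul_ediv (x i) (n : ℤ)
    have h3 : x i % (m : ℤ) * (v * n) + x i % (n : ℤ) * (u * m) =
        x i + ((m : ℤ) * (n : ℤ)) * (-(x i / (m : ℤ)) * v - (x i / (n : ℤ)) * u) := by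
      linear_combination (v * n) * h1 + (u * m) * h2 + x i * huv
    show (x i % (m : ℤ) * (v * n) + x i % (n : ℤ) * (u * m)) % ((m : ℤ) * (n : ℤ)) = x i
    rw [h3, Int.add_mul_emod_self_left]
    exact Int.emod_eq_of_lt h0.1 h0.2
  · rintro ⟨a, b⟩ hp
    simp only [Finset.mem_product, cub, Fintype.mem_piFinset, Finset.mem_Ico] at hp
    obtain ⟨ha, hb⟩ := hp
    refine Prod.ext ?_ ?_
    · funext i
      show (a i * (v * n) + b i * (u * m)) % ((m : ℤ) * (n : ℤ)) % (m : ℤ) = a i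
      rw [Int.emod_emod_of_dvd _ (dvd_mul_right _ _)]
      have h3 : a i * (v * n) + b i * (u * m) = a i + (m : ℤ) * ((b i - a i) * u) := by
        linear_combination a i * huv
      rw [h3, Int.add_mul_emod_self_left]
      exact Int.emod_eq_of_lt (ha i).1 (ha i).2
    · funext i
      show (a i * (v * n) + b i * (u * m)) % ((m : ℤ) * (n : ℤ)) % (n : ℤ) = b i
      rw [Int.emod_emod_of_dvd _ (dvd_mul_left _ _)]
      have h3 : a i * (v * n) + b i * (u * m) = b i + (n : ℤ) * ((a i - b i) * v) := by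
        linear_combination b i * huv
      rw [h3, Int.add_mul_emod_self_left]
      exact Int.emod_eq_of_lt (hb i).1 (hb i).2
  · intro x _
    show φ x * ψ x = φ (fun i => x i % (m : ℤ)) * ψ (fun i => x i % (n : ℤ))
    rw [crt_per_mod m φ hφ x, crt_per_mod n ψ hψ x]

omit [Fintype ι] [DecidableEq ι] in
private theorem crt_per_prod (T : Finset ℕ) (e : ℕ → ℕ) (φ : ℕ → (ι → ℤ) → ℝ)
    (hφ : ∀ l ∈ T, PerF (l ^ e l) (φ l)) :
    PerF (∏ l ∈ T, l ^ e l) (fun x => ∏ l ∈ T, φ l x) := by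
  intro x y hxy
  refine Finset.prod_congr rfl fun l hl => hφ l hl x y fun i => ?_
  refine dvd_trans ?_ (hxy i)
  exact_mod_cast Finset.dvd_prod_of_mem (fun l => l ^ e l) hl

private theorem crt_cop (T : Finset ℕ) (a : ℕ) (haT : a ∉ T) (ha : a.Prime)
    (hT : ∀ l ∈ T, l.Prime) (e : ℕ → ℕ) : Nat.Coprime (a ^ e a) (∏ l ∈ T, l ^ e l) := by
  refine Nat.Coprime.prod_right fun l hl => ?_
  refine Nat.Coprime.pow _ _ ?_
  refine (Nat.coprime_primes ha (hT l hl)).mpr ?_
  rintro rfl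
  exact haT hl

private theorem crt_gen (T : Finset ℕ) (hT : ∀ l ∈ T, l.Prime) (e : ℕ → ℕ)
    (φ : ℕ → (ι → ℤ) → ℝ) (hφ : ∀ l ∈ T, PerF (l ^ e l) (φ l)) :
    ∑ x ∈ cub ι (∏ l ∈ T, l ^ e l), ∏ l ∈ T, φ l x =
      ∏ l ∈ T, ∑ x ∈ cub ι (l ^ e l), φ l x := by
  classical
  induction T using Finset.induction_on with
  | empty =>
    simp only [Finset.prod_empty]
    have h1 : cub ι 1 = {fun _ => (0 : ℤ)} := by
      ext x
      simp only [cub, Fintype.mem_piFinset, Finset.mem_Ico, Finset.mem_singleton]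
      constructor
      · intro hx
        funext i
        have := hx i
        push_cast at this
        omega
      · rintro rfl i
        simp
    rw [h1, Finset.sum_singleton]
  | insert a T haT ih =>
    have hT' : ∀ l ∈ T, l.Prime := fun l hl => hT l (Finset.mem_insert_of_mem hl)
    have ha : a.Prime := hT a (Finset.mem_insert_self _ _)
    have hφ' : ∀ l ∈ T, PerF (l ^ e l) (φ l) := fun l hl => hφ l (Finset.mem_insert_of_mem hl)
    have h1 : 1 ≤ a ^ e a := Nat.one_le_pow _ _ ha.pos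
    have h2 : 1 ≤ ∏ l ∈ T, l ^ e l := by
      refine Finset.one_le_prod' ?_
      exact fun l hl => Nat.one_le_pow _ _ (hT' l hl).pos
    have h3 := crt_mul (ι := ι) (a ^ e a) (∏ l ∈ T, l ^ e l) h1 h2 (crt_cop T a haT ha hT' e)
      (φ a) (fun x => ∏ l ∈ T, φ l x) (hφ a (Finset.mem_insert_self _ _))
      (crt_per_prod T e φ hφ')
    rw [Finset.prod_insert haT, Finset.prod_insert haT, ← ih hT' hφ', ← h3]
    refine Finset.sum_congr rfl fun x _ => ?_
    rw [Finset.prod_insert haT]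

theorem crt_prod (n : ℕ) (hn : n ≠ 0) (φ : ℕ → (ι → ℤ) → ℝ)
    (hφ : ∀ l ∈ n.primeFactors, PerF (l ^ n.factorization l) (φ l)) :
    ∑ x ∈ cub ι n, ∏ l ∈ n.primeFactors, φ l x =
      ∏ l ∈ n.primeFactors, ∑ x ∈ cub ι (l ^ n.factorization l), φ l x := by
  have h1 := crt_gen n.primeFactors (fun l hl => Nat.prime_of_mem_primeFactors hl)
    (fun l => n.factorization l) φ hφ
  have h2 : ∏ l ∈ n.primeFactors, l ^ n.factorization l = n := by
    have h3 := Nat.prod_factorization_pow_eq_self hn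
    rw [Finsupp.prod, Nat.support_factorization] at h3
    exact h3
  rw [← h1]
  simp only [h2]

theorem crt_sqf (T : Finset ℕ) (hT : ∀ l ∈ T, l.Prime) (φ : ℕ → (ι → ℤ) → ℝ)
    (hφ : ∀ l ∈ T, PerF l (φ l)) :
    ∑ x ∈ cub ι (∏ l ∈ T, l), ∏ l ∈ T, φ l x = ∏ l ∈ T, ∑ x ∈ cub ι l, φ l x := by
  have h1 := crt_gen T hT (fun _ => 1) φ (fun l hl => by simpa using hφ l hl)
  simpa only [pow_one] using h1

private theorem crt_nn (n : ℕ) (P : (ι → ℤ) → Prop) :
    (nn ι n P : ℝ) = ∑ x ∈ cub ι n, @ite ℝ (P x) (Classical.propDecidable _) 1 0 := by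
  classical
  unfold nn
  rw [Finset.card_filter]
  push_cast
  refine Finset.sum_congr rfl fun x _ => ?_
  by_cases hx : P x
  · simp only [if_pos hx]
  · simp only [if_neg hx]

omit [Fintype ι] [DecidableEq ι] in
private theorem crt_ind (T : Finset ℕ) (P : ℕ → (ι → ℤ) → Prop) (x : ι → ℤ) :
    @ite ℝ (∀ l ∈ T, P l x) (Classical.propDecidable _) 1 0 =
      ∏ l ∈ T, @ite ℝ (P l x) (Classical.propDecidable _) 1 0 := by
  classical
  by_cases hx : ∀ l ∈ T, P l x
  · rw [if_pos hx]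
    symm
    exact Finset.prod_eq_one fun l hl => if_pos (hx l hl)
  · rw [if_neg hx]
    symm
    push Not at hx
    obtain ⟨l, hl, hlx⟩ := hx
    exact Finset.prod_eq_zero hl (if_neg hlx)

omit [Fintype ι] [DecidableEq ι] in
private theorem crt_perind (n : ℕ) (P : (ι → ℤ) → Prop) (hP : Per n P) :
    PerF n (fun x => @ite ℝ (P x) (Classical.propDecidable _) 1 0) := by
  intro x y hxy
  have hyx : Cg n y x := fun i => by
    have := hxy i
    rw [← neg_sub]
    exact (dvd_neg).mpr this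
  show @ite ℝ (P x) (Classical.propDecidable _) 1 0 = @ite ℝ (P y) (Classical.propDecidable _) 1 0
  by_cases hx : P x
  · rw [if_pos hx, if_pos (hP x y hxy hx)]
  · rw [if_neg hx, if_neg (fun hy => hx (hP y x hyx hy))]

theorem nn_sqf (T : Finset ℕ) (hT : ∀ l ∈ T, l.Prime) (P : ℕ → (ι → ℤ) → Prop)
    (hP : ∀ l ∈ T, Per l (P l)) :
    nn ι (∏ l ∈ T, l) (fun x => ∀ l ∈ T, P l x) = ∏ l ∈ T, nn ι l (P l) := by
  have h1 := crt_sqf (ι := ι) T hT (fun l x => @ite ℝ (P l x) (Classical.propDecidable _) 1 0)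
    (fun l hl => crt_perind l (P l) (hP l hl))
  have h2 : (nn ι (∏ l ∈ T, l) (fun x => ∀ l ∈ T, P l x) : ℝ) =
      ((∏ l ∈ T, nn ι l (P l) : ℕ) : ℝ) := by
    rw [crt_nn]
    push_cast
    simp only [crt_nn]
    rw [← h1]
    exact Finset.sum_congr rfl fun x _ => crt_ind T P x
  exact_mod_cast h2

theorem nn_prod (n : ℕ) (hn : n ≠ 0) (P : ℕ → (ι → ℤ) → Prop)
    (hP : ∀ l ∈ n.primeFactors, Per (l ^ n.factorization l) (P l)) :
    nn ι n (fun x => ∀ l ∈ n.primeFactors, P l x) =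
      ∏ l ∈ n.primeFactors, nn ι (l ^ n.factorization l) (P l) := by
  have h1 := crt_prod (ι := ι) n hn
    (fun l x => @ite ℝ (P l x) (Classical.propDecidable _) 1 0)
    (fun l hl => crt_perind _ (P l) (hP l hl))
  have h2 : (nn ι n (fun x => ∀ l ∈ n.primeFactors, P l x) : ℝ) =
      ((∏ l ∈ n.primeFactors, nn ι (l ^ n.factorization l) (P l) : ℕ) : ℝ) := by
    rw [crt_nn]
    push_cast
    simp only [crt_nn]
    rw [← h1]
    exact Finset.sum_congr rfl fun x _ => crt_ind n.primeFactors P x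
  exact_mod_cast h2

end Pool.Agent.PP5C
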