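import Pool.Agent.PP5C.Siv

/-!
# SvQ: the sieve in a class modulo `q` (difficulty 3)

Substitution `m = ρ + q m'`: `m' i ∈ [A' i, A' i + H')` with `A' i = ⌈(A i - ρ i) / q⌉` and
`H' = H / q + 1` (natural division): `A i ≤ ρ i + q m' i < A i + H`.  `Om' l m' := Om l (ρ + q m')`, `M' = q M`; for
`l` prime, `l ∤ q M`: `Om' l` is `Per l`, and `nn (Fin 4) l (Om' l) = nn (Fin 4) l (Om l)` (the map
`m' ↦ (ρ + q m') % l` is a bijection of `cub (Fin 4) l`: injective since `q` is invertible modulo `l`, finite).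
`H' ≥ H / q ≥ w ^ c` (real), `H' ≤ 2 H / q` (`H / q ≥ 1`).  Apply `siv` to the image of `S` under `m ↦ m'`
(injective) with `M' = q * M`: `#S ≤ C H' ^ 4 / log w * gg (q M) ≤ 16 C (H / q) ^ 4 / log w * gg (q M)`.
-/

set_option autoImplicit false

namespace Pool.Agent.PP5C

open Finset Pool.Agent.PPS

/-- the substitution -/
private def sq (q : ℕ) (ρ m : Fin 4 → ℤ) : Fin 4 → ℤ := fun i => (m i - ρ i) / (q : ℤ)

private theorem svq_sq (q : ℕ) (ρ m : Fin 4 → ℤ) (h : Cg q m ρ) (i : Fin 4) :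
    ρ i + (q : ℤ) * sq q ρ m i = m i := by
  have h1 := Int.mul_ediv_cancel' (h i)
  unfold sq
  linear_combination h1

private theorem svq_per (l q : ℕ) (ρ : Fin 4 → ℤ) (P : (Fin 4 → ℤ) → Prop) (h : Per l P) :
    Per l (fun m => P (fun i => ρ i + (q : ℤ) * m i)) := by
  intro x y hxy hx
  refine h _ _ (fun i => ?_) hx
  have h1 := dvd_mul_of_dvd_right (hxy i) (q : ℤ)
  have h2 : ρ i + (q : ℤ) * x i - (ρ i + (q : ℤ) * y i) = (q : ℤ) * (x i - y i) := by ring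
  rw [h2]
  exact h1

private theorem svq_le (l q : ℕ) (hl : l.Prime) (hlq : ¬ l ∣ q) (ρ : Fin 4 → ℤ)
    (P : (Fin 4 → ℤ) → Prop) (h : Per l P) :
    nn (Fin 4) l (fun m => P (fun i => ρ i + (q : ℤ) * m i)) = nn (Fin 4) l P := by
  classical
  have hl0 : (0 : ℤ) < (l : ℤ) := by exact_mod_cast hl.pos
  have hc : IsCoprime (q : ℤ) (l : ℤ) :=
    Nat.isCoprime_iff_coprime.mpr ((Nat.Prime.coprime_iff_not_dvd hl).mpr hlq).symm
  obtain ⟨u, v, huv⟩ := hc
  unfold nn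
  refine Finset.card_nbij' (fun m i => (ρ i + (q : ℤ) * m i) % (l : ℤ))
    (fun m i => (u * (m i - ρ i)) % (l : ℤ)) ?_ ?_ ?_ ?_
  · intro m hm
    have hm' := Finset.mem_filter.mp hm
    refine Finset.mem_filter.mpr ⟨?_, ?_⟩
    · simp only [cub, Fintype.mem_piFinset, Finset.mem_Ico]
      exact fun i => ⟨Int.emod_nonneg _ hl0.ne', Int.emod_lt_of_pos _ hl0⟩
    · refine h _ _ (fun i => ?_) hm'.2
      show (l : ℤ) ∣ ρ i + (q : ℤ) * m i - (ρ i + (q : ℤ) * m i) % (l : ℤ)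
      exact Int.dvd_self_sub_emod
  · intro m hm
    have hm' := Finset.mem_filter.mp hm
    refine Finset.mem_filter.mpr ⟨?_, ?_⟩
    · simp only [cub, Fintype.mem_piFinset, Finset.mem_Ico]
      exact fun i => ⟨Int.emod_nonneg _ hl0.ne', Int.emod_lt_of_pos _ hl0⟩
    · refine h m _ (fun i => ?_) hm'.2
      show (l : ℤ) ∣ m i - (ρ i + (q : ℤ) * ((u * (m i - ρ i)) % (l : ℤ)))
      have h1 := Int.emod_add_mul_ediv (u * (m i - ρ i)) (l : ℤ)
      refine ⟨(q : ℤ) * ((u * (m i - ρ i)) / (l : ℤ)) + v * (m i - ρ i), ?_⟩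
      linear_combination (-(q : ℤ)) * h1 - (m i - ρ i) * huv
  · intro m hm
    have hm' := Finset.mem_filter.mp hm
    have hm1 := hm'.1
    simp only [cub, Fintype.mem_piFinset, Finset.mem_Ico] at hm1
    funext i
    show (u * ((ρ i + (q : ℤ) * m i) % (l : ℤ) - ρ i)) % (l : ℤ) = m i
    have h1 := Int.emod_add_mul_ediv (ρ i + (q : ℤ) * m i) (l : ℤ)
    have h2 : u * ((ρ i + (q : ℤ) * m i) % (l : ℤ) - ρ i) =
        m i + (l : ℤ) * (-(u * ((ρ i + (q : ℤ) * m i) / (l : ℤ))) - v * m i) := by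
      linear_combination u * h1 + m i * huv
    rw [h2, Int.add_mul_emod_self_left]
    exact Int.emod_eq_of_lt (hm1 i).1 (hm1 i).2
  · intro m hm
    have hm' := Finset.mem_filter.mp hm
    have hm1 := hm'.1
    simp only [cub, Fintype.mem_piFinset, Finset.mem_Ico] at hm1
    funext i
    show (ρ i + (q : ℤ) * ((u * (m i - ρ i)) % (l : ℤ))) % (l : ℤ) = m i
    have h1 := Int.emod_add_mul_ediv (u * (m i - ρ i)) (l : ℤ)
    have h2 : ρ i + (q : ℤ) * ((u * (m i - ρ i)) % (l : ℤ)) =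
        m i + (l : ℤ) * (-((q : ℤ) * ((u * (m i - ρ i)) / (l : ℤ))) - v * (m i - ρ i)) := by
      linear_combination (q : ℤ) * h1 + (m i - ρ i) * huv
    rw [h2, Int.add_mul_emod_self_left]
    exact Int.emod_eq_of_lt (hm1 i).1 (hm1 i).2

theorem svq : ∃ c C : ℝ, 1 ≤ c ∧ 0 < C ∧ ∀ (A ρ : Fin 4 → ℤ) (H M q : ℕ) (w : ℝ)
    (Om : ℕ → (Fin 4 → ℤ) → Prop), 1 ≤ M → 1 ≤ q → 2 ≤ w → (q : ℝ) * w ^ c ≤ (H : ℝ) →
    (∀ l : ℕ, l.Prime → ¬ l ∣ q * M → Per l (Om l)) →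
    (∀ l : ℕ, l.Prime → ¬ l ∣ q * M → (l : ℝ) ^ 3 - (l : ℝ) ^ 2 ≤ nn (Fin 4) l (Om l) ∧
      (nn (Fin 4) l (Om l) : ℝ) ≤ (l : ℝ) ^ 3 + (l : ℝ) ^ 2) →
    ∀ S : Finset (Fin 4 → ℤ), (∀ m ∈ S, m ∈ bx A (fun _ => H) ∧ Cg q m ρ ∧
      ∀ l : ℕ, l.Prime → (l : ℝ) ≤ w → ¬ l ∣ q * M → ¬ Om l m) →
    (S.card : ℝ) ≤ C * ((H : ℝ) / q) ^ 4 / Real.log w * gg (q * M) := by
  classical
  obtain ⟨c, C, hc, hC, hS⟩ := siv
  refine ⟨c, 16 * C, hc, by positivity, ?_⟩
  intro A ρ H M q w Om hM hq hw hH hPer hnn S hSm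
  have hq0 : (0 : ℤ) < (q : ℤ) := by exact_mod_cast hq
  have hqR : (0 : ℝ) < (q : ℝ) := by exact_mod_cast hq
  have hq1R : (1 : ℝ) ≤ (q : ℝ) := by exact_mod_cast hq
  have hw1 : (1 : ℝ) ≤ w ^ c := Real.one_le_rpow (by linarith) (by linarith)
  have hHq : w ^ c ≤ (H : ℝ) / q := by
    rw [le_div_iff₀ hqR]
    linarith [mul_comm (q : ℝ) (w ^ c)]
  have hHq1 : 1 ≤ (H : ℝ) / q := hw1.trans hHq
  -- the new sides
  have hlt : (H : ℝ) / q < ((H / q + 1 : ℕ) : ℝ) := by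
    rw [div_lt_iff₀ hqR]
    have h1 : H < q * (H / q + 1) := by
      have h2 := Nat.div_add_mod H q
      have h3 := Nat.mod_lt H (show 0 < q by omega)
      rw [Nat.mul_add, Nat.mul_one]
      omega
    have h2 : (H : ℝ) < (q : ℝ) * ((H / q + 1 : ℕ) : ℝ) := by exact_mod_cast h1
    linarith [mul_comm (q : ℝ) ((H / q + 1 : ℕ) : ℝ)]
  have hle : ((H / q + 1 : ℕ) : ℝ) ≤ 2 * ((H : ℝ) / q) := by
    have h1 : ((H / q : ℕ) : ℝ) ≤ (H : ℝ) / q := Nat.cast_div_le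
    push_cast
    linarith
  have hM' : 1 ≤ q * M := Nat.mul_pos (by omega) (by omega)
  have h := hS (fun i => -((-(A i - ρ i)) / (q : ℤ))) (H / q + 1) (q * M) w
    (fun l m => Om l (fun i => ρ i + (q : ℤ) * m i)) hM' hw (hHq.trans hlt.le)
    (fun l hl hlM => svq_per l q ρ (Om l) (hPer l hl hlM))
    (fun l hl hlM => by
      rw [svq_le l q hl (fun hd => hlM (dvd_mul_of_dvd_left hd M)) ρ (Om l) (hPer l hl hlM)]
      exact hnn l hl hlM)
    (S.image (sq q ρ)) ?_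
  · rw [Finset.card_image_of_injOn] at h
    · refine h.trans ?_
      have hlog : 0 < Real.log w := Real.log_pos (by linarith)
      have hgg : 0 ≤ gg (q * M) := by
        unfold gg
        refine Finset.prod_nonneg fun l hl => inv_nonneg.mpr ?_
        have h1 : (2 : ℝ) ≤ (l : ℝ) := by
          exact_mod_cast (Nat.prime_of_mem_primeFactors hl).two_le
        have h2 : 1 / (l : ℝ) ≤ 1 := by
          rw [div_le_one (by linarith)]
          linarith
        linarith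
      have h4 : (((H / q + 1 : ℕ) : ℝ)) ^ 4 ≤ (2 * ((H : ℝ) / q)) ^ 4 :=
        pow_le_pow_left₀ (Nat.cast_nonneg _) hle 4
      have h5 : C * (((H / q + 1 : ℕ) : ℝ)) ^ 4 ≤ 16 * C * ((H : ℝ) / q) ^ 4 := by
        calc C * (((H / q + 1 : ℕ) : ℝ)) ^ 4 ≤ C * (2 * ((H : ℝ) / q)) ^ 4 :=
              mul_le_mul_of_nonneg_left h4 hC.le
          _ = 16 * C * ((H : ℝ) / q) ^ 4 := by ring
      exact mul_le_mul_of_nonneg_right (div_le_div_of_nonneg_right h5 hlog.le) hgg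
    · intro m hm m' hm' he
      have h1 := (hSm m (Finset.mem_coe.mp hm)).2.1
      have h2 := (hSm m' (Finset.mem_coe.mp hm')).2.1
      funext i
      rw [← svq_sq q ρ m h1 i, ← svq_sq q ρ m' h2 i, he]
  · intro m' hm'
    obtain ⟨m, hm, rfl⟩ := Finset.mem_image.mp hm'
    obtain ⟨h1, h2, h3⟩ := hSm m hm
    refine ⟨?_, ?_⟩
    · simp only [bx, Fintype.mem_piFinset, Finset.mem_Ico] at h1 ⊢
      intro i
      obtain ⟨h4, h5⟩ := h1 i
      have h6 := svq_sq q ρ m h2 i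
      have h7 := Int.mul_ediv_add_emod (-(A i - ρ i)) (q : ℤ)
      have h8 := Int.emod_nonneg (-(A i - ρ i)) hq0.ne'
      have h9 := Int.emod_lt_of_pos (-(A i - ρ i)) hq0
      have hHN : (H : ℤ) < (q : ℤ) * ((H / q + 1 : ℕ) : ℤ) := by
        have h1 : H < q * (H / q + 1) := by
          have h2 := Nat.div_add_mod H q
          have h3 := Nat.mod_lt H (show 0 < q by omega)
          rw [Nat.mul_add, Nat.mul_one]
          omega
        exact_mod_cast h1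
      refine ⟨?_, ?_⟩
      · -- `-(t) ≤ s`
        have hlt2 : (q : ℤ) * (-((-(A i - ρ i)) / (q : ℤ))) < (q : ℤ) * (sq q ρ m i + 1) := by
          have e1 : (q : ℤ) * (-((-(A i - ρ i)) / (q : ℤ))) =
              (A i - ρ i) + (-(A i - ρ i)) % (q : ℤ) := by linear_combination (-1 : ℤ) * h7
          rw [e1]
          have e2 : (q : ℤ) * (sq q ρ m i + 1) = m i - ρ i + q := by linear_combination h6
          rw [e2]
          linarith
        have := lt_of_mul_lt_mul_left hlt2 hq0.le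
        omega
      · have hlt2 : (q : ℤ) * sq q ρ m i < (q : ℤ) * (-((-(A i - ρ i)) / (q : ℤ)) +
            ((H / q + 1 : ℕ) : ℤ)) := by
          have e1 : (q : ℤ) * (-((-(A i - ρ i)) / (q : ℤ)) + ((H / q + 1 : ℕ) : ℤ)) =
              (A i - ρ i) + (-(A i - ρ i)) % (q : ℤ) + (q : ℤ) * ((H / q + 1 : ℕ) : ℤ) := by
            linear_combination (-1 : ℤ) * h7
          rw [e1]
          have e2 : (q : ℤ) * sq q ρ m i = m i - ρ i := by linear_combination h6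
          rw [e2]
          linarith
        exact lt_of_mul_lt_mul_left hlt2 hq0.le
    · intro l hl hlw hlM
      have h4 := h3 l hl hlw hlM
      have h5 : (fun i => ρ i + (q : ℤ) * sq q ρ m i) = m := funext fun i => svq_sq q ρ m h2 i
      show ¬ Om l (fun i => ρ i + (q : ℤ) * sq q ρ m i)
      rw [h5]
      exact h4

end Pool.Agent.PP5C
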