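import Pool.Agent.PP5C.Cov
import Pool.Agent.PP5C.SvQ
import Pool.Agent.PP5C.QnB
import Pool.Agent.PP5C.Crt
import Pool.Agent.PP5C.CtP
import Pool.Agent.PPS.Ggl

/-!
# Cor: the core lemma (difficulty 5)

Compare `PPS/Fin.lean` (`pt`, `term`, `core`).  Let `c, C0` be the constants of `svq` and
`c2 := min η (δ / (4 (c + 2)))`, `z = T ^ c2`, `κ = 2 A / c2`; `T0` so large that `z ≥ 4` and `T ^ (δ/4) ≥ 2 ^ c`...
* pointwise, for `m ∈ S`: `cov` with the set `Ps z (b * D) |qf c m|` (its product divides `qf c m`, so `≤ T ^ A`):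
  `∏ ps ≤ ∑_{i < NL z} ∑_{a ∈ AA z i} [conditions] 2 ^ (κ 2 ^ i) ∏_{l ∣ a} ps l`, conditions: `a` coprime to `b * D`,
  `a ∣ qf c m`, and no prime `l ≤ ww z i` with `l ∤ a b D` divides `qf c m` (if `l ∣ qf c m`, `l ≤ ww z i ≤ z`,
  `l ∤ b D` then `l` is in the set, so `l ∣ a` or `ww z i < l`).  All terms are `≥ 0` (`Finset.single_le_sum`).
* for fixed `i`, `a` (squarefree, `1 ≤ a ≤ z`, coprime to `b D`): the number of `m ∈ S` with the conditions is at most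
  `C0 gg (a b D) (H / (a b)) ^ 4 / log (ww z i) * #{σ ∈ cub a : a ∣ qf c σ}`: the points with `Cg b m ρ`, `Cg a m σ` lie
  in one class modulo `q = a b` (`ρ'` with `ρ' = ρ mod b`, `ρ' = σ mod a`: `Int`/`Nat` CRT, or simply: take any
  `m0` in the set as the representative `ρ' := m0`), `svq` with `q = a b`, `M = D`, `w = ww z i`,
  `Om l m = (l ∣ qf c m)` and `qn_bd` (`l ∤ D` gives `l ≠ 2` and `l ∤ det`).  If `ww z i < 2`: use the set `∅`? NO: `ww z i ≥ 2`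
  may fail; but then the level is handled as follows: for `i` with `ww z i < 2` and `i ≥ 1`, `AA z i` contains only
  `a > √z` with all primes `≤ ww z (i - 1)`, and the bound needed has `1 / log (ww z i) ≥ 1 / log 2`; use the
  trivial count (`ctp_le` with the modulus `a b` and `P` = the condition on the class) `≤ 16 (H/(ab)) ^ 4 * nn ≤
  (16 log 2 / log (ww z i)) ...`, which has the same shape.  (`i = 0`: `ww z 0 = √z ≥ 2`.)
* `q w ^ c ≤ T ^ (δ/2) z z ^ c ≤ T ^ (δ/2 + c2 (1 + c)) ≤ T ^ δ ≤ H`.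
* `#{σ ∈ cub a : a ∣ qf c σ} = ∏_{l ∣ a} nn l ≤ ∏ (l³ + l²) ≤ a³ gg a` (`nn_sqf`, `1 + 1/l ≤ (1 - 1/l)⁻¹`).
* `gg (a * (b * D)) ≤ gg a * gg (b * D)` (`gg_mul_le`).  Sum up: exactly `C gg (b D) (H/b) ^ 4 Sg z κ ps D`
  (drop the condition `(a, b) = 1`, keep `(a, D) = 1`).
-/

set_option autoImplicit false

namespace Pool.Agent.PP5C

open Finset Pool.Agent.PPS

private theorem Cor_log_ww (z : ℝ) (i : ℕ) : Real.log (ww z i) = Real.log z / 2 ^ (i + 1) := by
  unfold ww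
  rw [Real.log_exp]

private theorem Cor_mem_AA {z : ℝ} {i a : ℕ} (hz : 1 ≤ z) (h : a ∈ AA z i) :
    1 ≤ a ∧ (a : ℝ) ≤ z ∧ Squarefree a := by
  have hz0 : 0 ≤ z := by linarith
  cases i with
  | zero =>
    unfold AA at h
    rw [mem_filter, mem_Icc] at h
    exact ⟨h.1.1, (Nat.le_floor_iff hz0).1 h.1.2, h.2⟩
  | succ k =>
    unfold AA at h
    rw [mem_filter, mem_Icc] at h
    exact ⟨h.1.1, (Nat.le_floor_iff hz0).1 h.1.2, h.2.1⟩

private theorem Cor_ww_le {z : ℝ} (hz : 1 ≤ z) (i : ℕ) : ww z i ≤ z := by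
  unfold ww
  have h0 : 0 ≤ Real.log z := Real.log_nonneg hz
  have h1 : Real.log z / 2 ^ (i + 1) ≤ Real.log z := div_le_self h0 (one_le_pow₀ (by norm_num))
  calc Real.exp (Real.log z / 2 ^ (i + 1)) ≤ Real.exp (Real.log z) := Real.exp_le_exp.2 h1
    _ = z := Real.exp_log (by linarith)

private theorem Cor_one_lt_ww {z : ℝ} (hz : 1 < z) (i : ℕ) : 1 < ww z i := by
  unfold ww
  have h0 : 0 < Real.log z := Real.log_pos hz
  have h1 : 0 < Real.log z / 2 ^ (i + 1) := by positivity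
  have := Real.add_one_lt_exp h1.ne'
  linarith

private theorem Cor_qf_cg {n : ℕ} (c : Matrix (Fin 4) (Fin 4) ℤ) {x y : Fin 4 → ℤ}
    (h : Cg n x y) : (n : ℤ) ∣ qf c x - qf c y := by
  unfold qf
  rw [← Finset.sum_sub_distrib]
  refine Finset.dvd_sum fun i _ => ?_
  rw [← Finset.sum_sub_distrib]
  refine Finset.dvd_sum fun j _ => ?_
  have e : c i j * x i * x j - c i j * y i * y j =
      c i j * (x i * (x j - y j) + y j * (x i - y i)) := by ring
  rw [e]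
  exact Dvd.dvd.mul_left (dvd_add (Dvd.dvd.mul_left (h j) _) (Dvd.dvd.mul_left (h i) _)) _

private theorem Cor_per (c : Matrix (Fin 4) (Fin 4) ℤ) (n : ℕ) :
    Per n (fun m : Fin 4 → ℤ => (n : ℤ) ∣ qf c m) := by
  intro x y h hx
  have h1 := Cor_qf_cg c h
  have h2 := dvd_sub hx h1
  simpa using h2

private theorem Cor_prod_dvd (T : Finset ℕ) (hT : ∀ l ∈ T, l.Prime) (n : ℤ)
    (h : ∀ l ∈ T, (l : ℤ) ∣ n) : ((∏ l ∈ T, l : ℕ) : ℤ) ∣ n := by
  rw [Int.natCast_dvd]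
  refine Finset.prod_primes_dvd _ (fun l hl => (hT l hl).prime) (fun l hl => ?_)
  exact Int.natCast_dvd.1 (h l hl)

/-- the number of classes modulo `a` with `a ∣ qf c` -/
private theorem Cor_nn {c : Matrix (Fin 4) (Fin 4) ℤ} {D : ℕ} {v : ℕ → ℕ} (hF : Frm c D v)
    {a : ℕ} (ha : Squarefree a) (haD : Nat.Coprime a D) :
    (nn (Fin 4) a (fun m => (a : ℤ) ∣ qf c m) : ℝ) ≤ (a : ℝ) ^ 3 * gg a := by
  have hpr : ∀ l ∈ a.primeFactors, l.Prime := fun l hl => Nat.prime_of_mem_primeFactors hl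
  have hprod : ∏ l ∈ a.primeFactors, l = a := Nat.prod_primeFactors_of_squarefree ha
  have e1 : (fun m : Fin 4 → ℤ => (a : ℤ) ∣ qf c m) =
      (fun m => ∀ l ∈ a.primeFactors, (l : ℤ) ∣ qf c m) := by
    funext m
    apply propext
    constructor
    · intro h l hl
      exact dvd_trans (Int.natCast_dvd_natCast.2 (Nat.dvd_of_mem_primeFactors hl)) h
    · intro h
      have h2 := Cor_prod_dvd a.primeFactors hpr _ h
      rwa [hprod] at h2
  have e2 := nn_sqf (ι := Fin 4) a.primeFactors hpr (fun l m => (l : ℤ) ∣ qf c m)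
    (fun l _ => Cor_per c l)
  rw [hprod] at e2
  rw [e1, e2]
  push_cast
  have h3 : ∀ l ∈ a.primeFactors, (nn (Fin 4) l (fun m => (l : ℤ) ∣ qf c m) : ℝ) ≤
      (l : ℝ) ^ 3 * (1 - 1 / (l : ℝ))⁻¹ := by
    intro l hl
    have hlp := hpr l hl
    have hlD : ¬ l ∣ D := by
      intro h
      have h1 := Nat.dvd_gcd (Nat.dvd_of_mem_primeFactors hl) h
      rw [Nat.Coprime.gcd_eq_one haD] at h1
      exact hlp.one_lt.ne' (Nat.dvd_one.1 h1)
    have hl2 : l ≠ 2 := by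
      rintro rfl
      exact hlD hF.two
    have h4 := (qn_bd hlp hl2 c (hF.det l hlp hlD)).2
    refine h4.trans ?_
    have hlr : (2 : ℝ) ≤ l := by exact_mod_cast hlp.two_le
    have hl1 : (0 : ℝ) < (l : ℝ) - 1 := by linarith
    have hl0 : (0 : ℝ) < (l : ℝ) := by linarith
    have e3 : (1 - 1 / (l : ℝ))⁻¹ = (l : ℝ) / ((l : ℝ) - 1) := by
      have : (1 - 1 / (l : ℝ)) = ((l : ℝ) - 1) / (l : ℝ) := by field_simp
      rw [this, inv_div]
    rw [e3, ← mul_div_assoc, le_div_iff₀ hl1]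
    nlinarith [pow_pos hl0 2]
  calc ∏ l ∈ a.primeFactors, (nn (Fin 4) l (fun m => (l : ℤ) ∣ qf c m) : ℝ)
      ≤ ∏ l ∈ a.primeFactors, ((l : ℝ) ^ 3 * (1 - 1 / (l : ℝ))⁻¹) :=
        Finset.prod_le_prod (fun l _ => by positivity) h3
    _ = (∏ l ∈ a.primeFactors, (l : ℝ)) ^ 3 * gg a := by
        rw [Finset.prod_mul_distrib, Finset.prod_pow]
        rfl
    _ = (a : ℝ) ^ 3 * gg a := by
        rw [← Nat.cast_prod, hprod]

/-- one class -/
private theorem Cor_nn_one (q : ℕ) (m0 : Fin 4 → ℤ) :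
    nn (Fin 4) q (fun m => Cg q m m0) ≤ 1 := by
  classical
  unfold nn
  rw [Finset.card_le_one]
  intro x hx y hy
  rw [mem_filter] at hx hy
  obtain ⟨hx1, hx2⟩ := hx
  obtain ⟨hy1, hy2⟩ := hy
  unfold cub at hx1 hy1
  rw [Fintype.mem_piFinset] at hx1 hy1
  funext i
  have a1 := mem_Ico.1 (hx1 i)
  have a2 := mem_Ico.1 (hy1 i)
  have h1 : (q : ℤ) ∣ x i - y i := by
    have := dvd_sub (hx2 i) (hy2 i)
    have e : x i - m0 i - (y i - m0 i) = x i - y i := by ring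
    rwa [e] at this
  have h2 := Int.emod_emod_of_dvd (x i) (dvd_refl (q : ℤ))
  have h3 : x i % (q : ℤ) = y i % (q : ℤ) := Int.emod_eq_emod_iff_emod_sub_eq_zero.2
    (Int.emod_eq_zero_of_dvd h1)
  rw [Int.emod_eq_of_lt a1.1 a1.2, Int.emod_eq_of_lt a2.1 a2.2] at h3
  exact h3

open Classical in
/-- the number of points for one prefix -/
private theorem Cor_count {c0 C0 : ℝ} (hc0 : 1 ≤ c0) (hC0 : 0 < C0)
    (hsv : ∀ (A ρ : Fin 4 → ℤ) (H M q : ℕ) (w : ℝ)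
    (Om : ℕ → (Fin 4 → ℤ) → Prop), 1 ≤ M → 1 ≤ q → 2 ≤ w → (q : ℝ) * w ^ c0 ≤ (H : ℝ) →
    (∀ l : ℕ, l.Prime → ¬ l ∣ q * M → Per l (Om l)) →
    (∀ l : ℕ, l.Prime → ¬ l ∣ q * M → (l : ℝ) ^ 3 - (l : ℝ) ^ 2 ≤ nn (Fin 4) l (Om l) ∧
      (nn (Fin 4) l (Om l) : ℝ) ≤ (l : ℝ) ^ 3 + (l : ℝ) ^ 2) →
    ∀ S : Finset (Fin 4 → ℤ), (∀ m ∈ S, m ∈ bx A (fun _ => H) ∧ Cg q m ρ ∧
      ∀ l : ℕ, l.Prime → (l : ℝ) ≤ w → ¬ l ∣ q * M → ¬ Om l m) →
    (S.card : ℝ) ≤ C0 * ((H : ℝ) / q) ^ 4 / Real.log w * gg (q * M))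
    {c : Matrix (Fin 4) (Fin 4) ℤ} {D : ℕ} {v : ℕ → ℕ} (hF : Frm c D v) {b a : ℕ}
    (hb : 1 ≤ b) (ha1 : 1 ≤ a) (ha : Squarefree a) (hab : Nat.Coprime a (b * D))
    (ρ A0 : Fin 4 → ℤ) (H : ℕ) {w : ℝ} (hw : 1 < w)
    (hH : ((b * a : ℕ) : ℝ) * w ^ c0 ≤ (H : ℝ)) (S : Finset (Fin 4 → ℤ))
    (hS : ∀ m ∈ S, m ∈ bx A0 (fun _ => H) ∧ Cg b m ρ ∧ (a : ℤ) ∣ qf c m ∧
      ∀ l : ℕ, l.Prime → (l : ℝ) ≤ w → ¬ l ∣ a * (b * D) → ¬ (l : ℤ) ∣ qf c m) :
    (S.card : ℝ) ≤ (C0 + 16) / Real.log w * gg (b * D) * ((H : ℝ) / b) ^ 4 *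
      (gg a ^ 2 / (a : ℝ)) := by
  have hlw : 0 < Real.log w := Real.log_pos hw
  have haz : (0 : ℤ) < (a : ℤ) := by exact_mod_cast ha1
  have hbr : (1 : ℝ) ≤ b := by exact_mod_cast hb
  have har : (1 : ℝ) ≤ a := by exact_mod_cast ha1
  have hbar : (0 : ℝ) < ((b * a : ℕ) : ℝ) := by
    push_cast
    positivity
  have hcopab : Nat.Coprime a b := Nat.Coprime.coprime_mul_right_right hab
  have hcopaD : Nat.Coprime a D := Nat.Coprime.coprime_mul_left_right hab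
  have g1 := gg_one_le a
  have g2 := gg_one_le (b * D)
  have g3 := gg_one_le (b * a * D)
  set X : ℝ := (C0 + 16) * ((H : ℝ) / ((b * a : ℕ) : ℝ)) ^ 4 / Real.log w * gg (b * a * D)
    with hX
  have hX0 : 0 ≤ X := by positivity
  set f : (Fin 4 → ℤ) → (Fin 4 → ℤ) := fun m i => m i % (a : ℤ) with hf
  have hfc : ∀ m, Cg a m (f m) := by
    intro m i
    have := Int.emod_emod_of_dvd (m i) (dvd_refl (a : ℤ))
    have h1 : (a : ℤ) ∣ m i - m i % (a : ℤ) := Int.dvd_self_sub_emod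
    exact h1
  have hmap : ∀ m ∈ S, f m ∈ (cub (Fin 4) a).filter (fun m => (a : ℤ) ∣ qf c m) := by
    intro m hm
    rw [mem_filter]
    refine ⟨?_, ?_⟩
    · unfold cub
      rw [Fintype.mem_piFinset]
      intro i
      rw [mem_Ico]
      exact ⟨Int.emod_nonneg _ haz.ne', Int.emod_lt_of_pos _ haz⟩
    · exact Cor_per c a _ _ (hfc m) (hS m hm).2.2.1
  have hfib : ∀ σ ∈ (cub (Fin 4) a).filter (fun m => (a : ℤ) ∣ qf c m),
      (((S.filter (fun m => f m = σ)).card : ℕ) : ℝ) ≤ X := by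
    intro σ _
    rcases (S.filter (fun m => f m = σ)).eq_empty_or_nonempty with h0 | ⟨m0, hm0⟩
    · rw [h0, card_empty]
      simpa using hX0
    · have hm0' := mem_filter.1 hm0
      have hcg : ∀ m ∈ S.filter (fun m => f m = σ), Cg (b * a) m m0 := by
        intro m hm i
        have hm' := mem_filter.1 hm
        have k1 : (b : ℤ) ∣ m i - m0 i := by
          have h1 := dvd_sub ((hS m hm'.1).2.1 i) ((hS m0 hm0'.1).2.1 i)
          have e : m i - ρ i - (m0 i - ρ i) = m i - m0 i := by ring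
          rwa [e] at h1
        have k2 : (a : ℤ) ∣ m i - m0 i := by
          have h1 : f m i = f m0 i := by rw [hm'.2, hm0'.2]
          have h2 : m i % (a : ℤ) = m0 i % (a : ℤ) := h1
          exact Int.dvd_of_emod_eq_zero (Int.emod_eq_emod_iff_emod_sub_eq_zero.1 h2)
        have k3 : IsCoprime (b : ℤ) (a : ℤ) := Nat.isCoprime_iff_coprime.2 hcopab.symm
        have k4 := k3.mul_dvd k1 k2
        push_cast
        exact k4
      have hlH : ((b * a : ℕ) : ℝ) ≤ (H : ℝ) := by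
        refine le_trans ?_ hH
        have : (1 : ℝ) ≤ w ^ c0 := Real.one_le_rpow hw.le (by linarith)
        nlinarith
      by_cases h2w : 2 ≤ w
      · have h1 := hsv A0 m0 H D (b * a) w (fun l m => (l : ℤ) ∣ qf c m) hF.pos
          (Nat.mul_pos hb ha1) h2w hH (fun l _ _ => Cor_per c l) (by
            intro l hl hlq
            have hlD : ¬ l ∣ D := fun h => hlq (Dvd.dvd.mul_left h _)
            have hl2 : l ≠ 2 := by
              rintro rfl
              exact hlD hF.two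
            exact qn_bd hl hl2 c (hF.det l hl hlD))
          (S.filter (fun m => f m = σ)) (by
            intro m hm
            refine ⟨(hS m (mem_filter.1 hm).1).1, hcg m hm, ?_⟩
            intro l hl hlw' hlq
            refine (hS m (mem_filter.1 hm).1).2.2.2 l hl hlw' ?_
            intro h
            apply hlq
            have e : b * a * D = a * (b * D) := by ring
            rw [e]
            exact h)
        refine h1.trans ?_
        rw [hX]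
        have : 0 ≤ 16 * ((H : ℝ) / ((b * a : ℕ) : ℝ)) ^ 4 / Real.log w * gg (b * a * D) := by
          positivity
        have e : (C0 + 16) * ((H : ℝ) / ((b * a : ℕ) : ℝ)) ^ 4 / Real.log w * gg (b * a * D) =
            C0 * ((H : ℝ) / ((b * a : ℕ) : ℝ)) ^ 4 / Real.log w * gg (b * a * D) +
            16 * ((H : ℝ) / ((b * a : ℕ) : ℝ)) ^ 4 / Real.log w * gg (b * a * D) := by ring
        rw [e]
        linarith
      · have hPer : Per (b * a) (fun m : Fin 4 → ℤ => Cg (b * a) m m0) := by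
          intro x y hxy hx i
          have h1 := dvd_sub (hx i) (hxy i)
          have e : x i - m0 i - (x i - y i) = y i - m0 i := by ring
          rwa [e] at h1
        have h1 := ctp_le A0 H (b * a) (Nat.mul_pos hb ha1) (by exact_mod_cast hlH)
          (fun m : Fin 4 → ℤ => Cg (b * a) m m0) hPer
        have h2 : (nn (Fin 4) (b * a) (fun m => Cg (b * a) m m0) : ℝ) ≤ 1 := by
          exact_mod_cast Cor_nn_one (b * a) m0
        have h3 : (((S.filter (fun m => f m = σ)).card : ℕ) : ℝ) ≤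
            (((bx A0 (fun _ => H)).filter (fun m : Fin 4 → ℤ => Cg (b * a) m m0)).card : ℝ) := by
          exact_mod_cast Finset.card_le_card (by
            intro m hm
            rw [mem_filter]
            exact ⟨(hS m (mem_filter.1 hm).1).1, hcg m hm⟩)
        have hlog1 : Real.log w ≤ 1 := by
          have h5 : w < 2 := not_le.1 h2w
          have h6 := Real.log_le_sub_one_of_pos (show 0 < w by linarith)
          linarith
        set Y : ℝ := ((H : ℝ) / ((b * a : ℕ) : ℝ)) ^ 4 with hY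
        have hY0 : 0 ≤ Y := by positivity
        have h6 : 1 ≤ gg (b * a * D) / Real.log w := by
          rw [le_div_iff₀ hlw]
          linarith
        calc (((S.filter (fun m => f m = σ)).card : ℕ) : ℝ) ≤ 16 * Y *
              nn (Fin 4) (b * a) (fun m => Cg (b * a) m m0) := h3.trans h1
          _ ≤ 16 * Y * 1 := mul_le_mul_of_nonneg_left h2 (by positivity)
          _ ≤ (C0 + 16) * Y * (gg (b * a * D) / Real.log w) :=
              mul_le_mul (by nlinarith) h6 (by norm_num) (by positivity)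
          _ = X := by rw [hX]; ring
  have hcard : (S.card : ℝ) ≤ (nn (Fin 4) a (fun m => (a : ℤ) ∣ qf c m) : ℝ) * X := by
    rw [Finset.card_eq_sum_card_fiberwise (f := f)
      (t := (cub (Fin 4) a).filter (fun m => (a : ℤ) ∣ qf c m)) (fun m hm => hmap m hm)]
    push_cast
    refine (Finset.sum_le_sum hfib).trans ?_
    rw [Finset.sum_const, nsmul_eq_mul]
    have e : (nn (Fin 4) a (fun m => (a : ℤ) ∣ qf c m) : ℝ) =
        (((cub (Fin 4) a).filter (fun m => (a : ℤ) ∣ qf c m)).card : ℝ) := by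
      unfold nn
      congr!
    rw [e]
  have hnn := Cor_nn hF ha hcopaD
  have hgg : gg (b * a * D) ≤ gg a * gg (b * D) := by
    have e : b * a * D = a * (b * D) := by ring
    rw [e]
    exact gg_mul_le _ _
  have hX2 : X ≤ (C0 + 16) * ((H : ℝ) / ((b * a : ℕ) : ℝ)) ^ 4 / Real.log w *
      (gg a * gg (b * D)) := by
    rw [hX]
    exact mul_le_mul_of_nonneg_left hgg (by positivity)
  calc (S.card : ℝ) ≤ (nn (Fin 4) a (fun m => (a : ℤ) ∣ qf c m) : ℝ) * X := hcard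
    _ ≤ ((a : ℝ) ^ 3 * gg a) * ((C0 + 16) * ((H : ℝ) / ((b * a : ℕ) : ℝ)) ^ 4 / Real.log w *
        (gg a * gg (b * D))) := mul_le_mul hnn hX2 hX0 (by positivity)
    _ = (C0 + 16) / Real.log w * gg (b * D) * ((H : ℝ) / b) ^ 4 * (gg a ^ 2 / (a : ℝ)) := by
        push_cast
        field_simp

open Classical in
/-- the pointwise bound -/
private theorem Cor_pt {T c2 A : ℝ} (hT : 1 < T) (hc : 0 < c2) (hA : 0 ≤ A)
    (c : Matrix (Fin 4) (Fin 4) ℤ) (M : ℕ) (m : Fin 4 → ℤ) (h0 : qf c m ≠ 0)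
    (h1 : ((qf c m).natAbs : ℝ) ≤ T ^ A) (ps : ℕ → ℝ) (hps : ∀ l, 0 ≤ ps l ∧ ps l ≤ 2) :
    ∏ l ∈ Ps (T ^ c2) M (qf c m).natAbs, ps l ≤
      ∑ i ∈ range (NL (T ^ c2)), ∑ a ∈ AA (T ^ c2) i,
        if Nat.Coprime a M ∧ (a : ℤ) ∣ qf c m ∧ (∀ l : ℕ, l.Prime → (l : ℝ) ≤ ww (T ^ c2) i →
          ¬ l ∣ a * M → ¬ (l : ℤ) ∣ qf c m) then
          (2 : ℝ) ^ ((2 * A / c2) * 2 ^ i) * ∏ l ∈ a.primeFactors, ps l else 0 := by
  have hz1 : 1 ≤ T ^ c2 := Real.one_le_rpow hT.le hc.le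
  have hn0 : (qf c m).natAbs ≠ 0 := Int.natAbs_ne_zero.2 h0
  have hSp : ∀ l ∈ Ps (T ^ c2) M (qf c m).natAbs, l.Prime := by
    intro l hl
    unfold Ps at hl
    exact Nat.prime_of_mem_primeFactors (mem_filter.1 hl).1
  have hSd : (∏ l ∈ Ps (T ^ c2) M (qf c m).natAbs, l) ∣ (qf c m).natAbs := by
    refine Finset.prod_primes_dvd _ (fun l hl => (hSp l hl).prime) (fun l hl => ?_)
    unfold Ps at hl
    exact Nat.dvd_of_mem_primeFactors (mem_filter.1 hl).1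
  have hSle : ((∏ l ∈ Ps (T ^ c2) M (qf c m).natAbs, l : ℕ) : ℝ) ≤ T ^ A := by
    refine le_trans ?_ h1
    exact_mod_cast Nat.le_of_dvd (Nat.pos_of_ne_zero hn0) hSd
  obtain ⟨i, hi, a, ha, h2, h3, h4⟩ := cov hT hc hA (Ps (T ^ c2) M (qf c m).natAbs) hSp hSle ps
    (fun l => (hps l).1) (fun l => (hps l).2)
  obtain ⟨ha1, haz, hasq⟩ := Cor_mem_AA hz1 ha
  have ha0 : a ≠ 0 := by omega
  have hprod : ∏ l ∈ a.primeFactors, l = a := Nat.prod_primeFactors_of_squarefree hasq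
  have hPp : ∀ (a : ℕ), 0 ≤ ∏ l ∈ a.primeFactors, ps l := fun a =>
    Finset.prod_nonneg (fun l _ => (hps l).1)
  have hcop : Nat.Coprime a M := by
    rw [Nat.coprime_iff_gcd_eq_one]
    by_contra hne
    obtain ⟨l, hl, hld⟩ := Nat.exists_prime_and_dvd hne
    have k1 : l ∣ a := dvd_trans hld (Nat.gcd_dvd_left _ _)
    have k2 : l ∣ M := dvd_trans hld (Nat.gcd_dvd_right _ _)
    have k3 := h2 (Nat.mem_primeFactors.2 ⟨hl, k1, ha0⟩)
    unfold Ps at k3
    exact (mem_filter.1 k3).2.1 k2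
  have hdvd : (a : ℤ) ∣ qf c m := by
    have k1 := Cor_prod_dvd a.primeFactors (fun l hl => Nat.prime_of_mem_primeFactors hl)
      (qf c m) (by
        intro l hl
        have k3 := h2 hl
        unfold Ps at k3
        exact Int.natCast_dvd.2 (Nat.dvd_of_mem_primeFactors (mem_filter.1 k3).1))
    rwa [hprod] at k1
  have hno : ∀ l : ℕ, l.Prime → (l : ℝ) ≤ ww (T ^ c2) i →
      ¬ l ∣ a * M → ¬ (l : ℤ) ∣ qf c m := by
    intro l hl hlw hlaM hlq
    have k1 : ¬ l ∣ M := fun h => hlaM (Dvd.dvd.mul_left h _)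
    have k2 : ¬ l ∣ a := fun h => hlaM (Dvd.dvd.mul_right h _)
    have k3 : l ∈ Ps (T ^ c2) M (qf c m).natAbs := by
      unfold Ps
      rw [mem_filter]
      exact ⟨Nat.mem_primeFactors.2 ⟨hl, Int.natCast_dvd.1 hlq, hn0⟩, k1,
        hlw.trans (Cor_ww_le hz1 i)⟩
    have := h3 l k3 k2
    linarith
  have hnn : ∀ (i a : ℕ), (0 : ℝ) ≤ if Nat.Coprime a M ∧ (a : ℤ) ∣ qf c m ∧
      (∀ l : ℕ, l.Prime → (l : ℝ) ≤ ww (T ^ c2) i → ¬ l ∣ a * M → ¬ (l : ℤ) ∣ qf c m) then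
        (2 : ℝ) ^ ((2 * A / c2) * 2 ^ i) * ∏ l ∈ a.primeFactors, ps l else 0 := by
    intro i a
    have := hPp a
    split_ifs
    · positivity
    · exact le_rfl
  have e1 := Finset.single_le_sum (f := fun i => ∑ a ∈ AA (T ^ c2) i,
      if Nat.Coprime a M ∧ (a : ℤ) ∣ qf c m ∧
      (∀ l : ℕ, l.Prime → (l : ℝ) ≤ ww (T ^ c2) i → ¬ l ∣ a * M → ¬ (l : ℤ) ∣ qf c m) then
        (2 : ℝ) ^ ((2 * A / c2) * 2 ^ i) * ∏ l ∈ a.primeFactors, ps l else 0)
    (fun i _ => sum_nonneg (fun a _ => hnn i a)) hi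
  have e2 := Finset.single_le_sum (f := fun a =>
      if Nat.Coprime a M ∧ (a : ℤ) ∣ qf c m ∧
      (∀ l : ℕ, l.Prime → (l : ℝ) ≤ ww (T ^ c2) i → ¬ l ∣ a * M → ¬ (l : ℤ) ∣ qf c m) then
        (2 : ℝ) ^ ((2 * A / c2) * 2 ^ i) * ∏ l ∈ a.primeFactors, ps l else 0)
    (fun a _ => hnn i a) ha
  refine le_trans ?_ e1
  refine le_trans ?_ e2
  rw [if_pos ⟨hcop, hdvd, hno⟩]
  exact h4

theorem cor (δ A η : ℝ) (hδ : 0 < δ) (hA : 0 < A) (hη : 0 < η) :
    ∃ c2 C T0 κ : ℝ, 0 < c2 ∧ c2 ≤ η ∧ 0 < C ∧ 2 ≤ T0 ∧ 0 ≤ κ ∧ ∀ T : ℝ, T0 ≤ T → 4 ≤ T ^ c2 ∧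
    ∀ (c : Matrix (Fin 4) (Fin 4) ℤ) (D : ℕ) (v : ℕ → ℕ), Frm c D v → ∀ b : ℕ, 1 ≤ b →
    (b : ℝ) ≤ T ^ (δ / 2) → ∀ (ρ A0 : Fin 4 → ℤ) (H : ℕ), T ^ δ ≤ (H : ℝ) →
    ∀ ps : ℕ → ℝ, (∀ l, 0 ≤ ps l ∧ ps l ≤ 2) → ∀ S : Finset (Fin 4 → ℤ),
    (∀ m ∈ S, m ∈ bx A0 (fun _ => H) ∧ Cg b m ρ ∧ qf c m ≠ 0 ∧ ((qf c m).natAbs : ℝ) ≤ T ^ A) →
    ∑ m ∈ S, ∏ l ∈ Ps (T ^ c2) (b * D) (qf c m).natAbs, ps l ≤
      C * gg (b * D) * ((H : ℝ) / b) ^ 4 * Sg (T ^ c2) κ ps D := by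
  classical
  obtain ⟨c0, C0, hc0, hC0, hsv⟩ := svq
  set c2 : ℝ := min η (δ / (4 * (c0 + 2))) with hc2
  have hc2p : 0 < c2 := lt_min hη (by positivity)
  have hc2η : c2 ≤ η := min_le_left _ _
  have hc2δ : c2 * (1 + c0) ≤ δ / 2 := by
    have h1 : c2 ≤ δ / (4 * (c0 + 2)) := min_le_right _ _
    have h2 : c2 * (4 * (c0 + 2)) ≤ δ := by
      rwa [le_div_iff₀ (by positivity)] at h1
    nlinarith
  refine ⟨c2, C0 + 16, 2 + 4 ^ (1 / c2), 2 * A / c2, hc2p, hc2η, by positivity, ?_,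
    by positivity, ?_⟩
  · have : (0 : ℝ) < 4 ^ (1 / c2) := by positivity
    linarith
  intro T hT
  have h4p : (0 : ℝ) < 4 ^ (1 / c2) := by positivity
  have hT1 : 1 < T := by linarith
  have hT0 : 0 < T := by linarith
  have hz4 : 4 ≤ T ^ c2 := by
    have h1 : ((4 : ℝ) ^ (1 / c2)) ^ c2 ≤ T ^ c2 :=
      Real.rpow_le_rpow (by positivity) (by linarith) hc2p.le
    rwa [← Real.rpow_mul (by norm_num), one_div_mul_cancel hc2p.ne', Real.rpow_one] at h1
  refine ⟨hz4, ?_⟩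
  intro c D v hF b hb hbT ρ A0 H hH ps hps S hS
  have hPp : ∀ (a : ℕ), 0 ≤ ∏ l ∈ a.primeFactors, ps l := fun a =>
    Finset.prod_nonneg (fun l _ => (hps l).1)
  set z : ℝ := T ^ c2 with hz
  have hbr : (1 : ℝ) ≤ b := by exact_mod_cast hb
  have hg2 := gg_one_le (b * D)
  have hW0 : 0 ≤ ((H : ℝ) / b) ^ 4 := by positivity
  calc ∑ m ∈ S, ∏ l ∈ Ps z (b * D) (qf c m).natAbs, ps l
      ≤ ∑ m ∈ S, ∑ i ∈ range (NL z), ∑ a ∈ AA z i,
        (if Nat.Coprime a (b * D) ∧ (a : ℤ) ∣ qf c m ∧ (∀ l : ℕ, l.Prime →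
          (l : ℝ) ≤ ww z i → ¬ l ∣ a * (b * D) → ¬ (l : ℤ) ∣ qf c m) then
          (2 : ℝ) ^ ((2 * A / c2) * 2 ^ i) * ∏ l ∈ a.primeFactors, ps l else 0) := by
        refine sum_le_sum (fun m hm => ?_)
        exact Cor_pt hT1 hc2p hA.le c (b * D) m (hS m hm).2.2.1 (hS m hm).2.2.2 ps hps
    _ = ∑ i ∈ range (NL z), ∑ a ∈ AA z i, ∑ m ∈ S,
        (if Nat.Coprime a (b * D) ∧ (a : ℤ) ∣ qf c m ∧ (∀ l : ℕ, l.Prime →
          (l : ℝ) ≤ ww z i → ¬ l ∣ a * (b * D) → ¬ (l : ℤ) ∣ qf c m) then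
          (2 : ℝ) ^ ((2 * A / c2) * 2 ^ i) * ∏ l ∈ a.primeFactors, ps l else 0) := by
        rw [sum_comm]
        refine sum_congr rfl (fun i _ => ?_)
        rw [sum_comm]
    _ ≤ ∑ i ∈ range (NL z), ∑ a ∈ (AA z i).filter (fun a => Nat.Coprime a D),
        (2 : ℝ) ^ ((2 * A / c2) * 2 ^ i) * (∏ l ∈ a.primeFactors, ps l) *
        ((C0 + 16) / Real.log (ww z i) * gg (b * D) * ((H : ℝ) / b) ^ 4 *
          (gg a ^ 2 / (a : ℝ))) := by
        refine sum_le_sum (fun i _ => ?_)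
        rw [sum_filter]
        refine sum_le_sum (fun a ha => ?_)
        obtain ⟨ha1, haz, hasq⟩ := Cor_mem_AA (by linarith) ha
        have hw1 : 1 < ww z i := Cor_one_lt_ww (by linarith) i
        have hlw : 0 < Real.log (ww z i) := Real.log_pos hw1
        have har : (1 : ℝ) ≤ a := by exact_mod_cast ha1
        have hga := gg_one_le a
        have hPa := hPp a
        by_cases hcop : Nat.Coprime a (b * D)
        · rw [if_pos (Nat.Coprime.coprime_mul_left_right hcop)]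
          rw [← sum_filter, sum_const, nsmul_eq_mul, mul_comm]
          apply mul_le_mul_of_nonneg_left _ (by positivity)
          apply Cor_count hc0 hC0 hsv hF hb ha1 hasq hcop ρ A0 H hw1
          · -- the size condition
            push_cast
            have h1 : ww z i ^ c0 ≤ z ^ c0 :=
              Real.rpow_le_rpow (by linarith) (Cor_ww_le (by linarith) i) (by linarith)
            have h2 : (b : ℝ) * a ≤ T ^ (δ / 2) * z :=
              mul_le_mul hbT haz (by linarith) (by positivity)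
            calc (b : ℝ) * a * ww z i ^ c0 ≤ T ^ (δ / 2) * z * z ^ c0 :=
                  mul_le_mul h2 h1 (by positivity) (by positivity)
              _ = T ^ (δ / 2 + c2 * (1 + c0)) := by
                  rw [hz, ← Real.rpow_mul hT0.le, ← Real.rpow_add hT0, ← Real.rpow_add hT0]
                  congr 1
                  ring
              _ ≤ T ^ δ := Real.rpow_le_rpow_of_exponent_le hT1.le (by linarith)
              _ ≤ H := hH
          · intro m hm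
            rw [mem_filter] at hm
            obtain ⟨k1, k2, k3, k4⟩ := hm
            exact ⟨(hS m k1).1, (hS m k1).2.1, k3, k4⟩
        · rw [sum_eq_zero]
          · split_ifs
            · positivity
            · exact le_rfl
          · intro m _
            rw [if_neg]
            rintro ⟨e, _⟩
            exact hcop e
    _ = (C0 + 16) * gg (b * D) * ((H : ℝ) / b) ^ 4 * Sg z (2 * A / c2) ps D := by
        unfold Sg
        rw [mul_sum]
        refine sum_congr rfl (fun i _ => ?_)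
        rw [mul_sum, mul_sum]
        refine sum_congr rfl (fun a _ => ?_)
        ring

end Pool.Agent.PP5C
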