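import Pool.Agent.PP5C.Defs
import Pool.Agent.PPS.Pfx

/-!
# Cov: every set of primes is covered by a prefix (difficulty 2)

COPY of `Pool/Agent/PPS/Cov.lean` (private theorems `cov_log_ww`, `cov_fin` and `cover`), with an abstract
set `S` of primes instead of `SS m p y1 y2 y3`, with `T ^ A` instead of `T ^ 8` and `2` instead of `3`.
* apply `pfx S z`, `z = T ^ c2`: either `∏ S ≤ z` (`i = 0`, `a = ∏ S`) or there is `q ∈ S` such that
  `a = ∏ l ∈ S.filter (· < q), l ≤ z < a * q`.  If `ww z 0 < q`: `i = 0`.  Else `i = k + 1` least with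
  `ww z i < q`; then `q ≤ ww z k`, `a > z / q ≥ √z`.
* the primes of `S` not dividing `a` are all `> ww z i` and their product is at most `T ^ A`, so their
  number `u` satisfies `u * c2 * log T / 2 ^ (i + 1) ≤ A * log T`, i.e. `u ≤ (2 A / c2) * 2 ^ i`, and
  `∏ S ps = ∏ (primes of a) ps * ∏ (others) ps ≤ 2 ^ u * ∏ (primes of a) ps`.
-/

set_option autoImplicit false

namespace Pool.Agent.PP5C

open Finset Pool.Agent.PPS

private theorem cov_log_ww {z : ℝ} (i : ℕ) : Real.log (ww z i) = Real.log z / 2 ^ (i + 1) := by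
  unfold ww
  rw [Real.log_exp]

private theorem cov_fin {T c2 A : ℝ} (hT : 1 < T) (hc : 0 < c2) (hA : 0 ≤ A) {S : Finset ℕ}
    (hS : ∀ l ∈ S, l.Prime) (hP : ((∏ l ∈ S, l : ℕ) : ℝ) ≤ T ^ A) {ps : ℕ → ℝ}
    (h0 : ∀ l, 0 ≤ ps l) (h2 : ∀ l, ps l ≤ 2)
    {S' : Finset ℕ} (hS' : S' ⊆ S) (i : ℕ) (hi : (i : ℝ) ≤ 2 * Real.log (T ^ c2))
    (hbig : ∀ l ∈ S, l ∉ S' → ww (T ^ c2) i < (l : ℝ))
    (hAA : ∀ a : ℕ, a = ∏ l ∈ S', l → Squarefree a → a.primeFactors = S' → a ∈ AA (T ^ c2) i) :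
    ∃ i ∈ range (NL (T ^ c2)), ∃ a ∈ AA (T ^ c2) i, a.primeFactors ⊆ S ∧
      (∀ l ∈ S, ¬ l ∣ a → ww (T ^ c2) i < (l : ℝ)) ∧
      ∏ l ∈ S, ps l ≤ (2 : ℝ) ^ ((2 * A / c2) * 2 ^ i) * ∏ l ∈ a.primeFactors, ps l := by
  have hpr' : ∀ l ∈ S', l.Prime := fun l hl => hS l (hS' hl)
  have hpf : (∏ l ∈ S', l : ℕ).primeFactors = S' := Nat.primeFactors_prod hpr'
  have hsq : Squarefree (∏ l ∈ S', l : ℕ) := by
    refine Finset.squarefree_prod_of_pairwise_isCoprime ?_ (fun l hl => (hpr' l hl).prime.squarefree)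
    intro l hl l' hl' hne
    show IsRelPrime l l'
    rw [← Nat.coprime_iff_isRelPrime]
    exact (Nat.coprime_primes (hpr' l hl) (hpr' l' hl')).mpr hne
  refine ⟨i, ?_, ∏ l ∈ S', l, hAA _ rfl hsq hpf, ?_, ?_, ?_⟩
  · rw [mem_range]
    unfold NL
    have : i ≤ ⌊2 * Real.log (T ^ c2)⌋₊ := Nat.le_floor hi
    omega
  · rw [hpf]
    exact hS'
  · intro l hl hla
    apply hbig l hl
    intro hlS
    exact hla (dvd_prod_of_mem _ hlS)
  · -- the bound
    rw [hpf]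
    have hlogT : 0 < Real.log T := Real.log_pos hT
    have hT0 : 0 < T := by linarith
    set U : Finset ℕ := S \ S' with hU
    have hUS : U ⊆ S := sdiff_subset
    have hlogz : Real.log (T ^ c2) = c2 * Real.log T := Real.log_rpow hT0 c2
    have hww : Real.log (ww (T ^ c2) i) = c2 * Real.log T / 2 ^ (i + 1) := by
      rw [cov_log_ww, hlogz]
    have hcard : (U.card : ℝ) ≤ 2 * A / c2 * 2 ^ i := by
      have e1 : (U.card : ℝ) * Real.log (ww (T ^ c2) i) ≤ ∑ l ∈ U, Real.log (l : ℝ) := by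
        rw [← nsmul_eq_mul, ← sum_const]
        refine sum_le_sum (fun l hl => ?_)
        have hl2 := mem_sdiff.mp hl
        exact Real.log_le_log (by unfold ww; exact Real.exp_pos _) (hbig l hl2.1 hl2.2).le
      have e2 : ∑ l ∈ U, Real.log (l : ℝ) = Real.log ((∏ l ∈ U, l : ℕ) : ℝ) := by
        rw [Nat.cast_prod, Real.log_prod]
        intro l hl
        have := (hS l (hUS hl)).pos
        positivity
      have e3 : ((∏ l ∈ U, l : ℕ) : ℝ) ≤ T ^ A := by
        have h3 : (∏ l ∈ U, l : ℕ) ≤ ∏ l ∈ S, l :=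
          Nat.le_of_dvd (prod_pos (fun l hl => (hS l hl).pos)) (prod_dvd_prod_of_subset _ _ _ hUS)
        calc ((∏ l ∈ U, l : ℕ) : ℝ) ≤ ((∏ l ∈ S, l : ℕ) : ℝ) := by exact_mod_cast h3
          _ ≤ _ := hP
      have e4 : Real.log ((∏ l ∈ U, l : ℕ) : ℝ) ≤ A * Real.log T := by
        have hpos : 0 < ((∏ l ∈ U, l : ℕ) : ℝ) := by
          exact_mod_cast prod_pos (fun l hl => (hS l (hUS hl)).pos)
        calc Real.log ((∏ l ∈ U, l : ℕ) : ℝ) ≤ Real.log (T ^ A) := Real.log_le_log hpos e3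
          _ = A * Real.log T := Real.log_rpow hT0 A
      have e5 : (U.card : ℝ) * (c2 * Real.log T / 2 ^ (i + 1)) ≤ A * Real.log T := by
        rw [← hww]
        linarith
      have e6 : (U.card : ℝ) * c2 ≤ A * 2 ^ (i + 1) := by
        have h2 : (0 : ℝ) < 2 ^ (i + 1) := by positivity
        have h3 : (U.card : ℝ) * (c2 * Real.log T / 2 ^ (i + 1)) =
            ((U.card : ℝ) * c2) * Real.log T / 2 ^ (i + 1) := by ring
        rw [h3, div_le_iff₀ h2] at e5
        have h4 : ((U.card : ℝ) * c2) * Real.log T ≤ (A * 2 ^ (i + 1)) * Real.log T := by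
          linarith
        exact le_of_mul_le_mul_right h4 hlogT
      have e7 : 2 * A / c2 * 2 ^ i = A * 2 ^ (i + 1) / c2 := by
        rw [pow_succ]; ring
      rw [e7, le_div_iff₀ hc]
      exact e6
    have hff : ∏ l ∈ S, ps l = (∏ l ∈ U, ps l) * ∏ l ∈ S', ps l := by
      rw [hU]
      exact (prod_sdiff hS').symm
    have hU3 : ∏ l ∈ U, ps l ≤ (2 : ℝ) ^ U.card := by
      calc ∏ l ∈ U, ps l ≤ ∏ _l ∈ U, (2 : ℝ) :=
            prod_le_prod (fun l _ => h0 l) (fun l _ => h2 l)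
        _ = (2 : ℝ) ^ U.card := by rw [prod_const]
    have hU4 : ∏ l ∈ U, ps l ≤ (2 : ℝ) ^ (2 * A / c2 * 2 ^ i) := by
      calc ∏ l ∈ U, ps l ≤ (2 : ℝ) ^ U.card := hU3
        _ = (2 : ℝ) ^ (U.card : ℝ) := by rw [Real.rpow_natCast]
        _ ≤ (2 : ℝ) ^ (2 * A / c2 * 2 ^ i) :=
            Real.rpow_le_rpow_of_exponent_le (by norm_num) hcard
    rw [hff]
    exact mul_le_mul_of_nonneg_right hU4 (prod_nonneg (fun l _ => h0 l))

theorem cov {T c2 A : ℝ} (hT : 1 < T) (hc : 0 < c2) (hA : 0 ≤ A) (S : Finset ℕ)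
    (hS : ∀ l ∈ S, l.Prime) (hP : ((∏ l ∈ S, l : ℕ) : ℝ) ≤ T ^ A) (ps : ℕ → ℝ)
    (h0 : ∀ l, 0 ≤ ps l) (h2 : ∀ l, ps l ≤ 2) :
    ∃ i ∈ range (NL (T ^ c2)), ∃ a ∈ AA (T ^ c2) i, a.primeFactors ⊆ S ∧
      (∀ l ∈ S, ¬ l ∣ a → ww (T ^ c2) i < (l : ℝ)) ∧
      ∏ l ∈ S, ps l ≤ (2 : ℝ) ^ ((2 * A / c2) * 2 ^ i) * ∏ l ∈ a.primeFactors, ps l := by
  have hT0 : 0 < T := by linarith
  have hz1 : 1 < T ^ c2 := Real.one_lt_rpow hT hc
  have hlz : 0 < Real.log (T ^ c2) := Real.log_pos hz1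
  have hi0 : ((0 : ℕ) : ℝ) ≤ 2 * Real.log (T ^ c2) := by
    rw [Nat.cast_zero]; linarith
  have hmem0 : ∀ a : ℕ, Squarefree a → (a : ℝ) ≤ T ^ c2 → a ∈ AA (T ^ c2) 0 := by
    intro a hsq ha
    unfold AA
    rw [mem_filter, mem_Icc]
    exact ⟨⟨Nat.one_le_iff_ne_zero.mpr hsq.ne_zero, Nat.le_floor ha⟩, hsq⟩
  rcases pfx S (T ^ c2) hz1.le with hB0 | ⟨q, hq, hB0, hB⟩
  · refine cov_fin hT hc hA hS hP h0 h2 (subset_refl _) 0 hi0 (fun l hl hn => absurd hl hn) ?_
    intro a ha hsq _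
    exact hmem0 a hsq (by rw [ha]; exact hB0)
  · have hq2 : 2 ≤ q := (hS q hq).two_le
    have hq2r : (2 : ℝ) ≤ q := by exact_mod_cast hq2
    have hsub : S.filter (fun l => l < q) ⊆ S := filter_subset _ _
    have hgeq : ∀ l ∈ S, l ∉ S.filter (fun l => l < q) → (q : ℝ) ≤ (l : ℝ) := by
      intro l hl hn
      rw [mem_filter] at hn
      have : ¬ l < q := fun h => hn ⟨hl, h⟩
      exact_mod_cast not_lt.mp this
    rcases lt_or_ge (ww (T ^ c2) 0) (q : ℝ) with hc0 | hc0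
    · refine cov_fin hT hc hA hS hP h0 h2 hsub 0 hi0
        (fun l hl hn => lt_of_lt_of_le hc0 (hgeq l hl hn)) ?_
      intro a ha hsq _
      exact hmem0 a hsq (by rw [ha]; exact hB0)
    · have hl2 : 0 < Real.log 2 := Real.log_pos (by norm_num)
      have hex : ∃ i : ℕ, ww (T ^ c2) i < (q : ℝ) := by
        obtain ⟨i, hi⟩ := exists_nat_gt (Real.log (T ^ c2) / Real.log 2)
        refine ⟨i, lt_of_lt_of_le ?_ hq2r⟩
        unfold ww
        rw [← Real.exp_log (show (0 : ℝ) < 2 by norm_num)]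
        rw [Real.exp_lt_exp, Real.exp_log (show (0 : ℝ) < 2 by norm_num)]
        rw [div_lt_iff₀ hl2] at hi
        have h2 : (0 : ℝ) < 2 ^ (i + 1) := by positivity
        rw [div_lt_iff₀ h2]
        have h3 : (i : ℝ) ≤ 2 ^ (i + 1) := by
          have : i < 2 ^ (i + 1) := lt_trans (Nat.lt_succ_self i) (Nat.lt_two_pow_self)
          exact_mod_cast this.le
        nlinarith
      classical
      obtain ⟨i, hi, hmin⟩ : ∃ i : ℕ, ww (T ^ c2) i < (q : ℝ) ∧
          ∀ j < i, ¬ ww (T ^ c2) j < (q : ℝ) :=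
        ⟨Nat.find hex, Nat.find_spec hex, fun j hj => Nat.find_min hex hj⟩
      obtain _ | k := i
      · exact absurd hi (not_lt.mpr hc0)
      · have hk : (q : ℝ) ≤ ww (T ^ c2) k := not_lt.mp (hmin k (Nat.lt_succ_self k))
        have hi2 : (((k + 1 : ℕ)) : ℝ) ≤ 2 * Real.log (T ^ c2) := by
          have e1 : Real.log 2 ≤ Real.log (T ^ c2) / 2 ^ (k + 1) := by
            rw [← cov_log_ww]
            exact Real.log_le_log (by norm_num) (hq2r.trans hk)
          have h2 : (0 : ℝ) < 2 ^ (k + 1) := by positivity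
          rw [le_div_iff₀ h2] at e1
          have h3 : ((k + 1 : ℕ) : ℝ) ≤ 2 ^ (k + 1) := by
            have : k + 1 < 2 ^ (k + 1) := Nat.lt_two_pow_self
            exact_mod_cast this.le
          have h4 : (1 : ℝ) / 2 ≤ Real.log 2 := by
            have := Real.log_two_gt_d9
            linarith
          nlinarith
        refine cov_fin hT hc hA hS hP h0 h2 hsub (k + 1) hi2
          (fun l hl hn => lt_of_lt_of_le hi (hgeq l hl hn)) ?_
        intro a ha hsq hpf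
        rw [← ha] at hB0 hB
        have hsqrt : ww (T ^ c2) 0 = Real.sqrt (T ^ c2) := by
          unfold ww
          rw [zero_add, pow_one, Real.exp_half, Real.exp_log (by linarith)]
        unfold AA
        rw [mem_filter, mem_Icc]
        refine ⟨⟨Nat.one_le_iff_ne_zero.mpr hsq.ne_zero, Nat.le_floor hB0⟩, hsq, ?_, ?_⟩
        · have hs0 : 0 < Real.sqrt (T ^ c2) := Real.sqrt_pos.mpr (by linarith)
          have hss : Real.sqrt (T ^ c2) * Real.sqrt (T ^ c2) = T ^ c2 :=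
            Real.mul_self_sqrt (by linarith)
          have h5 : (a : ℝ) * q ≤ (a : ℝ) * Real.sqrt (T ^ c2) := by
            rw [← hsqrt]
            exact mul_le_mul_of_nonneg_left hc0 (Nat.cast_nonneg a)
          have h6 : Real.sqrt (T ^ c2) * Real.sqrt (T ^ c2) < (a : ℝ) * Real.sqrt (T ^ c2) := by
            rw [hss]; linarith
          exact lt_of_mul_lt_mul_right h6 hs0.le
        · intro l hl
          rw [hpf, mem_filter] at hl
          have : (l : ℝ) ≤ q := by exact_mod_cast hl.2.le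
          linarith

end Pool.Agent.PP5C
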