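import Pool.Agent.PPS.Defs

/-!
# PP5 section (c): the averages of the weights (MP_0f260b_nt), definitions

`FX` is the quadratic form of `Z^10`, `SX x` the symmetric matrix `S(x)`, `DX x = det S(x)`.
`c` is the (not necessarily symmetric) integral matrix of the quaternary form `qf c m = F_x(m)`.
`gg n = n / φ(n)`, `ww z i = z ^ (1 / 2 ^ (i + 1))`, `AA z i` are the prefixes of PPS.
-/

set_option autoImplicit false

namespace Pool.Agent.PP5C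

open Finset Pool.Agent.PPS

/-- the points of the cube `[0, n) ^ ι` (representatives of the classes modulo `n`) -/
noncomputable def cub (ι : Type) [Fintype ι] [DecidableEq ι] (n : ℕ) : Finset (ι → ℤ) :=
  Fintype.piFinset fun _ => Ico (0 : ℤ) (n : ℤ)

/-- the box with corner `A` and sides `H` -/
noncomputable def bx {ι : Type} [Fintype ι] [DecidableEq ι] (A : ι → ℤ) (H : ι → ℕ) :
    Finset (ι → ℤ) :=
  Fintype.piFinset fun i => Ico (A i) (A i + (H i : ℤ))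

/-- congruence modulo `n` -/
def Cg {ι : Type} (n : ℕ) (x y : ι → ℤ) : Prop := ∀ i, (n : ℤ) ∣ x i - y i

/-- `P` is a property of the class modulo `n` -/
def Per {ι : Type} (n : ℕ) (P : (ι → ℤ) → Prop) : Prop := ∀ x y, Cg n x y → P x → P y

/-- `φ` is a function of the class modulo `n` -/
def PerF {ι : Type} (n : ℕ) (φ : (ι → ℤ) → ℝ) : Prop := ∀ x y, Cg n x y → φ x = φ y

/-- `m` is primitive at `l` -/
def Pv {ι : Type} (l : ℕ) (m : ι → ℤ) : Prop := ∃ i, ¬ (l : ℤ) ∣ m i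

/-- `m` is primitive -/
def Pm {ι : Type} (m : ι → ℤ) : Prop := ∀ l : ℕ, l.Prime → Pv l m

open Classical in
/-- the number of classes modulo `n` with the property `P` -/
noncomputable def nn (ι : Type) [Fintype ι] [DecidableEq ι] (n : ℕ) (P : (ι → ℤ) → Prop) : ℕ :=
  ((cub ι n).filter P).card

/-- the quaternary quadratic form with the coefficients `c` -/
def qf (c : Matrix (Fin 4) (Fin 4) ℤ) (m : Fin 4 → ℤ) : ℤ := ∑ i, ∑ j, c i j * m i * m j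

/-- `n` divides all the coefficients of the form `c` -/
def Cn (n : ℕ) (c : Matrix (Fin 4) (Fin 4) ℤ) : Prop :=
  (∀ i, (n : ℤ) ∣ c i i) ∧ ∀ i j, i ≠ j → (n : ℤ) ∣ c i j + c j i

open Classical in
/-- the primes `l ≤ z` dividing `n` -/
noncomputable def Pz (z : ℝ) (n : ℕ) : Finset ℕ := n.primeFactors.filter (fun l : ℕ => (l : ℝ) ≤ z)

open Classical in
/-- the primes `l ≤ z` dividing `n` but not `M` -/
noncomputable def Ps (z : ℝ) (M : ℕ) (n : ℕ) : Finset ℕ :=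
  n.primeFactors.filter (fun l : ℕ => ¬ l ∣ M ∧ (l : ℝ) ≤ z)

/-- the number of levels -/
noncomputable def NL (z : ℝ) : ℕ := ⌊2 * Real.log z⌋₊ + 1

open Classical in
/-- the sum over the prefixes -/
noncomputable def Sg (z κ : ℝ) (ps : ℕ → ℝ) (D : ℕ) : ℝ :=
  ∑ i ∈ range (NL z), ((2 : ℝ) ^ (κ * 2 ^ i) / Real.log (ww z i)) *
    ∑ a ∈ (AA z i).filter (fun a => Nat.Coprime a D),
      (gg a ^ 2 / (a : ℝ)) * ∏ l ∈ a.primeFactors, ps l

/-- the local majorant at a prime `l` dividing `D`, `v` = exponent of `l` in the content -/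
noncomputable def hh (C : ℝ) (l v : ℕ) : ℝ :=
  if v = 0 then C / (l : ℝ) else C * ((v : ℝ) + 1) ^ 2 * (l : ℝ) ^ (v / 3)

/-- the local majorants of all primes `l ≤ z` dividing `D` -/
noncomputable def HH (C z : ℝ) (D : ℕ) (v : ℕ → ℕ) : ℝ := ∏ l ∈ Pz z D, (1 + hh C l (v l))

/-- the part `≤ z` of the content -/
noncomputable def VV (z : ℝ) (D : ℕ) (v : ℕ → ℕ) : ℕ := ∏ l ∈ Pz z D, l ^ v l

/-- the density bound for `l ^ k ∣ qf c m`; `v` = exponents of the content -/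
noncomputable def pk (D : ℕ) (v : ℕ → ℕ) (l k : ℕ) : ℝ :=
  if l ∣ D then 2 / (l : ℝ) ^ ((k - v l + 1) / 2)
  else min (2 / (l : ℝ) ^ 2) (2 / (l : ℝ) ^ ((k + 1) / 2))

/-- the local weight of a bad prime power -/
noncomputable def wk (D l k : ℕ) : ℝ :=
  if l ∣ D then 2 * ((k : ℝ) + 1) * (l : ℝ) ^ (k / 3) else (k : ℝ) + 1

/-- the weight of the bad part `b` -/
noncomputable def wb (D b : ℕ) : ℝ := ∏ l ∈ b.primeFactors, wk D l (b.factorization l)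

/-- `b` is a possible bad part -/
def BB (z : ℝ) (D b : ℕ) : Prop :=
  ∀ l ∈ b.primeFactors, (l : ℝ) ≤ z ∧ (¬ l ∣ D → 2 ≤ b.factorization l)

open Classical in
/-- the bad part of `n` -/
noncomputable def bm (z : ℝ) (D n : ℕ) : ℕ :=
  ∏ l ∈ n.primeFactors.filter (fun l : ℕ => (l : ℝ) ≤ z ∧ (l ∣ D ∨ 2 ≤ n.factorization l)),
    l ^ n.factorization l

/-- the hypotheses on the form `c`: `D` is the (even) modulus of the bad primes, `v` the exponents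
of the content -/
structure Frm (c : Matrix (Fin 4) (Fin 4) ℤ) (D : ℕ) (v : ℕ → ℕ) : Prop where
  pos : 1 ≤ D
  two : 2 ∣ D
  det : ∀ l : ℕ, l.Prime → ¬ l ∣ D → ¬ (l : ℤ) ∣ (c + c.transpose).det
  con : ∀ l : ℕ, l.Prime → ¬ Cn (l ^ (v l + 1)) c

/-- the weights `om l` (`l` a prime dividing `n`) are admissible -/
structure Wgt (D n : ℕ) (ps : ℕ → ℝ) (om : ℕ → ℝ) (ix : ℕ → ℕ) : Prop where
  nn : ∀ l ∈ n.primeFactors, 0 ≤ om l
  one : ∀ l ∈ n.primeFactors, ¬ l ∣ D → n.factorization l = 1 → om l ≤ ps l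
  two : ∀ l ∈ n.primeFactors, ¬ l ∣ D → 2 ≤ n.factorization l → om l ≤ (n.factorization l : ℝ) + 1
  bad : ∀ l ∈ n.primeFactors, l ∣ D → om l ≤ ((n.factorization l : ℝ) + 1) * (l : ℝ) ^ ix l
  ixo : ∀ l ∈ n.primeFactors, l ∣ D → l ≠ 2 → 3 * ix l ≤ n.factorization l
  ixt : 2 ∈ n.primeFactors → 3 * ix 2 ≤ n.factorization 2 + 2

/-- `s(x, m)` -/
def sx (D n : ℕ) (ix : ℕ → ℕ) : ℕ := ∏ l ∈ n.primeFactors.filter (fun l => l ∣ D), l ^ ix l

/-- the quadratic form of `Z^10` -/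
def FX (x : Fin 10 → ℤ) : ℤ := x 0 * x 2 - x 1 * x 3 - x 4 * x 5 - x 6 * x 9 + x 7 * x 8

/-- the symmetric matrix `S(x)` -/
def SX (x : Fin 10 → ℤ) : Matrix (Fin 4) (Fin 4) ℤ :=
  !![2 * x 0, -(x 4 + x 5), x 6, -(x 8);
     -(x 4 + x 5), 2 * x 2, -(x 7), x 9;
     x 6, -(x 7), -(2 * x 1), x 4 - x 5;
     -(x 8), x 9, x 4 - x 5, -(2 * x 3)]

/-- `D(x) = det S(x)` -/
def DX (x : Fin 10 → ℤ) : ℤ := (SX x).det

/-- `n` divides all entries of `8 adj S(x)` -/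
def An (n : ℕ) (x : Fin 10 → ℤ) : Prop := ∀ i j, (n : ℤ) ∣ 8 * (SX x).adjugate i j

/-- the modulus `2 |D(x)|` -/
def D2 (x : Fin 10 → ℤ) : ℕ := 2 * (DX x).natAbs

open Classical in
/-- `1 + χ(l)`, `χ` the quadratic character of `D(x)` -/
noncomputable def psx (x : Fin 10 → ℤ) (l : ℕ) : ℝ :=
  if IsSquare ((DX x : ℤ) : ZMod l) then 2 else 0

/-- the content of `8 adj S(x)` -/
def ctx (x : Fin 10 → ℤ) : ℕ :=
  Finset.univ.gcd fun p : Fin 4 × Fin 4 => (8 * (SX x).adjugate p.1 p.2).natAbs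

/-- the exponent of `l` in the content of `8 adj S(x)` -/
def vx (x : Fin 10 → ℤ) (l : ℕ) : ℕ := (ctx x).factorization l

/-- a triple of coordinates from three different pairs, the first one is `j`
(pairs: `02, 13, 45, 69, 78`) -/
def tr : Fin 10 → Fin 3 → Fin 10 :=
  ![![0, 1, 4], ![1, 0, 4], ![2, 1, 4], ![3, 0, 4], ![4, 0, 1], ![5, 0, 1], ![6, 0, 1],
    ![7, 0, 1], ![8, 0, 1], ![9, 0, 1]]

/-- the gcd of `n` and the three coordinates -/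
def gx (n : ℕ) (j : Fin 10) (x : Fin 10 → ℤ) : ℕ :=
  Nat.gcd n (Nat.gcd (x (tr j 0)).natAbs (Nat.gcd (x (tr j 1)).natAbs (x (tr j 2)).natAbs))

/-- the sum of the divisors -/
def s1 (n : ℕ) : ℕ := ∑ e ∈ n.divisors, e

/-- the density bound of `An (l ^ e)` -/
noncomputable def rk (C : ℝ) (l e : ℕ) : ℝ :=
  C * ((e : ℝ) + 1) ^ 2 * (l : ℝ) ^ (7 * e + 3 * e / 4) / (l : ℝ) ^ (9 * e)

/-- `∏ C / l` -/
noncomputable def r0 (C : ℝ) (n : ℕ) : ℝ := ∏ l ∈ n.primeFactors, (C / (l : ℝ))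

/-- `∏ rk` -/
noncomputable def r1 (C : ℝ) (n : ℕ) : ℝ := ∏ l ∈ n.primeFactors, rk C l (n.factorization l)

/-- `∏ (1 + C / l)` -/
noncomputable def ra (C : ℝ) (n : ℕ) : ℝ := ∏ l ∈ n.primeFactors, (1 + C / (l : ℝ))

/-- the weights of the content part -/
noncomputable def w1 (C : ℝ) (n : ℕ) : ℝ :=
  ∏ l ∈ n.primeFactors, (C * ((n.factorization l : ℝ) + 1) ^ 2 * (l : ℝ) ^ (n.factorization l / 3))

/-- the scales -/
structure Scl (T δ δ1 ρ R : ℝ) (τ : Fin 10 → ℝ) : Prop where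
  r1 : T ^ δ ≤ ρ
  r2 : ρ ≤ R
  r3 : R ≤ T ^ δ1 * ρ
  t1 : ∀ i, T ^ (-δ1) ≤ τ i ∧ τ i ≤ T ^ δ1
  t2 : τ 0 * τ 2 = 1 ∧ τ 1 * τ 3 = 1 ∧ τ 4 * τ 5 = 1 ∧ τ 6 * τ 9 = 1 ∧ τ 7 * τ 8 = 1

/-- the points of a cell -/
structure Cel (T A ρ R : ℝ) (τ Y : Fin 10 → ℝ) (j : Fin 10) (x : Fin 10 → ℤ) : Prop where
  bx : ∀ i, Y i ≤ (x i : ℝ) ∧ (x i : ℝ) ≤ Y i + ρ * τ i ∧ |(x i : ℝ)| ≤ 5 * R * τ i
  big : R * τ j / 16 ≤ |(x j : ℝ)|
  nul : FX x = 0
  pri : Pm x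
  dne : DX x ≠ 0
  dle : (D2 x : ℝ) ≤ T ^ A

open Classical in
/-- the bound for the sums over a cell (conclusion of module ClX) -/
def ClP (δ δ1 C0 T0 : ℝ) : Prop := ∀ T : ℝ, T0 ≤ T →
    ∀ (A ρ R : ℝ) (τ Y : Fin 10 → ℝ) (j : Fin 10), Scl T δ δ1 ρ R τ → ∀ (n0 n1 a : ℕ),
    Squarefree n0 → n1 ≠ 0 → Squarefree a → Nat.Coprime n0 n1 →
    ((n0 * n1 * a : ℕ) : ℝ) ≤ T ^ δ1 → ∀ S : Finset (Fin 10 → ℤ), (∀ x ∈ S, Cel T A ρ R τ Y j x) →
    ∑ x ∈ S.filter (fun x => n0 ∣ D2 x ∧ An n1 x ∧ Nat.Coprime a (D2 x)),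
      ∏ l ∈ a.primeFactors, psx x l ≤ C0 * (ρ ^ 9 / R) * (r0 C0 n0 * r1 C0 n1 * ra C0 a)

/-- THE LOCAL FACTOR `Θ_x`, abstract version -/
noncomputable def Tht (T z κ C C1 c4 c5 : ℝ) (D : ℕ) (v : ℕ → ℕ) (ps : ℕ → ℝ) : ℝ :=
  if (VV z D v : ℝ) ≤ T ^ c5 then C * (1 + gg D * HH C1 z D v * Sg z κ ps D) else T ^ c4

end Pool.Agent.PP5C
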