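import Pool.Agent.PP5C.SrA
import Pool.Agent.PPW.Eul

/-!
# EuB: the sum over the bad parts (difficulty 3)

`PPW.eul` with `f b = if b ≠ 0 ∧ BB z D b then wb D b * gg b * ∏ pk else 0` (in `eul` only `b ≠ 0` matters): `f 1 = 1`,
multiplicative for coprime arguments (prime factors and exponents split: `Nat.Coprime.primeFactors_mul`,
`Nat.factorization_mul_of_coprime`), nonnegative.  For a prime `l` and `e ≥ 1`, `f (l ^ e)` is
* `l ∣ D`, `l ≤ z`: `2 (e+1) l ^ (e/3) * (1 - 1/l)⁻¹ * 2 / l ^ ((e - v l + 1)/2)`, `(1 - 1/l)⁻¹ ≤ 2`; the sum over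
  `e ∈ Icc 1 E` is `≤ hh C1 l (v l)` by `srA` (first part);
* `l ∤ D`, `l ≤ z`: only `e ≥ 2`; `≤ C1 / l ^ 2` by `srA` (second part);  * `l > z`: `0`.
So `∑ ≤ ∏_{l ≤ B prime} (1 + b l)`, `b l = hh C1 l (v l)` if `l ∣ D ∧ l ≤ z`, else `C1 / l ^ 2`; the product is at most
`HH C1 z D v * ∏ (1 + C1 / l²) ≤ HH C1 z D v * exp (2 C1)` (`∑ 1 / l² ≤ 2`; `hh ≥ 0`).
-/

set_option autoImplicit false

namespace Pool.Agent.PP5C

open Finset Pool.Agent.PPS

private theorem EuB_mulf (s : ℕ → ℕ → ℝ) (m n : ℕ) (h : Nat.Coprime m n) :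
    ∏ l ∈ (m * n).primeFactors, s l ((m * n).factorization l) =
      (∏ l ∈ m.primeFactors, s l (m.factorization l)) *
        ∏ l ∈ n.primeFactors, s l (n.factorization l) := by
  have h1 := Nat.factorization_mul_of_coprime h
  have h2 : Disjoint m.factorization.support n.factorization.support := by
    simpa using h.disjoint_primeFactors
  have h3 := Finsupp.prod_add_index_of_disjoint h2 s
  rw [← h1] at h3
  exact h3

private theorem EuB_pow (s : ℕ → ℕ → ℝ) (l e : ℕ) (hl : l.Prime) (he : 1 ≤ e) :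
    ∏ q ∈ (l ^ e).primeFactors, s q ((l ^ e).factorization q) = s l e := by
  rw [Nat.primeFactors_prime_pow (by omega) hl, Finset.prod_singleton, hl.factorization_pow]
  simp

private theorem EuB_gen (s : ℕ → ℕ → ℝ) (z : ℝ) (D : ℕ) (hD : 1 ≤ D) (a c : ℕ → ℝ)
    (hs : ∀ l e, 0 ≤ s l e) (ha : ∀ l, 0 ≤ a l) (hc : ∀ l, 0 ≤ c l)
    (h1 : ∀ l : ℕ, l.Prime → l ∣ D → (l : ℝ) ≤ z → ∀ E : ℕ, ∑ e ∈ Icc 1 E, s l e ≤ a l)
    (h2 : ∀ l : ℕ, l.Prime → ¬ (l ∣ D ∧ (l : ℝ) ≤ z) → ∀ E : ℕ, ∑ e ∈ Icc 1 E, s l e ≤ c l)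
    (S : ℝ) (hS : ∀ T : Finset ℕ, ∑ l ∈ T, c l ≤ S) (B : ℕ) :
    ∑ b ∈ Icc 1 B, ∏ l ∈ b.primeFactors, s l (b.factorization l) ≤
      Real.exp S * ∏ l ∈ Pz z D, (1 + a l) := by
  classical
  have hmain := Pool.Agent.PPW.eul (fun b => ∏ l ∈ b.primeFactors, s l (b.factorization l))
    (fun l => if l ∣ D ∧ (l : ℝ) ≤ z then a l else c l)
    (fun n => Finset.prod_nonneg fun l _ => hs _ _) (by simp)
    (fun m n _ _ hmn => EuB_mulf s m n hmn) (by
      intro l hl E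
      have e1 : ∑ e ∈ Icc 1 E, ∏ q ∈ (l ^ e).primeFactors, s q ((l ^ e).factorization q) =
          ∑ e ∈ Icc 1 E, s l e :=
        Finset.sum_congr rfl fun e he => EuB_pow s l e hl (Finset.mem_Icc.1 he).1
      show ∑ e ∈ Icc 1 E, ∏ q ∈ (l ^ e).primeFactors, s q ((l ^ e).factorization q) ≤ _
      rw [e1]
      by_cases h : l ∣ D ∧ (l : ℝ) ≤ z
      · rw [if_pos h]
        exact h1 l hl h.1 h.2 E
      · rw [if_neg h]
        exact h2 l hl h E) B
  refine hmain.trans ?_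
  have hle : ∀ l ∈ (Icc 1 B).filter Nat.Prime,
      (1 + if l ∣ D ∧ (l : ℝ) ≤ z then a l else c l) =
        (if l ∣ D ∧ (l : ℝ) ≤ z then 1 + a l else 1) *
          (if l ∣ D ∧ (l : ℝ) ≤ z then 1 else 1 + c l) := by
    intro l _
    split_ifs <;> ring
  rw [Finset.prod_congr rfl hle, Finset.prod_mul_distrib, mul_comm (Real.exp S)]
  refine mul_le_mul ?_ ?_ (Finset.prod_nonneg fun l _ => ?_) (Finset.prod_nonneg fun l _ => ?_)
  · rw [← Finset.prod_filter]
    set T1 : Finset ℕ := ((Icc 1 B).filter Nat.Prime).filter (fun l => l ∣ D ∧ (l : ℝ) ≤ z) with hT1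
    have hsub : T1 ⊆ Pz z D := by
      intro l hl
      rw [hT1, Finset.mem_filter, Finset.mem_filter] at hl
      unfold Pz
      rw [Finset.mem_filter, Nat.mem_primeFactors]
      exact ⟨⟨hl.1.2, hl.2.1, by omega⟩, hl.2.2⟩
    rw [← Finset.prod_sdiff hsub]
    have h3 : 1 ≤ ∏ l ∈ Pz z D \ T1, (1 + a l) := by
      calc (1 : ℝ) = ∏ l ∈ Pz z D \ T1, 1 := by simp
        _ ≤ ∏ l ∈ Pz z D \ T1, (1 + a l) :=
            Finset.prod_le_prod (fun _ _ => zero_le_one) fun l _ => by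
              have := ha l
              linarith
    have h4 : 0 ≤ ∏ l ∈ T1, (1 + a l) := Finset.prod_nonneg fun l _ => by
      have := ha l
      linarith
    nlinarith
  · calc ∏ l ∈ (Icc 1 B).filter Nat.Prime, (if l ∣ D ∧ (l : ℝ) ≤ z then 1 else 1 + c l)
        ≤ ∏ l ∈ (Icc 1 B).filter Nat.Prime, Real.exp (c l) := by
          refine Finset.prod_le_prod (fun l _ => ?_) fun l _ => ?_
          · have := hc l
            split_ifs <;> linarith
          · have h5 := Real.add_one_le_exp (c l)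
            have h6 := hc l
            split_ifs <;> linarith
      _ = Real.exp (∑ l ∈ (Icc 1 B).filter Nat.Prime, c l) := (Real.exp_sum _ _).symm
      _ ≤ Real.exp S := Real.exp_le_exp.2 (hS _)
  · have := hc l
    split_ifs <;> linarith
  · have := ha l
    linarith

private theorem EuB_two (l : ℕ) (hl : 2 ≤ l) : 0 ≤ (1 - 1 / (l : ℝ))⁻¹ ∧
    (1 - 1 / (l : ℝ))⁻¹ ≤ 2 := by
  have h1 : (2 : ℝ) ≤ l := by exact_mod_cast hl
  have h2 : 1 / (l : ℝ) ≤ 1 / 2 := one_div_le_one_div_of_le (by norm_num) h1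
  have h3 : (1 : ℝ) / 2 ≤ 1 - 1 / (l : ℝ) := by linarith
  refine ⟨inv_nonneg.2 (by linarith), ?_⟩
  calc (1 - 1 / (l : ℝ))⁻¹ ≤ (1 / 2 : ℝ)⁻¹ := inv_anti₀ (by norm_num) h3
    _ = 2 := by norm_num

private theorem EuB_pk (D : ℕ) (v : ℕ → ℕ) (l k : ℕ) : 0 ≤ pk D v l k := by
  unfold pk
  split_ifs
  · positivity
  · exact le_min (by positivity) (by positivity)

private theorem EuB_wk (D l k : ℕ) : 0 ≤ wk D l k := by
  unfold wk
  split_ifs <;> positivity

open Classical in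
theorem euB : ∃ C1 C : ℝ, 1 ≤ C1 ∧ 0 < C ∧ ∀ (z : ℝ) (D : ℕ) (v : ℕ → ℕ) (B : ℕ), 1 ≤ D →
    ∑ b ∈ (Icc 1 B).filter (fun b => BB z D b), wb D b * gg b *
      ∏ l ∈ b.primeFactors, pk D v l (b.factorization l) ≤ C * HH C1 z D v := by
  obtain ⟨C1, hC1, hA, hB, -, -⟩ := srA
  have hC0 : 0 ≤ C1 := by linarith
  have hsum : Summable (fun n : ℕ => C1 / (n : ℝ) ^ 2) := by
    have := (Real.summable_one_div_nat_pow (p := 2)).2 (by norm_num)
    refine (this.mul_left C1).congr fun n => ?_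
    ring
  refine ⟨C1, Real.exp (∑' n : ℕ, C1 / (n : ℝ) ^ 2), hC1, Real.exp_pos _, ?_⟩
  intro z D v B hD
  set s : ℕ → ℕ → ℝ := fun l e => if (l : ℝ) ≤ z ∧ (¬ l ∣ D → 2 ≤ e) ∧ 2 ≤ l then
    wk D l e * (1 - 1 / (l : ℝ))⁻¹ * pk D v l e else 0 with hs
  have hs0 : ∀ l e, 0 ≤ s l e := by
    intro l e
    rw [hs]
    dsimp only
    split_ifs with h
    · exact mul_nonneg (mul_nonneg (EuB_wk _ _ _) (EuB_two l h.2.2).1) (EuB_pk _ _ _ _)
    · exact le_rfl
  have hterm : ∀ b ∈ (Icc 1 B).filter (fun b => BB z D b), wb D b * gg b *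
      ∏ l ∈ b.primeFactors, pk D v l (b.factorization l) =
        ∏ l ∈ b.primeFactors, s l (b.factorization l) := by
    intro b hb
    have hbb := (Finset.mem_filter.1 hb).2
    unfold wb gg
    rw [← Finset.prod_mul_distrib, ← Finset.prod_mul_distrib]
    refine Finset.prod_congr rfl fun l hl => ?_
    have h1 := hbb l hl
    rw [hs]
    dsimp only
    rw [if_pos ⟨h1.1, h1.2, (Nat.prime_of_mem_primeFactors hl).two_le⟩]
  rw [Finset.sum_congr rfl hterm]
  have hmono : ∑ b ∈ (Icc 1 B).filter (fun b => BB z D b),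
      ∏ l ∈ b.primeFactors, s l (b.factorization l) ≤
        ∑ b ∈ Icc 1 B, ∏ l ∈ b.primeFactors, s l (b.factorization l) :=
    Finset.sum_le_sum_of_subset_of_nonneg (Finset.filter_subset _ _) fun b _ _ =>
      Finset.prod_nonneg fun l _ => hs0 _ _
  refine hmono.trans ?_
  unfold HH
  refine EuB_gen s z D hD (fun l => hh C1 l (v l)) (fun l => C1 / (l : ℝ) ^ 2) hs0 ?_ ?_ ?_ ?_ _ ?_
    B
  · intro l
    unfold hh
    split_ifs <;> positivity
  · intro l
    positivity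
  · intro l hl hlD hlz E
    refine le_trans (Finset.sum_le_sum fun e _ => ?_) (hA l (v l) E hl.two_le)
    rw [hs]
    dsimp only
    split_ifs with h
    · unfold wk pk
      rw [if_pos hlD, if_pos hlD]
      have h3 := (EuB_two l hl.two_le).2
      have h4 : 0 ≤ 2 * ((e : ℝ) + 1) * (l : ℝ) ^ (e / 3) * (2 / (l : ℝ) ^ ((e - v l + 1) / 2)) := by
        positivity
      calc 2 * ((e : ℝ) + 1) * (l : ℝ) ^ (e / 3) * (1 - 1 / (l : ℝ))⁻¹ *
            (2 / (l : ℝ) ^ ((e - v l + 1) / 2))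
          = 2 * ((e : ℝ) + 1) * (l : ℝ) ^ (e / 3) * (2 / (l : ℝ) ^ ((e - v l + 1) / 2)) *
            (1 - 1 / (l : ℝ))⁻¹ := by ring
        _ ≤ _ := mul_le_mul_of_nonneg_left h3 h4
    · positivity
  · intro l hl hlD E
    have hle : ∑ e ∈ Icc 1 E, s l e ≤ ∑ e ∈ Icc 2 E, ((e : ℝ) + 1) *
        min (2 / (l : ℝ) ^ 2) (2 / (l : ℝ) ^ ((e + 1) / 2)) * 2 := by
      have h0 : ∀ e : ℕ, 0 ≤ ((e : ℝ) + 1) *
          min (2 / (l : ℝ) ^ 2) (2 / (l : ℝ) ^ ((e + 1) / 2)) * 2 := fun e => by positivity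
      calc ∑ e ∈ Icc 1 E, s l e ≤ ∑ e ∈ Icc 1 E, (if 2 ≤ e then ((e : ℝ) + 1) *
            min (2 / (l : ℝ) ^ 2) (2 / (l : ℝ) ^ ((e + 1) / 2)) * 2 else 0) := by
            refine Finset.sum_le_sum fun e _ => ?_
            rw [hs]
            dsimp only
            split_ifs with h h' h'
            · have hnd : ¬ l ∣ D := fun hd => hlD ⟨hd, h.1⟩
              unfold wk pk
              rw [if_neg hnd, if_neg hnd]
              have h3 := (EuB_two l hl.two_le).2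
              have h4 : 0 ≤ ((e : ℝ) + 1) *
                  min (2 / (l : ℝ) ^ 2) (2 / (l : ℝ) ^ ((e + 1) / 2)) := by positivity
              calc ((e : ℝ) + 1) * (1 - 1 / (l : ℝ))⁻¹ *
                    min (2 / (l : ℝ) ^ 2) (2 / (l : ℝ) ^ ((e + 1) / 2))
                  = ((e : ℝ) + 1) * min (2 / (l : ℝ) ^ 2) (2 / (l : ℝ) ^ ((e + 1) / 2)) *
                    (1 - 1 / (l : ℝ))⁻¹ := by ring
                _ ≤ _ := mul_le_mul_of_nonneg_left h3 h4
            · exact absurd (h.2.1 fun hd => hlD ⟨hd, h.1⟩) h'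
            · exact h0 e
            · exact le_rfl
        _ = ∑ e ∈ (Icc 1 E).filter (fun e => 2 ≤ e), ((e : ℝ) + 1) *
            min (2 / (l : ℝ) ^ 2) (2 / (l : ℝ) ^ ((e + 1) / 2)) * 2 :=
            (Finset.sum_filter _ _).symm
        _ ≤ _ := by
            refine Finset.sum_le_sum_of_subset_of_nonneg ?_ fun e _ _ => h0 e
            intro e he
            rw [Finset.mem_filter, Finset.mem_Icc] at he
            rw [Finset.mem_Icc]
            omega
    exact hle.trans (hB l E hl.two_le)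
  · intro T
    exact hsum.sum_le_tsum T fun n _ => by positivity

end Pool.Agent.PP5C
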