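import Pool.Agent.PP5C.LcX
import Pool.Agent.PP5C.Crt

/-!
# FcX: the sum over the classes modulo `n0 n1 a` (difficulty 4)

`n = n0 n1 a`, pairwise coprime, `n0`, `a` squarefree.  Everything in the sum is a product over `l ∣ n` of functions of
`x` modulo `l ^ e`, `e = n.factorization l` (`= 1` for `l ∣ n0 a`, `= n1.factorization l` for `l ∣ n1`):
`n ∣ FX x` iff `l ^ e ∣ FX x` for all `l`; `n0 ∣ D2 x` iff `l ∣ 2 DX x` for all `l ∣ n0`; `An n1 x` iff `An (l ^ e) x` for all
`l ∣ n1`; `Coprime a (D2 x)` iff `l ∤ 2 DX x` for `l ∣ a`; `s1 (gx n j x) = ∏ s1 (gx (l ^ e) j x)` (`gx n j x` is the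
product of the coprime numbers `gx (l ^ e) j x = gcd (l ^ e, triple)`, and the sum of divisors is multiplicative:
`Nat.Coprime.sum_divisors_mul` / `ArithmeticFunction.isMultiplicative_sigma`).  Periodicity: `FX`, `DX`, the
entries of the adjugate are polynomials.  `crt_prod`, then `lcx`: `l ∣ n0`: `≤ C l ^ 8 = l ^ 9 * (C / l)`; `l ∣ a`:
`l ^ 9 (1 + C / l)` (drop `Pv`); `l ∣ n1`: `C (e+1)² l ^ (7e + 3e/4) = l ^ (9 e) rk C l e`.
-/

set_option autoImplicit false

namespace Pool.Agent.PP5C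

open Finset Pool.Agent.PPS

private theorem fcx_cast {n : ℕ} {x y : Fin 10 → ℤ} (h : Cg n x y) (i : Fin 10) :
    ((x i : ℤ) : ZMod n) = ((y i : ℤ) : ZMod n) := by
  rw [eq_comm, ZMod.intCast_eq_intCast_iff_dvd_sub]
  exact h i

private theorem fcx_symm {n : ℕ} {x y : Fin 10 → ℤ} (h : Cg n x y) : Cg n y x := by
  intro i
  rw [← neg_sub]
  exact (h i).neg_right

private theorem fcx_dvd {n m : ℕ} (hm : m ∣ n) {x y : Fin 10 → ℤ} (h : Cg n x y) : Cg m x y :=
  fun i => (Int.natCast_dvd_natCast.mpr hm).trans (h i)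

private theorem fcx_map {n : ℕ} {x y : Fin 10 → ℤ} (h : Cg n x y) :
    (Int.castRingHom (ZMod n)).mapMatrix (SX x) = (Int.castRingHom (ZMod n)).mapMatrix (SX y) := by
  ext i j
  fin_cases i <;> fin_cases j <;> simp [SX, fcx_cast h]

private theorem fcx_DX {n : ℕ} {x y : Fin 10 → ℤ} (h : Cg n x y) :
    ((DX x : ℤ) : ZMod n) = ((DX y : ℤ) : ZMod n) := by
  have h1 := congrArg Matrix.det (fcx_map h)
  rw [← RingHom.map_det, ← RingHom.map_det] at h1
  exact h1

private theorem fcx_adj {n : ℕ} {x y : Fin 10 → ℤ} (h : Cg n x y) (i j : Fin 4) :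
    (((SX x).adjugate i j : ℤ) : ZMod n) = (((SX y).adjugate i j : ℤ) : ZMod n) := by
  have h1 := congrArg Matrix.adjugate (fcx_map h)
  rw [← RingHom.map_adjugate, ← RingHom.map_adjugate] at h1
  exact congrFun (congrFun h1 i) j

private theorem fcx_FX {n : ℕ} {x y : Fin 10 → ℤ} (h : Cg n x y) :
    ((FX x : ℤ) : ZMod n) = ((FX y : ℤ) : ZMod n) := by
  simp only [FX]
  push_cast
  simp only [fcx_cast h]

private theorem fcx_gx {n : ℕ} {x y : Fin 10 → ℤ} (h : Cg n x y) (j : Fin 10) :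
    gx n j x ∣ gx n j y := by
  have h0 : gx n j x ∣ n := Nat.gcd_dvd_left _ _
  have hstep : ∀ i, gx n j x ∣ (x i).natAbs → gx n j x ∣ (y i).natAbs := by
    intro i hi
    rw [← Int.natCast_dvd] at hi ⊢
    have h1 : ((gx n j x : ℕ) : ℤ) ∣ x i - y i := (Int.natCast_dvd_natCast.mpr h0).trans (h i)
    have h2 := dvd_sub hi h1
    rwa [sub_sub_cancel] at h2
  have ht : gx n j x ∣ Nat.gcd (x (tr j 0)).natAbs (Nat.gcd (x (tr j 1)).natAbs (x (tr j 2)).natAbs) :=
    Nat.gcd_dvd_right _ _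
  have ha := ht.trans (Nat.gcd_dvd_left _ _)
  have hb := (ht.trans (Nat.gcd_dvd_right _ _)).trans (Nat.gcd_dvd_left _ _)
  have hc := (ht.trans (Nat.gcd_dvd_right _ _)).trans (Nat.gcd_dvd_right _ _)
  exact Nat.dvd_gcd h0 (Nat.dvd_gcd (hstep _ ha) (Nat.dvd_gcd (hstep _ hb) (hstep _ hc)))

/-- the local condition -/
private def cnd (n0 n1 a l e : ℕ) (x : Fin 10 → ℤ) : Prop :=
  ((l ^ e : ℕ) : ℤ) ∣ FX x ∧ Pv l x ∧ (l ∣ n0 → (l : ℤ) ∣ 2 * DX x) ∧ (l ∣ n1 → An (l ^ e) x) ∧
    (l ∣ a → ¬ (l : ℤ) ∣ 2 * DX x)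

private theorem cnd_per {n0 n1 a l e : ℕ} (he : e ≠ 0) {x y : Fin 10 → ℤ} (h : Cg (l ^ e) x y)
    (hx : cnd n0 n1 a l e x) : cnd n0 n1 a l e y := by
  have hl : Cg l x y := fcx_dvd (dvd_pow_self l he) h
  have hD : (l : ℤ) ∣ 2 * DX x ↔ (l : ℤ) ∣ 2 * DX y := by
    rw [← ZMod.intCast_zmod_eq_zero_iff_dvd, ← ZMod.intCast_zmod_eq_zero_iff_dvd]
    push_cast
    rw [fcx_DX hl]
  obtain ⟨h1, h2, h3, h4, h5⟩ := hx
  refine ⟨?_, ?_, ?_, ?_, ?_⟩
  · rw [← ZMod.intCast_zmod_eq_zero_iff_dvd] at h1 ⊢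
    rw [← fcx_FX h]
    exact h1
  · obtain ⟨i, hi⟩ := h2
    refine ⟨i, fun hc => hi ?_⟩
    have := dvd_add (hl i) hc
    rwa [sub_add_cancel] at this
  · intro hn
    exact hD.mp (h3 hn)
  · intro hn i j
    have := h4 hn i j
    rw [← ZMod.intCast_zmod_eq_zero_iff_dvd] at this ⊢
    push_cast at this ⊢
    rw [← fcx_adj h]
    exact this
  · intro hn hc
    exact h5 hn (hD.mpr hc)

private theorem fcx_s1 (n : ℕ) (hn : n ≠ 0) (t : ℕ) :
    s1 (Nat.gcd n t) = ∏ l ∈ n.primeFactors, s1 (Nat.gcd (l ^ n.factorization l) t) := by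
  have hmul : ∀ x y : ℕ, Nat.Coprime x y → s1 (Nat.gcd (x * y) t) =
      s1 (Nat.gcd x t) * s1 (Nat.gcd y t) := by
    intro x y hxy
    rw [Nat.gcd_comm, Nat.Coprime.gcd_mul _ hxy, Nat.gcd_comm t x, Nat.gcd_comm t y]
    unfold s1
    exact Nat.Coprime.sum_divisors_mul
      ((hxy.coprime_dvd_left (Nat.gcd_dvd_left _ _)).coprime_dvd_right (Nat.gcd_dvd_left _ _))
  have h1 : s1 (Nat.gcd 1 t) = 1 := by simp [s1]
  have := Nat.multiplicative_factorization (fun n => s1 (Nat.gcd n t)) hmul h1 hn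
  exact this

private theorem fcx_psx (x : Fin 10 → ℤ) (l : ℕ) : 0 ≤ psx x l := by
  unfold psx
  split_ifs <;> norm_num

private theorem fcx_psx_per {l : ℕ} {x y : Fin 10 → ℤ} (h : Cg l x y) : psx x l = psx y l := by
  unfold psx
  rw [fcx_DX h]

open Classical in
/-- the local function -/
private noncomputable def phi (n0 n1 a n : ℕ) (j : Fin 10) (l : ℕ) (x : Fin 10 → ℤ) : ℝ :=
  if cnd n0 n1 a l (n.factorization l) x then
    (if l ∣ a then psx x l else 1) * (s1 (gx (l ^ n.factorization l) j x) : ℝ) else 0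

private theorem phi_nn (n0 n1 a n : ℕ) (j : Fin 10) (l : ℕ) (x : Fin 10 → ℤ) :
    0 ≤ phi n0 n1 a n j l x := by
  unfold phi
  split_ifs
  · exact mul_nonneg (fcx_psx _ _) (Nat.cast_nonneg _)
  · exact mul_nonneg zero_le_one (Nat.cast_nonneg _)
  · exact le_rfl

private theorem phi_per (n0 n1 a n : ℕ) (j : Fin 10) (l : ℕ) (hl : l ∈ n.primeFactors) :
    PerF (l ^ n.factorization l) (phi n0 n1 a n j l) := by
  intro x y h
  have he : n.factorization l ≠ 0 := by
    rw [← Nat.support_factorization, Finsupp.mem_support_iff] at hl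
    exact hl
  have hc : cnd n0 n1 a l (n.factorization l) x ↔ cnd n0 n1 a l (n.factorization l) y :=
    ⟨cnd_per he h, cnd_per he (fcx_symm h)⟩
  have hg : gx (l ^ n.factorization l) j x = gx (l ^ n.factorization l) j y :=
    Nat.dvd_antisymm (fcx_gx h j) (fcx_gx (fcx_symm h) j)
  have hp : psx x l = psx y l := fcx_psx_per (fcx_dvd (dvd_pow_self l he) h)
  unfold phi
  rw [hg, hp]
  by_cases h' : cnd n0 n1 a l (n.factorization l) x
  · rw [if_pos h', if_pos (hc.mp h')]
  · rw [if_neg h', if_neg (fun h'' => h' (hc.mpr h''))]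

open Classical in
theorem fcx : ∃ C : ℝ, 1 ≤ C ∧ ∀ (n0 n1 a : ℕ) (j : Fin 10), Squarefree n0 → n1 ≠ 0 → Squarefree a →
    Nat.Coprime n0 n1 → Nat.Coprime n0 a → Nat.Coprime n1 a →
    ∑ x ∈ (cub (Fin 10) (n0 * n1 * a)).filter (fun x => ((n0 * n1 * a : ℕ) : ℤ) ∣ FX x ∧
        (∀ l ∈ (n0 * n1 * a).primeFactors, Pv l x) ∧ n0 ∣ D2 x ∧ An n1 x ∧ Nat.Coprime a (D2 x)),
      (∏ l ∈ a.primeFactors, psx x l) * (s1 (gx (n0 * n1 * a) j x) : ℝ) ≤
      ((n0 * n1 * a : ℕ) : ℝ) ^ 9 * (r0 C n0 * r1 C n1 * ra C a) := by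
  obtain ⟨C, hC, hca, hcb, hcc⟩ := lcx
  refine ⟨C, hC, ?_⟩
  intro n0 n1 a j hn0 hn1 ha h01 h0a h1a
  obtain ⟨n, hn⟩ : ∃ n, n = n0 * n1 * a := ⟨_, rfl⟩
  rw [← hn]
  have hn00 : n0 ≠ 0 := hn0.ne_zero
  have ha0 : a ≠ 0 := ha.ne_zero
  have hnne : n ≠ 0 := by rw [hn]; exact mul_ne_zero (mul_ne_zero hn00 hn1) ha0
  have h01a : Nat.Coprime (n0 * n1) a := Nat.Coprime.mul_left h0a h1a
  -- factorizations
  have hf0 : ∀ l ∈ n0.primeFactors, n.factorization l = 1 ∧ ¬ l ∣ n1 ∧ ¬ l ∣ a := by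
    intro l hl
    have hlp := Nat.prime_of_mem_primeFactors hl
    have hld := Nat.dvd_of_mem_primeFactors hl
    have h1 : ¬ l ∣ n1 := fun hc => hlp.one_lt.ne'
      (Nat.dvd_one.mp (h01 ▸ Nat.dvd_gcd hld hc))
    have h2 : ¬ l ∣ a := fun hc => hlp.one_lt.ne'
      (Nat.dvd_one.mp (h0a ▸ Nat.dvd_gcd hld hc))
    refine ⟨?_, h1, h2⟩
    rw [hn, Nat.factorization_mul (mul_ne_zero hn00 hn1) ha0, Nat.factorization_mul hn00 hn1]
    simp only [Finsupp.add_apply, Nat.factorization_eq_zero_of_not_dvd h1,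
      Nat.factorization_eq_zero_of_not_dvd h2, add_zero]
    have h3 := (Nat.squarefree_iff_factorization_le_one hn00).mp hn0 l
    have h4 := hlp.factorization_pos_of_dvd hn00 hld
    omega
  have hf1 : ∀ l ∈ n1.primeFactors, n.factorization l = n1.factorization l ∧ ¬ l ∣ n0 ∧ ¬ l ∣ a := by
    intro l hl
    have hlp := Nat.prime_of_mem_primeFactors hl
    have hld := Nat.dvd_of_mem_primeFactors hl
    have h1 : ¬ l ∣ n0 := fun hc => hlp.one_lt.ne'
      (Nat.dvd_one.mp (h01 ▸ Nat.dvd_gcd hc hld))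
    have h2 : ¬ l ∣ a := fun hc => hlp.one_lt.ne'
      (Nat.dvd_one.mp (h1a ▸ Nat.dvd_gcd hld hc))
    refine ⟨?_, h1, h2⟩
    rw [hn, Nat.factorization_mul (mul_ne_zero hn00 hn1) ha0, Nat.factorization_mul hn00 hn1]
    simp only [Finsupp.add_apply, Nat.factorization_eq_zero_of_not_dvd h1,
      Nat.factorization_eq_zero_of_not_dvd h2, add_zero, zero_add]
  have hfa : ∀ l ∈ a.primeFactors, n.factorization l = 1 ∧ ¬ l ∣ n0 ∧ ¬ l ∣ n1 := by
    intro l hl
    have hlp := Nat.prime_of_mem_primeFactors hl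
    have hld := Nat.dvd_of_mem_primeFactors hl
    have h1 : ¬ l ∣ n0 := fun hc => hlp.one_lt.ne'
      (Nat.dvd_one.mp (h0a ▸ Nat.dvd_gcd hc hld))
    have h2 : ¬ l ∣ n1 := fun hc => hlp.one_lt.ne'
      (Nat.dvd_one.mp (h1a ▸ Nat.dvd_gcd hc hld))
    refine ⟨?_, h1, h2⟩
    rw [hn, Nat.factorization_mul (mul_ne_zero hn00 hn1) ha0, Nat.factorization_mul hn00 hn1]
    simp only [Finsupp.add_apply, Nat.factorization_eq_zero_of_not_dvd h1,
      Nat.factorization_eq_zero_of_not_dvd h2, zero_add]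
    have h3 := (Nat.squarefree_iff_factorization_le_one ha0).mp ha l
    have h4 := hlp.factorization_pos_of_dvd ha0 hld
    omega
  have hpf : n.primeFactors = (n0.primeFactors ∪ n1.primeFactors) ∪ a.primeFactors := by
    rw [hn, Nat.primeFactors_mul (mul_ne_zero hn00 hn1) ha0, Nat.primeFactors_mul hn00 hn1]
  have hdis1 : Disjoint n0.primeFactors n1.primeFactors := h01.disjoint_primeFactors
  have hdis2 : Disjoint (n0.primeFactors ∪ n1.primeFactors) a.primeFactors := by
    rw [← Nat.primeFactors_mul hn00 hn1]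
    exact h01a.disjoint_primeFactors
  -- step 1
  have hstep : ∀ x ∈ (cub (Fin 10) n).filter (fun x => ((n : ℕ) : ℤ) ∣ FX x ∧
      (∀ l ∈ n.primeFactors, Pv l x) ∧ n0 ∣ D2 x ∧ An n1 x ∧ Nat.Coprime a (D2 x)),
      (∏ l ∈ a.primeFactors, psx x l) * (s1 (gx n j x) : ℝ) =
        ∏ l ∈ n.primeFactors, phi n0 n1 a n j l x := by
    intro x hx
    rw [mem_filter] at hx
    obtain ⟨-, hF, hPv, hD, hA, hco⟩ := hx
    have hcnd : ∀ l ∈ n.primeFactors, cnd n0 n1 a l (n.factorization l) x := by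
      intro l hl
      have hlp := Nat.prime_of_mem_primeFactors hl
      refine ⟨?_, hPv l hl, ?_, ?_, ?_⟩
      · exact (Int.natCast_dvd_natCast.mpr (Nat.ordProj_dvd n l)).trans hF
      · intro h
        have := h.trans hD
        unfold D2 at this
        rw [← Int.natCast_dvd_natCast] at this
        push_cast at this
        rcases abs_choice (DX x) with h' | h'
        · rwa [h'] at this
        · rw [h', mul_neg] at this
          exact (dvd_neg).mp this
      · intro h i k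
        have hl1 : l ∈ n1.primeFactors := Nat.mem_primeFactors.mpr ⟨hlp, h, hn1⟩
        rw [(hf1 l hl1).1]
        exact (Int.natCast_dvd_natCast.mpr (Nat.ordProj_dvd n1 l)).trans (hA i k)
      · intro h hc
        have h1 : l ∣ D2 x := by
          unfold D2
          rw [← Int.natCast_dvd_natCast]
          push_cast
          rcases abs_choice (DX x) with h' | h'
          · rwa [h']
          · rw [h', mul_neg]
            exact (dvd_neg).mpr hc
        exact hlp.one_lt.ne' (Nat.dvd_one.mp (hco ▸ Nat.dvd_gcd h h1))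
    have hphi : ∏ l ∈ n.primeFactors, phi n0 n1 a n j l x =
        ∏ l ∈ n.primeFactors, (if l ∣ a then psx x l else 1) *
          (s1 (gx (l ^ n.factorization l) j x) : ℝ) := by
      refine prod_congr rfl fun l hl => ?_
      unfold phi
      rw [if_pos (hcnd l hl)]
    rw [hphi, prod_mul_distrib]
    congr 1
    · rw [hpf, prod_union hdis2]
      have h1 : ∏ l ∈ n0.primeFactors ∪ n1.primeFactors, (if l ∣ a then psx x l else 1) = 1 := by
        refine prod_eq_one fun l hl => ?_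
        rw [mem_union] at hl
        rcases hl with h | h
        · rw [if_neg (hf0 l h).2.2]
        · rw [if_neg (hf1 l h).2.2]
      rw [h1, one_mul]
      refine prod_congr rfl fun l hl => ?_
      rw [if_pos (Nat.dvd_of_mem_primeFactors hl)]
    · unfold gx
      rw [fcx_s1 n hnne]
      push_cast
      rfl
  -- local sums
  have hloc : ∀ l ∈ n.primeFactors, ∑ x ∈ cub (Fin 10) (l ^ n.factorization l),
      phi n0 n1 a n j l x ≤ ((l ^ n.factorization l : ℕ) : ℝ) ^ 9 *
        (if l ∣ n0 then C / (l : ℝ) else if l ∣ n1 then rk C l (n1.factorization l)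
          else 1 + C / (l : ℝ)) := by
    intro l hl
    have hlp := Nat.prime_of_mem_primeFactors hl
    have hl0 : (0 : ℝ) < l := by exact_mod_cast hlp.pos
    rw [hpf, mem_union, mem_union] at hl
    rcases hl with (h | h) | h
    · obtain ⟨he, -, hna⟩ := hf0 l h
      have hd := Nat.dvd_of_mem_primeFactors h
      rw [if_pos hd, he, pow_one]
      have h1 : ∑ x ∈ cub (Fin 10) l, phi n0 n1 a n j l x ≤
          ∑ x ∈ (cub (Fin 10) l).filter (fun x => (l : ℤ) ∣ FX x ∧ (l : ℤ) ∣ 2 * DX x),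
            (s1 (gx l j x) : ℝ) := by
        rw [sum_filter]
        refine sum_le_sum fun x _ => ?_
        unfold phi
        rw [he, pow_one, if_neg hna, one_mul]
        by_cases hc : cnd n0 n1 a l 1 x
        · rw [if_pos hc, if_pos]
          refine ⟨?_, hc.2.2.1 hd⟩
          have := hc.1
          rwa [pow_one] at this
        · rw [if_neg hc]
          split_ifs
          · exact Nat.cast_nonneg _
          · exact le_rfl
      refine h1.trans ((hcb l j hlp).trans (le_of_eq ?_))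
      field_simp
    · obtain ⟨he, hn0', hna⟩ := hf1 l h
      have hd := Nat.dvd_of_mem_primeFactors h
      rw [if_neg hn0', if_pos hd, he]
      have h1 : ∑ x ∈ cub (Fin 10) (l ^ n1.factorization l), phi n0 n1 a n j l x ≤
          ∑ x ∈ (cub (Fin 10) (l ^ n1.factorization l)).filter
            (fun x => ((l ^ n1.factorization l : ℕ) : ℤ) ∣ FX x ∧ Pv l x ∧
              An (l ^ n1.factorization l) x),
            (s1 (gx (l ^ n1.factorization l) j x) : ℝ) := by
        rw [sum_filter]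
        refine sum_le_sum fun x _ => ?_
        unfold phi
        rw [he, if_neg hna, one_mul]
        by_cases hc : cnd n0 n1 a l (n1.factorization l) x
        · rw [if_pos hc, if_pos]
          exact ⟨hc.1, hc.2.1, hc.2.2.2.1 hd⟩
        · rw [if_neg hc]
          split_ifs
          · exact Nat.cast_nonneg _
          · exact le_rfl
      refine h1.trans ((hcc l (n1.factorization l) j hlp).trans (le_of_eq ?_))
      unfold rk
      push_cast
      rw [← pow_mul, mul_comm (n1.factorization l) 9]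
      field_simp
    · obtain ⟨he, hn0', hn1'⟩ := hfa l h
      have hd := Nat.dvd_of_mem_primeFactors h
      rw [if_neg hn0', if_neg hn1', he, pow_one]
      have h1 : ∑ x ∈ cub (Fin 10) l, phi n0 n1 a n j l x ≤
          ∑ x ∈ (cub (Fin 10) l).filter (fun x => (l : ℤ) ∣ FX x),
            (if (l : ℤ) ∣ 2 * DX x then 0 else psx x l) * (s1 (gx l j x) : ℝ) := by
        rw [sum_filter]
        refine sum_le_sum fun x _ => ?_
        unfold phi
        rw [he, pow_one, if_pos hd]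
        by_cases hc : cnd n0 n1 a l 1 x
        · have hF : (l : ℤ) ∣ FX x := by
            have := hc.1
            rwa [pow_one] at this
          rw [if_pos hc, if_pos hF, if_neg (hc.2.2.2.2 hd)]
        · rw [if_neg hc]
          split_ifs
          · rw [zero_mul]
          · exact mul_nonneg (fcx_psx _ _) (Nat.cast_nonneg _)
          · exact le_rfl
      refine h1.trans ((hca l j hlp).trans (le_of_eq ?_))
      field_simp
  calc ∑ x ∈ (cub (Fin 10) n).filter (fun x => ((n : ℕ) : ℤ) ∣ FX x ∧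
        (∀ l ∈ n.primeFactors, Pv l x) ∧ n0 ∣ D2 x ∧ An n1 x ∧ Nat.Coprime a (D2 x)),
      (∏ l ∈ a.primeFactors, psx x l) * (s1 (gx n j x) : ℝ)
      = ∑ x ∈ (cub (Fin 10) n).filter (fun x => ((n : ℕ) : ℤ) ∣ FX x ∧
        (∀ l ∈ n.primeFactors, Pv l x) ∧ n0 ∣ D2 x ∧ An n1 x ∧ Nat.Coprime a (D2 x)),
        ∏ l ∈ n.primeFactors, phi n0 n1 a n j l x := sum_congr rfl hstep
    _ ≤ ∑ x ∈ cub (Fin 10) n, ∏ l ∈ n.primeFactors, phi n0 n1 a n j l x := by
        refine sum_le_sum_of_subset_of_nonneg (filter_subset _ _) fun x _ _ => ?_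
        exact prod_nonneg fun l _ => phi_nn _ _ _ _ _ _ _
    _ = ∏ l ∈ n.primeFactors, ∑ x ∈ cub (Fin 10) (l ^ n.factorization l),
          phi n0 n1 a n j l x := crt_prod n hnne _ (fun l hl => phi_per n0 n1 a n j l hl)
    _ ≤ ∏ l ∈ n.primeFactors, (((l ^ n.factorization l : ℕ) : ℝ) ^ 9 *
        (if l ∣ n0 then C / (l : ℝ) else if l ∣ n1 then rk C l (n1.factorization l)
          else 1 + C / (l : ℝ))) :=
        prod_le_prod (fun l _ => sum_nonneg fun x _ => phi_nn _ _ _ _ _ _ _) hloc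
    _ = (n : ℝ) ^ 9 * (r0 C n0 * r1 C n1 * ra C a) := by
        rw [prod_mul_distrib, prod_pow]
        congr 1
        · congr 1
          rw [← Nat.cast_prod]
          congr 1
          exact Nat.factorization_prod_pow_eq_self hnne
        · rw [hpf, prod_union hdis2, prod_union hdis1]
          congr 1
          · congr 1
            · refine prod_congr rfl fun l hl => ?_
              rw [if_pos (Nat.dvd_of_mem_primeFactors hl)]
            · refine prod_congr rfl fun l hl => ?_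
              rw [if_neg (hf1 l hl).2.1, if_pos (Nat.dvd_of_mem_primeFactors hl)]
          · refine prod_congr rfl fun l hl => ?_
            rw [if_neg (hfa l hl).2.1, if_neg (hfa l hl).2.2]

end Pool.Agent.PP5C
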