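import Pool.Agent.PP5C.Defs

/-!
# LcD: few null classes have `l ∣ D(x)` (difficulty 4)

`l` prime, all counts modulo `l`.  Let `N = {x ∈ cub (Fin 10) l : l ∣ FX x}`.
* (1) `#{x ∈ N : l ∣ x 2 * x 3 * (4 x 2 x 3 + x 9 ^ 2)} ≤ C l ^ 8`:  if `l ∣ x 2`: `x 0` is free, the remaining 8 coordinates
  satisfy `-x1x3 - x4x5 - x6x9 + x7x8 = 0`: at most `2 l ^ 7` (if `x1 ≠ 0`, `x3` is determined; if `x1 = 0`: `l ^ 7`); so
  `≤ 2 l ^ 8`; the same for `x 3`.  If `x2, x3 ≠ 0`, `4 x2 x3 + x9² = 0`: the triples `(x2, x3, x9)`: at most `l²` (`x2`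
  determined by `x3, x9`, if `l ≠ 2`; for `l = 2`: everything is at most `2 ^ 10 ≤ 4 * 2 ^ 8`), and then `x0` is determined
  by the other 6 coordinates: `≤ l² * l⁶`.
* (2) the others: `x2 ≠ 0`.  Translation `x ↦ x + t e`, `e = (x 3) e_0 + (x 2) e_1` (i.e. `x0 + t x3`, `x1 + t x2`; `x2, x3` fixed)
  preserves `FX x = x0 x2 - x1 x3 - ...`, and `DX (x + t e)` is a quadratic polynomial in `t` with leading coefficient
  `(2 x3) * (-(2 x2)) * det [[2 x2, x9],[x9, -(2 x3)]] = 4 x2 x3 (4 x2 x3 + x9²)` up to sign (a polynomial identity, `ring`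
  after expanding the 4x4 determinant: `Matrix.det_succ_row_zero` / `simp`), which is nonzero modulo `l` (`l ≠ 2`): so
  for every `x` at most `2` of the `l` values `t ∈ [0, l)` give `l ∣ DX`.  Averaging (`N` with (2) is stable under the
  translations): `l * #{x ∈ N2 : l ∣ DX x} ≤ 2 * #N2 ≤ 2 * #N`, and `#N ≤ 2 l ^ 9` (`x2 ≠ 0`: `x0` is determined; `x2 = 0`:
  `l * 2 l ^ 7`...).
`lcn`: `#N ≤ l ^ 9 + l ^ 5`: exact count of `u · v = 0` in `F_l ^ 10`: `u ≠ 0`: `l ^ 4` vectors `v`, `u = 0`: `l ^ 5`, so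
`#N = (l ^ 5 - 1) l ^ 4 + l ^ 5` (use `u = (x0, x1, x4, x6, x7)`, `v = (x2, -x3, -x5, -x9, x8)`).
-/

set_option autoImplicit false

namespace Pool.Agent.PP5C

open Finset Pool.Agent.PPS

/-- the quadratic form over any ring -/
private def lcdF {R : Type*} [CommRing R] (x : Fin 10 → R) : R :=
  x 0 * x 2 - x 1 * x 3 - x 4 * x 5 - x 6 * x 9 + x 7 * x 8

/-- the symmetric matrix over any ring -/
private def lcdM {R : Type*} [CommRing R] (x : Fin 10 → R) : Matrix (Fin 4) (Fin 4) R :=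
  !![2 * x 0, -(x 4 + x 5), x 6, -(x 8);
     -(x 4 + x 5), 2 * x 2, -(x 7), x 9;
     x 6, -(x 7), -(2 * x 1), x 4 - x 5;
     -(x 8), x 9, x 4 - x 5, -(2 * x 3)]

private theorem lcd_cub {l : ℕ} (hl : l.Prime) (P : (Fin 10 → ℤ) → Prop)
    (P' : (Fin 10 → ZMod l) → Prop) [Fintype (ZMod l)] [DecidablePred P']
    (h : ∀ x, P x ↔ P' (fun i => (x i : ZMod l))) :
    nn (Fin 10) l P = (Finset.univ.filter P').card := by
  classical
  have : Fact l.Prime := ⟨hl⟩
  have : NeZero l := ⟨hl.ne_zero⟩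
  unfold nn
  refine Finset.card_bij (fun x _ => fun i => (x i : ZMod l)) ?_ ?_ ?_
  · intro x hx
    obtain ⟨-, hx2⟩ := (@Finset.mem_filter _ _ (_) _ _).1 hx
    exact Finset.mem_filter.2 ⟨Finset.mem_univ _, (h x).1 hx2⟩
  · intro x hx y hy hxy
    obtain ⟨hx1, -⟩ := (@Finset.mem_filter _ _ (_) _ _).1 hx
    obtain ⟨hy1, -⟩ := (@Finset.mem_filter _ _ (_) _ _).1 hy
    rw [cub, Fintype.mem_piFinset] at hx1 hy1
    funext i
    have h1 : ((x i : ℤ) : ZMod l) = ((y i : ℤ) : ZMod l) := congrFun hxy i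
    rw [ZMod.intCast_eq_intCast_iff_dvd_sub] at h1
    have h2 := mem_Ico.1 (hx1 i)
    have h3 := mem_Ico.1 (hy1 i)
    have h4 : y i - x i = 0 := by
      apply Int.eq_zero_of_abs_lt_dvd h1
      rw [abs_lt]
      constructor <;> omega
    omega
  · intro y hy
    have hy2 := (Finset.mem_filter.1 hy).2
    have hc : (fun i => (((fun i => ((y i).val : ℤ)) i : ℤ) : ZMod l)) = y := by
      funext i
      simp
    refine ⟨fun i => ((y i).val : ℤ), ?_, hc⟩
    refine (@Finset.mem_filter _ _ (_) _ _).2 ⟨?_, ?_⟩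
    · rw [cub, Fintype.mem_piFinset]
      intro i
      rw [mem_Ico]
      refine ⟨by positivity, ?_⟩
      exact_mod_cast ZMod.val_lt (y i)
    · rw [h, hc]
      exact hy2

private theorem lcd_FX {l : ℕ} (x : Fin 10 → ℤ) :
    (l : ℤ) ∣ FX x ↔ lcdF (fun i => (x i : ZMod l)) = 0 := by
  rw [← ZMod.intCast_zmod_eq_zero_iff_dvd, FX, lcdF]
  push_cast
  exact Iff.rfl

private theorem lcd_DX {l : ℕ} (x : Fin 10 → ℤ) :
    (l : ℤ) ∣ 2 * DX x ↔ 2 * (lcdM (fun i => (x i : ZMod l))).det = 0 := by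
  rw [← ZMod.intCast_zmod_eq_zero_iff_dvd, Int.cast_mul, DX]
  have h1 : (((SX x).det : ℤ) : ZMod l) = (lcdM (fun i => (x i : ZMod l))).det := by
    have h2 := RingHom.map_det (Int.castRingHom (ZMod l)) (SX x)
    rw [Int.coe_castRingHom] at h2
    dsimp only at h2
    rw [h2]
    congr 1
    ext i j
    fin_cases i <;> fin_cases j <;> simp [SX, lcdM]
  rw [h1]
  norm_num

private theorem lcd_det {R : Type*} [CommRing R] (x : Fin 10 → R) :
    (lcdM x).det = 4 * (4 * x 2 * x 3 + x 9 * x 9) * (x 0 * x 1) +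
      ((-4)*(x 2*x 4*x 4) + (8)*(x 2*x 4*x 5) + (-4)*(x 2*x 5*x 5) + (4)*(x 3*x 7*x 7) +
        (-4)*(x 4*x 7*x 9) + (4)*(x 5*x 7*x 9)) * x 0 +
      ((-4)*(x 3*x 4*x 4) + (-8)*(x 3*x 4*x 5) + (-4)*(x 3*x 5*x 5) + (-4)*(x 4*x 8*x 9) +
        (-4)*(x 5*x 8*x 9) + (4)*(x 2*x 8*x 8)) * x 1 +
      (x 4*x 4*x 4*x 4 + (-2)*(x 4*x 4*x 5*x 5) + x 5*x 5*x 5*x 5 + (-4)*(x 3*x 4*x 6*x 7) +
        (-4)*(x 3*x 5*x 6*x 7) + (2)*(x 4*x 4*x 7*x 8) + (-2)*(x 5*x 5*x 7*x 8) +
        (2)*(x 4*x 4*x 6*x 9) + (-2)*(x 5*x 5*x 6*x 9) + (4)*(x 2*x 3*x 6*x 6) +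
        (-4)*(x 2*x 4*x 6*x 8) + (4)*(x 2*x 5*x 6*x 8) + x 6*x 6*x 9*x 9 +
        (-2)*(x 6*x 7*x 8*x 9) + x 7*x 7*x 8*x 8) := by
  simp [lcdM, Matrix.det_succ_row_zero, Fin.sum_univ_succ, Fin.succAbove]
  ring

/-- three points on the line with vanishing determinant -/
private theorem lcd_three {K : Type*} [Field K] (a b c : Fin 10 → K)
    (hb : ∀ i : Fin 10, 2 ≤ i → b i = a i) (hc : ∀ i : Fin 10, 2 ≤ i → c i = a i)
    (h2 : a 2 ≠ 0) (h3 : a 3 ≠ 0) (h4 : (4 : K) ≠ 0) (h9 : 4 * a 2 * a 3 + a 9 * a 9 ≠ 0)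
    (Fa : lcdF a = 0) (Fb : lcdF b = 0) (Fc : lcdF c = 0)
    (Da : (lcdM a).det = 0) (Db : (lcdM b).det = 0) (Dc : (lcdM c).det = 0)
    (hab : a ≠ b) (hac : a ≠ c) (hbc : b ≠ c) : False := by
  have b2 := hb 2 (by decide)
  have b3 := hb 3 (by decide)
  have b4 := hb 4 (by decide)
  have b5 := hb 5 (by decide)
  have b6 := hb 6 (by decide)
  have b7 := hb 7 (by decide)
  have b8 := hb 8 (by decide)
  have b9 := hb 9 (by decide)
  have c2 := hc 2 (by decide)
  have c3 := hc 3 (by decide)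
  have c4 := hc 4 (by decide)
  have c5 := hc 5 (by decide)
  have c6 := hc 6 (by decide)
  have c7 := hc 7 (by decide)
  have c8 := hc 8 (by decide)
  have c9 := hc 9 (by decide)
  simp only [lcdF] at Fa Fb Fc
  rw [lcd_det] at Da Db Dc
  rw [b2, b3, b4, b5, b6, b7, b8, b9] at Fb Db
  rw [c2, c3, c4, c5, c6, c7, c8, c9] at Fc Dc
  have eb : b 0 = a 0 - a 3 / a 2 * (a 1 - b 1) := by
    field_simp
    linear_combination Fb - Fa
  have ec : c 0 = a 0 - a 3 / a 2 * (a 1 - c 1) := by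
    field_simp
    linear_combination Fc - Fa
  have n1 : a 1 - b 1 ≠ 0 := by
    intro h
    apply hab
    funext i
    by_cases hi : 2 ≤ i
    · exact (hb i hi).symm
    · rw [h, mul_zero, sub_zero] at eb
      have h1 : i = 0 ∨ i = 1 := by
        revert hi
        revert i
        decide
      rcases h1 with rfl | rfl
      · exact eb.symm
      · exact sub_eq_zero.1 h
  have n2 : a 1 - c 1 ≠ 0 := by
    intro h
    apply hac
    funext i
    by_cases hi : 2 ≤ i
    · exact (hc i hi).symm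
    · rw [h, mul_zero, sub_zero] at ec
      have h1 : i = 0 ∨ i = 1 := by
        revert hi
        revert i
        decide
      rcases h1 with rfl | rfl
      · exact ec.symm
      · exact sub_eq_zero.1 h
  have n3 : b 1 - c 1 ≠ 0 := by
    intro h
    apply hbc
    funext i
    by_cases hi : 2 ≤ i
    · rw [hb i hi, hc i hi]
    · have h0 : b 1 = c 1 := sub_eq_zero.1 h
      have h1 : i = 0 ∨ i = 1 := by
        revert hi
        revert i
        decide
      rcases h1 with rfl | rfl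
      · rw [eb, ec, h0]
      · exact h0
  rw [eb] at Db
  rw [ec] at Dc
  have key : 4 * (4 * a 2 * a 3 + a 9 * a 9) * (a 3 / a 2) *
      ((a 1 - b 1) * (a 1 - c 1) * (b 1 - c 1)) = 0 := by
    linear_combination (b 1 - c 1) * Da + (c 1 - a 1) * Db + (a 1 - b 1) * Dc
  have hne : 4 * (4 * a 2 * a 3 + a 9 * a 9) * (a 3 / a 2) *
      ((a 1 - b 1) * (a 1 - c 1) * (b 1 - c 1)) ≠ 0 :=
    mul_ne_zero (mul_ne_zero (mul_ne_zero h4 h9) (div_ne_zero h3 h2))
      (mul_ne_zero (mul_ne_zero n1 n2) n3)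
  exact hne key

/-- the solutions of a linear equation -/
private theorem lcd_lin {K : Type*} [Field K] [Fintype K] [DecidableEq K] (u : Fin 5 → K)
    (hu : u ≠ 0) :
    Fintype.card K * (Finset.univ.filter (fun v : Fin 5 → K => ∑ i, u i * v i = 0)).card =
      Fintype.card K ^ 5 := by
  let φ : (Fin 5 → K) →+ K :=
    { toFun := fun v => ∑ i, u i * v i
      map_zero' := by simp
      map_add' := by
        intro v w
        simp only [Pi.add_apply, mul_add, Finset.sum_add_distrib] }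
  obtain ⟨k, hk⟩ := Function.ne_iff.1 hu
  have hsurj : ∀ c : K, c ∈ Set.range φ := by
    intro c
    refine ⟨Pi.single k (c / u k), ?_⟩
    show ∑ i, u i * (Pi.single k (c / u k) : Fin 5 → K) i = c
    rw [Finset.sum_eq_single k]
    · rw [Pi.single_eq_same]
      exact mul_div_cancel₀ c hk
    · intro b _ hb
      rw [Pi.single_eq_of_ne hb, mul_zero]
    · intro h
      exact absurd (Finset.mem_univ k) h
  have h1 : (Finset.univ : Finset (Fin 5 → K)).card =
      ∑ c : K, ((Finset.univ : Finset (Fin 5 → K)).filter (fun v => φ v = c)).card :=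
    Finset.card_eq_sum_card_fiberwise (fun _ _ => Finset.mem_coe.2 (Finset.mem_univ _))
  have h2 : ∀ c : K, ((Finset.univ : Finset (Fin 5 → K)).filter (fun v => φ v = c)).card =
      ((Finset.univ : Finset (Fin 5 → K)).filter (fun v => φ v = 0)).card := fun c =>
    AddMonoidHom.card_fiber_eq_of_mem_range φ (hsurj c) (hsurj 0)
  rw [Finset.sum_congr rfl (fun c _ => h2 c), Finset.sum_const, Finset.card_univ,
    Finset.card_univ, smul_eq_mul, Fintype.card_pi] at h1
  rw [show (Finset.univ.filter (fun v : Fin 5 → K => ∑ i, u i * v i = 0)) =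
    ((Finset.univ : Finset (Fin 5 → K)).filter (fun v => φ v = 0)) from rfl, ← h1]
  simp

private theorem lcd_count {l : ℕ} (hl : l.Prime) [Fintype (ZMod l)] [DecidableEq (ZMod l)] :
    (Finset.univ.filter (fun x : Fin 10 → ZMod l => lcdF x = 0)).card + l ^ 4 =
      l ^ 9 + l ^ 5 := by
  classical
  have : Fact l.Prime := ⟨hl⟩
  have hcard : Fintype.card (ZMod l) = l := by
    rw [← Nat.card_eq_fintype_card, Nat.card_zmod]
  have e1 : (Finset.univ.filter (fun x : Fin 10 → ZMod l => lcdF x = 0)).card =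
      (Finset.univ.filter (fun p : (Fin 5 → ZMod l) × (Fin 5 → ZMod l) =>
        ∑ i, p.1 i * p.2 i = 0)).card := by
    refine Finset.card_bij (fun x _ => (![x 0, x 1, x 4, x 6, x 7],
      ![x 2, -(x 3), -(x 5), -(x 9), x 8])) ?_ ?_ ?_
    · intro x hx
      have hx2 := (Finset.mem_filter.1 hx).2
      refine Finset.mem_filter.2 ⟨Finset.mem_univ _, ?_⟩
      rw [← hx2, lcdF]
      simp [Fin.sum_univ_succ]
      ring
    · intro x _ y _ hxy
      simp only [Prod.mk.injEq] at hxy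
      obtain ⟨h1, h2⟩ := hxy
      have a0 := congrFun h1 0
      have a1 := congrFun h1 1
      have a4 := congrFun h1 2
      have a6 := congrFun h1 3
      have a7 := congrFun h1 4
      have a2 := congrFun h2 0
      have a3 := congrFun h2 1
      have a5 := congrFun h2 2
      have a9 := congrFun h2 3
      have a8 := congrFun h2 4
      simp at a0 a1 a2 a3 a4 a5 a6 a7 a8 a9
      funext i
      fin_cases i
      · exact a0
      · exact a1
      · exact a2
      · exact a3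
      · exact a4
      · exact a5
      · exact a6
      · exact a7
      · exact a8
      · exact a9
    · rintro ⟨u, v⟩ hp
      have hp2 := (Finset.mem_filter.1 hp).2
      refine ⟨![u 0, u 1, v 0, -(v 1), u 2, -(v 2), u 3, u 4, v 4, -(v 3)], ?_, ?_⟩
      · refine Finset.mem_filter.2 ⟨Finset.mem_univ _, ?_⟩
        rw [← hp2, lcdF]
        simp [Fin.sum_univ_succ]
        ring
      · simp only [Prod.mk.injEq]
        constructor
        · funext i
          fin_cases i <;> simp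
        · funext i
          fin_cases i <;> simp
  rw [e1, Finset.card_filter, Fintype.sum_prod_type]
  have e2 : ∀ u : Fin 5 → ZMod l, (∑ v : Fin 5 → ZMod l, if ∑ i, u i * v i = 0 then 1 else 0) =
      (if u = 0 then l ^ 5 - l ^ 4 else 0) + l ^ 4 := by
    intro u
    rw [← Finset.card_filter]
    have hle : l ^ 4 ≤ l ^ 5 := Nat.pow_le_pow_right hl.pos (by norm_num)
    by_cases hu : u = 0
    · rw [if_pos hu, hu]
      simp only [Pi.zero_apply, zero_mul, Finset.sum_const_zero, Finset.filter_true]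
      rw [Finset.card_univ, Fintype.card_pi]
      simp only [hcard, Finset.prod_const, Finset.card_univ, Fintype.card_fin]
      omega
    · rw [if_neg hu, zero_add]
      have h1 := lcd_lin u hu
      rw [hcard] at h1
      have h2 : l * (Finset.univ.filter (fun v : Fin 5 → ZMod l => ∑ i, u i * v i = 0)).card =
          l * l ^ 4 := by rw [h1]; ring
      exact Nat.eq_of_mul_eq_mul_left hl.pos h2
  dsimp only
  rw [Finset.sum_congr rfl (fun u _ => e2 u), Finset.sum_add_distrib, Finset.sum_ite_eq',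
    if_pos (Finset.mem_univ _), Finset.sum_const, Finset.card_univ, Fintype.card_pi]
  simp only [hcard, Finset.prod_const, Finset.card_univ, Fintype.card_fin, smul_eq_mul]
  have hle : l ^ 4 ≤ l ^ 5 := Nat.pow_le_pow_right hl.pos (by norm_num)
  have : l ^ 5 * l ^ 4 = l ^ 9 := by rw [← pow_add]
  omega

/-- a set on which eight coordinates determine the point -/
private theorem lcd_inj {K : Type*} [Fintype K] [DecidableEq K] (S : Finset (Fin 10 → K))
    (idx : Fin 8 → Fin 10)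
    (h : ∀ x ∈ S, ∀ y ∈ S, (∀ k, x (idx k) = y (idx k)) → x = y) :
    S.card ≤ Fintype.card K ^ 8 := by
  have h1 : S.card ≤ (Finset.univ : Finset (Fin 8 → K)).card := by
    refine Finset.card_le_card_of_injOn (fun x k => x (idx k))
      (fun _ _ => Finset.mem_coe.2 (Finset.mem_univ _)) ?_
    intro x hx y hy hxy
    exact h x hx y hy (fun k => congrFun hxy k)
  rw [Finset.card_univ, Fintype.card_pi] at h1
  simpa using h1

private theorem lcd_field {K : Type*} [Field K] [Fintype K] [DecidableEq K] (h4 : (4 : K) ≠ 0) :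
    (Finset.univ.filter (fun x : Fin 10 → K => lcdF x = 0 ∧ (lcdM x).det = 0)).card ≤
      7 * Fintype.card K ^ 8 := by
  set q := Fintype.card K with hq
  let S1 := Finset.univ.filter (fun x : Fin 10 → K => x 2 = 0 ∧ x 1 = 0)
  let S2 := Finset.univ.filter (fun x : Fin 10 → K => x 2 = 0 ∧ x 1 ≠ 0 ∧ lcdF x = 0)
  let S3 := Finset.univ.filter (fun x : Fin 10 → K => x 3 = 0 ∧ x 0 = 0)
  let S4 := Finset.univ.filter (fun x : Fin 10 → K => x 3 = 0 ∧ x 0 ≠ 0 ∧ lcdF x = 0)
  let S5 := Finset.univ.filter (fun x : Fin 10 → K => x 2 ≠ 0 ∧ x 3 ≠ 0 ∧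
    4 * x 2 * x 3 + x 9 * x 9 = 0 ∧ lcdF x = 0)
  let S6 := Finset.univ.filter (fun x : Fin 10 → K => x 2 ≠ 0 ∧ x 3 ≠ 0 ∧
    4 * x 2 * x 3 + x 9 * x 9 ≠ 0 ∧ lcdF x = 0 ∧ (lcdM x).det = 0)
  have c1 : S1.card ≤ q ^ 8 := by
    refine lcd_inj S1 ![0, 3, 4, 5, 6, 7, 8, 9] ?_
    intro x hx y hy h
    obtain ⟨x2, x1⟩ := (Finset.mem_filter.1 hx).2
    obtain ⟨y2, y1⟩ := (Finset.mem_filter.1 hy).2
    funext i
    fin_cases i
    · exact h 0
    · exact x1.trans y1.symm
    · exact x2.trans y2.symm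
    · exact h 1
    · exact h 2
    · exact h 3
    · exact h 4
    · exact h 5
    · exact h 6
    · exact h 7
  have c2 : S2.card ≤ q ^ 8 := by
    refine lcd_inj S2 ![0, 1, 4, 5, 6, 7, 8, 9] ?_
    intro x hx y hy h
    obtain ⟨x2, x1, xF⟩ := (Finset.mem_filter.1 hx).2
    obtain ⟨y2, y1, yF⟩ := (Finset.mem_filter.1 hy).2
    have k0 : x 0 = y 0 := h 0
    have k1 : x 1 = y 1 := h 1
    have k4 : x 4 = y 4 := h 2
    have k5 : x 5 = y 5 := h 3
    have k6 : x 6 = y 6 := h 4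
    have k7 : x 7 = y 7 := h 5
    have k8 : x 8 = y 8 := h 6
    have k9 : x 9 = y 9 := h 7
    rw [lcdF] at xF yF
    rw [← k0, ← k1, ← k4, ← k5, ← k6, ← k7, ← k8, ← k9, y2] at yF
    rw [x2] at xF
    have k3 : x 3 = y 3 := by
      apply mul_left_cancel₀ x1
      linear_combination yF - xF
    funext i
    fin_cases i
    · exact k0
    · exact k1
    · exact x2.trans y2.symm
    · exact k3
    · exact k4
    · exact k5
    · exact k6
    · exact k7
    · exact k8
    · exact k9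
  have c3 : S3.card ≤ q ^ 8 := by
    refine lcd_inj S3 ![1, 2, 4, 5, 6, 7, 8, 9] ?_
    intro x hx y hy h
    obtain ⟨x3, x0⟩ := (Finset.mem_filter.1 hx).2
    obtain ⟨y3, y0⟩ := (Finset.mem_filter.1 hy).2
    funext i
    fin_cases i
    · exact x0.trans y0.symm
    · exact h 0
    · exact h 1
    · exact x3.trans y3.symm
    · exact h 2
    · exact h 3
    · exact h 4
    · exact h 5
    · exact h 6
    · exact h 7
  have c4 : S4.card ≤ q ^ 8 := by
    refine lcd_inj S4 ![0, 1, 4, 5, 6, 7, 8, 9] ?_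
    intro x hx y hy h
    obtain ⟨x3, x0, xF⟩ := (Finset.mem_filter.1 hx).2
    obtain ⟨y3, y0, yF⟩ := (Finset.mem_filter.1 hy).2
    have k0 : x 0 = y 0 := h 0
    have k1 : x 1 = y 1 := h 1
    have k4 : x 4 = y 4 := h 2
    have k5 : x 5 = y 5 := h 3
    have k6 : x 6 = y 6 := h 4
    have k7 : x 7 = y 7 := h 5
    have k8 : x 8 = y 8 := h 6
    have k9 : x 9 = y 9 := h 7
    rw [lcdF] at xF yF
    rw [← k0, ← k1, ← k4, ← k5, ← k6, ← k7, ← k8, ← k9, y3] at yF
    rw [x3] at xF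
    have k2 : x 2 = y 2 := by
      apply mul_left_cancel₀ x0
      linear_combination xF - yF
    funext i
    fin_cases i
    · exact k0
    · exact k1
    · exact k2
    · exact x3.trans y3.symm
    · exact k4
    · exact k5
    · exact k6
    · exact k7
    · exact k8
    · exact k9
  have c5 : S5.card ≤ q ^ 8 := by
    refine lcd_inj S5 ![1, 3, 4, 5, 6, 7, 8, 9] ?_
    intro x hx y hy h
    obtain ⟨x2, x3, x9, xF⟩ := (Finset.mem_filter.1 hx).2
    obtain ⟨y2, y3, y9, yF⟩ := (Finset.mem_filter.1 hy).2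
    have k1 : x 1 = y 1 := h 0
    have k3 : x 3 = y 3 := h 1
    have k4 : x 4 = y 4 := h 2
    have k5 : x 5 = y 5 := h 3
    have k6 : x 6 = y 6 := h 4
    have k7 : x 7 = y 7 := h 5
    have k8 : x 8 = y 8 := h 6
    have k9 : x 9 = y 9 := h 7
    rw [← k3, ← k9] at y9
    have k2 : x 2 = y 2 := by
      apply mul_left_cancel₀ (mul_ne_zero h4 x3)
      linear_combination x9 - y9
    rw [lcdF] at xF yF
    rw [← k1, ← k2, ← k3, ← k4, ← k5, ← k6, ← k7, ← k8, ← k9] at yF
    have k0 : x 0 = y 0 := by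
      apply mul_right_cancel₀ x2
      linear_combination xF - yF
    funext i
    fin_cases i
    · exact k0
    · exact k1
    · exact k2
    · exact k3
    · exact k4
    · exact k5
    · exact k6
    · exact k7
    · exact k8
    · exact k9
  have c6 : S6.card ≤ 2 * q ^ 8 := by
    have h1 : S6.card ≤ 2 * (S6.image (fun (x : Fin 10 → K) (k : Fin 8) =>
        x (k.natAdd 2))).card := by
      apply Finset.card_le_mul_card_image
      intro z _
      by_contra hcon
      push Not at hcon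
      obtain ⟨a, ha, b, hb, c, hc, hab, hac, hbc⟩ := Finset.two_lt_card.1 hcon
      obtain ⟨ha1, haz⟩ := Finset.mem_filter.1 ha
      obtain ⟨hb1, hbz⟩ := Finset.mem_filter.1 hb
      obtain ⟨hc1, hcz⟩ := Finset.mem_filter.1 hc
      obtain ⟨a2, a3, a9, aF, aD⟩ := (Finset.mem_filter.1 ha1).2
      obtain ⟨-, -, -, bF, bD⟩ := (Finset.mem_filter.1 hb1).2
      obtain ⟨-, -, -, cF, cD⟩ := (Finset.mem_filter.1 hc1).2
      have hge : ∀ i : Fin 10, 2 ≤ i → ∃ k : Fin 8, (k.natAdd 2 : Fin 10) = i := by decide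
      refine lcd_three a b c ?_ ?_ a2 a3 h4 a9 aF bF cF aD bD cD hab hac hbc
      · intro i hi
        obtain ⟨k, rfl⟩ := hge i hi
        exact congrFun (hbz.trans haz.symm) k
      · intro i hi
        obtain ⟨k, rfl⟩ := hge i hi
        exact congrFun (hcz.trans haz.symm) k
    refine h1.trans (Nat.mul_le_mul_left _ ?_)
    refine (Finset.card_le_univ _).trans (le_of_eq ?_)
    rw [Fintype.card_pi]
    simp [hq]
  have hsub : Finset.univ.filter (fun x : Fin 10 → K => lcdF x = 0 ∧ (lcdM x).det = 0) ⊆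
      S1 ∪ (S2 ∪ (S3 ∪ (S4 ∪ (S5 ∪ S6)))) := by
    intro x hx
    obtain ⟨xF, xD⟩ := (Finset.mem_filter.1 hx).2
    simp only [S1, S2, S3, S4, S5, S6, Finset.mem_union, Finset.mem_filter, Finset.mem_univ,
      true_and]
    by_cases x2 : x 2 = 0
    · by_cases x1 : x 1 = 0
      · exact Or.inl ⟨x2, x1⟩
      · exact Or.inr (Or.inl ⟨x2, x1, xF⟩)
    · by_cases x3 : x 3 = 0
      · by_cases x0 : x 0 = 0
        · exact Or.inr (Or.inr (Or.inl ⟨x3, x0⟩))
        · exact Or.inr (Or.inr (Or.inr (Or.inl ⟨x3, x0, xF⟩)))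
      · by_cases x9 : 4 * x 2 * x 3 + x 9 * x 9 = 0
        · exact Or.inr (Or.inr (Or.inr (Or.inr (Or.inl ⟨x2, x3, x9, xF⟩))))
        · exact Or.inr (Or.inr (Or.inr (Or.inr (Or.inr ⟨x2, x3, x9, xF, xD⟩))))
  have h0 := Finset.card_le_card hsub
  have u1 := Finset.card_union_le S1 (S2 ∪ (S3 ∪ (S4 ∪ (S5 ∪ S6))))
  have u2 := Finset.card_union_le S2 (S3 ∪ (S4 ∪ (S5 ∪ S6)))
  have u3 := Finset.card_union_le S3 (S4 ∪ (S5 ∪ S6))
  have u4 := Finset.card_union_le S4 (S5 ∪ S6)
  have u5 := Finset.card_union_le S5 S6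
  omega

theorem lcd : ∃ C : ℕ, ∀ l : ℕ, l.Prime →
    nn (Fin 10) l (fun x => (l : ℤ) ∣ FX x ∧ (l : ℤ) ∣ 2 * DX x) ≤ C * l ^ 8 := by
  classical
  refine ⟨7, fun l hl => ?_⟩
  have : Fact l.Prime := ⟨hl⟩
  have hcard : Fintype.card (ZMod l) = l := ZMod.card l
  rw [lcd_cub hl _ (fun x => lcdF x = 0 ∧ 2 * (lcdM x).det = 0)
    (fun x => and_congr (lcd_FX x) (lcd_DX x))]
  by_cases h2 : l = 2
  · subst h2
    refine (Finset.card_le_univ _).trans ?_
    rw [Fintype.card_pi]
    simp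
  · have h20 : (2 : ZMod l) ≠ 0 := by
      intro h
      have h1 : ((2 : ℕ) : ZMod l) = 0 := by exact_mod_cast h
      rw [ZMod.natCast_eq_zero_iff] at h1
      have h3 := (Nat.prime_dvd_prime_iff_eq hl Nat.prime_two).1 h1
      exact h2 h3
    have h40 : (4 : ZMod l) ≠ 0 := by
      have : (4 : ZMod l) = 2 * 2 := by norm_num
      rw [this]
      exact mul_ne_zero h20 h20
    have h3 := lcd_field h40
    rw [hcard] at h3
    refine le_trans (Finset.card_le_card ?_) h3
    intro x hx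
    obtain ⟨xF, xD⟩ := (Finset.mem_filter.1 hx).2
    refine Finset.mem_filter.2 ⟨Finset.mem_univ _, xF, ?_⟩
    rcases mul_eq_zero.1 xD with h | h
    · exact absurd h h20
    · exact h

theorem lcn {l : ℕ} (hl : l.Prime) :
    nn (Fin 10) l (fun x => (l : ℤ) ∣ FX x) + l ^ 4 = l ^ 9 + l ^ 5 := by
  classical
  have : Fact l.Prime := ⟨hl⟩
  rw [lcd_cub hl _ (fun x => lcdF x = 0) (fun x => lcd_FX x)]
  exact lcd_count hl

end Pool.Agent.PP5C
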