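import Pool.Agent.PP5C.Defs

/-!
# LcT: classes with three coordinates divisible by `l ^ j` (difficulty 4)

Ten cases for `t` (or treat the general situation with `u, v`).  `a` = the coordinates `tr t 0, tr t 1, tr t 2`, `b` their
partners, `y1 y2 ± y3 y4` the part of `FX` of the two remaining pairs.  If `l ^ j ∣ a` (all three) and `l ^ j ∣ FX x` then
`l ^ j ∣ y1 y2 ± y3 y4`.  Number of classes modulo `l ^ s`: `a`: `(l ^ (s - j)) ^ 3`; `b`: `l ^ (3 s)`; `y`: every class modulo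
`l ^ j` has `l ^ (4 (s - j))` lifts and the number of `y` modulo `l ^ j` with `l ^ j ∣ y1 y2 + ε y3 y4` (`ε = ± 1`) is at most
`2 l ^ (3 j)`: let `i ≤ j` be such that `l ^ i = gcd (y1, y3, l ^ j)`: there are at most `(l ^ (j - i))²` such pairs `(y1, y3)`
and for each at most `l ^ (j + i)` pairs `(y2, y4)` (if `y1 = l ^ i * unit`: `y4` free, `y2` determined modulo `l ^ (j - i)`);
`∑_i l ^ (2 (j - i) + j + i) = l ^ (3 j) ∑ l ^ (-i) ≤ 2 l ^ (3 j)`.
Total `l ^ (3 (s - j) + 3 s + 4 (s - j)) * 2 l ^ (3 j) = 2 l ^ (10 s - 4 j)`.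
-/

set_option autoImplicit false

namespace Pool.Agent.PP5C

open Finset Pool.Agent.PPS

/-- the number of `y ∈ [0, l ^ s)` with `l ^ j ∣ u * y + c` -/
private theorem lct_lin {l s j : ℕ} (hl : l.Prime) (hj : j ≤ s) (u c : ℤ) (hu : ¬ (l : ℤ) ∣ u) :
    ((Ico (0 : ℤ) ((l ^ s : ℕ) : ℤ)).filter
      (fun y => ((l ^ j : ℕ) : ℤ) ∣ u * y + c)).card ≤ l ^ (s - j) := by
  have hlp : Prime (l : ℤ) := Nat.prime_iff_prime_int.1 hl
  have hL : (0 : ℤ) < ((l ^ j : ℕ) : ℤ) := by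
    have := pow_pos hl.pos j
    exact_mod_cast this
  have hcard : (Ico (0 : ℤ) ((l ^ (s - j) : ℕ) : ℤ)).card = l ^ (s - j) := by
    rw [Int.card_Ico, sub_zero, Int.toNat_natCast]
  rw [← hcard]
  refine Finset.card_le_card_of_injOn (fun y => y / ((l ^ j : ℕ) : ℤ)) ?_ ?_
  · intro y hy
    rw [Finset.mem_coe, mem_filter, mem_Ico] at hy
    obtain ⟨⟨h0, h1⟩, -⟩ := hy
    rw [Finset.mem_coe, mem_Ico]
    refine ⟨Int.ediv_nonneg h0 hL.le, ?_⟩
    refine Int.ediv_lt_of_lt_mul hL ?_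
    refine lt_of_lt_of_eq h1 ?_
    rw [← Nat.cast_mul, ← pow_add]
    congr 2
    omega
  · intro y hy z hz hyz
    rw [Finset.mem_coe, mem_filter] at hy hz
    have hd : ((l ^ j : ℕ) : ℤ) ∣ u * (y - z) := by
      have := dvd_sub hy.2 hz.2
      have e : u * y + c - (u * z + c) = u * (y - z) := by ring
      rwa [e] at this
    have hcop : IsCoprime ((l ^ j : ℕ) : ℤ) u := by
      have h1 : IsCoprime (l : ℤ) u := by
        rw [hlp.irreducible.coprime_iff_not_dvd]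
        exact hu
      have := h1.pow_left (m := j)
      rwa [← Nat.cast_pow] at this
    have hd2 : ((l ^ j : ℕ) : ℤ) ∣ y - z := hcop.dvd_of_dvd_mul_left hd
    have hm : y % ((l ^ j : ℕ) : ℤ) = z % ((l ^ j : ℕ) : ℤ) :=
      (Int.emod_eq_emod_iff_emod_sub_eq_zero).2 (Int.emod_eq_zero_of_dvd hd2)
    have h1 := Int.emod_add_mul_ediv y ((l ^ j : ℕ) : ℤ)
    have h2 := Int.emod_add_mul_ediv z ((l ^ j : ℕ) : ℤ)
    dsimp only at hyz
    rw [← h1, ← h2, hm, hyz]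

/-- quadruples `((y1, y3), (y2, y4))` with `l ^ j ∣ y1 y2 + e y3 y4` -/
private noncomputable def lctQ (l a s j : ℕ) (e : ℤ) : Finset ((ℤ × ℤ) × (ℤ × ℤ)) :=
  (((Ico (0 : ℤ) ((l ^ a : ℕ) : ℤ)) ×ˢ (Ico (0 : ℤ) ((l ^ a : ℕ) : ℤ))) ×ˢ
    ((Ico (0 : ℤ) ((l ^ s : ℕ) : ℤ)) ×ˢ (Ico (0 : ℤ) ((l ^ s : ℕ) : ℤ)))).filter
      (fun p => ((l ^ j : ℕ) : ℤ) ∣ p.1.1 * p.2.1 + e * (p.1.2 * p.2.2))

private theorem lct_Ico (n : ℕ) : (Ico (0 : ℤ) (n : ℤ)).card = n := by
  rw [Int.card_Ico, sub_zero, Int.toNat_natCast]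

private theorem lct_prim {l a s j : ℕ} (hl : l.Prime) (hjs : j ≤ s) {e : ℤ}
    (he : e = 1 ∨ e = -1) :
    ((lctQ l a s j e).filter (fun p => ¬ ((l : ℤ) ∣ p.1.1 ∧ (l : ℤ) ∣ p.1.2))).card ≤
      l ^ (s - j) * (l ^ a * l ^ a * l ^ s) := by
  classical
  set S := (lctQ l a s j e).filter (fun p => ¬ ((l : ℤ) ∣ p.1.1 ∧ (l : ℤ) ∣ p.1.2)) with hS
  let f : ((ℤ × ℤ) × (ℤ × ℤ)) → ((ℤ × ℤ) × ℤ) :=
    fun p => (p.1, if (l : ℤ) ∣ p.1.1 then p.2.1 else p.2.2)
  have h1 : S.card ≤ l ^ (s - j) * (S.image f).card := by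
    apply Finset.card_le_mul_card_image
    intro q _
    obtain ⟨⟨y1, y3⟩, z⟩ := q
    by_cases h : (l : ℤ) ∣ y1
    · by_cases h3 : (l : ℤ) ∣ y3
      · have : S.filter (fun x => f x = ((y1, y3), z)) = ∅ := by
          rw [Finset.filter_eq_empty_iff]
          intro x hx hf
          rw [hS, mem_filter] at hx
          simp only [f, Prod.mk.injEq] at hf
          apply hx.2
          rw [hf.1]
          exact ⟨h, h3⟩
        rw [this, card_empty]
        exact Nat.zero_le _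
      · have hu : ¬ (l : ℤ) ∣ e * y3 := by
          rcases he with rfl | rfl
          · simpa using h3
          · simpa using h3
        refine le_trans ?_ (lct_lin hl hjs (e * y3) (y1 * z) hu)
        refine Finset.card_le_card_of_injOn (fun p => p.2.2) ?_ ?_
        · intro x hx
          rw [Finset.mem_coe, mem_filter, hS, mem_filter, lctQ, mem_filter, mem_product,
            mem_product, mem_product] at hx
          obtain ⟨⟨⟨⟨-, -, hx4⟩, hd⟩, -⟩, hf⟩ := hx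
          simp only [f, Prod.mk.injEq] at hf
          obtain ⟨hf1, hf2⟩ := hf
          rw [hf1] at hf2 hd
          rw [if_pos h] at hf2
          rw [Finset.mem_coe, mem_filter]
          refine ⟨hx4, ?_⟩
          rw [hf2] at hd
          have e1 : e * y3 * x.2.2 + y1 * z = y1 * z + e * (y3 * x.2.2) := by ring
          rw [e1]
          exact hd
        · intro x hx x' hx' hxx
          rw [Finset.mem_coe, mem_filter] at hx hx'
          have hf := hx.2
          have hf' := hx'.2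
          simp only [f, Prod.mk.injEq] at hf hf'
          have a1 : x.1 = x'.1 := by rw [hf.1, hf'.1]
          have a2 : x.2.1 = x'.2.1 := by
            have b1 := hf.2
            have b2 := hf'.2
            rw [hf.1, if_pos h] at b1
            rw [hf'.1, if_pos h] at b2
            rw [b1, b2]
          exact Prod.ext a1 (Prod.ext a2 hxx)
    · refine le_trans ?_ (lct_lin hl hjs y1 (e * (y3 * z)) h)
      refine Finset.card_le_card_of_injOn (fun p => p.2.1) ?_ ?_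
      · intro x hx
        rw [Finset.mem_coe, mem_filter, hS, mem_filter, lctQ, mem_filter, mem_product,
          mem_product, mem_product] at hx
        obtain ⟨⟨⟨⟨-, hx3, -⟩, hd⟩, -⟩, hf⟩ := hx
        simp only [f, Prod.mk.injEq] at hf
        obtain ⟨hf1, hf2⟩ := hf
        rw [hf1] at hf2 hd
        rw [if_neg h] at hf2
        rw [Finset.mem_coe, mem_filter]
        refine ⟨hx3, ?_⟩
        rw [hf2] at hd
        exact hd
      · intro x hx x' hx' hxx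
        rw [Finset.mem_coe, mem_filter] at hx hx'
        have hf := hx.2
        have hf' := hx'.2
        simp only [f, Prod.mk.injEq] at hf hf'
        have a1 : x.1 = x'.1 := by rw [hf.1, hf'.1]
        have a2 : x.2.2 = x'.2.2 := by
          have b1 := hf.2
          have b2 := hf'.2
          rw [hf.1, if_neg h] at b1
          rw [hf'.1, if_neg h] at b2
          rw [b1, b2]
        exact Prod.ext a1 (Prod.ext hxx a2)
  refine h1.trans (Nat.mul_le_mul_left _ ?_)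
  have h2 : S.image f ⊆ ((Ico (0 : ℤ) ((l ^ a : ℕ) : ℤ)) ×ˢ (Ico (0 : ℤ) ((l ^ a : ℕ) : ℤ))) ×ˢ
      (Ico (0 : ℤ) ((l ^ s : ℕ) : ℤ)) := by
    intro y hy
    obtain ⟨x, hx, rfl⟩ := mem_image.1 hy
    rw [hS, mem_filter, lctQ, mem_filter, mem_product, mem_product, mem_product] at hx
    obtain ⟨⟨⟨hx1, hx3, hx4⟩, -⟩, -⟩ := hx
    rw [mem_product, mem_product]
    refine ⟨hx1, ?_⟩
    simp only [f]
    split_ifs
    · exact hx3
    · exact hx4
  refine (Finset.card_le_card h2).trans (le_of_eq ?_)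
  rw [card_product, card_product, lct_Ico, lct_Ico]

private theorem lct_Q {l s : ℕ} (hl : l.Prime) {e : ℤ} (he : e = 1 ∨ e = -1) :
    ∀ j a : ℕ, j ≤ a → j ≤ s → (lctQ l a s j e).card ≤ 2 * l ^ (2 * a + 2 * s - j) := by
  classical
  intro j
  induction j with
  | zero =>
    intro a _ _
    have h1 : (lctQ l a s 0 e).card ≤ l ^ (2 * a + 2 * s) := by
      refine (Finset.card_filter_le _ _).trans (le_of_eq ?_)
      rw [card_product, card_product, card_product, lct_Ico, lct_Ico]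
      ring
    rw [Nat.sub_zero]
    omega
  | succ j ih =>
    intro a hja hjs
    obtain ⟨a', rfl⟩ : ∃ a', a = a' + 1 := ⟨a - 1, by omega⟩
    have hsplit := Finset.card_filter_add_card_filter_not (s := lctQ l (a' + 1) s (j + 1) e)
      (fun p => ((l : ℤ) ∣ p.1.1 ∧ (l : ℤ) ∣ p.1.2))
    have h1 := lct_prim (a := a' + 1) hl hjs he
    have h2 : ((lctQ l (a' + 1) s (j + 1) e).filter
        (fun p => ((l : ℤ) ∣ p.1.1 ∧ (l : ℤ) ∣ p.1.2))).card ≤ 2 * l ^ (2 * a' + 2 * s - j) := by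
      refine le_trans ?_ (ih a' (by omega) (by omega))
      have hl0 : (0 : ℤ) < (l : ℤ) := by exact_mod_cast hl.pos
      refine Finset.card_le_card_of_injOn
        (fun p => ((p.1.1 / (l : ℤ), p.1.2 / (l : ℤ)), p.2)) ?_ ?_
      · intro x hx
        rw [Finset.mem_coe, mem_filter, lctQ, mem_filter, mem_product,
          mem_product, mem_product, mem_Ico, mem_Ico] at hx
        obtain ⟨⟨⟨⟨⟨hx10, hx11⟩, ⟨hx20, hx21⟩⟩, hx34⟩, hd⟩, ⟨y1, hy1⟩, ⟨y3, hy3⟩⟩ := hx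
        rw [Finset.mem_coe, lctQ, mem_filter, mem_product,
          mem_product, mem_product, mem_Ico, mem_Ico]
        have e1 : x.1.1 / (l : ℤ) = y1 := by rw [hy1]; exact Int.mul_ediv_cancel_left _ hl0.ne'
        have e3 : x.1.2 / (l : ℤ) = y3 := by rw [hy3]; exact Int.mul_ediv_cancel_left _ hl0.ne'
        have hpow : ((l ^ (a' + 1) : ℕ) : ℤ) = (l : ℤ) * ((l ^ a' : ℕ) : ℤ) := by
          push_cast
          ring
        dsimp only
        rw [e1, e3]
        rw [hpow, hy1] at hx11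
        rw [hpow, hy3] at hx21
        rw [hy1] at hx10
        rw [hy3] at hx20
        refine ⟨⟨⟨⟨?_, ?_⟩, ?_, ?_⟩, hx34⟩, ?_⟩
        · exact nonneg_of_mul_nonneg_right hx10 hl0
        · exact lt_of_mul_lt_mul_left hx11 hl0.le
        · exact nonneg_of_mul_nonneg_right hx20 hl0
        · exact lt_of_mul_lt_mul_left hx21 hl0.le
        · rw [hy1, hy3] at hd
          have e4 : ((l ^ (j + 1) : ℕ) : ℤ) = (l : ℤ) * ((l ^ j : ℕ) : ℤ) := by
            push_cast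
            ring
          have e5 : (l : ℤ) * y1 * x.2.1 + e * ((l : ℤ) * y3 * x.2.2) =
              (l : ℤ) * (y1 * x.2.1 + e * (y3 * x.2.2)) := by ring
          rw [e4, e5] at hd
          exact (mul_dvd_mul_iff_left hl0.ne').1 hd
      · intro x hx x' hx' hxx
        rw [Finset.mem_coe, mem_filter] at hx hx'
        simp only [Prod.mk.injEq] at hxx
        obtain ⟨⟨hh1, hh2⟩, hh3⟩ := hxx
        obtain ⟨-, ⟨y1, hy1⟩, ⟨y3, hy3⟩⟩ := hx
        obtain ⟨-, ⟨z1, hz1⟩, ⟨z3, hz3⟩⟩ := hx'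
        rw [hy1, hz1, Int.mul_ediv_cancel_left _ hl0.ne', Int.mul_ediv_cancel_left _ hl0.ne'] at hh1
        rw [hy3, hz3, Int.mul_ediv_cancel_left _ hl0.ne', Int.mul_ediv_cancel_left _ hl0.ne'] at hh2
        refine Prod.ext (Prod.ext ?_ ?_) hh3
        · rw [hy1, hz1, hh1]
        · rw [hy3, hz3, hh2]
    have e1 : l ^ (s - (j + 1)) * (l ^ (a' + 1) * l ^ (a' + 1) * l ^ s) =
        l ^ (2 * (a' + 1) + 2 * s - (j + 1)) := by
      rw [← pow_add, ← pow_add, ← pow_add]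
      congr 1
      omega
    have e2 : 2 * l ^ (2 * a' + 2 * s - j) ≤ l ^ (2 * (a' + 1) + 2 * s - (j + 1)) := by
      have : 2 * (a' + 1) + 2 * s - (j + 1) = (2 * a' + 2 * s - j) + 1 := by omega
      rw [this, pow_succ, mul_comm]
      exact Nat.mul_le_mul_left _ hl.two_le
    rw [e1] at h1
    omega

/-- the coordinates: triple, partners, the two remaining pairs -/
private def lctM : Fin 10 → Fin 10 → Fin 10 :=
  ![![0, 1, 4, 2, 3, 5, 7, 8, 6, 9], ![1, 0, 4, 3, 2, 5, 7, 8, 6, 9],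
    ![2, 1, 4, 0, 3, 5, 7, 8, 6, 9], ![3, 0, 4, 1, 2, 5, 7, 8, 6, 9],
    ![4, 0, 1, 5, 2, 3, 7, 8, 6, 9], ![5, 0, 1, 4, 2, 3, 7, 8, 6, 9],
    ![6, 0, 1, 9, 2, 3, 7, 8, 4, 5], ![7, 0, 1, 8, 2, 3, 4, 5, 6, 9],
    ![8, 0, 1, 7, 2, 3, 4, 5, 6, 9], ![9, 0, 1, 6, 2, 3, 7, 8, 4, 5]]

/-- the signs -/
private def lctE : Fin 10 → ℤ := ![-1, -1, -1, -1, -1, -1, -1, 1, 1, -1]

private theorem lctM_surj : ∀ t i, ∃ k, lctM t k = i := by decide

private theorem lctM_tr : ∀ t, lctM t 0 = tr t 0 ∧ lctM t 1 = tr t 1 ∧ lctM t 2 = tr t 2 := by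
  decide

private theorem lctE_pm (t : Fin 10) : lctE t = 1 ∨ lctE t = -1 := by
  fin_cases t <;> simp [lctE]

private theorem lct_form (t : Fin 10) (x : Fin 10 → ℤ) : ∃ s0 s1 s2 s3 : ℤ,
    s0 * FX x = (x (lctM t 6) * x (lctM t 7) + lctE t * (x (lctM t 8) * x (lctM t 9))) +
      (s1 * (x (lctM t 0) * x (lctM t 3)) + s2 * (x (lctM t 1) * x (lctM t 4)) +
        s3 * (x (lctM t 2) * x (lctM t 5))) := by
  fin_cases t
  · refine ⟨1, 1, -1, -1, ?_⟩
    simp [lctM, lctE, FX]; ring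
  · refine ⟨1, -1, 1, -1, ?_⟩
    simp [lctM, lctE, FX]; ring
  · refine ⟨1, 1, -1, -1, ?_⟩
    simp [lctM, lctE, FX]; ring
  · refine ⟨1, -1, 1, -1, ?_⟩
    simp [lctM, lctE, FX]; ring
  · refine ⟨1, -1, 1, -1, ?_⟩
    simp [lctM, lctE, FX]; ring
  · refine ⟨1, -1, 1, -1, ?_⟩
    simp [lctM, lctE, FX]; ring
  · refine ⟨1, -1, 1, -1, ?_⟩
    simp [lctM, lctE, FX]; ring
  · refine ⟨-1, -1, -1, 1, ?_⟩
    simp [lctM, lctE, FX]; ring
  · refine ⟨-1, -1, -1, 1, ?_⟩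
    simp [lctM, lctE, FX]; ring
  · refine ⟨1, -1, 1, -1, ?_⟩
    simp [lctM, lctE, FX]; ring

theorem lct {l s j : ℕ} (hl : l.Prime) (hj : j ≤ s) (t : Fin 10) :
    nn (Fin 10) (l ^ s) (fun x => ((l ^ s : ℕ) : ℤ) ∣ FX x ∧
      ∀ i, ((l ^ j : ℕ) : ℤ) ∣ x (tr t i)) ≤ 2 * l ^ (10 * s - 4 * j) := by
  classical
  have hlj : ((l ^ j : ℕ) : ℤ) ∣ ((l ^ s : ℕ) : ℤ) := by
    exact_mod_cast pow_dvd_pow l hj
  set I := Ico (0 : ℤ) ((l ^ s : ℕ) : ℤ) with hI
  set A := I.filter (fun y => ((l ^ j : ℕ) : ℤ) ∣ (1 : ℤ) * y + 0) with hA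
  have hAc : A.card ≤ l ^ (s - j) := by
    refine lct_lin hl hj 1 0 ?_
    intro h
    have h1 := Int.isUnit_iff.1 (isUnit_of_dvd_one h)
    have h2 := hl.two_le
    omega
  have hIc : I.card = l ^ s := lct_Ico _
  have hQ := lct_Q hl (lctE_pm t) j s hj hj
  have h1 : nn (Fin 10) (l ^ s) (fun x => ((l ^ s : ℕ) : ℤ) ∣ FX x ∧
      ∀ i, ((l ^ j : ℕ) : ℤ) ∣ x (tr t i)) ≤
      ((A ×ˢ (A ×ˢ A)) ×ˢ ((I ×ˢ (I ×ˢ I)) ×ˢ lctQ l s s j (lctE t))).card := by
    unfold nn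
    refine Finset.card_le_card_of_injOn (fun x =>
      ((x (lctM t 0), (x (lctM t 1), x (lctM t 2))),
        ((x (lctM t 3), (x (lctM t 4), x (lctM t 5))),
          ((x (lctM t 6), x (lctM t 8)), (x (lctM t 7), x (lctM t 9)))))) ?_ ?_
    · intro x hx
      obtain ⟨hx1, hx2, hx3⟩ := (@Finset.mem_filter _ _ (_) _ _).1 (Finset.mem_coe.1 hx)
      rw [cub, Fintype.mem_piFinset] at hx1
      obtain ⟨t0, t1, t2⟩ := lctM_tr t
      have d0 : ((l ^ j : ℕ) : ℤ) ∣ x (lctM t 0) := by rw [t0]; exact hx3 0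
      have d1 : ((l ^ j : ℕ) : ℤ) ∣ x (lctM t 1) := by rw [t1]; exact hx3 1
      have d2 : ((l ^ j : ℕ) : ℤ) ∣ x (lctM t 2) := by rw [t2]; exact hx3 2
      simp only [Finset.coe_product, Set.mem_prod, Finset.mem_coe, hA, mem_filter, one_mul,
        add_zero, lctQ, mem_product]
      refine ⟨⟨⟨hx1 _, d0⟩, ⟨hx1 _, d1⟩, ⟨hx1 _, d2⟩⟩, ⟨hx1 _, hx1 _, hx1 _⟩,
        ⟨⟨hx1 _, hx1 _⟩, hx1 _, hx1 _⟩, ?_⟩
      obtain ⟨s0, s1, s2, s3, hs⟩ := lct_form t x
      have e1 : x (lctM t 6) * x (lctM t 7) + lctE t * (x (lctM t 8) * x (lctM t 9)) =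
          s0 * FX x - (s1 * (x (lctM t 0) * x (lctM t 3)) + s2 * (x (lctM t 1) * x (lctM t 4)) +
        s3 * (x (lctM t 2) * x (lctM t 5))) := by linarith
      rw [e1]
      refine dvd_sub (Dvd.dvd.mul_left (hlj.trans hx2) _) (dvd_add (dvd_add ?_ ?_) ?_)
      · exact Dvd.dvd.mul_left (Dvd.dvd.mul_right d0 _) _
      · exact Dvd.dvd.mul_left (Dvd.dvd.mul_right d1 _) _
      · exact Dvd.dvd.mul_left (Dvd.dvd.mul_right d2 _) _
    · intro x _ y _ hxy
      simp only [Prod.mk.injEq] at hxy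
      obtain ⟨⟨h0, h1, h2⟩, ⟨h3, h4, h5⟩, ⟨h6, h8⟩, h7, h9⟩ := hxy
      have key : ∀ k : Fin 10, x (lctM t k) = y (lctM t k) := by
        intro k
        fin_cases k
        · exact h0
        · exact h1
        · exact h2
        · exact h3
        · exact h4
        · exact h5
        · exact h6
        · exact h7
        · exact h8
        · exact h9
      funext i
      obtain ⟨k, rfl⟩ := lctM_surj t i
      exact key k
  refine h1.trans ?_
  rw [card_product, card_product, card_product, card_product, card_product, card_product, hIc]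
  have h2 : A.card * (A.card * A.card) ≤ l ^ (s - j) * (l ^ (s - j) * l ^ (s - j)) :=
    Nat.mul_le_mul hAc (Nat.mul_le_mul hAc hAc)
  refine (Nat.mul_le_mul h2 (Nat.mul_le_mul_left _ hQ)).trans (le_of_eq ?_)
  have e1 : l ^ (s - j) * (l ^ (s - j) * l ^ (s - j)) *
      (l ^ s * (l ^ s * l ^ s) * (2 * l ^ (2 * s + 2 * s - j))) =
      2 * (l ^ (s - j) * l ^ (s - j) * l ^ (s - j) * l ^ s * l ^ s * l ^ s *
        l ^ (2 * s + 2 * s - j)) := by ring
  rw [e1, ← pow_add, ← pow_add, ← pow_add, ← pow_add, ← pow_add, ← pow_add]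
  congr 2
  omega

end Pool.Agent.PP5C
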