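import Pool.Agent.PP5C.LcT
import Pool.Agent.PP5C.LcD
import Pool.Agent.PP5C.LcS
import Pool.Agent.PP5C.Chs

/-!
# LcX: the local sums with the gcd weight (difficulty 3)

`s1 (gx (l ^ s) j x) = ∑_{i ≤ s} l ^ i [l ^ i ∣ x (tr j 0), x (tr j 1), x (tr j 2)]` (divisors of a power of `l`;
`gx` divides `l ^ s`).  Exchange the sums.
* (a), (b) (`s = 1`): `i = 0`: `chs`, `lcd`; `i = 1`: `l * #{null, l ∣ triple} ≤ l * 2 l ^ 6` (`lct`), times `psx ≤ 2`.
* (c): for every `i ≤ s` the number of `x` is at most `C (s + 1) l ^ (7 s)` (`lcs`) and at most `2 l ^ (10 s - 4 i)` (`lct`).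
  If `i ≤ 3 s / 4` (natural division) use the first: `l ^ i * l ^ (7 s) ≤ l ^ (7 s + 3 s / 4)`; if `i > 3 s / 4` use the second:
  `i + 10 s - 4 i = 10 s - 3 i ≤ 7 s + 3 s / 4` (because `3 i ≥ 3 (3 s / 4) + 3` and `4 (3 s / 4) ≥ 3 s - 3`).
  Sum over `i ∈ {0, .., s}`: `(s + 1) * C (s + 1) l ^ (7 s + 3 s / 4)` (`C ≥ 2`).
-/

set_option autoImplicit false

namespace Pool.Agent.PP5C

open Finset Pool.Agent.PPS

private theorem s1g {l s n : ℕ} (hl : l.Prime) (hn : n ∣ l ^ s) :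
    s1 n = ∑ i ∈ range (s + 1), if l ^ i ∣ n then l ^ i else 0 := by
  unfold s1
  have h0 : l ^ s ≠ 0 := pow_ne_zero _ hl.ne_zero
  rw [← Nat.divisors_filter_dvd_of_dvd h0 hn, Finset.sum_filter, Nat.divisors_prime_pow hl s,
    Finset.sum_map]
  rfl

private theorem dvg {l s i : ℕ} (hi : i ≤ s) (j : Fin 10) (x : Fin 10 → ℤ) :
    l ^ i ∣ gx (l ^ s) j x ↔ ∀ k, ((l ^ i : ℕ) : ℤ) ∣ x (tr j k) := by
  unfold gx
  rw [Nat.dvd_gcd_iff, Nat.dvd_gcd_iff, Nat.dvd_gcd_iff]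
  constructor
  · rintro ⟨-, h0, h1, h2⟩ k
    fin_cases k
    · exact Int.natCast_dvd.2 h0
    · exact Int.natCast_dvd.2 h1
    · exact Int.natCast_dvd.2 h2
  · intro h
    exact ⟨pow_dvd_pow l hi, Int.natCast_dvd.1 (h 0), Int.natCast_dvd.1 (h 1),
      Int.natCast_dvd.1 (h 2)⟩

open Classical in
private theorem exs {l s : ℕ} (hl : l.Prime) (j : Fin 10) (S : Finset (Fin 10 → ℤ))
    (w : (Fin 10 → ℤ) → ℝ) :
    ∑ x ∈ S, w x * (s1 (gx (l ^ s) j x) : ℝ) =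
      ∑ i ∈ range (s + 1), (l : ℝ) ^ i *
        ∑ x ∈ S.filter (fun x => ∀ k, ((l ^ i : ℕ) : ℤ) ∣ x (tr j k)), w x := by
  have h1 : ∀ x ∈ S, w x * (s1 (gx (l ^ s) j x) : ℝ) = ∑ i ∈ range (s + 1),
      if (∀ k, ((l ^ i : ℕ) : ℤ) ∣ x (tr j k)) then (l : ℝ) ^ i * w x else 0 := by
    intro x _
    have h2 : gx (l ^ s) j x ∣ l ^ s := Nat.gcd_dvd_left _ _
    rw [s1g hl h2, Nat.cast_sum, Finset.mul_sum]
    refine Finset.sum_congr rfl fun i hi => ?_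
    have hi' : i ≤ s := Nat.lt_succ_iff.1 (Finset.mem_range.1 hi)
    by_cases h : l ^ i ∣ gx (l ^ s) j x
    · rw [if_pos h, if_pos ((dvg hi' j x).1 h), Nat.cast_pow]
      ring
    · rw [if_neg h, if_neg (fun h' => h ((dvg hi' j x).2 h')), Nat.cast_zero]
      ring
  rw [Finset.sum_congr rfl h1, Finset.sum_comm]
  refine Finset.sum_congr rfl fun i _ => ?_
  rw [Finset.mul_sum, Finset.sum_filter]

open Classical in
private theorem ctt {l s i : ℕ} (hl : l.Prime) (hi : i ≤ s) (j : Fin 10)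
    (P : (Fin 10 → ℤ) → Prop) (hP : ∀ x, P x → ((l ^ s : ℕ) : ℤ) ∣ FX x) :
    ((((cub (Fin 10) (l ^ s)).filter P).filter
      (fun x => ∀ k, ((l ^ i : ℕ) : ℤ) ∣ x (tr j k))).card : ℝ) ≤
        2 * (l : ℝ) ^ (10 * s - 4 * i) := by
  have h := lct hl hi j
  have h2 : (((cub (Fin 10) (l ^ s)).filter P).filter
      (fun x => ∀ k, ((l ^ i : ℕ) : ℤ) ∣ x (tr j k))).card ≤ 2 * l ^ (10 * s - 4 * i) := by
    refine le_trans (Finset.card_le_card ?_) h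
    intro x hx
    simp only [Finset.mem_filter] at hx ⊢
    exact ⟨hx.1.1, hP x hx.1.2, hx.2⟩
  exact_mod_cast h2

private theorem psx_nn (x : Fin 10 → ℤ) (l : ℕ) : 0 ≤ psx x l := by
  unfold psx
  split_ifs <;> norm_num

private theorem psx_le (x : Fin 10 → ℤ) (l : ℕ) : psx x l ≤ 2 := by
  unfold psx
  split_ifs <;> norm_num

open Classical in
theorem lcx : ∃ C : ℝ, 1 ≤ C ∧ (∀ (l : ℕ) (j : Fin 10), l.Prime →
    ∑ x ∈ (cub (Fin 10) l).filter (fun x => (l : ℤ) ∣ FX x),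
      (if (l : ℤ) ∣ 2 * DX x then 0 else psx x l) * (s1 (gx l j x) : ℝ) ≤
        (l : ℝ) ^ 9 + C * (l : ℝ) ^ 8) ∧
    (∀ (l : ℕ) (j : Fin 10), l.Prime →
      ∑ x ∈ (cub (Fin 10) l).filter (fun x => (l : ℤ) ∣ FX x ∧ (l : ℤ) ∣ 2 * DX x),
        (s1 (gx l j x) : ℝ) ≤ C * (l : ℝ) ^ 8) ∧
    (∀ (l s : ℕ) (j : Fin 10), l.Prime →
      ∑ x ∈ (cub (Fin 10) (l ^ s)).filter
        (fun x => ((l ^ s : ℕ) : ℤ) ∣ FX x ∧ Pv l x ∧ An (l ^ s) x),
        (s1 (gx (l ^ s) j x) : ℝ) ≤ C * ((s : ℝ) + 1) ^ 2 * (l : ℝ) ^ (7 * s + 3 * s / 4)) := by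
  obtain ⟨Ca, hCa0, hCa⟩ := chs
  obtain ⟨Cb, hCb⟩ := lcd
  obtain ⟨Cc, hCc⟩ := lcs
  refine ⟨Ca + Cb + Cc + 4, ?_, ?_, ?_, ?_⟩
  · have h1 : (0 : ℝ) ≤ Cb := Nat.cast_nonneg _
    have h2 : (0 : ℝ) ≤ Cc := Nat.cast_nonneg _
    linarith
  · intro l j hl
    have hl1 : (1 : ℝ) ≤ l := by exact_mod_cast hl.one_lt.le
    have h1 : (0 : ℝ) ≤ Cb := Nat.cast_nonneg _
    have h2 : (0 : ℝ) ≤ Cc := Nat.cast_nonneg _
    have e := exs (s := 1) hl j ((cub (Fin 10) l).filter (fun x => (l : ℤ) ∣ FX x))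
      (fun x => if (l : ℤ) ∣ 2 * DX x then 0 else psx x l)
    rw [pow_one] at e
    simp only [Finset.sum_range_succ, Finset.sum_range_zero, pow_zero, pow_one, one_mul,
      zero_add] at e
    refine (le_of_eq e).trans ?_
    have hA : ∑ x ∈ ((cub (Fin 10) l).filter (fun x => (l : ℤ) ∣ FX x)).filter
        (fun x => ∀ k, ((1 : ℕ) : ℤ) ∣ x (tr j k)),
          (if (l : ℤ) ∣ 2 * DX x then 0 else psx x l) ≤ (l : ℝ) ^ 9 + Ca * (l : ℝ) ^ 8 := by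
      refine le_trans ?_ (hCa l hl)
      refine Finset.sum_le_sum_of_subset_of_nonneg (Finset.filter_subset _ _) ?_
      intro x _ _
      split_ifs
      · exact le_rfl
      · exact psx_nn x l
    have hB : ∑ x ∈ ((cub (Fin 10) l).filter (fun x => (l : ℤ) ∣ FX x)).filter
        (fun x => ∀ k, (l : ℤ) ∣ x (tr j k)),
          (if (l : ℤ) ∣ 2 * DX x then 0 else psx x l) ≤ 2 * (2 * (l : ℝ) ^ 6) := by
      have hc := ctt (s := 1) (i := 1) hl le_rfl j (fun x => (l : ℤ) ∣ FX x)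
        (fun x hx => by simpa using hx)
      simp only [pow_one] at hc
      have hd : ∑ x ∈ ((cub (Fin 10) l).filter (fun x => (l : ℤ) ∣ FX x)).filter
          (fun x => ∀ k, (l : ℤ) ∣ x (tr j k)),
            (if (l : ℤ) ∣ 2 * DX x then 0 else psx x l) ≤
          ∑ x ∈ ((cub (Fin 10) l).filter (fun x => (l : ℤ) ∣ FX x)).filter
          (fun x => ∀ k, (l : ℤ) ∣ x (tr j k)), (2 : ℝ) := by
        refine Finset.sum_le_sum fun x _ => ?_
        split_ifs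
        · norm_num
        · exact psx_le x l
      refine hd.trans ?_
      rw [Finset.sum_const, nsmul_eq_mul]
      have h7 : (10 * 1 - 4 * 1 : ℕ) = 6 := by norm_num
      rw [h7] at hc
      have hc2 := mul_le_mul_of_nonneg_right hc (by norm_num : (0 : ℝ) ≤ 2)
      refine le_trans (le_of_eq ?_) (hc2.trans (le_of_eq (by ring)))
      congr!
    have hC : (l : ℝ) * (2 * (2 * (l : ℝ) ^ 6)) ≤ 4 * (l : ℝ) ^ 8 := by
      have : (l : ℝ) ^ 7 ≤ (l : ℝ) ^ 8 := pow_le_pow_right₀ hl1 (by norm_num)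
      calc (l : ℝ) * (2 * (2 * (l : ℝ) ^ 6)) = 4 * (l : ℝ) ^ 7 := by ring
        _ ≤ _ := by linarith
    have hD := mul_le_mul_of_nonneg_left hB (by linarith : (0 : ℝ) ≤ l)
    have h8 : (0 : ℝ) ≤ (l : ℝ) ^ 8 := by positivity
    have h9 : 0 ≤ (Cb : ℝ) * (l : ℝ) ^ 8 := mul_nonneg h1 h8
    have h10 : 0 ≤ (Cc : ℝ) * (l : ℝ) ^ 8 := mul_nonneg h2 h8
    calc _ ≤ ((l : ℝ) ^ 9 + Ca * (l : ℝ) ^ 8) + 4 * (l : ℝ) ^ 8 := by
          refine add_le_add hA (hD.trans hC)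
      _ ≤ _ := by nlinarith
  · intro l j hl
    have hl1 : (1 : ℝ) ≤ l := by exact_mod_cast hl.one_lt.le
    have h2 : (0 : ℝ) ≤ Cc := Nat.cast_nonneg _
    have e := exs (s := 1) hl j
      ((cub (Fin 10) l).filter (fun x => (l : ℤ) ∣ FX x ∧ (l : ℤ) ∣ 2 * DX x)) (fun _ => 1)
    rw [pow_one] at e
    simp only [Finset.sum_range_succ, Finset.sum_range_zero, pow_zero, pow_one, one_mul,
      zero_add, Finset.sum_const, nsmul_eq_mul, mul_one] at e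
    refine (le_of_eq e).trans ?_
    have hA : ((((cub (Fin 10) l).filter (fun x => (l : ℤ) ∣ FX x ∧ (l : ℤ) ∣ 2 * DX x)).filter
        (fun x => ∀ k, ((1 : ℕ) : ℤ) ∣ x (tr j k))).card : ℝ) ≤ Cb * (l : ℝ) ^ 8 := by
      have h3 := hCb l hl
      have h4 : (((cub (Fin 10) l).filter (fun x => (l : ℤ) ∣ FX x ∧ (l : ℤ) ∣ 2 * DX x)).filter
        (fun x => ∀ k, ((1 : ℕ) : ℤ) ∣ x (tr j k))).card ≤ Cb * l ^ 8 := by
        refine le_trans (Finset.card_le_card (Finset.filter_subset _ _))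
          (le_trans (le_of_eq ?_) h3)
        unfold nn
        congr!
      exact_mod_cast h4
    have hB : ((((cub (Fin 10) l).filter (fun x => (l : ℤ) ∣ FX x ∧ (l : ℤ) ∣ 2 * DX x)).filter
        (fun x => ∀ k, (l : ℤ) ∣ x (tr j k))).card : ℝ) ≤ 2 * (l : ℝ) ^ 6 := by
      have hc := ctt (s := 1) (i := 1) hl le_rfl j (fun x => (l : ℤ) ∣ FX x ∧ (l : ℤ) ∣ 2 * DX x)
        (fun x hx => by simpa using hx.1)
      simp only [pow_one] at hc
      have h7 : (10 * 1 - 4 * 1 : ℕ) = 6 := by norm_num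
      rw [h7] at hc
      refine le_trans (le_of_eq ?_) hc
      congr!
    have hC : (l : ℝ) * (2 * (l : ℝ) ^ 6) ≤ 2 * (l : ℝ) ^ 8 := by
      have : (l : ℝ) ^ 7 ≤ (l : ℝ) ^ 8 := pow_le_pow_right₀ hl1 (by norm_num)
      calc (l : ℝ) * (2 * (l : ℝ) ^ 6) = 2 * (l : ℝ) ^ 7 := by ring
        _ ≤ _ := by linarith
    have hD := mul_le_mul_of_nonneg_left hB (by linarith : (0 : ℝ) ≤ l)
    have h8 : (0 : ℝ) ≤ (l : ℝ) ^ 8 := by positivity
    have h9 : 0 ≤ Ca * (l : ℝ) ^ 8 := mul_nonneg hCa0.le h8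
    have h10 : 0 ≤ (Cc : ℝ) * (l : ℝ) ^ 8 := mul_nonneg h2 h8
    calc _ ≤ Cb * (l : ℝ) ^ 8 + 2 * (l : ℝ) ^ 8 := add_le_add hA (hD.trans hC)
      _ ≤ _ := by nlinarith
  · intro l s j hl
    have hl1 : (1 : ℝ) ≤ l := by exact_mod_cast hl.one_lt.le
    have h1 : (0 : ℝ) ≤ Cb := Nat.cast_nonneg _
    have h2 : (0 : ℝ) ≤ Cc := Nat.cast_nonneg _
    have e := exs (s := s) hl j ((cub (Fin 10) (l ^ s)).filter
        (fun x => ((l ^ s : ℕ) : ℤ) ∣ FX x ∧ Pv l x ∧ An (l ^ s) x)) (fun _ => 1)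
    simp only [one_mul, Finset.sum_const, nsmul_eq_mul, mul_one] at e
    refine (le_of_eq e).trans ?_
    have hs0 : (0 : ℝ) ≤ s := Nat.cast_nonneg _
    have hT : ∀ i ∈ range (s + 1), (l : ℝ) ^ i *
        ((((cub (Fin 10) (l ^ s)).filter
        (fun x => ((l ^ s : ℕ) : ℤ) ∣ FX x ∧ Pv l x ∧ An (l ^ s) x)).filter
          (fun x => ∀ k, ((l ^ i : ℕ) : ℤ) ∣ x (tr j k))).card : ℝ) ≤
        (Ca + Cb + Cc + 4) * ((s : ℝ) + 1) * (l : ℝ) ^ (7 * s + 3 * s / 4) := by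
      intro i hi
      have hi' : i ≤ s := Nat.lt_succ_iff.1 (Finset.mem_range.1 hi)
      have hX : (0 : ℝ) ≤ (l : ℝ) ^ (7 * s + 3 * s / 4) := by positivity
      by_cases hc : i ≤ 3 * s / 4
      · have hA : ((((cub (Fin 10) (l ^ s)).filter
            (fun x => ((l ^ s : ℕ) : ℤ) ∣ FX x ∧ Pv l x ∧ An (l ^ s) x)).filter
            (fun x => ∀ k, ((l ^ i : ℕ) : ℤ) ∣ x (tr j k))).card : ℝ) ≤
              Cc * ((s : ℝ) + 1) * (l : ℝ) ^ (7 * s) := by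
          have h3 := hCc l hl s
          have h4 : (((cub (Fin 10) (l ^ s)).filter
            (fun x => ((l ^ s : ℕ) : ℤ) ∣ FX x ∧ Pv l x ∧ An (l ^ s) x)).filter
            (fun x => ∀ k, ((l ^ i : ℕ) : ℤ) ∣ x (tr j k))).card ≤ Cc * (s + 1) * l ^ (7 * s) := by
            refine le_trans (Finset.card_le_card ?_) h3
            intro x hx
            simp only [Finset.mem_filter] at hx ⊢
            exact ⟨hx.1.1, hx.1.2.2⟩
          exact_mod_cast h4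
        have hB : (l : ℝ) ^ i * (l : ℝ) ^ (7 * s) ≤ (l : ℝ) ^ (7 * s + 3 * s / 4) := by
          rw [← pow_add]
          exact pow_le_pow_right₀ hl1 (by omega)
        have hli : (0 : ℝ) ≤ (l : ℝ) ^ i := by positivity
        calc _ ≤ (l : ℝ) ^ i * (Cc * ((s : ℝ) + 1) * (l : ℝ) ^ (7 * s)) :=
              mul_le_mul_of_nonneg_left hA hli
          _ = (Cc * ((s : ℝ) + 1)) * ((l : ℝ) ^ i * (l : ℝ) ^ (7 * s)) := by ring
          _ ≤ (Cc * ((s : ℝ) + 1)) * (l : ℝ) ^ (7 * s + 3 * s / 4) :=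
              mul_le_mul_of_nonneg_left hB (by positivity)
          _ ≤ (Ca + Cb + Cc + 4) * ((s : ℝ) + 1) * (l : ℝ) ^ (7 * s + 3 * s / 4) := by
              refine mul_le_mul_of_nonneg_right ?_ hX
              refine mul_le_mul_of_nonneg_right ?_ (by positivity)
              linarith
      · have hA : ((((cub (Fin 10) (l ^ s)).filter
            (fun x => ((l ^ s : ℕ) : ℤ) ∣ FX x ∧ Pv l x ∧ An (l ^ s) x)).filter
            (fun x => ∀ k, ((l ^ i : ℕ) : ℤ) ∣ x (tr j k))).card : ℝ) ≤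
              2 * (l : ℝ) ^ (10 * s - 4 * i) := by
          have hA0 := ctt (s := s) (i := i) hl hi' j
            (fun x => ((l ^ s : ℕ) : ℤ) ∣ FX x ∧ Pv l x ∧ An (l ^ s) x) (fun x hx => hx.1)
          refine le_trans (le_of_eq ?_) hA0
          congr!
        have hB : (l : ℝ) ^ i * (l : ℝ) ^ (10 * s - 4 * i) ≤ (l : ℝ) ^ (7 * s + 3 * s / 4) := by
          rw [← pow_add]
          exact pow_le_pow_right₀ hl1 (by omega)
        have hli : (0 : ℝ) ≤ (l : ℝ) ^ i := by positivity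
        calc _ ≤ (l : ℝ) ^ i * (2 * (l : ℝ) ^ (10 * s - 4 * i)) :=
              mul_le_mul_of_nonneg_left hA hli
          _ = 2 * ((l : ℝ) ^ i * (l : ℝ) ^ (10 * s - 4 * i)) := by ring
          _ ≤ 2 * (l : ℝ) ^ (7 * s + 3 * s / 4) :=
              mul_le_mul_of_nonneg_left hB (by norm_num)
          _ ≤ (Ca + Cb + Cc + 4) * ((s : ℝ) + 1) * (l : ℝ) ^ (7 * s + 3 * s / 4) := by
              refine mul_le_mul_of_nonneg_right ?_ hX
              have h5 : (4 : ℝ) ≤ Ca + Cb + Cc + 4 := by linarith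
              nlinarith
    refine (Finset.sum_le_sum hT).trans ?_
    rw [Finset.sum_const, Finset.card_range, nsmul_eq_mul]
    push_cast
    refine le_of_eq ?_
    ring

end Pool.Agent.PP5C
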