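import Pool.Agent.PP5C.RnJ

/-!
# Lev: the sum over all prefixes is bounded (difficulty 2)

COPY of the private theorem `level` of `Pool/Agent/PPS/Fin.lean` (there `gg a ^ 2`, and `3 ^ ..`), with
`rnj j` instead of `rnk`, for `2 ^ (κ 2 ^ i)`; it gives
`2 ^ (κ * 2 ^ i) * (1 / log (ww z i)) * ∑ a ∈ AA z i, gg a ^ j / a ≤ D * (1 / 2) ^ i`; sum over `i`
(`∑ i ∈ range N, (1/2) ^ i ≤ 2`).
-/

set_option autoImplicit false

namespace Pool.Agent.PP5C

open Finset Pool.Agent.PPS

private theorem lev_log_ww (z : ℝ) (i : ℕ) : Real.log (ww z i) = Real.log z / 2 ^ (i + 1) := by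
  unfold ww
  rw [Real.log_exp]

private theorem lev_mem_AA {z : ℝ} {i a : ℕ} (hz : 1 ≤ z) (h : a ∈ AA z i) :
    1 ≤ a ∧ (a : ℝ) ≤ z ∧ Squarefree a := by
  have hz0 : 0 ≤ z := by linarith
  cases i with
  | zero =>
    unfold AA at h
    rw [mem_filter, mem_Icc] at h
    exact ⟨h.1.1, (Nat.le_floor_iff hz0).1 h.1.2, h.2⟩
  | succ k =>
    unfold AA at h
    rw [mem_filter, mem_Icc] at h
    exact ⟨h.1.1, (Nat.le_floor_iff hz0).1 h.1.2, h.2.1⟩

/-- the sum over the prefixes of one level -/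
private theorem lev_level (κ : ℝ) (hκ : 0 ≤ κ) (j : ℕ) : ∃ D : ℝ, 0 < D ∧ ∀ z : ℝ, 2 ≤ z →
    ∀ i : ℕ, (2 : ℝ) ^ (κ * 2 ^ i) * (1 / Real.log (ww z i)) *
      ∑ a ∈ AA z i, gg a ^ j / (a : ℝ) ≤ D * (1 / 2) ^ i := by
  obtain ⟨C3, hC3, hr0⟩ := rnj j 0 le_rfl
  obtain ⟨C4, hC4, hrA⟩ := rnj j (2 + 2 * κ * Real.log 2)
    (by have : 0 < Real.log 2 := Real.log_pos (by norm_num); positivity)
  refine ⟨2 * 2 ^ κ * C3 + 2 * C4, by positivity, ?_⟩
  intro z hz i
  have hlz : 0 < Real.log z := Real.log_pos (by linarith)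
  cases i with
  | zero =>
    have h1 := hr0 z (1 / 2) (AA z 0) hz (by norm_num) (by
      intro a ha
      obtain ⟨h1, h2, h3⟩ := lev_mem_AA (by linarith) ha
      refine ⟨h3, ?_, ?_⟩
      · have : (1 : ℝ) ≤ a := by exact_mod_cast h1
        linarith
      · intro l hl
        have hle : l ≤ a := Nat.le_of_mem_primeFactors hl
        have : (l : ℝ) ≤ a := by exact_mod_cast hle
        linarith)
    rw [zero_mul, zero_div, neg_zero, Real.exp_zero, mul_one] at h1
    rw [lev_log_ww]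
    simp only [pow_zero, mul_one, zero_add, pow_one]
    have h3k : (0 : ℝ) < 2 ^ κ := by positivity
    calc (2 : ℝ) ^ κ * (1 / (Real.log z / 2)) * ∑ a ∈ AA z 0, gg a ^ j / (a : ℝ)
        ≤ 2 ^ κ * (1 / (Real.log z / 2)) * (C3 * Real.log z) :=
          mul_le_mul_of_nonneg_left h1 (by positivity)
      _ = 2 * 2 ^ κ * C3 := by field_simp
      _ ≤ _ := by linarith
  | succ k =>
    have hw0 : 0 < Real.log (ww z (k + 1)) := by rw [lev_log_ww]; positivity
    by_cases hk : 2 ≤ ww z k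
    · have hsq : 0 < Real.sqrt z := Real.sqrt_pos.2 (by linarith)
      have h1 := hrA (ww z k) (Real.sqrt z) (AA z (k + 1)) hk hsq (by
        intro a ha
        unfold AA at ha
        rw [mem_filter] at ha
        exact ha.2)
      have hlk : 0 < Real.log z / 2 ^ (k + 1) := by positivity
      have hexp : -((2 + 2 * κ * Real.log 2) * Real.log (Real.sqrt z) / Real.log (ww z k)) =
          -(2 ^ (k + 1)) - Real.log 2 * (κ * 2 ^ (k + 1)) := by
        rw [lev_log_ww, Real.log_sqrt (by linarith)]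
        field_simp
        ring
      rw [hexp, lev_log_ww] at h1
      have h3 : (2 : ℝ) ^ (κ * 2 ^ (k + 1)) = Real.exp (Real.log 2 * (κ * 2 ^ (k + 1))) := by
        rw [Real.rpow_def_of_pos (by norm_num)]
      have h4 : Real.exp (-(2 ^ (k + 1)) - Real.log 2 * (κ * 2 ^ (k + 1))) *
          (2 : ℝ) ^ (κ * 2 ^ (k + 1)) = Real.exp (-(2 ^ (k + 1))) := by
        rw [h3, ← Real.exp_add]
        congr 1
        ring
      have h5 : Real.exp (-(2 ^ (k + 1) : ℝ)) ≤ (1 / 2) ^ (k + 1) := by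
        rw [Real.exp_neg, one_div, inv_pow]
        apply inv_anti₀ (by positivity)
        have := Real.add_one_le_exp ((2 : ℝ) ^ (k + 1))
        linarith
      have hpos : (0 : ℝ) < 2 ^ (κ * 2 ^ (k + 1)) := by positivity
      calc (2 : ℝ) ^ (κ * 2 ^ (k + 1)) * (1 / Real.log (ww z (k + 1))) *
            ∑ a ∈ AA z (k + 1), gg a ^ j / (a : ℝ)
          ≤ 2 ^ (κ * 2 ^ (k + 1)) * (1 / Real.log (ww z (k + 1))) *
            (C4 * Real.exp (-(2 ^ (k + 1)) - Real.log 2 * (κ * 2 ^ (k + 1))) *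
              (Real.log z / 2 ^ (k + 1))) := mul_le_mul_of_nonneg_left h1 (by positivity)
        _ = 2 * C4 * (Real.exp (-(2 ^ (k + 1)) - Real.log 2 * (κ * 2 ^ (k + 1))) *
            2 ^ (κ * 2 ^ (k + 1))) := by
            rw [lev_log_ww]
            field_simp
            ring
        _ = 2 * C4 * Real.exp (-(2 ^ (k + 1))) := by rw [h4]
        _ ≤ 2 * C4 * (1 / 2) ^ (k + 1) := mul_le_mul_of_nonneg_left h5 (by positivity)
        _ ≤ _ := by
            apply mul_le_mul_of_nonneg_right _ (by positivity)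
            have : (0 : ℝ) < 2 * 2 ^ κ * C3 := by positivity
            linarith
    · have hemp : AA z (k + 1) = ∅ := by
        rw [Finset.eq_empty_iff_forall_notMem]
        intro a ha
        unfold AA at ha
        rw [mem_filter] at ha
        obtain ⟨h1, h2, h3, h4⟩ := ha
        have hs1 : 1 ≤ Real.sqrt z := by
          rw [Real.one_le_sqrt]; linarith
        have ha1 : a ≠ 1 := by
          rintro rfl
          simp only [Nat.cast_one] at h3
          linarith
        obtain ⟨q, hq, hqa⟩ := Nat.exists_prime_and_dvd ha1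
        have ha0 : a ≠ 0 := by
          have := (mem_Icc.1 h1).1
          omega
        have h5 := h4 q (Nat.mem_primeFactors.2 ⟨hq, hqa, ha0⟩)
        have h6 : (2 : ℝ) ≤ q := by exact_mod_cast hq.two_le
        exact hk (h6.trans h5)
      rw [hemp, sum_empty, mul_zero]
      positivity

private theorem lev_sum_geom_half (N : ℕ) : ∑ i ∈ range N, ((1 : ℝ) / 2) ^ i ≤ 2 := by
  have h := Summable.sum_le_tsum (range N) (fun i _ => by positivity) summable_geometric_two
  rwa [tsum_geometric_two] at h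

theorem lev (κ : ℝ) (hκ : 0 ≤ κ) (j : ℕ) : ∃ C : ℝ, 0 < C ∧ ∀ z : ℝ, 2 ≤ z → ∀ N : ℕ,
    ∑ i ∈ range N, ((2 : ℝ) ^ (κ * 2 ^ i) / Real.log (ww z i)) *
      ∑ a ∈ AA z i, gg a ^ j / (a : ℝ) ≤ C := by
  obtain ⟨D, hD, hlev⟩ := lev_level κ hκ j
  refine ⟨D * 2, by positivity, ?_⟩
  intro z hz N
  calc ∑ i ∈ range N, ((2 : ℝ) ^ (κ * 2 ^ i) / Real.log (ww z i)) *
        ∑ a ∈ AA z i, gg a ^ j / (a : ℝ)
      ≤ ∑ i ∈ range N, D * (1 / 2) ^ i := by
        refine sum_le_sum (fun i _ => ?_)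
        have := hlev z hz i
        rwa [mul_one_div] at this
    _ = D * ∑ i ∈ range N, ((1 : ℝ) / 2) ^ i := by rw [mul_sum]
    _ ≤ D * 2 := mul_le_mul_of_nonneg_left (lev_sum_geom_half N) hD.le

end Pool.Agent.PP5C
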