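import Pool.Agent.PP5C.Cor
import Pool.Agent.PP5C.ClB
import Pool.Agent.PP5C.EuB
import Pool.Agent.PP5C.PtB

/-!
# MnB: the sum over `m` with small bad part (difficulty 4)

`z = T ^ c2`.  By `ptb`, for `m ∈ S`, with `b = bm z D |qf c m|` (so `1 ≤ b ≤ T ^ (δ/2)`, `BB z D b`, `b ∣ qf c m`):
`∏ om ≤ 2 ^ (A/c2) wb D b ∏_{Ps z (b D)} ps`.  Therefore (all terms `≥ 0`)
`∑_{m ∈ S} ∏ om ≤ 2 ^ (A/c2) ∑_{b ∈ Icc 1 B, BB z D b} wb D b ∑_{ρ ∈ cub b, b ∣ qf c ρ, ∀ l ∣ b, Pv l ρ}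
  ∑_{m ∈ S, Cg b m ρ} ∏_{Ps z (b D)} ps`, `B = ⌊T ^ (δ/2)⌋₊` (`ρ = m % b`; `Pm m` gives `Pv l ρ` for `l ∣ b`).
`cor` for every `(b, ρ)`; the number of `ρ` is at most `b ^ 4 ∏ pk` (`clb`): the inner double sum is at most
`C gg (b D) H ^ 4 Sg ∏ pk`, `gg (b D) ≤ gg b gg D`; then `euB`.
-/

set_option autoImplicit false

namespace Pool.Agent.PP5C

open Finset Pool.Agent.PPS

private theorem MnB_qf_cg (c : Matrix (Fin 4) (Fin 4) ℤ) (b : ℕ) (m ρ : Fin 4 → ℤ)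
    (h : Cg b m ρ) : (b : ℤ) ∣ qf c m - qf c ρ := by
  unfold qf
  rw [← Finset.sum_sub_distrib]
  refine Finset.dvd_sum fun i _ => ?_
  rw [← Finset.sum_sub_distrib]
  refine Finset.dvd_sum fun j _ => ?_
  have h0 : c i j * m i * m j - c i j * ρ i * ρ j =
      c i j * m i * (m j - ρ j) + c i j * ρ j * (m i - ρ i) := by ring
  rw [h0]
  exact dvd_add (Dvd.dvd.mul_left (h j) _) (Dvd.dvd.mul_left (h i) _)

private def MnB_r (b : ℕ) (m : Fin 4 → ℤ) : Fin 4 → ℤ := fun i => m i % (b : ℤ)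

private theorem MnB_cg (b : ℕ) (m : Fin 4 → ℤ) : Cg b m (MnB_r b m) := by
  intro i
  refine ⟨m i / (b : ℤ), ?_⟩
  have h := Int.emod_add_mul_ediv (m i) (b : ℤ)
  unfold MnB_r
  linarith

private theorem MnB_mem (b : ℕ) (hb : b ≠ 0) (m : Fin 4 → ℤ) : MnB_r b m ∈ cub (Fin 4) b := by
  unfold cub
  rw [Fintype.mem_piFinset]
  intro i
  rw [Finset.mem_Ico]
  have hb' : (0 : ℤ) < (b : ℤ) := by exact_mod_cast Nat.pos_of_ne_zero hb
  exact ⟨Int.emod_nonneg _ hb'.ne', Int.emod_lt_of_pos _ hb'⟩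

open Classical in
private theorem MnB_card (b : ℕ) (P : (Fin 4 → ℤ) → Prop) (S : Finset (Fin 4 → ℤ))
    (F : (Fin 4 → ℤ) → ℝ) (M : ℝ) (r : (Fin 4 → ℤ) → (Fin 4 → ℤ))
    (hr : ∀ m ∈ S, r m ∈ cub (Fin 4) b ∧ P (r m))
    (hM : ∀ ρ : Fin 4 → ℤ, ∑ m ∈ S.filter (fun m => r m = ρ), F m ≤ M) :
    ∑ m ∈ S, F m ≤ (nn (Fin 4) b P : ℝ) * M := by
  unfold nn
  rw [← Finset.sum_fiberwise_of_maps_to (t := (cub (Fin 4) b).filter P) (g := r)
    (fun m hm => by rw [Finset.mem_filter]; exact hr m hm)]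
  calc ∑ ρ ∈ (cub (Fin 4) b).filter P, ∑ m ∈ S.filter (fun m => r m = ρ), F m
      ≤ ∑ ρ ∈ (cub (Fin 4) b).filter P, M := Finset.sum_le_sum fun ρ _ => hM ρ
    _ = (((cub (Fin 4) b).filter P).card : ℝ) * M := by rw [Finset.sum_const, nsmul_eq_mul]

private theorem MnB_fib (c : Matrix (Fin 4) (Fin 4) ℤ) (b : ℕ) (hb : b ≠ 0)
    (S : Finset (Fin 4 → ℤ)) (F : (Fin 4 → ℤ) → ℝ) (M : ℝ)
    (hS : ∀ m ∈ S, Pm m ∧ (b : ℤ) ∣ qf c m)
    (hM : ∀ ρ : Fin 4 → ℤ, ∀ S' : Finset (Fin 4 → ℤ), (∀ m ∈ S', m ∈ S ∧ Cg b m ρ) →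
      ∑ m ∈ S', F m ≤ M) :
    ∑ m ∈ S, F m ≤
      (nn (Fin 4) b (fun m => (b : ℤ) ∣ qf c m ∧ ∀ l ∈ b.primeFactors, Pv l m) : ℝ) * M := by
  classical
  refine MnB_card b _ S F M (MnB_r b) ?_ ?_
  · intro m hm
    refine ⟨MnB_mem b hb m, ?_, ?_⟩
    · have h1 := MnB_qf_cg c b m (MnB_r b m) (MnB_cg b m)
      have h2 := dvd_sub (hS m hm).2 h1
      simpa using h2
    · intro l hl
      obtain ⟨i, hi⟩ := (hS m hm).1 l (Nat.prime_of_mem_primeFactors hl)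
      refine ⟨i, fun h => hi ?_⟩
      have h2 := MnB_cg b m i
      have h3 : (l : ℤ) ∣ m i - MnB_r b m i :=
        (Int.natCast_dvd_natCast.2 (Nat.dvd_of_mem_primeFactors hl)).trans h2
      have h4 := dvd_add h3 h
      simpa using h4
  · intro ρ
    refine hM ρ _ ?_
    intro m hm
    rw [Finset.mem_filter] at hm
    refine ⟨hm.1, ?_⟩
    rw [← hm.2]
    exact MnB_cg b m

private theorem MnB_wb (D b : ℕ) : 0 ≤ wb D b := by
  unfold wb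
  refine Finset.prod_nonneg fun l _ => ?_
  unfold wk
  split_ifs <;> positivity

theorem mnb (δ A η : ℝ) (hδ : 0 < δ) (hA : 0 < A) (hη : 0 < η) :
    ∃ c2 C C1 T0 κ : ℝ, 0 < c2 ∧ c2 ≤ η ∧ 0 < C ∧ 1 ≤ C1 ∧ 2 ≤ T0 ∧ 0 ≤ κ ∧ ∀ T : ℝ, T0 ≤ T →
    4 ≤ T ^ c2 ∧ ∀ (c : Matrix (Fin 4) (Fin 4) ℤ) (D : ℕ) (v : ℕ → ℕ), Frm c D v →
    ∀ (A0 : Fin 4 → ℤ) (H : ℕ), T ^ δ ≤ (H : ℝ) →
    ∀ ps : ℕ → ℝ, (∀ l, 0 ≤ ps l ∧ ps l ≤ 2) → ∀ c3 : ℝ, c3 ≤ c2 →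
    ∀ (om : (Fin 4 → ℤ) → ℕ → ℝ) (ix : (Fin 4 → ℤ) → ℕ → ℕ) (S : Finset (Fin 4 → ℤ)),
    (∀ m ∈ S, m ∈ bx A0 (fun _ => H) ∧ Pm m ∧ qf c m ≠ 0 ∧ ((qf c m).natAbs : ℝ) ≤ T ^ A ∧
      Wgt D (qf c m).natAbs ps (om m) (ix m) ∧ (sx D (qf c m).natAbs (ix m) : ℝ) ≤ T ^ c3 ∧
      (bm (T ^ c2) D (qf c m).natAbs : ℝ) ≤ T ^ (δ / 2)) →
    ∑ m ∈ S, ∏ l ∈ (qf c m).natAbs.primeFactors, om m l ≤
      C * (H : ℝ) ^ 4 * (gg D * HH C1 (T ^ c2) D v * Sg (T ^ c2) κ ps D) := by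
  classical
  obtain ⟨c2, C, T0, κ, hc2, hc2η, hC, hT0, hκ, hcor⟩ := cor δ A η hδ hA hη
  obtain ⟨C1, CE, hC1, hCE, heu⟩ := euB
  refine ⟨c2, (2 : ℝ) ^ (A / c2) * C * CE, C1, T0, κ, hc2, hc2η, by positivity, hC1, hT0, hκ, ?_⟩
  intro T hT
  obtain ⟨h4, hco⟩ := hcor T hT
  refine ⟨h4, ?_⟩
  intro c D v hF A0 H hH ps hps c3 hc3 om ix S hS
  have hT1 : 1 < T := by linarith
  have hHpos : (0 : ℝ) < (H : ℝ) := lt_of_lt_of_le (Real.rpow_pos_of_pos (by linarith) _) hH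
  have hgD : 0 < gg D := lt_of_lt_of_le one_pos (gg_one_le D)
  -- the sum over the prefixes is nonnegative
  have hSg : 0 ≤ Sg (T ^ c2) κ ps D := by
    have h0 := hco c D v hF 1 le_rfl (by
      rw [Nat.cast_one]
      exact Real.one_le_rpow hT1.le (by positivity)) 0 A0 H hH ps hps ∅ (by
      intro m hm
      exact absurd hm (Finset.notMem_empty m))
    rw [Finset.sum_empty] at h0
    by_contra hneg
    rw [not_le] at hneg
    have h1 : 0 < C * gg (1 * D) * ((H : ℝ) / (1 : ℕ)) ^ 4 := by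
      have h2 : 0 < gg (1 * D) := lt_of_lt_of_le one_pos (gg_one_le _)
      rw [Nat.cast_one, div_one]
      positivity
    have h3 := mul_neg_of_pos_of_neg h1 hneg
    linarith
  have hpt : ∀ m ∈ S, BB (T ^ c2) D (bm (T ^ c2) D (qf c m).natAbs) ∧
      bm (T ^ c2) D (qf c m).natAbs ∣ (qf c m).natAbs ∧ bm (T ^ c2) D (qf c m).natAbs ≠ 0 ∧
      ∏ l ∈ (qf c m).natAbs.primeFactors, om m l ≤ (2 : ℝ) ^ (A / c2) *
        wb D (bm (T ^ c2) D (qf c m).natAbs) *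
        ∏ l ∈ Ps (T ^ c2) (bm (T ^ c2) D (qf c m).natAbs * D) (qf c m).natAbs, ps l := by
    intro m hm
    obtain ⟨_, _, hq, hqA, hW, hs, _⟩ := hS m hm
    exact ptb (c3 := c3) hT1 hc2 hc3 hA.le (Int.natAbs_ne_zero.2 hq) hqA hps hW hs
  have hmaps : ∀ m ∈ S, bm (T ^ c2) D (qf c m).natAbs ∈
      (Icc 1 ⌊T ^ (δ / 2)⌋₊).filter (fun b => BB (T ^ c2) D b) := by
    intro m hm
    obtain ⟨h1, _, h3, _⟩ := hpt m hm
    rw [Finset.mem_filter, Finset.mem_Icc]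
    exact ⟨⟨Nat.one_le_iff_ne_zero.2 h3, Nat.le_floor (hS m hm).2.2.2.2.2.2⟩, h1⟩
  calc ∑ m ∈ S, ∏ l ∈ (qf c m).natAbs.primeFactors, om m l
      ≤ ∑ m ∈ S, (2 : ℝ) ^ (A / c2) * wb D (bm (T ^ c2) D (qf c m).natAbs) *
        ∏ l ∈ Ps (T ^ c2) (bm (T ^ c2) D (qf c m).natAbs * D) (qf c m).natAbs, ps l :=
        Finset.sum_le_sum fun m hm => (hpt m hm).2.2.2
    _ = ∑ b ∈ (Icc 1 ⌊T ^ (δ / 2)⌋₊).filter (fun b => BB (T ^ c2) D b),
        ∑ m ∈ S.filter (fun m => bm (T ^ c2) D (qf c m).natAbs = b),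
        (2 : ℝ) ^ (A / c2) * wb D (bm (T ^ c2) D (qf c m).natAbs) *
        ∏ l ∈ Ps (T ^ c2) (bm (T ^ c2) D (qf c m).natAbs * D) (qf c m).natAbs, ps l :=
        (Finset.sum_fiberwise_of_maps_to hmaps _).symm
    _ ≤ ∑ b ∈ (Icc 1 ⌊T ^ (δ / 2)⌋₊).filter (fun b => BB (T ^ c2) D b),
        ((2 : ℝ) ^ (A / c2) * C * (H : ℝ) ^ 4 * (gg D * Sg (T ^ c2) κ ps D)) *
        (wb D b * gg b * ∏ l ∈ b.primeFactors, pk D v l (b.factorization l)) := by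
        refine Finset.sum_le_sum fun b hb => ?_
        rw [Finset.mem_filter, Finset.mem_Icc] at hb
        obtain ⟨⟨hb1, hbB⟩, hBB⟩ := hb
        have hb0 : b ≠ 0 := Nat.one_le_iff_ne_zero.1 hb1
        have hbpos : (0 : ℝ) < (b : ℝ) := by exact_mod_cast hb1
        have hbT : (b : ℝ) ≤ T ^ (δ / 2) :=
          (Nat.le_floor_iff (Real.rpow_nonneg (by linarith) _)).1 hbB
        have hN := clb hF (T ^ c2) hb0 hBB
        have hgb : 0 < gg b := lt_of_lt_of_le one_pos (gg_one_le b)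
        have hgbD : 0 < gg (b * D) := lt_of_lt_of_le one_pos (gg_one_le _)
        have hbnd : ∑ m ∈ S.filter (fun m => bm (T ^ c2) D (qf c m).natAbs = b),
            ∏ l ∈ Ps (T ^ c2) (b * D) (qf c m).natAbs, ps l ≤
            (nn (Fin 4) b (fun m => (b : ℤ) ∣ qf c m ∧ ∀ l ∈ b.primeFactors, Pv l m) : ℝ) *
            (C * gg (b * D) * ((H : ℝ) / b) ^ 4 * Sg (T ^ c2) κ ps D) := by
          refine MnB_fib c b hb0 _ _ _ ?_ ?_
          · intro m hm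
            rw [Finset.mem_filter] at hm
            refine ⟨(hS m hm.1).2.1, ?_⟩
            have h1 := (hpt m hm.1).2.1
            rw [hm.2] at h1
            exact Int.natCast_dvd.2 h1
          · intro ρ S' hS'
            refine hco c D v hF b hb1 hbT ρ A0 H hH ps hps S' ?_
            intro m hm
            obtain ⟨h1, h2⟩ := hS' m hm
            rw [Finset.mem_filter] at h1
            obtain ⟨h3, h4, h5, h6, _⟩ := hS m h1.1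
            exact ⟨h3, h2, h5, h6⟩
        have hE : ∑ m ∈ S.filter (fun m => bm (T ^ c2) D (qf c m).natAbs = b),
            (2 : ℝ) ^ (A / c2) * wb D (bm (T ^ c2) D (qf c m).natAbs) *
            ∏ l ∈ Ps (T ^ c2) (bm (T ^ c2) D (qf c m).natAbs * D) (qf c m).natAbs, ps l =
            (2 : ℝ) ^ (A / c2) * wb D b *
            ∑ m ∈ S.filter (fun m => bm (T ^ c2) D (qf c m).natAbs = b),
            ∏ l ∈ Ps (T ^ c2) (b * D) (qf c m).natAbs, ps l := by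
          rw [Finset.mul_sum]
          refine Finset.sum_congr rfl fun m hm => ?_
          rw [Finset.mem_filter] at hm
          rw [hm.2]
        rw [hE]
        have hw := MnB_wb D b
        have h2p : (0 : ℝ) < (2 : ℝ) ^ (A / c2) := Real.rpow_pos_of_pos two_pos _
        have hX : 0 ≤ C * gg (b * D) * ((H : ℝ) / b) ^ 4 * Sg (T ^ c2) κ ps D := by positivity
        have hN0 : (0 : ℝ) ≤
          (nn (Fin 4) b (fun m => (b : ℤ) ∣ qf c m ∧ ∀ l ∈ b.primeFactors, Pv l m) : ℝ) :=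
          Nat.cast_nonneg _
        have hP : 0 ≤ (b : ℝ) ^ 4 * ∏ l ∈ b.primeFactors, pk D v l (b.factorization l) :=
          hN0.trans hN
        calc (2 : ℝ) ^ (A / c2) * wb D b *
            ∑ m ∈ S.filter (fun m => bm (T ^ c2) D (qf c m).natAbs = b),
            ∏ l ∈ Ps (T ^ c2) (b * D) (qf c m).natAbs, ps l
            ≤ (2 : ℝ) ^ (A / c2) * wb D b *
              (((b : ℝ) ^ 4 * ∏ l ∈ b.primeFactors, pk D v l (b.factorization l)) *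
              (C * (gg b * gg D) * ((H : ℝ) / b) ^ 4 * Sg (T ^ c2) κ ps D)) := by
              refine mul_le_mul_of_nonneg_left (hbnd.trans ?_) (by positivity)
              refine mul_le_mul hN ?_ hX hP
              have h5 := gg_mul_le b D
              gcongr
          _ = ((2 : ℝ) ^ (A / c2) * C * (H : ℝ) ^ 4 * (gg D * Sg (T ^ c2) κ ps D)) *
              (wb D b * gg b * ∏ l ∈ b.primeFactors, pk D v l (b.factorization l)) := by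
              field_simp
    _ = ((2 : ℝ) ^ (A / c2) * C * (H : ℝ) ^ 4 * (gg D * Sg (T ^ c2) κ ps D)) *
        ∑ b ∈ (Icc 1 ⌊T ^ (δ / 2)⌋₊).filter (fun b => BB (T ^ c2) D b),
        (wb D b * gg b * ∏ l ∈ b.primeFactors, pk D v l (b.factorization l)) :=
        (Finset.mul_sum _ _ _).symm
    _ ≤ ((2 : ℝ) ^ (A / c2) * C * (H : ℝ) ^ 4 * (gg D * Sg (T ^ c2) κ ps D)) *
        (CE * HH C1 (T ^ c2) D v) :=
        mul_le_mul_of_nonneg_left (heu (T ^ c2) D v _ hF.pos) (by positivity)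
    _ = (2 : ℝ) ^ (A / c2) * C * CE * (H : ℝ) ^ 4 *
        (gg D * HH C1 (T ^ c2) D v * Sg (T ^ c2) κ ps D) := by ring

end Pool.Agent.PP5C
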