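import Pool.Agent.PP5C.DvP

/-!
# PtX: pointwise expansion of the local factors (difficulty 4)

`D = D2 x`, `v = vx x`, `z = T ^ c2`, `V = VV z D v ≤ T ^ c5`, `D ≤ T ^ A`.
* `gg D ≤ 2 ^ (A / c2) ∏_{l ∈ Pz z D} (1 + 2 / l)` (primes `> z` dividing `D`: at most `A / c2`, each factor `≤ 2`).
* `(1 + 2 / l)(1 + hh C1 l v) ≤ 1 + h' l`, `h' l = C2 / l` if `v l = 0`, `h' l = C2 (v+1)² l ^ (v/3)` if `v l ≥ 1`
  (`C2 = 2 + 3 C1 + ...`).
* `∏_{l ∈ Pz z D} (1 + h' l) = ∑_{U ⊆ Pz z D} ∏_U h'` (`Finset.prod_one_add`).  To `U` attach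
  `n0 = ∏ {l ∈ U : v l = 0} l`, `n1 = ∏ {l ∈ U : v l ≥ 1} l ^ v l`: `n0 ∣ D` squarefree, `n1 ∣ V` (so `n1 ≤ T ^ c5`),
  `n1 ∣ ctx x` (`ctx x ≠ 0` as `DX x ≠ 0`, `det adj = DX ^ 3`), i.e. `An n1 x`; coprime; `∏_U h' = r0 C2 n0 * w1 C2 n1`; `U ↦ (n0, n1)` is
  injective.  The terms with `n0 ≤ T ^ c6` are bounded by the double sum.
* tail `n0 > T ^ c6`: `∏_U h' ≤ T ^ (-c6/2) ∏_{v l = 0} (C2 / √l) ∏_{v l ≥ 1} h'`, so the sum over these `U` is at most
  `T ^ (-c6/2) ∏_{l ∣ D} (1 + C2) * ∏_{l ∈ Pz, v l ≥ 1} (2 C2 (v+1)² l ^ (v/3)) ≤ T ^ (-c6/2) * K T ^ ε * V ^ (1/3)`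
  (`dvp`, `dvg` for `D` and `V`) `≤ T ^ (-c6/4)` for `T ≥ T0` (`c5 ≤ c6 / 8`).
-/

set_option autoImplicit false

namespace Pool.Agent.PP5C

open Finset Pool.Agent.PPS

/-- `gg D` and the primes `≤ z` -/
private theorem PtX_gg {A c2 T : ℝ} (hA : 0 < A) (hc2 : 0 < c2) (hT : 2 ≤ T) (D : ℕ) (hD : D ≠ 0)
    (hDT : (D : ℝ) ≤ T ^ A) :
    gg D ≤ (2 : ℝ) ^ (A / c2) * ∏ l ∈ Pz (T ^ c2) D, (1 + 2 / (l : ℝ)) := by
  classical
  have fac : ∀ l : ℕ, l.Prime → 0 < (1 - 1 / (l : ℝ))⁻¹ ∧ (1 - 1 / (l : ℝ))⁻¹ ≤ 2 ∧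
      (1 - 1 / (l : ℝ))⁻¹ ≤ 1 + 2 / (l : ℝ) := by
    intro l hl
    have h2 : (2 : ℝ) ≤ (l : ℝ) := by exact_mod_cast hl.two_le
    have h3 : 1 / (l : ℝ) ≤ 1 / 2 := one_div_le_one_div_of_le (by norm_num) h2
    have h4 : 0 < 1 / (l : ℝ) := by positivity
    have h5 : (0 : ℝ) < 1 - 1 / (l : ℝ) := by linarith
    refine ⟨inv_pos.2 h5, ?_, ?_⟩
    · rw [inv_le_comm₀ h5 (by norm_num)]
      linarith
    · have h6 : 2 / (l : ℝ) = 2 * (1 / (l : ℝ)) := by ring
      rw [inv_le_iff_one_le_mul₀ h5, h6]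
      nlinarith
  have hpos : ∀ S : Finset ℕ, S ⊆ D.primeFactors → 0 ≤ ∏ l ∈ S, (1 - 1 / (l : ℝ))⁻¹ :=
    fun S hS => Finset.prod_nonneg fun l hl => (fac l (Nat.prime_of_mem_primeFactors (hS hl))).1.le
  unfold gg
  rw [← Finset.prod_filter_mul_prod_filter_not D.primeFactors (fun l : ℕ => (l : ℝ) ≤ T ^ c2),
    mul_comm]
  have e : Pz (T ^ c2) D = D.primeFactors.filter (fun l : ℕ => (l : ℝ) ≤ T ^ c2) := rfl
  rw [e]
  refine mul_le_mul ?_ ?_ (hpos _ (Finset.filter_subset _ _)) (by positivity)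
  · set S := D.primeFactors.filter (fun l : ℕ => ¬ (l : ℝ) ≤ T ^ c2) with hS
    have hT1 : (1 : ℝ) < T := by linarith
    have hT0 : (0 : ℝ) < T := by linarith
    have hcard : ((S.card : ℕ) : ℝ) ≤ A / c2 := by
      have h1 : ∏ _l ∈ S, T ^ c2 ≤ ∏ l ∈ S, (l : ℝ) :=
        Finset.prod_le_prod (fun _ _ => by positivity)
          (fun l hl => (lt_of_not_ge (Finset.mem_filter.1 hl).2).le)
      have h2 : (∏ l ∈ S, (l : ℝ)) ≤ D := by
        have h3 : (∏ l ∈ S, l) ∣ D :=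
          (Finset.prod_dvd_prod_of_subset _ _ _ (Finset.filter_subset _ _)).trans
            (Nat.prod_primeFactors_dvd D)
        have h4 := Nat.le_of_dvd (Nat.pos_of_ne_zero hD) h3
        have h5 : ((∏ l ∈ S, l : ℕ) : ℝ) ≤ (D : ℝ) := Nat.cast_le.2 h4
        rwa [Nat.cast_prod] at h5
      rw [Finset.prod_const, ← Real.rpow_mul_natCast hT0.le] at h1
      have h3 : T ^ (c2 * (S.card : ℝ)) ≤ T ^ A := (h1.trans h2).trans hDT
      rw [Real.rpow_le_rpow_left_iff hT1] at h3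
      rw [le_div_iff₀ hc2]
      linarith
    calc ∏ l ∈ S, (1 - 1 / (l : ℝ))⁻¹ ≤ ∏ _l ∈ S, (2 : ℝ) := by
          refine Finset.prod_le_prod (fun l hl => ?_) (fun l hl => ?_)
          · exact (fac l (Nat.prime_of_mem_primeFactors (Finset.mem_filter.1 hl).1)).1.le
          · exact (fac l (Nat.prime_of_mem_primeFactors (Finset.mem_filter.1 hl).1)).2.1
      _ = (2 : ℝ) ^ ((S.card : ℕ) : ℝ) := by rw [Finset.prod_const, Real.rpow_natCast]
      _ ≤ (2 : ℝ) ^ (A / c2) := Real.rpow_le_rpow_of_exponent_le (by norm_num) hcard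
  · refine Finset.prod_le_prod (fun l hl => ?_) (fun l hl => ?_)
    · exact (fac l (Nat.prime_of_mem_primeFactors (Finset.mem_filter.1 hl).1)).1.le
    · exact (fac l (Nat.prime_of_mem_primeFactors (Finset.mem_filter.1 hl).1)).2.2

private theorem PtX_hh0 {C : ℝ} (hC : 0 ≤ C) (l v : ℕ) : 0 ≤ hh C l v := by
  unfold hh
  split_ifs <;> positivity

private theorem PtX_loc {C1 : ℝ} (hC1 : 1 ≤ C1) {l : ℕ} (hl : l.Prime) (v : ℕ) :
    (1 + 2 / (l : ℝ)) * (1 + hh C1 l v) ≤ 1 + hh (2 + 3 * C1) l v := by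
  have h2 : (2 : ℝ) ≤ (l : ℝ) := by exact_mod_cast hl.two_le
  have h0 : (0 : ℝ) < (l : ℝ) := by linarith
  have h3 : 1 / (l : ℝ) ≤ 1 / 2 := one_div_le_one_div_of_le (by norm_num) h2
  have h4 : 0 < 1 / (l : ℝ) := by positivity
  have e1 : 2 / (l : ℝ) = 2 * (1 / (l : ℝ)) := by ring
  unfold hh
  split_ifs with hv
  · have e2 : C1 / (l : ℝ) = C1 * (1 / (l : ℝ)) := by ring
    have e3 : (2 + 3 * C1) / (l : ℝ) = (2 + 3 * C1) * (1 / (l : ℝ)) := by ring
    rw [e1, e2, e3]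
    have h5 : C1 * (1 / (l : ℝ)) * (1 / (l : ℝ)) ≤ C1 * (1 / (l : ℝ)) * (1 / 2) :=
      mul_le_mul_of_nonneg_left h3 (by positivity)
    nlinarith
  · set X : ℝ := ((v : ℝ) + 1) ^ 2 * (l : ℝ) ^ (v / 3) with hX
    have hX1 : 1 ≤ X := by
      have a1 : (1 : ℝ) ≤ ((v : ℝ) + 1) ^ 2 := by
        have : (0 : ℝ) ≤ (v : ℝ) := Nat.cast_nonneg v
        nlinarith
      have a2 : (1 : ℝ) ≤ (l : ℝ) ^ (v / 3) := one_le_pow₀ (by linarith)
      rw [hX]
      nlinarith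
    have e2 : C1 * ((v : ℝ) + 1) ^ 2 * (l : ℝ) ^ (v / 3) = C1 * X := by rw [hX]; ring
    have e3 : (2 + 3 * C1) * ((v : ℝ) + 1) ^ 2 * (l : ℝ) ^ (v / 3) = (2 + 3 * C1) * X := by
      rw [hX]; ring
    rw [e1, e2, e3]
    have h5 : 2 * (1 / (l : ℝ)) ≤ 1 := by linarith
    have h6 : 0 ≤ C1 * X := by positivity
    have h7 : 2 * (1 / (l : ℝ)) * (C1 * X) ≤ 1 * (C1 * X) := mul_le_mul_of_nonneg_right h5 h6
    nlinarith

open Classical in
/-- the part of `U` where `v = 0` -/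
private noncomputable def PtX_n0 (v : ℕ → ℕ) (U : Finset ℕ) : ℕ := ∏ l ∈ U.filter (fun l => v l = 0), l

open Classical in
/-- the part of `U` where `v ≥ 1` -/
private noncomputable def PtX_n1 (v : ℕ → ℕ) (U : Finset ℕ) : ℕ :=
  ∏ l ∈ U.filter (fun l => ¬ v l = 0), l ^ v l

open Classical in
private theorem PtX_pf0 (v : ℕ → ℕ) (U : Finset ℕ) (hU : ∀ l ∈ U, l.Prime) :
    (PtX_n0 v U).primeFactors = U.filter (fun l => v l = 0) := by
  unfold PtX_n0
  exact Nat.primeFactors_prod fun p hp => hU p (Finset.mem_filter.1 hp).1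

open Classical in
private theorem PtX_fac1 (v : ℕ → ℕ) (S : Finset ℕ) (hS : ∀ l ∈ S, l.Prime) (p : ℕ) :
    (∏ l ∈ S, l ^ v l).factorization p = if p ∈ S then v p else 0 := by
  rw [Nat.factorization_prod fun l hl => pow_ne_zero _ (hS l hl).ne_zero]
  rw [Finsupp.finsetSum_apply]
  rw [Finset.sum_congr rfl fun l hl => by rw [(hS l hl).factorization_pow, Finsupp.single_apply]]
  rw [Finset.sum_ite_eq' S p]

open Classical in
private theorem PtX_pf1 (v : ℕ → ℕ) (U : Finset ℕ) (hU : ∀ l ∈ U, l.Prime) :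
    (PtX_n1 v U).primeFactors = U.filter (fun l => ¬ v l = 0) ∧
      ∀ l ∈ U.filter (fun l => ¬ v l = 0), (PtX_n1 v U).factorization l = v l := by
  have hS : ∀ l ∈ U.filter (fun l => ¬ v l = 0), l.Prime :=
    fun l hl => hU l (Finset.mem_filter.1 hl).1
  have h1 : ∀ p, (PtX_n1 v U).factorization p =
      if p ∈ U.filter (fun l => ¬ v l = 0) then v p else 0 := fun p => PtX_fac1 v _ hS p
  constructor
  · rw [← Nat.support_factorization]
    ext p
    rw [Finsupp.mem_support_iff, h1 p]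
    constructor
    · intro h
      by_contra hc
      rw [if_neg hc] at h
      exact h rfl
    · intro h
      rw [if_pos h]
      exact (Finset.mem_filter.1 h).2
  · intro l hl
    rw [h1 l, if_pos hl]

open Classical in
private theorem PtX_prod (C : ℝ) (v : ℕ → ℕ) (U : Finset ℕ) (hU : ∀ l ∈ U, l.Prime) :
    ∏ l ∈ U, hh C l (v l) = r0 C (PtX_n0 v U) * w1 C (PtX_n1 v U) := by
  unfold r0 w1
  rw [PtX_pf0 v U hU, (PtX_pf1 v U hU).1,
    ← Finset.prod_filter_mul_prod_filter_not U (fun l => v l = 0)]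
  congr 1
  · refine Finset.prod_congr rfl fun l hl => ?_
    unfold hh
    rw [if_pos (Finset.mem_filter.1 hl).2]
  · refine Finset.prod_congr rfl fun l hl => ?_
    rw [(PtX_pf1 v U hU).2 l hl]
    unfold hh
    rw [if_neg (Finset.mem_filter.1 hl).2]

open Classical in
private theorem PtX_inj (v : ℕ → ℕ) (U U' : Finset ℕ) (hU : ∀ l ∈ U, l.Prime)
    (hU' : ∀ l ∈ U', l.Prime) (h0 : PtX_n0 v U = PtX_n0 v U') (h1 : PtX_n1 v U = PtX_n1 v U') :
    U = U' := by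
  have a0 : U.filter (fun l => v l = 0) = U'.filter (fun l => v l = 0) := by
    rw [← PtX_pf0 v U hU, ← PtX_pf0 v U' hU', h0]
  have a1 : U.filter (fun l => ¬ v l = 0) = U'.filter (fun l => ¬ v l = 0) := by
    rw [← (PtX_pf1 v U hU).1, ← (PtX_pf1 v U' hU').1, h1]
  rw [← Finset.filter_union_filter_not_eq (fun l => v l = 0) U, a0, a1,
    Finset.filter_union_filter_not_eq]

open Classical in
private theorem PtX_VV (z : ℝ) (D : ℕ) (v : ℕ → ℕ) : VV z D v = PtX_n1 v (Pz z D) := by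
  unfold VV PtX_n1
  rw [← Finset.prod_filter_mul_prod_filter_not (Pz z D) (fun l => v l = 0)]
  have h : ∏ l ∈ (Pz z D).filter (fun l => v l = 0), l ^ v l = 1 := by
    refine Finset.prod_eq_one fun l hl => ?_
    rw [(Finset.mem_filter.1 hl).2, pow_zero]
  rw [h, one_mul]

private theorem PtX_Pz {z : ℝ} {D l : ℕ} (hl : l ∈ Pz z D) : l.Prime ∧ l ∣ D := by
  classical
  have h := (Finset.mem_filter.1 hl).1
  exact ⟨Nat.prime_of_mem_primeFactors h, Nat.dvd_of_mem_primeFactors h⟩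

private theorem PtX_gcd (g : Fin 4 × Fin 4 → ℤ) (p : Fin 4 × Fin 4) :
    ((Finset.univ.gcd fun p : Fin 4 × Fin 4 => (8 * g p).natAbs : ℕ) : ℤ) ∣ 8 * g p := by
  rw [Int.natCast_dvd]
  exact Finset.gcd_dvd (f := fun p : Fin 4 × Fin 4 => (8 * g p).natAbs) (Finset.mem_univ p)

private theorem PtX_ctx (x : Fin 10 → ℤ) (i j : Fin 4) :
    ((ctx x : ℕ) : ℤ) ∣ 8 * (SX x).adjugate i j :=
  PtX_gcd (fun p => (SX x).adjugate p.1 p.2) (i, j)

private theorem PtX_An (n : ℕ) (x : Fin 10 → ℤ) (h : n ∣ ctx x) : An n x :=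
  fun i j => (Int.natCast_dvd_natCast.2 h).trans (PtX_ctx x i j)

open Classical in
/-- the main part -/
private theorem PtX_main (C T c2 c5 c6 : ℝ) (hC : 0 ≤ C) (x : Fin 10 → ℤ)
    (hD : D2 x ≠ 0) (hV : (VV (T ^ c2) (D2 x) (vx x) : ℝ) ≤ T ^ c5) :
    ∑ U ∈ (Pz (T ^ c2) (D2 x)).powerset.filter (fun U => (PtX_n0 (vx x) U : ℝ) ≤ T ^ c6),
      ∏ l ∈ U, hh C l (vx x l) ≤
      ∑ n1 ∈ (Icc 1 ⌊T ^ c5⌋₊).filter (fun n => An n x),
        ∑ n0 ∈ (Icc 1 ⌊T ^ c6⌋₊).filter (fun n => Squarefree n ∧ n ∣ D2 x ∧ Nat.Coprime n n1),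
          r0 C n0 * w1 C n1 := by
  set v := vx x with hv
  set P := (Pz (T ^ c2) (D2 x)).powerset.filter (fun U => (PtX_n0 v U : ℝ) ≤ T ^ c6) with hP
  have hpr : ∀ U ∈ P, ∀ l ∈ U, l.Prime ∧ l ∣ D2 x := by
    intro U hU l hl
    exact PtX_Pz ((Finset.mem_powerset.1 (Finset.mem_filter.1 hU).1) hl)
  rw [Finset.sum_sigma']
  set φ : Finset ℕ → (Σ _ : ℕ, ℕ) := fun U => ⟨PtX_n1 v U, PtX_n0 v U⟩ with hφ
  have hinj : Set.InjOn φ P := by
    intro U hU U' hU' he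
    simp only [hφ, Sigma.mk.injEq, heq_eq_eq] at he
    exact PtX_inj v U U' (fun l hl => (hpr U hU l hl).1) (fun l hl => (hpr U' hU' l hl).1)
      he.2 he.1
  have e1 : ∑ U ∈ P, ∏ l ∈ U, hh C l (v l) = ∑ q ∈ P.image φ, r0 C q.2 * w1 C q.1 := by
    rw [Finset.sum_image hinj]
    refine Finset.sum_congr rfl fun U hU => ?_
    exact PtX_prod C v U fun l hl => (hpr U hU l hl).1
  rw [e1]
  refine Finset.sum_le_sum_of_subset_of_nonneg ?_ ?_
  · intro q hq
    obtain ⟨U, hU, rfl⟩ := Finset.mem_image.1 hq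
    have hp : ∀ l ∈ U, l.Prime := fun l hl => (hpr U hU l hl).1
    have hsub : U ⊆ Pz (T ^ c2) (D2 x) := Finset.mem_powerset.1 (Finset.mem_filter.1 hU).1
    have hn1 : PtX_n1 v U ≠ 0 := by
      unfold PtX_n1
      exact Finset.prod_ne_zero_iff.2 fun l hl =>
        pow_ne_zero _ (hp l (Finset.mem_filter.1 hl).1).ne_zero
    have hn0 : PtX_n0 v U ≠ 0 := by
      unfold PtX_n0
      exact Finset.prod_ne_zero_iff.2 fun l hl => (hp l (Finset.mem_filter.1 hl).1).ne_zero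
    simp only [hφ, Finset.mem_sigma, Finset.mem_filter, Finset.mem_Icc]
    refine ⟨⟨⟨Nat.one_le_iff_ne_zero.2 hn1, ?_⟩, ?_⟩, ⟨Nat.one_le_iff_ne_zero.2 hn0, ?_⟩, ?_, ?_, ?_⟩
    · -- `n1 ≤ T ^ c5`
      refine Nat.le_floor (le_trans ?_ hV)
      rw [PtX_VV]
      have hd : PtX_n1 v U ∣ PtX_n1 v (Pz (T ^ c2) (D2 x)) :=
        Finset.prod_dvd_prod_of_subset _ _ _ (Finset.filter_subset_filter _ hsub)
      have hne : PtX_n1 v (Pz (T ^ c2) (D2 x)) ≠ 0 := by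
        unfold PtX_n1
        exact Finset.prod_ne_zero_iff.2 fun l hl =>
          pow_ne_zero _ (PtX_Pz (Finset.mem_filter.1 hl).1).1.ne_zero
      exact_mod_cast Nat.le_of_dvd (Nat.pos_of_ne_zero hne) hd
    · -- `An`
      refine PtX_An _ x ?_
      show PtX_n1 v U ∣ ctx x
      by_cases hc : ctx x = 0
      · rw [hc]
        exact dvd_zero _
      · rw [← Nat.factorization_le_iff_dvd hn1 hc]
        intro p
        have := PtX_fac1 v (U.filter fun l => ¬ v l = 0)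
          (fun l hl => hp l (Finset.mem_filter.1 hl).1) p
        unfold PtX_n1
        rw [this]
        split_ifs
        · rw [hv]
          exact le_refl _
        · exact Nat.zero_le _
    · exact Nat.le_floor (Finset.mem_filter.1 hU).2
    · -- squarefree
      rw [Nat.squarefree_iff_factorization_le_one hn0]
      intro p
      have := PtX_fac1 (fun _ => 1) (U.filter fun l => v l = 0)
        (fun l hl => hp l (Finset.mem_filter.1 hl).1) p
      simp only [pow_one] at this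
      unfold PtX_n0
      rw [this]
      split_ifs <;> norm_num
    · -- divides `D`
      unfold PtX_n0
      refine (Finset.prod_dvd_prod_of_subset _ (D2 x).primeFactors _ ?_).trans
        (Nat.prod_primeFactors_dvd _)
      intro l hl
      have := hpr U hU l (Finset.mem_filter.1 hl).1
      exact Nat.mem_primeFactors.2 ⟨this.1, this.2, hD⟩
    · -- coprime
      have : Disjoint (PtX_n0 v U).primeFactors (PtX_n1 v U).primeFactors := by
        rw [PtX_pf0 v U hp, (PtX_pf1 v U hp).1]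
        exact Finset.disjoint_filter_filter_not _ _ _
      exact (Nat.disjoint_primeFactors hn0 hn1).1 this
  · intro q _ _
    have a1 : 0 ≤ r0 C q.2 := by
      unfold r0
      exact Finset.prod_nonneg fun l _ => by positivity
    have a2 : 0 ≤ w1 C q.1 := by
      unfold w1
      exact Finset.prod_nonneg fun l _ => by positivity
    exact mul_nonneg a1 a2

open Classical in
/-- the tail -/
private theorem PtX_tail (C T c2 c6 Ka Kb ε : ℝ) (hC : 1 ≤ C) (hT : 2 ≤ T) (D : ℕ) (hD : D ≠ 0)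
    (v : ℕ → ℕ) (ha : gg D * (1 + C) ^ D.primeFactors.card ≤ Ka * (D : ℝ) ^ ε)
    (hb : ∀ n : ℕ, n ≠ 0 → ∏ l ∈ n.primeFactors, (2 * C * ((n.factorization l : ℝ) + 1)) ≤
      Kb * (n : ℝ) ^ ε) (hKa : 0 ≤ Ka) (hKb : 0 ≤ Kb) :
    ∑ U ∈ (Pz (T ^ c2) D).powerset.filter (fun U => ¬ (PtX_n0 v U : ℝ) ≤ T ^ c6),
      ∏ l ∈ U, hh C l (v l) ≤
      T ^ (-(c6 / 2)) * ((Ka * (D : ℝ) ^ ε) * ((Kb * (VV (T ^ c2) D v : ℝ) ^ ε) ^ 2 *
        (VV (T ^ c2) D v : ℝ))) := by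
  have hT0 : (0 : ℝ) < T := by linarith
  set Q := Pz (T ^ c2) D with hQ
  set tt : ℕ → ℝ := fun l => hh C l (v l) * (if v l = 0 then √(l : ℝ) else 1) with htt
  have tt0 : ∀ l, 0 ≤ tt l := by
    intro l
    simp only [htt]
    refine mul_nonneg (PtX_hh0 (by linarith) _ _) ?_
    split_ifs
    · exact Real.sqrt_nonneg _
    · exact zero_le_one
  -- each term
  have h1 : ∀ U ∈ Q.powerset.filter (fun U => ¬ (PtX_n0 v U : ℝ) ≤ T ^ c6),
      ∏ l ∈ U, hh C l (v l) ≤ T ^ (-(c6 / 2)) * ∏ l ∈ U, tt l := by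
    intro U hU
    have hn : T ^ c6 < (PtX_n0 v U : ℝ) := not_le.1 (Finset.mem_filter.1 hU).2
    have e1 : ∏ l ∈ U, tt l = (∏ l ∈ U, hh C l (v l)) *
        ∏ l ∈ U.filter (fun l => v l = 0), √(l : ℝ) := by
      simp only [htt]
      rw [Finset.prod_mul_distrib, Finset.prod_filter]
    have h2 : T ^ (c6 / 2) ≤ ∏ l ∈ U.filter (fun l => v l = 0), √(l : ℝ) := by
      refine le_of_pow_le_pow_left₀ (n := 2) (by norm_num)
        (Finset.prod_nonneg fun l _ => Real.sqrt_nonneg _) ?_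
      rw [← Finset.prod_pow]
      rw [Finset.prod_congr rfl fun l _ => Real.sq_sqrt (Nat.cast_nonneg l)]
      have e2 : (T ^ (c6 / 2)) ^ 2 = T ^ c6 := by
        rw [← Real.rpow_natCast, ← Real.rpow_mul hT0.le]
        congr 1
        push_cast
        ring
      rw [e2]
      unfold PtX_n0 at hn
      rw [Nat.cast_prod] at hn
      exact hn.le
    have h3 : 0 ≤ ∏ l ∈ U, hh C l (v l) :=
      Finset.prod_nonneg fun l _ => PtX_hh0 (by linarith) _ _
    rw [e1]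
    have h4 : T ^ (-(c6 / 2)) * T ^ (c6 / 2) = 1 := by
      rw [← Real.rpow_add hT0]
      simp
    have h5 : 1 ≤ T ^ (-(c6 / 2)) * ∏ l ∈ U.filter (fun l => v l = 0), √(l : ℝ) := by
      rw [← h4]
      exact mul_le_mul_of_nonneg_left h2 (by positivity)
    nlinarith
  have h6 : ∑ U ∈ Q.powerset.filter (fun U => ¬ (PtX_n0 v U : ℝ) ≤ T ^ c6),
      ∏ l ∈ U, hh C l (v l) ≤ T ^ (-(c6 / 2)) * ∏ l ∈ Q, (1 + tt l) := by
    calc _ ≤ ∑ U ∈ Q.powerset.filter (fun U => ¬ (PtX_n0 v U : ℝ) ≤ T ^ c6),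
          T ^ (-(c6 / 2)) * ∏ l ∈ U, tt l := Finset.sum_le_sum h1
      _ ≤ ∑ U ∈ Q.powerset, T ^ (-(c6 / 2)) * ∏ l ∈ U, tt l := by
          refine Finset.sum_le_sum_of_subset_of_nonneg (Finset.filter_subset _ _) ?_
          intro U _ _
          exact mul_nonneg (by positivity) (Finset.prod_nonneg fun l _ => tt0 l)
      _ = T ^ (-(c6 / 2)) * ∏ l ∈ Q, (1 + tt l) := by
          rw [← Finset.mul_sum, Finset.prod_one_add]
  refine h6.trans (mul_le_mul_of_nonneg_left ?_ (by positivity))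
  -- the product
  set u : ℕ → ℝ := fun l => if v l = 0 then 1 else (2 * C * ((v l : ℝ) + 1)) ^ 2 * (l : ℝ) ^ v l
    with hu
  have h7 : ∀ l ∈ Q, 1 + tt l ≤ (1 + C) * u l := by
    intro l hl
    have hlp := (PtX_Pz hl).1
    have h2 : (2 : ℝ) ≤ (l : ℝ) := by exact_mod_cast hlp.two_le
    simp only [htt, hu]
    unfold hh
    split_ifs with hv
    · have h8 : √(l : ℝ) ≤ l := by
        rw [Real.sqrt_le_left (by linarith)]
        nlinarith
      have h9 : C / (l : ℝ) * √(l : ℝ) ≤ C := by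
        rw [div_mul_eq_mul_div, div_le_iff₀ (by linarith)]
        exact mul_le_mul_of_nonneg_left h8 (by linarith)
      linarith
    · have hv1 : (1 : ℝ) ≤ (v l : ℝ) := by exact_mod_cast Nat.one_le_iff_ne_zero.2 hv
      have hp : (l : ℝ) ^ (v l / 3) ≤ (l : ℝ) ^ v l :=
        pow_le_pow_right₀ (by linarith) (Nat.div_le_self _ _)
      have hp1 : (1 : ℝ) ≤ (l : ℝ) ^ (v l) := one_le_pow₀ (by linarith)
      set Y := (l : ℝ) ^ v l
      set Y3 := (l : ℝ) ^ (v l / 3)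
      set X := ((v l : ℝ) + 1) ^ 2 with hX
      have hX1 : 1 ≤ X := by nlinarith
      have e1 : (2 * C * ((v l : ℝ) + 1)) ^ 2 * Y = 4 * C ^ 2 * X * Y := by rw [hX]; ring
      rw [e1, mul_one]
      have h8 : C * X * Y3 ≤ C * X * Y := mul_le_mul_of_nonneg_left hp (by positivity)
      have h9 : 1 ≤ C * X * Y := by
        have a1 : 1 ≤ C * X := by nlinarith
        nlinarith
      have h10 : C * X * Y ≤ C ^ 2 * X * Y := by
        have : C ≤ C ^ 2 := by nlinarith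
        have h11 : 0 ≤ X * Y := by positivity
        nlinarith
      nlinarith
  have h12 : ∏ l ∈ Q, (1 + tt l) ≤ (1 + C) ^ Q.card * ∏ l ∈ Q, u l := by
    rw [← Finset.prod_const, ← Finset.prod_mul_distrib]
    exact Finset.prod_le_prod (fun l _ => by linarith [tt0 l]) h7
  refine h12.trans ?_
  have hu0 : 0 ≤ ∏ l ∈ Q, u l := by
    refine Finset.prod_nonneg fun l _ => ?_
    simp only [hu]
    split_ifs <;> positivity
  refine mul_le_mul ?_ ?_ hu0 (by positivity)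
  · have h13 : (1 + C) ^ Q.card ≤ (1 + C) ^ D.primeFactors.card :=
      pow_le_pow_right₀ (by linarith) (Finset.card_le_card (Finset.filter_subset _ _))
    have h14 := gg_one_le D
    have h15 : (0 : ℝ) ≤ (1 + C) ^ D.primeFactors.card := by positivity
    nlinarith
  · have hQp : ∀ l ∈ Q, l.Prime := fun l hl => (PtX_Pz hl).1
    have e0 : VV (T ^ c2) D v = PtX_n1 v Q := PtX_VV _ _ _
    rw [e0]
    have hne : PtX_n1 v Q ≠ 0 := by
      unfold PtX_n1
      exact Finset.prod_ne_zero_iff.2 fun l hl =>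
        pow_ne_zero _ (hQp l (Finset.mem_filter.1 hl).1).ne_zero
    have h16 := hb _ hne
    rw [(PtX_pf1 v Q hQp).1] at h16
    rw [Finset.prod_congr rfl fun l hl => by rw [(PtX_pf1 v Q hQp).2 l hl]] at h16
    have e2 : ∏ l ∈ Q, u l = (∏ l ∈ Q.filter (fun l => ¬ v l = 0), (2 * C * ((v l : ℝ) + 1))) ^ 2 *
        (PtX_n1 v Q : ℝ) := by
      unfold PtX_n1
      rw [Nat.cast_prod, ← Finset.prod_pow, ← Finset.prod_mul_distrib, Finset.prod_filter]
      refine Finset.prod_congr rfl fun l _ => ?_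
      simp only [hu]
      by_cases hv : v l = 0
      · simp [hv]
      · simp [hv]
    rw [e2]
    refine mul_le_mul_of_nonneg_right ?_ (Nat.cast_nonneg _)
    refine pow_le_pow_left₀ ?_ h16 2
    exact Finset.prod_nonneg fun l _ => by positivity

open Classical in
theorem ptx (A c2 c5 c6 C1 : ℝ) (hA : 0 < A) (hc2 : 0 < c2) (hc5 : 0 < c5) (h56 : c5 ≤ c6 / 8)
    (hC1 : 1 ≤ C1) : ∃ C T0 : ℝ, 1 ≤ C ∧ 2 ≤ T0 ∧ ∀ T : ℝ, T0 ≤ T → ∀ x : Fin 10 → ℤ, DX x ≠ 0 →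
    (D2 x : ℝ) ≤ T ^ A → (VV (T ^ c2) (D2 x) (vx x) : ℝ) ≤ T ^ c5 →
    gg (D2 x) * HH C1 (T ^ c2) (D2 x) (vx x) ≤
      C * (∑ n1 ∈ (Icc 1 ⌊T ^ c5⌋₊).filter (fun n => An n x),
        ∑ n0 ∈ (Icc 1 ⌊T ^ c6⌋₊).filter (fun n => Squarefree n ∧ n ∣ D2 x ∧ Nat.Coprime n n1),
          r0 C n0 * w1 C n1) + T ^ (-(c6 / 4)) := by
  have hc6 : 0 < c6 := by linarith
  set C2 : ℝ := 2 + 3 * C1 with hC2
  have hC21 : 1 ≤ C2 := by rw [hC2]; linarith
  set ε : ℝ := c6 / (16 * (A + c6)) with hε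
  have hε0 : 0 < ε := by positivity
  have hεA : ε * (A + c6) = c6 / 16 := by
    rw [hε]
    field_simp
  obtain ⟨Ka, hKa, ha⟩ := dvg (1 + C2) ε (by linarith) hε0
  obtain ⟨Kb, hKb, hb⟩ := dvp (2 * C2) ε (by linarith) hε0
  set K1 : ℝ := (2 : ℝ) ^ (A / c2) with hK1
  have hK10 : 0 < K1 := by positivity
  set K' : ℝ := K1 * Ka * Kb ^ 2 with hK'
  have hK'0 : 0 < K' := by positivity
  refine ⟨max C2 K1, max 2 (K' ^ (16 / c6)), hC21.trans (le_max_left _ _), le_max_left _ _, ?_⟩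
  intro T hT x hx hD hV
  have hT2 : 2 ≤ T := (le_max_left _ _).trans hT
  have hT0 : 0 < T := by linarith
  have hKT : K' ≤ T ^ (c6 / 16) := by
    have h1 : K' ^ (16 / c6) ≤ T := (le_max_right _ _).trans hT
    have h2 := Real.rpow_le_rpow (by positivity) h1 (by positivity : (0 : ℝ) ≤ c6 / 16)
    rw [← Real.rpow_mul hK'0.le] at h2
    have e : 16 / c6 * (c6 / 16) = 1 := by field_simp
    rwa [e, Real.rpow_one] at h2
  have hDn : D2 x ≠ 0 := by
    unfold D2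
    have := Int.natAbs_ne_zero.2 hx
    omega
  set z := T ^ c2 with hz
  set v := vx x with hv
  set Q := Pz z (D2 x) with hQ
  have s1 : gg (D2 x) * HH C1 z (D2 x) v ≤ K1 * ∏ l ∈ Q, (1 + hh C2 l (v l)) := by
    have h1 := PtX_gg hA hc2 hT2 (D2 x) hDn hD
    have h2 : 0 ≤ HH C1 z (D2 x) v := by
      unfold HH
      exact Finset.prod_nonneg fun l _ => by
        have := PtX_hh0 (by linarith : (0 : ℝ) ≤ C1) l (v l)
        linarith
    refine (mul_le_mul_of_nonneg_right h1 h2).trans ?_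
    rw [mul_assoc]
    refine mul_le_mul_of_nonneg_left ?_ hK10.le
    unfold HH
    rw [← Finset.prod_mul_distrib]
    refine Finset.prod_le_prod (fun l hl => ?_) (fun l hl => ?_)
    · have := PtX_hh0 (by linarith : (0 : ℝ) ≤ C1) l (v l)
      positivity
    · exact PtX_loc hC1 (PtX_Pz hl).1 (v l)
  rw [Finset.prod_one_add, ← Finset.sum_filter_add_sum_filter_not Q.powerset
    (fun U => (PtX_n0 v U : ℝ) ≤ T ^ c6), mul_add] at s1
  refine s1.trans (add_le_add ?_ ?_)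
  · have h1 := PtX_main C2 T c2 c5 c6 (by linarith) x hDn hV
    refine mul_le_mul (le_max_right _ _) (h1.trans ?_) ?_ ?_
    · refine Finset.sum_le_sum fun n1 _ => Finset.sum_le_sum fun n0 _ => ?_
      have hm : C2 ≤ max C2 K1 := le_max_left _ _
      have hc0 : 0 ≤ C2 := by linarith
      refine mul_le_mul ?_ ?_ ?_ ?_
      · unfold r0
        refine Finset.prod_le_prod (fun l _ => by positivity) (fun l _ => ?_)
        exact div_le_div_of_nonneg_right hm (Nat.cast_nonneg l)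
      · unfold w1
        refine Finset.prod_le_prod (fun l _ => by positivity) (fun l _ => ?_)
        exact mul_le_mul_of_nonneg_right (mul_le_mul_of_nonneg_right hm (by positivity))
          (by positivity)
      · unfold w1
        exact Finset.prod_nonneg fun l _ => by positivity
      · unfold r0
        exact Finset.prod_nonneg fun l _ => by
          have := hc0.trans hm
          positivity
    · exact Finset.sum_nonneg fun U _ => Finset.prod_nonneg fun l _ =>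
        PtX_hh0 (by linarith) _ _
    · exact hK10.le.trans (le_max_right _ _)
  · have h1 := PtX_tail C2 T c2 c6 Ka Kb ε hC21 hT2 (D2 x) hDn v (ha _ hDn) hb (by linarith)
      (by linarith)
    refine (mul_le_mul_of_nonneg_left h1 hK10.le).trans ?_
    have hV' : (VV (T ^ c2) (D2 x) v : ℝ) ≤ T ^ c5 := hV
    have hV0 : (0 : ℝ) ≤ (VV (T ^ c2) (D2 x) v : ℝ) := Nat.cast_nonneg _
    set V : ℝ := (VV (T ^ c2) (D2 x) v : ℝ)
    have h2 : V ^ ε ≤ T ^ (c5 * ε) := by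
      rw [Real.rpow_mul hT0.le]
      exact Real.rpow_le_rpow hV0 hV' hε0.le
    have h3 : (D2 x : ℝ) ^ ε ≤ T ^ (A * ε) := by
      rw [Real.rpow_mul hT0.le]
      exact Real.rpow_le_rpow (Nat.cast_nonneg _) hD hε0.le
    have h4 : (Ka * (D2 x : ℝ) ^ ε) * ((Kb * V ^ ε) ^ 2 * V) ≤
        (Ka * T ^ (A * ε)) * ((Kb * T ^ (c5 * ε)) ^ 2 * T ^ c5) := by
      gcongr
    have h5 : K1 * (T ^ (-(c6 / 2)) * ((Ka * T ^ (A * ε)) * ((Kb * T ^ (c5 * ε)) ^ 2 * T ^ c5))) =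
        K' * T ^ (-(c6 / 2) + A * ε + (c5 * ε + c5 * ε) + c5) := by
      rw [Real.rpow_add hT0, Real.rpow_add hT0, Real.rpow_add hT0, Real.rpow_add hT0, hK']
      ring
    calc K1 * (T ^ (-(c6 / 2)) * ((Ka * (D2 x : ℝ) ^ ε) * ((Kb * V ^ ε) ^ 2 * V)))
        ≤ K1 * (T ^ (-(c6 / 2)) * ((Ka * T ^ (A * ε)) * ((Kb * T ^ (c5 * ε)) ^ 2 * T ^ c5))) := by
          refine mul_le_mul_of_nonneg_left (mul_le_mul_of_nonneg_left h4 (by positivity)) hK10.le
      _ = K' * T ^ (-(c6 / 2) + A * ε + (c5 * ε + c5 * ε) + c5) := h5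
      _ ≤ T ^ (c6 / 16) * T ^ (-(c6 / 2) + A * ε + (c5 * ε + c5 * ε) + c5) :=
          mul_le_mul_of_nonneg_right hKT (by positivity)
      _ = T ^ (c6 / 16 + (-(c6 / 2) + A * ε + (c5 * ε + c5 * ε) + c5)) := by
          rw [← Real.rpow_add hT0]
      _ ≤ T ^ (-(c6 / 4)) := by
          refine Real.rpow_le_rpow_of_exponent_le (by linarith) ?_
          have h6 : c5 * ε ≤ c6 / 8 * ε := mul_le_mul_of_nonneg_right h56 hε0.le
          nlinarith

end Pool.Agent.PP5C
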