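import Pool.Agent.PP5C.TlX
import Pool.Agent.PP5C.PtX

/-!
# MnX: the main sum over `x` (difficulty 4)

`z = T ^ c2`, `D = D2 x`.  `ptx` and the definition of `Sg`:
`∑_x gg D HH Sg ≤ C ∑_{n1} ∑_{n0} r0 C n0 w1 C n1 ∑_{i < NL z} (2^(κ 2^i)/log ww) ∑_{a ∈ AA z i} (gg a ^ 2 / a)
  ∑_{x ∈ S : n0 ∣ D, An n1 x, Coprime a D} ∏_{l ∣ a} psx x l  +  T ^ (-c6/4) ∑_x Sg`
(everything nonnegative: extend the sums over `n0, n1, a` to all `n0 ≤ T ^ c6` squarefree coprime to `n1`, etc., with the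
conditions on `x` moved inside).  `n0 n1 a ≤ T ^ (c6 + c5 + c2) ≤ T ^ δ1` (`a ≤ z`): `hcl` bounds the inner sum by
`C0 (ρ ^ 9 / R) r0 C0 n0 r1 C0 n1 ra C0 a`; with `K = max C C0` (monotonicity of `r0, r1, w1, ra` in the constant) the sums over
`n0, n1, (i, a)` are bounded by `srx K κ`.  The second term: `n0 = n1 = 1`.
-/

set_option autoImplicit false

namespace Pool.Agent.PP5C

open Finset Pool.Agent.PPS

private theorem mnx_r0_mono {C K : ℝ} (hC : 0 ≤ C) (h : C ≤ K) (n : ℕ) : r0 C n ≤ r0 K n := by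
  unfold r0
  apply Finset.prod_le_prod
  · intro l _; positivity
  · intro l _; gcongr

private theorem mnx_r0_nonneg {C : ℝ} (hC : 0 ≤ C) (n : ℕ) : 0 ≤ r0 C n := by
  unfold r0
  apply Finset.prod_nonneg
  intro l _; positivity

private theorem mnx_rk_nonneg {C : ℝ} (hC : 0 ≤ C) (l e : ℕ) : 0 ≤ rk C l e := by
  unfold rk
  positivity

private theorem mnx_r1_nonneg {C : ℝ} (hC : 0 ≤ C) (n : ℕ) : 0 ≤ r1 C n := by
  unfold r1
  apply Finset.prod_nonneg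
  intro l _
  exact mnx_rk_nonneg hC _ _

private theorem mnx_r1_mono {C K : ℝ} (hC : 0 ≤ C) (h : C ≤ K) (n : ℕ) : r1 C n ≤ r1 K n := by
  unfold r1
  apply Finset.prod_le_prod
  · intro l _; exact mnx_rk_nonneg hC _ _
  · intro l _
    unfold rk
    gcongr

private theorem mnx_ra_nonneg {C : ℝ} (hC : 0 ≤ C) (n : ℕ) : 0 ≤ ra C n := by
  unfold ra
  apply Finset.prod_nonneg
  intro l _; positivity

private theorem mnx_ra_mono {C K : ℝ} (hC : 0 ≤ C) (h : C ≤ K) (n : ℕ) : ra C n ≤ ra K n := by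
  unfold ra
  apply Finset.prod_le_prod
  · intro l _; positivity
  · intro l _; gcongr

private theorem mnx_w1_nonneg {C : ℝ} (hC : 0 ≤ C) (n : ℕ) : 0 ≤ w1 C n := by
  unfold w1
  apply Finset.prod_nonneg
  intro l _; positivity

private theorem mnx_w1_mono {C K : ℝ} (hC : 0 ≤ C) (h : C ≤ K) (n : ℕ) : w1 C n ≤ w1 K n := by
  unfold w1
  apply Finset.prod_le_prod
  · intro l _; positivity
  · intro l _; gcongr

private theorem mnx_psx_nonneg (x : Fin 10 → ℤ) (l : ℕ) : 0 ≤ psx x l := by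
  unfold psx
  split_ifs <;> norm_num

private theorem mnx_AA {z : ℝ} (hz : 0 ≤ z) {i a : ℕ} (ha : a ∈ AA z i) :
    1 ≤ a ∧ (a : ℝ) ≤ z ∧ Squarefree a := by
  cases i with
  | zero =>
    unfold AA at ha
    rw [Finset.mem_filter, Finset.mem_Icc] at ha
    exact ⟨ha.1.1, (Nat.le_floor_iff hz).1 ha.1.2, ha.2⟩
  | succ i =>
    unfold AA at ha
    rw [Finset.mem_filter, Finset.mem_Icc] at ha
    exact ⟨ha.1.1, (Nat.le_floor_iff hz).1 ha.1.2, ha.2.1⟩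

private theorem mnx_logww {z : ℝ} (hz : 2 ≤ z) (i : ℕ) : 0 < Real.log (ww z i) := by
  unfold ww
  rw [Real.log_exp]
  have : 0 < Real.log z := Real.log_pos (by linarith)
  positivity

private theorem mnx_gg_nonneg (n : ℕ) : 0 ≤ gg n := by
  unfold gg
  apply Finset.prod_nonneg
  intro l hl
  have h2 : 2 ≤ l := (Nat.prime_of_mem_primeFactors hl).two_le
  have h2' : (2 : ℝ) ≤ l := by exact_mod_cast h2
  apply inv_nonneg.2
  have : 1 / (l : ℝ) ≤ 1 := by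
    rw [div_le_one (by linarith)]
    linarith
  linarith

private theorem mnx_Sg_nonneg {z κ : ℝ} (hz : 2 ≤ z) (x : Fin 10 → ℤ) (D : ℕ) :
    0 ≤ Sg z κ (psx x) D := by
  unfold Sg
  apply Finset.sum_nonneg
  intro i _
  have h1 := mnx_logww hz i
  apply mul_nonneg
  · positivity
  · apply Finset.sum_nonneg
    intro a _
    apply mul_nonneg
    · positivity
    · exact Finset.prod_nonneg fun l _ => mnx_psx_nonneg x l

open Classical in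
private theorem mnx_key {δ δ1 C0 T1 : ℝ} (hC0 : 1 ≤ C0) (hcl : ClP δ δ1 C0 T1)
    {A c2 c5 c6 κ K Cs : ℝ} (h25 : c2 + c5 + c6 ≤ δ1) (hK : C0 ≤ K)
    {T : ℝ} (hT : T1 ≤ T) (hT1 : 1 ≤ T) (hz : 2 ≤ T ^ c2)
    (hs4 : ∀ N : ℕ, ∑ i ∈ range N, ((2 : ℝ) ^ (κ * 2 ^ i) / Real.log (ww (T ^ c2) i)) *
      ∑ a ∈ AA (T ^ c2) i, gg a ^ 2 * ra K a / (a : ℝ) ≤ Cs)
    {ρ R : ℝ} {τ Y : Fin 10 → ℝ} {j : Fin 10} (hscl : Scl T δ δ1 ρ R τ) (hρ : 0 < ρ) (hR : 0 < R)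
    {n0 n1 : ℕ} (hn0 : Squarefree n0) (hn1 : n1 ≠ 0) (hco : Nat.Coprime n0 n1)
    (hn0T : (n0 : ℝ) ≤ T ^ c6) (hn1T : (n1 : ℝ) ≤ T ^ c5) (S : Finset (Fin 10 → ℤ))
    (hS : ∀ x ∈ S, Cel T A ρ R τ Y j x) :
    ∑ x ∈ S.filter (fun x => n0 ∣ D2 x ∧ An n1 x), Sg (T ^ c2) κ (psx x) (D2 x) ≤
      C0 * (ρ ^ 9 / R) * (r0 K n0 * r1 K n1) * Cs := by
  have hC0' : 0 ≤ C0 := by linarith
  have hT0 : 0 < T := by linarith
  set z : ℝ := T ^ c2 with hzdef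
  have hz0 : 0 ≤ z := by linarith
  have hex : ∑ x ∈ S.filter (fun x => n0 ∣ D2 x ∧ An n1 x), Sg z κ (psx x) (D2 x) =
      ∑ i ∈ range (NL z), ((2 : ℝ) ^ (κ * 2 ^ i) / Real.log (ww z i)) *
        ∑ a ∈ AA z i, (gg a ^ 2 / (a : ℝ)) *
          ∑ x ∈ S.filter (fun x => n0 ∣ D2 x ∧ An n1 x ∧ Nat.Coprime a (D2 x)),
            ∏ l ∈ a.primeFactors, psx x l := by
    unfold Sg
    rw [Finset.sum_comm]
    apply Finset.sum_congr rfl
    intro i _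
    rw [← Finset.mul_sum]
    congr 1
    simp_rw [Finset.sum_filter]
    simp_rw [← Finset.sum_filter (s := S)]
    rw [Finset.sum_comm]
    apply Finset.sum_congr rfl
    intro a _
    rw [Finset.mul_sum, Finset.sum_filter, Finset.sum_filter]
    apply Finset.sum_congr rfl
    intro x _
    by_cases h1 : n0 ∣ D2 x <;> by_cases h2 : An n1 x <;> by_cases h3 : Nat.Coprime a (D2 x) <;>
      simp [h1, h2, h3]
  rw [hex]
  have hρR : 0 ≤ ρ ^ 9 / R := by positivity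
  have hprod : T ^ c6 * T ^ c5 * T ^ c2 ≤ T ^ δ1 := by
    rw [← Real.rpow_add hT0, ← Real.rpow_add hT0]
    exact Real.rpow_le_rpow_of_exponent_le hT1 (by linarith)
  have hinner : ∀ i ∈ range (NL z), ∀ a ∈ AA z i,
      (gg a ^ 2 / (a : ℝ)) *
          ∑ x ∈ S.filter (fun x => n0 ∣ D2 x ∧ An n1 x ∧ Nat.Coprime a (D2 x)),
            ∏ l ∈ a.primeFactors, psx x l ≤
        (C0 * (ρ ^ 9 / R) * (r0 K n0 * r1 K n1)) * (gg a ^ 2 * ra K a / (a : ℝ)) := by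
    intro i _ a ha
    obtain ⟨ha1, haz, hasq⟩ := mnx_AA hz0 ha
    have hle : ((n0 * n1 * a : ℕ) : ℝ) ≤ T ^ δ1 := by
      push_cast
      refine le_trans ?_ hprod
      gcongr
    have h := hcl T hT A ρ R τ Y j hscl n0 n1 a hn0 hn1 hasq hco hle S hS
    have h' : ∑ x ∈ S.filter (fun x => n0 ∣ D2 x ∧ An n1 x ∧ Nat.Coprime a (D2 x)),
            ∏ l ∈ a.primeFactors, psx x l ≤ C0 * (ρ ^ 9 / R) * (r0 K n0 * r1 K n1 * ra K a) := by
      refine le_trans (le_of_eq ?_) (le_trans h ?_)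
      · congr 1
      · have e0 := mnx_r0_mono hC0' hK n0
        have e1 := mnx_r1_mono hC0' hK n1
        have e2 := mnx_ra_mono hC0' hK a
        have f0 := mnx_r0_nonneg hC0' n0
        have f1 := mnx_r1_nonneg hC0' n1
        have f2 := mnx_ra_nonneg hC0' a
        have g0 := mnx_r0_nonneg (le_trans hC0' hK) n0
        have g1 := mnx_r1_nonneg (le_trans hC0' hK) n1
        apply mul_le_mul_of_nonneg_left _ (by positivity)
        apply mul_le_mul _ e2 f2 (by positivity)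
        exact mul_le_mul e0 e1 f1 g0
    have ha0 : (0 : ℝ) < a := by exact_mod_cast ha1
    calc (gg a ^ 2 / (a : ℝ)) *
          ∑ x ∈ S.filter (fun x => n0 ∣ D2 x ∧ An n1 x ∧ Nat.Coprime a (D2 x)),
            ∏ l ∈ a.primeFactors, psx x l
        ≤ (gg a ^ 2 / (a : ℝ)) * (C0 * (ρ ^ 9 / R) * (r0 K n0 * r1 K n1 * ra K a)) :=
          mul_le_mul_of_nonneg_left h' (by positivity)
      _ = (C0 * (ρ ^ 9 / R) * (r0 K n0 * r1 K n1)) * (gg a ^ 2 * ra K a / (a : ℝ)) := by ring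
  have hK0 : 0 ≤ K := le_trans hC0' hK
  have g0 := mnx_r0_nonneg hK0 n0
  have g1 := mnx_r1_nonneg hK0 n1
  calc ∑ i ∈ range (NL z), ((2 : ℝ) ^ (κ * 2 ^ i) / Real.log (ww z i)) *
        ∑ a ∈ AA z i, (gg a ^ 2 / (a : ℝ)) *
          ∑ x ∈ S.filter (fun x => n0 ∣ D2 x ∧ An n1 x ∧ Nat.Coprime a (D2 x)),
            ∏ l ∈ a.primeFactors, psx x l
      ≤ ∑ i ∈ range (NL z), ((2 : ℝ) ^ (κ * 2 ^ i) / Real.log (ww z i)) *
        ∑ a ∈ AA z i, (C0 * (ρ ^ 9 / R) * (r0 K n0 * r1 K n1)) * (gg a ^ 2 * ra K a / (a : ℝ)) := by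
        apply Finset.sum_le_sum
        intro i hi
        have := mnx_logww hz i
        apply mul_le_mul_of_nonneg_left _ (by positivity)
        exact Finset.sum_le_sum (hinner i hi)
    _ = (C0 * (ρ ^ 9 / R) * (r0 K n0 * r1 K n1)) *
          ∑ i ∈ range (NL z), ((2 : ℝ) ^ (κ * 2 ^ i) / Real.log (ww z i)) *
            ∑ a ∈ AA z i, gg a ^ 2 * ra K a / (a : ℝ) := by
        rw [Finset.mul_sum]
        apply Finset.sum_congr rfl
        intro i _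
        rw [← Finset.mul_sum]
        ring
    _ ≤ (C0 * (ρ ^ 9 / R) * (r0 K n0 * r1 K n1)) * Cs := by
        apply mul_le_mul_of_nonneg_left (hs4 _) (by positivity)

open Classical in
theorem mnx_aux {δ δ1 C0 T1 : ℝ} (hC0 : 1 ≤ C0) (hcl : ClP δ δ1 C0 T1)
    (A c2 c5 c6 C1 κ : ℝ) (hA : 0 < A) (hc2 : 0 < c2) (hc5 : 0 < c5) (h56 : c5 ≤ c6 / 8)
    (h25 : c2 + c5 + c6 ≤ δ1) (hC1 : 1 ≤ C1) (hκ : 0 ≤ κ) :
    ∃ C T0 : ℝ, 0 < C ∧ 2 ≤ T0 ∧ T1 ≤ T0 ∧ ∀ T : ℝ, T0 ≤ T → 2 ≤ T ^ c2 →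
    ∀ (ρ R : ℝ) (τ Y : Fin 10 → ℝ) (j : Fin 10), Scl T δ δ1 ρ R τ → ∀ S : Finset (Fin 10 → ℤ),
    (∀ x ∈ S, Cel T A ρ R τ Y j x ∧ (VV (T ^ c2) (D2 x) (vx x) : ℝ) ≤ T ^ c5) →
    ∑ x ∈ S, gg (D2 x) * HH C1 (T ^ c2) (D2 x) (vx x) * Sg (T ^ c2) κ (psx x) (D2 x) ≤
      C * (ρ ^ 9 / R) := by
  obtain ⟨Cp, Tp, hCp, hTp, hp⟩ := ptx A c2 c5 c6 C1 hA hc2 hc5 h56 hC1
  set K : ℝ := max Cp C0 with hKdef
  have hKp : Cp ≤ K := le_max_left _ _
  have hK0 : C0 ≤ K := le_max_right _ _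
  have hK1 : 1 ≤ K := le_trans hCp hKp
  obtain ⟨Cs, hCs, hs1, hs2, -, hs4⟩ := srx K κ hK1 hκ
  have hc6 : 0 < c6 := by linarith
  refine ⟨Cp * C0 * Cs ^ 3 + C0 * Cs, max Tp T1, by positivity, le_trans hTp (le_max_left _ _),
    le_max_right _ _, ?_⟩
  intro T hT hz ρ R τ Y j hscl S hS
  have hTp' : Tp ≤ T := le_trans (le_max_left _ _) hT
  have hT1' : T1 ≤ T := le_trans (le_max_right _ _) hT
  have hT2 : 2 ≤ T := le_trans hTp hTp'
  have hT1'' : 1 ≤ T := by linarith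
  have hT0 : 0 < T := by linarith
  have hρ : 0 < ρ := lt_of_lt_of_le (Real.rpow_pos_of_pos hT0 _) hscl.r1
  have hR : 0 < R := lt_of_lt_of_le hρ hscl.r2
  have hρR : 0 ≤ ρ ^ 9 / R := by positivity
  have hCel : ∀ x ∈ S, Cel T A ρ R τ Y j x := fun x hx => (hS x hx).1
  have hs4' : ∀ N : ℕ, ∑ i ∈ range N, ((2 : ℝ) ^ (κ * 2 ^ i) / Real.log (ww (T ^ c2) i)) *
      ∑ a ∈ AA (T ^ c2) i, gg a ^ 2 * ra K a / (a : ℝ) ≤ Cs := fun N => hs4 (T ^ c2) N hz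
  have hkey : ∀ n0 n1 : ℕ, Squarefree n0 → n1 ≠ 0 → Nat.Coprime n0 n1 → (n0 : ℝ) ≤ T ^ c6 →
      (n1 : ℝ) ≤ T ^ c5 →
      ∑ x ∈ S.filter (fun x => n0 ∣ D2 x ∧ An n1 x), Sg (T ^ c2) κ (psx x) (D2 x) ≤
      C0 * (ρ ^ 9 / R) * (r0 K n0 * r1 K n1) * Cs := fun n0 n1 a1 a2 a3 a4 a5 =>
    mnx_key hC0 hcl h25 hK0 hT1' hT1'' hz hs4' hscl hρ hR a1 a2 a3 a4 a5 S hCel
  -- pointwise
  set N1 : ℕ := ⌊T ^ c5⌋₊ with hN1
  set N0 : ℕ := ⌊T ^ c6⌋₊ with hN0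
  have hpt : ∀ x ∈ S, gg (D2 x) * HH C1 (T ^ c2) (D2 x) (vx x) * Sg (T ^ c2) κ (psx x) (D2 x) ≤
      (Cp * (∑ n1 ∈ (Icc 1 N1).filter (fun n => An n x),
        ∑ n0 ∈ (Icc 1 N0).filter (fun n => Squarefree n ∧ n ∣ D2 x ∧ Nat.Coprime n n1),
          r0 Cp n0 * w1 Cp n1) + T ^ (-(c6 / 4))) * Sg (T ^ c2) κ (psx x) (D2 x) := by
    intro x hx
    apply mul_le_mul_of_nonneg_right _ (mnx_Sg_nonneg hz x _)
    exact hp T hTp' x (hS x hx).1.dne (hS x hx).1.dle (hS x hx).2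
  refine le_trans (Finset.sum_le_sum hpt) ?_
  have hsplit : ∑ x ∈ S, (Cp * (∑ n1 ∈ (Icc 1 N1).filter (fun n => An n x),
        ∑ n0 ∈ (Icc 1 N0).filter (fun n => Squarefree n ∧ n ∣ D2 x ∧ Nat.Coprime n n1),
          r0 Cp n0 * w1 Cp n1) + T ^ (-(c6 / 4))) * Sg (T ^ c2) κ (psx x) (D2 x) =
      Cp * (∑ n1 ∈ Icc 1 N1, w1 Cp n1 * ∑ n0 ∈ (Icc 1 N0).filter Squarefree,
        (if Nat.Coprime n0 n1 then r0 Cp n0 *
          ∑ x ∈ S.filter (fun x => n0 ∣ D2 x ∧ An n1 x), Sg (T ^ c2) κ (psx x) (D2 x) else 0)) +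
      T ^ (-(c6 / 4)) * ∑ x ∈ S, Sg (T ^ c2) κ (psx x) (D2 x) := by
    simp_rw [add_mul, Finset.sum_add_distrib]
    congr 1
    · simp_rw [mul_assoc Cp, ← Finset.mul_sum]
      congr 1
      simp_rw [Finset.sum_mul]
      simp_rw [Finset.sum_filter]
      rw [Finset.sum_comm]
      apply Finset.sum_congr rfl
      intro n1 _
      rw [Finset.mul_sum]
      have : ∀ x : Fin 10 → ℤ, (if An n1 x then ∑ n0 ∈ Icc 1 N0,
          (if Squarefree n0 ∧ n0 ∣ D2 x ∧ Nat.Coprime n0 n1 then r0 Cp n0 * w1 Cp n1 *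
            Sg (T ^ c2) κ (psx x) (D2 x) else 0) else 0) = ∑ n0 ∈ Icc 1 N0,
          (if An n1 x then (if Squarefree n0 ∧ n0 ∣ D2 x ∧ Nat.Coprime n0 n1 then
            r0 Cp n0 * w1 Cp n1 * Sg (T ^ c2) κ (psx x) (D2 x) else 0) else 0) := by
        intro x
        split_ifs
        · rfl
        · simp
      simp_rw [this]
      rw [Finset.sum_comm]
      apply Finset.sum_congr rfl
      intro n0 _
      by_cases h1 : Squarefree n0
      · by_cases h2 : Nat.Coprime n0 n1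
        · rw [if_pos h1, if_pos h2, Finset.mul_sum, Finset.mul_sum]
          apply Finset.sum_congr rfl
          intro x _
          by_cases h3 : An n1 x <;> by_cases h4 : n0 ∣ D2 x <;> simp [h1, h3, h4]
          rw [if_pos h2]
          ring
        · simp [h2]
      · simp [h1]
    · rw [Finset.mul_sum]
  rw [hsplit]
  have hA1 : ∑ n1 ∈ Icc 1 N1, w1 Cp n1 * ∑ n0 ∈ (Icc 1 N0).filter Squarefree,
        (if Nat.Coprime n0 n1 then r0 Cp n0 *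
          ∑ x ∈ S.filter (fun x => n0 ∣ D2 x ∧ An n1 x), Sg (T ^ c2) κ (psx x) (D2 x) else 0) ≤
      C0 * (ρ ^ 9 / R) * Cs ^ 3 := by
    have hCp0 : 0 ≤ Cp := by linarith
    have hK00 : 0 ≤ K := by linarith
    have hC00 : 0 ≤ C0 := by linarith
    have hCs0 : 0 ≤ Cs := by linarith
    calc ∑ n1 ∈ Icc 1 N1, w1 Cp n1 * ∑ n0 ∈ (Icc 1 N0).filter Squarefree,
        (if Nat.Coprime n0 n1 then r0 Cp n0 *
          ∑ x ∈ S.filter (fun x => n0 ∣ D2 x ∧ An n1 x), Sg (T ^ c2) κ (psx x) (D2 x) else 0)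
        ≤ ∑ n1 ∈ Icc 1 N1, w1 K n1 * ∑ n0 ∈ (Icc 1 N0).filter Squarefree,
          r0 K n0 * (C0 * (ρ ^ 9 / R) * (r0 K n0 * r1 K n1) * Cs) := by
          apply Finset.sum_le_sum
          intro n1 hn1
          rw [Finset.mem_Icc] at hn1
          have hn1T : (n1 : ℝ) ≤ T ^ c5 := (Nat.le_floor_iff (by positivity)).1 hn1.2
          apply mul_le_mul (mnx_w1_mono hCp0 hKp n1) _ _ (mnx_w1_nonneg hK00 n1)
          · apply Finset.sum_le_sum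
            intro n0 hn0
            rw [Finset.mem_filter, Finset.mem_Icc] at hn0
            have hn0T : (n0 : ℝ) ≤ T ^ c6 := (Nat.le_floor_iff (by positivity)).1 hn0.1.2
            have g0 := mnx_r0_nonneg hK00 n0
            have g1 := mnx_r1_nonneg hK00 n1
            split_ifs with hco
            · apply mul_le_mul (mnx_r0_mono hCp0 hKp n0) _ _ g0
              · exact hkey n0 n1 hn0.2 (by omega) hco hn0T hn1T
              · exact Finset.sum_nonneg fun x _ => mnx_Sg_nonneg hz x _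
            · positivity
          · apply Finset.sum_nonneg
            intro n0 _
            split_ifs
            · exact mul_nonneg (mnx_r0_nonneg hCp0 n0)
                (Finset.sum_nonneg fun x _ => mnx_Sg_nonneg hz x _)
            · exact le_refl _
      _ = C0 * (ρ ^ 9 / R) * Cs * ((∑ n1 ∈ Icc 1 N1, w1 K n1 * r1 K n1) *
            (∑ n0 ∈ (Icc 1 N0).filter Squarefree, r0 K n0 * r0 K n0)) := by
          rw [Finset.sum_mul, Finset.mul_sum]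
          apply Finset.sum_congr rfl
          intro n1 _
          rw [Finset.mul_sum, Finset.mul_sum, Finset.mul_sum]
          apply Finset.sum_congr rfl
          intro n0 _
          ring
      _ ≤ C0 * (ρ ^ 9 / R) * Cs * (Cs * Cs) := by
          apply mul_le_mul_of_nonneg_left _ (by positivity)
          apply mul_le_mul (hs2 N1) (hs1 N0) _ hCs0
          apply Finset.sum_nonneg
          intro n0 _
          exact mul_nonneg (mnx_r0_nonneg hK00 n0) (mnx_r0_nonneg hK00 n0)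
      _ = C0 * (ρ ^ 9 / R) * Cs ^ 3 := by ring
  have hA2 : T ^ (-(c6 / 4)) * ∑ x ∈ S, Sg (T ^ c2) κ (psx x) (D2 x) ≤
      C0 * (ρ ^ 9 / R) * Cs := by
    have h1 : T ^ (-(c6 / 4)) ≤ 1 := Real.rpow_le_one_of_one_le_of_nonpos hT1'' (by linarith)
    have h2 := hkey 1 1 squarefree_one one_ne_zero (by norm_num)
      (by simpa using Real.one_le_rpow hT1'' hc6.le) (by simpa using Real.one_le_rpow hT1'' hc5.le)
    have h3 : S.filter (fun x => 1 ∣ D2 x ∧ An 1 x) = S := by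
      apply Finset.filter_true_of_mem
      intro x _
      exact ⟨one_dvd _, fun i j => by simp⟩
    rw [h3] at h2
    have h4 : r0 K 1 = 1 := by simp [r0]
    have h5 : r1 K 1 = 1 := by simp [r1]
    rw [h4, h5] at h2
    have h6 : 0 ≤ ∑ x ∈ S, Sg (T ^ c2) κ (psx x) (D2 x) :=
      Finset.sum_nonneg fun x _ => mnx_Sg_nonneg hz x _
    calc T ^ (-(c6 / 4)) * ∑ x ∈ S, Sg (T ^ c2) κ (psx x) (D2 x)
        ≤ 1 * ∑ x ∈ S, Sg (T ^ c2) κ (psx x) (D2 x) := mul_le_mul_of_nonneg_right h1 h6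
      _ ≤ C0 * (ρ ^ 9 / R) * Cs := by
          rw [one_mul]
          simpa using h2
  have hCp0 : 0 ≤ Cp := by linarith
  calc Cp * (∑ n1 ∈ Icc 1 N1, w1 Cp n1 * ∑ n0 ∈ (Icc 1 N0).filter Squarefree,
        (if Nat.Coprime n0 n1 then r0 Cp n0 *
          ∑ x ∈ S.filter (fun x => n0 ∣ D2 x ∧ An n1 x), Sg (T ^ c2) κ (psx x) (D2 x) else 0)) +
      T ^ (-(c6 / 4)) * ∑ x ∈ S, Sg (T ^ c2) κ (psx x) (D2 x)
      ≤ Cp * (C0 * (ρ ^ 9 / R) * Cs ^ 3) + C0 * (ρ ^ 9 / R) * Cs :=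
        add_le_add (mul_le_mul_of_nonneg_left hA1 hCp0) hA2
    _ = (Cp * C0 * Cs ^ 3 + C0 * Cs) * (ρ ^ 9 / R) := by ring

theorem mnx {δ δ1 C0 T1 : ℝ} (hδ : 0 < δ) (hδ1 : 0 < δ1) (hC0 : 1 ≤ C0) (hcl : ClP δ δ1 C0 T1)
    (A c2 c5 c6 C1 κ : ℝ) (hA : 0 < A) (hc2 : 0 < c2) (hc5 : 0 < c5) (h56 : c5 ≤ c6 / 8)
    (h25 : c2 + c5 + c6 ≤ δ1) (hC1 : 1 ≤ C1) (hκ : 0 ≤ κ) :
    ∃ C T0 : ℝ, 0 < C ∧ 2 ≤ T0 ∧ T1 ≤ T0 ∧ ∀ T : ℝ, T0 ≤ T → 2 ≤ T ^ c2 →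
    ∀ (ρ R : ℝ) (τ Y : Fin 10 → ℝ) (j : Fin 10), Scl T δ δ1 ρ R τ → ∀ S : Finset (Fin 10 → ℤ),
    (∀ x ∈ S, Cel T A ρ R τ Y j x ∧ (VV (T ^ c2) (D2 x) (vx x) : ℝ) ≤ T ^ c5) →
    ∑ x ∈ S, gg (D2 x) * HH C1 (T ^ c2) (D2 x) (vx x) * Sg (T ^ c2) κ (psx x) (D2 x) ≤
      C * (ρ ^ 9 / R) :=
  mnx_aux hC0 hcl A c2 c5 c6 C1 κ hA hc2 hc5 h56 h25 hC1 hκ

end Pool.Agent.PP5C
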