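import Pool.Agent.PP5C.Defs

/-!
# QnA: zeros of quaternary quadratic forms over a finite field (difficulty 5)

`q = #K` is odd.  `χ = quadraticChar K`.
* (1) `#{x : x ^ 2 = u} = χ u + 1` (`quadraticChar_card_sqrts`).  `∑ u, χ u = 0` (`quadraticChar_sum_zero`).
* (2) `∑ u, χ u * χ (s - u) = -χ(-1)` for `s ≠ 0`, `= χ(-1) (q - 1)` for `s = 0` (`s ≠ 0`: substitute `u = s t` to get
  `jacobiSum χ χ = -χ(-1)`: `jacobiSum_nontrivial_inv`, `χ⁻¹ = χ`; or directly: for `u ≠ 0`,
  `χ(u) χ(s - u) = χ(s / u - 1)` and `s / u - 1` runs over all elements except `-1`).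
* (3) for `a, b ≠ 0`: `n2(s) := #{(x, y) : a x² + b y² = s} = ∑_{u + v = s} (1 + χ(u a)) (1 + χ(v b))`
  `= q + χ(a b) * (2)`, i.e. `q - χ(-a b)` for `s ≠ 0`, `q + (q - 1) χ(-a b)` for `s = 0`.
* (4) diagonal form `w : Fin 4 → K`, all `w i ≠ 0`: `N = ∑ s, n2_{01}(s) n2_{23}(-s) = q³ + χ(w0 w1 w2 w3) (q² - q)`.
  Exactly one `w i = 0`: `N = q * #{a x² + b y² + c z² = 0} = q * ∑ z, n2(-c z²) = q * (q² )`.
* (5) general symmetric `M`: `Q(v) = v ⬝ᵥ M *ᵥ v` is equivalent to a diagonal form:
  `QuadraticForm.equivalent_weightedSumSquares` (needs `Invertible (2 : K)`), i.e. there is `P` with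
  `det P ≠ 0` and `Pᵀ M P = diagonal w` (e.g. via `QuadraticMap.toMatrix'`, `QuadraticMap.toMatrix'_comp`; the
  associated bilinear form of `Q` has matrix `M` because `M` is symmetric and `2` is invertible).  Then
  `#{v : Q v = 0}` is the number of zeros of the diagonal form, `∏ w = (det P)² det M`, so `det M ≠ 0` iff all
  `w i ≠ 0` and `det M` is a square iff `∏ w` is; if `det M = 0` and `adj M ≠ 0` then
  `adj (Pᵀ M P) = adj P * adj M * adj Pᵀ ≠ 0`, and the adjugate of `diagonal w` is the diagonal of the products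
  of three of the `w i`: so exactly one `w i` is `0`.
An alternative to (5) is elementary elimination (complete the square), if you prefer.
-/

set_option autoImplicit false

namespace Pool.Agent.PP5C

open Finset Pool.Agent.PPS

private lemma qnA_ring {K : Type} [Field K] (h2 : (2 : K) ≠ 0) : ringChar K ≠ 2 := by
  intro h
  have h3 : ((2 : ℕ) : K) = 0 := (ringChar.spec K 2).mpr (by rw [h])
  exact h2 (by exact_mod_cast h3)

section
variable {K : Type} [Field K] [Fintype K] [DecidableEq K]

private lemma qnA_conv (h2 : (2 : K) ≠ 0) (s : K) :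
    ∑ u : K, quadraticChar K u * quadraticChar K (s - u) =
      (if s = 0 then quadraticChar K (-1) * (Fintype.card K - 1) else - quadraticChar K (-1)) := by
  split_ifs with hs
  · subst hs
    have h3 : ∀ u : K, quadraticChar K u * quadraticChar K (0 - u) =
        quadraticChar K (-1) * (1 - if u = 0 then 1 else 0) := by
      intro u
      rw [show (0 - u : K) = -1 * u by ring, map_mul]
      split_ifs with hu
      · rw [hu]; simp
      · have h4 := quadraticChar_sq_one hu
        linear_combination quadraticChar K (-1) * h4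
    rw [Finset.sum_congr rfl fun u _ => h3 u, ← Finset.mul_sum, Finset.sum_sub_distrib]
    simp
  · have h3 := Equiv.sum_comp (Equiv.mulLeft₀ s hs)
      (fun u : K => quadraticChar K u * quadraticChar K (s - u))
    rw [← h3]
    have h4 : ∀ t : K, quadraticChar K ((Equiv.mulLeft₀ s hs) t) *
        quadraticChar K (s - (Equiv.mulLeft₀ s hs) t) =
        quadraticChar K t * quadraticChar K (1 - t) := by
      intro t
      rw [show (Equiv.mulLeft₀ s hs) t = s * t from rfl, show s - s * t = s * (1 - t) by ring,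
        map_mul, map_mul]
      have h4 := quadraticChar_sq_one hs
      linear_combination (quadraticChar K t * quadraticChar K (1 - t)) * h4
    rw [Finset.sum_congr rfl fun u _ => h4 u]
    have h5 := jacobiSum_nontrivial_inv (quadraticChar_ne_one (qnA_ring h2))
    rw [(quadraticChar_isQuadratic K).inv] at h5
    exact h5

private lemma qnA_sq (h2 : (2 : K) ≠ 0) (a : K) :
    ((univ.filter fun x : K => x ^ 2 = a).card : ℤ) = quadraticChar K a + 1 := by
  have h := quadraticChar_card_sqrts (qnA_ring h2) a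
  rw [← h]
  congr 2
  ext x
  simp

private lemma qnA_one (h2 : (2 : K) ≠ 0) (b t : K) (hb : b ≠ 0) :
    ((univ.filter fun y : K => b * y ^ 2 = t).card : ℤ) = 1 + quadraticChar K (b * t) := by
  have h3 : (univ.filter fun y : K => b * y ^ 2 = t) = univ.filter fun y : K => y ^ 2 = t / b := by
    ext y
    simp only [mem_filter, mem_univ, true_and]
    rw [eq_div_iff hb, mul_comm]
  rw [h3, qnA_sq h2, add_comm]
  congr 1
  rw [show b * t = b ^ 2 * (t / b) by field_simp, map_mul, quadraticChar_sq_one' hb, one_mul]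

private lemma qnA_two (h2 : (2 : K) ≠ 0) (a b s : K) (ha : a ≠ 0) (hb : b ≠ 0) :
    ((univ.filter fun p : K × K => a * p.1 ^ 2 + b * p.2 ^ 2 = s).card : ℤ) =
      Fintype.card K - quadraticChar K (-(a * b)) +
        (if s = 0 then (Fintype.card K : ℤ) * quadraticChar K (-(a * b)) else 0) := by
  have h3 : ((univ.filter fun p : K × K => a * p.1 ^ 2 + b * p.2 ^ 2 = s).card : ℤ) =
      ∑ x : K, (1 + quadraticChar K (b * (s - a * x ^ 2))) := by
    rw [Finset.card_filter, Fintype.sum_prod_type]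
    push_cast
    refine Finset.sum_congr rfl fun x _ => ?_
    rw [← qnA_one h2 b _ hb, Finset.card_filter]
    push_cast
    refine Finset.sum_congr rfl fun y _ => ?_
    congr 1
    simp only [eq_iff_iff]
    constructor
    · intro h; linear_combination h
    · intro h; linear_combination h
  have h4 : ∀ f : K → ℤ, ∑ x : K, f (x ^ 2) = ∑ u : K, (quadraticChar K u + 1) * f u := by
    intro f
    have h5 : ∀ x : K, f (x ^ 2) = ∑ u : K, if x ^ 2 = u then f u else 0 := by
      intro x; simp
    rw [Finset.sum_congr rfl fun x _ => h5 x, Finset.sum_comm]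
    refine Finset.sum_congr rfl fun u _ => ?_
    rw [← qnA_sq h2, ← Finset.sum_filter, Finset.sum_const, nsmul_eq_mul]
  rw [h3, Finset.sum_add_distrib, h4 (fun u => quadraticChar K (b * (s - a * u)))]
  have h6 : ∑ u : K, quadraticChar K (b * (s - a * u)) = 0 := by
    have h7 : Function.Bijective fun u : K => b * (s - a * u) := by
      rw [← Finite.injective_iff_bijective]
      intro u v huv
      have h8 := mul_left_cancel₀ hb huv
      exact mul_left_cancel₀ ha (by linear_combination -h8)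
    rw [← quadraticChar_sum_zero (qnA_ring h2)]
    exact h7.sum_comp (fun v => quadraticChar K v)
  have h8 : ∑ u : K, quadraticChar K u * quadraticChar K (b * (s - a * u)) =
      quadraticChar K (a * b) * ∑ v : K, quadraticChar K v * quadraticChar K (s - v) := by
    have h9 := Equiv.sum_comp (Equiv.mulLeft₀ a ha)
      (fun v : K => quadraticChar K v * quadraticChar K (s - v))
    rw [← h9, Finset.mul_sum]
    refine Finset.sum_congr rfl fun u _ => ?_
    rw [show (Equiv.mulLeft₀ a ha) u = a * u from rfl, map_mul, map_mul, map_mul]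
    have h4 := quadraticChar_sq_one ha
    linear_combination (-(quadraticChar K u * quadraticChar K b * quadraticChar K (s - a * u))) * h4
  have h10 : ∑ u : K, (quadraticChar K u + 1) * quadraticChar K (b * (s - a * u)) =
      quadraticChar K (a * b) * ∑ v : K, quadraticChar K v * quadraticChar K (s - v) := by
    rw [← h8, ← add_zero (∑ u : K, quadraticChar K u * quadraticChar K (b * (s - a * u))), ← h6,
      ← Finset.sum_add_distrib]
    refine Finset.sum_congr rfl fun u _ => ?_
    ring
  rw [h10, qnA_conv h2, show -(a * b) = -1 * (a * b) by ring, map_mul (quadraticChar K) (-1)]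
  split_ifs with hs
  · simp; ring
  · simp; ring


/-- splitting the four coordinates -/
private def qnA_eq : (Fin 4 → K) ≃ (K × K) × (K × K) where
  toFun v := ((v 0, v 1), (v 2, v 3))
  invFun p := ![p.1.1, p.1.2, p.2.1, p.2.2]
  left_inv v := by
    funext i
    fin_cases i <;> rfl
  right_inv p := rfl

private lemma qnA_four (h2 : (2 : K) ≠ 0) (w : Fin 4 → K) (hw2 : w 2 ≠ 0) (hw3 : w 3 ≠ 0) :
    ((univ.filter fun v : Fin 4 → K => ∑ i, w i * v i ^ 2 = 0).card : ℤ) =
      (Fintype.card K : ℤ) ^ 2 * (Fintype.card K - quadraticChar K (-(w 2 * w 3))) +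
      Fintype.card K * quadraticChar K (-(w 2 * w 3)) *
        (univ.filter fun p : K × K => w 0 * p.1 ^ 2 + w 1 * p.2 ^ 2 = 0).card := by
  have h3 : ((univ.filter fun v : Fin 4 → K => ∑ i, w i * v i ^ 2 = 0).card : ℤ) =
      ∑ p : K × K, ((univ.filter fun r : K × K =>
        w 2 * r.1 ^ 2 + w 3 * r.2 ^ 2 = -(w 0 * p.1 ^ 2 + w 1 * p.2 ^ 2)).card : ℤ) := by
    rw [Finset.card_filter]
    push_cast
    rw [← Equiv.sum_comp qnA_eq.symm, Fintype.sum_prod_type]
    refine Finset.sum_congr rfl fun p _ => ?_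
    rw [Finset.card_filter]
    push_cast
    refine Finset.sum_congr rfl fun r _ => ?_
    have h4 : ∑ i, w i * (qnA_eq.symm (p, r)) i ^ 2 =
        w 0 * p.1 ^ 2 + w 1 * p.2 ^ 2 + w 2 * r.1 ^ 2 + w 3 * r.2 ^ 2 := by
      rw [Fin.sum_univ_four]
      rfl
    rw [h4]
    congr 1
    simp only [eq_iff_iff]
    constructor
    · intro h; linear_combination h
    · intro h; linear_combination h
  rw [h3]
  have h5 : ∀ p : K × K, ((univ.filter fun r : K × K =>
        w 2 * r.1 ^ 2 + w 3 * r.2 ^ 2 = -(w 0 * p.1 ^ 2 + w 1 * p.2 ^ 2)).card : ℤ) =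
      (Fintype.card K - quadraticChar K (-(w 2 * w 3))) +
        (Fintype.card K * quadraticChar K (-(w 2 * w 3))) *
          (if w 0 * p.1 ^ 2 + w 1 * p.2 ^ 2 = 0 then 1 else 0) := by
    intro p
    rw [qnA_two h2 _ _ _ hw2 hw3, mul_ite, mul_one, mul_zero]
    simp only [neg_eq_zero]
  rw [Finset.sum_congr rfl fun p _ => h5 p, Finset.sum_add_distrib, ← Finset.mul_sum,
    Finset.sum_const, Finset.card_filter, nsmul_eq_mul]
  push_cast
  rw [Finset.card_univ, Fintype.card_prod]
  push_cast
  ring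

private lemma qnA_full (h2 : (2 : K) ≠ 0) (w : Fin 4 → K) (hw : ∀ i, w i ≠ 0) :
    ((univ.filter fun v : Fin 4 → K => ∑ i, w i * v i ^ 2 = 0).card : ℤ) =
      (Fintype.card K : ℤ) ^ 3 + quadraticChar K (∏ i, w i) *
        ((Fintype.card K : ℤ) ^ 2 - Fintype.card K) := by
  rw [qnA_four h2 w (hw 2) (hw 3), qnA_two h2 _ _ _ (hw 0) (hw 1), if_pos rfl]
  have h3 : quadraticChar K (∏ i, w i) =
      quadraticChar K (-(w 0 * w 1)) * quadraticChar K (-(w 2 * w 3)) := by
    rw [← map_mul, Fin.prod_univ_four]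
    congr 1
    ring
  rw [h3]
  ring

private lemma qnA_half (h2 : (2 : K) ≠ 0) (w : Fin 4 → K) (hw2 : w 2 ≠ 0) (hw3 : w 3 ≠ 0)
    (h : (w 0 = 0 ∧ w 1 ≠ 0) ∨ (w 0 ≠ 0 ∧ w 1 = 0)) :
    ((univ.filter fun v : Fin 4 → K => ∑ i, w i * v i ^ 2 = 0).card : ℤ) =
      (Fintype.card K : ℤ) ^ 3 := by
  rw [qnA_four h2 w hw2 hw3]
  have h3 : ((univ.filter fun p : K × K => w 0 * p.1 ^ 2 + w 1 * p.2 ^ 2 = 0).card : ℤ) =
      Fintype.card K := by
    rcases h with ⟨h0, h1⟩ | ⟨h0, h1⟩
    · have h4 : (univ.filter fun p : K × K => w 0 * p.1 ^ 2 + w 1 * p.2 ^ 2 = 0) =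
          (univ : Finset K).map ⟨fun x => (x, (0 : K)), fun x y hxy => (Prod.ext_iff.mp hxy).1⟩ := by
        ext ⟨x, y⟩
        simp only [mem_filter, mem_univ, true_and, h0, mem_map, Function.Embedding.coeFn_mk,
          Prod.mk.injEq, zero_mul, zero_add, mul_eq_zero, h1, false_or,
          ne_eq, OfNat.ofNat_ne_zero, not_false_eq_true, pow_eq_zero_iff]
        constructor
        · intro h; exact ⟨x, rfl, h.symm⟩
        · rintro ⟨_, _, h⟩; exact h.symm
      rw [h4, Finset.card_map, Finset.card_univ]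
    · have h4 : (univ.filter fun p : K × K => w 0 * p.1 ^ 2 + w 1 * p.2 ^ 2 = 0) =
          (univ : Finset K).map ⟨fun x => ((0 : K), x), fun x y hxy => (Prod.ext_iff.mp hxy).2⟩ := by
        ext ⟨x, y⟩
        simp only [mem_filter, mem_univ, true_and, h1, mem_map, Function.Embedding.coeFn_mk,
          Prod.mk.injEq, zero_mul, add_zero, mul_eq_zero, h0, false_or,
          ne_eq, OfNat.ofNat_ne_zero, not_false_eq_true, pow_eq_zero_iff]
        constructor
        · intro h; exact ⟨y, h.symm, rfl⟩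
        · rintro ⟨_, h, _⟩; exact h.symm
      rw [h4, Finset.card_map, Finset.card_univ]
  rw [h3]
  ring

private lemma qnA_three (h2 : (2 : K) ≠ 0) (w : Fin 4 → K) (i : Fin 4) (hi : w i = 0)
    (hw : ∀ j, j ≠ i → w j ≠ 0) :
    ((univ.filter fun v : Fin 4 → K => ∑ i, w i * v i ^ 2 = 0).card : ℤ) =
      (Fintype.card K : ℤ) ^ 3 := by
  have hmain : ∀ w : Fin 4 → K, w 2 ≠ 0 → w 3 ≠ 0 →
    ((w 0 = 0 ∧ w 1 ≠ 0) ∨ (w 0 ≠ 0 ∧ w 1 = 0)) →
    ((univ.filter fun v : Fin 4 → K => ∑ i, w i * v i ^ 2 = 0).card : ℤ) =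
      (Fintype.card K : ℤ) ^ 3 := fun w a b c => qnA_half h2 w a b c
  have hswap : ((univ.filter fun v : Fin 4 → K => ∑ i, w i * v i ^ 2 = 0).card : ℤ) =
      ((univ.filter fun v : Fin 4 → K => ∑ i, (w ∘ ![2, 3, 0, 1]) i * v i ^ 2 = 0).card : ℤ) := by
    congr 1
    refine Finset.card_bij (fun v _ => v ∘ ![2, 3, 0, 1]) ?_ ?_ ?_
    · intro v hv
      simp only [mem_filter, mem_univ, true_and, Fin.sum_univ_four] at hv ⊢
      simp
      linear_combination hv
    · intro v _ v' _ hvv
      funext j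
      have a0 := congrFun hvv 0
      have a1 := congrFun hvv 1
      have a2 := congrFun hvv 2
      have a3 := congrFun hvv 3
      simp at a0 a1 a2 a3
      fin_cases j <;> assumption
    · intro v hv
      refine ⟨v ∘ ![2, 3, 0, 1], ?_, ?_⟩
      · simp only [mem_filter, mem_univ, true_and, Fin.sum_univ_four] at hv ⊢
        simp at hv ⊢
        linear_combination hv
      · funext j
        fin_cases j <;> rfl
  fin_cases i
  · exact hmain w (hw 2 (by decide)) (hw 3 (by decide)) (Or.inl ⟨hi, hw 1 (by decide)⟩)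
  · exact hmain w (hw 2 (by decide)) (hw 3 (by decide)) (Or.inr ⟨hw 0 (by decide), hi⟩)
  · rw [hswap]
    exact hmain _ (hw 0 (by decide)) (hw 1 (by decide)) (Or.inl ⟨hi, hw 3 (by decide)⟩)
  · rw [hswap]
    exact hmain _ (hw 0 (by decide)) (hw 1 (by decide)) (Or.inr ⟨hw 2 (by decide), hi⟩)

omit [Fintype K] [DecidableEq K] in
/-- diagonalization -/
private lemma qnA_diag (h2 : (2 : K) ≠ 0) (M : Matrix (Fin 4) (Fin 4) K) (hM : M.IsSymm) :
    ∃ (P : Matrix (Fin 4) (Fin 4) K) (w : Fin 4 → K), P.det ≠ 0 ∧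
      P.transpose * M * P = Matrix.diagonal w := by
  have : Invertible (2 : K) := invertibleOfNonzero h2
  have hB : (Matrix.toBilin' M).IsSymm := Matrix.isSymm_toBilin'_iff_isSymm.mpr hM
  obtain ⟨v, hv⟩ := LinearMap.BilinForm.exists_orthogonal_basis
    (LinearMap.BilinForm.isSymm_iff.mp hB)
  have hfr : Module.finrank K (Fin 4 → K) = 4 := Module.finrank_fin_fun K
  obtain ⟨e, he⟩ : ∃ e : Module.Basis (Fin 4) K (Fin 4 → K), ∀ i j, i ≠ j →
      Matrix.toBilin' M (e i) (e j) = 0 := by
    refine ⟨v.reindex (finCongr hfr), fun i j hij => ?_⟩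
    rw [Module.Basis.reindex_apply, Module.Basis.reindex_apply]
    exact hv (fun h => hij (by simpa using h))
  refine ⟨Matrix.of fun i j => e j i, fun i => Matrix.toBilin' M (e i) (e i), ?_, ?_⟩
  · have h3 := (Pi.basisFun K (Fin 4)).isUnit_det e
    rw [Module.Basis.det_apply] at h3
    have h4 : (Pi.basisFun K (Fin 4)).toMatrix e = Matrix.of fun i j => e j i := by
      ext i j
      simp [Module.Basis.toMatrix_apply]
    rw [h4] at h3
    exact h3.ne_zero
  · ext i j
    have h5 : ((Matrix.of fun i j => e j i).transpose * M * Matrix.of fun i j => e j i) i j =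
        Matrix.toBilin' M (e i) (e j) := by
      rw [Matrix.toBilin'_apply, Matrix.mul_apply, Finset.sum_comm]
      refine Finset.sum_congr rfl fun b _ => ?_
      rw [Matrix.mul_apply, Finset.sum_mul]
      refine Finset.sum_congr rfl fun a _ => ?_
      simp
    rw [h5, Matrix.diagonal_apply]
    split_ifs with hij
    · rw [hij]
    · exact he i j hij

private lemma qnA_cnt (M P : Matrix (Fin 4) (Fin 4) K) (w : Fin 4 → K) (hP : P.det ≠ 0)
    (h : P.transpose * M * P = Matrix.diagonal w) :
    (univ.filter fun v : Fin 4 → K => ∑ i, ∑ j, M i j * v i * v j = 0).card =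
      (univ.filter fun v : Fin 4 → K => ∑ i, w i * v i ^ 2 = 0).card := by
  symm
  have hform : ∀ (A : Matrix (Fin 4) (Fin 4) K) (v : Fin 4 → K),
      ∑ i, ∑ j, A i j * v i * v j = v ⬝ᵥ (A.mulVec v) := by
    intro A v
    simp only [dotProduct, Matrix.mulVec, Finset.mul_sum]
    refine Finset.sum_congr rfl fun i _ => Finset.sum_congr rfl fun j _ => ?_
    ring
  have hinj : Function.Injective P.mulVec := by
    rw [Matrix.mulVec_injective_iff_isUnit, Matrix.isUnit_iff_isUnit_det]
    exact hP.isUnit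
  have hkey : ∀ u : Fin 4 → K, ∑ i, ∑ j, M i j * (P.mulVec u) i * (P.mulVec u) j =
      ∑ i, w i * u i ^ 2 := by
    intro u
    rw [hform, Matrix.mulVec_mulVec, ← Matrix.vecMul_transpose, ← Matrix.dotProduct_mulVec,
      Matrix.mulVec_mulVec, ← Matrix.mul_assoc, h, ← hform]
    refine Finset.sum_congr rfl fun i _ => ?_
    rw [Finset.sum_eq_single i]
    · rw [Matrix.diagonal_apply_eq]; ring
    · intro j _ hj
      rw [Matrix.diagonal_apply_ne _ hj.symm]; ring
    · intro hi; exact absurd (mem_univ i) hi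
  refine Finset.card_bij (fun u _ => P.mulVec u) ?_ ?_ ?_
  · intro u hu
    simp only [mem_filter, mem_univ, true_and] at hu ⊢
    rw [hkey, hu]
  · intro u _ u' _ huu
    exact hinj huu
  · intro v hv
    obtain ⟨u, hu⟩ := (Finite.injective_iff_surjective.mp hinj) v
    refine ⟨u, ?_, hu⟩
    simp only [mem_filter, mem_univ, true_and] at hv ⊢
    rw [← hkey, hu]
    exact hv

end

open Classical in
theorem qnA {K : Type} [Field K] [Fintype K] (h2 : (2 : K) ≠ 0)
    (M : Matrix (Fin 4) (Fin 4) K) (hM : M.IsSymm) :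
    (M.det ≠ 0 → (((univ.filter fun v : Fin 4 → K => ∑ i, ∑ j, M i j * v i * v j = 0).card : ℤ) : ℝ) =
      (Fintype.card K : ℝ) ^ 3 + (if IsSquare M.det then 1 else -1) *
        ((Fintype.card K : ℝ) ^ 2 - Fintype.card K)) ∧
    (M.det = 0 → M.adjugate ≠ 0 →
      (((univ.filter fun v : Fin 4 → K => ∑ i, ∑ j, M i j * v i * v j = 0).card : ℤ) : ℝ) =
      (Fintype.card K : ℝ) ^ 3) := by
  obtain ⟨P, w, hP, hw⟩ := qnA_diag h2 M hM
  have hc := qnA_cnt M P w hP hw
  have hdet : P.det ^ 2 * M.det = ∏ i, w i := by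
    rw [← Matrix.det_diagonal, ← hw, Matrix.det_mul, Matrix.det_mul, Matrix.det_transpose]
    ring
  constructor
  · intro hM0
    have hw0 : ∏ i, w i ≠ 0 := by
      rw [← hdet]
      exact mul_ne_zero (pow_ne_zero 2 hP) hM0
    have hw1 : ∀ i, w i ≠ 0 := fun i => Finset.prod_ne_zero_iff.mp hw0 i (mem_univ i)
    have h3 := qnA_full h2 w hw1
    have h4 : quadraticChar K (∏ i, w i) = if IsSquare M.det then 1 else -1 := by
      rw [← hdet, map_mul, quadraticChar_sq_one' hP, one_mul]
      split_ifs with hs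
      · exact (quadraticChar_one_iff_isSquare hM0).mpr hs
      · exact quadraticChar_neg_one_iff_not_isSquare.mpr hs
    rw [h4] at h3
    rw [hc, h3]
    push_cast
    split_ifs <;> simp
  · intro hM0 hadj
    have hadj' : Matrix.adjugate (Matrix.diagonal w) ≠ 0 := by
      intro h0
      rw [← hw, Matrix.adjugate_mul_distrib, Matrix.adjugate_mul_distrib] at h0
      apply hadj
      have h5 : P * (P.adjugate * (M.adjugate * P.transpose.adjugate)) * P.transpose =
          (P.det ^ 2) • M.adjugate := by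
        rw [← Matrix.mul_assoc, Matrix.mul_adjugate, Matrix.smul_mul, Matrix.one_mul,
          Matrix.smul_mul, Matrix.mul_assoc, Matrix.adjugate_mul, Matrix.det_transpose,
          Matrix.mul_smul, Matrix.mul_one, smul_smul, sq]
      rw [h0, Matrix.mul_zero, Matrix.zero_mul] at h5
      exact (smul_eq_zero.mp h5.symm).resolve_left (pow_ne_zero 2 hP)
    rw [Matrix.adjugate_diagonal] at hadj'
    obtain ⟨i, hi⟩ : ∃ i, ∏ j ∈ univ.erase i, w j ≠ 0 := by
      by_contra hcon
      push Not at hcon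
      apply hadj'
      ext a b
      rw [Matrix.diagonal_apply]
      split_ifs
      · simp [hcon a]
      · simp
    have hwi : ∀ j, j ≠ i → w j ≠ 0 := fun j hj =>
      Finset.prod_ne_zero_iff.mp hi j (mem_erase.mpr ⟨hj, mem_univ j⟩)
    have hi0 : w i = 0 := by
      have h6 : ∏ j, w j = 0 := by rw [← hdet, hM0, mul_zero]
      rw [← Finset.mul_prod_erase univ w (mem_univ i)] at h6
      exact (mul_eq_zero.mp h6).resolve_right hi
    have h3 := qnA_three h2 w i hi0 hwi
    rw [hc, h3]
    push_cast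
    rfl

end Pool.Agent.PP5C
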