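import Pool.Agent.PP5C.SsE
import Pool.Agent.PP5C.CtP
import Pool.Agent.PP5C.Crt
import Pool.Agent.MRS.SelA

/-!
# Siv: four-dimensional Selberg sieve (difficulty 5)

`I` = the primes `l ≤ w` not dividing `M`, `N l = nn (Fin 4) l (Om l)`, `n l = l ^ 4 / N l` (real).  From
`l³ - l² ≤ N l ≤ l³ + l²`: `1 < l² / (l + 1) ≤ n l ≤ l² / (l - 1) ≤ l²`.
`MRS.selberg_abs I n (D := w)` gives `lam` with `lam ∅ = 1`, `|lam T| ≤ w`, `lam T ≠ 0 → T ⊆ I ∧ ∏ n ≤ w`,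
`∑ ∑ lam T lam T' / ∏_{T ∪ T'} n = 1 / SS`.
* `l ≤ (l² / (l + 1)) ^ 3` for `l ≥ 2` (`(4/3)^3 > 2`; `l ≥ 3`: `l (l+1)^3 ≤ l^6`), so `∏_{T} l ≤ w ^ 3` whenever
  `lam T ≠ 0`, and `d = ∏_{T ∪ T'} l ≤ w ^ 6`.
* `#S ≤ ∑ m ∈ bx, (∑ T, lam T [∀ l ∈ T, Om l m])² = ∑ T T', lam T lam T' #{m : ∀ l ∈ T ∪ T', Om l m}`
  (for `m ∈ S` only `T = ∅` contributes: the square is `1`).
* `ctp` with `d = ∏_{T ∪ T'} l ≤ w ^ 6 ≤ H` and `nn_sqf` (product of the `Per l` properties is `Per d`):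
  `#{..} = H ^ 4 ∏_{T ∪ T'} 1 / n l + err`, `|err| ≤ 15 (H / d) ^ 3 ∏ N l ≤ 15 H ^ 3 d ≤ 15 H ^ 3 w ^ 6`
  (`∏ N l ≤ d ^ 4`).
* main term `H ^ 4 / SS`; error `≤ (number of T)² w² * 15 H ^ 3 w ^ 6 ≤ 15 H ^ 3 w ^ 14` (the sets `T` with
  `lam T ≠ 0` are determined by `∏_T l ≤ w ^ 3`, so there are at most `w ^ 3` of them), at most
  `15 H ^ 4 / w` when `w ^ 15 ≤ H`: take `c = 16`.  `1 / w ≤ 1 / log w`, `1 ≤ gg M` (`gg_one_le`).
* `SS I n w ≥ ∑ d ≤ √w squarefree, (d, M) = 1, φ(d)/d²`: to `d` attach `T = d.primeFactors ⊆ I`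
  (`l ≤ d ≤ √w ≤ w`), `∏_T n ≤ d² ≤ w`, and `1 / (n l - 1) ≥ (l - 1) / (l² - l + 1) ≥ (l - 1) / l²`
  `= φ(l) / l²`.  `sse` with `y = √w`: `SS ≥ c log w / (2 gg M)`.
-/

set_option autoImplicit false

namespace Pool.Agent.PP5C

open Finset Pool.Agent.PPS

private theorem Siv_union {T T' : Finset ℕ} (hT : ∀ l ∈ T, l.Prime) :
    ∏ l ∈ T ∪ T', (l : ℝ) ≤ (∏ l ∈ T, (l : ℝ)) * ∏ l ∈ T', (l : ℝ) := by
  rw [← Finset.prod_union_inter]
  have h1 : (1 : ℝ) ≤ ∏ l ∈ T ∩ T', (l : ℝ) := by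
    have : ∏ _l ∈ T ∩ T', (1 : ℝ) ≤ ∏ l ∈ T ∩ T', (l : ℝ) :=
      Finset.prod_le_prod (fun _ _ => zero_le_one) (fun l hl => by
        have := (hT l (Finset.mem_inter.1 hl).1).one_lt.le
        exact_mod_cast this)
    rwa [Finset.prod_const_one] at this
  have h2 : (0 : ℝ) ≤ ∏ l ∈ T ∪ T', (l : ℝ) := Finset.prod_nonneg fun l _ => by positivity
  exact le_mul_of_one_le_right h2 h1

private theorem Siv_sel (A : Fin 4 → ℤ) (H : ℕ) (w : ℝ) (hw : 2 ≤ w) (hH : w ^ 16 ≤ (H : ℝ))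
    (I : Finset ℕ) (hI : ∀ l ∈ I, l.Prime) (Om : ℕ → (Fin 4 → ℤ) → Prop)
    (hPer : ∀ l ∈ I, Per l (Om l)) (n : ℕ → ℝ) (hn1 : ∀ l ∈ I, 1 < n l)
    (hnn : ∀ l ∈ I, (nn (Fin 4) l (Om l) : ℝ) = (l : ℝ) ^ 4 / n l)
    (hprod : ∀ T ⊆ I, ∏ l ∈ T, n l ≤ w → ∏ l ∈ T, (l : ℝ) ≤ w ^ 3)
    (S : Finset (Fin 4 → ℤ)) (hS : ∀ m ∈ S, m ∈ bx A (fun _ => H) ∧ ∀ l ∈ I, ¬ Om l m) :
    (S.card : ℝ) ≤ (H : ℝ) ^ 4 / MRS.SS I n w + 15 * (H : ℝ) ^ 3 * w ^ 14 := by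
  classical
  have hw0 : 0 < w := by linarith
  have hw1 : 1 ≤ w := by linarith
  obtain ⟨lam, hlam0, hlamb, hlams, hlamS⟩ := MRS.selberg_abs I n hn1 w hw1
  obtain ⟨B, hB⟩ : ∃ B : Finset (Fin 4 → ℤ), B = bx A (fun _ => H) := ⟨_, rfl⟩
  let a : Finset ℕ → (Fin 4 → ℤ) → ℝ := fun T m => if (∀ l ∈ T, Om l m) then lam T else 0
  -- step A
  have hA : (S.card : ℝ) ≤ ∑ m ∈ B, (∑ T ∈ I.powerset, a T m) ^ 2 := by
    have h1 : ∀ m ∈ S, (∑ T ∈ I.powerset, a T m) ^ 2 = 1 := by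
      intro m hm
      have : ∑ T ∈ I.powerset, a T m = a ∅ m := by
        apply Finset.sum_eq_single ∅
        · intro T hT hTne
          obtain ⟨l, hl⟩ := Finset.nonempty_iff_ne_empty.2 hTne
          simp only [a]
          rw [if_neg]
          intro h
          exact (hS m hm).2 l (Finset.mem_powerset.1 hT hl) (h l hl)
        · intro h
          exact absurd (Finset.empty_mem_powerset I) h
      rw [this]
      simp [a, hlam0]
    have h2 : (S.card : ℝ) = ∑ m ∈ S, (∑ T ∈ I.powerset, a T m) ^ 2 := by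
      rw [Finset.sum_congr rfl h1, Finset.sum_const, nsmul_eq_mul, mul_one]
    rw [h2]
    refine Finset.sum_le_sum_of_subset_of_nonneg ?_ (fun m _ _ => sq_nonneg _)
    intro m hm
    rw [hB]
    exact (hS m hm).1
  -- step B
  have hBx : ∑ m ∈ B, (∑ T ∈ I.powerset, a T m) ^ 2 =
      ∑ T ∈ I.powerset, ∑ T' ∈ I.powerset,
        lam T * lam T' * ((B.filter (fun m => ∀ l ∈ T ∪ T', Om l m)).card : ℝ) := by
    have h1 : ∀ m ∈ B, (∑ T ∈ I.powerset, a T m) ^ 2 =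
        ∑ T ∈ I.powerset, ∑ T' ∈ I.powerset, a T m * a T' m := by
      intro m _
      rw [sq, Finset.sum_mul_sum]
    rw [Finset.sum_congr rfl h1, Finset.sum_comm]
    refine Finset.sum_congr rfl fun T _ => ?_
    rw [Finset.sum_comm]
    refine Finset.sum_congr rfl fun T' _ => ?_
    have h2 : ∀ m ∈ B, a T m * a T' m =
        if (∀ l ∈ T ∪ T', Om l m) then lam T * lam T' else 0 := by
      intro m _
      simp only [a]
      by_cases hT : ∀ l ∈ T, Om l m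
      · by_cases hT' : ∀ l ∈ T', Om l m
        · rw [if_pos hT, if_pos hT', if_pos]
          intro l hl
          rcases Finset.mem_union.1 hl with h | h
          · exact hT l h
          · exact hT' l h
        · rw [if_pos hT, if_neg hT', mul_zero, if_neg]
          intro h
          exact hT' fun l hl => h l (Finset.mem_union_right _ hl)
      · rw [if_neg hT, zero_mul, if_neg]
        intro h
        exact hT fun l hl => h l (Finset.mem_union_left _ hl)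
    rw [Finset.sum_congr rfl h2, ← Finset.sum_filter, Finset.sum_const, nsmul_eq_mul, mul_comm]
  -- step C
  have hC : ∀ T ∈ I.powerset, ∀ T' ∈ I.powerset,
      lam T * lam T' * ((B.filter (fun m => ∀ l ∈ T ∪ T', Om l m)).card : ℝ) ≤
        (H : ℝ) ^ 4 * (lam T * lam T' / ∏ i ∈ T ∪ T', n i) +
          15 * (H : ℝ) ^ 3 * w ^ 6 * (|lam T| * |lam T'|) := by
    intro T _ T' _
    by_cases h1 : lam T = 0
    · rw [h1]; simp
    by_cases h2 : lam T' = 0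
    · rw [h2]; simp
    obtain ⟨hTI, hTn⟩ := hlams T h1
    obtain ⟨hTI', hTn'⟩ := hlams T' h2
    obtain ⟨U, hU⟩ : ∃ U, U = T ∪ T' := ⟨_, rfl⟩
    rw [← hU]
    have hUI : U ⊆ I := by rw [hU]; exact Finset.union_subset hTI hTI'
    have hUp : ∀ l ∈ U, l.Prime := fun l hl => hI l (hUI hl)
    obtain ⟨d, hd⟩ : ∃ d : ℕ, d = ∏ l ∈ U, l := ⟨_, rfl⟩
    have hdpos : 1 ≤ d := by
      rw [hd]; exact Finset.prod_pos fun l hl => (hUp l hl).pos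
    have hdr : (d : ℝ) = ∏ l ∈ U, (l : ℝ) := by rw [hd]; push_cast; rfl
    have hd6 : (d : ℝ) ≤ w ^ 6 := by
      rw [hdr, hU]
      refine (Siv_union (fun l hl => hI l (hTI hl))).trans ?_
      calc (∏ l ∈ T, (l : ℝ)) * ∏ l ∈ T', (l : ℝ) ≤ w ^ 3 * w ^ 3 :=
            mul_le_mul (hprod T hTI hTn) (hprod T' hTI' hTn')
              (Finset.prod_nonneg fun l _ => by positivity) (by positivity)
        _ = w ^ 6 := by ring
    have hdH : d ≤ H := by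
      have : (d : ℝ) ≤ (H : ℝ) := hd6.trans ((pow_le_pow_right₀ hw1 (by norm_num)).trans hH)
      exact_mod_cast this
    have hPd : Per d (fun m => ∀ l ∈ U, Om l m) := by
      intro x y hxy hx l hl
      refine hPer l (hUI hl) x y ?_ (hx l hl)
      intro i
      have h3 : (l : ℤ) ∣ (d : ℤ) := by
        rw [Int.natCast_dvd_natCast, hd]
        exact Finset.dvd_prod_of_mem (fun l => l) hl
      exact h3.trans (hxy i)
    have hnnd : (nn (Fin 4) d (fun m => ∀ l ∈ U, Om l m) : ℝ) = (d : ℝ) ^ 4 / ∏ l ∈ U, n l := by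
      rw [hd, nn_sqf U hUp Om (fun l hl => hPer l (hUI hl))]
      push_cast
      rw [Finset.prod_congr rfl (fun l hl => hnn l (hUI hl)), Finset.prod_div_distrib,
        Finset.prod_pow]
    have hn1U : (1 : ℝ) ≤ ∏ l ∈ U, n l := by
      have : ∏ _l ∈ U, (1 : ℝ) ≤ ∏ l ∈ U, n l :=
        Finset.prod_le_prod (fun _ _ => zero_le_one) (fun l hl => (hn1 l (hUI hl)).le)
      rwa [Finset.prod_const_one] at this
    have hn0U : (0 : ℝ) < ∏ l ∈ U, n l := by linarith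
    have hd0 : (0 : ℝ) < d := by exact_mod_cast hdpos
    have hctp := ctp A H d hdpos hdH (fun m => ∀ l ∈ U, Om l m) hPd
    rw [hnnd] at hctp
    have hmain : ((H : ℝ) / d) ^ 4 * ((d : ℝ) ^ 4 / ∏ l ∈ U, n l) = (H : ℝ) ^ 4 / ∏ l ∈ U, n l := by
      field_simp
    have herr : 15 * ((H : ℝ) / d) ^ 3 * ((d : ℝ) ^ 4 / ∏ l ∈ U, n l) ≤
        15 * (H : ℝ) ^ 3 * w ^ 6 := by
      have e1 : (d : ℝ) ^ 4 / ∏ l ∈ U, n l ≤ (d : ℝ) ^ 4 := div_le_self (by positivity) hn1U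
      have e2 : 15 * ((H : ℝ) / d) ^ 3 * (d : ℝ) ^ 4 = 15 * (H : ℝ) ^ 3 * d := by
        field_simp
      calc 15 * ((H : ℝ) / d) ^ 3 * ((d : ℝ) ^ 4 / ∏ l ∈ U, n l)
          ≤ 15 * ((H : ℝ) / d) ^ 3 * (d : ℝ) ^ 4 := mul_le_mul_of_nonneg_left e1 (by positivity)
        _ = 15 * (H : ℝ) ^ 3 * d := e2
        _ ≤ 15 * (H : ℝ) ^ 3 * w ^ 6 := mul_le_mul_of_nonneg_left hd6 (by positivity)
    rw [hmain] at hctp
    obtain ⟨X, hX⟩ : ∃ X : ℝ, X = ((B.filter (fun m => ∀ l ∈ U, Om l m)).card : ℝ) := ⟨_, rfl⟩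
    have hX2 : |X - (H : ℝ) ^ 4 / ∏ l ∈ U, n l| ≤ 15 * (H : ℝ) ^ 3 * w ^ 6 := by
      refine le_trans (le_of_eq ?_) (hctp.trans herr)
      rw [hX, hB]
      congr!
    rw [← hX]
    have h5 : lam T * lam T' * (X - (H : ℝ) ^ 4 / ∏ l ∈ U, n l) ≤
        15 * (H : ℝ) ^ 3 * w ^ 6 * (|lam T| * |lam T'|) := by
      calc lam T * lam T' * (X - (H : ℝ) ^ 4 / ∏ l ∈ U, n l)
          ≤ |lam T * lam T' * (X - (H : ℝ) ^ 4 / ∏ l ∈ U, n l)| := le_abs_self _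
        _ = |lam T| * |lam T'| * |X - (H : ℝ) ^ 4 / ∏ l ∈ U, n l| := by rw [abs_mul, abs_mul]
        _ ≤ |lam T| * |lam T'| * (15 * (H : ℝ) ^ 3 * w ^ 6) :=
            mul_le_mul_of_nonneg_left hX2 (by positivity)
        _ = 15 * (H : ℝ) ^ 3 * w ^ 6 * (|lam T| * |lam T'|) := by ring
    have h6 : lam T * lam T' * X = (H : ℝ) ^ 4 * (lam T * lam T' / ∏ i ∈ U, n i) +
        lam T * lam T' * (X - (H : ℝ) ^ 4 / ∏ l ∈ U, n l) := by
      field_simp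
      ring
    rw [h6]
    linarith
  -- the number of sets
  have hsum : ∑ T ∈ I.powerset, |lam T| ≤ w ^ 4 := by
    have h1 : ∑ T ∈ I.powerset, |lam T| = ∑ T ∈ I.powerset.filter (fun T => lam T ≠ 0), |lam T| := by
      rw [Finset.sum_filter]
      refine Finset.sum_congr rfl fun T _ => ?_
      split_ifs with h
      · rfl
      · rw [not_not.1 h, abs_zero]
    have h2 : ((I.powerset.filter (fun T => lam T ≠ 0)).card : ℝ) ≤ w ^ 3 := by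
      have hmaps : ∀ T ∈ I.powerset.filter (fun T => lam T ≠ 0),
          ∏ l ∈ T, l ∈ Finset.Icc 1 ⌊w ^ 3⌋₊ := by
        intro T hT
        obtain ⟨hT1, hT2⟩ := Finset.mem_filter.1 hT
        obtain ⟨h3, h4⟩ := hlams T hT2
        rw [Finset.mem_Icc]
        refine ⟨Finset.prod_pos fun l hl => (hI l (h3 hl)).pos, ?_⟩
        rw [Nat.le_floor_iff (by positivity)]
        have := hprod T h3 h4
        push_cast
        exact this
      have hinj : Set.InjOn (fun T : Finset ℕ => ∏ l ∈ T, l)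
          ((I.powerset.filter (fun T => lam T ≠ 0) : Finset (Finset ℕ)) : Set (Finset ℕ)) := by
        intro T hT T' hT' h
        rw [Finset.mem_coe, Finset.mem_filter, Finset.mem_powerset] at hT hT'
        have e1 := Nat.primeFactors_prod (s := T) (fun l hl => hI l (hT.1 hl))
        have e2 := Nat.primeFactors_prod (s := T') (fun l hl => hI l (hT'.1 hl))
        rw [← e1, ← e2]
        exact congrArg Nat.primeFactors h
      have h5 := Finset.card_le_card_of_injOn _ hmaps hinj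
      rw [Nat.card_Icc] at h5
      have h6 : ((I.powerset.filter (fun T => lam T ≠ 0)).card : ℝ) ≤ (⌊w ^ 3⌋₊ : ℝ) := by
        have : (I.powerset.filter (fun T => lam T ≠ 0)).card ≤ ⌊w ^ 3⌋₊ := by omega
        exact_mod_cast this
      exact h6.trans (Nat.floor_le (by positivity))
    rw [h1]
    calc ∑ T ∈ I.powerset.filter (fun T => lam T ≠ 0), |lam T|
        ≤ ∑ T ∈ I.powerset.filter (fun T => lam T ≠ 0), w :=
          Finset.sum_le_sum fun T _ => hlamb T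
      _ = ((I.powerset.filter (fun T => lam T ≠ 0)).card : ℝ) * w := by
          rw [Finset.sum_const, nsmul_eq_mul]
      _ ≤ w ^ 3 * w := mul_le_mul_of_nonneg_right h2 hw0.le
      _ = w ^ 4 := by ring
  have hsum0 : 0 ≤ ∑ T ∈ I.powerset, |lam T| := Finset.sum_nonneg fun T _ => abs_nonneg _
  -- the end
  refine hA.trans ?_
  rw [hBx]
  calc ∑ T ∈ I.powerset, ∑ T' ∈ I.powerset,
        lam T * lam T' * ((B.filter (fun m => ∀ l ∈ T ∪ T', Om l m)).card : ℝ)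
      ≤ ∑ T ∈ I.powerset, ∑ T' ∈ I.powerset,
        ((H : ℝ) ^ 4 * (lam T * lam T' / ∏ i ∈ T ∪ T', n i) +
          15 * (H : ℝ) ^ 3 * w ^ 6 * (|lam T| * |lam T'|)) :=
        Finset.sum_le_sum fun T hT => Finset.sum_le_sum fun T' hT' => hC T hT T' hT'
    _ = (H : ℝ) ^ 4 * (∑ T ∈ I.powerset, ∑ T' ∈ I.powerset, lam T * lam T' / ∏ i ∈ T ∪ T', n i) +
        15 * (H : ℝ) ^ 3 * w ^ 6 * ((∑ T ∈ I.powerset, |lam T|) * ∑ T ∈ I.powerset, |lam T|) := by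
        rw [Finset.sum_mul_sum, Finset.mul_sum, Finset.mul_sum, ← Finset.sum_add_distrib]
        refine Finset.sum_congr rfl fun T _ => ?_
        rw [Finset.mul_sum, Finset.mul_sum, ← Finset.sum_add_distrib]
    _ ≤ (H : ℝ) ^ 4 / MRS.SS I n w + 15 * (H : ℝ) ^ 3 * w ^ 14 := by
        rw [hlamS]
        have h7 : (∑ T ∈ I.powerset, |lam T|) * ∑ T ∈ I.powerset, |lam T| ≤ w ^ 4 * w ^ 4 :=
          mul_le_mul hsum hsum hsum0 (by positivity)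
        have h8 : 15 * (H : ℝ) ^ 3 * w ^ 6 *
            ((∑ T ∈ I.powerset, |lam T|) * ∑ T ∈ I.powerset, |lam T|) ≤
            15 * (H : ℝ) ^ 3 * w ^ 6 * (w ^ 4 * w ^ 4) :=
          mul_le_mul_of_nonneg_left h7 (by positivity)
        have h9 : 15 * (H : ℝ) ^ 3 * w ^ 6 * (w ^ 4 * w ^ 4) = 15 * (H : ℝ) ^ 3 * w ^ 14 := by ring
        have h10 : (H : ℝ) ^ 4 * (1 / MRS.SS I n w) = (H : ℝ) ^ 4 / MRS.SS I n w := by ring
        rw [h10]
        linarith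

private theorem Siv_phi (d : ℕ) (hd : Squarefree d) :
    (Nat.totient d : ℝ) / (d : ℝ) ^ 2 = ∏ l ∈ d.primeFactors, (((l : ℝ) - 1) / (l : ℝ) ^ 2) := by
  have hd0 : d ≠ 0 := hd.ne_zero
  have h1 := Nat.totient_mul_prod_primeFactors d
  have h2 := Nat.prod_primeFactors_of_squarefree hd
  rw [h2, mul_comm] at h1
  have h3 : Nat.totient d = ∏ p ∈ d.primeFactors, (p - 1) :=
    Nat.eq_of_mul_eq_mul_left (Nat.pos_of_ne_zero hd0) h1
  rw [Finset.prod_div_distrib, Finset.prod_pow, h3]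
  push_cast
  congr 1
  · refine Finset.prod_congr rfl fun p hp => ?_
    have := (Nat.prime_of_mem_primeFactors hp).one_lt.le
    push_cast [Nat.cast_sub this]
    ring
  · congr 1
    have h4 : ((∏ p ∈ d.primeFactors, p : ℕ) : ℝ) = (d : ℝ) := by rw [h2]
    rw [← h4]; push_cast; rfl

private theorem Siv_low (M : ℕ) (w : ℝ) (hw : 2 ≤ w) (I : Finset ℕ)
    (hIm : ∀ l, l ∈ I ↔ l.Prime ∧ (l : ℝ) ≤ w ∧ ¬ l ∣ M) (n : ℕ → ℝ) (hn1 : ∀ l ∈ I, 1 < n l)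
    (hn2 : ∀ l ∈ I, n l ≤ (l : ℝ) ^ 2) (hn3 : ∀ l ∈ I, n l - 1 ≤ (l : ℝ) ^ 2 / ((l : ℝ) - 1)) :
    (open Classical in
      ∑ d ∈ (Icc 1 ⌊Real.sqrt w⌋₊).filter (fun d => Squarefree d ∧ Nat.Coprime d M),
      (Nat.totient d : ℝ) / (d : ℝ) ^ 2) ≤ MRS.SS I n w := by
  classical
  have hw0 : 0 ≤ w := by linarith
  obtain ⟨X, hX⟩ : ∃ X : Finset ℕ, X = (Icc 1 ⌊Real.sqrt w⌋₊).filter
    (fun d => Squarefree d ∧ Nat.Coprime d M) := ⟨_, rfl⟩
  have hXm : ∀ d, d ∈ X ↔ (1 ≤ d ∧ d ≤ ⌊Real.sqrt w⌋₊) ∧ Squarefree d ∧ Nat.Coprime d M := by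
    intro d; rw [hX, Finset.mem_filter, Finset.mem_Icc]
  have hlhs : (∑ d ∈ (Icc 1 ⌊Real.sqrt w⌋₊).filter (fun d => Squarefree d ∧ Nat.Coprime d M),
      (Nat.totient d : ℝ) / (d : ℝ) ^ 2) = ∑ d ∈ X, (Nat.totient d : ℝ) / (d : ℝ) ^ 2 := by
    rw [hX]
  have hlhs' : (open Classical in
      ∑ d ∈ (Icc 1 ⌊Real.sqrt w⌋₊).filter (fun d => Squarefree d ∧ Nat.Coprime d M),
      (Nat.totient d : ℝ) / (d : ℝ) ^ 2) = ∑ d ∈ X, (Nat.totient d : ℝ) / (d : ℝ) ^ 2 := by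
    rw [← hlhs]
  rw [hlhs']
  have hsq : ∀ d ∈ X, (d : ℝ) ^ 2 ≤ w := by
    intro d hd
    obtain ⟨⟨-, h2⟩, -⟩ := (hXm d).1 hd
    have h3 : (d : ℝ) ≤ Real.sqrt w := (Nat.le_floor_iff (Real.sqrt_nonneg w)).1 h2
    calc (d : ℝ) ^ 2 ≤ (Real.sqrt w) ^ 2 := pow_le_pow_left₀ (by positivity) h3 2
      _ = w := Real.sq_sqrt hw0
  have hpf : ∀ d ∈ X, d.primeFactors ⊆ I := by
    intro d hd l hl
    obtain ⟨⟨h1, h2⟩, h3, h4⟩ := (hXm d).1 hd
    have hlp := Nat.prime_of_mem_primeFactors hl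
    have hld := Nat.dvd_of_mem_primeFactors hl
    rw [hIm]
    refine ⟨hlp, ?_, ?_⟩
    · have h5 : l ≤ d := Nat.le_of_dvd h1 hld
      have h6 : (l : ℝ) ≤ d := by exact_mod_cast h5
      have h7 : (1 : ℝ) ≤ d := by exact_mod_cast h1
      have h8 := hsq d hd
      nlinarith
    · intro h
      have h5 : l ∣ Nat.gcd d M := Nat.dvd_gcd hld h
      rw [h4] at h5
      exact hlp.one_lt.ne' (Nat.dvd_one.1 h5)
  have hinj : Set.InjOn Nat.primeFactors (X : Set ℕ) := by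
    intro d hd d' hd' h
    rw [Finset.mem_coe, hXm] at hd hd'
    rw [← Nat.prod_primeFactors_of_squarefree hd.2.1, ← Nat.prod_primeFactors_of_squarefree hd'.2.1,
      h]
  have h1 : ∑ d ∈ X, (Nat.totient d : ℝ) / (d : ℝ) ^ 2 =
      ∑ T ∈ X.image Nat.primeFactors, ∏ l ∈ T, (((l : ℝ) - 1) / (l : ℝ) ^ 2) := by
    rw [Finset.sum_image hinj]
    exact Finset.sum_congr rfl fun d hd => Siv_phi d ((hXm d).1 hd).2.1
  rw [h1, MRS.SS]
  have hsub : X.image Nat.primeFactors ⊆ I.powerset.filter (fun T => ∏ i ∈ T, n i ≤ w) := by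
    intro T hT
    obtain ⟨d, hd, rfl⟩ := Finset.mem_image.1 hT
    rw [Finset.mem_filter, Finset.mem_powerset]
    refine ⟨hpf d hd, ?_⟩
    refine le_trans ?_ (hsq d hd)
    have h2 := Nat.prod_primeFactors_of_squarefree ((hXm d).1 hd).2.1
    have h3 : (d : ℝ) ^ 2 = ∏ l ∈ d.primeFactors, (l : ℝ) ^ 2 := by
      rw [Finset.prod_pow]
      congr 1
      have h4 : ((∏ p ∈ d.primeFactors, p : ℕ) : ℝ) = (d : ℝ) := by rw [h2]
      rw [← h4]; push_cast; rfl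
    rw [h3]
    exact Finset.prod_le_prod (fun l hl => (zero_lt_one.trans (hn1 l (hpf d hd hl))).le)
      (fun l hl => hn2 l (hpf d hd hl))
  have h5 : ∑ T ∈ X.image Nat.primeFactors, ∏ l ∈ T, (((l : ℝ) - 1) / (l : ℝ) ^ 2) ≤
      ∑ T ∈ X.image Nat.primeFactors, ∏ i ∈ T, 1 / (n i - 1) := by
    refine Finset.sum_le_sum fun T hT => ?_
    obtain ⟨d, hd, rfl⟩ := Finset.mem_image.1 hT
    refine Finset.prod_le_prod ?_ ?_
    · intro l hl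
      have := (Nat.prime_of_mem_primeFactors hl).one_lt.le
      have h6 : (1 : ℝ) ≤ l := by exact_mod_cast this
      exact div_nonneg (by linarith) (by positivity)
    · intro l hl
      have hlI := hpf d hd hl
      have hl2 := (Nat.prime_of_mem_primeFactors hl).two_le
      have h6 : (2 : ℝ) ≤ l := by exact_mod_cast hl2
      have h7 := hn1 l hlI
      have h8 := hn3 l hlI
      have h9 : (0 : ℝ) < n l - 1 := by linarith
      rw [le_div_iff₀ h9]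
      have h10 : (0 : ℝ) ≤ ((l : ℝ) - 1) / (l : ℝ) ^ 2 := div_nonneg (by linarith) (by positivity)
      calc ((l : ℝ) - 1) / (l : ℝ) ^ 2 * (n l - 1)
          ≤ ((l : ℝ) - 1) / (l : ℝ) ^ 2 * ((l : ℝ) ^ 2 / ((l : ℝ) - 1)) :=
            mul_le_mul_of_nonneg_left h8 h10
        _ = 1 := by
            have h11 : (l : ℝ) - 1 ≠ 0 := by linarith
            have h12 : (l : ℝ) ≠ 0 := by linarith
            field_simp
  refine h5.trans ?_
  have h13 : ∑ T ∈ X.image Nat.primeFactors, ∏ i ∈ T, 1 / (n i - 1) ≤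
      ∑ T ∈ I.powerset.filter (fun T => ∏ i ∈ T, n i ≤ w), ∏ i ∈ T, 1 / (n i - 1) := by
    refine Finset.sum_le_sum_of_subset_of_nonneg hsub ?_
    intro T hT _
    rw [Finset.mem_filter, Finset.mem_powerset] at hT
    refine Finset.prod_nonneg fun l hl => ?_
    have := hn1 l (hT.1 hl)
    exact div_nonneg zero_le_one (by linarith)
  refine h13.trans (le_of_eq ?_)
  congr!

theorem siv : ∃ c C : ℝ, 1 ≤ c ∧ 0 < C ∧ ∀ (A : Fin 4 → ℤ) (H M : ℕ) (w : ℝ)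
    (Om : ℕ → (Fin 4 → ℤ) → Prop), 1 ≤ M → 2 ≤ w → w ^ c ≤ (H : ℝ) →
    (∀ l : ℕ, l.Prime → ¬ l ∣ M → Per l (Om l)) →
    (∀ l : ℕ, l.Prime → ¬ l ∣ M → (l : ℝ) ^ 3 - (l : ℝ) ^ 2 ≤ nn (Fin 4) l (Om l) ∧
      (nn (Fin 4) l (Om l) : ℝ) ≤ (l : ℝ) ^ 3 + (l : ℝ) ^ 2) →
    ∀ S : Finset (Fin 4 → ℤ), (∀ m ∈ S, m ∈ bx A (fun _ => H) ∧
      ∀ l : ℕ, l.Prime → (l : ℝ) ≤ w → ¬ l ∣ M → ¬ Om l m) →
    (S.card : ℝ) ≤ C * (H : ℝ) ^ 4 / Real.log w * gg M := by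
  classical
  obtain ⟨c0, hc0, hsse⟩ := sse
  refine ⟨16, 2 / c0 + 15, by norm_num, by positivity, ?_⟩
  intro A H M w Om hM hw hH hPer hnn S hS
  have hw0 : 0 < w := by linarith
  have hH' : w ^ 16 ≤ (H : ℝ) := by
    have : w ^ (16 : ℝ) = w ^ 16 := by
      rw [← Real.rpow_natCast]; norm_num
    rwa [this] at hH
  obtain ⟨I, hI⟩ : ∃ I : Finset ℕ, I = (Finset.range (⌊w⌋₊ + 1)).filter
    (fun l => l.Prime ∧ ¬ l ∣ M) := ⟨_, rfl⟩
  have hIm : ∀ l, l ∈ I ↔ l.Prime ∧ (l : ℝ) ≤ w ∧ ¬ l ∣ M := by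
    intro l
    rw [hI, Finset.mem_filter, Finset.mem_range, Nat.lt_succ_iff, Nat.le_floor_iff hw0.le]
    tauto
  obtain ⟨n, hn⟩ : ∃ n : ℕ → ℝ, n = fun l : ℕ => (l : ℝ) ^ 4 / (nn (Fin 4) l (Om l) : ℝ) := ⟨_, rfl⟩
  have hnv : ∀ l : ℕ, n l = (l : ℝ) ^ 4 / (nn (Fin 4) l (Om l) : ℝ) := fun l => by rw [hn]
  have hN : ∀ l : ℕ, l ∈ I → (2 : ℝ) ≤ l ∧ 0 < (nn (Fin 4) l (Om l) : ℝ) ∧
      (l : ℝ) ^ 3 - (l : ℝ) ^ 2 ≤ nn (Fin 4) l (Om l) ∧
      (nn (Fin 4) l (Om l) : ℝ) ≤ (l : ℝ) ^ 3 + (l : ℝ) ^ 2 := by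
    intro l hl
    obtain ⟨h1, h2, h3⟩ := (hIm l).1 hl
    have h4 : (2 : ℝ) ≤ l := by exact_mod_cast h1.two_le
    obtain ⟨h5, h6⟩ := hnn l h1 h3
    refine ⟨h4, ?_, h5, h6⟩
    have : (0 : ℝ) < (l : ℝ) ^ 3 - (l : ℝ) ^ 2 := by nlinarith [sq_nonneg (l : ℝ)]
    linarith
  have hnlow : ∀ l ∈ I, (l : ℝ) ^ 2 / ((l : ℝ) + 1) ≤ n l := by
    intro l hl
    obtain ⟨h1, h2, h3, h4⟩ := hN l hl
    rw [hnv, div_le_div_iff₀ (by linarith) h2]
    calc (l : ℝ) ^ 2 * (nn (Fin 4) l (Om l) : ℝ) ≤ (l : ℝ) ^ 2 * ((l : ℝ) ^ 3 + (l : ℝ) ^ 2) :=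
          mul_le_mul_of_nonneg_left h4 (by positivity)
      _ = (l : ℝ) ^ 4 * ((l : ℝ) + 1) := by ring
  have hnup : ∀ l ∈ I, n l ≤ (l : ℝ) ^ 2 / ((l : ℝ) - 1) := by
    intro l hl
    obtain ⟨h1, h2, h3, h4⟩ := hN l hl
    rw [hnv, div_le_div_iff₀ h2 (by linarith)]
    calc (l : ℝ) ^ 4 * ((l : ℝ) - 1) = (l : ℝ) ^ 2 * ((l : ℝ) ^ 3 - (l : ℝ) ^ 2) := by ring
      _ ≤ (l : ℝ) ^ 2 * (nn (Fin 4) l (Om l) : ℝ) := mul_le_mul_of_nonneg_left h3 (by positivity)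
  have hn1 : ∀ l ∈ I, 1 < n l := by
    intro l hl
    obtain ⟨h1, -⟩ := hN l hl
    refine lt_of_lt_of_le ?_ (hnlow l hl)
    rw [lt_div_iff₀ (by linarith)]
    nlinarith
  have hn2 : ∀ l ∈ I, n l ≤ (l : ℝ) ^ 2 := by
    intro l hl
    obtain ⟨h1, -⟩ := hN l hl
    refine (hnup l hl).trans ?_
    rw [div_le_iff₀ (by linarith)]
    nlinarith [sq_nonneg (l : ℝ)]
  have hn3 : ∀ l ∈ I, n l - 1 ≤ (l : ℝ) ^ 2 / ((l : ℝ) - 1) := fun l hl => by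
    have := hnup l hl
    linarith
  have hnnv : ∀ l ∈ I, (nn (Fin 4) l (Om l) : ℝ) = (l : ℝ) ^ 4 / n l := by
    intro l hl
    obtain ⟨h1, h2, -⟩ := hN l hl
    rw [hnv]
    have h3 : (l : ℝ) ≠ 0 := by linarith
    field_simp
  have hprod : ∀ T ⊆ I, ∏ l ∈ T, n l ≤ w → ∏ l ∈ T, (l : ℝ) ≤ w ^ 3 := by
    intro T hT hTw
    have h1 : ∏ l ∈ T, (l : ℝ) ≤ ∏ l ∈ T, (n l) ^ 3 := by
      refine Finset.prod_le_prod (fun l _ => by positivity) ?_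
      intro l hl
      obtain ⟨h1, -⟩ := hN l (hT hl)
      have h2 := hnlow l (hT hl)
      have h3 : ((l : ℝ) ^ 2 / ((l : ℝ) + 1)) ^ 3 ≤ (n l) ^ 3 :=
        pow_le_pow_left₀ (by positivity) h2 3
      refine le_trans ?_ h3
      rw [div_pow, le_div_iff₀ (by positivity)]
      obtain ⟨t, ht⟩ : ∃ t : ℝ, t = (l : ℝ) - 2 := ⟨_, rfl⟩
      have ht0 : 0 ≤ t := by linarith
      have hl' : (l : ℝ) = t + 2 := by linarith
      rw [hl']
      have : ((t + 2) ^ 2) ^ 3 - (t + 2) * (t + 2 + 1) ^ 3 =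
          t ^ 6 + 12 * t ^ 5 + 59 * t ^ 4 + 149 * t ^ 3 + 195 * t ^ 2 + 111 * t + 10 := by ring
      have h4 : 0 ≤ t ^ 6 + 12 * t ^ 5 + 59 * t ^ 4 + 149 * t ^ 3 + 195 * t ^ 2 + 111 * t + 10 := by
        positivity
      linarith
    rw [Finset.prod_pow] at h1
    refine h1.trans (pow_le_pow_left₀ ?_ hTw 3)
    exact Finset.prod_nonneg fun l hl => (zero_lt_one.trans (hn1 l (hT hl))).le
  have hsel := Siv_sel A H w hw hH' I (fun l hl => ((hIm l).1 hl).1) Om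
    (fun l hl => hPer l ((hIm l).1 hl).1 ((hIm l).1 hl).2.2) n hn1 hnnv hprod S
    (fun m hm => ⟨(hS m hm).1, fun l hl => (hS m hm).2 l ((hIm l).1 hl).1 ((hIm l).1 hl).2.1
      ((hIm l).1 hl).2.2⟩)
  have hlow := Siv_low M w hw I hIm n hn1 hn2 hn3
  have hsq1 : 1 ≤ Real.sqrt w := by
    rw [Real.one_le_sqrt]; linarith
  have hss := (hsse (Real.sqrt w) M hM hsq1).trans hlow
  have hlogw : 0 < Real.log w := Real.log_pos (by linarith)
  have hgg := gg_one_le M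
  have hgg0 : 0 < gg M := by linarith
  have hsqlog : Real.log (Real.sqrt w) = Real.log w / 2 := Real.log_sqrt hw0.le
  rw [hsqlog] at hss
  have hSS0 : 0 < c0 * (Real.log w / 2) / gg M := by positivity
  have hSSpos : 0 < MRS.SS I n w := lt_of_lt_of_le hSS0 hss
  have hH4 : (0 : ℝ) ≤ (H : ℝ) ^ 4 := by positivity
  have h1 : (H : ℝ) ^ 4 / MRS.SS I n w ≤ (2 / c0) * (H : ℝ) ^ 4 / Real.log w * gg M := by
    calc (H : ℝ) ^ 4 / MRS.SS I n w ≤ (H : ℝ) ^ 4 / (c0 * (Real.log w / 2) / gg M) :=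
          div_le_div_of_nonneg_left hH4 hSS0 hss
      _ = (2 / c0) * (H : ℝ) ^ 4 / Real.log w * gg M := by
          field_simp
  have h2 : 15 * (H : ℝ) ^ 3 * w ^ 14 ≤ 15 * (H : ℝ) ^ 4 / Real.log w * gg M := by
    have h3 : Real.log w ≤ w := (Real.log_le_sub_one_of_pos hw0).trans (by linarith)
    have h4 : w ^ 14 * Real.log w ≤ (H : ℝ) := by
      refine le_trans ?_ hH'
      calc w ^ 14 * Real.log w ≤ w ^ 14 * w := mul_le_mul_of_nonneg_left h3 (by positivity)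
        _ ≤ w ^ 14 * w ^ 2 := by
            refine mul_le_mul_of_nonneg_left ?_ (by positivity)
            nlinarith
        _ = w ^ 16 := by ring
    have h5 : 15 * (H : ℝ) ^ 3 * w ^ 14 ≤ 15 * (H : ℝ) ^ 4 / Real.log w := by
      rw [le_div_iff₀ hlogw]
      calc 15 * (H : ℝ) ^ 3 * w ^ 14 * Real.log w = 15 * (H : ℝ) ^ 3 * (w ^ 14 * Real.log w) := by
            ring
        _ ≤ 15 * (H : ℝ) ^ 3 * H := mul_le_mul_of_nonneg_left h4 (by positivity)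
        _ = 15 * (H : ℝ) ^ 4 := by ring
    exact h5.trans (le_mul_of_one_le_right (by positivity) hgg)
  calc (S.card : ℝ) ≤ (H : ℝ) ^ 4 / MRS.SS I n w + 15 * (H : ℝ) ^ 3 * w ^ 14 := hsel
    _ ≤ (2 / c0) * (H : ℝ) ^ 4 / Real.log w * gg M + 15 * (H : ℝ) ^ 4 / Real.log w * gg M :=
        add_le_add h1 h2
    _ = (2 / c0 + 15) * (H : ℝ) ^ 4 / Real.log w * gg M := by ring

end Pool.Agent.PP5C
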