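import Pool.Agent.PP5C.Defs

/-!
# SrA: the local series (difficulty 3)

Only real series.  `l ≥ 2`.
(a) `v = 0`: the term is `8 (k + 1) l ^ (k / 3) / l ^ ((k + 1) / 2)`.  For all `k ≥ 1`: `(k + 1) / 2 ≥ k / 3 + 1`
(natural divisions; check `k ≤ 6` by cases, in general `(k+1)/2 ≥ k/2 ≥ ..`), and `(k + 1) / 2 - k / 3 ≥ (k - 2) / 6`
(naturals) so the term is at most `8 (k + 1) / l` and at most `(8 (k + 1) / l) * 2 ^ (-((k - 2) / 6 - 1))`; the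
series `∑ (k + 1) 2 ^ (-(k - 2) / 6)` converges.  Total `≤ C1 / l`.
(b) `v ≥ 1`: `k = v + r` or `k ≤ v`.  `k ≤ v`: term `≤ 8 (v + 1) l ^ (v / 3)`, sum `≤ 8 v (v + 1) l ^ (v / 3)`.
`k = v + r`, `r ≥ 1`: `(v + r) / 3 ≤ v / 3 + (r + 2) / 3` and `(r + 1) / 2 ≥ (r + 2) / 3` for `r ≥ 1`, and
`(r + 1) / 2 - (r + 2) / 3 ≥ (r - 4) / 6`, so the term is
`≤ 8 (v + r + 1) l ^ (v / 3) 2 ^ (-(r - 4) / 6) ≤ 8 (v + 1) l ^ (v / 3) (r + 1) 2 ^ (-(r - 4) / 6)`.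
(c) `k ≥ 2`: `2 (k + 1) min (2 / l²) (2 / l ^ ((k + 1) / 2))`: for `k ≤ 8` use the first, for `k ≥ 9` the second with
`(k + 1) / 2 ≥ 2 + (k - 4) / 2`... : `2 (k + 1) * 2 / l² * 2 ^ (-(k - 4) / 2)`; total `≤ C1 / l²`.
(d) tail version, exponent `k / 8` (real power): `v = 0`: `2 l ^ (k/8) / l ^ ((k+1)/2)`, `(k+1)/2 - k/8 ≥ 1/2` for all
`k ≥ 1` and `≥ 3k/8`: sum `≤ C1 l ^ (-1/2) ≤ C1`.  In general `≤ C1 (v + 1) l ^ (v / 8)`: `k ≤ v`: `2 l ^ (v/8)` each;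
`k = v + r`: `2 l ^ (v/8) l ^ (r/8 - (r+1)/2) ≤ 2 l ^ (v/8) 2 ^ (-3r/8)`.
(e) `k ≥ 2`: `l ^ (k/8) min (2 / l²) (2 / l ^ ((k+1)/2)) ≤ C l ^ (-3/2) * (geometric)`: `k = 2, 3, 4`: `≤ 2 l ^ (1/2 - 2)`;
`k ≥ 5`: exponent `k/8 - (k+1)/2 ≤ -3k/8 + ... ≤ -3/2 - 3(k - 4)/8`.
It is enough to find one constant `C1` (maximum).
-/

set_option autoImplicit false

namespace Pool.Agent.PP5C

open Finset Pool.Agent.PPS

private theorem hS : ∃ S : ℝ, 1 ≤ S ∧ ∀ s : Finset ℕ,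
    ∑ k ∈ s, ((k : ℝ) + 2) * (9 / 10 : ℝ) ^ k ≤ S := by
  have h1 : Summable (fun k : ℕ => (k : ℝ) ^ 1 * (9 / 10 : ℝ) ^ k) :=
    summable_pow_mul_geometric_of_norm_lt_one 1 (by rw [Real.norm_eq_abs, abs_of_pos] <;> norm_num)
  have h2 : Summable (fun k : ℕ => (9 / 10 : ℝ) ^ k) :=
    summable_geometric_of_lt_one (by norm_num) (by norm_num)
  have h3 : Summable (fun k : ℕ => ((k : ℝ) + 2) * (9 / 10 : ℝ) ^ k) := by
    refine (h1.add (h2.mul_left 2)).congr ?_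
    intro k
    ring
  refine ⟨max 1 (∑' k : ℕ, ((k : ℝ) + 2) * (9 / 10 : ℝ) ^ k), le_max_left _ _, fun s => ?_⟩
  exact (h3.sum_le_tsum s (fun k _ => by positivity)).trans (le_max_right _ _)

private theorem half (q k : ℕ) (h : k ≤ 6 * q + 11) : (1 / 2 : ℝ) ^ q ≤ 4 * (9 / 10 : ℝ) ^ k := by
  have h1 : (9 / 10 : ℝ) ^ (6 * q + 11) ≤ (9 / 10 : ℝ) ^ k :=
    pow_le_pow_of_le_one (by norm_num) (by norm_num) h
  have h2 : (9 / 10 : ℝ) ^ (6 * q + 11) = ((9 / 10 : ℝ) ^ 6) ^ q * (9 / 10 : ℝ) ^ 11 := by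
    rw [pow_add, pow_mul]
  have h3 : (1 / 2 : ℝ) ^ q ≤ ((9 / 10 : ℝ) ^ 6) ^ q :=
    pow_le_pow_left₀ (by norm_num) (by norm_num) q
  have h4 : (1 / 4 : ℝ) ≤ (9 / 10 : ℝ) ^ 11 := by norm_num
  have h5 : (0 : ℝ) ≤ ((9 / 10 : ℝ) ^ 6) ^ q := by positivity
  nlinarith

private theorem ky (l : ℝ) (hl : 2 ≤ l) (a c n q k : ℕ) (h : a + q ≤ n + c) (hk : k ≤ 6 * q + 11) :
    l ^ a / l ^ n ≤ l ^ c * (4 * (9 / 10 : ℝ) ^ k) := by
  have hl0 : 0 < l := by linarith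
  have h1 : l ^ (a + q) ≤ l ^ (n + c) := pow_le_pow_right₀ (by linarith) h
  rw [pow_add, pow_add] at h1
  have h2 : (2 : ℝ) ^ q ≤ l ^ q := pow_le_pow_left₀ (by norm_num) hl q
  have h3 := half q k hk
  have h4 : (1 / 2 : ℝ) ^ q * 2 ^ q = 1 := by
    rw [← mul_pow]
    norm_num
  have hq : 0 < l ^ q := by positivity
  have hn : 0 < l ^ n := by positivity
  have hc : 0 < l ^ c := by positivity
  have h5 : 1 / l ^ q ≤ (1 / 2 : ℝ) ^ q := by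
    rw [div_le_iff₀ hq]
    have : 0 ≤ (1 / 2 : ℝ) ^ q := by positivity
    nlinarith
  calc l ^ a / l ^ n ≤ l ^ c * (1 / l ^ q) := by
        rw [div_le_iff₀ hn, mul_one_div, div_mul_eq_mul_div, le_div_iff₀ hq]
        linarith
    _ ≤ l ^ c * (4 * (9 / 10 : ℝ) ^ k) := mul_le_mul_of_nonneg_left (h5.trans h3) hc.le

private theorem spl (f : ℕ → ℝ) (hf : ∀ k, 0 ≤ f k) (v E : ℕ) :
    ∑ k ∈ Icc 1 E, f k ≤ ∑ k ∈ range (v + 1), f k + ∑ r ∈ range E, f (v + 1 + r) := by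
  rw [← Finset.sum_range_add]
  refine Finset.sum_le_sum_of_subset_of_nonneg ?_ (fun i _ _ => hf i)
  intro k hk
  rw [Finset.mem_Icc] at hk
  rw [Finset.mem_range]
  omega

private theorem xx (l : ℕ) (hl : 2 ≤ l) : ∃ x : ℝ, 1 ≤ x ∧ x ^ 8 = l ∧ 10 / 9 ≤ x ^ 3 ∧
    (∀ k : ℕ, (l : ℝ) ^ ((k : ℝ) / 8) = x ^ k) ∧ (l : ℝ) ^ (3 / 2 : ℝ) = x ^ 12 := by
  have hlR : (2 : ℝ) ≤ l := by exact_mod_cast hl
  have hl0 : (0 : ℝ) ≤ l := by linarith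
  have hk : ∀ k : ℕ, (l : ℝ) ^ ((k : ℝ) / 8) = ((l : ℝ) ^ (1 / 8 : ℝ)) ^ k := by
    intro k
    rw [← Real.rpow_natCast, ← Real.rpow_mul hl0]
    congr 1
    ring
  have h8 : ((l : ℝ) ^ (1 / 8 : ℝ)) ^ 8 = l := by
    have := hk 8
    rw [← this]
    norm_num
  have hx0 : 0 ≤ (l : ℝ) ^ (1 / 8 : ℝ) := Real.rpow_nonneg hl0 _
  refine ⟨(l : ℝ) ^ (1 / 8 : ℝ), ?_, h8, ?_, hk, ?_⟩
  · exact Real.one_le_rpow (by linarith) (by norm_num)
  · rw [← pow_le_pow_iff_left₀ (by norm_num) (by positivity) (by norm_num : (8 : ℕ) ≠ 0)]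
    have h1 : (((l : ℝ) ^ (1 / 8 : ℝ)) ^ 3) ^ 8 = (l : ℝ) ^ 3 := by
      rw [← pow_mul, mul_comm, pow_mul, h8]
    rw [h1]
    have h2 : (2 : ℝ) ^ 3 ≤ (l : ℝ) ^ 3 := pow_le_pow_left₀ (by norm_num) hlR 3
    have h3 : (10 / 9 : ℝ) ^ 8 ≤ 2 ^ 3 := by norm_num
    linarith
  · have := hk 12
    rw [← this]
    norm_num

private theorem ky2 (x l : ℝ) (hx : 1 ≤ x) (h8 : x ^ 8 = l) (h3 : 10 / 9 ≤ x ^ 3) (k n c m : ℕ)
    (h : k + 3 * m ≤ 8 * n + c) : x ^ k / l ^ n ≤ x ^ c * (9 / 10 : ℝ) ^ m := by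
  have hx0 : 0 < x := by linarith
  have hl : l ^ n = x ^ (8 * n) := by rw [← h8, ← pow_mul]
  have h1 : x ^ (k + 3 * m) ≤ x ^ (8 * n + c) := pow_le_pow_right₀ hx h
  rw [pow_add, pow_add, pow_mul x 3 m] at h1
  have h2 : (10 / 9 : ℝ) ^ m ≤ (x ^ 3) ^ m := pow_le_pow_left₀ (by norm_num) h3 m
  have h4 : (9 / 10 : ℝ) ^ m * (10 / 9) ^ m = 1 := by
    rw [← mul_pow]
    norm_num
  have hm : 0 < (x ^ 3) ^ m := by positivity
  have hn : 0 < x ^ (8 * n) := by positivity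
  have hc : 0 < x ^ c := by positivity
  have h5 : 1 / (x ^ 3) ^ m ≤ (9 / 10 : ℝ) ^ m := by
    rw [div_le_iff₀ hm]
    have : 0 ≤ (9 / 10 : ℝ) ^ m := by positivity
    nlinarith
  rw [hl]
  calc x ^ k / x ^ (8 * n) ≤ x ^ c * (1 / (x ^ 3) ^ m) := by
        rw [div_le_iff₀ hn, mul_one_div, div_mul_eq_mul_div, le_div_iff₀ hm]
        linarith
    _ ≤ _ := mul_le_mul_of_nonneg_left h5 hc.le

theorem srA : ∃ C1 : ℝ, 1 ≤ C1 ∧
    (∀ l v E : ℕ, 2 ≤ l → ∑ k ∈ Icc 1 E, (2 * ((k : ℝ) + 1) * (l : ℝ) ^ (k / 3)) *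
      (2 / (l : ℝ) ^ ((k - v + 1) / 2)) * 2 ≤ hh C1 l v) ∧
    (∀ l E : ℕ, 2 ≤ l → ∑ k ∈ Icc 2 E, ((k : ℝ) + 1) *
      min (2 / (l : ℝ) ^ 2) (2 / (l : ℝ) ^ ((k + 1) / 2)) * 2 ≤ C1 / (l : ℝ) ^ 2) ∧
    (∀ l v E : ℕ, 2 ≤ l → ∑ k ∈ Icc 1 E, (l : ℝ) ^ ((k : ℝ) / 8) *
      (2 / (l : ℝ) ^ ((k - v + 1) / 2)) ≤ C1 * ((v : ℝ) + 1) * (l : ℝ) ^ ((v : ℝ) / 8)) ∧
    (∀ l E : ℕ, 2 ≤ l → ∑ k ∈ Icc 2 E, (l : ℝ) ^ ((k : ℝ) / 8) *
      min (2 / (l : ℝ) ^ 2) (2 / (l : ℝ) ^ ((k + 1) / 2)) ≤ C1 / (l : ℝ) ^ (3 / 2 : ℝ)) := by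
  obtain ⟨S, hS1, hS2⟩ := hS
  refine ⟨8 + 32 * S, by linarith, ?_, ?_, ?_, ?_⟩
  · intro l v E hl
    have hlR : (2 : ℝ) ≤ l := by exact_mod_cast hl
    have hl0 : (0 : ℝ) < l := by linarith
    unfold hh
    split_ifs with hv
    · subst hv
      have ht : ∀ k ∈ Icc 1 E, (2 * ((k : ℝ) + 1) * (l : ℝ) ^ (k / 3)) *
          (2 / (l : ℝ) ^ ((k - 0 + 1) / 2)) * 2 ≤
          32 / (l : ℝ) * (((k : ℝ) + 2) * (9 / 10 : ℝ) ^ k) := by
        intro k hk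
        rw [Finset.mem_Icc] at hk
        have h1 := ky (l : ℝ) hlR (k / 3 + 1) 0 ((k - 0 + 1) / 2) (k / 6 - 1) k (by omega) (by omega)
        rw [pow_zero, one_mul, pow_succ] at h1
        have h2 : (l : ℝ) ^ (k / 3) / (l : ℝ) ^ ((k - 0 + 1) / 2) ≤
            1 / (l : ℝ) * (4 * (9 / 10 : ℝ) ^ k) := by
          rw [one_div, inv_mul_eq_div, le_div_iff₀ hl0, div_mul_eq_mul_div]
          exact h1
        have h3 : (2 * ((k : ℝ) + 1) * (l : ℝ) ^ (k / 3)) *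
            (2 / (l : ℝ) ^ ((k - 0 + 1) / 2)) * 2 =
            8 * ((k : ℝ) + 1) * ((l : ℝ) ^ (k / 3) / (l : ℝ) ^ ((k - 0 + 1) / 2)) := by ring
        rw [h3]
        have h4 : 8 * ((k : ℝ) + 1) * ((l : ℝ) ^ (k / 3) / (l : ℝ) ^ ((k - 0 + 1) / 2)) ≤
            8 * ((k : ℝ) + 2) * (1 / (l : ℝ) * (4 * (9 / 10 : ℝ) ^ k)) := by
          apply mul_le_mul _ h2 (by positivity) (by positivity)
          linarith
        refine h4.trans (le_of_eq ?_)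
        ring
      calc _ ≤ ∑ k ∈ Icc 1 E, 32 / (l : ℝ) * (((k : ℝ) + 2) * (9 / 10 : ℝ) ^ k) :=
            Finset.sum_le_sum ht
        _ = 32 / (l : ℝ) * ∑ k ∈ Icc 1 E, ((k : ℝ) + 2) * (9 / 10 : ℝ) ^ k := by
            rw [Finset.mul_sum]
        _ ≤ 32 / (l : ℝ) * S := mul_le_mul_of_nonneg_left (hS2 _) (by positivity)
        _ ≤ (8 + 32 * S) / (l : ℝ) := by
            rw [div_mul_eq_mul_div]
            exact div_le_div_of_nonneg_right (by linarith) hl0.le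
    · refine (spl _ (fun k => by positivity) v E).trans ?_
      have hA : ∑ k ∈ range (v + 1), (2 * ((k : ℝ) + 1) * (l : ℝ) ^ (k / 3)) *
          (2 / (l : ℝ) ^ ((k - v + 1) / 2)) * 2 ≤
          ∑ _k ∈ range (v + 1), 8 * ((v : ℝ) + 1) * (l : ℝ) ^ (v / 3) := by
        refine Finset.sum_le_sum fun k hk => ?_
        rw [Finset.mem_range] at hk
        have e1 : (k - v + 1) / 2 = 0 := by omega
        rw [e1, pow_zero]
        have h1 : (l : ℝ) ^ (k / 3) ≤ (l : ℝ) ^ (v / 3) :=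
          pow_le_pow_right₀ (by linarith) (Nat.div_le_div_right (by omega))
        have h2 : (k : ℝ) ≤ v := by exact_mod_cast (by omega : k ≤ v)
        have h3 : ((k : ℝ) + 1) * (l : ℝ) ^ (k / 3) ≤ ((v : ℝ) + 1) * (l : ℝ) ^ (v / 3) :=
          mul_le_mul (by linarith) h1 (by positivity) (by positivity)
        nlinarith
      have hB : ∑ r ∈ range E, (2 * (((v + 1 + r : ℕ) : ℝ) + 1) * (l : ℝ) ^ ((v + 1 + r) / 3)) *
          (2 / (l : ℝ) ^ (((v + 1 + r) - v + 1) / 2)) * 2 ≤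
          ∑ r ∈ range E, 32 * ((v : ℝ) + 1) * (l : ℝ) ^ (v / 3) *
            (((r : ℝ) + 2) * (9 / 10 : ℝ) ^ r) := by
        refine Finset.sum_le_sum fun r _ => ?_
        have h1 := ky (l : ℝ) hlR ((v + 1 + r) / 3) (v / 3) (((v + 1 + r) - v + 1) / 2)
          ((r - 3) / 6) r (by omega) (by omega)
        have h2 : (((v + 1 + r : ℕ) : ℝ) + 1) ≤ ((v : ℝ) + 1) * ((r : ℝ) + 2) := by
          push_cast
          have : (0 : ℝ) ≤ (v : ℝ) * r := by positivity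
          have : (0 : ℝ) ≤ (v : ℝ) := by positivity
          nlinarith
        have h3 : (2 * (((v + 1 + r : ℕ) : ℝ) + 1) * (l : ℝ) ^ ((v + 1 + r) / 3)) *
            (2 / (l : ℝ) ^ (((v + 1 + r) - v + 1) / 2)) * 2 =
            8 * ((((v + 1 + r : ℕ) : ℝ) + 1) *
              ((l : ℝ) ^ ((v + 1 + r) / 3) / (l : ℝ) ^ (((v + 1 + r) - v + 1) / 2))) := by ring
        rw [h3]
        have h4 : (((v + 1 + r : ℕ) : ℝ) + 1) *
              ((l : ℝ) ^ ((v + 1 + r) / 3) / (l : ℝ) ^ (((v + 1 + r) - v + 1) / 2)) ≤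
            (((v : ℝ) + 1) * ((r : ℝ) + 2)) * ((l : ℝ) ^ (v / 3) * (4 * (9 / 10 : ℝ) ^ r)) :=
          mul_le_mul h2 h1 (by positivity) (by positivity)
        linarith
      refine (add_le_add hA hB).trans ?_
      rw [Finset.sum_const, Finset.card_range, nsmul_eq_mul, ← Finset.mul_sum]
      have h5 := hS2 (range E)
      have h6 : (0 : ℝ) ≤ 32 * ((v : ℝ) + 1) * (l : ℝ) ^ (v / 3) := by positivity
      have h7 := mul_le_mul_of_nonneg_left h5 h6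
      have h8 : 32 * ((v : ℝ) + 1) * (l : ℝ) ^ (v / 3) * S ≤
          32 * ((v : ℝ) + 1) ^ 2 * (l : ℝ) ^ (v / 3) * S := by
        have : ((v : ℝ) + 1) ≤ ((v : ℝ) + 1) ^ 2 := by
          have : (0 : ℝ) ≤ (v : ℝ) := by positivity
          nlinarith
        have h9 : (0 : ℝ) ≤ 32 * (l : ℝ) ^ (v / 3) * S := by positivity
        nlinarith
      push_cast
      nlinarith
  · intro l E hl
    have hlR : (2 : ℝ) ≤ l := by exact_mod_cast hl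
    have hl0 : (0 : ℝ) < l := by linarith
    have ht : ∀ k ∈ Icc 2 E, ((k : ℝ) + 1) *
        min (2 / (l : ℝ) ^ 2) (2 / (l : ℝ) ^ ((k + 1) / 2)) * 2 ≤
        16 / (l : ℝ) ^ 2 * (((k : ℝ) + 2) * (9 / 10 : ℝ) ^ k) := by
      intro k hk
      rw [Finset.mem_Icc] at hk
      have h1 := ky (l : ℝ) hlR 2 0 (max 2 ((k + 1) / 2)) ((k + 1) / 2 - 2) k (by omega) (by omega)
      rw [pow_zero, one_mul] at h1
      have h2 : min (2 / (l : ℝ) ^ 2) (2 / (l : ℝ) ^ ((k + 1) / 2)) =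
          2 / (l : ℝ) ^ 2 * ((l : ℝ) ^ 2 / (l : ℝ) ^ (max 2 ((k + 1) / 2))) := by
        rcases le_total 2 ((k + 1) / 2) with h | h
        · rw [max_eq_right h, min_eq_right]
          · field_simp
          · apply div_le_div_of_nonneg_left (by norm_num) (by positivity)
            exact pow_le_pow_right₀ (by linarith) h
        · rw [max_eq_left h, min_eq_left]
          · field_simp
          · apply div_le_div_of_nonneg_left (by norm_num) (by positivity)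
            exact pow_le_pow_right₀ (by linarith) h
      rw [h2]
      have h3 : 2 / (l : ℝ) ^ 2 * ((l : ℝ) ^ 2 / (l : ℝ) ^ (max 2 ((k + 1) / 2))) ≤
          2 / (l : ℝ) ^ 2 * (4 * (9 / 10 : ℝ) ^ k) := mul_le_mul_of_nonneg_left h1 (by positivity)
      have h4 : ((k : ℝ) + 1) * (2 / (l : ℝ) ^ 2 *
          ((l : ℝ) ^ 2 / (l : ℝ) ^ (max 2 ((k + 1) / 2)))) ≤
          ((k : ℝ) + 2) * (2 / (l : ℝ) ^ 2 * (4 * (9 / 10 : ℝ) ^ k)) :=
        mul_le_mul (by linarith) h3 (by positivity) (by positivity)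
      have h5 := mul_le_mul_of_nonneg_right h4 (by norm_num : (0 : ℝ) ≤ 2)
      refine h5.trans (le_of_eq ?_)
      ring
    calc _ ≤ ∑ k ∈ Icc 2 E, 16 / (l : ℝ) ^ 2 * (((k : ℝ) + 2) * (9 / 10 : ℝ) ^ k) :=
          Finset.sum_le_sum ht
      _ = 16 / (l : ℝ) ^ 2 * ∑ k ∈ Icc 2 E, ((k : ℝ) + 2) * (9 / 10 : ℝ) ^ k := by
          rw [Finset.mul_sum]
      _ ≤ 16 / (l : ℝ) ^ 2 * S := mul_le_mul_of_nonneg_left (hS2 _) (by positivity)
      _ ≤ (8 + 32 * S) / (l : ℝ) ^ 2 := by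
          rw [div_mul_eq_mul_div]
          exact div_le_div_of_nonneg_right (by linarith) (by positivity)
  · intro l v E hl
    obtain ⟨x, hx1, hx8, hx3, hxk, _⟩ := xx l hl
    have hx0 : 0 < x := by linarith
    have hl0 : (0 : ℝ) < l := by
      rw [← hx8]
      positivity
    simp only [hxk]
    refine (spl _ (fun k => by positivity) v E).trans ?_
    have hA : ∑ k ∈ range (v + 1), x ^ k * (2 / (l : ℝ) ^ ((k - v + 1) / 2)) ≤
        ∑ _k ∈ range (v + 1), 2 * x ^ v := by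
      refine Finset.sum_le_sum fun k hk => ?_
      rw [Finset.mem_range] at hk
      have e1 : (k - v + 1) / 2 = 0 := by omega
      rw [e1, pow_zero]
      have h1 : x ^ k ≤ x ^ v := pow_le_pow_right₀ hx1 (by omega)
      linarith
    have hB : ∑ r ∈ range E, x ^ (v + 1 + r) * (2 / (l : ℝ) ^ (((v + 1 + r) - v + 1) / 2)) ≤
        ∑ r ∈ range E, 2 * x ^ v * (((r : ℝ) + 2) * (9 / 10 : ℝ) ^ r) := by
      refine Finset.sum_le_sum fun r _ => ?_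
      have h1 := ky2 x (l : ℝ) hx1 hx8 hx3 (v + 1 + r) (((v + 1 + r) - v + 1) / 2) v r (by omega)
      have h2 : x ^ (v + 1 + r) * (2 / (l : ℝ) ^ (((v + 1 + r) - v + 1) / 2)) =
          2 * (x ^ (v + 1 + r) / (l : ℝ) ^ (((v + 1 + r) - v + 1) / 2)) := by ring
      rw [h2]
      have h3 : (9 / 10 : ℝ) ^ r ≤ ((r : ℝ) + 2) * (9 / 10 : ℝ) ^ r := by
        have : (0 : ℝ) ≤ (r : ℝ) := by positivity
        have : (0 : ℝ) ≤ (9 / 10 : ℝ) ^ r := by positivity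
        nlinarith
      have h4 : x ^ v * (9 / 10 : ℝ) ^ r ≤ x ^ v * (((r : ℝ) + 2) * (9 / 10 : ℝ) ^ r) :=
        mul_le_mul_of_nonneg_left h3 (by positivity)
      linarith
    refine (add_le_add hA hB).trans ?_
    rw [Finset.sum_const, Finset.card_range, nsmul_eq_mul, ← Finset.mul_sum]
    have h5 := mul_le_mul_of_nonneg_left (hS2 (range E)) (by positivity : (0 : ℝ) ≤ 2 * x ^ v)
    have hv0 : (0 : ℝ) ≤ (v : ℝ) := by positivity
    have h6 : 0 ≤ x ^ v * ((v : ℝ) * S) := by positivity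
    have h7 : 0 ≤ x ^ v * S := by positivity
    have h8 : 0 ≤ x ^ v * (v : ℝ) := by positivity
    have h9 : 0 ≤ x ^ v := by positivity
    push_cast
    nlinarith
  · intro l E hl
    obtain ⟨x, hx1, hx8, hx3, hxk, hx12⟩ := xx l hl
    have hx0 : 0 < x := by linarith
    have hlR : (2 : ℝ) ≤ l := by exact_mod_cast hl
    have hl0 : (0 : ℝ) < l := by linarith
    simp only [hxk, hx12]
    have ht : ∀ k ∈ Icc 2 E, x ^ k *
        min (2 / (l : ℝ) ^ 2) (2 / (l : ℝ) ^ ((k + 1) / 2)) ≤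
        4 / x ^ 12 * (((k : ℝ) + 2) * (9 / 10 : ℝ) ^ k) := by
      intro k hk
      rw [Finset.mem_Icc] at hk
      have h1 := ky2 x (l : ℝ) hx1 hx8 hx3 (k + 12) (max 2 ((k + 1) / 2)) 0 (k - 4) (by omega)
      rw [pow_zero, one_mul, pow_add] at h1
      have h2 : min (2 / (l : ℝ) ^ 2) (2 / (l : ℝ) ^ ((k + 1) / 2)) ≤
          2 / (l : ℝ) ^ (max 2 ((k + 1) / 2)) := by
        rcases le_total 2 ((k + 1) / 2) with h | h
        · rw [max_eq_right h]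
          exact min_le_right _ _
        · rw [max_eq_left h]
          exact min_le_left _ _
      have h3 : (9 / 10 : ℝ) ^ (k - 4) ≤ 2 * (9 / 10 : ℝ) ^ k := by
        have e1 : (9 / 10 : ℝ) ^ ((k - 4) + 4) ≤ (9 / 10 : ℝ) ^ k :=
          pow_le_pow_of_le_one (by norm_num) (by norm_num) (by omega)
        rw [pow_add] at e1
        have e2 : (1 / 2 : ℝ) ≤ (9 / 10 : ℝ) ^ 4 := by norm_num
        have e3 : (0 : ℝ) ≤ (9 / 10 : ℝ) ^ (k - 4) := by positivity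
        nlinarith
      have h4 : (9 / 10 : ℝ) ^ k ≤ ((k : ℝ) + 2) * (9 / 10 : ℝ) ^ k := by
        have : (0 : ℝ) ≤ (k : ℝ) := by positivity
        have : (0 : ℝ) ≤ (9 / 10 : ℝ) ^ k := by positivity
        nlinarith
      have h5 : x ^ k * (2 / (l : ℝ) ^ (max 2 ((k + 1) / 2))) =
          2 / x ^ 12 * (x ^ k * x ^ 12 / (l : ℝ) ^ (max 2 ((k + 1) / 2))) := by
        field_simp
      calc x ^ k * min (2 / (l : ℝ) ^ 2) (2 / (l : ℝ) ^ ((k + 1) / 2)) ≤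
          x ^ k * (2 / (l : ℝ) ^ (max 2 ((k + 1) / 2))) :=
            mul_le_mul_of_nonneg_left h2 (by positivity)
        _ = 2 / x ^ 12 * (x ^ k * x ^ 12 / (l : ℝ) ^ (max 2 ((k + 1) / 2))) := h5
        _ ≤ 2 / x ^ 12 * (2 * (((k : ℝ) + 2) * (9 / 10 : ℝ) ^ k)) :=
            mul_le_mul_of_nonneg_left (by linarith) (by positivity)
        _ = _ := by ring
    calc _ ≤ ∑ k ∈ Icc 2 E, 4 / x ^ 12 * (((k : ℝ) + 2) * (9 / 10 : ℝ) ^ k) :=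
          Finset.sum_le_sum ht
      _ = 4 / x ^ 12 * ∑ k ∈ Icc 2 E, ((k : ℝ) + 2) * (9 / 10 : ℝ) ^ k := by
          rw [Finset.mul_sum]
      _ ≤ 4 / x ^ 12 * S := mul_le_mul_of_nonneg_left (hS2 _) (by positivity)
      _ ≤ (8 + 32 * S) / x ^ 12 := by
          rw [div_mul_eq_mul_div]
          exact div_le_div_of_nonneg_right (by linarith) (by positivity)

end Pool.Agent.PP5C
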