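import Pool.Agent.PP5C.Lev
import Pool.Agent.PPW.Eul
import Pool.Agent.PPS.Ggl

/-!
# SrX: the final series (difficulty 3)

`rk K l e = K (e+1)² l ^ (7e + 3e/4) / l ^ (9e)`, exponent `-(2 e - 3 e / 4) ≤ - max (2) (5 e / 4)` (reals, `e ≥ 1`).
* (1) `∑ n0, r0 K n0 * r0 K n0 ≤ ∏ (1 + K² / l²)` over squarefree `n0` (`PPW.eul` with
  `f n = if Squarefree n then .. else 0`).
* (2) `PPW.eul` with `f n = w1 K n * r1 K n`: at a prime `∑_{e ≥ 1} K² (e+1)⁴ l ^ (e/3 + 7e + 3e/4 - 9e)`; the exponent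
  is `≤ -2` and `≤ -11 e / 12 + ..` (`e/3 ≤ e/3` real, `3e/4` real: total `≤ -11e/12`): `≤ C / l²`... e.g.
  `l ^ (-2) * 2 ^ (-(11 e / 12 - 2))` for `e ≥ 3` and `e = 1, 2` directly.
* (3) `Y < n`: `1 ≤ Y ^ (-1/8) n ^ (1/8)`, `f n = r1 K n * n ^ (1/8)`: at a prime
  `∑ K (e+1)² l ^ (e/8 - 5e/4)`, `e = 1`: `l ^ (1/8 - 2)`, in general exponent `≤ -3/2` and `≤ -9e/8`: `≤ C / l ^ (3/2)`.
* (4) `ra K a ≤ gg a ^ j` with `j = ⌈K⌉₊` (`1 + K / l ≤ (1 + 1/l) ^ j ≤ (1 - 1/l)⁻¹ ^ j`), then `lev κ (j + 2)`.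
-/

set_option autoImplicit false

namespace Pool.Agent.PP5C

open Finset Pool.Agent.PPS

private noncomputable def SrX_r : ℝ := (2 : ℝ) ^ (-(1 / 4) : ℝ)

private theorem SrX_r0 : 0 < SrX_r := by unfold SrX_r; positivity

private theorem SrX_r1 : SrX_r < 1 := by
  unfold SrX_r
  exact Real.rpow_lt_one_of_one_lt_of_neg (by norm_num) (by norm_num)

private theorem SrX_summ : Summable (fun e : ℕ => ((e : ℝ) + 1) ^ 4 * SrX_r ^ e) := by
  have h := summable_pow_mul_geometric_of_norm_lt_one 4 (r := SrX_r)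
    (by rw [Real.norm_of_nonneg SrX_r0.le]; exact SrX_r1)
  have h2 := (summable_nat_add_iff 1).mpr h
  have h3 := h2.mul_left (SrX_r⁻¹)
  refine h3.congr fun e => ?_
  have hr := SrX_r0.ne'
  push_cast
  rw [pow_succ SrX_r e]
  field_simp

private noncomputable def SrX_S : ℝ := ∑' e : ℕ, ((e : ℝ) + 1) ^ 4 * SrX_r ^ e

private theorem SrX_sumZ : Summable (fun n : ℕ => 1 / (n : ℝ) ^ (3 / 2 : ℝ)) :=
  Real.summable_one_div_nat_rpow.mpr (by norm_num)

private noncomputable def SrX_Z : ℝ := ∑' n : ℕ, 1 / (n : ℝ) ^ (3 / 2 : ℝ)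

private theorem SrX_S0 : 0 ≤ SrX_S := tsum_nonneg fun e => by
  have := SrX_r0
  positivity

private theorem SrX_pow {l : ℕ} (hl : 2 ≤ l) {e : ℕ} {x : ℝ} (hx : 3 / 2 + (e : ℝ) / 4 ≤ x) :
    (l : ℝ) ^ (-x) ≤ (1 / (l : ℝ) ^ (3 / 2 : ℝ)) * SrX_r ^ e := by
  have hl2 : (2 : ℝ) ≤ l := by exact_mod_cast hl
  have he : (0 : ℝ) ≤ (e : ℝ) := Nat.cast_nonneg e
  have h1 : (l : ℝ) ^ (-x) ≤ (l : ℝ) ^ (-(3 / 2 + (e : ℝ) / 4)) :=
    Real.rpow_le_rpow_of_exponent_le (by linarith) (by linarith)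
  have h2 : (l : ℝ) ^ (-(3 / 2 + (e : ℝ) / 4)) =
      (1 / (l : ℝ) ^ (3 / 2 : ℝ)) * (l : ℝ) ^ (-((e : ℝ) / 4)) := by
    rw [neg_add, Real.rpow_add (by linarith), Real.rpow_neg (by linarith) (3 / 2), one_div]
  have h3 : (l : ℝ) ^ (-((e : ℝ) / 4)) ≤ (2 : ℝ) ^ (-((e : ℝ) / 4)) :=
    Real.rpow_le_rpow_of_nonpos (by norm_num) hl2 (by linarith)
  have h4 : (2 : ℝ) ^ (-((e : ℝ) / 4)) = SrX_r ^ e := by
    unfold SrX_r
    rw [← Real.rpow_natCast, ← Real.rpow_mul (by norm_num)]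
    congr 1
    ring
  rw [h2] at h1
  rw [h4] at h3
  exact h1.trans (mul_le_mul_of_nonneg_left h3 (by positivity))

private theorem SrX_mul (φ : ℕ → ℕ → ℝ) (m n : ℕ) (hm : m ≠ 0) (hn : n ≠ 0)
    (hc : Nat.Coprime m n) :
    ∏ l ∈ (m * n).primeFactors, φ l ((m * n).factorization l) =
      (∏ l ∈ m.primeFactors, φ l (m.factorization l)) *
        ∏ l ∈ n.primeFactors, φ l (n.factorization l) := by
  rw [hc.primeFactors_mul, Finset.prod_union hc.disjoint_primeFactors]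
  congr 1
  · refine Finset.prod_congr rfl fun l hl => ?_
    have h0 : n.factorization l = 0 := by
      refine Nat.factorization_eq_zero_of_not_dvd fun h => ?_
      exact Nat.not_coprime_of_dvd_of_dvd (Nat.prime_of_mem_primeFactors hl).one_lt
        (Nat.dvd_of_mem_primeFactors hl) h hc
    rw [Nat.factorization_mul hm hn, Finsupp.add_apply, h0, add_zero]
  · refine Finset.prod_congr rfl fun l hl => ?_
    have h0 : m.factorization l = 0 := by
      refine Nat.factorization_eq_zero_of_not_dvd fun h => ?_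
      exact Nat.not_coprime_of_dvd_of_dvd (Nat.prime_of_mem_primeFactors hl).one_lt
        h (Nat.dvd_of_mem_primeFactors hl) hc
    rw [Nat.factorization_mul hm hn, Finsupp.add_apply, h0, zero_add]

private theorem SrX_main (K : ℝ) (φ : ℕ → ℕ → ℝ) (h0 : ∀ l e, 0 ≤ φ l e)
    (h1 : ∀ l : ℕ, l.Prime → ∀ e : ℕ, 1 ≤ e →
      φ l e ≤ K ^ 2 * (((e : ℝ) + 1) ^ 4 * SrX_r ^ e) * (1 / (l : ℝ) ^ (3 / 2 : ℝ))) (N : ℕ) :
    ∑ n ∈ Icc 1 N, ∏ l ∈ n.primeFactors, φ l (n.factorization l) ≤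
      Real.exp (K ^ 2 * SrX_S * SrX_Z) := by
  have hb : ∀ l : ℕ, l.Prime → ∀ E : ℕ, ∑ e ∈ Icc 1 E,
      (fun n : ℕ => ∏ l ∈ n.primeFactors, φ l (n.factorization l)) (l ^ e) ≤
        K ^ 2 * SrX_S * (1 / (l : ℝ) ^ (3 / 2 : ℝ)) := by
    intro l hl E
    have e1 : ∀ e ∈ Icc 1 E, (fun n : ℕ => ∏ l ∈ n.primeFactors, φ l (n.factorization l)) (l ^ e) ≤
        K ^ 2 * (((e : ℝ) + 1) ^ 4 * SrX_r ^ e) * (1 / (l : ℝ) ^ (3 / 2 : ℝ)) := by
      intro e he
      have he1 : 1 ≤ e := (Finset.mem_Icc.mp he).1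
      have e2 : (fun n : ℕ => ∏ l ∈ n.primeFactors, φ l (n.factorization l)) (l ^ e) = φ l e := by
        simp only
        rw [Nat.primeFactors_prime_pow (by omega) hl, Finset.prod_singleton,
          hl.factorization_pow, Finsupp.single_eq_same]
      rw [e2]
      exact h1 l hl e he1
    refine (Finset.sum_le_sum e1).trans ?_
    rw [← Finset.sum_mul, ← Finset.mul_sum]
    refine mul_le_mul_of_nonneg_right ?_ (by positivity)
    refine mul_le_mul_of_nonneg_left ?_ (by positivity)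
    exact SrX_summ.sum_le_tsum _ (fun e _ => by
      have := SrX_r0
      positivity)
  have h2 := PPW.eul (fun n : ℕ => ∏ l ∈ n.primeFactors, φ l (n.factorization l))
    (fun l : ℕ => K ^ 2 * SrX_S * (1 / (l : ℝ) ^ (3 / 2 : ℝ)))
    (fun n => Finset.prod_nonneg fun l _ => h0 _ _)
    (by simp)
    (fun m n hm hn hc => SrX_mul φ m n hm hn hc) hb N
  refine h2.trans ?_
  have h3 : ∏ l ∈ (Icc 1 N).filter Nat.Prime, (1 + K ^ 2 * SrX_S * (1 / (l : ℝ) ^ (3 / 2 : ℝ))) ≤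
      ∏ l ∈ (Icc 1 N).filter Nat.Prime,
        Real.exp (K ^ 2 * SrX_S * (1 / (l : ℝ) ^ (3 / 2 : ℝ))) := by
    refine Finset.prod_le_prod (fun l _ => ?_) (fun l _ => ?_)
    · have := SrX_S0
      positivity
    · rw [add_comm]
      exact Real.add_one_le_exp _
  refine h3.trans ?_
  rw [← Real.exp_sum, ← Finset.mul_sum]
  refine Real.exp_le_exp.mpr ?_
  refine mul_le_mul_of_nonneg_left ?_ (by have := SrX_S0; positivity)
  exact SrX_sumZ.sum_le_tsum _ (fun n _ => by positivity)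

private theorem SrX_rk (K : ℝ) (l e : ℕ) (hl : 2 ≤ l) :
    rk K l e = K * ((e : ℝ) + 1) ^ 2 * (l : ℝ) ^ (-(2 * (e : ℝ) - ((3 * e / 4 : ℕ) : ℝ))) := by
  have hl0 : (0 : ℝ) < l := by
    have : 0 < l := by omega
    exact_mod_cast this
  have h1 : (l : ℝ) ^ (-(2 * (e : ℝ) - ((3 * e / 4 : ℕ) : ℝ))) =
      (l : ℝ) ^ (7 * e + 3 * e / 4) / (l : ℝ) ^ (9 * e) := by
    rw [← Real.rpow_natCast (l : ℝ) (7 * e + 3 * e / 4), ← Real.rpow_natCast (l : ℝ) (9 * e),
      ← Real.rpow_sub hl0]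
    congr 1
    push_cast
    ring
  rw [rk, h1, mul_div_assoc]

private theorem SrX_fl1 (e : ℕ) (he : 1 ≤ e) :
    3 / 2 + (e : ℝ) / 4 ≤ 2 * (e : ℝ) - ((3 * e / 4 : ℕ) : ℝ) - ((e / 3 : ℕ) : ℝ) := by
  have h : 6 + e + 4 * (3 * e / 4) + 4 * (e / 3) ≤ 8 * e := by
    rcases (show e = 1 ∨ e = 2 ∨ 3 ≤ e by omega) with h | h | h
    · subst h; norm_num
    · subst h; norm_num
    · omega
  have h' : (6 : ℝ) + (e : ℝ) + 4 * ((3 * e / 4 : ℕ) : ℝ) + 4 * ((e / 3 : ℕ) : ℝ) ≤ 8 * (e : ℝ) := by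
    exact_mod_cast h
  linarith

private theorem SrX_fl2 (e : ℕ) (he : 1 ≤ e) :
    3 / 2 + (e : ℝ) / 4 ≤ 2 * (e : ℝ) - ((3 * e / 4 : ℕ) : ℝ) - (e : ℝ) / 8 := by
  have h : 12 + 3 * e + 8 * (3 * e / 4) ≤ 16 * e := by
    rcases (show e = 1 ∨ 2 ≤ e by omega) with h | h
    · subst h; norm_num
    · omega
  have h' : (12 : ℝ) + 3 * (e : ℝ) + 8 * ((3 * e / 4 : ℕ) : ℝ) ≤ 16 * (e : ℝ) := by
    exact_mod_cast h
  linarith

private theorem SrX_gg (K : ℝ) (hK : 1 ≤ K) (a : ℕ) : ra K a ≤ gg a ^ ⌈K⌉₊ := by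
  rw [ra, gg, ← Finset.prod_pow]
  refine Finset.prod_le_prod (fun l _ => by positivity) fun l hl => ?_
  have h2 : (2 : ℝ) ≤ (l : ℝ) := by
    exact_mod_cast (Nat.prime_of_mem_primeFactors hl).two_le
  have hl0 : (0 : ℝ) < (l : ℝ) := by linarith
  have h1 : 1 + K / (l : ℝ) ≤ 1 + (⌈K⌉₊ : ℝ) * (1 / (l : ℝ)) := by
    rw [mul_one_div]
    have := div_le_div_of_nonneg_right (Nat.le_ceil K) hl0.le
    linarith
  have h3 : 1 + (⌈K⌉₊ : ℝ) * (1 / (l : ℝ)) ≤ (1 + 1 / (l : ℝ)) ^ ⌈K⌉₊ :=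
    one_add_mul_le_pow (by have : 0 ≤ 1 / (l : ℝ) := by positivity
                           linarith) _
  have h4 : 1 + 1 / (l : ℝ) ≤ (1 - 1 / (l : ℝ))⁻¹ := by
    have h5 : 0 < 1 - 1 / (l : ℝ) := by
      have : 1 / (l : ℝ) ≤ 1 / 2 := one_div_le_one_div_of_le (by norm_num) h2
      linarith
    rw [le_inv_comm₀ (by positivity) h5, inv_eq_one_div, le_div_iff₀ (by positivity)]
    have : 0 ≤ (1 / (l : ℝ)) ^ 2 := by positivity
    nlinarith
  exact h1.trans (h3.trans (pow_le_pow_left₀ (by positivity) h4 _))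

private noncomputable def SrX_f1 (K : ℝ) (l e : ℕ) : ℝ :=
  if e = 1 ∧ 2 ≤ l then (K / (l : ℝ)) * (K / (l : ℝ)) else 0

private noncomputable def SrX_f2 (K : ℝ) (l e : ℕ) : ℝ :=
  if 2 ≤ l then (K * ((e : ℝ) + 1) ^ 2 * (l : ℝ) ^ (e / 3)) * rk K l e else 0

private noncomputable def SrX_f3 (K : ℝ) (l e : ℕ) : ℝ :=
  if 2 ≤ l then rk K l e * ((l : ℝ) ^ e) ^ (1 / 8 : ℝ) else 0

open Classical in
theorem srx (K κ : ℝ) (hK : 1 ≤ K) (hκ : 0 ≤ κ) : ∃ C : ℝ, 1 ≤ C ∧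
    (∀ N : ℕ, ∑ n ∈ (Icc 1 N).filter Squarefree, r0 K n * r0 K n ≤ C) ∧
    (∀ N : ℕ, ∑ n ∈ Icc 1 N, w1 K n * r1 K n ≤ C) ∧
    (∀ (N : ℕ) (Y : ℝ), 1 ≤ Y → ∑ n ∈ (Icc 1 N).filter (fun n : ℕ => Y < (n : ℝ)), r1 K n ≤
      C * Y ^ (-(1 / 8) : ℝ)) ∧
    (∀ (z : ℝ) (N : ℕ), 2 ≤ z → ∑ i ∈ range N, ((2 : ℝ) ^ (κ * 2 ^ i) / Real.log (ww z i)) *
      ∑ a ∈ AA z i, gg a ^ 2 * ra K a / (a : ℝ) ≤ C) := by
  have hK0 : (0 : ℝ) < K := by linarith
  obtain ⟨C2, hC2, hlev⟩ := lev κ hκ (⌈K⌉₊ + 2)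
  have hE : 0 < Real.exp (K ^ 2 * SrX_S * SrX_Z) := Real.exp_pos _
  have hr0 := SrX_r0
  refine ⟨Real.exp (K ^ 2 * SrX_S * SrX_Z) + C2 + 1, by linarith, ?_, ?_, ?_, ?_⟩
  · intro N
    have hm := SrX_main K (SrX_f1 K)
      (fun l e => by
        rw [SrX_f1]
        split_ifs
        · positivity
        · exact le_rfl)
      (fun l hl e he => by
        rw [SrX_f1]
        split_ifs with hc
        · have h1 := SrX_pow (l := l) (e := e) (x := 2) hc.2 (by rw [hc.1]; norm_num)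
          have hl0 : (0 : ℝ) < (l : ℝ) := by exact_mod_cast hl.pos
          have h2 : (l : ℝ) ^ (-2 : ℝ) = 1 / ((l : ℝ) * (l : ℝ)) := by
            rw [Real.rpow_neg hl0.le, one_div]
            congr 1
            have : (2 : ℝ) = ((2 : ℕ) : ℝ) := by norm_num
            rw [this, Real.rpow_natCast, sq]
          rw [h2] at h1
          have h3 : (K / (l : ℝ)) * (K / (l : ℝ)) = K ^ 2 * (1 / ((l : ℝ) * (l : ℝ))) := by
            field_simp
          rw [h3, mul_assoc]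
          refine mul_le_mul_of_nonneg_left (h1.trans ?_) (by positivity)
          have h4 : (1 : ℝ) ≤ ((e : ℝ) + 1) ^ 4 := one_le_pow₀ (by
            have : (0 : ℝ) ≤ (e : ℝ) := Nat.cast_nonneg e
            linarith)
          have h5 : 0 ≤ SrX_r ^ e * (1 / (l : ℝ) ^ (3 / 2 : ℝ)) := by positivity
          nlinarith
        · positivity) N
    have h1 : ∑ n ∈ (Icc 1 N).filter Squarefree, r0 K n * r0 K n ≤
        ∑ n ∈ Icc 1 N, ∏ l ∈ n.primeFactors, SrX_f1 K l (n.factorization l) := by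
      have e1 : ∑ n ∈ (Icc 1 N).filter Squarefree, r0 K n * r0 K n =
          ∑ n ∈ (Icc 1 N).filter Squarefree, ∏ l ∈ n.primeFactors,
            SrX_f1 K l (n.factorization l) := by
        refine Finset.sum_congr rfl fun n hn => ?_
        rw [r0, ← Finset.prod_mul_distrib]
        refine Finset.prod_congr rfl fun l hl => ?_
        have hpl := Nat.prime_of_mem_primeFactors hl
        have hv : n.factorization l = 1 := by
          have hsq := (Finset.mem_filter.mp hn).2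
          have h2 := hsq.natFactorization_le_one l
          have h3 : 0 < n.factorization l :=
            hpl.factorization_pos_of_dvd hsq.ne_zero (Nat.dvd_of_mem_primeFactors hl)
          omega
        rw [SrX_f1, if_pos ⟨hv, hpl.two_le⟩]
      rw [e1]
      refine Finset.sum_le_sum_of_subset_of_nonneg (Finset.filter_subset _ _) fun n _ _ => ?_
      refine Finset.prod_nonneg fun l _ => ?_
      rw [SrX_f1]
      split_ifs
      · positivity
      · exact le_rfl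
    linarith [h1.trans hm]
  · intro N
    have hm := SrX_main K (SrX_f2 K)
      (fun l e => by
        rw [SrX_f2]
        split_ifs
        · rw [rk]; positivity
        · exact le_rfl)
      (fun l hl e he => by
        rw [SrX_f2, if_pos hl.two_le, SrX_rk K l e hl.two_le]
        have hl0 : (0 : ℝ) < (l : ℝ) := by exact_mod_cast hl.pos
        have h1 := SrX_pow (l := l) (e := e) hl.two_le (SrX_fl1 e he)
        have h2 : (K * ((e : ℝ) + 1) ^ 2 * (l : ℝ) ^ (e / 3)) *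
            (K * ((e : ℝ) + 1) ^ 2 * (l : ℝ) ^ (-(2 * (e : ℝ) - ((3 * e / 4 : ℕ) : ℝ)))) =
            K ^ 2 * ((e : ℝ) + 1) ^ 4 *
              (l : ℝ) ^ (-(2 * (e : ℝ) - ((3 * e / 4 : ℕ) : ℝ) - ((e / 3 : ℕ) : ℝ))) := by
          have h3 : (l : ℝ) ^ (-(2 * (e : ℝ) - ((3 * e / 4 : ℕ) : ℝ) - ((e / 3 : ℕ) : ℝ))) =
              (l : ℝ) ^ (e / 3) * (l : ℝ) ^ (-(2 * (e : ℝ) - ((3 * e / 4 : ℕ) : ℝ))) := by
            rw [← Real.rpow_natCast (l : ℝ) (e / 3), ← Real.rpow_add hl0]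
            congr 1
            ring
          rw [h3]
          ring
        rw [h2]
        have h4 : K ^ 2 * ((e : ℝ) + 1) ^ 4 *
            (l : ℝ) ^ (-(2 * (e : ℝ) - ((3 * e / 4 : ℕ) : ℝ) - ((e / 3 : ℕ) : ℝ))) ≤
            K ^ 2 * ((e : ℝ) + 1) ^ 4 * ((1 / (l : ℝ) ^ (3 / 2 : ℝ)) * SrX_r ^ e) :=
          mul_le_mul_of_nonneg_left h1 (by positivity)
        refine h4.trans (le_of_eq ?_)
        ring) N
    have h1 : ∑ n ∈ Icc 1 N, w1 K n * r1 K n = ∑ n ∈ Icc 1 N, ∏ l ∈ n.primeFactors,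
          SrX_f2 K l (n.factorization l) := by
      refine Finset.sum_congr rfl fun n hn => ?_
      rw [w1, r1, ← Finset.prod_mul_distrib]
      refine Finset.prod_congr rfl fun l hl => ?_
      rw [SrX_f2, if_pos (Nat.prime_of_mem_primeFactors hl).two_le]
    rw [h1]
    linarith
  · intro N Y hY
    have hm := SrX_main K (SrX_f3 K)
      (fun l e => by
        rw [SrX_f3]
        split_ifs
        · rw [rk]; positivity
        · exact le_rfl)
      (fun l hl e he => by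
        rw [SrX_f3, if_pos hl.two_le, SrX_rk K l e hl.two_le]
        have hl0 : (0 : ℝ) < (l : ℝ) := by exact_mod_cast hl.pos
        have h1 := SrX_pow (l := l) (e := e) hl.two_le (SrX_fl2 e he)
        have h2 : K * ((e : ℝ) + 1) ^ 2 * (l : ℝ) ^ (-(2 * (e : ℝ) - ((3 * e / 4 : ℕ) : ℝ))) *
            ((l : ℝ) ^ e) ^ (1 / 8 : ℝ) = K * ((e : ℝ) + 1) ^ 2 *
              (l : ℝ) ^ (-(2 * (e : ℝ) - ((3 * e / 4 : ℕ) : ℝ) - (e : ℝ) / 8)) := by
          rw [← Real.rpow_natCast (l : ℝ) e, ← Real.rpow_mul hl0.le, mul_assoc,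
            ← Real.rpow_add hl0]
          congr 2
          ring
        rw [h2]
        have h4 : K * ((e : ℝ) + 1) ^ 2 *
            (l : ℝ) ^ (-(2 * (e : ℝ) - ((3 * e / 4 : ℕ) : ℝ) - (e : ℝ) / 8)) ≤
            (K ^ 2 * ((e : ℝ) + 1) ^ 4) * ((1 / (l : ℝ) ^ (3 / 2 : ℝ)) * SrX_r ^ e) := by
          refine mul_le_mul ?_ h1 (by positivity) (by positivity)
          refine mul_le_mul (by nlinarith) ?_ (by positivity) (by positivity)
          refine pow_le_pow_right₀ ?_ (by norm_num)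
          have : (0 : ℝ) ≤ (e : ℝ) := Nat.cast_nonneg e
          linarith
        refine h4.trans (le_of_eq ?_)
        ring) N
    have hr1 : ∀ n : ℕ, 0 ≤ r1 K n := fun n =>
      Finset.prod_nonneg fun l _ => by rw [rk]; positivity
    have h1 : ∑ n ∈ Icc 1 N, r1 K n * (n : ℝ) ^ (1 / 8 : ℝ) = ∑ n ∈ Icc 1 N,
        ∏ l ∈ n.primeFactors, SrX_f3 K l (n.factorization l) := by
      refine Finset.sum_congr rfl fun n hn => ?_
      have hn0 : n ≠ 0 := by
        have := (Finset.mem_Icc.mp hn).1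
        omega
      have e1 : (n : ℝ) = ∏ l ∈ n.primeFactors, (l : ℝ) ^ n.factorization l := by
        have h2 := Nat.prod_factorization_pow_eq_self hn0
        rw [Finsupp.prod, Nat.support_factorization] at h2
        conv_lhs => rw [← h2]
        push_cast
        rfl
      have e2 : (n : ℝ) ^ (1 / 8 : ℝ) =
          ∏ l ∈ n.primeFactors, ((l : ℝ) ^ n.factorization l) ^ (1 / 8 : ℝ) := by
        conv_lhs => rw [e1]
        rw [Real.finsetProd_rpow _ _ (fun l _ => by positivity)]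
      rw [e2, r1, ← Finset.prod_mul_distrib]
      refine Finset.prod_congr rfl fun l hl => ?_
      rw [SrX_f3, if_pos (Nat.prime_of_mem_primeFactors hl).two_le]
    have hY0 : 0 < Y := by linarith
    have h2 : ∑ n ∈ (Icc 1 N).filter (fun n : ℕ => Y < (n : ℝ)), r1 K n ≤
        ∑ n ∈ Icc 1 N, (r1 K n * (n : ℝ) ^ (1 / 8 : ℝ)) * Y ^ (-(1 / 8) : ℝ) := by
      refine (Finset.sum_le_sum fun n hn => ?_).trans
        (Finset.sum_le_sum_of_subset_of_nonneg (Finset.filter_subset _ _) fun n _ _ => ?_)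
      · have hnY : Y < (n : ℝ) := (Finset.mem_filter.mp hn).2
        have h3 : 1 ≤ (n : ℝ) ^ (1 / 8 : ℝ) * Y ^ (-(1 / 8) : ℝ) := by
          rw [Real.rpow_neg hY0.le, ← div_eq_mul_inv, one_le_div (by positivity)]
          exact Real.rpow_le_rpow hY0.le hnY.le (by norm_num)
        have h4 := mul_le_mul_of_nonneg_left h3 (hr1 n)
        calc r1 K n = r1 K n * 1 := (mul_one _).symm
          _ ≤ r1 K n * ((n : ℝ) ^ (1 / 8 : ℝ) * Y ^ (-(1 / 8) : ℝ)) := h4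
          _ = (r1 K n * (n : ℝ) ^ (1 / 8 : ℝ)) * Y ^ (-(1 / 8) : ℝ) := by ring
      · have := hr1 n
        positivity
    rw [← Finset.sum_mul, h1] at h2
    refine h2.trans (mul_le_mul_of_nonneg_right ?_ (by positivity))
    linarith
  · intro z N hz
    have hlogz : 0 < Real.log z := Real.log_pos (by linarith)
    have h1 : ∑ i ∈ range N, ((2 : ℝ) ^ (κ * 2 ^ i) / Real.log (ww z i)) *
        ∑ a ∈ AA z i, gg a ^ 2 * ra K a / (a : ℝ) ≤
        ∑ i ∈ range N, ((2 : ℝ) ^ (κ * 2 ^ i) / Real.log (ww z i)) *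
        ∑ a ∈ AA z i, gg a ^ (⌈K⌉₊ + 2) / (a : ℝ) := by
      refine Finset.sum_le_sum fun i _ => ?_
      have hw : 0 ≤ Real.log (ww z i) := by
        rw [ww, Real.log_exp]
        positivity
      refine mul_le_mul_of_nonneg_left ?_ (by positivity)
      refine Finset.sum_le_sum fun a _ => ?_
      refine div_le_div_of_nonneg_right ?_ (Nat.cast_nonneg a)
      have hg1 := gg_one_le a
      have h3 := mul_le_mul_of_nonneg_left (SrX_gg K hK a) (show 0 ≤ gg a ^ 2 by positivity)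
      refine h3.trans (le_of_eq ?_)
      rw [← pow_add, add_comm]
    have h2 := hlev z hz N
    linarith

end Pool.Agent.PP5C
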