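import Pool.Agent.PP5C.Defs
import Pool.Agent.PPS.Ggl
import Pool.Agent.NTot.Mertens

/-!
# SsE: lower bound for the Selberg sum (difficulty 3)

Write `μ²` for the indicator of squarefree numbers, `N = ⌊y⌋₊ ≥ 1`.
* (1) `∑ n ∈ Icc 1 N, 1 / n ≤ (∑ d ≤ N, μ²(d) / d) * (∑ k ≤ N, 1 / k²)` (every `n` is `d k²`, `d` squarefree:
  `Nat.sq_mul_squarefree`), `∑ 1 / k² ≤ 2`, `∑ 1 / n ≥ log (N + 1) ≥ log y`: so
  `∑ μ²(d) / d ≥ log y / 2`.
* (2) `∑ d ≤ N, μ²(d) / φ(d) ≤ ∏ l ≤ N prime, (1 + 1 / (l - 1)) = ∏ (1 - 1 / l)⁻¹ ≤ C log (max N 2)`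
  (`PPS.prodinv`; expand the product: `Finset.prod_one_add` or `prod_add`), for `y ≥ 2`.
* (3) Cauchy-Schwarz: `(∑ μ²(d) / d)² ≤ (∑ μ²(d) φ(d) / d²) (∑ μ²(d) / φ(d))`, so
  `∑ d ≤ N, μ²(d) φ(d) / d² ≥ c log y` for `y ≥ 2`; for `1 ≤ y < 2` the term `d = 1` is `1 ≥ log y`.
* (4) `∑ d ≤ N, μ²(d) φ(d) / d² ≤ gg M * ∑ d ≤ N, (d, M) = 1, μ²(d) φ(d) / d²`: write a squarefree `d` as
  `d1 d2`, `d1 = gcd (d, M)` squarefree, `(d2, M) = 1`: `φ(d)/d² = (φ(d1)/d1²)(φ(d2)/d2²)`,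
  `∑ d1 ∣ M squarefree, φ(d1)/d1² ≤ ∑ 1 / d1 = ∏ l ∣ M, (1 + 1 / l) ≤ gg M`.
-/

set_option autoImplicit false

namespace Pool.Agent.PP5C

open Finset Pool.Agent.PPS

private theorem SsE_prod (P : Finset ℕ) (g : ℕ → ℝ)
    (hg : ∀ l ∈ P, 0 ≤ g l) (F : Finset ℕ) (hF : ∀ d ∈ F, Squarefree d ∧ d.primeFactors ⊆ P) :
    ∑ d ∈ F, ∏ l ∈ d.primeFactors, g l ≤ ∏ l ∈ P, (1 + g l) := by
  have hinj : Set.InjOn (fun d : ℕ => d.primeFactors) (F : Set ℕ) := by
    intro a ha b hb hab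
    have h1 := Nat.prod_primeFactors_of_squarefree (hF a ha).1
    have h2 := Nat.prod_primeFactors_of_squarefree (hF b hb).1
    have hab' : a.primeFactors = b.primeFactors := hab
    rw [← h1, ← h2, hab']
  have e1 : ∑ d ∈ F, ∏ l ∈ d.primeFactors, g l =
      ∑ t ∈ F.image (fun d : ℕ => d.primeFactors), ∏ l ∈ t, g l := by
    rw [Finset.sum_image hinj]
  rw [e1, Finset.prod_one_add]
  refine Finset.sum_le_sum_of_subset_of_nonneg ?_ ?_
  · intro t ht
    obtain ⟨d, hd, rfl⟩ := Finset.mem_image.mp ht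
    exact Finset.mem_powerset.mpr (hF d hd).2
  · intro t ht _
    exact Finset.prod_nonneg fun l hl => hg l (Finset.mem_powerset.mp ht hl)

private theorem SsE_sum2 (n : ℕ) : ∑ t ∈ Finset.Icc 1 n, (1 : ℝ) / (t : ℝ) ^ 2 ≤ 2 := by
  have h : ∀ m : ℕ, ∑ t ∈ Finset.Icc 1 (m + 1), (1 : ℝ) / (t : ℝ) ^ 2 ≤ 2 - 1 / ((m : ℝ) + 1) := by
    intro m
    induction m with
    | zero => norm_num
    | succ m ih =>
      rw [Finset.sum_Icc_succ_top (by omega)]
      have hm : (0 : ℝ) < (m : ℝ) + 1 := by positivity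
      have hm2 : (0 : ℝ) < (m : ℝ) + 1 + 1 := by positivity
      have key : (1 : ℝ) / ((m : ℝ) + 1 + 1) ^ 2 ≤ 1 / ((m : ℝ) + 1) - 1 / ((m : ℝ) + 1 + 1) := by
        rw [div_sub_div _ _ hm.ne' hm2.ne', div_le_div_iff₀ (by positivity) (by positivity)]
        nlinarith
      push_cast
      linarith
  rcases Nat.eq_zero_or_pos n with h0 | h0
  · rw [h0]; norm_num
  · obtain ⟨m, rfl⟩ : ∃ m, n = m + 1 := ⟨n - 1, by omega⟩
    have := h m
    have h2 : (0 : ℝ) ≤ 1 / ((m : ℝ) + 1) := by positivity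
    linarith

private theorem SsE_tot {d : ℕ} (hd : Squarefree d) :
    (Nat.totient d : ℝ) = ∏ l ∈ d.primeFactors, ((l : ℝ) - 1) := by
  have h0 : d ≠ 0 := hd.ne_zero
  have h1 := Nat.totient_mul_prod_primeFactors d
  rw [Nat.prod_primeFactors_of_squarefree hd, mul_comm] at h1
  have h2 : Nat.totient d = ∏ p ∈ d.primeFactors, (p - 1) :=
    Nat.eq_of_mul_eq_mul_left (Nat.pos_of_ne_zero h0) h1
  rw [h2]
  push_cast
  refine Finset.prod_congr rfl fun l hl => ?_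
  rw [Nat.cast_sub (Nat.prime_of_mem_primeFactors hl).one_lt.le, Nat.cast_one]

private theorem SsE_inv {l : ℕ} (hl : l.Prime) :
    1 + 1 / ((l : ℝ) - 1) = (1 - 1 / (l : ℝ))⁻¹ := by
  have h2 : (2 : ℝ) ≤ (l : ℝ) := by exact_mod_cast hl.two_le
  have h0 : (0 : ℝ) < (l : ℝ) := by linarith
  have h1 : (0 : ℝ) < (l : ℝ) - 1 := by linarith
  have : (1 - 1 / (l : ℝ)) = ((l : ℝ) - 1) / (l : ℝ) := by field_simp
  rw [this, inv_div]
  field_simp
  ring

open Classical in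
/-- step (1) -/
private theorem SsE_one (y : ℝ) (hy : 1 ≤ y) :
    Real.log y / 2 ≤ ∑ d ∈ (Icc 1 ⌊y⌋₊).filter Squarefree, (1 : ℝ) / (d : ℝ) := by
  set N : ℕ := ⌊y⌋₊ with hN
  have hharm : Real.log y ≤ ∑ n ∈ Icc 1 N, (1 : ℝ) / (n : ℝ) := by
    have h1 := log_add_one_le_harmonic N
    have h2 : Real.log y ≤ Real.log ((N : ℝ) + 1) :=
      Real.log_le_log (by linarith) (Nat.lt_floor_add_one y).le
    have h3 : ((harmonic N : ℚ) : ℝ) = ∑ n ∈ Icc 1 N, (1 : ℝ) / (n : ℝ) := by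
      rw [harmonic_eq_sum_Icc]
      push_cast
      simp only [one_div]
    rw [← h3]
    refine h2.trans ?_
    exact_mod_cast h1
  have hex : ∀ n : ℕ, ∃ p : ℕ × ℕ, p.2 ^ 2 * p.1 = n ∧ Squarefree p.1 := by
    intro n
    obtain ⟨a, b, h1, h2⟩ := Nat.sq_mul_squarefree n
    exact ⟨(a, b), h1, h2⟩
  choose f hf1 hf2 using hex
  have hinj : Set.InjOn f ((Icc 1 N : Finset ℕ) : Set ℕ) := by
    intro a _ b _ hab
    rw [← hf1 a, ← hf1 b, hab]
  have hle : ∑ n ∈ Icc 1 N, (1 : ℝ) / (n : ℝ) ≤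
      (∑ d ∈ (Icc 1 N).filter Squarefree, (1 : ℝ) / (d : ℝ)) *
        ∑ k ∈ Icc 1 N, (1 : ℝ) / (k : ℝ) ^ 2 := by
    rw [Finset.sum_mul_sum, ← Finset.sum_product']
    have e1 : ∑ n ∈ Icc 1 N, (1 : ℝ) / (n : ℝ) =
        ∑ p ∈ (Icc 1 N).image f, (1 : ℝ) / (p.1 : ℝ) * (1 / (p.2 : ℝ) ^ 2) := by
      rw [Finset.sum_image hinj]
      refine Finset.sum_congr rfl fun n _ => ?_
      have := hf1 n
      have h2 : ((f n).2 : ℝ) ^ 2 * ((f n).1 : ℝ) = (n : ℝ) := by exact_mod_cast this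
      rw [← h2, one_div_mul_one_div, mul_comm]
    rw [e1]
    refine Finset.sum_le_sum_of_subset_of_nonneg ?_ ?_
    · intro p hp
      obtain ⟨n, hn, rfl⟩ := Finset.mem_image.mp hp
      rw [Finset.mem_Icc] at hn
      have h1 := hf1 n
      have ha0 : (f n).1 ≠ 0 := (hf2 n).ne_zero
      have hb0 : (f n).2 ≠ 0 := by
        intro h
        rw [h] at h1
        simp at h1
        omega
      have ha : (f n).1 ≤ n := by
        calc (f n).1 = 1 * (f n).1 := by ring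
          _ ≤ (f n).2 ^ 2 * (f n).1 :=
            Nat.mul_le_mul_right _ (Nat.one_le_pow _ _ (Nat.pos_of_ne_zero hb0))
          _ = n := h1
      have hb : (f n).2 ≤ n := by
        calc (f n).2 = (f n).2 * 1 := by ring
          _ ≤ (f n).2 * ((f n).2 * (f n).1) :=
            Nat.mul_le_mul_left _ (Nat.mul_pos (Nat.pos_of_ne_zero hb0) (Nat.pos_of_ne_zero ha0))
          _ = (f n).2 ^ 2 * (f n).1 := by ring
          _ = n := h1
      rw [Finset.mem_product, Finset.mem_filter, Finset.mem_Icc, Finset.mem_Icc]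
      exact ⟨⟨⟨Nat.pos_of_ne_zero ha0, ha.trans hn.2⟩, hf2 n⟩,
        ⟨Nat.pos_of_ne_zero hb0, hb.trans hn.2⟩⟩
    · intro p _ _
      positivity
  have h2 := SsE_sum2 N
  have h0 : (0 : ℝ) ≤ ∑ d ∈ (Icc 1 N).filter Squarefree, (1 : ℝ) / (d : ℝ) :=
    Finset.sum_nonneg fun d _ => by positivity
  have h3 : (∑ d ∈ (Icc 1 N).filter Squarefree, (1 : ℝ) / (d : ℝ)) *
        ∑ k ∈ Icc 1 N, (1 : ℝ) / (k : ℝ) ^ 2 ≤
      (∑ d ∈ (Icc 1 N).filter Squarefree, (1 : ℝ) / (d : ℝ)) * 2 :=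
    mul_le_mul_of_nonneg_left h2 h0
  linarith

open Classical in
/-- steps (1), (2), (3) -/
private theorem SsE_three : ∃ c : ℝ, 0 < c ∧ ∀ y : ℝ, 1 ≤ y →
    c * Real.log y ≤ ∑ d ∈ (Icc 1 ⌊y⌋₊).filter Squarefree, (Nat.totient d : ℝ) / (d : ℝ) ^ 2 := by
  obtain ⟨C, hC, hpr⟩ := prodinv
  refine ⟨min (1 / (4 * C)) 1, lt_min (by positivity) one_pos, ?_⟩
  intro y hy
  have hlog0 : 0 ≤ Real.log y := Real.log_nonneg hy
  rcases lt_or_ge y 2 with hy2 | hy2
  · have h1 : (1 : ℝ) ≤ ∑ d ∈ (Icc 1 ⌊y⌋₊).filter Squarefree,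
        (Nat.totient d : ℝ) / (d : ℝ) ^ 2 := by
      have hm : 1 ∈ (Icc 1 ⌊y⌋₊).filter Squarefree := by
        rw [Finset.mem_filter, Finset.mem_Icc]
        exact ⟨⟨le_rfl, Nat.le_floor (by simpa using hy)⟩, squarefree_one⟩
      have h2 := Finset.single_le_sum (f := fun d : ℕ => (Nat.totient d : ℝ) / (d : ℝ) ^ 2)
        (fun i _ => by positivity) hm
      simpa using h2
    have h2 : Real.log y ≤ 1 := by
      have := Real.log_le_sub_one_of_pos (show 0 < y by linarith)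
      linarith
    have h3 : min (1 / (4 * C)) 1 * Real.log y ≤ 1 * Real.log y :=
      mul_le_mul_of_nonneg_right (min_le_right _ _) hlog0
    linarith
  · have hN2 : 2 ≤ ⌊y⌋₊ := Nat.le_floor (by exact_mod_cast hy2)
    have hlog : 0 < Real.log y := Real.log_pos (by linarith)
    have h1 := SsE_one y hy
    set S := (Icc 1 ⌊y⌋₊).filter Squarefree with hS
    have h2 : ∑ d ∈ S, (1 : ℝ) / (Nat.totient d : ℝ) ≤ C * Real.log y := by
      have e1 : ∑ d ∈ S, (1 : ℝ) / (Nat.totient d : ℝ) =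
          ∑ d ∈ S, ∏ l ∈ d.primeFactors, (1 / ((l : ℝ) - 1)) := by
        refine Finset.sum_congr rfl fun d hd => ?_
        rw [SsE_tot (Finset.mem_filter.mp hd).2, Finset.prod_div_distrib, Finset.prod_const_one]
      rw [e1]
      have hge : ∀ l ∈ NTot.PZ ⌊y⌋₊, (0 : ℝ) ≤ 1 / ((l : ℝ) - 1) := by
        intro l hl
        have h5 : (2 : ℝ) ≤ (l : ℝ) := by exact_mod_cast (NTot.mem_PZ.mp hl).1.two_le
        exact div_nonneg zero_le_one (by linarith)
      refine (SsE_prod (NTot.PZ ⌊y⌋₊) _ hge S ?_).trans ?_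
      · intro d hd
        rw [hS, Finset.mem_filter, Finset.mem_Icc] at hd
        refine ⟨hd.2, ?_⟩
        intro l hl
        exact NTot.mem_PZ.mpr ⟨Nat.prime_of_mem_primeFactors hl,
          (Nat.le_of_dvd hd.1.1 (Nat.dvd_of_mem_primeFactors hl)).trans hd.1.2⟩
      · have e2 : ∏ l ∈ NTot.PZ ⌊y⌋₊, (1 + 1 / ((l : ℝ) - 1)) =
            ∏ l ∈ NTot.PZ ⌊y⌋₊, (1 - 1 / (l : ℝ))⁻¹ :=
          Finset.prod_congr rfl fun l hl => SsE_inv (NTot.mem_PZ.mp hl).1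
        rw [e2]
        refine (hpr ⌊y⌋₊ hN2).trans ?_
        have h6 : ((⌊y⌋₊ : ℕ) : ℝ) ≤ y := Nat.floor_le (by linarith)
        have h7 : (0 : ℝ) < ((⌊y⌋₊ : ℕ) : ℝ) := by
          have : (2 : ℝ) ≤ ((⌊y⌋₊ : ℕ) : ℝ) := by exact_mod_cast hN2
          linarith
        exact mul_le_mul_of_nonneg_left (Real.log_le_log h7 h6) hC.le
    have hcs := Finset.sum_sq_le_sum_mul_sum_of_sq_le_mul S (r := fun d : ℕ => (1 : ℝ) / (d : ℝ))
      (f := fun d : ℕ => (Nat.totient d : ℝ) / (d : ℝ) ^ 2)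
      (g := fun d : ℕ => (1 : ℝ) / (Nat.totient d : ℝ))
      (fun i _ => by positivity) (fun i _ => by positivity)
      (fun i hi => by
        have hi1 : 1 ≤ i := (Finset.mem_Icc.mp (Finset.mem_filter.mp hi).1).1
        have hphi : (Nat.totient i : ℝ) ≠ 0 := by
          have := Nat.totient_pos.mpr hi1
          exact_mod_cast this.ne'
        have hi0 : (i : ℝ) ≠ 0 := by
          have : i ≠ 0 := by omega
          exact_mod_cast this
        apply le_of_eq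
        field_simp)
    set s1 := ∑ d ∈ S, (1 : ℝ) / (d : ℝ) with hs1
    set s2 := ∑ d ∈ S, (Nat.totient d : ℝ) / (d : ℝ) ^ 2 with hs2
    set s3 := ∑ d ∈ S, (1 : ℝ) / (Nat.totient d : ℝ) with hs3
    have hs20 : 0 ≤ s2 := Finset.sum_nonneg fun i _ => by positivity
    have h8 : (Real.log y / 2) ^ 2 ≤ s1 ^ 2 := pow_le_pow_left₀ (by positivity) h1 2
    have h9 : s2 * s3 ≤ s2 * (C * Real.log y) := mul_le_mul_of_nonneg_left h2 hs20
    have h10 : (Real.log y / 2) ^ 2 ≤ s2 * (C * Real.log y) := h8.trans (hcs.trans h9)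
    have h11 : Real.log y ≤ 4 * C * s2 := by
      have : Real.log y * Real.log y ≤ (4 * C * s2) * Real.log y := by nlinarith
      exact le_of_mul_le_mul_right this hlog
    have h12 : min (1 / (4 * C)) 1 * Real.log y ≤ 1 / (4 * C) * Real.log y :=
      mul_le_mul_of_nonneg_right (min_le_left _ _) hlog0
    refine h12.trans ?_
    rw [one_div, inv_mul_le_iff₀ (by positivity)]
    exact h11

open Classical in
/-- step (4) -/
private theorem SsE_four (N M : ℕ) (hM : 1 ≤ M) :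
    ∑ d ∈ (Icc 1 N).filter Squarefree, (Nat.totient d : ℝ) / (d : ℝ) ^ 2 ≤
      gg M * ∑ d ∈ (Icc 1 N).filter (fun d => Squarefree d ∧ Nat.Coprime d M),
        (Nat.totient d : ℝ) / (d : ℝ) ^ 2 := by
  set F : Finset ℕ := M.divisors.filter Squarefree with hF
  set G : Finset ℕ := (Icc 1 N).filter (fun d => Squarefree d ∧ Nat.Coprime d M) with hG
  set h : ℕ → ℝ := fun d => (Nat.totient d : ℝ) / (d : ℝ) ^ 2 with hh
  have h1 : ∑ d ∈ (Icc 1 N).filter Squarefree, h d ≤ (∑ d ∈ F, h d) * ∑ d ∈ G, h d := by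
    rw [Finset.sum_mul_sum, ← Finset.sum_product']
    set f : ℕ → ℕ × ℕ := fun d => (Nat.gcd d M, d / Nat.gcd d M) with hf
    have hinj : Set.InjOn f (((Icc 1 N).filter Squarefree : Finset ℕ) : Set ℕ) := by
      intro a _ b _ hab
      have h1 : Nat.gcd a M = Nat.gcd b M := (Prod.mk.inj hab).1
      have h2 : a / Nat.gcd a M = b / Nat.gcd b M := (Prod.mk.inj hab).2
      calc a = a / Nat.gcd a M * Nat.gcd a M := (Nat.div_mul_cancel (Nat.gcd_dvd_left a M)).symm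
        _ = b / Nat.gcd b M * Nat.gcd b M := by rw [h2, h1]
        _ = b := Nat.div_mul_cancel (Nat.gcd_dvd_left b M)
    have hfac : ∀ d ∈ (Icc 1 N).filter Squarefree,
        Squarefree (Nat.gcd d M) ∧ Squarefree (d / Nat.gcd d M) ∧
          Nat.Coprime (Nat.gcd d M) (d / Nat.gcd d M) ∧ Nat.Coprime (d / Nat.gcd d M) M := by
      intro d hd
      have hsq := (Finset.mem_filter.mp hd).2
      have hdm : Nat.gcd d M * (d / Nat.gcd d M) = d :=
        Nat.mul_div_cancel' (Nat.gcd_dvd_left d M)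
      have hsq' : Squarefree (Nat.gcd d M * (d / Nat.gcd d M)) := by rw [hdm]; exact hsq
      have hc := Nat.coprime_of_squarefree_mul hsq'
      refine ⟨hsq'.of_mul_left, hsq'.of_mul_right, hc, ?_⟩
      rw [Nat.coprime_comm, Nat.coprime_iff_gcd_eq_one]
      by_contra hne
      obtain ⟨p, hp, hpd⟩ := Nat.exists_prime_and_dvd hne
      have hp1 : p ∣ M := hpd.trans (Nat.gcd_dvd_left _ _)
      have hp2 : p ∣ d / Nat.gcd d M := hpd.trans (Nat.gcd_dvd_right _ _)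
      have hp3 : p ∣ d := hp2.trans (Nat.div_dvd_of_dvd (Nat.gcd_dvd_left d M))
      have hp4 : p ∣ Nat.gcd d M := Nat.dvd_gcd hp3 hp1
      exact Nat.not_coprime_of_dvd_of_dvd hp.one_lt hp4 hp2 hc
    have e1 : ∑ d ∈ (Icc 1 N).filter Squarefree, h d =
        ∑ p ∈ ((Icc 1 N).filter Squarefree).image f, h p.1 * h p.2 := by
      rw [Finset.sum_image hinj]
      refine Finset.sum_congr rfl fun d hd => ?_
      obtain ⟨_, _, hc, _⟩ := hfac d hd
      have hdm : Nat.gcd d M * (d / Nat.gcd d M) = d :=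
        Nat.mul_div_cancel' (Nat.gcd_dvd_left d M)
      have hd1 : 1 ≤ d := (Finset.mem_Icc.mp (Finset.mem_filter.mp hd).1).1
      have hphi : Nat.totient d = Nat.totient (Nat.gcd d M) * Nat.totient (d / Nat.gcd d M) := by
        rw [← Nat.totient_mul hc, hdm]
      have hdr : (d : ℝ) = ((Nat.gcd d M : ℕ) : ℝ) * ((d / Nat.gcd d M : ℕ) : ℝ) := by
        rw [← Nat.cast_mul, hdm]
      have e2 : h d = (((Nat.totient (Nat.gcd d M) : ℕ) : ℝ) *
          ((Nat.totient (d / Nat.gcd d M) : ℕ) : ℝ)) /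
          (((Nat.gcd d M : ℕ) : ℝ) * ((d / Nat.gcd d M : ℕ) : ℝ)) ^ 2 := by
        rw [← hdr, ← Nat.cast_mul, ← hphi]
      rw [e2, mul_pow, mul_div_mul_comm]
    rw [e1]
    refine Finset.sum_le_sum_of_subset_of_nonneg ?_ ?_
    · intro p hp
      obtain ⟨d, hd, rfl⟩ := Finset.mem_image.mp hp
      obtain ⟨q1, q2, _, q4⟩ := hfac d hd
      have hd1 := Finset.mem_Icc.mp (Finset.mem_filter.mp hd).1
      rw [Finset.mem_product, hF, hG, Finset.mem_filter, Finset.mem_filter, Finset.mem_Icc,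
        Nat.mem_divisors]
      refine ⟨⟨⟨Nat.gcd_dvd_right _ _, by omega⟩, q1⟩, ⟨?_, (Nat.div_le_self _ _).trans hd1.2⟩,
        q2, q4⟩
      exact Nat.pos_of_ne_zero q2.ne_zero
    · intro p _ _
      exact mul_nonneg (by positivity) (by positivity)
  have h2 : ∑ d ∈ F, h d ≤ gg M := by
    have h3 : ∑ d ∈ F, h d ≤ ∑ d ∈ F, ∏ l ∈ d.primeFactors, (1 / (l : ℝ)) := by
      refine Finset.sum_le_sum fun d hd => ?_
      have hsq : Squarefree d := (Finset.mem_filter.mp hd).2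
      rw [Finset.prod_div_distrib, Finset.prod_const_one]
      have e3 : ∏ l ∈ d.primeFactors, (l : ℝ) = (d : ℝ) := by
        have := Nat.prod_primeFactors_of_squarefree hsq
        rw [← Nat.cast_prod, this]
      rw [e3]
      have hd0 : (0 : ℝ) < (d : ℝ) := by
        have := Nat.pos_of_ne_zero hsq.ne_zero
        exact_mod_cast this
      have hle : (Nat.totient d : ℝ) ≤ (d : ℝ) := by exact_mod_cast Nat.totient_le d
      have : h d = (Nat.totient d : ℝ) / (d : ℝ) ^ 2 := rfl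
      rw [this, div_le_div_iff₀ (by positivity) hd0]
      nlinarith
    refine h3.trans ?_
    refine (SsE_prod M.primeFactors _
      (fun l _ => by positivity) F ?_).trans ?_
    · intro d hd
      rw [hF, Finset.mem_filter, Nat.mem_divisors] at hd
      exact ⟨hd.2, Nat.primeFactors_mono hd.1.1 hd.1.2⟩
    · rw [gg]
      refine Finset.prod_le_prod (fun l _ => by positivity) fun l hl => ?_
      rw [← SsE_inv (Nat.prime_of_mem_primeFactors hl)]
      have h5 : (2 : ℝ) ≤ (l : ℝ) := by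
        exact_mod_cast (Nat.prime_of_mem_primeFactors hl).two_le
      have h6 : 1 / (l : ℝ) ≤ 1 / ((l : ℝ) - 1) :=
        one_div_le_one_div_of_le (by linarith) (by linarith)
      linarith
  have h4 : (0 : ℝ) ≤ ∑ d ∈ G, h d := Finset.sum_nonneg fun d _ => by positivity
  exact h1.trans (mul_le_mul_of_nonneg_right h2 h4)

open Classical in
theorem sse : ∃ c : ℝ, 0 < c ∧ ∀ (y : ℝ) (M : ℕ), 1 ≤ M → 1 ≤ y →
    c * Real.log y / gg M ≤ ∑ d ∈ (Icc 1 ⌊y⌋₊).filter (fun d => Squarefree d ∧ Nat.Coprime d M),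
      (Nat.totient d : ℝ) / (d : ℝ) ^ 2 := by
  obtain ⟨c, hc, h⟩ := SsE_three
  refine ⟨c, hc, ?_⟩
  intro y M hM hy
  have h1 := h y hy
  have h2 := SsE_four ⌊y⌋₊ M hM
  have hg : 0 < gg M := lt_of_lt_of_le one_pos (gg_one_le M)
  rw [div_le_iff₀ hg, mul_comm _ (gg M)]
  exact h1.trans h2

end Pool.Agent.PP5C
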