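import Pool.Agent.PP5C.Defs

/-!
# Sy3: symmetric `3 × 3` matrices with all `2 × 2` minors divisible by `l ^ s` (difficulty 4)

`y = (y0, y1, y2, y3, y4, y5)` is the matrix `[[y0, y3, y4],[y3, y1, y5],[y4, y5, y2]]`.  `M2 l s y`: `l ^ s` divides
`y0 y1 - y3²`, `y0 y2 - y4²`, `y1 y2 - y5²`, `y0 y5 - y3 y4`, `y1 y4 - y3 y5`, `y2 y3 - y4 y5`.
For `y ∈ cub (l ^ s)` let `l ^ e = gcd (l ^ s, all y i)`, `0 ≤ e ≤ s`.
* `2 e ≥ s`: at most `(l ^ (s - e)) ^ 6 ≤ l ^ (3 s)` for each `e`.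
* `2 e < s`: `y = l ^ e y'`, `y'` modulo `l ^ (s - e)` with some `y' i` prime to `l` and all `2 × 2` minors of `y'` divisible by
  `l ^ (s - 2 e)` (`s - 2e ≥ 1`).  Some diagonal entry of `y'` is prime to `l` (if `l ∣ y'0, y'1, y'2` then `y'0 y'1 - y'3² = 0`
  gives `l ∣ y'3`, etc.).  Say `y'0` (three cases): `y'1, y'2, y'5` are determined modulo `l ^ (s - 2 e)` by `y'0, y'3, y'4`
  (`y'0 y'1 = y'3²`, `y'0 y'2 = y'4²`, `y'0 y'5 = y'3 y'4`), so they have `(l ^ e) ^ 3` values modulo `l ^ (s - e)`: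
  `3 * l ^ (3 (s - e)) * l ^ (3 e) = 3 l ^ (3 s)`.
Total `≤ (s + 1) * 3 * l ^ (3 s)`.
-/

set_option autoImplicit false

namespace Pool.Agent.PP5C

open Finset Pool.Agent.PPS

/-- `n` divides all `2 × 2` minors of the symmetric matrix `[[y0, y3, y4],[y3, y1, y5],[y4, y5, y2]]` -/
def M2 (n : ℕ) (y : Fin 6 → ℤ) : Prop :=
  (n : ℤ) ∣ y 0 * y 1 - y 3 ^ 2 ∧ (n : ℤ) ∣ y 0 * y 2 - y 4 ^ 2 ∧ (n : ℤ) ∣ y 1 * y 2 - y 5 ^ 2 ∧
  (n : ℤ) ∣ y 0 * y 5 - y 3 * y 4 ∧ (n : ℤ) ∣ y 1 * y 4 - y 3 * y 5 ∧ (n : ℤ) ∣ y 2 * y 3 - y 4 * y 5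

private theorem sy3_card_cub (ι : Type) [Fintype ι] [DecidableEq ι] (n : ℕ) :
    (cub ι n).card = n ^ Fintype.card ι := by
  unfold cub
  rw [Fintype.card_piFinset]
  simp

private theorem sy3_mem_cub {ι : Type} [Fintype ι] [DecidableEq ι] {n : ℕ} {y : ι → ℤ} :
    y ∈ cub ι n ↔ ∀ i, 0 ≤ y i ∧ y i < (n : ℤ) := by
  unfold cub
  simp [Fintype.mem_piFinset]

private theorem sy3_sub {n a b c : ℤ} (h1 : n ∣ a) (h2 : n ∣ b) (h : c = a - b) : n ∣ c := by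
  rw [h]
  exact dvd_sub h1 h2

/-- two elements of `[0, n)` with `n ∣ u * (a - b)`, `u` prime to `n`, are equal -/
private theorem sy3_uniq {l : ℕ} (hl : l.Prime) (s : ℕ) {u a b : ℤ} (hu : ¬ (l : ℤ) ∣ u)
    (ha : 0 ≤ a ∧ a < ((l ^ s : ℕ) : ℤ)) (hb : 0 ≤ b ∧ b < ((l ^ s : ℕ) : ℤ))
    (h : ((l ^ s : ℕ) : ℤ) ∣ u * (a - b)) : a = b := by
  have hp : Prime (l : ℤ) := Nat.prime_iff_prime_int.1 hl
  have hc : IsCoprime ((l ^ s : ℕ) : ℤ) u := by
    push_cast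
    exact ((Prime.coprime_iff_not_dvd hp).2 hu).pow_left
  have h2 : ((l ^ s : ℕ) : ℤ) ∣ a - b := hc.dvd_of_dvd_mul_left h
  have h3 : a - b = 0 := by
    apply Int.eq_zero_of_abs_lt_dvd h2
    rw [abs_lt]
    constructor <;> linarith [ha.1, ha.2, hb.1, hb.2]
  linarith

/-- one of the three cases -/
private theorem sy3_case {l : ℕ} (s : ℕ) (a b c : Fin 6)
    (S : Finset (Fin 6 → ℤ)) (hS : ∀ y ∈ S, y ∈ cub (Fin 6) (l ^ s))
    (hinj : ∀ y ∈ S, ∀ z ∈ S, y a = z a → y b = z b → y c = z c → y = z) :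
    S.card ≤ l ^ (3 * s) := by
  have h1 : S.card ≤ (cub (Fin 3) (l ^ s)).card := by
    apply Finset.card_le_card_of_injOn (fun y => ![y a, y b, y c])
    · intro y hy
      have := sy3_mem_cub.1 (hS y hy)
      rw [Finset.mem_coe, sy3_mem_cub]
      intro i
      fin_cases i
      · exact this a
      · exact this b
      · exact this c
    · intro y hy z hz h
      have h0 := congrFun h 0
      have h1 := congrFun h 1
      have h2 := congrFun h 2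
      simp at h0 h1 h2
      exact hinj y hy z hz h0 h1 h2
  rw [sy3_card_cub] at h1
  simpa [← pow_mul, mul_comm] using h1

open Classical in
private theorem sy3_prim {l : ℕ} (hl : l.Prime) (s : ℕ) (hs : 1 ≤ s) :
    ((cub (Fin 6) (l ^ s)).filter (fun y => M2 (l ^ s) y ∧ ¬ ∀ i, (l : ℤ) ∣ y i)).card ≤
      3 * l ^ (3 * s) := by
  have hp : Prime (l : ℤ) := Nat.prime_iff_prime_int.1 hl
  set A : Fin 6 → Finset (Fin 6 → ℤ) := fun i =>
    (cub (Fin 6) (l ^ s)).filter (fun y => M2 (l ^ s) y ∧ ¬ (l : ℤ) ∣ y i) with hA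
  have hsub : (cub (Fin 6) (l ^ s)).filter (fun y => M2 (l ^ s) y ∧ ¬ ∀ i, (l : ℤ) ∣ y i) ⊆
      (A 0 ∪ A 1) ∪ A 2 := by
    intro y hy
    rw [Finset.mem_filter] at hy
    obtain ⟨hy0, hM, hy1⟩ := hy
    by_contra hcon
    simp only [hA, Finset.mem_union, Finset.mem_filter, not_or, not_and, not_not] at hcon
    obtain ⟨⟨h0, h1⟩, h2⟩ := hcon
    have h0 := h0 hy0 hM
    have h1 := h1 hy0 hM
    have h2 := h2 hy0 hM
    obtain ⟨m1, m2, m3, -, -, -⟩ := hM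
    have hls : (l : ℤ) ∣ ((l ^ s : ℕ) : ℤ) := by
      push_cast
      exact dvd_pow_self _ (by omega)
    have h3 : (l : ℤ) ∣ y 3 := by
      have h : (l : ℤ) ∣ y 3 ^ 2 := by
        have := (Dvd.dvd.mul_right h0 (y 1)).sub (hls.trans m1)
        simpa using this
      exact hp.dvd_of_dvd_pow h
    have h4 : (l : ℤ) ∣ y 4 := by
      have h : (l : ℤ) ∣ y 4 ^ 2 := by
        have := (Dvd.dvd.mul_right h0 (y 2)).sub (hls.trans m2)
        simpa using this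
      exact hp.dvd_of_dvd_pow h
    have h5 : (l : ℤ) ∣ y 5 := by
      have h : (l : ℤ) ∣ y 5 ^ 2 := by
        have := (Dvd.dvd.mul_right h1 (y 2)).sub (hls.trans m3)
        simpa using this
      exact hp.dvd_of_dvd_pow h
    apply hy1
    intro i
    fin_cases i
    · exact h0
    · exact h1
    · exact h2
    · exact h3
    · exact h4
    · exact h5
  have hmem : ∀ i, ∀ y ∈ A i, y ∈ cub (Fin 6) (l ^ s) ∧ M2 (l ^ s) y ∧ ¬ (l : ℤ) ∣ y i := by
    intro i y hy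
    exact Finset.mem_filter.1 hy
  have c0 : (A 0).card ≤ l ^ (3 * s) := by
    refine sy3_case s 0 3 4 (A 0) (fun y hy => (hmem 0 y hy).1) ?_
    intro y hy z hz e0 e3 e4
    obtain ⟨hy0, ⟨a1, a2, a3, a4, a5, a6⟩, hyu⟩ := hmem 0 y hy
    obtain ⟨hz0, ⟨b1, b2, b3, b4, b5, b6⟩, -⟩ := hmem 0 z hz
    rw [sy3_mem_cub] at hy0 hz0
    have e1 : y 1 = z 1 := by
      refine sy3_uniq hl s hyu (hy0 1) (hz0 1) ?_
      exact sy3_sub a1 b1 (by rw [← e0, ← e3]; ring)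
    have e2 : y 2 = z 2 := by
      refine sy3_uniq hl s hyu (hy0 2) (hz0 2) ?_
      exact sy3_sub a2 b2 (by rw [← e0, ← e4]; ring)
    have e5 : y 5 = z 5 := by
      refine sy3_uniq hl s hyu (hy0 5) (hz0 5) ?_
      exact sy3_sub a4 b4 (by rw [← e0, ← e3, ← e4]; ring)
    funext i
    fin_cases i
    · exact e0
    · exact e1
    · exact e2
    · exact e3
    · exact e4
    · exact e5
  have c1 : (A 1).card ≤ l ^ (3 * s) := by
    refine sy3_case s 1 3 5 (A 1) (fun y hy => (hmem 1 y hy).1) ?_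
    intro y hy z hz e1 e3 e5
    obtain ⟨hy0, ⟨a1, a2, a3, a4, a5, a6⟩, hyu⟩ := hmem 1 y hy
    obtain ⟨hz0, ⟨b1, b2, b3, b4, b5, b6⟩, -⟩ := hmem 1 z hz
    rw [sy3_mem_cub] at hy0 hz0
    have e0 : y 0 = z 0 := by
      refine sy3_uniq hl s hyu (hy0 0) (hz0 0) ?_
      exact sy3_sub a1 b1 (by rw [← e1, ← e3]; ring)
    have e2 : y 2 = z 2 := by
      refine sy3_uniq hl s hyu (hy0 2) (hz0 2) ?_
      exact sy3_sub a3 b3 (by rw [← e1, ← e5]; ring)
    have e4 : y 4 = z 4 := by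
      refine sy3_uniq hl s hyu (hy0 4) (hz0 4) ?_
      exact sy3_sub a5 b5 (by rw [← e1, ← e3, ← e5]; ring)
    funext i
    fin_cases i
    · exact e0
    · exact e1
    · exact e2
    · exact e3
    · exact e4
    · exact e5
  have c2 : (A 2).card ≤ l ^ (3 * s) := by
    refine sy3_case s 2 4 5 (A 2) (fun y hy => (hmem 2 y hy).1) ?_
    intro y hy z hz e2 e4 e5
    obtain ⟨hy0, ⟨a1, a2, a3, a4, a5, a6⟩, hyu⟩ := hmem 2 y hy
    obtain ⟨hz0, ⟨b1, b2, b3, b4, b5, b6⟩, -⟩ := hmem 2 z hz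
    rw [sy3_mem_cub] at hy0 hz0
    have e0 : y 0 = z 0 := by
      refine sy3_uniq hl s hyu (hy0 0) (hz0 0) ?_
      exact sy3_sub a2 b2 (by rw [← e2, ← e4]; ring)
    have e1 : y 1 = z 1 := by
      refine sy3_uniq hl s hyu (hy0 1) (hz0 1) ?_
      exact sy3_sub a3 b3 (by rw [← e2, ← e5]; ring)
    have e3 : y 3 = z 3 := by
      refine sy3_uniq hl s hyu (hy0 3) (hz0 3) ?_
      exact sy3_sub a6 b6 (by rw [← e2, ← e4, ← e5]; ring)
    funext i
    fin_cases i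
    · exact e0
    · exact e1
    · exact e2
    · exact e3
    · exact e4
    · exact e5
  calc _ ≤ ((A 0 ∪ A 1) ∪ A 2).card := Finset.card_le_card hsub
    _ ≤ ((A 0).card + (A 1).card) + (A 2).card :=
        (Finset.card_union_le _ _).trans (Nat.add_le_add_right (Finset.card_union_le _ _) _)
    _ ≤ 3 * l ^ (3 * s) := by omega

/-- the quotient of a vector by `l` -/
private theorem sy3_M2_div {l : ℕ} (hl : l.Prime) (t : ℕ) {y z : Fin 6 → ℤ}
    (hy : ∀ i, y i = l * z i) (h : M2 (l ^ (t + 2)) y) : M2 (l ^ t) z := by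
  have hl0 : (l : ℤ) ^ 2 ≠ 0 := by
    have := hl.pos
    positivity
  have key : ∀ a b : ℤ, ((l ^ (t + 2) : ℕ) : ℤ) ∣ a → a = (l : ℤ) ^ 2 * b → ((l ^ t : ℕ) : ℤ) ∣ b := by
    intro a b h1 h2
    rw [h2] at h1
    push_cast at h1 ⊢
    rw [pow_add, mul_comm] at h1
    exact (mul_dvd_mul_iff_left hl0).1 h1
  obtain ⟨a1, a2, a3, a4, a5, a6⟩ := h
  refine ⟨key _ _ a1 ?_, key _ _ a2 ?_, key _ _ a3 ?_, key _ _ a4 ?_, key _ _ a5 ?_,
    key _ _ a6 ?_⟩
  all_goals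
    simp only [hy]
    ring

private theorem sy3_M2_mod {n : ℕ} {z w : Fin 6 → ℤ} (hw : ∀ i, (n : ℤ) ∣ w i - z i)
    (h : M2 n z) : M2 n w := by
  have hmod : ∀ i, w i ≡ z i [ZMOD n] := fun i => ((Int.modEq_iff_dvd.2 (hw i))).symm
  have key : ∀ a b : ℤ, a ≡ b [ZMOD n] → (n : ℤ) ∣ b → (n : ℤ) ∣ a := by
    intro a b h1 h2
    exact (Int.ModEq.dvd_iff h1).2 h2
  obtain ⟨a1, a2, a3, a4, a5, a6⟩ := h
  refine ⟨key _ _ ?_ a1, key _ _ ?_ a2, key _ _ ?_ a3, key _ _ ?_ a4, key _ _ ?_ a5,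
    key _ _ ?_ a6⟩
  · exact ((hmod 0).mul (hmod 1)).sub ((hmod 3).pow 2)
  · exact ((hmod 0).mul (hmod 2)).sub ((hmod 4).pow 2)
  · exact ((hmod 1).mul (hmod 2)).sub ((hmod 5).pow 2)
  · exact ((hmod 0).mul (hmod 5)).sub ((hmod 3).mul (hmod 4))
  · exact ((hmod 1).mul (hmod 4)).sub ((hmod 3).mul (hmod 5))
  · exact ((hmod 2).mul (hmod 3)).sub ((hmod 4).mul (hmod 5))

open Classical in
private theorem sy3_nonprim {l : ℕ} (hl : l.Prime) (t : ℕ) :
    ((cub (Fin 6) (l ^ (t + 2))).filter (fun y => M2 (l ^ (t + 2)) y ∧ ∀ i, (l : ℤ) ∣ y i)).card ≤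
      nn (Fin 6) (l ^ t) (fun y => M2 (l ^ t) y) * l ^ 6 := by
  have hlp : (0 : ℤ) < l := by exact_mod_cast hl.pos
  have htp : (0 : ℤ) < ((l ^ t : ℕ) : ℤ) := by
    have := hl.pos
    positivity
  have h1 : ((cub (Fin 6) (l ^ (t + 2))).filter
      (fun y => M2 (l ^ (t + 2)) y ∧ ∀ i, (l : ℤ) ∣ y i)).card ≤
      (((cub (Fin 6) (l ^ t)).filter (fun y => M2 (l ^ t) y)) ×ˢ (cub (Fin 6) l)).card := by
    apply Finset.card_le_card_of_injOn
      (fun y => (fun i => (y i / l) % ((l ^ t : ℕ) : ℤ), fun i => (y i / l) / ((l ^ t : ℕ) : ℤ)))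
    · intro y hy
      rw [Finset.mem_coe, Finset.mem_filter] at hy
      obtain ⟨hy0, hM, hd⟩ := hy
      rw [sy3_mem_cub] at hy0
      have hyz : ∀ i, y i = l * (y i / l) := fun i => (Int.mul_ediv_cancel' (hd i)).symm
      rw [Finset.mem_coe, Finset.mem_product]
      refine ⟨?_, ?_⟩
      · rw [Finset.mem_filter, sy3_mem_cub]
        refine ⟨fun i => ⟨Int.emod_nonneg _ htp.ne', Int.emod_lt_of_pos _ htp⟩, ?_⟩
        refine sy3_M2_mod ?_ (sy3_M2_div hl t hyz hM)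
        intro i
        have := Int.emod_add_mul_ediv (y i / l) ((l ^ t : ℕ) : ℤ)
        refine ⟨-((y i / l) / ((l ^ t : ℕ) : ℤ)), ?_⟩
        linarith
      · rw [sy3_mem_cub]
        intro i
        have h0 : 0 ≤ y i / l := Int.ediv_nonneg (hy0 i).1 hlp.le
        refine ⟨Int.ediv_nonneg h0 htp.le, ?_⟩
        rw [Int.ediv_lt_iff_lt_mul htp, Int.ediv_lt_iff_lt_mul hlp]
        have := (hy0 i).2
        push_cast at this ⊢
        calc y i < (l : ℤ) ^ (t + 2) := this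
          _ = l * l ^ t * l := by ring
    · intro y hy z hz h
      rw [Finset.mem_coe, Finset.mem_filter] at hy hz
      rw [Prod.mk.injEq] at h
      funext i
      have e1 : (y i / l) % ((l ^ t : ℕ) : ℤ) = (z i / l) % ((l ^ t : ℕ) : ℤ) := congrFun h.1 i
      have e2 : (y i / l) / ((l ^ t : ℕ) : ℤ) = (z i / l) / ((l ^ t : ℕ) : ℤ) := congrFun h.2 i
      have e3 : y i / l = z i / l := by
        rw [← Int.emod_add_mul_ediv (y i / l) ((l ^ t : ℕ) : ℤ), e1, e2,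
          Int.emod_add_mul_ediv]
      rw [← Int.mul_ediv_cancel' (hy.2.2 i), e3, Int.mul_ediv_cancel' (hz.2.2 i)]
  rw [Finset.card_product, sy3_card_cub] at h1
  simpa [nn] using h1

open Classical in
private theorem sy3_split {l : ℕ} (s : ℕ) :
    nn (Fin 6) (l ^ s) (fun y => M2 (l ^ s) y) ≤
    ((cub (Fin 6) (l ^ s)).filter (fun y => M2 (l ^ s) y ∧ ∀ i, (l : ℤ) ∣ y i)).card +
    ((cub (Fin 6) (l ^ s)).filter (fun y => M2 (l ^ s) y ∧ ¬ ∀ i, (l : ℤ) ∣ y i)).card := by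
  unfold nn
  refine le_trans (Finset.card_le_card ?_) (Finset.card_union_le _ _)
  intro y hy
  rw [Finset.mem_filter] at hy
  rw [Finset.mem_union, Finset.mem_filter, Finset.mem_filter]
  by_cases h : ∀ i, (l : ℤ) ∣ y i
  · exact Or.inl ⟨hy.1, hy.2, h⟩
  · exact Or.inr ⟨hy.1, hy.2, h⟩

theorem sy3 {l : ℕ} (hl : l.Prime) (s : ℕ) :
    nn (Fin 6) (l ^ s) (fun y => M2 (l ^ s) y) ≤ 3 * (s + 1) * l ^ (3 * s) := by
  classical
  induction s using Nat.strong_induction_on with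
  | _ s ih =>
    rcases s with _ | _ | t
    · have h1 : nn (Fin 6) (l ^ 0) (fun y => M2 (l ^ 0) y) ≤ (cub (Fin 6) (l ^ 0)).card := by
        unfold nn
        exact Finset.card_filter_le _ _
      rw [sy3_card_cub] at h1
      simp at h1 ⊢
      omega
    · have h1 := sy3_split (l := l) 1
      have h2 := sy3_prim hl 1 le_rfl
      have h3 : ((cub (Fin 6) (l ^ 1)).filter
          (fun y => M2 (l ^ 1) y ∧ ∀ i, (l : ℤ) ∣ y i)).card ≤ 1 := by
        rw [Finset.card_le_one]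
        intro y hy z hz
        rw [Finset.mem_filter, sy3_mem_cub] at hy hz
        have key : ∀ w : Fin 6 → ℤ, (∀ i, 0 ≤ w i ∧ w i < ((l ^ 1 : ℕ) : ℤ)) →
            (∀ i, (l : ℤ) ∣ w i) → ∀ i, w i = 0 := by
          intro w hw hd i
          apply Int.eq_zero_of_abs_lt_dvd (hd i)
          rw [abs_of_nonneg (hw i).1]
          simpa using (hw i).2
        funext i
        rw [key y hy.1 hy.2.2 i, key z hz.1 hz.2.2 i]
      have h4 : 1 ≤ l ^ (3 * 1) := Nat.one_le_pow _ _ hl.pos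
      simp only [zero_add] at h1 h2 h3 h4 ⊢
      omega
    · have h1 := sy3_split (l := l) (t + 2)
      have h2 := sy3_prim hl (t + 2) (by omega)
      have h3 := sy3_nonprim hl t
      have h4 := ih t (by omega)
      have h5 : l ^ (3 * t) * l ^ 6 = l ^ (3 * (t + 2)) := by
        rw [← pow_add]
        congr 1
      calc nn (Fin 6) (l ^ (t + 1 + 1)) (fun y => M2 (l ^ (t + 1 + 1)) y)
          ≤ nn (Fin 6) (l ^ t) (fun y => M2 (l ^ t) y) * l ^ 6 + 3 * l ^ (3 * (t + 2)) :=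
            h1.trans (Nat.add_le_add h3 h2)
        _ ≤ (3 * (t + 1) * l ^ (3 * t)) * l ^ 6 + 3 * l ^ (3 * (t + 2)) :=
            Nat.add_le_add_right (Nat.mul_le_mul_right _ h4) _
        _ = 3 * (t + 1) * (l ^ (3 * t) * l ^ 6) + 3 * l ^ (3 * (t + 2)) := by ring
        _ = (3 * (t + 2)) * l ^ (3 * (t + 2)) := by rw [h5]; ring
        _ ≤ 3 * (t + 1 + 1 + 1) * l ^ (3 * (t + 1 + 1)) := by
            apply Nat.mul_le_mul _ le_rfl
            omega

end Pool.Agent.PP5C
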