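import Pool.Agent.PP5C.Sy3

/-!
# Sy4: symmetric `4 × 4` matrices, primitive, with `l ^ s ∣ adj` (difficulty 5)

`s ≥ 1` (for `s = 0` the count is at most `1`).
* (A) some diagonal entry is prime to `l`: four cases; say `y 0` (the others by permuting the indices of the matrix).  Row 0 is
  `(y0, y4, y5, y6)`: `l ^ (4 s)` possibilities at most.  The `3 × 3` minors with row and column `0` are, up to sign,
  `y0⁻¹` times the `2 × 2` minors of the symmetric `3 × 3` matrix `y' ab = y0 m_ab - m_0a m_0b` (`a, b = 1, 2, 3`), and they are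
  entries of the adjugate of `m`: so `l ^ s ∣ y0 * (minor)`, i.e. `M2 (l ^ s) y'`.  For fixed row 0 the map from the remaining six
  entries to `y'` is injective modulo `l ^ s` (`y0` is a unit).  `sy3`: at most `4 * l ^ (4 s) * 3 (s + 1) l ^ (3 s)`.
* (B) all diagonal entries are divisible by `l`, some off-diagonal entry `m_ij` is prime to `l` (primitivity): six cases, say
  `m_01 = y 4`.  `P = [[y0, y4],[y4, y1]]` has a determinant prime to `l`.  The `3 × 3` minors with rows `0, 1, a` and columns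
  `0, 1, b` (`a, b = 2, 3`) vanish modulo `l ^ s`: `det P * m_ab = (polynomial in the entries of the rows 0, 1)`, so the
  three entries `m_22, m_33, m_23` are determined modulo `l ^ s` by the seven others: `≤ 6 * l ^ (7 s)`.
Total `≤ (12 (s + 1) + 6) l ^ (7 s) ≤ 18 (s + 1) l ^ (7 s)`.
-/

set_option autoImplicit false

namespace Pool.Agent.PP5C

open Finset Pool.Agent.PPS

/-- the symmetric matrix with diagonal `y0, y1, y2, y3` and off-diagonal entries `y4, ..., y9` -/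
def sm (y : Fin 10 → ℤ) : Matrix (Fin 4) (Fin 4) ℤ :=
  !![y 0, y 4, y 5, y 6; y 4, y 1, y 7, y 8; y 5, y 7, y 2, y 9; y 6, y 8, y 9, y 3]

/-- the index of an entry -/
def sy4_ix : Fin 4 → Fin 4 → Fin 10 :=
  ![![0, 4, 5, 6], ![4, 1, 7, 8], ![5, 7, 2, 9], ![6, 8, 9, 3]]

/-- an entry with the given index -/
def sy4_pr : Fin 10 → Fin 4 × Fin 4 :=
  ![(0, 0), (1, 1), (2, 2), (3, 3), (0, 1), (0, 2), (0, 3), (1, 2), (1, 3), (2, 3)]

/-- the permutation of the indices -/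
def sy4_ta (f : Fin 4 → Fin 4) (k : Fin 10) : Fin 10 :=
  sy4_ix (f (sy4_pr k).1) (f (sy4_pr k).2)

theorem sy4_sm (y : Fin 10 → ℤ) (i j : Fin 4) : sm y i j = y (sy4_ix i j) := by
  fin_cases i <;> fin_cases j <;> rfl

theorem sy4_sy (i j : Fin 4) : sy4_ix i j = sy4_ix j i := by
  fin_cases i <;> fin_cases j <;> rfl

theorem sy4_ti (f : Fin 4 → Fin 4) (i j : Fin 4) :
    sy4_ta f (sy4_ix i j) = sy4_ix (f i) (f j) := by
  fin_cases i <;> fin_cases j <;> first | rfl | exact sy4_sy _ _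

theorem sy4_pi (k : Fin 10) : sy4_ix (sy4_pr k).1 (sy4_pr k).2 = k := by
  fin_cases k <;> rfl

theorem sy4_co (f g : Fin 4 → Fin 4) (k : Fin 10) :
    sy4_ta f (sy4_ta g k) = sy4_ta (f ∘ g) k := by
  conv_lhs => rw [show sy4_ta g k = sy4_ix (g (sy4_pr k).1) (g (sy4_pr k).2) from rfl]
  rw [sy4_ti]
  rfl

theorem sy4_id (k : Fin 10) : sy4_ta (fun i => i) k = k := by
  unfold sy4_ta
  exact sy4_pi k

theorem sy4_sub (σ : Equiv.Perm (Fin 4)) (y : Fin 10 → ℤ) :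
    sm (y ∘ sy4_ta σ) = (sm y).submatrix σ σ := by
  ext i j
  rw [sy4_sm, Matrix.submatrix_apply, sy4_sm, Function.comp_apply, sy4_ti]

theorem sy4_adj (σ : Equiv.Perm (Fin 4)) (y : Fin 10 → ℤ) (N : ℤ)
    (h : ∀ i j, N ∣ (sm y).adjugate i j) : ∀ i j, N ∣ (sm (y ∘ sy4_ta σ)).adjugate i j := by
  intro i j
  rw [sy4_sub, Matrix.adjugate_submatrix_equiv_self, Matrix.submatrix_apply]
  exact h _ _

/-- transport of the counting by a permutation -/
theorem sy4_tr (σ : Equiv.Perm (Fin 4)) (n : ℕ) (P Q : (Fin 10 → ℤ) → Prop)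
    (h : ∀ y, P y → Q (y ∘ sy4_ta σ)) : nn (Fin 10) n P ≤ nn (Fin 10) n Q := by
  classical
  unfold nn
  refine Finset.card_le_card_of_injOn (fun y => y ∘ sy4_ta σ) ?_ ?_
  · intro y hy
    rw [Finset.mem_coe, Finset.mem_filter] at hy ⊢
    refine ⟨?_, h y hy.2⟩
    unfold cub at hy ⊢
    rw [Fintype.mem_piFinset] at hy ⊢
    intro i
    exact hy.1 _
  · intro y _ y' _ he
    funext k
    have h1 := congrFun he (sy4_ta σ.symm k)
    simp only [Function.comp_apply] at h1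
    rw [sy4_co] at h1
    have h2 : ((σ : Fin 4 → Fin 4) ∘ (σ.symm : Fin 4 → Fin 4)) = fun i => i := by
      funext i
      simp
    rw [h2, sy4_id] at h1
    exact h1

theorem sy4_mn (y : Fin 10 → ℤ) (i j : Fin 4) :
    (sm y).adjugate i j = (-1) ^ (j + i : ℕ) * ((sm y).submatrix j.succAbove i.succAbove).det :=
  Matrix.adjugate_fin_succ_eq_det_submatrix _ _ _

theorem sy4_33 (y : Fin 10 → ℤ) : (sm y).adjugate 3 3 =
    y 0 * y 1 * y 2 + 2 * y 4 * y 5 * y 7 - y 0 * y 7 ^ 2 - y 1 * y 5 ^ 2 - y 2 * y 4 ^ 2 := by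
  rw [sy4_mn, Matrix.det_fin_three]
  simp only [Matrix.submatrix_apply, sy4_sm]
  have e0 : (Fin.succAbove (3 : Fin 4) 0) = 0 := by decide
  have e1 : (Fin.succAbove (3 : Fin 4) 1) = 1 := by decide
  have e2 : (Fin.succAbove (3 : Fin 4) 2) = 2 := by decide
  rw [e0, e1, e2]
  simp only [sy4_ix]
  simp
  ring

theorem sy4_22 (y : Fin 10 → ℤ) : (sm y).adjugate 2 2 =
    y 0 * y 1 * y 3 + 2 * y 4 * y 6 * y 8 - y 0 * y 8 ^ 2 - y 1 * y 6 ^ 2 - y 3 * y 4 ^ 2 := by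
  rw [sy4_mn, Matrix.det_fin_three]
  simp only [Matrix.submatrix_apply, sy4_sm]
  have e0 : (Fin.succAbove (2 : Fin 4) 0) = 0 := by decide
  have e1 : (Fin.succAbove (2 : Fin 4) 1) = 1 := by decide
  have e2 : (Fin.succAbove (2 : Fin 4) 2) = 3 := by decide
  rw [e0, e1, e2]
  simp only [sy4_ix]
  simp
  ring

theorem sy4_11 (y : Fin 10 → ℤ) : (sm y).adjugate 1 1 =
    y 0 * y 2 * y 3 + 2 * y 5 * y 6 * y 9 - y 0 * y 9 ^ 2 - y 2 * y 6 ^ 2 - y 3 * y 5 ^ 2 := by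
  rw [sy4_mn, Matrix.det_fin_three]
  simp only [Matrix.submatrix_apply, sy4_sm]
  have e0 : (Fin.succAbove (1 : Fin 4) 0) = 0 := by decide
  have e1 : (Fin.succAbove (1 : Fin 4) 1) = 2 := by decide
  have e2 : (Fin.succAbove (1 : Fin 4) 2) = 3 := by decide
  rw [e0, e1, e2]
  simp only [sy4_ix]
  simp
  ring

/-- rows 0, 1, 2, columns 0, 1, 3 -/
theorem sy4_23 (y : Fin 10 → ℤ) : (sm y).adjugate 2 3 =
    -(y 0 * y 1 * y 9 + y 4 * y 8 * y 5 + y 6 * y 4 * y 7 - y 6 * y 1 * y 5 - y 4 ^ 2 * y 9 -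
      y 0 * y 8 * y 7) := by
  rw [sy4_mn, Matrix.det_fin_three]
  simp only [Matrix.submatrix_apply, sy4_sm]
  have e0 : (Fin.succAbove (2 : Fin 4) 0) = 0 := by decide
  have e1 : (Fin.succAbove (2 : Fin 4) 1) = 1 := by decide
  have e2 : (Fin.succAbove (2 : Fin 4) 2) = 3 := by decide
  have f0 : (Fin.succAbove (3 : Fin 4) 0) = 0 := by decide
  have f1 : (Fin.succAbove (3 : Fin 4) 1) = 1 := by decide
  have f2 : (Fin.succAbove (3 : Fin 4) 2) = 2 := by decide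
  rw [e0, e1, e2, f0, f1, f2]
  simp only [sy4_ix]
  simp
  ring

/-- rows 0, 1, 2, columns 0, 2, 3 -/
theorem sy4_13 (y : Fin 10 → ℤ) : (sm y).adjugate 1 3 =
    y 0 * (y 7 * y 9 - y 8 * y 2) - y 5 * (y 4 * y 9 - y 8 * y 5) +
      y 6 * (y 4 * y 2 - y 7 * y 5) := by
  rw [sy4_mn, Matrix.det_fin_three]
  simp only [Matrix.submatrix_apply, sy4_sm]
  have e0 : (Fin.succAbove (1 : Fin 4) 0) = 0 := by decide
  have e1 : (Fin.succAbove (1 : Fin 4) 1) = 2 := by decide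
  have e2 : (Fin.succAbove (1 : Fin 4) 2) = 3 := by decide
  have f0 : (Fin.succAbove (3 : Fin 4) 0) = 0 := by decide
  have f1 : (Fin.succAbove (3 : Fin 4) 1) = 1 := by decide
  have f2 : (Fin.succAbove (3 : Fin 4) 2) = 2 := by decide
  rw [e0, e1, e2, f0, f1, f2]
  simp only [sy4_ix]
  simp
  ring

/-- rows 0, 1, 3, columns 0, 2, 3 -/
theorem sy4_12 (y : Fin 10 → ℤ) : (sm y).adjugate 1 2 =
    -(y 0 * (y 7 * y 3 - y 8 * y 9) - y 5 * (y 4 * y 3 - y 8 * y 6) +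
      y 6 * (y 4 * y 9 - y 7 * y 6)) := by
  rw [sy4_mn, Matrix.det_fin_three]
  simp only [Matrix.submatrix_apply, sy4_sm]
  have e0 : (Fin.succAbove (1 : Fin 4) 0) = 0 := by decide
  have e1 : (Fin.succAbove (1 : Fin 4) 1) = 2 := by decide
  have e2 : (Fin.succAbove (1 : Fin 4) 2) = 3 := by decide
  have f0 : (Fin.succAbove (2 : Fin 4) 0) = 0 := by decide
  have f1 : (Fin.succAbove (2 : Fin 4) 1) = 1 := by decide
  have f2 : (Fin.succAbove (2 : Fin 4) 2) = 3 := by decide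
  rw [e0, e1, e2, f0, f1, f2]
  simp only [sy4_ix]
  simp
  ring

/-- the `3 × 3` matrix `y'` -/
def sy4_yp (y : Fin 10 → ℤ) : Fin 6 → ℤ :=
  ![y 0 * y 1 - y 4 ^ 2, y 0 * y 2 - y 5 ^ 2, y 0 * y 3 - y 6 ^ 2, y 0 * y 7 - y 4 * y 5,
    y 0 * y 8 - y 4 * y 6, y 0 * y 9 - y 5 * y 6]

theorem sy4_m2 (y : Fin 10 → ℤ) (N : ℕ) (h : ∀ i j, (N : ℤ) ∣ (sm y).adjugate i j) :
    M2 N (sy4_yp y) := by
  unfold M2
  have h33 := h 3 3
  have h22 := h 2 2
  have h11 := h 1 1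
  have h23 := h 2 3
  have h13 := h 1 3
  have h12 := h 1 2
  rw [sy4_33] at h33
  rw [sy4_22] at h22
  rw [sy4_11] at h11
  rw [sy4_23] at h23
  rw [sy4_13] at h13
  rw [sy4_12] at h12
  have e0 : sy4_yp y 0 = y 0 * y 1 - y 4 ^ 2 := rfl
  have e1 : sy4_yp y 1 = y 0 * y 2 - y 5 ^ 2 := rfl
  have e2 : sy4_yp y 2 = y 0 * y 3 - y 6 ^ 2 := rfl
  have e3 : sy4_yp y 3 = y 0 * y 7 - y 4 * y 5 := rfl
  have e4 : sy4_yp y 4 = y 0 * y 8 - y 4 * y 6 := rfl
  have e5 : sy4_yp y 5 = y 0 * y 9 - y 5 * y 6 := rfl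
  rw [e0, e1, e2, e3, e4, e5]
  refine ⟨?_, ?_, ?_, ?_, ?_, ?_⟩
  · refine (h33.mul_left (y 0)).trans (dvd_of_eq ?_)
    ring
  · refine (h22.mul_left (y 0)).trans (dvd_of_eq ?_)
    ring
  · refine (h11.mul_left (y 0)).trans (dvd_of_eq ?_)
    ring
  · refine (h23.mul_left (-(y 0))).trans (dvd_of_eq ?_)
    ring
  · refine (h13.mul_left (-(y 0))).trans (dvd_of_eq ?_)
    ring
  · refine (h12.mul_left (-(y 0))).trans (dvd_of_eq ?_)
    ring

theorem sy4_md (a N : ℤ) : a % N ≡ a [ZMOD N] := Int.mod_modEq a N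

theorem sy4_mm (N : ℕ) (y : Fin 6 → ℤ) (h : M2 N y) : M2 N (fun i => y i % (N : ℤ)) := by
  obtain ⟨h1, h2, h3, h4, h5, h6⟩ := h
  refine ⟨?_, ?_, ?_, ?_, ?_, ?_⟩
  · exact Int.modEq_zero_iff_dvd.1 ((((sy4_md _ _).mul (sy4_md _ _)).sub ((sy4_md _ _).pow 2)).trans
      (Int.modEq_zero_iff_dvd.2 h1))
  · exact Int.modEq_zero_iff_dvd.1 ((((sy4_md _ _).mul (sy4_md _ _)).sub ((sy4_md _ _).pow 2)).trans
      (Int.modEq_zero_iff_dvd.2 h2))
  · exact Int.modEq_zero_iff_dvd.1 ((((sy4_md _ _).mul (sy4_md _ _)).sub ((sy4_md _ _).pow 2)).trans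
      (Int.modEq_zero_iff_dvd.2 h3))
  · exact Int.modEq_zero_iff_dvd.1 ((((sy4_md _ _).mul (sy4_md _ _)).sub
      ((sy4_md _ _).mul (sy4_md _ _))).trans (Int.modEq_zero_iff_dvd.2 h4))
  · exact Int.modEq_zero_iff_dvd.1 ((((sy4_md _ _).mul (sy4_md _ _)).sub
      ((sy4_md _ _).mul (sy4_md _ _))).trans (Int.modEq_zero_iff_dvd.2 h5))
  · exact Int.modEq_zero_iff_dvd.1 ((((sy4_md _ _).mul (sy4_md _ _)).sub
      ((sy4_md _ _).mul (sy4_md _ _))).trans (Int.modEq_zero_iff_dvd.2 h6))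

theorem sy4_cc (k : ℕ) (N : ℕ) : (cub (Fin k) N).card = N ^ k := by
  unfold cub
  rw [Fintype.card_piFinset]
  simp

theorem sy4_inj {β : Type} (n : ℕ) (P : (Fin 10 → ℤ) → Prop) (T : Finset β)
    (f : (Fin 10 → ℤ) → β) (h1 : ∀ y ∈ cub (Fin 10) n, P y → f y ∈ T)
    (h2 : ∀ y ∈ cub (Fin 10) n, P y → ∀ y' ∈ cub (Fin 10) n, P y' → f y = f y' → y = y') :
    nn (Fin 10) n P ≤ T.card := by
  classical
  unfold nn
  refine Finset.card_le_card_of_injOn f ?_ ?_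
  · intro y hy
    rw [Finset.mem_coe, Finset.mem_filter] at hy
    exact h1 y hy.1 hy.2
  · intro y hy y' hy' he
    rw [Finset.mem_coe, Finset.mem_filter] at hy hy'
    exact h2 y hy.1 hy.2 y' hy'.1 hy'.2 he

theorem sy4_un {κ : Type} (I : Finset κ) (n : ℕ) (P : (Fin 10 → ℤ) → Prop)
    (Q : κ → (Fin 10 → ℤ) → Prop) (h : ∀ y ∈ cub (Fin 10) n, P y → ∃ k ∈ I, Q k y) :
    nn (Fin 10) n P ≤ ∑ k ∈ I, nn (Fin 10) n (Q k) := by
  classical
  unfold nn
  refine (Finset.card_le_card (t := I.biUnion fun k => (cub (Fin 10) n).filter (Q k)) ?_).trans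
    (le_trans Finset.card_biUnion_le (le_of_eq ?_))
  · intro y hy
    rw [Finset.mem_filter] at hy
    obtain ⟨k, hk, hq⟩ := h y hy.1 hy.2
    rw [Finset.mem_biUnion]
    exact ⟨k, hk, Finset.mem_filter.2 ⟨hy.1, hq⟩⟩
  · refine Finset.sum_congr rfl fun k _ => ?_
    congr!

/-- equality from the congruence times a unit -/
theorem sy4_eq {l : ℕ} (hl : l.Prime) (s : ℕ) (u a b : ℤ) (hu : ¬ (l : ℤ) ∣ u)
    (ha : a ∈ Ico (0 : ℤ) ((l ^ s : ℕ) : ℤ)) (hb : b ∈ Ico (0 : ℤ) ((l ^ s : ℕ) : ℤ))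
    (h : ((l ^ s : ℕ) : ℤ) ∣ u * (a - b)) : a = b := by
  have hc : IsCoprime (((l ^ s : ℕ) : ℤ)) u := by
    push_cast
    apply IsCoprime.pow_left
    exact ((Nat.prime_iff_prime_int.1 hl).coprime_iff_not_dvd).2 hu
  have h1 : ((l ^ s : ℕ) : ℤ) ∣ a - b := hc.dvd_of_dvd_mul_left h
  rw [Finset.mem_Ico] at ha hb
  have h2 : |a - b| < ((l ^ s : ℕ) : ℤ) := by
    rw [abs_lt]
    constructor <;> omega
  have h3 := Int.eq_zero_of_abs_lt_dvd h1 h2
  omega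

theorem sy4_a {l : ℕ} (hl : l.Prime) (s : ℕ) :
    nn (Fin 10) (l ^ s) (fun y => (∀ i j, ((l ^ s : ℕ) : ℤ) ∣ (sm y).adjugate i j) ∧
      ¬ (l : ℤ) ∣ y 0) ≤ (l ^ s) ^ 4 * (3 * (s + 1) * l ^ (3 * s)) := by
  classical
  have hN : (0 : ℤ) < ((l ^ s : ℕ) : ℤ) := by exact_mod_cast pow_pos hl.pos s
  have h0 : (nn (Fin 10) (l ^ s) (fun y => (∀ i j, ((l ^ s : ℕ) : ℤ) ∣ (sm y).adjugate i j) ∧
      ¬ (l : ℤ) ∣ y 0)) ≤ ((cub (Fin 4) (l ^ s)) ×ˢ ((cub (Fin 6) (l ^ s)).filter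
        (fun y => M2 (l ^ s) y))).card := by
    refine sy4_inj _ _ _
      (fun y => ((![y 0, y 4, y 5, y 6] : Fin 4 → ℤ),
        fun i => sy4_yp y i % ((l ^ s : ℕ) : ℤ))) ?_ ?_
    · rintro y hy1 ⟨hy2, hy3⟩
      unfold cub at hy1
      rw [Fintype.mem_piFinset] at hy1
      rw [Finset.mem_product]
      constructor
      · unfold cub
        rw [Fintype.mem_piFinset]
        intro i
        fin_cases i
        · exact hy1 0
        · exact hy1 4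
        · exact hy1 5
        · exact hy1 6
      · rw [Finset.mem_filter]
        constructor
        · unfold cub
          rw [Fintype.mem_piFinset]
          intro i
          rw [Finset.mem_Ico]
          exact ⟨Int.emod_nonneg _ hN.ne', Int.emod_lt_of_pos _ hN⟩
        · exact sy4_mm _ _ (sy4_m2 y _ hy2)
    · rintro y hy1 ⟨hy2, hy3⟩ y' hy1' ⟨hy2', hy3'⟩ he
      unfold cub at hy1 hy1'
      rw [Fintype.mem_piFinset] at hy1 hy1'
      have he1 := congrArg Prod.fst he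
      have he2 := congrArg Prod.snd he
      simp only at he1 he2
      have g0 : y 0 = y' 0 := congrFun he1 0
      have g4 : y 4 = y' 4 := congrFun he1 1
      have g5 : y 5 = y' 5 := congrFun he1 2
      have g6 : y 6 = y' 6 := congrFun he1 3
      have hd : ∀ i, ((l ^ s : ℕ) : ℤ) ∣ sy4_yp y i - sy4_yp y' i := by
        intro i
        have h1 := congrFun he2 i
        exact Int.ModEq.dvd (show sy4_yp y' i ≡ sy4_yp y i [ZMOD _] from h1.symm)
      have g1 : y 1 = y' 1 := by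
        refine sy4_eq hl s (y 0) _ _ hy3 (hy1 1) (hy1' 1) ((hd 0).trans (dvd_of_eq ?_))
        show (y 0 * y 1 - y 4 ^ 2) - (y' 0 * y' 1 - y' 4 ^ 2) = _
        rw [← g0, ← g4]
        ring
      have g2 : y 2 = y' 2 := by
        refine sy4_eq hl s (y 0) _ _ hy3 (hy1 2) (hy1' 2) ((hd 1).trans (dvd_of_eq ?_))
        show (y 0 * y 2 - y 5 ^ 2) - (y' 0 * y' 2 - y' 5 ^ 2) = _
        rw [← g0, ← g5]
        ring
      have g3 : y 3 = y' 3 := by
        refine sy4_eq hl s (y 0) _ _ hy3 (hy1 3) (hy1' 3) ((hd 2).trans (dvd_of_eq ?_))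
        show (y 0 * y 3 - y 6 ^ 2) - (y' 0 * y' 3 - y' 6 ^ 2) = _
        rw [← g0, ← g6]
        ring
      have g7 : y 7 = y' 7 := by
        refine sy4_eq hl s (y 0) _ _ hy3 (hy1 7) (hy1' 7) ((hd 3).trans (dvd_of_eq ?_))
        show (y 0 * y 7 - y 4 * y 5) - (y' 0 * y' 7 - y' 4 * y' 5) = _
        rw [← g0, ← g4, ← g5]
        ring
      have g8 : y 8 = y' 8 := by
        refine sy4_eq hl s (y 0) _ _ hy3 (hy1 8) (hy1' 8) ((hd 4).trans (dvd_of_eq ?_))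
        show (y 0 * y 8 - y 4 * y 6) - (y' 0 * y' 8 - y' 4 * y' 6) = _
        rw [← g0, ← g4, ← g6]
        ring
      have g9 : y 9 = y' 9 := by
        refine sy4_eq hl s (y 0) _ _ hy3 (hy1 9) (hy1' 9) ((hd 5).trans (dvd_of_eq ?_))
        show (y 0 * y 9 - y 5 * y 6) - (y' 0 * y' 9 - y' 5 * y' 6) = _
        rw [← g0, ← g5, ← g6]
        ring
      funext i
      fin_cases i
      · exact g0
      · exact g1
      · exact g2
      · exact g3
      · exact g4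
      · exact g5
      · exact g6
      · exact g7
      · exact g8
      · exact g9
  refine h0.trans ?_
  rw [Finset.card_product, sy4_cc]
  refine Nat.mul_le_mul_left _ ?_
  have h1 := sy3 hl s
  unfold nn at h1
  convert h1

theorem sy4_b {l : ℕ} (hl : l.Prime) (s : ℕ) :
    nn (Fin 10) (l ^ s) (fun y => (∀ i j, ((l ^ s : ℕ) : ℤ) ∣ (sm y).adjugate i j) ∧
      ((l : ℤ) ∣ y 0 ∧ ¬ (l : ℤ) ∣ y 4)) ≤ (l ^ s) ^ 7 := by
  classical
  have h0 : (nn (Fin 10) (l ^ s) (fun y => (∀ i j, ((l ^ s : ℕ) : ℤ) ∣ (sm y).adjugate i j) ∧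
      ((l : ℤ) ∣ y 0 ∧ ¬ (l : ℤ) ∣ y 4))) ≤ (cub (Fin 7) (l ^ s)).card := by
    refine sy4_inj _ _ _
      (fun y => (![y 0, y 1, y 4, y 5, y 6, y 7, y 8] : Fin 7 → ℤ)) ?_ ?_
    · rintro y hy1 ⟨hy2, hy3⟩
      unfold cub at hy1
      rw [Fintype.mem_piFinset] at hy1
      unfold cub
      rw [Fintype.mem_piFinset]
      intro i
      fin_cases i
      · exact hy1 0
      · exact hy1 1
      · exact hy1 4
      · exact hy1 5
      · exact hy1 6
      · exact hy1 7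
      · exact hy1 8
    · rintro y hy1 ⟨hy2, hy3, hy4⟩ y' hy1' ⟨hy2', hy3', hy4'⟩ he
      unfold cub at hy1 hy1'
      rw [Fintype.mem_piFinset] at hy1 hy1'
      have g0 : y 0 = y' 0 := congrFun he 0
      have g1 : y 1 = y' 1 := congrFun he 1
      have g4 : y 4 = y' 4 := congrFun he 2
      have g5 : y 5 = y' 5 := congrFun he 3
      have g6 : y 6 = y' 6 := congrFun he 4
      have g7 : y 7 = y' 7 := congrFun he 5
      have g8 : y 8 = y' 8 := congrFun he 6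
      have hu : ¬ (l : ℤ) ∣ y 0 * y 1 - y 4 ^ 2 := by
        intro h
        have h1 : (l : ℤ) ∣ y 4 ^ 2 := by
          have h2 := (hy3.mul_right (y 1)).sub h
          rwa [sub_sub_cancel] at h2
        exact hy4 ((Nat.prime_iff_prime_int.1 hl).dvd_of_dvd_pow h1)
      have h33 := hy2 3 3
      have h33' := hy2' 3 3
      have h22 := hy2 2 2
      have h22' := hy2' 2 2
      have h23 := hy2 2 3
      have h23' := hy2' 2 3
      rw [sy4_33] at h33 h33'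
      rw [sy4_22] at h22 h22'
      rw [sy4_23] at h23 h23'
      have g2 : y 2 = y' 2 := by
        refine sy4_eq hl s _ _ _ hu (hy1 2) (hy1' 2) ((h33.sub h33').trans (dvd_of_eq ?_))
        rw [← g0, ← g1, ← g4, ← g5, ← g7]
        ring
      have g3 : y 3 = y' 3 := by
        refine sy4_eq hl s _ _ _ hu (hy1 3) (hy1' 3) ((h22.sub h22').trans (dvd_of_eq ?_))
        rw [← g0, ← g1, ← g4, ← g6, ← g8]
        ring
      have g9 : y 9 = y' 9 := by
        refine sy4_eq hl s _ _ _ hu (hy1 9) (hy1' 9) ((h23'.sub h23).trans (dvd_of_eq ?_))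
        rw [← g0, ← g1, ← g4, ← g5, ← g6, ← g7, ← g8]
        ring
      funext i
      fin_cases i
      · exact g0
      · exact g1
      · exact g2
      · exact g3
      · exact g4
      · exact g5
      · exact g6
      · exact g7
      · exact g8
      · exact g9
  refine h0.trans ?_
  rw [sy4_cc]

theorem sy4_ea : ∀ k : Fin 4, ∃ σ : Equiv.Perm (Fin 4), σ 0 = k := by
  intro k
  exact ⟨Equiv.swap 0 k, Equiv.swap_apply_left _ _⟩

theorem sy4_eb : ∀ i j : Fin 4, i ≠ j → ∃ σ : Equiv.Perm (Fin 4), σ 0 = i ∧ σ 1 = j := by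
  decide

theorem sy4 {l : ℕ} (hl : l.Prime) (s : ℕ) :
    nn (Fin 10) (l ^ s) (fun y => Pv l y ∧ ∀ i j, ((l ^ s : ℕ) : ℤ) ∣ (sm y).adjugate i j) ≤
      18 * (s + 1) * l ^ (7 * s) := by
  have hA : ∀ k : Fin 4, nn (Fin 10) (l ^ s)
      (fun y => (∀ i j, ((l ^ s : ℕ) : ℤ) ∣ (sm y).adjugate i j) ∧ ¬ (l : ℤ) ∣ sm y k k) ≤
      (l ^ s) ^ 4 * (3 * (s + 1) * l ^ (3 * s)) := by
    intro k
    obtain ⟨σ, hσ⟩ := sy4_ea k
    refine (sy4_tr σ _ _ _ ?_).trans (sy4_a hl s)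
    rintro y ⟨h1, h2⟩
    refine ⟨sy4_adj σ y _ h1, ?_⟩
    have h3 : (y ∘ sy4_ta σ) 0 = sm y k k := by
      rw [← hσ]
      have := congrFun (congrFun (sy4_sub σ y) 0) 0
      rw [Matrix.submatrix_apply] at this
      rw [← this, sy4_sm]
      rfl
    rw [h3]
    exact h2
  have hB : ∀ i j : Fin 4, i ≠ j → nn (Fin 10) (l ^ s)
      (fun y => (∀ i j, ((l ^ s : ℕ) : ℤ) ∣ (sm y).adjugate i j) ∧
        ((l : ℤ) ∣ sm y i i ∧ ¬ (l : ℤ) ∣ sm y i j)) ≤ (l ^ s) ^ 7 := by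
    intro i j hij
    obtain ⟨σ, hσ, hσ'⟩ := sy4_eb i j hij
    refine (sy4_tr σ _ _ _ ?_).trans (sy4_b hl s)
    rintro y ⟨h1, h2, h2'⟩
    have h3 : (y ∘ sy4_ta σ) 0 = sm y i i := by
      rw [← hσ]
      have := congrFun (congrFun (sy4_sub σ y) 0) 0
      rw [Matrix.submatrix_apply] at this
      rw [← this, sy4_sm]
      rfl
    have h4 : (y ∘ sy4_ta σ) 4 = sm y i j := by
      rw [← hσ, ← hσ']
      have := congrFun (congrFun (sy4_sub σ y) 0) 1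
      rw [Matrix.submatrix_apply] at this
      rw [← this, sy4_sm]
      rfl
    refine ⟨sy4_adj σ y _ h1, ?_⟩
    rw [h3, h4]
    exact ⟨h2, h2'⟩
  -- the covering
  let PA : Fin 4 → (Fin 10 → ℤ) → Prop := fun k y =>
    (∀ i j, ((l ^ s : ℕ) : ℤ) ∣ (sm y).adjugate i j) ∧ ¬ (l : ℤ) ∣ sm y k k
  let PB : Fin 4 × Fin 4 → (Fin 10 → ℤ) → Prop := fun p y =>
    (∀ i j, ((l ^ s : ℕ) : ℤ) ∣ (sm y).adjugate i j) ∧
        ((l : ℤ) ∣ sm y p.1 p.1 ∧ ¬ (l : ℤ) ∣ sm y p.1 p.2)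
  let PP : Finset (Fin 4 × Fin 4) := Finset.univ.filter (fun p => p.1 < p.2)
  let QQ : Bool → (Fin 10 → ℤ) → Prop := fun b y =>
    cond b (∃ k, PA k y) (∃ p ∈ PP, PB p y)
  have hcov : nn (Fin 10) (l ^ s)
      (fun y => Pv l y ∧ ∀ i j, ((l ^ s : ℕ) : ℤ) ∣ (sm y).adjugate i j) ≤
      ∑ b ∈ (Finset.univ : Finset Bool), nn (Fin 10) (l ^ s) (QQ b) := by
    refine sy4_un _ _ _ _ ?_
    rintro y hy1 ⟨⟨k, hk⟩, hy3⟩
    by_cases hd : ∃ a : Fin 4, ¬ (l : ℤ) ∣ sm y a a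
    · obtain ⟨a, ha⟩ := hd
      exact ⟨true, Finset.mem_univ _, a, hy3, ha⟩
    · push Not at hd
      have hk' : ¬ (l : ℤ) ∣ sm y (sy4_pr k).1 (sy4_pr k).2 := by
        rw [sy4_sm, sy4_pi]
        exact hk
      have hne : (sy4_pr k).1 < (sy4_pr k).2 := by
        have h1 : ∀ k : Fin 10, (sy4_pr k).1 = (sy4_pr k).2 ∨ (sy4_pr k).1 < (sy4_pr k).2 := by
          decide
        rcases h1 k with h | h
        · exfalso
          apply hk'
          rw [← h]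
          exact hd _
        · exact h
      exact ⟨false, Finset.mem_univ _, sy4_pr k,
        Finset.mem_filter.2 ⟨Finset.mem_univ _, hne⟩, hy3, hd _, hk'⟩
  have hc1 : nn (Fin 10) (l ^ s) (QQ true) ≤ 4 * ((l ^ s) ^ 4 * (3 * (s + 1) * l ^ (3 * s))) := by
    have h1 : nn (Fin 10) (l ^ s) (QQ true) ≤
        ∑ k ∈ (Finset.univ : Finset (Fin 4)), nn (Fin 10) (l ^ s) (PA k) :=
      sy4_un _ _ _ _ fun y _ hy => by
        obtain ⟨k, hk⟩ := (show ∃ k, PA k y from hy)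
        exact ⟨k, Finset.mem_univ _, hk⟩
    refine h1.trans ((Finset.sum_le_sum fun k _ => hA k).trans ?_)
    simp
  have hc2 : nn (Fin 10) (l ^ s) (QQ false) ≤ 6 * (l ^ s) ^ 7 := by
    have h1 : nn (Fin 10) (l ^ s) (QQ false) ≤ ∑ p ∈ PP, nn (Fin 10) (l ^ s) (PB p) :=
      sy4_un _ _ _ _ fun y _ hy => (show ∃ p ∈ PP, PB p y from hy)
    refine h1.trans ((Finset.sum_le_sum fun p hp => hB p.1 p.2
      (Finset.mem_filter.1 hp).2.ne).trans ?_)
    rw [Finset.sum_const, smul_eq_mul]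
    refine Nat.mul_le_mul_right _ ?_
    have : PP.card = 6 := by
      show (Finset.univ.filter (fun p : Fin 4 × Fin 4 => p.1 < p.2)).card = 6
      decide
    rw [this]
  have hfin : nn (Fin 10) (l ^ s)
      (fun y => Pv l y ∧ ∀ i j, ((l ^ s : ℕ) : ℤ) ∣ (sm y).adjugate i j) ≤
      4 * ((l ^ s) ^ 4 * (3 * (s + 1) * l ^ (3 * s))) + 6 * (l ^ s) ^ 7 := by
    rw [Fintype.sum_bool] at hcov
    exact hcov.trans (Nat.add_le_add hc1 hc2)
  refine hfin.trans ?_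
  have e1 : (l ^ s) ^ 4 * (3 * (s + 1) * l ^ (3 * s)) = 3 * (s + 1) * l ^ (7 * s) := by
    have : l ^ (7 * s) = (l ^ s) ^ 4 * l ^ (3 * s) := by
      rw [← pow_mul, ← pow_add]
      congr 1
      ring
    rw [this]
    ring
  have e2 : (l ^ s) ^ 7 = l ^ (7 * s) := by
    rw [← pow_mul]
    congr 1
    ring
  rw [e1, e2]
  nlinarith [Nat.zero_le (s * l ^ (7 * s))]

end Pool.Agent.PP5C
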